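import Pool.Agent.WFS.Setup

/-! # Matrices which preserve a flag and are close to a matrix of rank one -/

set_option autoImplicit false
set_option linter.unusedSectionVars false

namespace Pool.Agent.WFS

/-- the vector over `ℚ` -/
def cq {k : ℕ} (x : Fin k → ℤ) : Fin k → ℚ := fun i => (x i : ℚ)

/-- the integer matrices which map `V i` into `V (i + 1)` for `i < s` -/
def FP {k : ℕ} (V : ℕ → Submodule ℚ (Fin k → ℚ)) (s : ℕ) :
    AddSubgroup (Fin k → Fin k → ℤ) where
  carrier := {M | ∀ i < s, ∀ x ∈ V i, (fun a => ∑ b, (M a b : ℚ) * x b) ∈ V (i + 1)}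
  zero_mem' := by
    intro i _ x _
    have : (fun a => ∑ b, (((0 : Fin k → Fin k → ℤ) a b : ℤ) : ℚ) * x b) = 0 := by
      funext a
      simp
    rw [this]
    exact (V (i + 1)).zero_mem
  add_mem' := by
    intro M M' hM hM' i hi x hx
    have : (fun a => ∑ b, (((M + M') a b : ℤ) : ℚ) * x b) =
        (fun a => ∑ b, (M a b : ℚ) * x b) + fun a => ∑ b, (M' a b : ℚ) * x b := by
      funext a
      simp only [Pi.add_apply, Int.cast_add, add_mul, Finset.sum_add_distrib]
    rw [this]
    exact (V (i + 1)).add_mem (hM i hi x hx) (hM' i hi x hx)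
  neg_mem' := by
    intro M hM i hi x hx
    have : (fun a => ∑ b, (((-M) a b : ℤ) : ℚ) * x b) =
        -(fun a => ∑ b, (M a b : ℚ) * x b) := by
      funext a
      simp only [Pi.neg_apply, Int.cast_neg, neg_mul, Finset.sum_neg_distrib]
    rw [this]
    exact (V (i + 1)).neg_mem (hM i hi x hx)

/-- the action of a matrix -/
def act {k : ℕ} (M : Fin k → Fin k → ℤ) : Module.End ℤ (Fin k → ℤ) :=
  Matrix.mulVecLin (Matrix.of M)

theorem act_apply {k : ℕ} (M : Fin k → Fin k → ℤ) (x : Fin k → ℤ) (a : Fin k) :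
    act M x a = ∑ b, M a b * x b := rfl

theorem cq_act {k : ℕ} (M : Fin k → Fin k → ℤ) (x : Fin k → ℤ) :
    cq (act M x) = fun a => ∑ b, (M a b : ℚ) * cq x b := by
  funext a
  show ((act M x a : ℤ) : ℚ) = _
  rw [act_apply]
  push_cast
  rfl

theorem fil_of_flag {k s : ℕ} {V : ℕ → Submodule ℚ (Fin k → ℚ)} {α : Type}
    {M : α → Fin k → Fin k → ℤ} (hM : ∀ a, M a ∈ FP V s) {u0 : Fin k → ℤ}
    (h0 : ∀ x, cq x ∈ V s → ∃ m : ℤ, x = m • u0) (j : ℕ) (hj : j ≤ s) (x : Fin k → ℤ)
    (hx : cq x ∈ V (s - j)) : x ∈ Fil (fun a => act (M a)) u0 j := by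
  induction j generalizing x with
  | zero => exact mem_Fil_zero.2 (h0 x hx)
  | succ j ih =>
    rw [mem_Fil_succ]
    intro a
    refine ih (by omega) _ ?_
    rw [cq_act]
    have h1 : s - j = s - (j + 1) + 1 := by omega
    rw [h1]
    exact hM a _ (by omega) _ hx

theorem tm_sum_left {L : Type} [AddCommGroup L] {P : AddSubmonoid L} {β : Type} (s : Finset β)
    (x : β → P) (y : dq P) : tm (∑ a ∈ s, x a) y = ∑ a ∈ s, tm (x a) y := by
  rw [← tmHom_apply, map_sum, AddMonoidHom.finsetSum_apply]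
  rfl

theorem tm_sum_right {L : Type} [AddCommGroup L] {P : AddSubmonoid L} {β : Type} (s : Finset β)
    (x : P) (y : β → dq P) : tm x (∑ a ∈ s, y a) = ∑ a ∈ s, tm x (y a) := by
  rw [← tmHom_apply, map_sum]
  rfl

/-- bound of a functional on matrices -/
theorem dual_bound {k : ℕ} (Y : Module.Dual ℤ (Fin k → Fin k → ℤ)) :
    ∃ K : ℕ, ∀ (N : Fin k → Fin k → ℤ) (m : ℕ), (∀ a b, (N a b).natAbs ≤ m) →
      (Y N).natAbs ≤ K * m := by
  refine ⟨∑ a, ∑ b, (Y (Pi.single a (Pi.single b 1))).natAbs, fun N m hm => ?_⟩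
  have h1 : Y N = ∑ a, ∑ b, N a b * Y (Pi.single a (Pi.single b 1)) := by
    have h2 : N = ∑ a, ∑ b, N a b • (Pi.single a (Pi.single b 1) : Fin k → Fin k → ℤ) := by
      funext i j
      rw [Finset.sum_apply, Finset.sum_apply, Finset.sum_eq_single i, Finset.sum_apply,
        Finset.sum_apply, Finset.sum_eq_single j]
      · simp
      · intro b _ hb
        simp [Pi.single_eq_of_ne hb.symm]
      · intro h
        exact absurd (Finset.mem_univ _) h
      · intro a _ ha
        rw [Finset.sum_apply, Finset.sum_apply]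
        refine Finset.sum_eq_zero fun b _ => ?_
        simp [Pi.single_eq_of_ne ha.symm]
      · intro h
        exact absurd (Finset.mem_univ _) h
    conv_lhs => rw [h2]
    rw [map_sum]
    refine Finset.sum_congr rfl fun a _ => ?_
    rw [map_sum]
    refine Finset.sum_congr rfl fun b _ => ?_
    rw [map_smul, smul_eq_mul]
  rw [h1]
  refine (Int.natAbs_sum_le _ _).trans ?_
  rw [Finset.sum_mul]
  refine Finset.sum_le_sum fun a _ => (Int.natAbs_sum_le _ _).trans ?_
  rw [Finset.sum_mul]
  refine Finset.sum_le_sum fun b _ => ?_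
  rw [Int.natAbs_mul, mul_comm]
  exact Nat.mul_le_mul_left _ (hm a b)

/-- generators of a group of matrices with bounded coefficients -/
theorem gens {k : ℕ} (H : AddSubgroup (Fin k → Fin k → ℤ)) :
    ∃ (α : Type) (_ : Fintype α) (M : α → Fin k → Fin k → ℤ) (K : α → ℕ), (∀ a, M a ∈ H) ∧
      ∀ N ∈ H, ∃ q : α → ℕ, N = ∑ a, q a • M a ∧
        ∀ m : ℕ, (∀ a b, (N a b).natAbs ≤ m) → ∀ a, q a ≤ K a * m := by
  have hfin : Module.Finite ℤ ↥H :=
    Module.Finite.of_injective H.subtype.toIntLinearMap H.subtype_injective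
  have hfree : Module.Free ℤ ↥H := by
    have : Module.IsTorsionFree ℤ ↥H :=
      H.subtype_injective.moduleIsTorsionFree _ (fun _ _ => rfl)
    exact Module.free_of_finite_type_torsion_free'
  let b := Module.Free.chooseBasis ℤ ↥H
  choose r hr Y hY using fun i => exists_extend H (b.coord i)
  choose K hK using fun i => dual_bound (Y i)
  have hc : ∀ (i : Module.Free.ChooseBasisIndex ℤ ↥H) (N : ↥H) (m : ℕ),
      (∀ a b, (N.1 a b).natAbs ≤ m) → (b.coord i N).natAbs ≤ K i * m := by
    intro i N m hm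
    have h1 := hK i N.1 m hm
    rw [hY, Int.natAbs_mul, Int.natAbs_natCast] at h1
    exact (Nat.le_mul_of_pos_left _ (hr i)).trans h1
  refine ⟨Module.Free.ChooseBasisIndex ℤ ↥H × Bool, inferInstance,
    fun a => if a.2 then (b a.1).1 else -(b a.1).1, fun a => K a.1, ?_, ?_⟩
  · intro a
    by_cases h : a.2
    · simp only [h, if_true]
      exact (b a.1).2
    · simp only [h]
      exact H.neg_mem (b a.1).2
  · intro N hN
    refine ⟨fun a => if a.2 then (b.coord a.1 ⟨N, hN⟩).toNat else (-(b.coord a.1 ⟨N, hN⟩)).toNat,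
      ?_, ?_⟩
    · rw [Fintype.sum_prod_type]
      have h1 : N = ∑ i, b.coord i ⟨N, hN⟩ • (b i).1 := by
        have h2 := b.sum_repr ⟨N, hN⟩
        have h3 := congrArg Subtype.val h2
        rw [AddSubgroup.val_finsetSum] at h3
        exact h3.symm
      conv_lhs => rw [h1]
      refine Finset.sum_congr rfl fun i _ => ?_
      rw [Fintype.sum_bool]
      simp only [if_true, Bool.false_eq_true, if_false]
      rw [← natCast_zsmul, ← natCast_zsmul, smul_neg, ← neg_smul, ← add_smul]
      congr 1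
      omega
    · intro m hm a
      have h1 := hc a.1 ⟨N, hN⟩ m hm
      by_cases h : a.2
      · simp only [h, if_true]
        refine le_trans ?_ h1
        omega
      · simp only [h]
        refine le_trans ?_ h1
        simp only [Bool.false_eq_true, if_false]
        omega

end Pool.Agent.WFS
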