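import Pool.Agent.WFS.Gor
import Pool.Agent.WFS.Flag

/-! # Matrices of lag two with a fixed column space -/

set_option autoImplicit false
set_option linter.unusedSectionVars false

namespace Pool.Agent.WFS

theorem sse_unit {A : Matrix Unit Unit ℕ} : Sse (toFin A) ⟨1, fun _ _ => A.trace⟩ := by
  have ht : A.trace = A () () := Fintype.sum_unique _
  have h1 : Est (toFin A) (toFin (fun _ _ => A.trace : Matrix (Fin 1) (Fin 1) ℕ)) := by
    refine est_toFin (fun _ _ => A () ()) (fun _ _ => 1) ?_ ?_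
    · ext i j
      rw [Matrix.mul_apply, Fin.sum_univ_one, mul_one]
    · ext i j
      rw [Matrix.mul_apply, Fintype.sum_unique, one_mul, ht]
  exact h1.sse.trans (sse_toFin_fin _).symm

/-- the integer points of a subspace -/
def latt {k : ℕ} (V : Submodule ℚ (Fin k → ℚ)) : AddSubgroup (Fin k → ℤ) where
  carrier := {x | cq x ∈ V}
  zero_mem' := by
    have : cq (0 : Fin k → ℤ) = 0 := by
      funext i
      simp [cq]
    show cq 0 ∈ V
    rw [this]
    exact V.zero_mem
  add_mem' := by
    intro x y hx hy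
    have : cq (x + y) = cq x + cq y := by
      funext i
      simp [cq]
    show cq (x + y) ∈ V
    rw [this]
    exact V.add_mem hx hy
  neg_mem' := by
    intro x hx
    have : cq (-x) = -cq x := by
      funext i
      simp [cq]
    show cq (-x) ∈ V
    rw [this]
    exact V.neg_mem hx

theorem mem_latt {k : ℕ} {V : Submodule ℚ (Fin k → ℚ)} {x : Fin k → ℤ} :
    x ∈ latt V ↔ cq x ∈ V := Iff.rfl

/-- the comparison of two families after subtraction of a multiple of the order unit -/
theorem key_eq {L : Type} [AddCommGroup L] {P : AddSubmonoid L} (t : Tm P) (m0 : ℕ)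
    {a b a' b' : Tm P} (ha : a = m0 • t + a') (hb : b = m0 • t + b')
    (h : a' + m0 • t = b' + m0 • t) : a = b := by
  rw [ha, hb, add_comm, h, add_comm]

theorem lag2_sse {k : ℕ} (hk : 1 ≤ k) (V : Submodule ℚ (Fin k → ℚ)) :
    ∃ T : ℕ, ∀ A : Matrix (Fin k) (Fin k) ℕ, (∀ j, (fun i => (A i j : ℚ)) ∈ V) →
      (∃ r : Fin k → ℚ, ∀ x ∈ V, ∃ a : ℚ, (fun i => ∑ b, (A i b : ℚ) * x b) = a • r) →
      (∀ i j, T ≤ A i j) → Sse (toFin (mt (zA A))) ⟨1, fun _ _ => (mt (zA A)).trace⟩ := by
  classical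
  by_cases hw : ∃ w : Fin k → ℤ, w ∈ latt V ∧ ∀ i, 1 ≤ w i
  swap
  · refine ⟨1, fun A hA _ hT => absurd ⟨fun i => (A i ⟨0, hk⟩ : ℤ), ?_, fun i => ?_⟩ hw⟩
    · rw [mem_latt]
      exact hA ⟨0, hk⟩
    · show (1 : ℤ) ≤ (A i ⟨0, hk⟩ : ℤ)
      exact_mod_cast hT i ⟨0, hk⟩
  obtain ⟨w, hwL, hw1⟩ := hw
  let L := latt V
  let P := cone' (P0 k) L
  have hfin : Module.Finite ℤ ↥L :=
    Module.Finite.of_injective L.subtype.toIntLinearMap L.subtype_injective
  have hfree : Module.Free ℤ ↥L := by
    have : Module.IsTorsionFree ℤ ↥L :=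
      L.subtype_injective.moduleIsTorsionFree _ (fun _ _ => rfl)
    exact Module.free_of_finite_type_torsion_free'
  have h := (CD0 hk hw1).restr L hwL
  have hP : P.FG := fg_cone L
  obtain ⟨m0, hm0⟩ := uni h hP (fg_dual h.ou h.hu hP)
  obtain ⟨S, hS⟩ := hP
  let c : Module.Dual ℤ ↥L := res L (c0 k)
  have hc : ∀ x : ↥L, c x = ∑ i, x.1 i := fun x => c0_apply x.1
  let C : ℕ := ∑ p ∈ S, (c p).natAbs
  let W : ℕ := ∑ i, (w i).natAbs
  have hW : ∀ i, w i ≤ W := by
    intro i
    have h1 : (w i).natAbs ≤ W :=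
      Finset.single_le_sum (f := fun i => (w i).natAbs) (fun _ _ => Nat.zero_le _)
        (Finset.mem_univ i)
    omega
  let R : ℕ := m0 * C * W
  refine ⟨m0 * W * R + m0 * W + 1, fun A hA hr hT => ?_⟩
  -- the action on the lattice
  have hA1 : ∀ i j, 1 ≤ A i j := fun i j => le_trans (Nat.le_add_left 1 _) (hT i j)
  let Ax : (Fin k → ℤ) → (Fin k → ℤ) := fun x i => ∑ b, (A i b : ℤ) * x b
  have hAq : ∀ x, cq (Ax x) = fun i => ∑ b, (A i b : ℚ) * cq x b := by
    intro x
    funext i
    show ((∑ b, (A i b : ℤ) * x b : ℤ) : ℚ) = _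
    push_cast
    rfl
  let u := Ax w
  have hu : ∀ i, 1 ≤ u i := by
    intro i
    have h1 : (A i ⟨0, hk⟩ : ℤ) * w ⟨0, hk⟩ ≤ u i :=
      Finset.single_le_sum (f := fun b => (A i b : ℤ) * w b)
        (fun b _ => mul_nonneg (Nat.cast_nonneg _) (zero_le_one.trans (hw1 b)))
        (Finset.mem_univ _)
    have h2 : (1 : ℤ) ≤ A i ⟨0, hk⟩ := by exact_mod_cast hA1 i ⟨0, hk⟩
    have h3 := hw1 ⟨0, hk⟩
    nlinarith
  obtain ⟨r, d, hr1, hd, hud, hgen⟩ := exists_prim ⟨0, hk⟩ u hu
  obtain ⟨r0, hr0⟩ := hr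
  obtain ⟨aw, haw⟩ := hr0 _ hwL
  have haw0 : aw ≠ 0 := by
    rintro rfl
    rw [zero_smul, ← hAq] at haw
    have h1 := congrFun haw ⟨0, hk⟩
    have h2 : ((u ⟨0, hk⟩ : ℤ) : ℚ) = 0 := h1
    have h3 := hu ⟨0, hk⟩
    have h4 : u ⟨0, hk⟩ = 0 := by exact_mod_cast h2
    omega
  have hmul : ∀ x ∈ L, ∃ m : ℤ, Ax x = m • r := by
    intro x hx
    apply hgen
    obtain ⟨a, ha⟩ := hr0 _ hx
    refine ⟨a / aw, fun i => ?_⟩
    have h1 := congrFun ((hAq x).trans ha) i
    have h2 := congrFun ((hAq w).trans haw) i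
    have h1' : ((Ax x i : ℤ) : ℚ) = a * r0 i := h1
    have h2' : ((u i : ℤ) : ℚ) = aw * r0 i := h2
    rw [h1', h2']
    field_simp
  have hrV : cq r ∈ V := by
    have h1 : cq r = (d : ℚ)⁻¹ • cq u := by
      funext i
      show ((r i : ℤ) : ℚ) = (d : ℚ)⁻¹ * ((u i : ℤ) : ℚ)
      have hd' : (d : ℚ) ≠ 0 := by
        have : d ≠ 0 := by omega
        exact_mod_cast this
      rw [hud, Pi.smul_apply, smul_eq_mul]
      push_cast
      rw [← mul_assoc, inv_mul_cancel₀ hd', one_mul]
    rw [h1]
    refine V.smul_mem _ ?_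
    have h2 : cq u = ∑ b, (w b : ℚ) • fun i => (A i b : ℚ) := by
      rw [hAq]
      funext i
      rw [Finset.sum_apply]
      refine Finset.sum_congr rfl fun b _ => ?_
      rw [Pi.smul_apply, smul_eq_mul, mul_comm]
      rfl
    rw [h2]
    exact V.sum_mem fun b _ => V.smul_mem _ (hA b)
  have hr0' : r ⟨0, hk⟩ ≠ 0 := by
    have := hr1 ⟨0, hk⟩
    omega
  have hsmul_inj : ∀ m m' : ℤ, m • r = m' • r → m = m' := by
    intro m m' hmm
    have h1 := congrFun hmm ⟨0, hk⟩
    rw [Pi.smul_apply, Pi.smul_apply, smul_eq_mul, smul_eq_mul] at h1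
    exact mul_right_cancel₀ hr0' h1
  choose f0 hf0 using fun x : ↥L => hmul x.1 x.2
  have hAadd : ∀ x y, Ax (x + y) = Ax x + Ax y := by
    intro x y
    funext i
    show ∑ b, (A i b : ℤ) * (x b + y b) = ∑ b, (A i b : ℤ) * x b + ∑ b, (A i b : ℤ) * y b
    rw [← Finset.sum_add_distrib]
    exact Finset.sum_congr rfl fun b _ => mul_add _ _ _
  let f : Module.Dual ℤ ↥L := AddMonoidHom.toIntLinearMap
    { toFun := f0
      map_zero' := by
        apply hsmul_inj
        rw [← hf0, zero_smul]
        funext i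
        show ∑ b, (A i b : ℤ) * 0 = 0
        simp
      map_add' := by
        intro x y
        apply hsmul_inj
        rw [← hf0, add_smul, ← hf0, ← hf0]
        exact hAadd _ _ }
  have hf : ∀ x : ↥L, Ax x.1 = f x • r := hf0
  -- positivity
  have hAnn : ∀ x ∈ P0 k, ∀ i, 0 ≤ Ax x i := fun x hx i =>
    Finset.sum_nonneg fun b _ => mul_nonneg (Nat.cast_nonneg _) (hx b)
  have hAT : ∀ x ∈ P0 k, ∀ (i : Fin k) (T' : ℕ), (∀ i j, T' ≤ A i j) →
      (T' : ℤ) * ∑ b, x b ≤ Ax x i := by
    intro x hx i T' hT'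
    rw [Finset.mul_sum]
    refine Finset.sum_le_sum fun b _ => mul_le_mul_of_nonneg_right ?_ (hx b)
    exact_mod_cast hT' i b
  have hfP : f ∈ dq P := by
    intro x hx
    have h1 := hAnn x.1 hx ⟨0, hk⟩
    rw [hf, Pi.smul_apply, smul_eq_mul] at h1
    have h2 : 0 < r ⟨0, hk⟩ := lt_of_lt_of_le zero_lt_one (hr1 _)
    exact nonneg_of_mul_nonneg_left h1 h2
  let rP : P := ⟨⟨r, hrV⟩, fun i => zero_le_one.trans (hr1 i)⟩
  let wP : P := ⟨⟨w, hwL⟩, h.hu⟩
  let cP : dq P := ⟨c, h.hc⟩
  let fP : dq P := ⟨f, hfP⟩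
  let z0 : Fin k → Pr P := restr L (zA A) (fun j => hA j)
  let E : Unit → Pr P := fun _ => (rP, fP)
  -- first family
  have hcolT : ∀ i j, m0 * W ≤ A i j := fun i j => by
    have := hT i j
    omega
  have hz1 : ∀ j i, 0 ≤ (A i j : ℤ) - m0 * w i := by
    intro j i
    have h1 : ((m0 * W : ℕ) : ℤ) ≤ A i j := by exact_mod_cast hcolT i j
    have h2 : (m0 : ℤ) * w i ≤ m0 * W := mul_le_mul_of_nonneg_left (hW i) (Nat.cast_nonneg _)
    push_cast at h1
    omega
  have hz1L : ∀ j, (fun i => (A i j : ℤ) - m0 * w i) ∈ L := by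
    intro j
    have h1 : (fun i => (A i j : ℤ) - m0 * w i) = (fun i => (A i j : ℤ)) - (m0 : ℤ) • w := by
      funext i
      simp
    rw [h1]
    exact L.sub_mem (hA j) (L.zsmul_mem hwL _)
  let z1 : Fin k → Pr P := fun j =>
    (⟨⟨fun i => (A i j : ℤ) - m0 * w i, hz1L j⟩, hz1 j⟩, (z0 j).2)
  have hcsum : ∑ j, (z0 j).2 = cP := by
    apply Subtype.ext
    rw [AddSubmonoid.coe_finsetSum]
    ext x
    rw [LinearMap.sum_apply]
    show ∑ j, x.1 j = c x
    rw [hc]
  have e1 : cl z0 = m0 • tm wP cP + cl z1 := by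
    have h1 : ∀ j, tm (z0 j).1 (z0 j).2 = m0 • tm wP (z0 j).2 + tm (z1 j).1 (z1 j).2 := by
      intro j
      have h2 : (z0 j).1 = m0 • wP + (z1 j).1 := by
        apply Subtype.ext
        apply Subtype.ext
        funext i
        show (A i j : ℤ) = (m0 • w) i + ((A i j : ℤ) - m0 * w i)
        rw [Pi.smul_apply, nsmul_eq_mul]
        ring
      rw [h2, tm_add_left, tm_nsmul_left]
    unfold cl
    rw [Finset.sum_congr rfl fun j _ => h1 j, Finset.sum_add_distrib, ← Finset.smul_sum,
      ← tm_sum_right, hcsum]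
  have ph1 : ∀ x : ↥L, (ph z1 x).1 = Ax x.1 - (m0 * c x) • w := by
    intro x
    rw [ph_apply, AddSubgroup.val_finsetSum]
    funext i
    rw [Finset.sum_apply, Pi.sub_apply, Pi.smul_apply, smul_eq_mul, hc, Finset.mul_sum,
      Finset.sum_mul]
    show ∑ j, x.1 j * ((A i j : ℤ) - m0 * w i) = ∑ j, (A i j : ℤ) * x.1 j - _
    rw [← Finset.sum_sub_distrib]
    exact Finset.sum_congr rfl fun j _ => by ring
  -- second family
  have e2 : ∃ z2 : Unit ⊕ Unit → Pr P, tm rP fP = m0 • tm wP cP + cl z2 ∧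
      ∀ x : ↥L, (ph z2 x).1 = f x • r - (m0 * c x) • w := by
    by_cases hcase : ∀ i, (R : ℤ) ≤ r i
    · -- the vector is large
      have hf1 : ∀ x : ↥L, x ∈ P → c x ≤ C * f x := by
        intro x hx
        rw [← hS] at hx
        induction hx using AddSubmonoid.closure_induction with
        | mem p hp =>
          have hpP : p ∈ P := hS ▸ AddSubmonoid.subset_closure hp
          have hfp : 0 ≤ f p := hfP p hpP
          have hcp : (0 : ℤ) ≤ c p := h.hc p hpP
          by_cases hp0 : c p = 0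
          · rw [hp0]
            exact mul_nonneg (Nat.cast_nonneg _) hfp
          · have h1 : 0 < Ax p.1 ⟨0, hk⟩ := by
              have h2 := hAT p.1 hpP ⟨0, hk⟩ 1 hA1
              rw [← hc] at h2
              push_cast at h2
              omega
            rw [hf, Pi.smul_apply, smul_eq_mul] at h1
            have h3 : 0 < f p := by
              have h4 : 0 < r ⟨0, hk⟩ := lt_of_lt_of_le zero_lt_one (hr1 _)
              exact (mul_pos_iff_of_pos_right h4).1 h1
            have h5 : (c p).natAbs ≤ C :=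
              Finset.single_le_sum (f := fun p => (c p).natAbs) (fun _ _ => Nat.zero_le _) hp
            have h6 : (C : ℤ) * 1 ≤ C * f p :=
              mul_le_mul_of_nonneg_left (by omega) (Nat.cast_nonneg _)
            omega
        | zero => simp
        | add x y _ _ ihx ihy =>
          rw [map_add, map_add, mul_add]
          exact add_le_add ihx ihy
      have hr' : (⟨fun i => r i - (m0 * C : ℕ) * w i, ?_⟩ : ↥L) ∈ P := ?_
      · have hf'' : (m0 * C) • f - m0 • c ∈ dq P := by
          intro x hx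
          have h1 := hf1 x hx
          have h2 : (m0 : ℤ) * c x ≤ m0 * (C * f x) :=
            mul_le_mul_of_nonneg_left h1 (Nat.cast_nonneg _)
          rw [LinearMap.sub_apply, LinearMap.smul_apply, LinearMap.smul_apply, nsmul_eq_mul,
            nsmul_eq_mul]
          push_cast
          linarith
        refine ⟨Sum.elim (fun _ => (wP, ⟨_, hf''⟩)) (fun _ => (⟨_, hr'⟩, fP)), ?_, ?_⟩
        · rw [cl_sum, cl_unit, cl_unit]
          have h1 : rP = (m0 * C) • wP + ⟨_, hr'⟩ := by
            apply Subtype.ext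
            apply Subtype.ext
            funext i
            show r i = ((m0 * C) • w) i + (r i - (m0 * C : ℕ) * w i)
            rw [Pi.smul_apply, nsmul_eq_mul]
            ring
          have h2 : (m0 * C) • fP = m0 • cP + ⟨_, hf''⟩ := by
            apply Subtype.ext
            show (m0 * C) • f = m0 • c + ((m0 * C) • f - m0 • c)
            abel
          conv_lhs => rw [h1]
          rw [tm_add_left, tm_nsmul_left, ← tm_nsmul_right, h2, tm_add_right, tm_nsmul_right,
            add_assoc]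
        · intro x
          rw [ph_sum, LinearMap.add_apply, ph_unit, ph_unit]
          show (((m0 * C) • f - m0 • c) x) • w + f x • (fun i => r i - (m0 * C : ℕ) * w i) = _
          funext i
          simp only [LinearMap.sub_apply, LinearMap.smul_apply, nsmul_eq_mul, Pi.add_apply,
            Pi.smul_apply, Pi.sub_apply, smul_eq_mul]
          push_cast
          ring
      · have h1 : (fun i => r i - (m0 * C : ℕ) * w i) = r - ((m0 * C : ℕ) : ℤ) • w := by
          funext i
          simp
        rw [h1]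
        exact L.sub_mem hrV (L.zsmul_mem hwL _)
      · intro i
        show 0 ≤ r i - (m0 * C : ℕ) * w i
        have h1 := hcase i
        have h2 : ((m0 * C : ℕ) : ℤ) * w i ≤ (m0 * C : ℕ) * W :=
          mul_le_mul_of_nonneg_left (hW i) (Nat.cast_nonneg _)
        have h3 : (R : ℤ) = (m0 * C : ℕ) * W := by
          show ((m0 * C * W : ℕ) : ℤ) = _
          push_cast
          ring
        omega
    · -- the functional is large
      push Not at hcase
      obtain ⟨i0, hi0⟩ := hcase
      have hf1 : ∀ x : ↥L, x ∈ P → ((m0 * W : ℕ) : ℤ) * c x ≤ f x := by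
        intro x hx
        have h1 := hAT x.1 hx i0 (m0 * W * R) (fun i j => by
          have := hT i j
          omega)
        rw [← hc, hf, Pi.smul_apply, smul_eq_mul] at h1
        have h2 : f x * r i0 ≤ f x * R := mul_le_mul_of_nonneg_left hi0.le (hfP x hx)
        have h3 : (0 : ℤ) < R := lt_of_lt_of_le (lt_of_lt_of_le zero_lt_one (hr1 i0)) hi0.le
        push_cast at h1
        push_cast
        have h4 : (m0 * W * c x) * (R : ℤ) ≤ f x * R := by linarith
        exact le_of_mul_le_mul_right h4 h3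
      have hr' : (⟨fun i => (m0 * W : ℕ) * r i - m0 * w i, ?_⟩ : ↥L) ∈ P := ?_
      · have hf'' : f - (m0 * W) • c ∈ dq P := by
          intro x hx
          have h1 := hf1 x hx
          rw [LinearMap.sub_apply, LinearMap.smul_apply, nsmul_eq_mul]
          linarith
        refine ⟨Sum.elim (fun _ => (⟨_, hr'⟩, cP)) (fun _ => (rP, ⟨_, hf''⟩)), ?_, ?_⟩
        · rw [cl_sum, cl_unit, cl_unit]
          have h1 : (m0 * W) • rP = m0 • wP + ⟨_, hr'⟩ := by
            apply Subtype.ext
            apply Subtype.ext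
            funext i
            show ((m0 * W) • r) i = (m0 • w) i + ((m0 * W : ℕ) * r i - m0 * w i)
            rw [Pi.smul_apply, Pi.smul_apply, nsmul_eq_mul, nsmul_eq_mul]
            ring
          have h2 : fP = (m0 * W) • cP + ⟨_, hf''⟩ := by
            apply Subtype.ext
            show f = (m0 * W) • c + (f - (m0 * W) • c)
            abel
          conv_lhs => rw [h2]
          rw [tm_add_right, tm_nsmul_right, ← tm_nsmul_left, h1, tm_add_left, tm_nsmul_left,
            add_assoc]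
        · intro x
          rw [ph_sum, LinearMap.add_apply, ph_unit, ph_unit]
          show c x • (fun i => (m0 * W : ℕ) * r i - m0 * w i) + ((f - (m0 * W) • c) x) • r = _
          funext i
          simp only [LinearMap.sub_apply, LinearMap.smul_apply, nsmul_eq_mul, Pi.add_apply,
            Pi.smul_apply, Pi.sub_apply, smul_eq_mul]
          push_cast
          ring
      · have h1 : (fun i => (m0 * W : ℕ) * r i - m0 * w i) =
            ((m0 * W : ℕ) : ℤ) • r - (m0 : ℤ) • w := by
          funext i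
          simp
        rw [h1]
        exact L.sub_mem (L.zsmul_mem hrV _) (L.zsmul_mem hwL _)
      · intro i
        show 0 ≤ (m0 * W : ℕ) * r i - m0 * w i
        have h2 : (m0 : ℤ) * w i ≤ m0 * W := mul_le_mul_of_nonneg_left (hW i) (Nat.cast_nonneg _)
        have h3 : ((m0 * W : ℕ) : ℤ) * 1 ≤ (m0 * W : ℕ) * r i :=
          mul_le_mul_of_nonneg_left (hr1 i) (Nat.cast_nonneg _)
        push_cast at h3 ⊢
        omega
  obtain ⟨z2, e2, ph2⟩ := e2
  have hph : ph z1 = ph z2 := by
    refine LinearMap.ext fun x => Subtype.ext ?_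
    rw [ph1, ph2, hf]
  have hcl : cl z0 = cl E := by
    rw [show cl E = tm rP fP from cl_unit _ _]
    exact key_eq (tm wP cP) m0 e1 e2 (hm0 _ _ z1 z2 hph)
  have hs : Sse (toFin (mt (zA A))) (toFin (mt E)) := by
    have := (FR_of_cl hcl).sse
    rwa [mt_restr] at this
  have ht : (mt (zA A)).trace = (mt E).trace := by
    have := hs.trace
    rw [toFin_trace, toFin_trace] at this
    exact this
  rw [ht]
  exact hs.trans sse_unit

end Pool.Agent.WFS
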