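import Pool.Agent.WFS.Flag

/-! # Matrices which preserve a flag and are close to a matrix of rank one: the theorem -/

set_option autoImplicit false
set_option linter.unusedSectionVars false

namespace Pool.Agent.WFS

theorem c0_eq (k : ℕ) (h : c0 k ∈ dq (P0 k)) : (⟨c0 k, h⟩ : dq (P0 k)) = ∑ j, ep j := by
  apply Subtype.ext
  rw [AddSubmonoid.coe_finsetSum]
  rfl

theorem flag_sse {k s : ℕ} (hk : 1 ≤ k) (u : Fin k → ℤ) (hu : ∀ i, 1 ≤ u i)
    (V : ℕ → Submodule ℚ (Fin k → ℚ)) (h0 : V 0 = ⊤)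
    (hs : V s = Submodule.span ℚ {cq u}) (hV : ∀ i, V (i + 1) ≤ V i) :
    ∃ C : ℕ, ∀ (A : Matrix (Fin k) (Fin k) ℕ) (g : Fin k → ℕ),
      (∀ i < s, ∀ x ∈ V i, (fun a => ∑ b, (A a b : ℚ) * x b) ∈ V (i + 1)) →
      (∀ i j l, (C : ℤ) * |(A i j : ℤ) - u i * g j| ≤ g l) →
      Sse (toFin (mt (zA A))) ⟨1, fun _ _ => (mt (zA A)).trace⟩ := by
  classical
  obtain ⟨u0, d, hu0, hd, hud, hgen⟩ := exists_prim ⟨0, hk⟩ u hu
  have hanti : ∀ i ≤ s, V s ≤ V i := by
    have h1 : Antitone V := antitone_nat_of_succ_le hV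
    exact fun i hi => h1 hi
  have hdq : (d : ℚ) ≠ 0 := by
    have : d ≠ 0 := by omega
    exact_mod_cast this
  have hgen' : ∀ x, cq x ∈ V s → ∃ m : ℤ, x = m • u0 := by
    intro x hx
    rw [hs, Submodule.mem_span_singleton] at hx
    obtain ⟨r, hr⟩ := hx
    refine hgen x ⟨r, fun i => ?_⟩
    exact (congrFun hr i).symm
  have hu0V : cq u0 ∈ V s := by
    rw [hs, Submodule.mem_span_singleton]
    refine ⟨(d : ℚ)⁻¹, ?_⟩
    funext i
    show (d : ℚ)⁻¹ * ((u i : ℤ) : ℚ) = ((u0 i : ℤ) : ℚ)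
    rw [hud, Pi.smul_apply, smul_eq_mul]
    push_cast
    rw [← mul_assoc, inv_mul_cancel₀ hdq, one_mul]
  have hCD := CD0 hk hu0
  obtain ⟨α, hα, M, K, hM, hq⟩ := gens (FP V s)
  -- the families
  let B : α → ℕ := fun a => ∑ i, ∑ j, (M a i j).natAbs
  have hB : ∀ a i j, 0 ≤ M a i j + B a * u0 i := by
    intro a i j
    have h1 : (M a i j).natAbs ≤ B a :=
      (Finset.single_le_sum (f := fun j => (M a i j).natAbs) (fun _ _ => Nat.zero_le _)
        (Finset.mem_univ j)).trans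
        (Finset.single_le_sum (f := fun i => ∑ j, (M a i j).natAbs) (fun _ _ => Nat.zero_le _)
        (Finset.mem_univ i))
    have h2 : (B a : ℤ) * 1 ≤ B a * u0 i := mul_le_mul_of_nonneg_left (hu0 i) (Nat.cast_nonneg _)
    omega
  let D : α → Fin k → Pr (P0 k) := fun a j => (⟨fun i => M a i j + B a * u0 i, fun i => hB a i j⟩, ep j)
  have hph : ∀ a v, ph (D a) v = act (M a) v + (((B a : ℤ) • c0 k) v) • u0 := by
    intro a v
    rw [ph_apply]
    funext i
    rw [Finset.sum_apply, Pi.add_apply, act_apply, Pi.smul_apply, LinearMap.smul_apply, c0_apply,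
      smul_eq_mul, smul_eq_mul, Finset.mul_sum, Finset.sum_mul, ← Finset.sum_add_distrib]
    refine Finset.sum_congr rfl fun j _ => ?_
    show v j * (M a i j + B a * u0 i) = _
    ring
  have hact : ∀ a, ∃ b : ℤ, act (M a) u0 = b • u0 := by
    intro a
    refine hgen' _ ?_
    rw [cq_act]
    rcases Nat.eq_zero_or_pos s with h1 | h1
    · subst h1
      rw [h0]
      exact Submodule.mem_top
    · have h2 := hM a (s - 1) (by omega) (cq u0) (hanti (s - 1) (by omega) hu0V)
      rwa [Nat.sub_add_cancel h1] at h2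
  have hfil : ∀ x, x ∈ Fil (fun a => ph (D a)) u0 s := by
    intro x
    refine Fil_mod (φ := fun a => act (M a)) hact (fun a => (B a : ℤ) • c0 k) hph s ?_
    refine fil_of_flag hM hgen' s le_rfl x ?_
    rw [Nat.sub_self, h0]
    exact Submodule.mem_top
  have hphu : ∀ a, ∃ b : ℤ, ph (D a) u0 = b • u0 := by
    intro a
    obtain ⟨b, hb⟩ := hact a
    exact ⟨b + ((B a : ℤ) • c0 k) u0, by rw [hph, hb, add_smul]⟩
  obtain ⟨T, hT⟩ := descent' s (Fin k → ℤ) (P0 k) u0 (c0 k) hCD α (fun _ => Fin k) D hphu hfil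
  refine ⟨∑ a, K a * (B a + T), fun A g hA hg => ?_⟩
  -- the difference
  let N : Fin k → Fin k → ℤ := fun i j => (A i j : ℤ) - u i * g j
  have hN : N ∈ FP V s := by
    intro i hi x hx
    have h1 : (fun a => ∑ b, (N a b : ℚ) * x b) =
        (fun a => ∑ b, (A a b : ℚ) * x b) - (∑ b, (g b : ℚ) * x b) • cq u := by
      funext a
      rw [Pi.sub_apply, Pi.smul_apply, smul_eq_mul, Finset.sum_mul, ← Finset.sum_sub_distrib]
      refine Finset.sum_congr rfl fun b _ => ?_
      show (((A a b : ℤ) - u a * g b : ℤ) : ℚ) * x b = (A a b : ℚ) * x b - (g b : ℚ) * x b * (u a : ℚ)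
      push_cast
      ring
    rw [h1]
    refine (V (i + 1)).sub_mem (hA i hi x hx) ((V (i + 1)).smul_mem _ (hanti (i + 1) hi ?_))
    rw [hs]
    exact Submodule.mem_span_singleton_self _
  obtain ⟨q, hNq, hqb⟩ := hq N hN
  -- the largest entry of the difference
  obtain ⟨⟨i1, j1⟩, hmax⟩ : ∃ p : Fin k × Fin k, ∀ p' : Fin k × Fin k, (N p'.1 p'.2).natAbs ≤ (N p.1 p.2).natAbs := by
    have : Nonempty (Fin k × Fin k) := ⟨(⟨0, hk⟩, ⟨0, hk⟩)⟩
    exact Finite.exists_max (fun p : Fin k × Fin k => (N p.1 p.2).natAbs)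
  have hqm := hqb (N i1 j1).natAbs (fun a b => hmax (a, b))
  have hE : ∀ l, ∑ a, q a * (B a + T) ≤ g l := by
    intro l
    have h1 : ∑ a, q a * (B a + T) ≤ (∑ a, K a * (B a + T)) * (N i1 j1).natAbs := by
      rw [Finset.sum_mul]
      refine Finset.sum_le_sum fun a _ => ?_
      have h2 := Nat.mul_le_mul_right (B a + T) (hqm a)
      calc q a * (B a + T) ≤ K a * (N i1 j1).natAbs * (B a + T) := h2
        _ = K a * (B a + T) * (N i1 j1).natAbs := by ring
    refine h1.trans ?_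
    have h3 := hg i1 j1 l
    have h4 : |(A i1 j1 : ℤ) - u i1 * g j1| = ((N i1 j1).natAbs : ℤ) := by
      rw [Int.natCast_natAbs]
    rw [h4] at h3
    exact_mod_cast h3
  have hE2 : ∀ l, ∑ a, q a * B a + (∑ a, q a) * T ≤ d * g l := by
    intro l
    have h1 := hE l
    have h2 : ∑ a, q a * (B a + T) = ∑ a, q a * B a + (∑ a, q a) * T := by
      rw [Finset.sum_mul, ← Finset.sum_add_distrib]
      exact Finset.sum_congr rfl fun a _ => by ring
    rw [h2] at h1
    exact h1.trans (Nat.le_mul_of_pos_left _ hd)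
  let E : ℕ := ∑ a, q a * B a + (∑ a, q a) * T
  let e : Fin k → ℕ := fun l => d * g l - E
  have he : ∀ l, e l + E = d * g l := fun l => Nat.sub_add_cancel (hE2 l)
  refine hT (Fin k) (zA A) q (∑ l, e l • ep l) ?_
  have hcol : ∀ j, (zA A j).1 = ∑ a, q a • (D a j).1 +
      (e j + (∑ a, q a) * T) • (⟨u0, hCD.hu⟩ : P0 k) := by
    intro j
    apply Subtype.ext
    rw [AddSubmonoid.coe_add, AddSubmonoid.coe_finsetSum]
    funext i
    rw [Pi.add_apply, Finset.sum_apply]
    show (A i j : ℤ) = ∑ a, q a • (M a i j + B a * u0 i) + (e j + (∑ a, q a) * T) • u0 i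
    have h1 : N i j = ∑ a, q a • M a i j := by
      have h2 := congrFun (congrFun hNq i) j
      rw [Finset.sum_apply, Finset.sum_apply] at h2
      exact h2
    have h2 : (A i j : ℤ) = u i * g j + N i j := by
      show (A i j : ℤ) = u i * g j + ((A i j : ℤ) - u i * g j)
      ring
    have h3 : u i = d * u0 i := by
      have := congrFun hud i
      rw [Pi.smul_apply, smul_eq_mul] at this
      exact this
    have h4 : ((e j : ℤ)) + (∑ a, (q a : ℤ) * B a + (∑ a, (q a : ℤ)) * T) = d * g j := by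
      have := he j
      have h5 : ((e j + E : ℕ) : ℤ) = ((d * g j : ℕ) : ℤ) := by rw [this]
      simp only [E] at h5
      push_cast at h5
      exact h5
    rw [h2, h1, h3]
    simp only [nsmul_eq_mul]
    push_cast
    have h6 : ∑ a, (q a : ℤ) * (M a i j + B a * u0 i) =
        ∑ a, (q a : ℤ) * M a i j + (∑ a, (q a : ℤ) * B a) * u0 i := by
      rw [Finset.sum_mul, ← Finset.sum_add_distrib]
      exact Finset.sum_congr rfl fun a _ => by ring
    rw [h6]
    linear_combination (-(u0 i)) * h4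
  unfold cl
  have h1 : ∀ j, tm (zA A j).1 (zA A j).2 = ∑ a, q a • tm (D a j).1 (D a j).2 +
      (e j • tm (⟨u0, hCD.hu⟩ : P0 k) (ep j) +
        ((∑ a, q a) * T) • tm (⟨u0, hCD.hu⟩ : P0 k) (ep j)) := by
    intro j
    rw [hcol, tm_add_left, tm_sum_left, ← add_smul]
    congr 1
    · exact Finset.sum_congr rfl fun a _ => tm_nsmul_left _ _ _
    · exact tm_nsmul_left _ _ _
  rw [Finset.sum_congr rfl fun j _ => h1 j, Finset.sum_add_distrib, Finset.sum_comm,
    Finset.sum_add_distrib, c0_eq, tm_sum_right, tm_sum_right, add_assoc, Finset.smul_sum]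
  congr 1
  · exact Finset.sum_congr rfl fun a _ => (Finset.smul_sum).symm
  · rw [add_comm]
    congr 1
    exact Finset.sum_congr rfl fun j _ => (tm_nsmul_right _ _ _).symm

end Pool.Agent.WFS
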