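import Pool.Agent.WFS.Two2

/-! # Rank two and three by three -/

set_option autoImplicit false
set_option linter.unusedSectionVars false

namespace Pool.Agent.WFS

/-- the cast to rational vectors, linear over the integers -/
def cqL (k : ℕ) : (Fin k → ℤ) →ₗ[ℤ] (Fin k → ℚ) where
  toFun v i := (v i : ℚ)
  map_add' v w := by
    funext i
    simp
  map_smul' a v := by
    funext i
    simp

theorem cqL_inj (k : ℕ) : LinearMap.ker (cqL k) = ⊥ := by
  rw [LinearMap.ker_eq_bot']
  intro v hv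
  funext i
  have h1 : ((v i : ℤ) : ℚ) = 0 := congrFun hv i
  exact_mod_cast h1

theorem fac_of_rank {k : ℕ} (A : Matrix (Fin k) (Fin k) ℕ)
    (h : (A.map (Nat.cast : ℕ → ℚ)).rank ≤ 2) : ∃ ℓ m s p, Fac A ℓ m s p := by
  classical
  let col : Fin k → Fin k → ℤ := fun j i => (A i j : ℤ)
  let L0 : Submodule ℤ (Fin k → ℤ) := Submodule.span ℤ (Set.range col)
  obtain ⟨d, b⟩ := Submodule.basisOfPid (Pi.basisFun ℤ (Fin k)) L0
  let V := LinearMap.range (A.map (Nat.cast : ℕ → ℚ)).mulVecLin
  have hV : ∀ v ∈ L0, cqL k v ∈ V := by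
    intro v hv
    induction hv using Submodule.span_induction with
    | mem v hv =>
      obtain ⟨j, rfl⟩ := hv
      refine ⟨Pi.single j 1, ?_⟩
      rw [Matrix.mulVecLin_apply, Matrix.mulVec_single_one]
      funext i
      show ((A i j : ℕ) : ℚ) = (((A i j : ℕ) : ℤ) : ℚ)
      norm_cast
    | zero =>
      rw [map_zero]
      exact V.zero_mem
    | add v w _ _ ihv ihw =>
      rw [map_add]
      exact V.add_mem ihv ihw
    | smul a v _ ih =>
      rw [map_smul]
      have e : a • cqL k v = (a : ℚ) • cqL k v := by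
        funext i
        simp
      rw [e]
      exact V.smul_mem _ ih
  have hli : LinearIndependent ℤ fun i => cqL k (b i : Fin k → ℤ) :=
    (b.linearIndependent.map' L0.subtype L0.ker_subtype).map' (cqL k) (cqL_inj k)
  have hliQ : LinearIndependent ℚ fun i => cqL k (b i : Fin k → ℤ) :=
    (LinearIndependent.iff_fractionRing ℤ ℚ).1 hli
  have hd : d ≤ 2 := by
    have h1 := finrank_span_eq_card hliQ
    rw [Fintype.card_fin] at h1
    have h2 : Submodule.span ℚ (Set.range fun i => cqL k (b i : Fin k → ℤ)) ≤ V := by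
      rw [Submodule.span_le]
      rintro _ ⟨i, rfl⟩
      exact hV _ (b i).2
    have h3 := Submodule.finrank_mono h2
    rw [h1] at h3
    exact h3.trans h
  have hcol : ∀ j, col j ∈ L0 := fun j => Submodule.subset_span ⟨j, rfl⟩
  have hrep : ∀ i j, (A i j : ℤ) = ∑ e, b.repr ⟨col j, hcol j⟩ e * (b e : Fin k → ℤ) i := by
    intro i j
    have h1 := congrArg Subtype.val (b.sum_repr ⟨col j, hcol j⟩)
    have h2 := congrFun h1 i
    rw [AddSubmonoidClass.coe_finsetSum, Finset.sum_apply] at h2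
    exact h2.symm
  interval_cases d
  · refine ⟨0, 0, 0, 0, fun i j => ?_⟩
    rw [hrep i j]
    simp
  · refine ⟨(b 0 : Fin k → ℤ), 0, fun j => b.repr ⟨col j, hcol j⟩ 0, 0, fun i j => ?_⟩
    rw [hrep i j, Fin.sum_univ_one]
    simp
    ring
  · refine ⟨(b 0 : Fin k → ℤ), (b 1 : Fin k → ℤ), fun j => b.repr ⟨col j, hcol j⟩ 0,
      fun j => b.repr ⟨col j, hcol j⟩ 1, fun i j => ?_⟩
    rw [hrep i j, Fin.sum_univ_two]
    ring

theorem rank_of_pow {k N : ℕ} (hk : k ≤ 3) (A : Matrix (Fin k) (Fin k) ℕ) (R S : Fin k → ℤ)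
    (hN : ∀ i j, ((A ^ N) i j : ℤ) = R i * S j) : (A.map (Nat.cast : ℕ → ℚ)).rank ≤ 2 := by
  have h1 := Matrix.rank_le_width (A.map (Nat.cast : ℕ → ℚ))
  by_contra hcon
  have hk3 : k = 3 := by omega
  subst hk3
  have hr : (A.map (Nat.cast : ℕ → ℚ)).rank = 3 := by omega
  have htop : LinearMap.range (A.map (Nat.cast : ℕ → ℚ)).mulVecLin = ⊤ := by
    refine Submodule.eq_top_of_finrank_eq ?_
    rw [Module.finrank_fin_fun]
    exact hr
  have hsur : Function.Surjective (A.map (Nat.cast : ℕ → ℚ)).mulVec := by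
    rw [LinearMap.range_eq_top] at htop
    exact htop
  have hu : IsUnit (A.map (Nat.cast : ℕ → ℚ)) := Matrix.mulVec_surjective_iff_isUnit.1 hsur
  have hu2 : IsUnit ((A.map (Nat.cast : ℕ → ℚ)) ^ N) := hu.pow N
  rw [Matrix.isUnit_iff_isUnit_det] at hu2
  refine hu2.ne_zero ?_
  have e : (A.map (Nat.cast : ℕ → ℚ)) ^ N = (A ^ N).map (Nat.castRingHom ℚ) := by
    rw [Matrix.map_pow]
    rfl
  have e2 : ∀ i j, ((A ^ N).map (Nat.castRingHom ℚ)) i j = (R i : ℚ) * S j := by
    intro i j
    show (((A ^ N) i j : ℕ) : ℚ) = _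
    exact_mod_cast hN i j
  rw [e, Matrix.det_fin_three]
  simp only [e2]
  ring

/-- the upper bound for the entries -/
theorem upper {k n E : ℕ} (hn : 1 ≤ n) (A : Matrix (Fin k) (Fin k) ℕ)
    (hl : ∀ i j, n ≤ E * A i j) (h : EV n ⟨k, A⟩) (i j : Fin k) : A i j ≤ n * E := by
  obtain ⟨v, hv, h1⟩ := h
  have h2 : ∀ i, ∑ j, A i j * v j = n * v i := fun i => congrFun h1 i
  have h3 : ∀ i j, A i j * v j ≤ n * v i := fun i j => by
    rw [← h2 i]
    exact Finset.single_le_sum (f := fun j => A i j * v j) (fun _ _ => Nat.zero_le _)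
      (Finset.mem_univ j)
  have h4 : ∀ i j, v i ≤ E * v j := by
    intro i j
    have h5 := h3 j i
    have h6 := Nat.mul_le_mul_right (v i) (hl j i)
    have h7 := Nat.mul_le_mul_left E h5
    have h8 : n * v i ≤ n * (E * v j) := by
      calc n * v i ≤ E * A j i * v i := h6
        _ = E * (A j i * v i) := by ring
        _ ≤ E * (n * v j) := h7
        _ = n * (E * v j) := by ring
    exact Nat.le_of_mul_le_mul_left h8 hn
  have h5 : 0 < v j := by
    by_contra hcon
    refine hv (funext fun i => ?_)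
    have h6 := h4 i j
    have h7 : v j = 0 := by omega
    rw [h7, mul_zero] at h6
    show v i = 0
    omega
  have h6 := h3 i j
  have h7 := Nat.mul_le_mul_left n (h4 i j)
  have h8 : A i j * v j ≤ n * E * v j := by
    calc A i j * v j ≤ n * v i := h6
      _ ≤ n * (E * v j) := h7
      _ = n * E * v j := by ring
  exact Nat.le_of_mul_le_mul_right h8 h5

end Pool.Agent.WFS
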