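import Mathlib

/-! `1 - X^a N` is a product of elementary matrices (relative to `X^a`) for a nilpotent integral
matrix `N`. No extra indices. (helper45, WFS) -/

set_option autoImplicit false
set_option linter.all false

namespace Pool.WFS.Nil

open Matrix Polynomial

variable {ι : Type} [Fintype ι] [DecidableEq ι]

/-- elementary matrix as an element of `SL` -/
noncomputable def xs {A : Type} [CommRing A] (i j : ι) (h : i ≠ j) (f : A) :
    Matrix.SpecialLinearGroup ι A :=
  ⟨Matrix.transvection i j f, Matrix.det_transvection_of_ne i j h f⟩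

theorem coe_xs {A : Type} [CommRing A] (i j : ι) (h : i ≠ j) (f : A) :
    ((xs i j h f : Matrix.SpecialLinearGroup ι A) : Matrix ι ι A) = 1 + Matrix.single i j f := rfl

/-- the elementary group -/
def Ez (ι : Type) [Fintype ι] [DecidableEq ι] (A : Type) [CommRing A] :
    Subgroup (Matrix.SpecialLinearGroup ι A) :=
  Subgroup.closure {g | ∃ (i j : ι) (h : i ≠ j) (f : A), g = xs i j h f}

/-- the relative elementary group of `(X^a)` -/
noncomputable def E1 (ι : Type) [Fintype ι] [DecidableEq ι] (a : ℕ) :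
    Subgroup (Matrix.SpecialLinearGroup ι ℤ[X]) :=
  Subgroup.closure {g | ∃ p ∈ Ez ι ℤ[X], ∃ (i j : ι) (h : i ≠ j) (f : ℤ[X]),
    g = p * xs i j h (X ^ a * f) * p⁻¹}

theorem xs_mem_Ez {A : Type} [CommRing A] (i j : ι) (h : i ≠ j) (f : A) : xs i j h f ∈ Ez ι A :=
  Subgroup.subset_closure ⟨i, j, h, f, rfl⟩

theorem xs_mem_E1 {a : ℕ} (i j : ι) (h : i ≠ j) (f : ℤ[X]) : xs i j h (X ^ a * f) ∈ E1 ι a :=
  Subgroup.subset_closure ⟨1, one_mem _, i, j, h, f, by group⟩

theorem E1_conj {a : ℕ} {p g : Matrix.SpecialLinearGroup ι ℤ[X]} (hp : p ∈ Ez ι ℤ[X])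
    (hg : g ∈ E1 ι a) : p * g * p⁻¹ ∈ E1 ι a := by
  unfold E1 at hg
  induction hg using Subgroup.closure_induction with
  | mem g hg =>
    obtain ⟨q, hq, i, j, h, f, rfl⟩ := hg
    exact Subgroup.subset_closure ⟨p * q, mul_mem hp hq, i, j, h, f, by group⟩
  | one => simpa using one_mem _
  | mul x y _ _ hx hy =>
    have : p * (x * y) * p⁻¹ = (p * x * p⁻¹) * (p * y * p⁻¹) := by group
    rw [this]; exact mul_mem hx hy
  | inv x _ hx =>
    have : p * x⁻¹ * p⁻¹ = (p * x * p⁻¹)⁻¹ := by group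
    rw [this]; exact inv_mem hx

/-- a column transvection divisible by `X^a` -/
theorem col_mem {a : ℕ} (s : ι) (w : ι → ℤ[X]) (T : Finset ι) (hT : s ∉ T)
    (g : Matrix.SpecialLinearGroup ι ℤ[X])
    (hg : (g : Matrix ι ι ℤ[X]) = 1 + ∑ i ∈ T, Matrix.single i s (X ^ a * w i)) :
    g ∈ E1 ι a := by
  induction T using Finset.induction_on generalizing g with
  | empty =>
    have : g = 1 := by
      apply Subtype.ext
      rw [hg]; simp
    rw [this]; exact one_mem _
  | insert i T hi ih =>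
    have his : i ≠ s := fun h => hT (by rw [h]; exact Finset.mem_insert_self _ _)
    have hsT : s ∉ T := fun h => hT (Finset.mem_insert_of_mem h)
    set x := xs i s his (X ^ a * w i) with hx
    have h1 : g * x⁻¹ ∈ E1 ι a := by
      refine ih hsT _ ?_
      have e1 : (g : Matrix ι ι ℤ[X]) = (1 + ∑ k ∈ T, Matrix.single k s (X ^ a * w k))
          * ((x : Matrix.SpecialLinearGroup ι ℤ[X]) : Matrix ι ι ℤ[X]) := by
        rw [hg, hx, coe_xs, Finset.sum_insert hi, mul_add, mul_one, add_mul, one_mul,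
          Finset.sum_mul]
        have : ∑ k ∈ T, Matrix.single k s (X ^ a * w k) * Matrix.single i s (X ^ a * w i)
            = (0 : Matrix ι ι ℤ[X]) := by
          refine Finset.sum_eq_zero fun k _ => ?_
          rw [Matrix.single_mul_single_of_ne]
          exact Ne.symm his
        rw [this]; abel
      rw [Matrix.SpecialLinearGroup.coe_mul, e1, mul_assoc, ← Matrix.SpecialLinearGroup.coe_mul,
        mul_inv_cancel, Matrix.SpecialLinearGroup.coe_one, mul_one]
    have : g = (g * x⁻¹) * x := by group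
    rw [this]
    exact mul_mem h1 (xs_mem_E1 i s his (w i))

/-- `SL(ℤ) → SL(ℤ[X])` -/
noncomputable def mC : Matrix.SpecialLinearGroup ι ℤ →* Matrix.SpecialLinearGroup ι ℤ[X] :=
  Matrix.SpecialLinearGroup.map (Polynomial.C)

theorem coe_mC (P : Matrix.SpecialLinearGroup ι ℤ) :
    ((mC P : Matrix.SpecialLinearGroup ι ℤ[X]) : Matrix ι ι ℤ[X])
      = (Polynomial.C : ℤ →+* ℤ[X]).mapMatrix (P : Matrix ι ι ℤ) := rfl

theorem mC_xs (i j : ι) (h : i ≠ j) (c : ℤ) : mC (xs i j h c) = xs i j h (C c) := by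
  apply Subtype.ext
  rw [coe_mC, coe_xs, coe_xs, map_add, map_one]
  congr 1
  ext1 k l
  rw [RingHom.mapMatrix_apply, Matrix.map_apply, Matrix.single_apply, Matrix.single_apply]
  split_ifs <;> simp

theorem mC_mem {P : Matrix.SpecialLinearGroup ι ℤ} (hP : P ∈ Ez ι ℤ) : mC P ∈ Ez ι ℤ[X] := by
  unfold Ez at hP
  induction hP using Subgroup.closure_induction with
  | mem g hg =>
    obtain ⟨i, j, h, f, rfl⟩ := hg
    rw [mC_xs]; exact xs_mem_Ez _ _ _ _
  | one => rw [map_one]; exact one_mem _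
  | mul x y _ _ hx hy => rw [map_mul]; exact mul_mem hx hy
  | inv x _ hx => rw [map_inv]; exact inv_mem hx

/-- `P` fixes the vectors which vanish on `S` -/
def FixV (S : Finset ι) (P : Matrix.SpecialLinearGroup ι ℤ) : Prop :=
  ∀ w : ι → ℤ, (∀ i ∈ S, w i = 0) → (P : Matrix ι ι ℤ) *ᵥ w = w

theorem FixV.inv {S : Finset ι} {P : Matrix.SpecialLinearGroup ι ℤ} (h : FixV S P) :
    FixV S P⁻¹ := by
  intro w hw
  conv_lhs => rw [← h w hw]
  rw [Matrix.mulVec_mulVec, ← Matrix.SpecialLinearGroup.coe_mul, inv_mul_cancel,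
    Matrix.SpecialLinearGroup.coe_one, Matrix.one_mulVec]

theorem FixV.mul {S : Finset ι} {P Q : Matrix.SpecialLinearGroup ι ℤ} (h : FixV S P)
    (h' : FixV S Q) : FixV S (P * Q) := by
  intro w hw
  rw [Matrix.SpecialLinearGroup.coe_mul, ← Matrix.mulVec_mulVec, h' w hw, h w hw]

/-- Euclid: a nonzero vector supported on `S` is moved to a multiple of a basis vector. -/
theorem euclid (S : Finset ι) (n : ℕ) : ∀ u : ι → ℤ, (∀ i, i ∉ S → u i = 0) → u ≠ 0 →
    ∑ i, (u i).natAbs ≤ n → ∃ P ∈ Ez ι ℤ, FixV S P ∧ ∃ s ∈ S, ∃ c : ℤ, c ≠ 0 ∧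
      (P : Matrix ι ι ℤ) *ᵥ u = Pi.single s c := by
  induction n with
  | zero =>
    intro u _ h0 hn
    exfalso; apply h0
    funext i
    have : (u i).natAbs ≤ ∑ i, (u i).natAbs :=
      Finset.single_le_sum (f := fun i => (u i).natAbs) (fun _ _ => Nat.zero_le _)
        (Finset.mem_univ i)
    simpa using (show (u i).natAbs = 0 by omega)
  | succ n ih =>
    intro u hu h0 hn
    by_cases h2 : ∃ i j, i ≠ j ∧ u i ≠ 0 ∧ u j ≠ 0 ∧ (u i).natAbs ≤ (u j).natAbs
    · obtain ⟨i, j, hij, hi, hj, hle⟩ := h2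
      obtain ⟨c, hc⟩ : ∃ c : ℤ, (u j + c * u i).natAbs < (u j).natAbs := by
        rcases lt_or_gt_of_ne hi with h1 | h1 <;> rcases lt_or_gt_of_ne hj with h3 | h3
        · exact ⟨-1, by omega⟩
        · exact ⟨1, by omega⟩
        · exact ⟨1, by omega⟩
        · exact ⟨-1, by omega⟩
      have hji : j ≠ i := hij.symm
      set x := xs (A := ℤ) j i hji c with hx
      have hxu : ∀ w : ι → ℤ, (x : Matrix ι ι ℤ) *ᵥ w = w + Pi.single j (c * w i) := by
        intro w
        rw [hx, coe_xs, Matrix.add_mulVec, Matrix.one_mulVec]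
        congr 1
        funext k
        rw [Matrix.mulVec, dotProduct]
        simp only [Matrix.single_apply, ite_mul, zero_mul, Pi.single_apply]
        by_cases hk : k = j
        · subst hk; simp
        · simp [hk, Ne.symm hk]
      have hiS : i ∈ S := by by_contra h; exact hi (hu i h)
      have hjS : j ∈ S := by by_contra h; exact hj (hu j h)
      set u' := u + Pi.single j (c * u i) with hu'
      have hj' : u' j = u j + c * u i := by simp [hu']
      have hk' : ∀ k, k ≠ j → u' k = u k := by intro k hk; simp [hu', hk]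
      have hu1 : ∀ k, k ∉ S → u' k = 0 := by
        intro k hk
        rw [hk' k (fun h => hk (h ▸ hjS))]; exact hu k hk
      have hu2 : u' ≠ 0 := by
        intro h
        have := congrFun h i
        rw [hk' i hij] at this
        exact hi this
      have hu3 : ∑ k, (u' k).natAbs ≤ n := by
        have e1 : ∑ k, (u' k).natAbs < ∑ k, (u k).natAbs := by
          refine Finset.sum_lt_sum (fun k _ => ?_) ⟨j, Finset.mem_univ j, by rw [hj']; exact hc⟩
          by_cases hk : k = j
          · rw [hk, hj']; exact hc.le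
          · rw [hk' k hk]
        omega
      obtain ⟨P, hP, hF, s, hs, d, hd, hPu⟩ := ih u' hu1 hu2 hu3
      have hFx : FixV S x := by
        intro w hw
        rw [hxu w, hw i hiS, mul_zero, Pi.single_zero, add_zero]
      refine ⟨P * x, mul_mem hP (xs_mem_Ez _ _ _ _), hF.mul hFx, s, hs, d, hd, ?_⟩
      rw [Matrix.SpecialLinearGroup.coe_mul, ← Matrix.mulVec_mulVec, hxu, ← hu', hPu]
    · -- only one nonzero entry
      push Not at h2
      obtain ⟨s, hs⟩ : ∃ s, u s ≠ 0 := by
        by_contra h; push Not at h; exact h0 (funext h)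
      have hsS : s ∈ S := by by_contra h; exact hs (hu s h)
      refine ⟨1, one_mem _, fun w _ => by
        rw [Matrix.SpecialLinearGroup.coe_one, Matrix.one_mulVec], s, hsS, u s, hs, ?_⟩
      rw [Matrix.SpecialLinearGroup.coe_one, Matrix.one_mulVec]
      funext k
      by_cases hk : k = s
      · subst hk; simp
      · rw [Pi.single_apply, if_neg hk]
        by_contra hk0
        rcases le_total (u k).natAbs (u s).natAbs with h | h
        · have := h2 k s hk hk0 hs; omega
        · have := h2 s k (Ne.symm hk) hs hk0; omega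

/-- a vector supported on `S` killed by the `S`-part of `N` -/
theorem kernel_vec (S : Finset ι) (hS : S.Nonempty) (N : Matrix ι ι ℤ)
    (hN : ∀ i j, j ∉ S → N i j = 0) (k : ℕ) (hk : N ^ k = 0) :
    ∃ u : ι → ℤ, (∀ i, i ∉ S → u i = 0) ∧ u ≠ 0 ∧ ∀ i ∈ S, (N *ᵥ u) i = 0 := by
  classical
  set T : (ι → ℤ) → (ι → ℤ) := fun v i => if i ∈ S then (N *ᵥ v) i else 0 with hT
  obtain ⟨s, hs⟩ := hS
  set v0 : ι → ℤ := Pi.single s 1 with hv0
  -- iterates of T
  have hND : ∀ v v' : ι → ℤ, (∀ i ∈ S, v i = v' i) → N *ᵥ v = N *ᵥ v' := by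
    intro v v' h
    funext i
    rw [Matrix.mulVec, Matrix.mulVec, dotProduct, dotProduct]
    refine Finset.sum_congr rfl fun j _ => ?_
    by_cases hj : j ∈ S
    · rw [h j hj]
    · rw [hN i j hj]; ring
  have hit : ∀ m, ∀ v : ι → ℤ, (T^[m + 1]) v = fun i => if i ∈ S then ((N ^ (m + 1)) *ᵥ v) i else 0 := by
    intro m
    induction m with
    | zero => intro v; simp [hT]
    | succ m ih =>
      intro v
      rw [Function.iterate_succ_apply', ih v]
      funext i
      simp only [hT]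
      by_cases hi : i ∈ S
      · rw [if_pos hi, if_pos hi, pow_succ' N (m + 1), ← Matrix.mulVec_mulVec]
        rw [hND _ ((N ^ (m + 1)) *ᵥ v)]
        intro j hj
        rw [if_pos hj]
      · rw [if_neg hi, if_neg hi]
  have hz : (T^[k + 1]) v0 = 0 := by
    rw [hit k v0, pow_succ, hk, zero_mul]
    funext i; simp
  have hne : (T^[0]) v0 ≠ 0 := by
    intro h
    have := congrFun h s
    simp [hv0] at this
  -- the last nonzero iterate
  obtain ⟨m, hm1, hm2⟩ : ∃ m, (T^[m]) v0 ≠ 0 ∧ (T^[m + 1]) v0 = 0 := by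
    by_contra hcon
    push Not at hcon
    have : ∀ m, (T^[m]) v0 ≠ 0 := by
      intro m
      induction m with
      | zero => exact hne
      | succ m ih => exact hcon m ih
    exact this (k + 1) hz
  refine ⟨(T^[m]) v0, ?_, hm1, ?_⟩
  · intro i hi
    rcases m with _ | m
    · simp only [Function.iterate_zero, id, hv0]
      rw [Pi.single_apply, if_neg]
      intro h; exact hi (h ▸ hs)
    · rw [hit m v0]; simp [hi]
  · intro i hi
    rw [Function.iterate_succ_apply'] at hm2
    have := congrFun hm2 i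
    simpa [hT, hi] using this

theorem pow_lemma {N' N'' W : Matrix ι ι ℤ} (h1 : N' = N'' + W) (h2 : N'' * W = 0)
    (h3 : W * W = 0) {k : ℕ} (hk : N' ^ k = 0) : N'' ^ (k + 1) = 0 := by
  have h4 : N'' * N' = N'' * N'' := by rw [h1, mul_add, h2, add_zero]
  have h5 : ∀ m, N'' * N' ^ m = N'' ^ (m + 1) := by
    intro m
    induction m with
    | zero => simp
    | succ m ih =>
      have h6 : N'' ^ (m + 1) * N' = N'' ^ (m + 1) * N'' := by
        rw [pow_succ, mul_assoc, h4, mul_assoc]
      rw [pow_succ, ← mul_assoc, ih, h6, ← pow_succ]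
  rw [← h5 k, hk, mul_zero]

/-- the matrix `1 - X^a N` -/
noncomputable def nm (a : ℕ) (N : Matrix ι ι ℤ) : Matrix ι ι ℤ[X] :=
  1 - (X : ℤ[X]) ^ a • (Polynomial.C : ℤ →+* ℤ[X]).mapMatrix N

theorem nm_conj (a : ℕ) (P : Matrix.SpecialLinearGroup ι ℤ) (N : Matrix ι ι ℤ) :
    ((mC P : Matrix.SpecialLinearGroup ι ℤ[X]) : Matrix ι ι ℤ[X]) * nm a N
      * (((mC P)⁻¹ : Matrix.SpecialLinearGroup ι ℤ[X]) : Matrix ι ι ℤ[X])
      = nm a ((P : Matrix ι ι ℤ) * N * ((P⁻¹ : Matrix.SpecialLinearGroup ι ℤ) : Matrix ι ι ℤ)) := by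
  rw [nm, nm, mul_sub, sub_mul, mul_one, ← Matrix.SpecialLinearGroup.coe_mul, mul_inv_cancel,
    Matrix.SpecialLinearGroup.coe_one, ← map_inv, coe_mC, coe_mC, map_mul, map_mul,
    Matrix.mul_smul, Matrix.smul_mul]

theorem nil_mem_aux (a : ℕ) (n : ℕ) : ∀ (S : Finset ι), S.card = n → ∀ (N : Matrix ι ι ℤ),
    (∀ i j, j ∉ S → N i j = 0) → ∀ k, N ^ k = 0 →
    ∀ g : Matrix.SpecialLinearGroup ι ℤ[X], (g : Matrix ι ι ℤ[X]) = nm a N → g ∈ E1 ι a := by
  induction n with
  | zero =>
    intro S hS N hN k hk g hg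
    rw [Finset.card_eq_zero] at hS
    have hN0 : N = 0 := by
      ext i j; exact hN i j (by rw [hS]; exact Finset.notMem_empty j)
    have : g = 1 := by
      apply Subtype.ext
      rw [hg, hN0, nm, map_zero, smul_zero, sub_zero]; rfl
    rw [this]; exact one_mem _
  | succ n ih =>
    intro S hS N hN k hk g hg
    have hSne : S.Nonempty := by rw [← Finset.card_pos]; omega
    obtain ⟨u, hu1, hu2, hu3⟩ := kernel_vec S hSne N hN k hk
    obtain ⟨P, hP, hF, s, hs, c, hc, hPu⟩ := euclid S _ u hu1 hu2 le_rfl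
    -- N' = P N P⁻¹
    set N' : Matrix ι ι ℤ := (P : Matrix ι ι ℤ) * N
      * ((P⁻¹ : Matrix.SpecialLinearGroup ι ℤ) : Matrix ι ι ℤ) with hN'
    have hPP : ((P⁻¹ : Matrix.SpecialLinearGroup ι ℤ) : Matrix ι ι ℤ) * (P : Matrix ι ι ℤ) = 1 := by
      rw [← Matrix.SpecialLinearGroup.coe_mul, inv_mul_cancel, Matrix.SpecialLinearGroup.coe_one]
    have hPP' : (P : Matrix ι ι ℤ) * ((P⁻¹ : Matrix.SpecialLinearGroup ι ℤ) : Matrix ι ι ℤ) = 1 := by
      rw [← Matrix.SpecialLinearGroup.coe_mul, mul_inv_cancel, Matrix.SpecialLinearGroup.coe_one]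
    have hpow : ∀ m, N' ^ m = (P : Matrix ι ι ℤ) * N ^ m
        * ((P⁻¹ : Matrix.SpecialLinearGroup ι ℤ) : Matrix ι ι ℤ) := by
      intro m
      induction m with
      | zero => rw [pow_zero, pow_zero, mul_one, hPP']
      | succ m ihm =>
        rw [pow_succ, ihm, hN', pow_succ]
        calc (P : Matrix ι ι ℤ) * N ^ m * ((P⁻¹ : Matrix.SpecialLinearGroup ι ℤ) : Matrix ι ι ℤ)
              * ((P : Matrix ι ι ℤ) * N * ((P⁻¹ : Matrix.SpecialLinearGroup ι ℤ) : Matrix ι ι ℤ))
            = (P : Matrix ι ι ℤ) * N ^ m * (((P⁻¹ : Matrix.SpecialLinearGroup ι ℤ) : Matrix ι ι ℤ)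
              * (P : Matrix ι ι ℤ)) * N * ((P⁻¹ : Matrix.SpecialLinearGroup ι ℤ) : Matrix ι ι ℤ) := by
              noncomm_ring
          _ = _ := by rw [hPP, mul_one]; noncomm_ring
    have hk' : N' ^ k = 0 := by rw [hpow, hk]; simp
    have hcol : ∀ i j, N' i j = (N' *ᵥ (Pi.single j 1)) i := by
      intro i j; rw [Matrix.mulVec_single_one]; rfl
    have hN'v : ∀ v, N' *ᵥ v = (P : Matrix ι ι ℤ) *ᵥ (N *ᵥ
        (((P⁻¹ : Matrix.SpecialLinearGroup ι ℤ) : Matrix ι ι ℤ) *ᵥ v)) := by
      intro v; rw [hN', Matrix.mulVec_mulVec, Matrix.mulVec_mulVec]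
    -- columns outside S
    have hN'1 : ∀ i j, j ∉ S → N' i j = 0 := by
      intro i j hj
      have hv : ∀ i ∈ S, (Pi.single j (1 : ℤ) : ι → ℤ) i = 0 := by
        intro i hi
        have hij : i ≠ j := by rintro rfl; exact hj hi
        simp [hij]
      rw [hcol, hN'v, hF.inv _ hv]
      have : N *ᵥ (Pi.single j 1) = 0 := by
        funext i; rw [Matrix.mulVec_single_one]; exact hN i j hj
      rw [this, Matrix.mulVec_zero]; rfl
    -- column s is supported outside S
    have hN's : ∀ i ∈ S, N' i s = 0 := by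
      intro i hi
      have h1 : N' *ᵥ (Pi.single s c) = N *ᵥ u := by
        rw [hN'v, ← hPu, Matrix.mulVec_mulVec u _ (P : Matrix ι ι ℤ), hPP, Matrix.one_mulVec]
        exact hF _ hu3
      have h2 : (N' *ᵥ (Pi.single s c)) i = N' i s * c := by
        rw [Matrix.mulVec, dotProduct, Finset.sum_eq_single s]
        · simp
        · intro j _ hj; simp [hj]
        · intro h; exact absurd (Finset.mem_univ s) h
      rw [h1, hu3 i hi] at h2
      rcases mul_eq_zero.1 h2.symm with h | h
      · exact h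
      · exact absurd h hc
    -- split the column s
    set W : Matrix ι ι ℤ := Matrix.of fun i j => if j = s then N' i s else 0 with hW
    set N'' : Matrix ι ι ℤ := N' - W with hN''
    have hWa : ∀ i j, W i j = if j = s then N' i s else 0 := fun _ _ => rfl
    have hN'W : N' * W = 0 := by
      ext i j
      rw [Matrix.mul_apply, Matrix.zero_apply]
      refine Finset.sum_eq_zero fun l _ => ?_
      rw [hWa]
      split_ifs
      · by_cases hl : l ∈ S
        · rw [hN's l hl, mul_zero]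
        · rw [hN'1 i l hl, zero_mul]
      · rw [mul_zero]
    have hWW : W * W = 0 := by
      ext i j
      rw [Matrix.mul_apply, Matrix.zero_apply]
      refine Finset.sum_eq_zero fun l _ => ?_
      rw [hWa, hWa]
      by_cases hl : l = s
      · subst hl; rw [hN's l hs]; simp
      · rw [if_neg hl, zero_mul]
    have hN''W : N'' * W = 0 := by rw [hN'', sub_mul, hN'W, hWW, sub_zero]
    have hk'' : N'' ^ (k + 1) = 0 := pow_lemma (by rw [hN'']; abel) hN''W hWW hk'
    have hN''1 : ∀ i j, j ∉ S.erase s → N'' i j = 0 := by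
      intro i j hj
      rw [hN'', Matrix.sub_apply, hWa]
      by_cases hjs : j = s
      · rw [if_pos hjs, hjs, sub_self]
      · rw [if_neg hjs, sub_zero]
        exact hN'1 i j (fun h => hj (Finset.mem_erase.2 ⟨hjs, h⟩))
    have hcard : (S.erase s).card = n := by rw [Finset.card_erase_of_mem hs]; omega
    -- the group elements
    set g' := mC P * g * (mC P)⁻¹ with hg'
    have hg'm : (g' : Matrix ι ι ℤ[X]) = nm a N' := by
      rw [hg', Matrix.SpecialLinearGroup.coe_mul, Matrix.SpecialLinearGroup.coe_mul, hg, nm_conj]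
    have hns : N' s s = 0 := hN's s hs
    -- transvection 1 - X^a W
    have hdetW : (nm a W).det = 1 := by
      have e1 : nm a W = 1 + Matrix.vecMulVec (fun i => -(X ^ a * C (N' i s)))
          (Pi.single s 1) := by
        ext1 i j
        rw [nm, Matrix.sub_apply, Matrix.smul_apply, Matrix.add_apply, Matrix.vecMulVec_apply,
          RingHom.mapMatrix_apply, Matrix.map_apply, hWa, Pi.single_apply, smul_eq_mul]
        split_ifs <;> simp; ring
      have := Matrix.det_one_add_replicateCol_mul_replicateRow (ι := Unit)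
        (fun i => -((X : ℤ[X]) ^ a * C (N' i s))) (Pi.single s (1 : ℤ[X]))
      rw [← Matrix.vecMulVec_eq Unit] at this
      rw [e1, this, single_dotProduct, hns]
      simp
    set t : Matrix.SpecialLinearGroup ι ℤ[X] := ⟨nm a W, hdetW⟩ with ht
    have htE : t ∈ E1 ι a := by
      refine col_mem s (fun i => -C (N' i s)) (Finset.univ.erase s) (Finset.notMem_erase _ _) t ?_
      show nm a W = _
      ext1 i j
      rw [nm, Matrix.sub_apply, Matrix.smul_apply, Matrix.add_apply, Matrix.sum_apply,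
        RingHom.mapMatrix_apply, Matrix.map_apply, hWa, smul_eq_mul, sub_eq_add_neg]
      congr 1
      simp only [Matrix.single_apply]
      by_cases hj : j = s
      · subst hj
        by_cases hi : i = j
        · subst hi
          rw [if_pos rfl, hns]
          simp only [map_zero, mul_zero, neg_zero]
          rw [Finset.sum_eq_zero]
          intro l hl
          rw [if_neg (fun h => (Finset.mem_erase.1 hl).1 h.1)]
        · rw [Finset.sum_eq_single i]
          · simp
          · intro l _ hl; rw [if_neg (fun h => hl h.1)]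
          · intro h; exact absurd (Finset.mem_erase.2 ⟨hi, Finset.mem_univ i⟩) h
      · rw [if_neg hj, map_zero, mul_zero, neg_zero, Finset.sum_eq_zero]
        intro l _
        rw [if_neg (fun h => hj h.2.symm)]
    have hfac : (g' : Matrix ι ι ℤ[X]) = nm a N'' * (t : Matrix ι ι ℤ[X]) := by
      rw [hg'm]
      show nm a N' = nm a N'' * nm a W
      have e1 : N' = N'' + W := by rw [hN'']; abel
      rw [nm, nm, nm, e1, map_add, sub_mul, one_mul, mul_sub, mul_one, smul_add,
        Matrix.smul_mul, Matrix.mul_smul, ← map_mul, hN''W, map_zero, smul_zero, smul_zero]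
      abel
    have hg''m : ((g' * t⁻¹ : Matrix.SpecialLinearGroup ι ℤ[X]) : Matrix ι ι ℤ[X]) = nm a N'' := by
      rw [Matrix.SpecialLinearGroup.coe_mul, hfac, mul_assoc, ← Matrix.SpecialLinearGroup.coe_mul,
        mul_inv_cancel, Matrix.SpecialLinearGroup.coe_one, mul_one]
    have h1 := ih (S.erase s) hcard N'' hN''1 (k + 1) hk'' _ hg''m
    have h2 : g' ∈ E1 ι a := by
      have : g' = (g' * t⁻¹) * t := by group
      rw [this]; exact mul_mem h1 htE
    have h3 := E1_conj (inv_mem (mC_mem hP)) h2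
    have : g = (mC P)⁻¹ * g' * ((mC P)⁻¹)⁻¹ := by rw [hg']; group
    rw [this]; exact h3

/-- **`1 - X^a N` is in the relative elementary group for a nilpotent integral `N`.** -/
theorem nil_mem_E1 (a : ℕ) (N : Matrix ι ι ℤ) (hN : IsNilpotent N)
    (g : Matrix.SpecialLinearGroup ι ℤ[X]) (hg : (g : Matrix ι ι ℤ[X]) = nm a N) :
    g ∈ E1 ι a := by
  obtain ⟨k, hk⟩ := hN
  exact nil_mem_aux a _ Finset.univ rfl N (fun i j hj => absurd (Finset.mem_univ j) hj) k hk g hg

theorem E1_anti {a b : ℕ} (h : b ≤ a) : E1 ι a ≤ E1 ι b := by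
  unfold E1
  rw [Subgroup.closure_le]
  rintro g ⟨p, hp, i, j, hij, f, rfl⟩
  refine Subgroup.subset_closure ⟨p, hp, i, j, hij, X ^ (a - b) * f, ?_⟩
  have : X ^ a * f = X ^ b * (X ^ (a - b) * f) := by
    rw [← mul_assoc, ← pow_add, Nat.add_sub_cancel' h]
  rw [this]

theorem E1_le_Ez (a : ℕ) : E1 ι a ≤ Ez ι ℤ[X] := by
  unfold E1
  rw [Subgroup.closure_le]
  rintro g ⟨p, hp, i, j, hij, f, rfl⟩
  exact mul_mem (mul_mem hp (xs_mem_Ez _ _ _ _)) (inv_mem hp)

/-- the factors of the elimination are in `E1 ι 1` -/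
theorem nilFac_mem {a : ℕ} (ha : 1 ≤ a) (B : Matrix ι ι ℤ) (hB : IsNilpotent B)
    (g : Matrix.SpecialLinearGroup ι ℤ[X])
    (hg : (g : Matrix ι ι ℤ[X]) = 1 - (X ^ a : ℤ[X]) • B.map C) : g ∈ E1 ι 1 :=
  E1_anti ha (nil_mem_E1 a B hB g hg)

theorem closure_nilFac_le (S : Set (Matrix.SpecialLinearGroup ι ℤ[X]))
    (hS : ∀ g ∈ S, ∃ a, 1 ≤ a ∧ ∃ B : Matrix ι ι ℤ, IsNilpotent B ∧
      (g : Matrix ι ι ℤ[X]) = 1 - (X ^ a : ℤ[X]) • B.map C) :
    Subgroup.closure S ≤ E1 ι 1 := by
  rw [Subgroup.closure_le]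
  intro g hg
  obtain ⟨a, ha, B, hB, h⟩ := hS g hg
  exact nilFac_mem ha B hB g h

end Pool.WFS.Nil
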