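import Pool.Agent.WFS.PolyLin2

/-!
# The room step: the iterated elimination of a group of constant letters

`D = N0 + X ^ a φ 1ᵀ` with `φ` a constant vector. One swap of a constant factor and one move replace `D` by
`N0 (1 + w φ 1ᵀ)`, `w = X ^ a (1 + s + ... + s ^ (h - 1))`, `s = X ^ a b`, `b = 1ᵀ φ`.
-/

set_option autoImplicit false
set_option linter.unusedSectionVars false

namespace Pool.Agent.WFS

open Polynomial Matrix

variable {V c : Type} [Fintype V] [DecidableEq V] [Fintype c] [DecidableEq c]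

/-- the matrix of a system `D` in a context -/
noncomputable def totM (D : Matrix V V ℤ[X]) (Q : Matrix V c ℤ[X]) (y : c → ℤ[X])
    (Z : Matrix c c ℤ[X]) : Matrix (V ⊕ c) (V ⊕ c) ℤ[X] :=
  Matrix.fromBlocks D Q (Matrix.of fun i _ => y i) Z

/-- nonnegative coefficients and no constant term -/
def PosP (q : ℤ[X]) : Prop := q.coeff 0 = 0 ∧ ∀ d, 0 ≤ q.coeff d

theorem PosP.zero : PosP 0 := by
  refine ⟨by simp, fun d => by simp⟩

theorem PosP.add {p q : ℤ[X]} (hp : PosP p) (hq : PosP q) : PosP (p + q) := by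
  refine ⟨by rw [coeff_add, hp.1, hq.1, add_zero], fun d => ?_⟩
  rw [coeff_add]
  exact add_nonneg (hp.2 d) (hq.2 d)

theorem PosP.sum {ι : Type} {s : Finset ι} {f : ι → ℤ[X]} (h : ∀ i ∈ s, PosP (f i)) :
    PosP (∑ i ∈ s, f i) := by
  refine ⟨?_, fun d => ?_⟩
  · rw [finsetSum_coeff]
    exact Finset.sum_eq_zero fun i hi => (h i hi).1
  · rw [finsetSum_coeff]
    exact Finset.sum_nonneg fun i hi => (h i hi).2 d

/-- product with a polynomial with nonnegative coefficients -/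
theorem PosP.mul_right {p q : ℤ[X]} (hp : PosP p) (hq : ∀ d, 0 ≤ q.coeff d) : PosP (p * q) := by
  refine ⟨by rw [mul_coeff_zero, hp.1, zero_mul], fun d => ?_⟩
  rw [coeff_mul]
  exact Finset.sum_nonneg fun x _ => mul_nonneg (hp.2 _) (hq _)

theorem PosP.mul_left {p q : ℤ[X]} (hp : PosP p) (hq : ∀ d, 0 ≤ q.coeff d) : PosP (q * p) := by
  rw [mul_comm]
  exact hp.mul_right hq

theorem nn_natCast (k : ℕ) (d : ℕ) : 0 ≤ ((k : ℤ[X])).coeff d := by
  rw [← Polynomial.C_eq_natCast, Polynomial.coeff_C]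
  split_ifs
  · exact Int.natCast_nonneg _
  · exact le_rfl

theorem nn_mul {p q : ℤ[X]} (hp : ∀ d, 0 ≤ p.coeff d) (hq : ∀ d, 0 ≤ q.coeff d) (d : ℕ) :
    0 ≤ (p * q).coeff d := by
  rw [coeff_mul]
  exact Finset.sum_nonneg fun x _ => mul_nonneg (hp _) (hq _)

theorem nn_one (d : ℕ) : 0 ≤ (1 : ℤ[X]).coeff d := by
  rw [Polynomial.coeff_one]
  split_ifs <;> norm_num

theorem nn_add {p q : ℤ[X]} (hp : ∀ d, 0 ≤ p.coeff d) (hq : ∀ d, 0 ≤ q.coeff d) (d : ℕ) :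
    0 ≤ (p + q).coeff d := by
  rw [coeff_add]
  exact add_nonneg (hp _) (hq _)

theorem nn_sum {ι : Type} {s : Finset ι} {f : ι → ℤ[X]} (h : ∀ i ∈ s, ∀ d, 0 ≤ (f i).coeff d)
    (d : ℕ) : 0 ≤ (∑ i ∈ s, f i).coeff d := by
  rw [finsetSum_coeff]
  exact Finset.sum_nonneg fun i hi => h i hi d

theorem nn_pow {p : ℤ[X]} (hp : ∀ d, 0 ≤ p.coeff d) (k : ℕ) (d : ℕ) : 0 ≤ (p ^ k).coeff d := by
  induction k generalizing d with
  | zero => rw [pow_zero]; exact nn_one d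
  | succ k ih => rw [pow_succ]; exact nn_mul ih hp d

theorem nn_X (d : ℕ) : 0 ≤ (X : ℤ[X]).coeff d := by
  rw [Polynomial.coeff_X]
  split_ifs <;> norm_num

theorem posP_X_pow {a : ℕ} (ha : 1 ≤ a) : PosP (X ^ a : ℤ[X]) := by
  refine ⟨?_, nn_pow nn_X a⟩
  rw [Polynomial.coeff_X_pow, if_neg (by omega)]

theorem pos_iff (T : Matrix V V ℤ[X]) : Pos T ↔ ∀ i j, PosP (T i j) := Iff.rfl

/-- the geometric sum `1 + s + ... + s ^ (h - 1)` -/
noncomputable def gs (s : ℤ[X]) (h : ℕ) : ℤ[X] := ∑ j ∈ Finset.range h, s ^ j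

theorem gs_mul (s : ℤ[X]) (h : ℕ) : gs s h * (1 - s) = 1 - s ^ h := geom_sum_mul_neg s h

theorem gs_succ (s : ℤ[X]) (h : ℕ) : gs s (h + 1) = 1 + s * gs s h := by
  unfold gs
  rw [Finset.sum_range_succ', pow_zero, Finset.mul_sum, add_comm]
  congr 1
  exact Finset.sum_congr rfl fun j _ => pow_succ' s j

/-- the constant factor -/
private def rmP (φ : V → ℕ) : Matrix (V ⊕ c) (V ⊕ (c ⊕ Unit)) ℕ := Matrix.of fun p q =>
  match p, q with
  | Sum.inl i, Sum.inl j => if i = j then 1 else 0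
  | Sum.inl _, Sum.inr (Sum.inl _) => 0
  | Sum.inl i, Sum.inr (Sum.inr _) => φ i
  | Sum.inr _, Sum.inl _ => 0
  | Sum.inr k, Sum.inr (Sum.inl k') => if k = k' then 1 else 0
  | Sum.inr _, Sum.inr (Sum.inr _) => 0

/-- the polynomial factor -/
private noncomputable def rmQ (N0 : Matrix V V ℤ[X]) (a : ℕ) (Q : Matrix V c ℤ[X]) (y : c → ℤ[X])
    (Z : Matrix c c ℤ[X]) : Matrix (V ⊕ (c ⊕ Unit)) (V ⊕ c) ℤ[X] := Matrix.of fun p q =>
  match p, q with
  | Sum.inl i, Sum.inl j => N0 i j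
  | Sum.inl i, Sum.inr k => Q i k
  | Sum.inr (Sum.inl k), Sum.inl _ => y k
  | Sum.inr (Sum.inl k), Sum.inr k' => Z k k'
  | Sum.inr (Sum.inr _), Sum.inl _ => X ^ a
  | Sum.inr (Sum.inr _), Sum.inr _ => 0

/-- the product in the other order -/
private noncomputable def rmT (N0 : Matrix V V ℤ[X]) (φ : V → ℕ) (a : ℕ) (Q : Matrix V c ℤ[X])
    (y : c → ℤ[X]) (Z : Matrix c c ℤ[X]) : Matrix (V ⊕ (c ⊕ Unit)) (V ⊕ (c ⊕ Unit)) ℤ[X] :=
  totM (c := c ⊕ Unit) N0
    (Matrix.of fun i k => Sum.elim (fun k => Q i k) (fun _ => ∑ l, N0 i l * (φ l : ℤ[X])) k)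
    (Sum.elim y (fun _ => X ^ a))
    (Matrix.of fun k k' => Sum.elim
      (fun k => Sum.elim (fun k' => Z k k') (fun _ => y k * ((∑ l, φ l : ℕ) : ℤ[X])) k')
      (fun _ => Sum.elim (fun _ => 0) (fun _ => X ^ a * ((∑ l, φ l : ℕ) : ℤ[X])) k') k)

private theorem rm_swap (N0 : Matrix V V ℤ[X]) (φ : V → ℕ) (a : ℕ) (ha : 1 ≤ a) (Q : Matrix V c ℤ[X])
    (y : c → ℤ[X]) (Z : Matrix c c ℤ[X]) (hN : ∀ i j, PosP (N0 i j)) (hQ : ∀ i j, PosP (Q i j))
    (hy : ∀ i, PosP (y i)) (hZ : ∀ i j, PosP (Z i j)) :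
    Eqv (totM (Matrix.of fun i j => N0 i j + X ^ a * (φ i : ℤ[X])) Q y Z) (rmT N0 φ a Q y Z) := by
  have hq : ∀ w s, PosP (rmQ N0 a Q y Z w s) := by
    rintro (i | k | u) (j | k')
    · exact hN i j
    · exact hQ i k'
    · exact hy k
    · exact hZ k k'
    · exact posP_X_pow ha
    · exact PosP.zero
  have h := eqv_swap (rmP (c := c) φ) (rmQ N0 a Q y Z) hq
  have h1 : (rmP (c := c) φ).map (Nat.cast : ℕ → ℤ[X]) * rmQ N0 a Q y Z =
      totM (Matrix.of fun i j => N0 i j + X ^ a * (φ i : ℤ[X])) Q y Z := by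
    ext1 p q
    rw [Matrix.mul_apply, Fintype.sum_sum_type, Fintype.sum_sum_type]
    rcases p with i | k <;> rcases q with j | k' <;>
      simp [rmP, rmQ, totM, mul_comm]
  have h2 : rmQ N0 a Q y Z * (rmP (c := c) φ).map (Nat.cast : ℕ → ℤ[X]) = rmT N0 φ a Q y Z := by
    ext1 p q
    rw [Matrix.mul_apply, Fintype.sum_sum_type]
    rcases p with i | k | u <;> rcases q with j | k' | u' <;>
      simp [rmP, rmQ, rmT, totM, Finset.mul_sum]
  rwa [h1, h2] at h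

/-- THE ROOM STEP -/
theorem room_step (N0 : Matrix V V ℤ[X]) (φ : V → ℕ) (a h : ℕ) (ha : 1 ≤ a) (Q : Matrix V c ℤ[X])
    (y : c → ℤ[X]) (Z : Matrix c c ℤ[X]) (hN : ∀ i j, PosP (N0 i j)) (hQ : ∀ i j, PosP (Q i j))
    (hy : ∀ i, PosP (y i)) (hZ : ∀ i j, PosP (Z i j)) :
    Eqv (totM (Matrix.of fun i j => N0 i j + X ^ a * (φ i : ℤ[X])) Q y Z)
      (totM (c := c ⊕ Unit)
        (Matrix.of fun i j => N0 i j + (∑ l, N0 i l * (φ l : ℤ[X])) *
          (X ^ a * gs (X ^ a * ((∑ l, φ l : ℕ) : ℤ[X])) h))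
        (Matrix.of fun i k => Sum.elim (fun k => Q i k) (fun _ => ∑ l, N0 i l * (φ l : ℤ[X])) k)
        (Sum.elim (fun k => y k * gs (X ^ a * ((∑ l, φ l : ℕ) : ℤ[X])) (h + 1))
          (fun _ => X ^ a * (X ^ a * ((∑ l, φ l : ℕ) : ℤ[X])) ^ h))
        (Matrix.of fun k k' => Sum.elim
          (fun k => Sum.elim (fun k' => Z k k') (fun _ => y k * ((∑ l, φ l : ℕ) : ℤ[X])) k')
          (fun _ => Sum.elim (fun _ => 0) (fun _ => X ^ a * ((∑ l, φ l : ℕ) : ℤ[X])) k') k)) := by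
  refine (rm_swap N0 φ a ha Q y Z hN hQ hy hZ).trans ?_
  have hs : ∀ d, 0 ≤ (X ^ a * ((∑ l, φ l : ℕ) : ℤ[X])).coeff d := nn_mul (nn_pow nn_X a) (nn_natCast _)
  have hg : ∀ k d, 0 ≤ (gs (X ^ a * ((∑ l, φ l : ℕ) : ℤ[X])) k).coeff d := fun k =>
    nn_sum fun j _ => nn_pow hs j
  have hNφ : ∀ i, PosP (∑ l, N0 i l * (φ l : ℤ[X])) := fun i =>
    PosP.sum fun l _ => (hN i l).mul_right (nn_natCast _)
  have hsP : PosP (X ^ a * ((∑ l, φ l : ℕ) : ℤ[X])) := (posP_X_pow ha).mul_right (nn_natCast _)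
  refine poly_gu ?_ ?_ (Sum.elim (fun _ => 1) (fun _ => 0))
    (Sum.elim (fun _ => 0) (Sum.elim (fun _ => 0)
      (fun _ => X ^ a * gs (X ^ a * ((∑ l, φ l : ℕ) : ℤ[X])) h))) ?_ ?_
  · rw [pos_iff]
    rintro (i | k | u) (j | k' | u')
    · exact hN i j
    · exact hQ i k'
    · exact hNφ i
    · exact hy k
    · exact hZ k k'
    · exact (hy k).mul_right (nn_natCast _)
    · exact posP_X_pow ha
    · exact PosP.zero
    · exact hsP
  · rw [pos_iff]
    rintro (i | k | u) (j | k' | u')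
    · exact (hN i j).add ((hNφ i).mul_right (nn_mul (nn_pow nn_X a) (hg h)))
    · exact hQ i k'
    · exact hNφ i
    · exact (hy k).mul_right (hg _)
    · exact hZ k k'
    · exact (hy k).mul_right (nn_natCast _)
    · exact (posP_X_pow ha).mul_right (nn_pow hs h)
    · exact PosP.zero
    · exact hsP
  · simp [Fintype.sum_sum_type]
  · rintro (i | k | u) (j | k' | u')
    · simp [Fintype.sum_sum_type, rmT, totM]
    · simp [Fintype.sum_sum_type, rmT, totM]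
    · simp [Fintype.sum_sum_type, rmT, totM]
    · simp only [Fintype.sum_sum_type, rmT, totM, Matrix.fromBlocks_apply₂₁, Matrix.of_apply,
        Sum.elim_inl, Sum.elim_inr, Matrix.fromBlocks_apply₂₂, mul_zero, Finset.sum_const_zero,
        Finset.univ_unique, Finset.sum_singleton, zero_add, gs_succ]
      push_cast
      ring
    · simp [Fintype.sum_sum_type, rmT, totM]
    · simp [Fintype.sum_sum_type, rmT, totM]
    · have hgm := gs_mul (X ^ a * ((∑ l, φ l : ℕ) : ℤ[X])) h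
      simp only [Fintype.sum_sum_type, rmT, totM, Matrix.fromBlocks_apply₂₁, Matrix.of_apply,
        Sum.elim_inl, Sum.elim_inr, Matrix.fromBlocks_apply₂₂, mul_zero, Finset.sum_const_zero,
        Finset.univ_unique, Finset.sum_singleton, zero_add]
      push_cast at hgm ⊢
      linear_combination (-(X ^ a : ℤ[X])) * hgm
    · simp [Fintype.sum_sum_type, rmT, totM]
    · simp [Fintype.sum_sum_type, rmT, totM]

end Pool.Agent.WFS
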