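import Pool.Agent.WFS.Asm3
import Pool.Agent.WFS.Rot.Cls
import Pool.Agent.WFS.Rot.Main

/-!
# Assembly: the rotations one after the other
-/

set_option autoImplicit false
set_option linter.unusedSectionVars false
set_option maxHeartbeats 1000000

namespace Pool.Agent.WFS

open Matrix Pool.WFS.Lad Polynomial Pool.Agent.WFG


variable {ι κ : Type} [Fintype ι] [DecidableEq ι] [Fintype κ] [DecidableEq κ]

/-- the property of one rotation -/
def RotP (Y : SL (Fin 2) ℤ[X]) (T K : ℕ) : Prop :=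
  ∃ Dl : ℕ, ∀ κn : WFG.Num, κn.Ok → ∀ (I : Type) [Fintype I] [DecidableEq I] (M : Matrix I I ℤ[X]),
    IsUnit (1 - M).det → (∀ i j d, d < T → (M i j).coeff d = 0) →
    (∀ d, 1 ≤ d → d ≤ K → 1 ≤ κn.p.coeff d) → (∀ d, 2 * (rm M d : ℤ) ≤ κn.p.coeff d) →
    (∀ d, T ≤ d → d ≤ Dl → 100 + 2 * (rm M d : ℤ) ≤ κn.p.coeff d) →
    RelE κn M (Matrix.fromBlocks M 0 0 (1 - (Y : Matrix (Fin 2) (Fin 2) ℤ[X])))

theorem rotP_Ysl {m J T K : ℕ} (hm : 2 ≤ m) (hK : 2 * m + 1 ≤ K) (hT : K < T) (hTr : T ≤ Rot.Tr m J) :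
    RotP (Rot.Ysl m J) T K := by
  obtain ⟨Dl, -, h⟩ := Rot.rot (J := J) hm (lt_of_le_of_lt hK hT) hTr
  refine ⟨Dl, fun κn hκ I _ _ M h1 h2 h3 h4 h5 => ?_⟩
  rw [Rot.coe_Ysl hm J, sub_sub_cancel]
  exact h κn hκ I M h1 h2 (fun d hd hd' => h3 d hd (hd'.trans hK)) h4 h5

/-- the block matrix -/
theorem bls_cons (x : κ × SL ι ℤ[X]) (l : List (κ × SL ι ℤ[X])) : bls (x :: l) = bl x.1 x.2 * bls l := by
  simp [bls]

/-- `bls l - 1` lives in the blocks of `l` -/
theorem bls_supp (l : List (κ × SL ι ℤ[X])) (p q : ι × κ)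
    (h : p.2 ∉ l.map Prod.fst ∨ q.2 ∉ l.map Prod.fst) :
    ((bls l : SL (ι × κ) ℤ[X]) : Matrix (ι × κ) (ι × κ) ℤ[X]) p q = (1 : Matrix (ι × κ) (ι × κ) ℤ[X]) p q := by
  induction l generalizing p q with
  | nil => simp [bls]
  | cons x l ih =>
    rw [bls_cons, Matrix.SpecialLinearGroup.coe_mul, Matrix.mul_apply]
    have hb : ∀ c : ι × κ, (p.2 ≠ x.1 ∨ c.2 ≠ x.1) →
        ((bl x.1 x.2 : SL (ι × κ) ℤ[X]) : Matrix (ι × κ) (ι × κ) ℤ[X]) p c =
          (1 : Matrix (ι × κ) (ι × κ) ℤ[X]) p c := by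
      intro c hc
      rw [coe_bl, Matrix.add_apply, K_apply, if_neg, add_zero]
      rintro ⟨h1, h2⟩
      rcases hc with h3 | h3
      · exact h3 h1
      · exact h3 h2
    rcases h with h | h
    · rw [List.map_cons, List.mem_cons, not_or] at h
      rw [Finset.sum_congr rfl fun c _ => by rw [hb c (Or.inl h.1)]]
      rw [Finset.sum_eq_single p]
      · rw [Matrix.one_apply_eq, one_mul, ih p q (Or.inl h.2)]
      · intro c _ hc
        rw [Matrix.one_apply_ne (Ne.symm hc), zero_mul]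
      · intro hc
        exact absurd (Finset.mem_univ _) hc
    · rw [List.map_cons, List.mem_cons, not_or] at h
      rw [Finset.sum_congr rfl fun c _ => by rw [ih c q (Or.inr h.2)]]
      rw [Finset.sum_eq_single q]
      · rw [Matrix.one_apply_eq, mul_one, hb q (Or.inr h.1)]
      · intro c _ hc
        rw [Matrix.one_apply_ne hc, mul_zero]
      · intro hc
        exact absurd (Finset.mem_univ _) hc

/-- the entries of the product of a block and a disjoint `bls l` -/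
theorem bls_entries (x : κ × SL ι ℤ[X]) (l : List (κ × SL ι ℤ[X])) (hx : x.1 ∉ l.map Prod.fst)
    (p q : ι × κ) :
    ((bls (x :: l) : SL (ι × κ) ℤ[X]) : Matrix (ι × κ) (ι × κ) ℤ[X]) p q =
      if p.2 = x.1 then ((bl x.1 x.2 : SL (ι × κ) ℤ[X]) : Matrix (ι × κ) (ι × κ) ℤ[X]) p q else
        ((bls l : SL (ι × κ) ℤ[X]) : Matrix (ι × κ) (ι × κ) ℤ[X]) p q := by
  rw [bls_cons]
  by_cases hp : p.2 = x.1
  · rw [if_pos hp, bls_comm l hx x.2, Matrix.SpecialLinearGroup.coe_mul, Matrix.mul_apply]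
    rw [Finset.sum_congr rfl fun c _ => by rw [bls_supp l p c (Or.inl (hp ▸ hx))]]
    rw [Finset.sum_eq_single p]
    · rw [Matrix.one_apply_eq, one_mul]
    · intro c _ hc
      rw [Matrix.one_apply_ne (Ne.symm hc), zero_mul]
    · intro hc
      exact absurd (Finset.mem_univ _) hc
  · rw [if_neg hp, Matrix.SpecialLinearGroup.coe_mul, Matrix.mul_apply]
    have hb : ∀ c : ι × κ,
        ((bl x.1 x.2 : SL (ι × κ) ℤ[X]) : Matrix (ι × κ) (ι × κ) ℤ[X]) p c =
          (1 : Matrix (ι × κ) (ι × κ) ℤ[X]) p c := by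
      intro c
      rw [coe_bl, Matrix.add_apply, K_apply, if_neg, add_zero]
      rintro ⟨h1, h2⟩
      exact hp h1
    rw [Finset.sum_congr rfl fun c _ => by rw [hb c]]
    rw [Finset.sum_eq_single p]
    · rw [Matrix.one_apply_eq, one_mul]
    · intro c _ hc
      rw [Matrix.one_apply_ne (Ne.symm hc), zero_mul]
    · intro hc
      exact absurd (Finset.mem_univ _) hc

/-- one more block -/
theorem ext_cons (pr : Fin 2 ↪ ι) (Y : SL (Fin 2) ℤ[X]) (k : κ) (L : List (κ × SL ι ℤ[X]))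
    (hk : k ∉ L.map Prod.fst) {J : Type} [Fintype J] [DecidableEq J] (E' : Matrix J J ℤ[X])
    (f : J → ι × κ) (h1 : IsExt f E' (1 - ((bls L : SL (ι × κ) ℤ[X]) : Matrix (ι × κ) (ι × κ) ℤ[X])))
    (hf2 : ∀ a, (f a).2 ≠ k) :
    IsExt (Sum.elim f (fun a => (pr a, k)))
      (Matrix.fromBlocks E' 0 0 (1 - (Y : Matrix (Fin 2) (Fin 2) ℤ[X])))
      (1 - ((bls ((k, emb pr Y) :: L) : SL (ι × κ) ℤ[X]) : Matrix (ι × κ) (ι × κ) ℤ[X])) := by
  have hent : ∀ p q : ι × κ, ((bls ((k, emb pr Y) :: L) : SL (ι × κ) ℤ[X]) :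
      Matrix (ι × κ) (ι × κ) ℤ[X]) p q = if p.2 = k then
        ((bl k (emb pr Y) : SL (ι × κ) ℤ[X]) : Matrix (ι × κ) (ι × κ) ℤ[X]) p q else
          ((bls L : SL (ι × κ) ℤ[X]) : Matrix (ι × κ) (ι × κ) ℤ[X]) p q := by
    intro p q
    exact bls_entries (k, emb pr Y) L hk p q
  have hinj : Function.Injective (Sum.elim f (fun a => (pr a, k))) := by
    rintro (a | a) (b | b) hab
    · exact congrArg Sum.inl (h1.inj hab)
    · exact absurd (congrArg Prod.snd hab) (hf2 a)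
    · exact absurd (congrArg Prod.snd hab).symm (hf2 b)
    · exact congrArg Sum.inr (pr.injective (Prod.mk.inj hab).1)
  have hbl : ∀ p q : ι × κ, ((bl k (emb pr Y) : SL (ι × κ) ℤ[X]) :
      Matrix (ι × κ) (ι × κ) ℤ[X]) p q = (1 : Matrix (ι × κ) (ι × κ) ℤ[X]) p q +
        (if p.2 = k ∧ q.2 = k then pc pr ((Y : Matrix (Fin 2) (Fin 2) ℤ[X]) - 1) p.1 q.1 else 0) := by
    intro p q
    rw [coe_bl, Matrix.add_apply, K_apply, emb_sub_one]
  refine ⟨hinj, ?_, ?_, ?_⟩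
  · rintro (a | a) (b | b)
    · show (1 - _ : Matrix (ι × κ) (ι × κ) ℤ[X]) (f a) (f b) = E' a b
      rw [Matrix.sub_apply, hent, if_neg (hf2 a), ← Matrix.sub_apply]
      exact h1.eq a b
    · show (1 - _ : Matrix (ι × κ) (ι × κ) ℤ[X]) (f a) (pr b, k) = 0
      rw [Matrix.sub_apply, hent, if_neg (hf2 a), bls_supp _ _ _ (Or.inr hk), sub_self]
    · show (1 - _ : Matrix (ι × κ) (ι × κ) ℤ[X]) (pr a, k) (f b) = 0
      rw [Matrix.sub_apply, hent, if_pos rfl, hbl, if_neg, add_zero, sub_self]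
      rintro ⟨-, h⟩
      exact hf2 b h
    · show (1 - _ : Matrix (ι × κ) (ι × κ) ℤ[X]) (pr a, k) (pr b, k) =
        (1 - (Y : Matrix (Fin 2) (Fin 2) ℤ[X])) a b
      rw [Matrix.sub_apply, hent, if_pos rfl, hbl, if_pos ⟨rfl, rfl⟩, pc_range, Matrix.sub_apply,
        Matrix.sub_apply]
      ring
  · intro p q hp
    rw [Matrix.sub_apply, hent]
    by_cases hp2 : p.2 = k
    · rw [if_pos hp2, hbl]
      have hp1 : ∀ a, pr a ≠ p.1 := fun a h => hp (Sum.inr a) (Prod.ext h hp2.symm)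
      rw [pc_left pr _ hp1]
      simp
    · rw [if_neg hp2, ← Matrix.sub_apply]
      exact h1.row p q fun a => hp (Sum.inl a)
  · intro p q hq
    rw [Matrix.sub_apply, hent]
    by_cases hp2 : p.2 = k
    · rw [if_pos hp2, hbl]
      by_cases hq2 : q.2 = k
      · have hq1 : ∀ a, pr a ≠ q.1 := fun a h => hq (Sum.inr a) (Prod.ext h hq2.symm)
        rw [pc_right pr _ hq1]
        simp
      · rw [if_neg (fun h => hq2 h.2)]
        simp
    · rw [if_neg hp2, ← Matrix.sub_apply]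
      exact h1.col p q fun a => hq (Sum.inl a)

/-- THE ROTATIONS one after the other -/
theorem rots (pr : Fin 2 ↪ ι) (Y : ℕ → SL (Fin 2) ℤ[X]) (T K : ℕ) (l : List (κ × ℕ))
    (hrot : ∀ x ∈ l, RotP (Y x.2) T K)
    (hrm : ∀ x ∈ l, ∀ d, rm (1 - (Y x.2 : Matrix (Fin 2) (Fin 2) ℤ[X])) d ≤ 48)
    (hvan : ∀ x ∈ l, ∀ i j d, d < T → ((1 - (Y x.2 : Matrix (Fin 2) (Fin 2) ℤ[X])) i j).coeff d = 0)
    (hnd : (l.map Prod.fst).Nodup) :
    ∃ (J : Type) (_ : Fintype J) (_ : DecidableEq J) (E' : Matrix J J ℤ[X]) (f : J → ι × κ),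
      IsExt f E' (1 - ((bls (l.map fun x => (x.1, emb pr (Y x.2))) : SL (ι × κ) ℤ[X]) :
        Matrix (ι × κ) (ι × κ) ℤ[X])) ∧ (∀ a, (f a).2 ∈ l.map Prod.fst) ∧ IsUnit (1 - E').det ∧
      (∀ i j d, d < T → (E' i j).coeff d = 0) ∧ (∀ d, rm E' d ≤ 48 * l.length) ∧
      ∃ Dl, (∀ d, Dl < d → rm E' d = 0) ∧ ∀ κn : WFG.Num, κn.Ok →
        (∀ d, 1 ≤ d → d ≤ K → 1 ≤ κn.p.coeff d) →
        (∀ d, T ≤ d → d ≤ Dl → 100 + 96 * (l.length : ℤ) ≤ κn.p.coeff d) →
        (∀ d, 2 * (rm E' d : ℤ) ≤ κn.p.coeff d) ∧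
        RelE κn (0 : Matrix (Fin 0) (Fin 0) ℤ[X]) E' := by
  induction l with
  | nil =>
    refine ⟨Fin 0, inferInstance, inferInstance, 0, fun a => a.elim0, ⟨fun a => a.elim0,
      fun i => i.elim0, fun p q _ => ?_, fun p q _ => ?_⟩, fun a => a.elim0, by simp,
      fun i => i.elim0, fun d => by simp [rm], 0, fun d _ => by simp [rm], fun κn hκ _ _ =>
        ⟨fun d => ?_, ?_⟩⟩
    · simp [bls]
    · simp [bls]
    · simpa [rm] using hκ.p.2 d
    · exact relE_zero hκ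
  | cons x l ih =>
    rw [List.map_cons, List.nodup_cons] at hnd
    obtain ⟨J, i1, i2, E', f, h1, h2, h3, h4, h5, Dl, h6, h7⟩ := ih
      (fun y hy => hrot y (List.mem_cons_of_mem _ hy)) (fun y hy => hrm y (List.mem_cons_of_mem _ hy))
      (fun y hy => hvan y (List.mem_cons_of_mem _ hy)) hnd.2
    obtain ⟨Dl', h8⟩ := hrot x (List.mem_cons_self)
    have hvx := hvan x (List.mem_cons_self)
    have hcx := hrm x (List.mem_cons_self)
    obtain ⟨Δ, hΔ⟩ := exists_rm_bd (1 - (Y x.2 : Matrix (Fin 2) (Fin 2) ℤ[X]))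
    have hΔ' : ∀ d, Δ < d → rm (1 - (Y x.2 : Matrix (Fin 2) (Fin 2) ℤ[X])) d = 0 := by
      intro d hd
      rw [rm_eq]
      exact Finset.sum_eq_zero fun i _ => hΔ i d hd.le
    have hYu : IsUnit (1 - (1 - (Y x.2 : Matrix (Fin 2) (Fin 2) ℤ[X]))).det := det_one_sub_one_sub _
    have hrmN : ∀ d, rm (Matrix.fromBlocks E' 0 0 (1 - (Y x.2 : Matrix (Fin 2) (Fin 2) ℤ[X]))) d ≤
        48 * (l.length + 1) := by
      intro d
      rw [rm_fromBlocks]
      have h9 := h5 d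
      have h10 := hcx d
      omega
    have hvanN : ∀ i j d, d < T →
        ((Matrix.fromBlocks E' 0 0 (1 - (Y x.2 : Matrix (Fin 2) (Fin 2) ℤ[X]))) i j).coeff d = 0 := by
      intro i j d hd
      rcases i with i | i <;> rcases j with j | j
      · exact h4 i j d hd
      · simp
      · simp
      · exact hvx i j d hd
    have hhiN : ∀ d, max Dl (max Dl' Δ) < d →
        rm (Matrix.fromBlocks E' 0 0 (1 - (Y x.2 : Matrix (Fin 2) (Fin 2) ℤ[X]))) d = 0 := by
      intro d hd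
      rw [rm_fromBlocks, h6 d (by omega), hΔ' d (by omega)]
    refine ⟨J ⊕ Fin 2, inferInstance, inferInstance,
      Matrix.fromBlocks E' 0 0 (1 - (Y x.2 : Matrix (Fin 2) (Fin 2) ℤ[X])),
      Sum.elim f (fun a => (pr a, x.1)), ?_, ?_, ?_, hvanN, ?_, max Dl (max Dl' Δ), hhiN, ?_⟩
    · have hx1 : x.1 ∉ (l.map fun x => (x.1, (emb pr (Y x.2) : SL ι ℤ[X]))).map Prod.fst := by
        rw [List.map_map]
        exact hnd.1
      have hf2 : ∀ a, (f a).2 ≠ x.1 := fun a h => hnd.1 (h ▸ h2 a)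
      rw [List.map_cons]
      exact ext_cons pr (Y x.2) x.1 _ hx1 E' f h1 hf2
    · rintro (a | a)
      · exact List.mem_cons_of_mem _ (h2 a)
      · exact List.mem_cons_self
    · rw [det_fromBlocks_one_sub]
      exact h3.mul hYu
    · rw [List.length_cons]
      exact hrmN
    · intro κn hκ hK hroom
      rw [List.length_cons] at hroom
      push_cast at hroom
      obtain ⟨hleg, r1⟩ := h7 κn hκ hK fun d hd hd' => by
        have := hroom d hd (hd'.trans (le_max_left _ _))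
        linarith
      have r2 := h8 κn hκ J E' h3 h4 hK hleg fun d hd hd' => by
        have h9 := hroom d hd (le_trans hd' ((le_max_left _ _).trans (le_max_right _ _)))
        have h10 : (rm E' d : ℤ) ≤ 48 * l.length := by exact_mod_cast h5 d
        linarith
      refine ⟨fun d => ?_, r1.trans hκ (leg_of_rm hκ hleg) r2⟩
      by_cases hd1 : d < T
      · rw [Rot.rm_zero fun i j => hvanN i j d hd1]
        simpa using hκ.p.2 d
      by_cases hd2 : max Dl (max Dl' Δ) < d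
      · rw [hhiN d hd2]
        simpa using hκ.p.2 d
      have h9 := hroom d (by omega) (by omega)
      have h10 : (rm (Matrix.fromBlocks E' 0 0 (1 - (Y x.2 : Matrix (Fin 2) (Fin 2) ℤ[X]))) d : ℤ) ≤
          48 * (l.length + 1) := by exact_mod_cast hrmN d
      linarith

end Pool.Agent.WFS
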