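import Pool.Agent.WFS.RedFin

/-!
# The action on the vectors of sum zero

`kq B` for `B` on `Option I` with constant column sums: the matrix of `B` on the vectors of sum zero in the basis
`e_i - e_none`. It is nilpotent over `ℤ` for a matrix over `ℕ` with column sums `n` which is strong shift
equivalent to a matrix with `FS`, and for the matrix of a map with a constant power.
-/

set_option autoImplicit false
set_option linter.unusedSectionVars false

namespace Pool.Agent.WFS

open Matrix

section kq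

variable {R : Type} [CommRing R] {I : Type} [Fintype I] [DecidableEq I]

/-- the action on the vectors of sum zero -/
def kq (B : Matrix (Option I) (Option I) R) : Matrix I I R :=
  Matrix.of fun i j => B (some i) (some j) - B (some i) none

theorem kq_mul (B B' : Matrix (Option I) (Option I) R) {s : R} (h : ∀ j, ∑ i, B' i j = s) :
    kq (B * B') = kq B * kq B' := by
  ext i j
  have h1 := h (some j)
  have h2 := h none
  rw [Fintype.sum_option] at h1 h2
  simp only [kq, Matrix.of_apply, Matrix.mul_apply, Fintype.sum_option]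
  have h3 : ∑ l, (B (some i) (some l) - B (some i) none) * (B' (some l) (some j) - B' (some l) none) =
      ∑ l, B (some i) (some l) * B' (some l) (some j) - ∑ l, B (some i) (some l) * B' (some l) none -
        B (some i) none * (∑ l, B' (some l) (some j) - ∑ l, B' (some l) none) := by
    rw [mul_sub, Finset.mul_sum, Finset.mul_sum, ← Finset.sum_sub_distrib, ← Finset.sum_sub_distrib,
      ← Finset.sum_sub_distrib]
    exact Finset.sum_congr rfl fun l _ => by ring
  rw [h3]
  have h4 : ∑ l, B' (some l) (some j) - ∑ l, B' (some l) none = B' none none - B' none (some j) := by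
    linear_combination h1 - h2
  rw [h4]
  ring

theorem kq_one : kq (1 : Matrix (Option I) (Option I) R) = 1 := by
  ext i j
  simp [kq, Matrix.one_apply]

theorem sum_mul_const (B B' : Matrix (Option I) (Option I) R) {s s' : R} (h : ∀ j, ∑ i, B i j = s)
    (h' : ∀ j, ∑ i, B' i j = s') (j : Option I) : ∑ i, (B * B') i j = s * s' := by
  simp only [Matrix.mul_apply]
  rw [Finset.sum_comm, ← h' j, Finset.mul_sum]
  refine Finset.sum_congr rfl fun l _ => ?_
  rw [← Finset.sum_mul, h]

theorem kq_pow (B : Matrix (Option I) (Option I) R) {s : R} (h : ∀ j, ∑ i, B i j = s) (l : ℕ) :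
    kq (B ^ l) = kq B ^ l := by
  induction l with
  | zero => rw [pow_zero, pow_zero, kq_one]
  | succ l ih => rw [pow_succ, kq_mul _ _ h, ih, pow_succ]

/-- equal columns -/
theorem kq_eq_zero {B : Matrix (Option I) (Option I) R} (h : ∀ i j, B i j = B i none) : kq B = 0 := by
  ext i j
  simp [kq, h (some i) (some j)]

end kq

section nil

variable {I : Type} [Fintype I] [DecidableEq I]

/-- the data of a shift equivalence with `(n)` are invariant -/
theorem sd_est {n : ℕ} {X Y : Σ k : ℕ, Matrix (Fin k) (Fin k) ℕ} (h : Est X Y)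
    (hX : ∃ (l : ℕ) (R S : Fin X.1 → ℕ), Sd n X.2 l R S) :
    ∃ (l : ℕ) (R S : Fin Y.1 → ℕ), Sd n Y.2 l R S := by
  obtain ⟨U, D, h1, h2⟩ := h
  obtain ⟨l, R, S, hS⟩ := hX
  rw [h2]
  exact ⟨_, _, _, hS.swap U D h1⟩

theorem sd_sse {n : ℕ} {X Y : Σ k : ℕ, Matrix (Fin k) (Fin k) ℕ} (h : Sse X Y)
    (hX : ∃ (l : ℕ) (R S : Fin X.1 → ℕ), Sd n X.2 l R S) :
    ∃ (l : ℕ) (R S : Fin Y.1 → ℕ), Sd n Y.2 l R S := by
  induction h with
  | single h => exact sd_est h hX
  | tail _ h2 ih => exact sd_est h2 ih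

/-- from `FS` to the data -/
theorem FS.sd {n : ℕ} {V : Type} [Fintype V] [DecidableEq V] {A : Matrix V V ℕ} (h : FS n A)
    (hne : Nonempty V) : ∃ (l : ℕ) (R S : V → ℕ), Sd n A l R S := by
  obtain ⟨h1, l, r, hr, h2⟩ := h
  obtain ⟨v0⟩ := hne
  have h3 : ∑ i, r i = n ^ l := by
    rw [← colsum_pow h1 l v0]
    exact Finset.sum_congr rfl fun i _ => (h2 i v0).symm
  have h4 : A ^ l = vecMulVec r 1 := by
    ext i j
    rw [h2 i j, Matrix.vecMulVec_apply, Pi.one_apply, mul_one]
  refine ⟨l, r, 1, h4, ?_, ?_, ?_⟩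
  · -- `A r = n r`, because `A ^ (l + 1) = A r 1ᵀ = n r 1ᵀ`
    funext i
    have h5 : (A ^ (l + 1)) i v0 = ∑ j, A i j * r j := by
      rw [pow_succ', Matrix.mul_apply]
      exact Finset.sum_congr rfl fun j _ => by rw [h2]
    have h6 : (A ^ (l + 1)) i v0 = n * r i := by
      rw [pow_succ, Matrix.mul_apply, ← h1 v0, Finset.sum_mul]
      exact Finset.sum_congr rfl fun j _ => by rw [h2, mul_comm]
    rw [Pi.smul_apply, smul_eq_mul, ← h6, h5]
    rfl
  · funext j
    show ∑ i, 1 * A i j = n * 1
    simp [h1 j]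
  · show ∑ i, 1 * r i = n ^ l
    simp [h3]

/-- a matrix with column sums `n` in the class of a matrix with `FS` has a power with equal columns -/
theorem eqcols {n : ℕ} (hn : 1 ≤ n) {V W : Type} [Fintype V] [DecidableEq V] [Fintype W] [DecidableEq W]
    {A : Matrix V V ℕ} {B : Matrix W W ℕ} (hne : Nonempty V) (hA : FS n A)
    (h : Sse (toFin B) (toFin A)) (hB : ∀ j, ∑ i, B i j = n) :
    ∃ (l : ℕ) (r : W → ℕ), ∀ i j, (B ^ l) i j = r i := by
  -- data for `toFin A`
  have h1 : ∃ (l : ℕ) (R S : Fin (toFin A).1 → ℕ), Sd n (toFin A).2 l R S := by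
    have e := (Fintype.equivFin V).symm
    have h2 : FS n (A.submatrix (Fintype.equivFin V).symm (Fintype.equivFin V).symm) :=
      hA.submatrix (Fintype.equivFin V).symm
    obtain ⟨v0⟩ := hne
    exact h2.sd ⟨Fintype.equivFin V v0⟩
  obtain ⟨l, R, S, h2, h3, h4, h5⟩ := sd_sse h.symm h1
  by_cases hW : Nonempty W
  · obtain ⟨w0⟩ := hW
    let e := Fintype.equivFin W
    have hp : ∀ i j, (B ^ l) i j = R (e i) * S (e j) := by
      intro i j
      have h6 : (B.submatrix e.symm e.symm) ^ l = (B ^ l).submatrix e.symm e.symm :=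
        submatrix_pow' B e.symm l
      have h7 := congrFun (congrFun h2 (e i)) (e j)
      rw [Matrix.vecMulVec_apply] at h7
      rw [← h7]
      show (B ^ l) i j = ((B.submatrix e.symm e.symm) ^ l) (e i) (e j)
      rw [h6, Matrix.submatrix_apply, Equiv.symm_apply_apply, Equiv.symm_apply_apply]
    have hs : ∀ j, (∑ i, R (e i)) * S (e j) = n ^ l := by
      intro j
      rw [← colsum_pow hB l j, Finset.sum_mul]
      exact Finset.sum_congr rfl fun i _ => (hp i j).symm
    have hR : 0 < ∑ i, R (e i) := by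
      rcases Nat.eq_zero_or_pos (∑ i, R (e i)) with h0 | h0
      · have := hs w0
        rw [h0, zero_mul] at this
        exact absurd this.symm (pow_ne_zero _ (by omega))
      · exact h0
    refine ⟨l, fun i => R (e i) * S (e w0), fun i j => ?_⟩
    rw [hp]
    congr 1
    exact Nat.eq_of_mul_eq_mul_left hR ((hs j).trans (hs w0).symm)
  · rw [not_nonempty_iff] at hW
    exact ⟨0, fun i => (hW.false i).elim, fun i => (hW.false i).elim⟩

theorem nil_of_eqcols {B : Matrix (Option I) (Option I) ℕ} {n : ℕ} (hB : ∀ j, ∑ i, B i j = n) {l : ℕ}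
    {r : Option I → ℕ} (h : ∀ i j, (B ^ l) i j = r i) :
    IsNilpotent (kq (B.map (Nat.cast : ℕ → ℤ))) := by
  refine ⟨l, ?_⟩
  rw [← kq_pow (s := (n : ℤ))]
  · refine kq_eq_zero fun i j => ?_
    have h1 : (B.map (Nat.cast : ℕ → ℤ)) ^ l = (B ^ l).map (Nat.cast : ℕ → ℤ) :=
      (Matrix.map_pow B (Nat.castRingHom ℤ) l).symm
    rw [h1, Matrix.map_apply, Matrix.map_apply, h, h]
  · intro j
    rw [← hB j]
    push_cast
    rfl

/-- the matrix of a map, over `ℤ` -/
def mpZ {V : Type} [DecidableEq V] (f : V → V) : Matrix V V ℤ := Matrix.of fun i j => if f j = i then 1 else 0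

theorem mpZ_mul {V : Type} [Fintype V] [DecidableEq V] (f g : V → V) : mpZ f * mpZ g = mpZ (f ∘ g) := by
  ext i j
  simp [mpZ, Matrix.mul_apply]

theorem mpZ_one {V : Type} [Fintype V] [DecidableEq V] : mpZ (id : V → V) = 1 := by
  ext i j
  simp [mpZ, Matrix.one_apply, eq_comm]

theorem mpZ_pow {V : Type} [Fintype V] [DecidableEq V] (f : V → V) (m : ℕ) : mpZ f ^ m = mpZ (f^[m]) := by
  induction m with
  | zero => rw [pow_zero, Function.iterate_zero, mpZ_one]
  | succ m ih => rw [pow_succ, ih, mpZ_mul, Function.iterate_succ]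

theorem mpZ_sum {V : Type} [Fintype V] [DecidableEq V] (f : V → V) (j : V) : ∑ i, mpZ f i j = 1 := by
  simp [mpZ]

theorem nil_of_map {f : Option I → Option I} {m : ℕ} {c : Option I} (h : ∀ q, f^[m] q = c) :
    IsNilpotent (kq (mpZ f)) := by
  refine ⟨m, ?_⟩
  rw [← kq_pow (s := 1) _ (mpZ_sum f), mpZ_pow]
  refine kq_eq_zero fun i j => ?_
  simp [mpZ, h]

end nil

end Pool.Agent.WFS
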