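import Pool.Agent.WFS.Emb
import Pool.Agent.WFS.NilE

/-! # The step (U) (helper10, WFS, module K)

`u_step`: every `M = 1 mod X^a` of determinant one is, mod `X^(a+1)`, a product `L` of letters of
`Lt ι a`, and `L` lies in `E1 ι a` (the letters used have degree exactly `a`).
-/

set_option autoImplicit false
set_option linter.all false

noncomputable section

namespace Pool.Agent.WFS

open Matrix Polynomial Pool.WFS.Lad Pool.WFS.Nil

variable {ι : Type} [Fintype ι] [DecidableEq ι]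

theorem sl_ext {A : Type} [CommRing A] {g h : SL ι A} (e : (g : Matrix ι ι A) = h) : g = h :=
  Subtype.ext e

theorem single_neg' {A : Type} [CommRing A] (i j : ι) (q : A) :
    Matrix.single i j (-q) = -Matrix.single i j q := by
  ext a b
  rw [Matrix.neg_apply, Matrix.single_apply, Matrix.single_apply]
  split_ifs
  · rfl
  · rw [neg_zero]

theorem xs_mul {A : Type} [CommRing A] (i j : ι) (h : i ≠ j) (q q' : A) :
    (xs i j h q * xs i j h q' : SL ι A) = xs i j h (q + q') := by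
  apply sl_ext
  rw [Matrix.SpecialLinearGroup.coe_mul, coe_xs, coe_xs, coe_xs, mul_add, add_mul, add_mul,
    Matrix.single_mul_single_of_ne _ _ _ _ h.symm]
  simp only [mul_one, one_mul, add_zero, Matrix.single_add]
  abel

theorem xs_zero {A : Type} [CommRing A] (i j : ι) (h : i ≠ j) : (xs i j h 0 : SL ι A) = 1 := by
  apply sl_ext; rw [coe_xs]; simp

theorem xs_inv {A : Type} [CommRing A] (i j : ι) (h : i ≠ j) (q : A) :
    (xs i j h q : SL ι A)⁻¹ = xs i j h (-q) := by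
  rw [inv_eq_iff_mul_eq_one, xs_mul, add_neg_cancel, xs_zero]

/-- `x_ji(1) x_ij(-q) x_ji(1)⁻¹ = 1 + q (e_i + e_j)(e_i - e_j)^T` -/
theorem conj_eq {A : Type} [CommRing A] (i j : ι) (h : i ≠ j) (q : A) :
    ((xs j i h.symm 1 * xs i j h (-q) * (xs j i h.symm 1)⁻¹ : SL ι A) : Matrix ι ι A)
      = 1 + vecMulVec (fun k => if k = i ∨ k = j then q else 0)
        (fun k => (if k = i then 1 else 0) - (if k = j then 1 else 0)) := by
  rw [xs_inv, Matrix.SpecialLinearGroup.coe_mul, Matrix.SpecialLinearGroup.coe_mul, coe_xs, coe_xs,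
    coe_xs]
  have h' := h.symm
  have e : (1 + Matrix.single j i 1) * (1 + Matrix.single i j (-q)) * (1 + Matrix.single j i (-1))
      = 1 + (Matrix.single j j (-q) + Matrix.single i j (-q) + Matrix.single i i q
        + Matrix.single j i q : Matrix ι ι A) := by
    simp only [mul_add, add_mul, mul_one, one_mul, Matrix.single_mul_single_same,
      Matrix.single_mul_single_of_ne _ _ _ _ h, Matrix.single_mul_single_of_ne _ _ _ _ h',
      single_neg', mul_neg, neg_mul, zero_mul, neg_neg]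
    abel
  rw [e]
  congr 1
  refine Matrix.ext fun k l => ?_
  simp only [Matrix.add_apply, Matrix.single_apply, Matrix.vecMulVec_apply]
  by_cases h1 : k = i
  · subst h1
    by_cases h2 : l = j
    · subst h2; simp [h, h']
    · by_cases h3 : l = k
      · subst h3; simp [h, h']
      · simp [h2, h3, Ne.symm h2, Ne.symm h3, h, h']
  · by_cases h4 : k = j
    · subst h4
      by_cases h2 : l = k
      · subst h2; simp [h, h']
      · by_cases h3 : l = i
        · subst h3; simp [h, h']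
        · simp [h2, h3, Ne.symm h2, Ne.symm h3, h, h']
    · simp [h1, h4, Ne.symm h1, Ne.symm h4]

/-- inverses of letters -/
theorem Lt_inv {N : ℕ} {g : SL ι ℤ[X]} (h : g ∈ Lt ι N) : g⁻¹ ∈ Lt ι N := by
  obtain ⟨i, j, d, hij, hd, s, hs, hg⟩ := h
  have hs' : -s = 1 ∨ -s = -1 := by
    rcases hs with rfl | rfl
    · right; rfl
    · left; rfl
  refine ⟨i, j, d, hij, hd, -s, hs', ?_⟩
  have hq : (C (-s) * X ^ d : ℤ[X]) = -(C s * X ^ d) := by rw [C_neg, neg_mul]
  rcases hg with hg | hg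
  · left
    have : g = xs i j hij (C s * X ^ d) := sl_ext (by rw [hg, coe_xs])
    rw [this, xs_inv, coe_xs, hq]
  · right
    have : g = xs j i hij.symm 1 * xs i j hij (-(C s * X ^ d)) * (xs j i hij.symm 1)⁻¹ :=
      sl_ext (by rw [hg, conj_eq])
    have e : g⁻¹ = xs j i hij.symm 1 * xs i j hij (-(C (-s) * X ^ d)) * (xs j i hij.symm 1)⁻¹ := by
      rw [this, hq, ← xs_inv i j hij (-(C s * X ^ d))]
      group
    rw [e, conj_eq]

theorem closure_Lt (N : ℕ) :
    (Subgroup.closure (Lt ι N)).toSubmonoid = Submonoid.closure (Lt ι N) := by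
  rw [Subgroup.closure_toSubmonoid]
  congr 1
  refine Set.union_eq_self_of_subset_right fun g hg => ?_
  have := Lt_inv (Set.mem_inv.1 hg)
  rwa [inv_inv] at this

theorem mem_closure_Lt {N : ℕ} {g : SL ι ℤ[X]} (h : g ∈ Subgroup.closure (Lt ι N)) :
    g ∈ Submonoid.closure (Lt ι N) := by
  rw [← closure_Lt]; exact h

/-- the coefficient of degree `a` of `g - 1` -/
def cf (a : ℕ) (g : SL ι ℤ[X]) : Matrix ι ι ℤ :=
  Matrix.of fun i j => (((g : Matrix ι ι ℤ[X]) - 1) i j).coeff a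

theorem cf_mul {a : ℕ} (ha : 1 ≤ a) {g h : SL ι ℤ[X]} (hg : Cg (X ^ a) g) (hh : Cg (X ^ a) h) :
    cf a (g * h) = cf a g + cf a h := by
  refine Matrix.ext fun i j => ?_
  have e : (((g * h : SL ι ℤ[X]) : Matrix ι ι ℤ[X]) - 1) i j
      = ((g : Matrix ι ι ℤ[X]) - 1) i j + ((h : Matrix ι ι ℤ[X]) - 1) i j
        + ∑ k, ((g : Matrix ι ι ℤ[X]) - 1) i k * ((h : Matrix ι ι ℤ[X]) - 1) k j := by
    rw [← Matrix.mul_apply, ← Matrix.add_apply, ← Matrix.add_apply,
      Matrix.SpecialLinearGroup.coe_mul]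
    have e2 : (g : Matrix ι ι ℤ[X]) * (h : Matrix ι ι ℤ[X]) - 1
        = (g : Matrix ι ι ℤ[X]) - 1 + ((h : Matrix ι ι ℤ[X]) - 1)
          + ((g : Matrix ι ι ℤ[X]) - 1) * ((h : Matrix ι ι ℤ[X]) - 1) := by
      simp only [mul_sub, sub_mul, mul_one, one_mul]
      abel
    rw [e2]
  have h0 : (∑ k, ((g : Matrix ι ι ℤ[X]) - 1) i k * ((h : Matrix ι ι ℤ[X]) - 1) k j).coeff a = 0 := by
    have : (X : ℤ[X]) ^ (a + a) ∣
        ∑ k, ((g : Matrix ι ι ℤ[X]) - 1) i k * ((h : Matrix ι ι ℤ[X]) - 1) k j := by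
      refine Finset.dvd_sum fun k _ => ?_
      rw [pow_add]
      exact mul_dvd_mul (hg i k) (hh k j)
    exact Polynomial.X_pow_dvd_iff.1 this a (by omega)
  show (((((g * h : SL ι ℤ[X]) : Matrix ι ι ℤ[X]) - 1) i j).coeff a) = _
  rw [e, Polynomial.coeff_add, Polynomial.coeff_add, h0, add_zero]
  rfl

theorem cf_one (a : ℕ) : cf a (1 : SL ι ℤ[X]) = 0 := by
  refine Matrix.ext fun i j => ?_
  show ((((1 : SL ι ℤ[X]) : Matrix ι ι ℤ[X]) - 1) i j).coeff a = 0
  rw [Matrix.SpecialLinearGroup.coe_one, sub_self]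
  simp

theorem cf_inv {a : ℕ} (ha : 1 ≤ a) {g : SL ι ℤ[X]} (hg : Cg (X ^ a) g) :
    cf a g⁻¹ = -cf a g := by
  have := cf_mul ha hg.inv hg
  rw [inv_mul_cancel, cf_one] at this
  exact eq_neg_of_add_eq_zero_left this.symm

theorem cg_of_cf {a : ℕ} {g : SL ι ℤ[X]} (hg : Cg (X ^ a) g) (h : cf a g = 0) :
    Cg (X ^ (a + 1)) g := by
  intro i j
  rw [Polynomial.X_pow_dvd_iff]
  intro d hd
  rcases Nat.lt_succ_iff_lt_or_eq.1 hd with h1 | h1
  · exact Polynomial.X_pow_dvd_iff.1 (hg i j) d h1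
  · rw [h1]; exact congrFun (congrFun h i) j

/-- the coefficients which are realised by letters of degree `a` -/
def Rl (ι : Type) [Fintype ι] [DecidableEq ι] (a : ℕ) (ha : 1 ≤ a) : AddSubgroup (Matrix ι ι ℤ) where
  carrier := {Z | ∃ L : SL ι ℤ[X], L ∈ Subgroup.closure (Lt ι a) ∧ L ∈ E1 ι a ∧ Cg (X ^ a) L ∧
    cf a L = Z}
  zero_mem' := ⟨1, one_mem _, one_mem _, Cg.one, cf_one a⟩
  add_mem' := by
    rintro Z Z' ⟨L, h1, h2, h3, h4⟩ ⟨L', h1', h2', h3', h4'⟩
    exact ⟨L * L', mul_mem h1 h1', mul_mem h2 h2', h3.mul h3', by rw [cf_mul ha h3 h3', h4, h4']⟩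
  neg_mem' := by
    rintro Z ⟨L, h1, h2, h3, h4⟩
    exact ⟨L⁻¹, inv_mem h1, inv_mem h2, h3.inv, by rw [cf_inv ha h3, h4]⟩

theorem Rl_single {a : ℕ} (ha : 1 ≤ a) {i j : ι} (h : i ≠ j) :
    (Matrix.single i j 1 : Matrix ι ι ℤ) ∈ Rl ι a ha := by
  refine ⟨xs i j h (X ^ a * 1), Subgroup.subset_closure ⟨i, j, a, h, le_rfl, 1, Or.inl rfl,
    Or.inl ?_⟩, xs_mem_E1 i j h 1, fun k l => ?_, Matrix.ext fun k l => ?_⟩
  · rw [coe_xs, mul_one, C_1, one_mul]
  · rw [coe_xs, add_sub_cancel_left, Matrix.single_apply]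
    split_ifs
    · exact dvd_mul_right _ _
    · exact dvd_zero _
  · show ((((xs i j h (X ^ a * 1) : SL ι ℤ[X]) : Matrix ι ι ℤ[X]) - 1) k l).coeff a = _
    rw [coe_xs, add_sub_cancel_left, Matrix.single_apply, Matrix.single_apply]
    split_ifs
    · simp
    · simp

theorem Rl_vv {a : ℕ} (ha : 1 ≤ a) {i j : ι} (h : i ≠ j) :
    (vecMulVec (fun k => if k = i ∨ k = j then 1 else 0)
        (fun k => (if k = i then 1 else 0) - (if k = j then 1 else 0)) : Matrix ι ι ℤ)
      ∈ Rl ι a ha := by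
  have hc := conj_eq i j h (X ^ a : ℤ[X])
  refine ⟨xs j i h.symm 1 * xs i j h (-X ^ a) * (xs j i h.symm 1)⁻¹,
    Subgroup.subset_closure ⟨i, j, a, h, le_rfl, 1, Or.inl rfl, Or.inr ?_⟩, ?_, fun k l => ?_,
    Matrix.ext fun k l => ?_⟩
  · rw [hc, C_1, one_mul]
  · refine E1_conj (xs_mem_Ez _ _ _ _) ?_
    have : (-X ^ a : ℤ[X]) = X ^ a * (-1) := by ring
    rw [this]
    exact xs_mem_E1 i j h (-1)
  · rw [hc, add_sub_cancel_left, Matrix.vecMulVec_apply]
    refine Dvd.dvd.mul_right ?_ _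
    split_ifs
    · exact dvd_rfl
    · exact dvd_zero _
  · show ((((xs j i h.symm 1 * xs i j h (-X ^ a) * (xs j i h.symm 1)⁻¹ : SL ι ℤ[X]) :
      Matrix ι ι ℤ[X]) - 1) k l).coeff a = _
    rw [hc, add_sub_cancel_left, Matrix.vecMulVec_apply, Matrix.vecMulVec_apply]
    by_cases h1 : k = i ∨ k = j
    · rw [if_pos h1, if_pos h1]
      by_cases h2 : l = i <;> by_cases h3 : l = j <;> simp [h2, h3, h, h.symm]
    · rw [if_neg h1, if_neg h1]; simp

theorem Rl_diag {a : ℕ} (ha : 1 ≤ a) {i p : ι} (h : i ≠ p) :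
    (Matrix.single i i 1 - Matrix.single p p 1 : Matrix ι ι ℤ) ∈ Rl ι a ha := by
  have e : (Matrix.single i i 1 - Matrix.single p p 1 : Matrix ι ι ℤ)
      = vecMulVec (fun k => if k = i ∨ k = p then 1 else 0)
        (fun k => (if k = i then 1 else 0) - (if k = p then 1 else 0))
        + Matrix.single i p 1 - Matrix.single p i 1 := by
    have h' := h.symm
    refine Matrix.ext fun k l => ?_
    simp only [Matrix.add_apply, Matrix.sub_apply, Matrix.single_apply, Matrix.vecMulVec_apply]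
    by_cases h1 : k = i
    · subst h1
      by_cases h2 : l = p
      · subst h2; simp [h, h']
      · by_cases h3 : l = k
        · subst h3; simp [h, h']
        · simp [h2, h3, Ne.symm h2, Ne.symm h3, h, h']
    · by_cases h4 : k = p
      · subst h4
        by_cases h2 : l = k
        · subst h2; simp [h, h']
        · by_cases h3 : l = i
          · subst h3; simp [h, h']
          · simp [h2, h3, Ne.symm h2, Ne.symm h3, h, h']
      · simp [h1, h4, Ne.symm h1, Ne.symm h4]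
  rw [e]
  exact sub_mem (add_mem (Rl_vv ha h) (Rl_single ha h)) (Rl_single ha h.symm)

theorem Rl_of_trace {a : ℕ} (ha : 1 ≤ a) (Z : Matrix ι ι ℤ) (hZ : Z.trace = 0) :
    Z ∈ Rl ι a ha := by
  classical
  rcases isEmpty_or_nonempty ι with hι | ⟨⟨p⟩⟩
  · have : Z = 0 := Matrix.ext fun i _ => (hι.false i).elim
    rw [this]; exact zero_mem _
  have e : Z = ∑ i, ∑ j, Z i j • (if i = j then Matrix.single i i 1 - Matrix.single p p 1
      else Matrix.single i j 1 : Matrix ι ι ℤ) := by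
    have h1 : ∀ i j, Z i j • (if i = j then Matrix.single i i 1 - Matrix.single p p 1
      else Matrix.single i j 1 : Matrix ι ι ℤ) = Z i j • Matrix.single i j 1
        - (if i = j then Z i j • Matrix.single p p 1 else 0 : Matrix ι ι ℤ) := by
      intro i j
      by_cases hij : i = j
      · subst hij
        rw [if_pos rfl, if_pos rfl, smul_sub]
      · rw [if_neg hij, if_neg hij, sub_zero]
    simp only [h1, Finset.sum_sub_distrib]
    have h2 : ∑ i, ∑ j, (if i = j then Z i j • Matrix.single p p 1 else 0 : Matrix ι ι ℤ) = 0 := by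
      have h3 : ∀ i, ∑ j, (if i = j then Z i j • Matrix.single p p 1 else 0 : Matrix ι ι ℤ)
          = Z i i • Matrix.single p p 1 := by
        intro i
        rw [Finset.sum_ite_eq Finset.univ i]
        simp
      simp only [h3]
      rw [← Finset.sum_smul]
      have : ∑ i, Z i i = 0 := hZ
      rw [this, zero_smul]
    rw [h2, sub_zero]
    conv_lhs => rw [Matrix.matrix_eq_sum_single Z]
    refine Finset.sum_congr rfl fun i _ => Finset.sum_congr rfl fun j _ => ?_
    rw [Matrix.smul_single, smul_eq_mul, mul_one]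
  rw [e]
  refine sum_mem fun i _ => sum_mem fun j _ => zsmul_mem ?_ _
  split_ifs with hij
  · by_cases hip : i = p
    · subst hip; rw [sub_self]; exact zero_mem _
    · exact Rl_diag ha hip
  · exact Rl_single ha hij

theorem cf_trace {a : ℕ} (ha : 1 ≤ a) {M : SL ι ℤ[X]} (hM : Cg (X ^ a) M) : (cf a M).trace = 0 := by
  choose Q hQ using hM
  set Q' : Matrix ι ι ℤ[X] := Matrix.of Q with hQ'
  have e1 : (M : Matrix ι ι ℤ[X]) = 1 + (X ^ a : ℤ[X]) • Q' := by
    refine Matrix.ext fun i j => ?_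
    have := hQ i j
    rw [Matrix.sub_apply, sub_eq_iff_eq_add] at this
    rw [this, Matrix.add_apply, Matrix.smul_apply, smul_eq_mul, hQ', Matrix.of_apply, add_comm]
  have h1 : (1 + (X ^ a : ℤ[X]) • Q').det = 1 := by rw [← e1]; exact M.det_coe
  rw [Matrix.det_one_add_smul] at h1
  set e := (det (1 + (X : ℤ[X][X]) • Q'.map C)).divX.divX.eval (X ^ a : ℤ[X]) with he
  have h2 : (X : ℤ[X]) ^ a * (Q'.trace + e * X ^ a) = 0 := by linear_combination h1
  have h3 : Q'.trace + e * X ^ a = 0 := by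
    rcases mul_eq_zero.1 h2 with h | h
    · exact absurd h (pow_ne_zero a X_ne_zero)
    · exact h
  have h4 : Q'.trace.coeff 0 = 0 := by
    have h5 : Q'.trace = -(e * X ^ a) := eq_neg_of_add_eq_zero_left h3
    rw [h5, Polynomial.coeff_neg, Polynomial.coeff_mul_X_pow', if_neg (by omega), neg_zero]
  have h5 : (cf a M).trace = Q'.trace.coeff 0 := by
    unfold Matrix.trace
    rw [Polynomial.finset_sum_coeff]
    refine Finset.sum_congr rfl fun i _ => ?_
    show (((M : Matrix ι ι ℤ[X]) - 1) i i).coeff a = (Q i i).coeff 0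
    rw [hQ i i, Polynomial.coeff_X_pow_mul', if_pos le_rfl, Nat.sub_self]
  rw [h5, h4]

/-- the step (U) -/
theorem u_step {a : ℕ} (ha : 1 ≤ a) {M : SL ι ℤ[X]} (hM : Cg (X ^ a) M) :
    ∃ L : SL ι ℤ[X], L ∈ Subgroup.closure (Lt ι a) ∧ L ∈ E1 ι a ∧ Cg (X ^ a) L ∧
      Cg (X ^ (a + 1)) (L⁻¹ * M) ∧ Cg (X ^ (a + 1)) (M * L⁻¹) := by
  obtain ⟨L, h1, h2, h3, h4⟩ := Rl_of_trace ha (cf a M) (cf_trace ha hM)
  refine ⟨L, h1, h2, h3, cg_of_cf (h3.inv.mul hM) ?_, cg_of_cf (hM.mul h3.inv) ?_⟩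
  · rw [cf_mul ha h3.inv hM, cf_inv ha h3, h4, neg_add_cancel]
  · rw [cf_mul ha hM h3.inv, cf_inv ha h3, h4, add_neg_cancel]

theorem Lt_anti {N N' : ℕ} (h : N ≤ N') : Lt ι N' ⊆ Lt ι N := by
  rintro g ⟨i, j, d, hij, hd, s, hs, hg⟩
  exact ⟨i, j, d, hij, h.trans hd, s, hs, hg⟩

end Pool.Agent.WFS
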