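import Pool.Agent.WFS.LabMain

/-!
# WFS module C: the labelling theorem with the states `Option I`
-/

set_option autoImplicit false

namespace Pool.Agent.WFS.Lab

open Pool.Agent.WFS

section transport

variable {α Q P : Type}

/-- transport of a labelled graph -/
def tr (e : Q ≃ P) (F : α → Q → Q) (a : α) (p : P) : P := e (F a (e.symm p))

theorem wf_tr (e : Q ≃ P) (F : α → Q → Q) (w : List α) (p : P) :
    wf (tr e F) w p = e (wf F w (e.symm p)) := by
  induction w generalizing p with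
  | nil => simp
  | cons a w ih =>
    rw [wf_cons, wf_cons, ih]
    simp [tr]

theorem iter_tr (e : Q ≃ P) (F : α → Q → Q) (w : List α) (m : ℕ) (p : P) :
    (wf (tr e F) w)^[m] p = e ((wf F w)^[m] (e.symm p)) := by
  induction m generalizing p with
  | zero => simp
  | succ m ih =>
    rw [Function.iterate_succ_apply, Function.iterate_succ_apply, ih, wf_tr]
    simp

theorem const_tr (e : Q ≃ P) (F : α → Q → Q) (w : List α) :
    (∃ c, ∀ p, wf (tr e F) w p = c) ↔ ∃ c, ∀ q, wf F w q = c := by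
  constructor
  · rintro ⟨c, hc⟩
    refine ⟨e.symm c, fun q => ?_⟩
    have := hc (e q)
    rw [wf_tr, e.symm_apply_apply] at this
    rw [← this, e.symm_apply_apply]
  · rintro ⟨c, hc⟩
    exact ⟨e c, fun p => by rw [wf_tr, hc]⟩

theorem sup_tr [Fintype Q] [Fintype P] (e : Q ≃ P) (g : P → ℕ) :
    (Finset.univ.sup fun q => g (e q)) = Finset.univ.sup g := by
  apply le_antisymm
  · exact Finset.sup_le fun q _ => Finset.le_sup (f := g) (Finset.mem_univ (e q))
  · refine Finset.sup_le fun p _ => ?_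
    have := Finset.le_sup (f := fun q => g (e q)) (Finset.mem_univ (e.symm p))
    simpa using this

theorem size_tr [Fintype Q] [Fintype P] [DecidableEq Q] [DecidableEq P] (e : Q ≃ P)
    (F : α → Q → Q) (W : Finset (List α)) (d : ℕ) :
    (∑ p', Finset.univ.sup fun p => (W.filter fun x => x.length = d ∧ wf (tr e F) x p = p').card) =
      ∑ q', Finset.univ.sup fun q => (W.filter fun x => x.length = d ∧ wf F x q = q').card := by
  rw [← Equiv.sum_comp e]
  refine Finset.sum_congr rfl fun q' _ => ?_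
  rw [← sup_tr e]
  refine Finset.sup_congr rfl fun q _ => ?_
  congr 1
  ext x
  rw [Finset.mem_filter, Finset.mem_filter, wf_tr, e.symm_apply_apply, e.apply_eq_iff_eq]

end transport

/-- THE LABELLING THEOREM, states `Option I`, with the number of the non-constant words of a given length -/
theorem labelling_option {V : Type} [Fintype V] [DecidableEq V] [Nonempty V] {n : ℕ} (hn : 2 ≤ n)
    (A : Matrix V V ℕ) (hA : FS n A) :
    ∃ r : ℝ, 0 < r ∧ r < 1 ∧ 1 < n * r ∧ ∀ ε : ℝ, 0 < ε → ∀ N₀ : ℕ, ∃ N, N₀ ≤ N ∧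
      ∃ (I : Type) (_ : Fintype I) (_ : DecidableEq I) (F : Fin n → Option I → Option I),
        Sse (toFin (am F)) (toFin A) ∧
        (∀ w : List (Fin n), w ≠ [] → w.length < N → ∃ m c, ∀ q, (wf F w)^[m] q = c) ∧
        (Fintype.card (Option I) : ℝ) * r ^ N ≤ ε ∧
        (∀ (W : Finset (List (Fin n))) (T : ℕ),
          (∀ x ∈ W, N ≤ x.length ∧ ¬ ∃ c, ∀ q, wf F x q = c) →
          (∑ d ∈ Finset.range T, r ^ d * ((∑ q', Finset.univ.sup fun q =>
            (W.filter fun x => x.length = d ∧ wf F x q = q').card : ℕ) : ℝ)) ≤ ε) ∧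
        (∀ (W : Finset (List (Fin n))) (d : ℕ),
          (∀ x ∈ W, x.length = d ∧ N ≤ d ∧ ¬ ∃ c, ∀ q, wf F x q = c) → (W.card : ℝ) * r ^ d ≤ ε) := by
  classical
  obtain ⟨r, hr0, hr1, hr2, H⟩ := labelling hn A hA
  refine ⟨r, hr0, hr1, hr2, fun ε hε N₀ => ?_⟩
  obtain ⟨N, hN, Q, _, _, ⟨q0⟩, F, h1, h2, h3, h4⟩ := H ε hε N₀
  let e : Q ≃ Option {q // q ≠ q0} := (Equiv.optionSubtypeNe q0).symm
  have h4' : ∀ (W : Finset (List (Fin n))) (T : ℕ),
      (∀ x ∈ W, N ≤ x.length ∧ ¬ ∃ c, ∀ q, wf (tr e F) x q = c) →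
      (∑ d ∈ Finset.range T, r ^ d * ((∑ q', Finset.univ.sup fun q =>
        (W.filter fun x => x.length = d ∧ wf (tr e F) x q = q').card : ℕ) : ℝ)) ≤ ε := by
    intro W T hW
    simp only [size_tr]
    exact h4 W T fun x hx => ⟨(hW x hx).1, fun h => (hW x hx).2 ((const_tr e F x).2 h)⟩
  refine ⟨N, hN, {q // q ≠ q0}, inferInstance, inferInstance, tr e F, ?_, ?_, ?_, h4', ?_⟩
  · refine Sse.trans (Est.symm ?_).sse h1
    exact am_equiv F (tr e F) e e.bijective fun a q => by simp [tr]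
  · intro w hw hl
    obtain ⟨m, c, hc⟩ := h2 w hw hl
    exact ⟨m, e c, fun q => by rw [iter_tr, hc]⟩
  · rw [← Fintype.card_congr e]
    exact h3
  · intro W d hW
    by_cases hd : N ≤ d
    · have e1 := h4' W (d + 1) fun x hx => ⟨(hW x hx).1 ▸ (hW x hx).2.1, (hW x hx).2.2⟩
      refine le_trans ?_ e1
      have e2 : (W.card : ℝ) * r ^ d ≤ r ^ d * ((∑ q', Finset.univ.sup fun q =>
          (W.filter fun x => x.length = d ∧ wf (tr e F) x q = q').card : ℕ) : ℝ) := by
        rw [mul_comm]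
        refine mul_le_mul_of_nonneg_left ?_ (by positivity)
        norm_cast
        have e3 : W.card = ∑ q', (W.filter fun x => x.length = d ∧ wf (tr e F) x none = q').card := by
          rw [Finset.card_eq_sum_card_fiberwise (f := fun x => wf (tr e F) x none)
            (t := Finset.univ) (fun _ _ => Finset.mem_coe.2 (Finset.mem_univ _))]
          refine Finset.sum_congr rfl fun q' _ => ?_
          congr 1
          ext x
          rw [Finset.mem_filter, Finset.mem_filter]
          exact ⟨fun h => ⟨h.1, (hW x h.1).1, h.2⟩, fun h => ⟨h.1, h.2.2⟩⟩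
        rw [e3]
        refine Finset.sum_le_sum fun q' _ => ?_
        exact Finset.le_sup (f := fun q => (W.filter fun x => x.length = d ∧
          wf (tr e F) x q = q').card) (Finset.mem_univ none)
      refine e2.trans ?_
      exact Finset.single_le_sum (f := fun d => r ^ d * ((∑ q', Finset.univ.sup fun q =>
          (W.filter fun x => x.length = d ∧ wf (tr e F) x q = q').card : ℕ) : ℝ))
        (fun _ _ => by positivity) (Finset.mem_range.2 (Nat.lt_succ_self d))
    · have : W = ∅ := by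
        rw [Finset.eq_empty_iff_forall_notMem]
        exact fun x hx => hd (hW x hx).2.1
      rw [this]
      simp [hε.le]

/-- THE LABELLING THEOREM with room for `c (N + 1)^e` more indices -/
theorem labelling_room {V : Type} [Fintype V] [DecidableEq V] [Nonempty V] {n : ℕ} (hn : 2 ≤ n)
    (A : Matrix V V ℕ) (hA : FS n A) :
    ∃ r : ℝ, 0 < r ∧ r < 1 ∧ 1 < n * r ∧ ∀ (c : ℝ) (e : ℕ) (ε : ℝ), 0 < ε → ∀ N₀ : ℕ, ∃ N, N₀ ≤ N ∧
      ∃ (I : Type) (_ : Fintype I) (_ : DecidableEq I) (F : Fin n → Option I → Option I),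
        Sse (toFin (am F)) (toFin A) ∧
        (∀ w : List (Fin n), w ≠ [] → w.length < N → ∃ m c, ∀ q, (wf F w)^[m] q = c) ∧
        ((Fintype.card (Option I) : ℝ) + c * ((N : ℝ) + 1) ^ e) * r ^ N ≤ ε ∧
        (∀ (W : Finset (List (Fin n))) (T : ℕ),
          (∀ x ∈ W, N ≤ x.length ∧ ¬ ∃ c, ∀ q, wf F x q = c) →
          (∑ d ∈ Finset.range T, r ^ d * ((∑ q', Finset.univ.sup fun q =>
            (W.filter fun x => x.length = d ∧ wf F x q = q').card : ℕ) : ℝ)) ≤ ε) ∧
        (∀ (W : Finset (List (Fin n))) (d : ℕ),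
          (∀ x ∈ W, x.length = d ∧ N ≤ d ∧ ¬ ∃ c, ∀ q, wf F x q = c) → (W.card : ℝ) * r ^ d ≤ ε) := by
  obtain ⟨r, hr0, hr1, hr2, H⟩ := labelling_option hn A hA
  refine ⟨r, hr0, hr1, hr2, fun c e ε hε N₀ => ?_⟩
  have h1 : Filter.Tendsto (fun N : ℕ => c / r * (((N + 1 : ℕ) : ℝ) ^ e * r ^ (N + 1))) Filter.atTop
      (nhds (c / r * 0)) := by
    refine Filter.Tendsto.const_mul _ ?_
    exact (tendsto_pow_const_mul_const_pow_of_abs_lt_one e
      (by rwa [abs_of_nonneg hr0.le])).comp (Filter.tendsto_add_atTop_nat 1)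
  rw [mul_zero] at h1
  obtain ⟨N1, hN1⟩ := Filter.eventually_atTop.1 (h1.eventually (gt_mem_nhds (half_pos hε)))
  obtain ⟨N, hN, I, i1, i2, F, g1, g2, g3, g4, g5⟩ := H (ε / 2) (half_pos hε) (max N₀ N1)
  refine ⟨N, le_trans (le_max_left _ _) hN, I, i1, i2, F, g1, g2, ?_, ?_, ?_⟩
  · have h2 := hN1 N (le_trans (le_max_right _ _) hN)
    have h3 : c / r * (((N + 1 : ℕ) : ℝ) ^ e * r ^ (N + 1)) = c * ((N : ℝ) + 1) ^ e * r ^ N := by
      rw [pow_succ]
      push_cast
      field_simp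
    rw [h3] at h2
    rw [add_mul]
    linarith
  · intro W T hW
    linarith [g4 W T hW]
  · intro W d hW
    linarith [g5 W d hW]

end Pool.Agent.WFS.Lab
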