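import Pool.Agent.WFS.LadE

/-! Output lemmas: coefficients of small matrices, degree bounds along a chain.
(helper45, WFS, algebra part) -/

set_option autoImplicit false
set_option linter.all false

namespace Pool.WFS.Lad

open Matrix Polynomial

variable {ι : Type} [Fintype ι] [DecidableEq ι]

theorem coeff_le_wz {r : ℝ} (hr : 0 ≤ r) (p : ℤ[X]) (d : ℕ) :
    |(p.coeff d : ℝ)| * r ^ d ≤ wz r p := by
  unfold wz wn
  by_cases hd : d ∈ (iz p).support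
  · have := Finset.single_le_sum (f := fun d => |(iz p).coeff d| * r ^ d)
      (fun k _ => mul_nonneg (abs_nonneg _) (pow_nonneg hr k)) hd
    rwa [coeff_iz] at this
  · rw [Polynomial.notMem_support_iff, coeff_iz] at hd
    rw [hd, abs_zero, zero_mul]
    exact Finset.sum_nonneg fun k _ => mul_nonneg (abs_nonneg _) (pow_nonneg hr k)

/-- coefficients of a small matrix, degree by degree -/
theorem Sm.coeff {r e : ℝ} (hr : 0 < r) {M : Matrix ι ι ℤ[X]} (h : Sm (wz r) e M) (d : ℕ) :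
    ∃ b : ι → ℝ, (∀ i, 0 ≤ b i) ∧ (∀ i j, |((M i j).coeff d : ℝ)| ≤ b i) ∧
      (∑ i, b i) * r ^ d ≤ e := by
  obtain ⟨b, h0, h1, h2⟩ := h
  have hrd : 0 < r ^ d := pow_pos hr d
  refine ⟨fun i => b i / r ^ d, fun i => div_nonneg (h0 i) hrd.le, fun i j => ?_, ?_⟩
  · rw [le_div_iff₀ hrd]
    exact (coeff_le_wz hr.le _ d).trans (h1 i j)
  · rw [← Finset.sum_div, div_mul_cancel₀ _ hrd.ne']
    exact h2

/-- integral form: the sum over the rows of the largest absolute value of a coefficient -/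
theorem Sm.coeff_sup {r e : ℝ} (hr : 0 < r) {M : Matrix ι ι ℤ[X]} (h : Sm (wz r) e M) (d : ℕ) :
    ((∑ i, Finset.univ.sup fun j => ((M i j).coeff d).natAbs : ℕ) : ℝ) * r ^ d ≤ e := by
  obtain ⟨b, h0, h1, h2⟩ := h.coeff hr d
  refine le_trans (mul_le_mul_of_nonneg_right ?_ (pow_nonneg hr.le d)) h2
  push_cast
  refine Finset.sum_le_sum fun i _ => ?_
  rcases Finset.univ.eq_empty_or_nonempty (α := ι) with hι | hι
  · have : i ∈ (Finset.univ : Finset ι) := Finset.mem_univ i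
    rw [hι] at this; exact absurd this (Finset.notMem_empty i)
  · obtain ⟨j, _, hj⟩ := Finset.exists_mem_eq_sup _ hι fun j => ((M i j).coeff d).natAbs
    rw [hj, Nat.cast_natAbs, Int.cast_abs]
    exact h1 i j

/-- the part of a letter in degree `d` -/
theorem Mv.coeff {r e : ℝ} (hr : 0 < r) {n : ℕ} {g : SL ι ℤ[X]} (h : Mv (wz r) (X ^ n) e g) :
    ∃ (v : ι → ℤ[X]) (x : ι → ℤ),
      (g : Matrix ι ι ℤ[X]) = 1 + Matrix.vecMulVec v (fun j => ((x j : ℤ) : ℤ[X])) ∧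
      (∑ j, ((x j : ℤ) : ℤ[X]) * v j = 0) ∧ (∀ i d, d < n → (v i).coeff d = 0) ∧
      ∀ d, ((∑ i, ((v i).coeff d).natAbs : ℕ) : ℝ) *
        ((Finset.univ.sup fun j => (x j).natAbs : ℕ) : ℝ) * r ^ d ≤ e := by
  obtain ⟨v, x, h1, h2, h3, a, c, h4, h5, h6, h7⟩ := h
  refine ⟨v, x, h1, by simpa [dotProduct] using h2,
    fun i d hd => Polynomial.X_pow_dvd_iff.1 (h3 i) d hd, fun d => ?_⟩
  have hrd : 0 < r ^ d := pow_pos hr d
  have e1 : ((∑ i, ((v i).coeff d).natAbs : ℕ) : ℝ) * r ^ d ≤ ∑ i, a i := by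
    push_cast
    rw [Finset.sum_mul]
    refine Finset.sum_le_sum fun i _ => ?_
    have := (coeff_le_wz hr.le (v i) d).trans (h4 i)
    rwa [Nat.cast_natAbs, Int.cast_abs]
  have e2 : ((Finset.univ.sup fun j => (x j).natAbs : ℕ) : ℝ) ≤ c := by
    rcases Finset.univ.eq_empty_or_nonempty (α := ι) with hι | hι
    · rw [hι, Finset.sup_empty]; simpa using h6
    · obtain ⟨j, _, hj⟩ := Finset.exists_mem_eq_sup _ hι fun j => (x j).natAbs
      rw [hj, Nat.cast_natAbs, Int.cast_abs]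
      exact h5 j
  calc ((∑ i, ((v i).coeff d).natAbs : ℕ) : ℝ) *
        ((Finset.univ.sup fun j => (x j).natAbs : ℕ) : ℝ) * r ^ d
      = (((∑ i, ((v i).coeff d).natAbs : ℕ) : ℝ) * r ^ d) *
        ((Finset.univ.sup fun j => (x j).natAbs : ℕ) : ℝ) := by ring
    _ ≤ (∑ i, a i) * c := mul_le_mul e1 e2 (Nat.cast_nonneg _)
        ((mul_nonneg (Nat.cast_nonneg _) hrd.le).trans e1)
    _ ≤ e := h7

/-- all entries have degree at most `Δ` -/
def DegLe (Δ : ℕ) (g : SL ι ℤ[X]) : Prop := ∀ i j, ((g : Matrix ι ι ℤ[X]) i j).natDegree ≤ Δ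

theorem exists_degLe (g : SL ι ℤ[X]) : ∃ Δ, DegLe Δ g := by
  refine ⟨∑ i, ∑ j, ((g : Matrix ι ι ℤ[X]) i j).natDegree, fun i j => ?_⟩
  exact (Finset.single_le_sum (f := fun j => ((g : Matrix ι ι ℤ[X]) i j).natDegree)
    (fun j _ => Nat.zero_le _) (Finset.mem_univ j)).trans
    (Finset.single_le_sum (f := fun i => ∑ j, ((g : Matrix ι ι ℤ[X]) i j).natDegree)
    (fun i _ => Nat.zero_le _) (Finset.mem_univ i))

theorem DegLe.mono {Δ Δ' : ℕ} {g : SL ι ℤ[X]} (h : DegLe Δ g) (hΔ : Δ ≤ Δ') : DegLe Δ' g :=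
  fun i j => (h i j).trans hΔ

/-- a chain has bounded degree; all its members are congruent to `1` if the first one is. -/
theorem Ch.deg {r e : ℝ} {n : ℕ} {g h : SL ι ℤ[X]} (hc : Ch (wz r) (X ^ n) e g h)
    (hg : Cg (X ^ n) g) :
    ∃ Δ, Relation.ReflTransGen (fun a b => (nr (wz r) e a ∧ Cg (X ^ n) a ∧ DegLe Δ a) ∧
      (nr (wz r) e b ∧ Cg (X ^ n) b ∧ DegLe Δ b) ∧ Mv (wz r) (X ^ n) e (a⁻¹ * b)) g h := by
  have mono : ∀ {Δ Δ' : ℕ}, Δ ≤ Δ' → ∀ {g h : SL ι ℤ[X]},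
      Relation.ReflTransGen (fun a b => (nr (wz r) e a ∧ Cg (X ^ n) a ∧ DegLe Δ a) ∧
      (nr (wz r) e b ∧ Cg (X ^ n) b ∧ DegLe Δ b) ∧ Mv (wz r) (X ^ n) e (a⁻¹ * b)) g h →
      Relation.ReflTransGen (fun a b => (nr (wz r) e a ∧ Cg (X ^ n) a ∧ DegLe Δ' a) ∧
      (nr (wz r) e b ∧ Cg (X ^ n) b ∧ DegLe Δ' b) ∧ Mv (wz r) (X ^ n) e (a⁻¹ * b)) g h := by
    intro Δ Δ' hΔ g h hc
    induction hc with
    | refl => exact Relation.ReflTransGen.refl
    | tail _ h1 ih =>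
      exact Relation.ReflTransGen.tail ih ⟨⟨h1.1.1, h1.1.2.1, h1.1.2.2.mono hΔ⟩,
        ⟨h1.2.1.1, h1.2.1.2.1, h1.2.1.2.2.mono hΔ⟩, h1.2.2⟩
  induction hc with
  | refl => exact ⟨0, Relation.ReflTransGen.refl⟩
  | @tail c d hc' h1 ih =>
    obtain ⟨Δ, hΔ⟩ := ih
    obtain ⟨Δ1, h2⟩ := exists_degLe c
    obtain ⟨Δ2, h3⟩ := exists_degLe d
    have hcc : Cg (X ^ n) c := Ch.cg hc' hg
    have hcd : Cg (X ^ n) d := by
      have := hcc.mul h1.2.2.cg
      rwa [mul_inv_cancel_left] at this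
    refine ⟨max Δ (max Δ1 Δ2), Relation.ReflTransGen.tail (mono (le_max_left _ _) hΔ)
      ⟨⟨h1.1, hcc, h2.mono ?_⟩, ⟨h1.2.1, hcd, h3.mono ?_⟩, h1.2.2⟩⟩
    · exact (le_max_left _ _).trans (le_max_right _ _)
    · exact (le_max_right _ _).trans (le_max_right _ _)

end Pool.WFS.Lad
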