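import Pool.Agent.WFS.Asm1
import Pool.Agent.WFS.Asm2
import Pool.Agent.WFS.KPart
import Pool.Agent.WFS.KU
import Pool.Agent.WFS.LabOpt
import Pool.Agent.WFS.Rot.Size
import Pool.Agent.WFG.ElimOut
import Pool.Agent.WFK.Kout

/-!
# A matrix over `ℕ` which is shift equivalent to `(n)` is strong shift equivalent to `(n)`

`heart`: the matrix `M` of the labelled graph is a product of elementary letters of order at least `N` and of
rotations; it is related to the block sum of the rotations. `main_sse`: the theorem for a matrix with `FS`.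
`little_williams`: the theorem.
-/

set_option autoImplicit false
set_option linter.unusedSectionVars false

namespace Pool.Agent.WFS

open Matrix Pool.WFS.Lad Polynomial Pool.Agent.WFG

section aux

variable {I L P : Type} [Fintype I] [DecidableEq I] [Fintype L] [DecidableEq L] [Fintype P] [DecidableEq P]

theorem IsExt.comp {f : I → L} {g : L → P} {E : Matrix I I ℤ[X]} {F : Matrix L L ℤ[X]}
    {G : Matrix P P ℤ[X]} (h : IsExt f E F) (h' : IsExt g F G) : IsExt (fun i => g (f i)) E G := by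
  refine ⟨fun i j hij => h.inj (h'.inj hij), fun i j => by rw [h'.eq, h.eq], fun l l' hl => ?_,
    fun l l' hl => ?_⟩
  · by_cases h1 : ∃ a, g a = l
    · obtain ⟨a, rfl⟩ := h1
      by_cases h2 : ∃ b, g b = l'
      · obtain ⟨b, rfl⟩ := h2
        rw [h'.eq]
        exact h.row a b fun i hi => hl i (by rw [hi])
      · push Not at h2
        exact h'.col _ _ h2
    · push Not at h1
      exact h'.row _ _ h1
  · by_cases h1 : ∃ b, g b = l'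
    · obtain ⟨b, rfl⟩ := h1
      by_cases h2 : ∃ a, g a = l
      · obtain ⟨a, rfl⟩ := h2
        rw [h'.eq]
        exact h.col a b fun i hi => hl i (by rw [hi])
      · push Not at h2
        exact h'.row _ _ h2
    · push Not at h1
      exact h'.col _ _ h1

theorem isExt_emb (f : I ↪ L) (g : SL I ℤ[X]) :
    IsExt f (1 - (g : Matrix I I ℤ[X])) (1 - ((emb f g : SL L ℤ[X]) : Matrix L L ℤ[X])) := by
  have e : (1 : Matrix L L ℤ[X]) - ((emb f g : SL L ℤ[X]) : Matrix L L ℤ[X]) =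
      - pc f ((g : Matrix I I ℤ[X]) - 1) := by
    rw [← emb_sub_one, neg_sub]
  refine ⟨f.injective, fun i j => ?_, fun l l' hl => ?_, fun l l' hl => ?_⟩
  · rw [e, Matrix.neg_apply, pc_range, Matrix.sub_apply, Matrix.sub_apply, neg_sub]
  · rw [e, Matrix.neg_apply, pc_left f _ hl, neg_zero]
  · rw [e, Matrix.neg_apply, pc_right f _ hl, neg_zero]

theorem exists_tau (b : ℕ) {e : ℝ} (he : 0 < e) : ∃ τ : ℝ, 0 < τ ∧ (1 + τ) ^ b - 1 ≤ e := by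
  have h : Filter.Tendsto (fun k : ℕ => (1 + 1 / ((k : ℝ) + 1)) ^ b - 1) Filter.atTop
      (nhds ((1 + 0) ^ b - 1)) :=
    ((tendsto_one_div_add_atTop_nhds_zero_nat.const_add 1).pow b).sub_const 1
  rw [add_zero, one_pow, sub_self] at h
  obtain ⟨k, hk⟩ := (h.eventually (gt_mem_nhds he)).exists
  exact ⟨1 / ((k : ℝ) + 1), by positivity, hk.le⟩

/-- the list of the levels of the rotations -/
def lvl (j : ℕ → ℕ) (n : ℕ) : List ℕ := (List.range n).flatMap fun m => List.replicate (j m) m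

theorem mem_lvl {j : ℕ → ℕ} {n m : ℕ} (h : m ∈ lvl j n) : m < n ∧ j m ≠ 0 := by
  unfold lvl at h
  rw [List.mem_flatMap] at h
  obtain ⟨a, h1, h2⟩ := h
  rw [List.mem_replicate] at h2
  obtain ⟨h2, rfl⟩ := h2
  exact ⟨List.mem_range.1 h1, h2⟩

theorem lvl_prod {G : Type} [Monoid G] (j : ℕ → ℕ) (n : ℕ) (y : ℕ → G) :
    ((lvl j n).map y).prod = ((List.range n).map fun m => y m ^ j m).prod := by
  unfold lvl
  induction n with
  | zero => simp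
  | succ n ih =>
    rw [List.range_succ, List.flatMap_append, List.map_append, List.prod_append, ih, List.map_append,
      List.prod_append]
    simp

theorem leg_of_small {κ : WFG.Num} (hκ : κ.Ok) {r : ℝ} (hr : 0 < r) {N Δ : ℕ} (hN : 1 ≤ N)
    (hp : ∀ d, N ≤ d → d ≤ Δ → 1 ≤ (κ.p.coeff d : ℝ) * r ^ d) {g : SL I ℤ[X]}
    (h1 : nr (wz r) (1 / 10) g) (h2 : Cg (X ^ N) g) (h3 : DegLe Δ g) :
    ∃ w, Leg κ (1 - (g : Matrix I I ℤ[X])) w := by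
  refine leg_of_rm hκ fun d => ?_
  have h4 := rm_le_of_small hκ hr (c := 8) (e := 1 / 10) (by norm_num) (fun d hd hd' => by
    have := hp d hd hd'
    push_cast
    linarith) h1 h2 h3 hN d
  have h5 : (0 : ℤ) ≤ (rm (1 - (g : Matrix I I ℤ[X])) d : ℤ) := by positivity
  push_cast at h4
  linarith

/-- the indices of the blocks -/
theorem exists_idx (Lm : List ℕ) : ∃ (l : List (Fin (Lm.length + 3) × ℕ)) (k0 k1 k2 : Fin (Lm.length + 3)),
    l.map Prod.snd = Lm ∧ l.length = Lm.length ∧ (l.map Prod.fst).Nodup ∧ k1 ∉ l.map Prod.fst ∧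
      k0 ≠ k1 ∧ k0 ≠ k2 ∧ k1 ≠ k2 := by
  refine ⟨List.ofFn fun i : Fin Lm.length => (Fin.castAdd 3 i, Lm.get i), Fin.natAdd _ 0,
    Fin.natAdd _ 1, Fin.natAdd _ 2, ?_, List.length_ofFn, ?_, ?_, ?_, ?_, ?_⟩
  · rw [List.map_ofFn]
    exact List.ofFn_get Lm
  · rw [List.map_ofFn]
    exact List.nodup_ofFn.2 (Fin.castAdd_injective Lm.length 3)
  · rw [List.map_ofFn, List.mem_ofFn]
    rintro ⟨i, hi⟩
    have h1 := congrArg Fin.val hi
    have h2 := i.isLt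
    simp only [Function.comp, Fin.val_castAdd, Fin.val_natAdd] at h1
    omega
  · intro h
    have h1 := congrArg Fin.val h
    simp [Fin.val_natAdd] at h1
  · intro h
    have h1 := congrArg Fin.val h
    simp [Fin.val_natAdd] at h1
  · intro h
    have h1 := congrArg Fin.val h
    simp [Fin.val_natAdd] at h1

end aux

/-- the chain from the block sum of the rotations -/
theorem chain_rot {ι κ : Type} [Fintype ι] [DecidableEq ι] [Fintype κ] [DecidableEq κ] {r : ℝ}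
    (hr : 0 < r) (hr1 : r < 1) {N : ℕ} (hN : 1 ≤ N) (M : SL ι ℤ[X]) (hM : nr (wz r) (1 / 100000) M)
    (hmc : (Fintype.card ι : ℝ) * (r ^ N / (1 - r)) ≤ 1 / 50000) (h2r : 2 * r ^ N ≤ 1 / 50000)
    {k0 k1 k2 : κ} (h01 : k0 ≠ k1) (h02 : k0 ≠ k2) (h12 : k1 ≠ k2) (l : List (κ × ℕ))
    (hnd : (l.map Prod.fst).Nodup) (hk1 : k1 ∉ l.map Prod.fst) (pr : Fin 2 ↪ ι)
    (Y : ℕ → SL (Fin 2) ℤ[X]) {τ : ℝ} (hτ0 : 0 ≤ τ) (hτ : (1 + τ) ^ l.length - 1 ≤ 1 / 100000)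
    (hYc : ∀ x ∈ l, Cg (X ^ N) (Y x.2)) (hYn : ∀ x ∈ l, nr (wz r) τ (Y x.2))
    (hF : M * (((l.map Prod.snd).map fun m => emb pr (Y m)).prod)⁻¹ ∈ Subgroup.closure (Lt ι N)) :
    Cg (X ^ N : ℤ[X]) (bls (l.map fun x => (x.1, emb pr (Y x.2)))) ∧
      nr (wz r) (1 / 10) (bls (l.map fun x => (x.1, emb pr (Y x.2)))) ∧
      Ch (wz r) (X ^ N) (1 / 10) (bls (l.map fun x => (x.1, emb pr (Y x.2)))) (bl k0 M) := by
  have hNo := wz_isN hr.le
  obtain ⟨l', hl'⟩ : ∃ l' : List (κ × SL ι ℤ[X]), l' = l.map fun x => (x.1, emb pr (Y x.2)) :=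
    ⟨_, rfl⟩
  rw [← hl']
  have hl1' : l'.map Prod.fst = l.map Prod.fst := by
    rw [hl', List.map_map]
    rfl
  have hl2' : l'.map Prod.snd = (l.map Prod.snd).map fun m => emb pr (Y m) := by
    rw [hl', List.map_map, List.map_map]
    rfl
  have hll' : l'.length = l.length := by
    rw [hl', List.length_map]
  have hl'c : ∀ x ∈ l', Cg (X ^ N) x.2 := by
    intro x hx
    rw [hl', List.mem_map] at hx
    obtain ⟨y, hy, rfl⟩ := hx
    exact emb_cg _ (hYc y hy)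
  have hl'n : ∀ x ∈ l', nr (wz r) τ x.2 := by
    intro x hx
    rw [hl', List.mem_map] at hx
    obtain ⟨y, hy, rfl⟩ := hx
    exact nr.emb hNo _ (hYn y hy)
  refine ⟨?_, ?_, ?_⟩
  · refine Cg_list_prod _ fun y hy => ?_
    obtain ⟨z, hz, rfl⟩ := List.mem_map.1 hy
    exact bl_cg (hl'c z hz) z.1
  · have h1 := nr_list_prod hNo (l'.map fun x => (bl x.1 x.2 : SL (ι × κ) ℤ[X])) (τ := τ) (by
        intro y hy
        obtain ⟨z, hz, rfl⟩ := List.mem_map.1 hy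
        exact (hl'n z hz).bl hNo z.1)
    rw [List.length_map, hll'] at h1
    exact h1.mono (hτ.trans (by norm_num))
  · refine asm_chain hr.le hr1 hN hmc h01 h02 h12 M hM hτ0 l' (by rw [hl1']; exact hnd)
      (by rw [hl1']; exact hk1) hl'n hl'c (by rw [hll']; exact hτ) ?_
    rw [hl2']
    exact Submonoid.closure_mono (fun g hg => (Lt_Mv hr.le hr1.le hg).mono h2r) (mem_closure_Lt hF)

/-- the relation at the last stage -/
theorem rel_end {I P J : Type} [Fintype I] [DecidableEq I] [Fintype P] [DecidableEq P] [Fintype J]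
    [DecidableEq J] {r : ℝ} (hr : 0 < r) {N : ℕ} (hN : 1 ≤ N) (M : SL I ℤ[X]) (h h' : SL P ℤ[X])
    {f : I → P} (e1 : IsExt f (1 - (M : Matrix I I ℤ[X])) (1 - (h : Matrix P P ℤ[X])))
    {E' : Matrix J J ℤ[X]} {f' : J → P} (e2 : IsExt f' E' (1 - (h' : Matrix P P ℤ[X])))
    (hE' : IsUnit (1 - E').det) (hch : Ch (wz r) (X ^ N) (1 / 10) h' h) (c1 : Cg (X ^ N : ℤ[X]) h)
    (n1 : nr (wz r) (1 / 10) h) (c2 : Cg (X ^ N : ℤ[X]) h') (n2 : nr (wz r) (1 / 10) h') :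
    ∃ Δ : ℕ, ∀ κ' : WFG.Num, κ'.Ok →
      (∀ d, N ≤ d → d ≤ Δ → 1 ≤ (κ'.p.coeff d : ℝ) * r ^ d) → RelE κ' (1 - (M : Matrix I I ℤ[X])) E' := by
  obtain ⟨Δ1, hΔ1⟩ := exists_relE_of_ch hr hN c2 hch
  obtain ⟨Δ2, hΔ2⟩ := exists_degLe h'
  obtain ⟨Δ3, hΔ3⟩ := exists_degLe h
  refine ⟨max Δ1 (max Δ2 Δ3), fun κ' hκ' hp => ?_⟩
  have r1 := relE_ext hκ' e1 (det_one_sub_one_sub M)
  have r2 := hΔ1 κ' hκ' fun d hd hd' => by
    have := hp d hd (hd'.trans (le_max_left _ _))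
    linarith
  have r3 := relE_ext hκ' e2 hE'
  have w1 : ∃ w, Leg κ' (1 - (h' : Matrix P P ℤ[X])) w :=
    leg_of_small hκ' hr hN (fun d hd hd' => hp d hd (by omega)) n2 c2 hΔ2
  have w2 : ∃ w, Leg κ' (1 - (h : Matrix P P ℤ[X])) w :=
    leg_of_small hκ' hr hN (fun d hd hd' => hp d hd (by omega)) n1 c1 hΔ3
  exact r1.trans hκ' w2 (r2.symm.trans hκ' w1 r3.symm)

/-- the rotations with the representatives `Ysl m T` -/
theorem rots_Ysl {ι κ : Type} [Fintype ι] [DecidableEq ι] [Fintype κ] [DecidableEq κ]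
    (pr : Fin 2 ↪ ι) {T K : ℕ} (l : List (κ × ℕ)) (hlm : ∀ x ∈ l, 2 ≤ x.2 ∧ 2 * x.2 + 1 ≤ K)
    (hKT : K < T) (hnd : (l.map Prod.fst).Nodup) :
    ∃ (J : Type) (_ : Fintype J) (_ : DecidableEq J) (E' : Matrix J J ℤ[X]) (f : J → ι × κ),
      IsExt f E' (1 - ((bls (l.map fun x => (x.1, emb pr (Rot.Ysl x.2 T))) : SL (ι × κ) ℤ[X]) :
        Matrix (ι × κ) (ι × κ) ℤ[X])) ∧ IsUnit (1 - E').det ∧
      (∀ i j d, d < T → (E' i j).coeff d = 0) ∧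
      ∃ Dl, ∀ κn : WFG.Num, κn.Ok →
        (∀ d, 1 ≤ d → d ≤ K → 1 ≤ κn.p.coeff d) →
        (∀ d, T ≤ d → d ≤ Dl → 100 + 96 * (l.length : ℤ) ≤ κn.p.coeff d) →
        (∀ d, 2 * (rm E' d : ℤ) ≤ κn.p.coeff d) ∧
        RelE κn (0 : Matrix (Fin 0) (Fin 0) ℤ[X]) E' := by
  have hco : ∀ m, 2 ≤ m → 1 - ((Rot.Ysl m T : SL (Fin 2) ℤ[X]) : Matrix (Fin 2) (Fin 2) ℤ[X]) =
      (Rot.Yq m T).E := fun m hm => by rw [Rot.coe_Ysl hm, sub_sub_cancel]
  obtain ⟨J, i1, i2, E', f, g1, -, g3, g4, -, Dl, -, g7⟩ := rots pr (fun m => Rot.Ysl m T) T K l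
    (fun x hx => rotP_Ysl (hlm x hx).1 (hlm x hx).2 hKT (Rot.Tr_le (hlm x hx).1 T))
    (fun x hx d => by
      show rm (1 - ((Rot.Ysl x.2 T : SL (Fin 2) ℤ[X]) : Matrix (Fin 2) (Fin 2) ℤ[X])) d ≤ 48
      rw [hco _ (hlm x hx).1]
      exact Rot.rm_E_le (Rot.Yq_bd (hlm x hx).1 T) d)
    (fun x hx i k d hd => by
      show ((1 - ((Rot.Ysl x.2 T : SL (Fin 2) ℤ[X]) : Matrix (Fin 2) (Fin 2) ℤ[X])) i k).coeff d = 0
      rw [hco _ (hlm x hx).1]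
      exact Rot.coeff_of_rm (Rot.rm_E_low (Rot.Yq_low (hlm x hx).1 T)
        (lt_of_lt_of_le hd (Rot.Tr_le (hlm x hx).1 T))) i k)
    hnd
  exact ⟨J, i1, i2, E', f, g1, g3, g4, Dl, g7⟩

/-- THE HEART, with the data of the module K -/
theorem heart_aux {n : ℕ} (hn : 2 ≤ n) {r : ℝ} (hr : 0 < r) (hr1 : r < 1) {I ι : Type} [Fintype I]
    [DecidableEq I] [Fintype ι] [DecidableEq ι] {N : ℕ} (hN : 2 ≤ N) (M : SL I ℤ[X])
    (hc : Cg (X ^ N) M) (hnr : nr (wz r) (1 / 100000) M) (em : I ↪ ι) (pr : Fin 2 ↪ ι)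
    (hcard : (Fintype.card ι : ℝ) * (r ^ N / (1 - r)) ≤ 1 / 50000)
    (h2r : 2 * r ^ N ≤ 1 / 50000) (a0 : ℕ) (Lm : List ℕ) (hLm : ∀ m ∈ Lm, 2 ≤ m ∧ m ≤ 2 * N)
    (hK : ∀ T, 2 * N ≤ T → emb em M * ((Lm.map fun m => emb pr (Rot.Ysl m T)).prod)⁻¹ ∈
      Subgroup.closure (Lt ι N)) :
    ∃ a1, a0 ≤ a1 ∧ ∃ (J : Type) (_ : Fintype J) (_ : DecidableEq J) (E' : Matrix J J ℤ[X]),
      IsUnit (1 - E').det ∧ (∀ i j d, d ≤ a1 → (E' i j).coeff d = 0) ∧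
      ∃ H, a1 ≤ H ∧ (∀ d, 2 * (rm E' d : ℤ) ≤ (Num.low n a1 H).p.coeff d) ∧
        RelE (Num.low n a1 H) (0 : Matrix (Fin 0) (Fin 0) ℤ[X]) E' ∧
        ∃ Δ : ℕ, ∀ κ' : WFG.Num, κ'.Ok →
          (∀ d, N ≤ d → d ≤ Δ → 1 ≤ (κ'.p.coeff d : ℝ) * r ^ d) →
          RelE κ' (1 - (M : Matrix I I ℤ[X])) E' := by
  obtain ⟨l, k0, k1, k2, hl2, hll, hnd, hk1, h01, h02, h12⟩ := exists_idx Lm
  have hlm : ∀ x ∈ l, 2 ≤ x.2 ∧ x.2 ≤ 2 * N := fun x hx => by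
    have h := List.mem_map_of_mem (f := Prod.snd) hx
    rw [hl2] at h
    exact hLm _ h
  -- the sizes
  obtain ⟨τ, hτ0, hτ⟩ := exists_tau l.length (show (0 : ℝ) < 1 / 100000 by norm_num)
  obtain ⟨a1, ha1⟩ : ∃ a1 : ℕ, a1 = max a0 (4 * N + 2) := ⟨_, rfl⟩
  obtain ⟨T, hT0, hT⟩ := Rot.exists_T hr.le hr1 hτ0 (max ((101 + 96 * l.length) * a1 + 1) (2 * N))
  have hT1 : (101 + 96 * l.length) * a1 + 1 ≤ T := (le_max_left _ _).trans hT0
  have hT2 : 2 * N ≤ T := (le_max_right _ _).trans hT0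
  have ha1T : a1 < T := by
    have h1 : 1 * a1 ≤ (101 + 96 * l.length) * a1 := Nat.mul_le_mul_right _ (by omega)
    omega
  have ha1K : 4 * N + 1 < a1 := by omega
  have hTr : ∀ m, 2 ≤ m → T ≤ Rot.Tr m T := fun m hm => Rot.Tr_le hm T
  -- the rotations
  obtain ⟨J, i1, i2, E', f, g1, g3, g4, Dl, g7⟩ := rots_Ysl pr (T := T) (K := 4 * N + 1) l
    (fun x hx => ⟨(hlm x hx).1, by have := (hlm x hx).2; omega⟩) (by omega) hnd
  -- the chain
  obtain ⟨c2, n2, hch⟩ := chain_rot hr hr1 (by omega : 1 ≤ N) (emb em M) (nr.emb (wz_isN hr.le) _ hnr)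
    hcard h2r h01 h02 h12 l hnd hk1 pr (fun m => Rot.Ysl m T) hτ0.le hτ
    (fun x hx => Rot.cg_Ysl (hlm x hx).1 (by have := hTr _ (hlm x hx).1; omega))
    (fun x hx => Rot.nr_of_Yq hr.le hr1 (hlm x hx).1 (hTr _ (hlm x hx).1) hT
      (Rot.coe_Ysl (hlm x hx).1 T)) (by rw [hl2]; exact hK T hT2)
  obtain ⟨Δ, hΔ⟩ := rel_end hr (by omega : 1 ≤ N) M _ _
    (IsExt.comp (isExt_emb em M) (isExt_bl k0 (emb em M))) g1 g3 hch (bl_cg (emb_cg _ hc) k0)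
    (((nr.emb (wz_isN hr.le) em hnr).bl (wz_isN hr.le) k0).mono (by norm_num)) c2 n2
  -- the end
  have hH1 : a1 ≤ max a1 Dl := le_max_left _ _
  obtain ⟨q1, q2⟩ := low_growth hn a1 (max a1 Dl) (by omega) hH1
  obtain ⟨g8, g9⟩ := g7 (Num.low n a1 (max a1 Dl)) (ok_low hn a1 _ (by omega) hH1)
    (fun d hd hd' => q1 d hd (by omega) (by omega)) (fun d hd hd' => by
      have h1 := q2 d (hd'.trans (le_max_right _ _))
      have h2 : 101 + 96 * l.length ≤ (d - 1) / a1 := by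
        rw [Nat.le_div_iff_mul_le (by omega)]
        omega
      have h3 : ((101 + 96 * l.length : ℕ) : ℤ) ≤ (((d - 1) / a1 : ℕ) : ℤ) := by exact_mod_cast h2
      push_cast at h3 h1
      linarith)
  exact ⟨a1, by omega, J, i1, i2, E', g3, fun i k d hd => g4 i k d (lt_of_le_of_lt hd ha1T),
    max a1 Dl, hH1, g8, g9, Δ, hΔ⟩

/-- THE HEART -/
theorem heart {n : ℕ} (hn : 2 ≤ n) {r : ℝ} (hr : 0 < r) (hr1 : r < 1) {I : Type} [Fintype I]
    [DecidableEq I] {N : ℕ} (hN : 2 ≤ N) (M : SL I ℤ[X]) (hc : Cg (X ^ N) M)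
    (hE1 : M ∈ Pool.WFS.Nil.E1 I 1) (hnr : nr (wz r) (1 / 100000) M)
    (hcard : ((Fintype.card I : ℝ) + (cK N : ℕ)) * (r ^ N / (1 - r)) ≤ 1 / 50000)
    (h2r : 2 * r ^ N ≤ 1 / 50000) (a0 : ℕ) :
    ∃ a1, a0 ≤ a1 ∧ ∃ (J : Type) (_ : Fintype J) (_ : DecidableEq J) (E' : Matrix J J ℤ[X]),
      IsUnit (1 - E').det ∧ (∀ i j d, d ≤ a1 → (E' i j).coeff d = 0) ∧
      ∃ H, a1 ≤ H ∧ (∀ d, 2 * (rm E' d : ℤ) ≤ (Num.low n a1 H).p.coeff d) ∧
        RelE (Num.low n a1 H) (0 : Matrix (Fin 0) (Fin 0) ℤ[X]) E' ∧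
        ∃ Δ : ℕ, ∀ κ' : WFG.Num, κ'.Ok →
          (∀ d, N ≤ d → d ≤ Δ → 1 ≤ (κ'.p.coeff d : ℝ) * r ^ d) →
          RelE κ' (1 - (M : Matrix I I ℤ[X])) E' := by
  obtain ⟨j, -, hj0, hK⟩ := K_out N (by omega) I M hE1 hc (fun m => Rot.Ysl m (2 * N))
    (fun m hm _ => ⟨Rot.cg_Ysl hm (Rot.Tr_le hm _), Rot.cls_Ysl hm _⟩)
  refine heart_aux hn hr hr1 hN M hc hnr Function.Embedding.inl (prK I N) ?_ h2r a0
    (lvl j (2 * N + 1)) ?_ ?_
  · rw [Fintype.card_sum, Fintype.card_fin, Nat.cast_add]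
    exact hcard
  · intro m hm
    obtain ⟨h1, h2⟩ := mem_lvl hm
    refine ⟨?_, by omega⟩
    by_contra h3
    exact h2 (hj0 m (by omega))
  · intro T hT
    rw [lvl_prod]
    exact hK (fun m => Rot.Ysl m T) fun m hm _ => Rot.coh_Ysl hm hT (Rot.Tr_le hm _)

theorem exists_N0 {n : ℕ} {r ε : ℝ} (hr : 0 < r) (hr1 : r < 1) (hnr : 1 < n * r) (hε : 0 < ε) :
    ∃ N0 : ℕ, ∀ N, N0 ≤ N → 16 * (N : ℝ) * 1 ≤ (n * r) ^ N ∧ 2 * r ^ N ≤ ε := by
  have h1 : Filter.Tendsto (fun N : ℕ => (N : ℝ) ^ 1 / (n * r) ^ N) Filter.atTop (nhds 0) :=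
    tendsto_pow_const_div_const_pow_of_one_lt 1 hnr
  have h2 := h1.eventually (gt_mem_nhds (show (0 : ℝ) < 1 / 16 by norm_num))
  have h3 : Filter.Tendsto (fun N : ℕ => 2 * r ^ N) Filter.atTop (nhds (2 * 0)) :=
    (tendsto_pow_atTop_nhds_zero_of_lt_one hr.le hr1).const_mul 2
  rw [mul_zero] at h3
  have h4 := h3.eventually (gt_mem_nhds hε)
  obtain ⟨N0, hN0⟩ := Filter.eventually_atTop.1 (h2.and h4)
  refine ⟨N0, fun N hN => ?_⟩
  obtain ⟨h5, h6⟩ := hN0 N hN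
  refine ⟨?_, h6.le⟩
  have h7 : (0 : ℝ) < (n * r) ^ N := pow_pos (by linarith) N
  rw [pow_one, div_lt_iff₀ h7] at h5
  linarith

theorem am_sum {α V : Type} [Fintype α] [Fintype V] [DecidableEq V] (F : α → V → V) (j : V) :
    ∑ i, Lab.am F i j = Fintype.card α := by
  simp only [Lab.am_eq_sum]
  rw [Finset.sum_comm]
  simp

/-- A MATRIX WITH `FS` is strong shift equivalent to `(n)` -/
theorem main_sse {V : Type} [Fintype V] [DecidableEq V] [Nonempty V] {n : ℕ} (hn : 2 ≤ n)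
    (A : Matrix V V ℕ) (hA : FS n A) : Sse (toFin A) ⟨1, Matrix.of fun _ _ => n⟩ := by
  obtain ⟨r, hr, hr1, hnr, H⟩ := Lab.labelling_room hn A hA
  have h1r : 0 < 1 - r := by linarith
  obtain ⟨ε, hε0, hε1, hε2⟩ : ∃ ε : ℝ, 0 < ε ∧ ε ≤ 1 / 100000 ∧ ε ≤ (1 - r) / 50000 :=
    ⟨min (1 / 100000) ((1 - r) / 50000), lt_min (by norm_num) (by positivity), min_le_left _ _,
      min_le_right _ _⟩
  obtain ⟨N0, hN0⟩ := exists_N0 (ε := 1 / 50000) hr hr1 hnr (by norm_num)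
  obtain ⟨N, hN, I, _, _, F, h1, h2, h3, h4, h5⟩ := H 40 1 ε hε0 (max N0 2)
  obtain ⟨hN1, hN2⟩ := hN0 N ((le_max_left _ _).trans hN)
  have hN3 : 2 ≤ N := (le_max_right _ _).trans hN
  have hne : Nonempty V := inferInstance
  have hB : ∀ j, ∑ i, Lab.am F i j = n := fun j => by rw [am_sum, Fintype.card_fin]
  obtain ⟨l, rr, hl⟩ := eqcols (by omega : 1 ≤ n) hne hA h1 hB
  have hnil := nil_of_eqcols hB hl
  obtain ⟨E, a0, W, u1, u2, u3, u4, ⟨M, hM, hMcl⟩, u6⟩ := elim_out hn F hnil N hN3 h2 r 1 hr hr1.le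
    le_rfl hN1 (fun W hW => by
      have e1 := h5 W N fun x hx => ⟨(hW x hx).1, le_rfl, (hW x hx).2⟩
      linarith)
  have hM' : 1 - (M : Matrix I I ℤ[X]) = E := by rw [hM, sub_sub_cancel]
  have hMc : Cg (X ^ N : ℤ[X]) M := by
    intro i j
    rw [hM, sub_sub_cancel_left, Matrix.neg_apply, dvd_neg]
    exact Polynomial.X_pow_dvd_iff.2 fun d hd => u2 i j d hd
  have hMn : nr (wz r) (1 / 100000) M := by
    refine nr_of_rm hr.le fun T => ?_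
    rw [hM']
    refine le_trans (Finset.sum_le_sum fun d _ => ?_) ((h4 W T u3).trans hε1)
    exact mul_le_mul_of_nonneg_left (by exact_mod_cast u4 d) (by positivity)
  have hcard : ((Fintype.card I : ℝ) + (cK N : ℕ)) * (r ^ N / (1 - r)) ≤ 1 / 50000 := by
    have e1 : (Fintype.card I : ℝ) ≤ Fintype.card (Option I) := by
      rw [Fintype.card_option]
      push_cast
      linarith
    have e2 : ((cK N : ℕ) : ℝ) ≤ 40 * ((N : ℝ) + 1) ^ 1 := by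
      have : cK N = 20 * N + 40 := rfl
      rw [this]
      push_cast
      nlinarith [(Nat.cast_nonneg N : (0 : ℝ) ≤ N)]
    have e3 : ((Fintype.card I : ℝ) + (cK N : ℕ)) * r ^ N ≤ ε :=
      (mul_le_mul_of_nonneg_right (add_le_add e1 e2) (by positivity)).trans h3
    rw [← mul_div_assoc, div_le_iff₀ h1r]
    linarith
  obtain ⟨a1, ha1, J, _, _, E', v1, v2, HH, v3, v4, v5, Δ, v6⟩ := heart hn hr hr1 hN3 M hMc
    (Pool.WFS.Nil.closure_nilFac_le (NilFac I) (fun g hg => hg) hMcl) hMn hcard hN2 a0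
  obtain ⟨κ', w1, w2, w3⟩ := u6 a1 ha1 HH v3 Δ
  have h6 := w3 J E' v1 v2 v4 v5 (by
    rw [← hM']
    exact v6 κ' w1 w2)
  exact h1.symm.trans h6

/-- **A matrix over `ℕ` which is shift equivalent to `(n)` is strong shift equivalent to `(n)`.** -/
theorem little_williams : ∀ (n : ℕ), 1 ≤ n → ∀ (m : ℕ) (A : Matrix (Fin m) (Fin m) ℕ),
      (∃ ℓ : ℕ, 1 ≤ ℓ ∧ ∃ R : Matrix (Fin m) (Fin 1) ℕ, ∃ S : Matrix (Fin 1) (Fin m) ℕ,
        A ^ ℓ = R * S ∧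
        (Matrix.of (fun _ _ => n) : Matrix (Fin 1) (Fin 1) ℕ) ^ ℓ = S * R ∧
        A * R = R * (Matrix.of (fun _ _ => n) : Matrix (Fin 1) (Fin 1) ℕ) ∧
        S * A = (Matrix.of (fun _ _ => n) : Matrix (Fin 1) (Fin 1) ℕ) * S) →
      Relation.TransGen
        (fun X Y : (Σ k : ℕ, Matrix (Fin k) (Fin k) ℕ) =>
          ∃ R : Matrix (Fin X.1) (Fin Y.1) ℕ, ∃ S : Matrix (Fin Y.1) (Fin X.1) ℕ,
            X.2 = R * S ∧ Y.2 = S * R)
        ⟨m, A⟩ ⟨1, (Matrix.of (fun _ _ => n) : Matrix (Fin 1) (Fin 1) ℕ)⟩ := by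
  refine reduceFin fun n hn k A hA => ?_
  exact (sse_toFin_fin A).trans (main_sse hn A hA)

end Pool.Agent.WFS
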