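import Mathlib

/-! # Strong shift equivalence and families of pairs

A family `z : ι → P × P*` of pairs (a vector of a cone monoid `P`, a functional which is nonnegative on `P`)
gives the matrix `mt z` of the values `y_i (x_j)`. Splitting the vectors or the functionals of the family is an
elementary strong shift equivalence. `FR z w`: the matrices are strong shift equivalent in every context.
-/

set_option autoImplicit false
set_option linter.unusedSectionVars false

namespace Pool.Agent.WFS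

/-- elementary strong shift equivalence over `ℕ` -/
def Est (X Y : Σ k : ℕ, Matrix (Fin k) (Fin k) ℕ) : Prop :=
  ∃ R : Matrix (Fin X.1) (Fin Y.1) ℕ, ∃ S : Matrix (Fin Y.1) (Fin X.1) ℕ,
    X.2 = R * S ∧ Y.2 = S * R

/-- strong shift equivalence over `ℕ` -/
def Sse (X Y : Σ k : ℕ, Matrix (Fin k) (Fin k) ℕ) : Prop := Relation.TransGen Est X Y

theorem Est.symm {X Y : Σ k : ℕ, Matrix (Fin k) (Fin k) ℕ} (h : Est X Y) : Est Y X := by
  obtain ⟨R, S, h1, h2⟩ := h
  exact ⟨S, R, h2, h1⟩

theorem Est.refl (X : Σ k : ℕ, Matrix (Fin k) (Fin k) ℕ) : Est X X :=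
  ⟨X.2, 1, by simp, by simp⟩

theorem Est.sse {X Y : Σ k : ℕ, Matrix (Fin k) (Fin k) ℕ} (h : Est X Y) : Sse X Y :=
  Relation.TransGen.single h

theorem Sse.refl (X : Σ k : ℕ, Matrix (Fin k) (Fin k) ℕ) : Sse X X := (Est.refl X).sse

theorem Sse.trans {X Y Z : Σ k : ℕ, Matrix (Fin k) (Fin k) ℕ} (h : Sse X Y) (h' : Sse Y Z) :
    Sse X Z := Relation.TransGen.trans h h'

theorem Sse.symm {X Y : Σ k : ℕ, Matrix (Fin k) (Fin k) ℕ} (h : Sse X Y) : Sse Y X := by
  induction h with
  | single h => exact h.symm.sse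
  | tail _ h2 ih => exact h2.symm.sse.trans ih

/-- the class of a square matrix over any finite index type -/
noncomputable def toFin {ι : Type} [Fintype ι] (A : Matrix ι ι ℕ) :
    Σ k : ℕ, Matrix (Fin k) (Fin k) ℕ :=
  ⟨Fintype.card ι, A.submatrix (Fintype.equivFin ι).symm (Fintype.equivFin ι).symm⟩

theorem est_toFin {ι κ : Type} [Fintype ι] [Fintype κ] {A : Matrix ι ι ℕ} {B : Matrix κ κ ℕ}
    (R : Matrix ι κ ℕ) (S : Matrix κ ι ℕ) (hA : A = R * S) (hB : B = S * R) :
    Est (toFin A) (toFin B) := by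
  refine ⟨R.submatrix (Fintype.equivFin ι).symm (Fintype.equivFin κ).symm,
    S.submatrix (Fintype.equivFin κ).symm (Fintype.equivFin ι).symm, ?_, ?_⟩
  · subst hA
    exact (Matrix.submatrix_mul_equiv R S _ _ _).symm
  · subst hB
    exact (Matrix.submatrix_mul_equiv S R _ _ _).symm

theorem sse_toFin_fin {k : ℕ} (A : Matrix (Fin k) (Fin k) ℕ) : Sse ⟨k, A⟩ (toFin A) := by
  refine Est.sse ⟨A.submatrix id (Fintype.equivFin (Fin k)).symm,
    (1 : Matrix (Fin k) (Fin k) ℕ).submatrix (Fintype.equivFin (Fin k)).symm id, ?_, ?_⟩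
  · show A = _
    refine Eq.trans ?_ (Matrix.submatrix_mul_equiv A 1 _ _ _).symm
    simp
  · show A.submatrix _ _ = _
    refine Eq.trans ?_ (Matrix.submatrix_mul_equiv (1 : Matrix (Fin k) (Fin k) ℕ) A _
      (Equiv.refl (Fin k)) _).symm
    simp

section

variable {L : Type} [AddCommGroup L]

/-- the monoid of the functionals which are nonnegative on `P` -/
def dq (P : AddSubmonoid L) : AddSubmonoid (Module.Dual ℤ L) where
  carrier := {y | ∀ x ∈ P, 0 ≤ y x}
  add_mem' := by
    intro a b ha hb x hx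
    exact add_nonneg (ha x hx) (hb x hx)
  zero_mem' := by
    intro x _
    exact le_refl _

theorem mem_dq {P : AddSubmonoid L} {y : Module.Dual ℤ L} : y ∈ dq P ↔ ∀ x ∈ P, 0 ≤ y x := Iff.rfl

/-- pairs of a vector and a functional -/
abbrev Pr (P : AddSubmonoid L) : Type := ↥P × ↥(dq P)

/-- the matrix of a family of pairs -/
def mt {P : AddSubmonoid L} {ι : Type} (z : ι → Pr P) : Matrix ι ι ℕ := fun i j =>
  ((z i).2.1 (z j).1.1).toNat

theorem mt_coe {P : AddSubmonoid L} {ι : Type} (z : ι → Pr P) (i j : ι) :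
    ((mt z i j : ℕ) : ℤ) = (z i).2.1 (z j).1.1 :=
  Int.toNat_of_nonneg ((z i).2.2 _ (z j).1.2)

theorem pair_coe {P : AddSubmonoid L} (a b : Pr P) :
    (((b.2.1 a.1.1).toNat : ℕ) : ℤ) = b.2.1 a.1.1 :=
  Int.toNat_of_nonneg (b.2.2 _ a.1.2)

/-- splitting of the vectors -/
theorem est_x {P : AddSubmonoid L} {ι κ : Type} [Fintype ι] [Fintype κ] [DecidableEq ι]
    (z : ι → Pr P) (w : κ → Pr P) (f : κ → ι) (hy : ∀ k, (w k).2 = (z (f k)).2)
    (hx : ∀ i, (z i).1 = ∑ k, if f k = i then (w k).1 else 0) :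
    Est (toFin (mt z)) (toFin (mt w)) := by
  refine est_toFin (fun i k => ((z i).2.1 (w k).1.1).toNat) (fun k i => if f k = i then 1 else 0)
    ?_ ?_
  · ext i j
    apply Nat.cast_injective (R := ℤ)
    rw [mt_coe, Matrix.mul_apply]
    push_cast
    rw [hx j]
    rw [AddSubmonoid.coe_finsetSum, map_sum]
    refine Finset.sum_congr rfl fun k _ => ?_
    by_cases h : f k = j
    · simp only [h, if_true, mul_one]
      exact (pair_coe (w k) (z i)).symm
    · simp [h]
  · ext k l
    apply Nat.cast_injective (R := ℤ)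
    rw [mt_coe, Matrix.mul_apply]
    push_cast
    rw [Finset.sum_eq_single (f k)]
    · simp only [if_true, one_mul]
      rw [hy k]
      exact (pair_coe (w l) (z (f k))).symm
    · intro i _ hi
      simp [hi.symm]
    · intro h
      exact absurd (Finset.mem_univ _) h

/-- splitting of the functionals -/
theorem est_y {P : AddSubmonoid L} {ι κ : Type} [Fintype ι] [Fintype κ] [DecidableEq ι]
    (z : ι → Pr P) (w : κ → Pr P) (f : κ → ι) (hx : ∀ k, (w k).1 = (z (f k)).1)
    (hy : ∀ i, (z i).2 = ∑ k, if f k = i then (w k).2 else 0) :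
    Est (toFin (mt z)) (toFin (mt w)) := by
  refine est_toFin (fun i k => if f k = i then 1 else 0) (fun k i => ((w k).2.1 (z i).1.1).toNat)
    ?_ ?_
  · ext i j
    apply Nat.cast_injective (R := ℤ)
    rw [mt_coe, Matrix.mul_apply]
    push_cast
    rw [hy i]
    rw [AddSubmonoid.coe_finsetSum, LinearMap.sum_apply]
    refine Finset.sum_congr rfl fun k _ => ?_
    by_cases h : f k = i
    · simp only [h, if_true, one_mul]
      exact (pair_coe (z j) (w k)).symm
    · simp [h]
  · ext k l
    apply Nat.cast_injective (R := ℤ)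
    rw [mt_coe, Matrix.mul_apply]
    push_cast
    rw [Finset.sum_eq_single (f l)]
    · simp only [if_true, mul_one]
      rw [hx l]
      exact (pair_coe (z (f l)) (w k)).symm
    · intro i _ hi
      simp [hi.symm]
    · intro h
      exact absurd (Finset.mem_univ _) h

/-- strong shift equivalence in every context -/
def FR {P : AddSubmonoid L} {ι κ : Type} [Fintype ι] [Fintype κ] (z : ι → Pr P) (w : κ → Pr P) :
    Prop :=
  ∀ (τ : Type) (_ : Fintype τ) (e : τ → Pr P),
    Sse (toFin (mt (Sum.elim e z))) (toFin (mt (Sum.elim e w)))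

variable {P : AddSubmonoid L} {ι κ ι' κ' : Type} [Fintype ι] [Fintype κ] [Fintype ι'] [Fintype κ']

theorem FR.refl (z : ι → Pr P) : FR z z := fun _ _ _ => Sse.refl _

theorem FR.symm {z : ι → Pr P} {w : κ → Pr P} (h : FR z w) : FR w z :=
  fun τ i e => (h τ i e).symm

theorem FR.trans {z : ι → Pr P} {w : κ → Pr P} {v : ι' → Pr P} (h : FR z w) (h' : FR w v) :
    FR z v := fun τ i e => (h τ i e).trans (h' τ i e)

theorem FR_x [DecidableEq ι] (z : ι → Pr P) (w : κ → Pr P) (f : κ → ι)
    (hy : ∀ k, (w k).2 = (z (f k)).2)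
    (hx : ∀ i, (z i).1 = ∑ k, if f k = i then (w k).1 else 0) : FR z w := by
  classical
  intro τ iτ e
  refine Est.sse (est_x _ _ (Sum.map id f) ?_ ?_)
  · rintro (t | k)
    · rfl
    · exact hy k
  · rintro (t | i)
    · rw [Fintype.sum_sum_type]
      simp
    · rw [Fintype.sum_sum_type]
      simp only [Sum.map_inl, Sum.map_inr, Sum.elim_inl, Sum.elim_inr, reduceCtorEq, if_false,
        Finset.sum_const_zero, zero_add, Sum.inr.injEq]
      exact hx i

theorem FR_y [DecidableEq ι] (z : ι → Pr P) (w : κ → Pr P) (f : κ → ι)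
    (hx : ∀ k, (w k).1 = (z (f k)).1)
    (hy : ∀ i, (z i).2 = ∑ k, if f k = i then (w k).2 else 0) : FR z w := by
  classical
  intro τ iτ e
  refine Est.sse (est_y _ _ (Sum.map id f) ?_ ?_)
  · rintro (t | k)
    · rfl
    · exact hx k
  · rintro (t | i)
    · rw [Fintype.sum_sum_type]
      simp
    · rw [Fintype.sum_sum_type]
      simp only [Sum.map_inl, Sum.map_inr, Sum.elim_inl, Sum.elim_inr, reduceCtorEq, if_false,
        Finset.sum_const_zero, zero_add, Sum.inr.injEq]
      exact hy i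

theorem FR_equiv (z : ι → Pr P) (w : κ → Pr P) (e : ι ≃ κ) (h : ∀ i, w (e i) = z i) :
    FR z w := by
  classical
  refine FR_x z w e.symm ?_ ?_
  · intro k
    rw [← h (e.symm k), e.apply_symm_apply]
  · intro i
    rw [Finset.sum_eq_single (e i)]
    · simp [h]
    · intro k _ hk
      rw [if_neg]
      intro hc
      apply hk
      rw [← hc, e.apply_symm_apply]
    · intro hc
      exact absurd (Finset.mem_univ _) hc

theorem sse_equiv (z : ι → Pr P) (w : κ → Pr P) (e : ι ≃ κ) (h : ∀ i, w (e i) = z i) :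
    Sse (toFin (mt z)) (toFin (mt w)) := by
  classical
  refine Est.sse (est_x z w e.symm ?_ ?_)
  · intro k
    rw [← h (e.symm k), e.apply_symm_apply]
  · intro i
    rw [Finset.sum_eq_single (e i)]
    · simp [h]
    · intro k _ hk
      rw [if_neg]
      intro hc
      apply hk
      rw [← hc, e.apply_symm_apply]
    · intro hc
      exact absurd (Finset.mem_univ _) hc

theorem FR_sum {z : ι → Pr P} {z' : ι' → Pr P} {w : κ → Pr P} {w' : κ' → Pr P}
    (h : FR z z') (h' : FR w w') : FR (Sum.elim z w) (Sum.elim z' w') := by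
  intro τ iτ e
  have a1 : Sse (toFin (mt (Sum.elim e (Sum.elim z w))))
      (toFin (mt (Sum.elim (Sum.elim e w) z))) :=
    sse_equiv _ _ (((Equiv.refl τ).sumCongr (Equiv.sumComm ι κ)).trans
      (Equiv.sumAssoc τ κ ι).symm) (by rintro (t | i | k) <;> rfl)
  have a2 := h (τ ⊕ κ) inferInstance (Sum.elim e w)
  have a3 : Sse (toFin (mt (Sum.elim (Sum.elim e w) z')))
      (toFin (mt (Sum.elim (Sum.elim e z') w))) :=
    sse_equiv _ _ (((Equiv.sumAssoc τ κ ι').trans
      ((Equiv.refl τ).sumCongr (Equiv.sumComm κ ι'))).trans (Equiv.sumAssoc τ ι' κ).symm)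
      (by rintro ((t | i) | k) <;> rfl)
  have a4 := h' (τ ⊕ ι') inferInstance (Sum.elim e z')
  have a5 : Sse (toFin (mt (Sum.elim (Sum.elim e z') w')))
      (toFin (mt (Sum.elim e (Sum.elim z' w')))) :=
    sse_equiv _ _ (Equiv.sumAssoc τ ι' κ') (by rintro ((t | i) | k) <;> rfl)
  exact a1.trans (a2.trans (a3.trans (a4.trans a5)))

theorem FR.sse {z : ι → Pr P} {w : κ → Pr P} (h : FR z w) :
    Sse (toFin (mt z)) (toFin (mt w)) := by
  have a1 := sse_equiv z (Sum.elim (fun e : Empty => e.elim) z) (Equiv.emptySum Empty ι).symm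
    (by intro i; rfl)
  have a2 := h Empty inferInstance (fun e : Empty => e.elim)
  have a3 := sse_equiv w (Sum.elim (fun e : Empty => e.elim) w) (Equiv.emptySum Empty κ).symm
    (by intro i; rfl)
  exact a1.trans (a2.trans a3.symm)

end

end Pool.Agent.WFS
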