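import Pool.Agent.WFS.LadE

/-!
# Embeddings of special linear groups along injections of the index sets

`emb f g` is `g` on the indices `f i` and the identity elsewhere.
-/

set_option autoImplicit false
set_option linter.unusedSectionVars false

namespace Pool.Agent.WFS

open Matrix Pool.WFS.Lad Polynomial

section emb

variable {A : Type} [CommRing A] {ι ι' ι'' : Type} [Fintype ι] [DecidableEq ι] [Fintype ι']
  [DecidableEq ι'] [Fintype ι''] [DecidableEq ι'']

/-- the inclusion -/
def pM (A : Type) [CommRing A] (f : ι ↪ ι') : Matrix ι' ι A := Matrix.of fun a i => if f i = a then 1 else 0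

theorem pM_t_mul (f : ι ↪ ι') : (pM A f)ᵀ * pM A f = 1 := by
  ext i j
  rw [Matrix.mul_apply, Finset.sum_eq_single (f i)]
  · by_cases h : i = j
    · subst h
      simp [pM]
    · have h' : ¬ f j = f i := fun e => h (f.injective e).symm
      simp [pM, h, h']
  · intro b _ hb
    simp [pM, hb.symm]
  · intro h
    exact absurd (Finset.mem_univ _) h

/-- `P B Pᵀ` -/
def pc (f : ι ↪ ι') (B : Matrix ι ι A) : Matrix ι' ι' A := pM A f * B * (pM A f)ᵀ

theorem pc_mul (f : ι ↪ ι') (B B' : Matrix ι ι A) : pc f B * pc f B' = pc f (B * B') := by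
  unfold pc
  calc pM A f * B * (pM A f)ᵀ * (pM A f * B' * (pM A f)ᵀ) =
      pM A f * B * ((pM A f)ᵀ * pM A f) * B' * (pM A f)ᵀ := by simp only [Matrix.mul_assoc]
    _ = _ := by rw [pM_t_mul, Matrix.mul_one, Matrix.mul_assoc (pM A f) B B']

theorem pc_add (f : ι ↪ ι') (B B' : Matrix ι ι A) : pc f (B + B') = pc f B + pc f B' := by
  unfold pc
  rw [Matrix.mul_add, Matrix.add_mul]

theorem pc_sub (f : ι ↪ ι') (B B' : Matrix ι ι A) : pc f (B - B') = pc f B - pc f B' := by
  unfold pc
  rw [Matrix.mul_sub, Matrix.sub_mul]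

theorem pc_zero (f : ι ↪ ι') : pc f (0 : Matrix ι ι A) = 0 := by
  unfold pc
  rw [Matrix.mul_zero, Matrix.zero_mul]

theorem pc_apply (f : ι ↪ ι') (B : Matrix ι ι A) (a b : ι') :
    pc f B a b = ∑ i, ∑ j, (if f i = a then 1 else 0) * B i j * (if f j = b then 1 else 0) := by
  unfold pc
  rw [Matrix.mul_apply]
  simp only [Matrix.mul_apply, Matrix.transpose_apply, pM, Matrix.of_apply, Finset.sum_mul]
  rw [Finset.sum_comm]

theorem pc_range (f : ι ↪ ι') (B : Matrix ι ι A) (i j : ι) : pc f B (f i) (f j) = B i j := by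
  rw [pc_apply, Finset.sum_eq_single i, Finset.sum_eq_single j]
  · simp
  · intro b _ hb
    have : ¬ f b = f j := fun e => hb (f.injective e)
    simp [this]
  · intro h
    exact absurd (Finset.mem_univ _) h
  · intro b _ hb
    have : ¬ f b = f i := fun e => hb (f.injective e)
    simp [this]
  · intro h
    exact absurd (Finset.mem_univ _) h

theorem pc_left (f : ι ↪ ι') (B : Matrix ι ι A) {a : ι'} (ha : ∀ i, f i ≠ a) (b : ι') :
    pc f B a b = 0 := by
  rw [pc_apply]
  refine Finset.sum_eq_zero fun i _ => Finset.sum_eq_zero fun j _ => ?_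
  simp [ha i]

theorem pc_right (f : ι ↪ ι') (B : Matrix ι ι A) {b : ι'} (hb : ∀ i, f i ≠ b) (a : ι') :
    pc f B a b = 0 := by
  rw [pc_apply]
  refine Finset.sum_eq_zero fun i _ => Finset.sum_eq_zero fun j _ => ?_
  simp [hb j]

theorem pc_vecMulVec (f : ι ↪ ι') (v x : ι → A) :
    pc f (vecMulVec v x) = vecMulVec (pM A f *ᵥ v) (pM A f *ᵥ x) := by
  unfold pc
  rw [Matrix.mul_vecMulVec, Matrix.vecMulVec_mul, Matrix.vecMul_transpose]

theorem pM_range (f : ι ↪ ι') (v : ι → A) (i : ι) : (pM A f *ᵥ v) (f i) = v i := by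
  show ∑ j, (if f j = f i then (1 : A) else 0) * v j = v i
  rw [Finset.sum_eq_single i]
  · simp
  · intro b _ hb
    have : ¬ f b = f i := fun e => hb (f.injective e)
    simp [this]
  · intro h
    exact absurd (Finset.mem_univ _) h

theorem pM_not (f : ι ↪ ι') (v : ι → A) {a : ι'} (ha : ∀ i, f i ≠ a) : (pM A f *ᵥ v) a = 0 := by
  show ∑ j, (if f j = a then (1 : A) else 0) * v j = 0
  refine Finset.sum_eq_zero fun j _ => ?_
  simp [ha j]

theorem det_pc (f : ι ↪ ι') (B : Matrix ι ι A) : (1 + pc f B).det = (1 + B).det := by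
  unfold pc
  rw [Matrix.mul_assoc, Matrix.det_one_add_mul_comm, Matrix.mul_assoc, pM_t_mul, Matrix.mul_one]

theorem pc_one_add (f : ι ↪ ι') (B B' : Matrix ι ι A) :
    (1 + pc f B) * (1 + pc f B') = 1 + pc f (B + (B' + B * B')) := by
  rw [pc_add, pc_add, ← pc_mul]
  noncomm_ring

/-- the embedding -/
def emb (f : ι ↪ ι') : SL ι A →* SL ι' A where
  toFun g := ⟨1 + pc f ((g : Matrix ι ι A) - 1), by
    rw [det_pc, add_sub_cancel]
    exact g.det_coe⟩
  map_one' := by
    apply Subtype.ext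
    show 1 + pc f (((1 : SL ι A) : Matrix ι ι A) - 1) = 1
    rw [Matrix.SpecialLinearGroup.coe_one, sub_self, pc_zero, add_zero]
  map_mul' g h := by
    apply Subtype.ext
    show 1 + pc f (((g * h : SL ι A) : Matrix ι ι A) - 1) =
      (1 + pc f ((g : Matrix ι ι A) - 1)) * (1 + pc f ((h : Matrix ι ι A) - 1))
    have e : (g : Matrix ι ι A) * (h : Matrix ι ι A) - 1 = ((g : Matrix ι ι A) - 1) +
        (((h : Matrix ι ι A) - 1) + ((g : Matrix ι ι A) - 1) * ((h : Matrix ι ι A) - 1)) := by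
      noncomm_ring
    rw [pc_one_add, Matrix.SpecialLinearGroup.coe_mul, e]

theorem coe_emb (f : ι ↪ ι') (g : SL ι A) :
    ((emb f g : SL ι' A) : Matrix ι' ι' A) = 1 + pc f ((g : Matrix ι ι A) - 1) := rfl

theorem emb_sub_one (f : ι ↪ ι') (g : SL ι A) :
    ((emb f g : SL ι' A) : Matrix ι' ι' A) - 1 = pc f ((g : Matrix ι ι A) - 1) := by
  rw [coe_emb, add_sub_cancel_left]

theorem emb_range (f : ι ↪ ι') (g : SL ι A) (i j : ι) :
    ((emb f g : SL ι' A) : Matrix ι' ι' A) (f i) (f j) = (g : Matrix ι ι A) i j := by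
  rw [coe_emb, Matrix.add_apply, pc_range, Matrix.sub_apply]
  by_cases h : i = j
  · subst h
    rw [Matrix.one_apply_eq, Matrix.one_apply_eq]
    ring
  · rw [Matrix.one_apply_ne h, Matrix.one_apply_ne (fun e => h (f.injective e))]
    ring

theorem emb_left (f : ι ↪ ι') (g : SL ι A) {a : ι'} (ha : ∀ i, f i ≠ a) (b : ι') :
    ((emb f g : SL ι' A) : Matrix ι' ι' A) a b = (1 : Matrix ι' ι' A) a b := by
  rw [coe_emb, Matrix.add_apply, pc_left f _ ha, add_zero]

theorem emb_right (f : ι ↪ ι') (g : SL ι A) {b : ι'} (hb : ∀ i, f i ≠ b) (a : ι') :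
    ((emb f g : SL ι' A) : Matrix ι' ι' A) a b = (1 : Matrix ι' ι' A) a b := by
  rw [coe_emb, Matrix.add_apply, pc_right f _ hb, add_zero]

theorem pc_trans (f : ι ↪ ι') (f' : ι' ↪ ι'') (B : Matrix ι ι A) :
    pc f' (pc f B) = pc (f.trans f') B := by
  have h : pM A f' * pM A f = pM A (f.trans f') := by
    ext a i
    rw [Matrix.mul_apply, Finset.sum_eq_single (f i)]
    · simp [pM]
    · intro b _ hb
      simp [pM, hb.symm]
    · intro h
      exact absurd (Finset.mem_univ _) h
  unfold pc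
  rw [← h, Matrix.transpose_mul]
  simp only [Matrix.mul_assoc]

theorem emb_trans (f : ι ↪ ι') (f' : ι' ↪ ι'') (g : SL ι A) :
    emb f' (emb f g) = emb (f.trans f') g := by
  apply Subtype.ext
  show 1 + pc f' (((emb f g : SL ι' A) : Matrix ι' ι' A) - 1) = 1 + pc (f.trans f') ((g : Matrix ι ι A) - 1)
  rw [emb_sub_one, pc_trans]

/-- a transvection -/
theorem emb_tv (f : ι ↪ ι') {g : SL ι A} {v x : ι → A} (h : (g : Matrix ι ι A) = 1 + vecMulVec v x) :
    ((emb f g : SL ι' A) : Matrix ι' ι' A) = 1 + vecMulVec (pM A f *ᵥ v) (pM A f *ᵥ x) := by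
  rw [coe_emb, h, add_sub_cancel_left, pc_vecMulVec]

theorem pc_single (f : ι ↪ ι') (i j : ι) (c : A) :
    pc f (Matrix.single i j c) = Matrix.single (f i) (f j) c := by
  ext a b
  rw [pc_apply, Finset.sum_eq_single i, Finset.sum_eq_single j]
  · rw [Matrix.single_apply_same, Matrix.single_apply]
    by_cases h1 : f i = a <;> by_cases h2 : f j = b <;> simp [h1, h2]
  · intro b' _ hb
    simp [Ne.symm hb]
  · intro h
    exact absurd (Finset.mem_univ _) h
  · intro b' _ hb
    refine Finset.sum_eq_zero fun j' _ => ?_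
    simp [Ne.symm hb]
  · intro h
    exact absurd (Finset.mem_univ _) h

theorem emb_single (f : ι ↪ ι') {g : SL ι A} {i j : ι} {c : A}
    (h : (g : Matrix ι ι A) = 1 + Matrix.single i j c) :
    ((emb f g : SL ι' A) : Matrix ι' ι' A) = 1 + Matrix.single (f i) (f j) c := by
  rw [coe_emb, h, add_sub_cancel_left, pc_single]

theorem emb_cg (f : ι ↪ ι') {g : SL ι A} {D : A} (h : Cg D g) : Cg D (emb f g) := by
  intro a b
  rw [emb_sub_one]
  by_cases ha : ∃ i, f i = a
  · by_cases hb : ∃ j, f j = b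
    · obtain ⟨i, rfl⟩ := ha
      obtain ⟨j, rfl⟩ := hb
      rw [pc_range]
      exact h i j
    · rw [pc_right f _ (fun i e => hb ⟨i, e⟩)]
      exact dvd_zero _
  · rw [pc_left f _ (fun i e => ha ⟨i, e⟩)]
    exact dvd_zero _

theorem Sm.pc {N : A → ℝ} (hN : IsN N) (f : ι ↪ ι') {B : Matrix ι ι A} {e : ℝ} (h : Sm N e B) :
    Sm N e (pc f B) := by
  obtain ⟨b, h0, h1, h2⟩ := h
  refine ⟨fun a => ∑ i, if f i = a then b i else 0, fun a => ?_, fun a c => ?_, ?_⟩
  · exact Finset.sum_nonneg fun i _ => by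
      split_ifs
      · exact h0 i
      · exact le_rfl
  · by_cases ha : ∃ i, f i = a
    · obtain ⟨i, rfl⟩ := ha
      have e1 : ∑ k, (if f k = f i then b k else 0) = b i := by
        rw [Finset.sum_eq_single i]
        · simp
        · intro k _ hk
          have : ¬ f k = f i := fun e => hk (f.injective e)
          simp [this]
        · intro h
          exact absurd (Finset.mem_univ _) h
      show N (WFS.pc f B (f i) c) ≤ ∑ k, (if f k = f i then b k else 0)
      rw [e1]
      by_cases hc : ∃ j, f j = c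
      · obtain ⟨j, rfl⟩ := hc
        rw [pc_range]
        exact h1 i j
      · rw [pc_right f _ (fun i e => hc ⟨i, e⟩), hN.z]
        exact h0 i
    · rw [pc_left f _ (fun i e => ha ⟨i, e⟩), hN.z]
      exact Finset.sum_nonneg fun i _ => by
        split_ifs
        · exact h0 i
        · exact le_rfl
  · rw [Finset.sum_comm]
    refine le_trans (le_of_eq ?_) h2
    refine Finset.sum_congr rfl fun i _ => ?_
    simp

theorem nr.emb {N : A → ℝ} (hN : IsN N) (f : ι ↪ ι') {g : SL ι A} {e : ℝ} (h : nr N e g) :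
    nr N e (emb f g) := by
  unfold nr at *
  rw [emb_sub_one]
  exact Sm.pc hN f h

/-- the blocks of a product -/
theorem bl_eq_emb {κ : Type} [Fintype κ] [DecidableEq κ] (k : κ) (g : SL ι A) :
    bl k g = emb ⟨fun i => (i, k), fun _ _ h => (Prod.mk.inj h).1⟩ g := by
  apply Subtype.ext
  rw [coe_bl, coe_emb]
  congr 1
  ext ⟨i, a⟩ ⟨j, b⟩
  rw [K_apply]
  by_cases ha : a = k
  · by_cases hb : b = k
    · subst ha
      subst hb
      rw [if_pos ⟨rfl, rfl⟩]
      exact (pc_range (⟨fun i => (i, b), fun _ _ h => (Prod.mk.inj h).1⟩ : ι ↪ ι × κ) _ i j).symm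
    · rw [if_neg (fun h => hb h.2), pc_right]
      intro i' h
      exact hb (Prod.mk.inj h).2.symm
  · rw [if_neg (fun h => ha h.1), pc_left]
    intro i' h
    exact ha (Prod.mk.inj h).2.symm

/-- embeddings with disjoint images commute -/
theorem emb_comm {κ : Type} [Fintype κ] [DecidableEq κ] (f : ι ↪ ι') (f' : κ ↪ ι')
    (h : ∀ i j, f i ≠ f' j) (g : SL ι A) (g' : SL κ A) : emb f g * emb f' g' = emb f' g' * emb f g := by
  have h1 : pc f ((g : Matrix ι ι A) - 1) * pc f' ((g' : Matrix κ κ A) - 1) = 0 := by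
    ext a b
    rw [Matrix.mul_apply]
    refine Finset.sum_eq_zero fun c _ => ?_
    by_cases hc : ∃ i, f i = c
    · obtain ⟨i, rfl⟩ := hc
      rw [pc_left f' _ (fun j e => h i j e.symm), mul_zero]
    · rw [pc_right f _ (fun i e => hc ⟨i, e⟩), zero_mul]
  have h2 : pc f' ((g' : Matrix κ κ A) - 1) * pc f ((g : Matrix ι ι A) - 1) = 0 := by
    ext a b
    rw [Matrix.mul_apply]
    refine Finset.sum_eq_zero fun c _ => ?_
    by_cases hc : ∃ i, f i = c
    · obtain ⟨i, rfl⟩ := hc
      rw [pc_right f' _ (fun j e => h i j e.symm), zero_mul]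
    · rw [pc_left f _ (fun i e => hc ⟨i, e⟩), mul_zero]
  apply Subtype.ext
  rw [Matrix.SpecialLinearGroup.coe_mul, Matrix.SpecialLinearGroup.coe_mul, coe_emb, coe_emb]
  rw [mul_add, add_mul, add_mul, mul_add, add_mul, add_mul, h1, h2]
  noncomm_ring

end emb

/-- the unipotent factors -/
def NilFac (I : Type) [Fintype I] [DecidableEq I] : Set (SL I ℤ[X]) :=
  {g | ∃ a, 1 ≤ a ∧ ∃ B : Matrix I I ℤ, IsNilpotent B ∧
    (g : Matrix I I ℤ[X]) = 1 - (X ^ a : ℤ[X]) • B.map C}

/-- the elementary letters `1 ± X ^ d E_ij` of order `≥ N` -/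
def LetN (ι : Type) [Fintype ι] [DecidableEq ι] (N : ℕ) : Set (SL ι ℤ[X]) :=
  {g | ∃ i j d, i ≠ j ∧ N ≤ d ∧ ∃ s : ℤ, (s = 1 ∨ s = -1) ∧
    (g : Matrix ι ι ℤ[X]) = 1 + Matrix.single i j (C s * X ^ d)}

/-- the letters of order `≥ N`: `1 ± X ^ d E_ij` and `1 ± X ^ d (e_i + e_j) (e_i - e_j)ᵀ` -/
def Lt (ι : Type) [Fintype ι] [DecidableEq ι] (N : ℕ) : Set (SL ι ℤ[X]) :=
  {g | ∃ i j d, i ≠ j ∧ N ≤ d ∧ ∃ s : ℤ, (s = 1 ∨ s = -1) ∧
    ((g : Matrix ι ι ℤ[X]) = 1 + Matrix.single i j (C s * X ^ d) ∨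
      (g : Matrix ι ι ℤ[X]) = 1 + vecMulVec (fun k => if k = i ∨ k = j then C s * X ^ d else 0)
        (fun k => (if k = i then 1 else 0) - (if k = j then 1 else 0)))}

theorem LetN_sub_Lt (ι : Type) [Fintype ι] [DecidableEq ι] (N : ℕ) : LetN ι N ⊆ Lt ι N := by
  rintro g ⟨i, j, d, hij, hd, s, hs, hg⟩
  exact ⟨i, j, d, hij, hd, s, hs, Or.inl hg⟩

theorem wz_letter {r : ℝ} (hr : 0 ≤ r) (hr1 : r ≤ 1) {N d : ℕ} (hd : N ≤ d) {s : ℤ}
    (hs : s = 1 ∨ s = -1) : wz r (C s * X ^ d) ≤ r ^ N := by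
  have h1 : iz (C s * X ^ d) = monomial d (s : ℝ) := by
    ext k
    rw [coeff_iz, Polynomial.coeff_C_mul, Polynomial.coeff_X_pow, Polynomial.coeff_monomial]
    by_cases hk : k = d
    · simp [hk]
    · have hk' : ¬ d = k := fun e => hk e.symm
      simp [hk, hk']
  have h2 : |(s : ℝ)| = 1 := by
    rcases hs with rfl | rfl <;> simp
  unfold wz
  rw [h1, wn_monomial, h2, one_mul]
  exact pow_le_pow_of_le_one hr hr1 hd

/-- the size of the letters -/
theorem Lt_Mv {ι : Type} [Fintype ι] [DecidableEq ι] {r : ℝ} (hr : 0 ≤ r) (hr1 : r ≤ 1) {N : ℕ}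
    {g : SL ι ℤ[X]} (h : g ∈ Lt ι N) : Mv (wz r) (X ^ N) (2 * r ^ N) g := by
  have hN := wz_isN hr
  obtain ⟨i, j, d, hij, hd, s, hs, hg | hg⟩ := h
  · refine ⟨fun k => if k = i then C s * X ^ d else 0, fun k => if k = j then 1 else 0, ?_, ?_, ?_,
      fun k => if k = i then r ^ N else 0, 1, ?_, ?_, zero_le_one, ?_⟩
    · rw [hg]
      congr 1
      ext a b
      rw [Matrix.vecMulVec_apply, Matrix.single_apply]
      by_cases ha : i = a <;> by_cases hb : j = b
      · simp [ha, hb]
      · simp [hb, Ne.symm hb]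
      · simp [ha, Ne.symm ha]
      · simp [ha, Ne.symm ha]
    · rw [dotProduct]
      refine Finset.sum_eq_zero fun k _ => ?_
      by_cases hk : k = j
      · have : ¬ k = i := fun e => hij (e.symm.trans hk)
        simp [this]
      · simp [hk]
    · intro k
      show X ^ N ∣ (if k = i then C s * X ^ d else 0 : ℤ[X])
      split_ifs
      · exact (pow_dvd_pow X hd).mul_left _
      · exact dvd_zero _
    · intro k
      show wz r (if k = i then C s * X ^ d else 0) ≤ (if k = i then r ^ N else 0)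
      split_ifs
      · exact wz_letter hr hr1 hd hs
      · rw [hN.z]
    · intro k
      by_cases hk : k = j <;> simp [hk]
    · rw [Finset.sum_ite_eq' Finset.univ i, if_pos (Finset.mem_univ _)]
      nlinarith [pow_nonneg hr N]
  · refine ⟨fun k => if k = i ∨ k = j then C s * X ^ d else 0,
      fun k => (if k = i then 1 else 0) - (if k = j then 1 else 0), ?_, ?_, ?_,
      fun k => if k = i ∨ k = j then r ^ N else 0, 1, ?_, ?_, zero_le_one, ?_⟩
    · rw [hg]
      congr 2
      funext k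
      push_cast
      rfl
    · rw [dotProduct]
      rw [← Finset.sum_subset (Finset.subset_univ {i, j})]
      · rw [Finset.sum_pair hij]
        simp [hij, Ne.symm hij]
      · intro k _ hk
        rw [Finset.mem_insert, Finset.mem_singleton, not_or] at hk
        simp [hk.1, hk.2]
    · intro k
      show X ^ N ∣ (if k = i ∨ k = j then C s * X ^ d else 0 : ℤ[X])
      split_ifs
      · exact (pow_dvd_pow X hd).mul_left _
      · exact dvd_zero _
    · intro k
      show wz r (if k = i ∨ k = j then C s * X ^ d else 0) ≤ (if k = i ∨ k = j then r ^ N else 0)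
      split_ifs
      · exact wz_letter hr hr1 hd hs
      · rw [hN.z]
    · intro k
      by_cases hk : k = i <;> by_cases hk' : k = j
      · exact absurd (hk.symm.trans hk') hij
      · simp [hk, hij]
      · simp [hk', Ne.symm hij]
      · simp [hk, hk']
    · rw [mul_one, ← Finset.sum_subset (Finset.subset_univ {i, j})]
      · rw [Finset.sum_pair hij]
        simp only [true_or, or_true, if_true]
        linarith
      · intro k _ hk
        rw [Finset.mem_insert, Finset.mem_singleton, not_or] at hk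
        simp [hk.1, hk.2]

end Pool.Agent.WFS
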