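import Pool.Agent.WFS.PolyLin2

/-!
# Polynomial matrices: the move with a polynomial row
-/

set_option autoImplicit false
set_option linter.unusedSectionVars false

namespace Pool.Agent.WFS

open Polynomial Matrix Pool.Agent.WFG

variable {S : Type} [Fintype S] [DecidableEq S]

/-- nonnegative coefficients -/
def Nn (p : ℤ[X]) : Prop := ∀ d, 0 ≤ p.coeff d

theorem Nn.mul {p q : ℤ[X]} (hp : Nn p) (hq : Nn q) : Nn (p * q) := by
  intro d
  rw [Polynomial.coeff_mul]
  exact Finset.sum_nonneg fun x _ => mul_nonneg (hp _) (hq _)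

theorem Nn.add {p q : ℤ[X]} (hp : Nn p) (hq : Nn q) : Nn (p + q) := by
  intro d
  rw [Polynomial.coeff_add]
  exact add_nonneg (hp d) (hq d)

/-- the matrix with the additional vertex -/
noncomputable def ext (T0 : Matrix S S ℤ[X]) (a : S → ℤ[X]) (x0 : S → ℕ) (x1 : S → ℤ[X]) :
    Matrix (Option S) (Option S) ℤ[X] := Matrix.of fun i j =>
  match i, j with
  | some i, some j => T0 i j + a i * (x0 j : ℤ[X])
  | some i, none => a i
  | none, some j => x1 j
  | none, none => 0

theorem eqv_ext {T0 : Matrix S S ℤ[X]} (hT0 : Pos T0) (a : S → ℤ[X]) (x0 : S → ℕ) (x1 : S → ℤ[X])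
    (ha : ∀ i, (a i).coeff 0 = 0 ∧ Nn (a i)) (hx1 : ∀ i, (x1 i).coeff 0 = 0 ∧ Nn (x1 i)) :
    Pos (ext T0 a x0 x1) ∧
    Eqv (ext T0 a x0 x1) (Matrix.of fun i j => T0 i j + a i * ((x0 j : ℤ[X]) + x1 j)) := by
  have hpos : Pos (ext T0 a x0 x1) := by
    rintro (_ | i) (_ | j)
    · simp [ext]
    · exact hx1 j
    · exact ha i
    · show (T0 i j + a i * (x0 j : ℤ[X])).coeff 0 = 0 ∧ Nn (T0 i j + a i * (x0 j : ℤ[X]))
      refine ⟨?_, Nn.add (hT0 i j).2 (Nn.mul (ha i).2 ?_)⟩
      · rw [Polynomial.coeff_add, Polynomial.mul_coeff_zero, (ha i).1, (hT0 i j).1, zero_mul, add_zero]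
      · intro d
        rw [← Polynomial.C_eq_natCast, Polynomial.coeff_C]
        split_ifs
        · exact Nat.cast_nonneg _
        · exact le_refl _
  refine ⟨hpos, (eqv_elim hpos none rfl).trans ?_⟩
  let e : S ≃ {s : Option S // s ≠ none} :=
    { toFun := fun s => ⟨some s, Option.some_ne_none s⟩
      invFun := fun s => s.1.get (Option.ne_none_iff_isSome.1 s.2)
      left_inv := fun s => rfl
      right_inv := fun s => Subtype.ext (Option.some_get _) }
  have h := eqv_reindex (Matrix.of fun (s s' : {s : Option S // s ≠ none}) =>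
    ext T0 a x0 x1 s.1 s'.1 + ext T0 a x0 x1 s.1 none * ext T0 a x0 x1 none s'.1) e
  have h2 : (Matrix.of fun (s s' : {s : Option S // s ≠ none}) =>
      ext T0 a x0 x1 s.1 s'.1 + ext T0 a x0 x1 s.1 none * ext T0 a x0 x1 none s'.1).submatrix e e =
      (Matrix.of fun i j => T0 i j + a i * ((x0 j : ℤ[X]) + x1 j)) := by
    ext1 i j
    show T0 i j + a i * (x0 j : ℤ[X]) + a i * x1 j = T0 i j + a i * ((x0 j : ℤ[X]) + x1 j)
    ring
  rwa [h2] at h

/-- THE MOVE WITH A POLYNOMIAL ROW -/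
theorem eqv_guP {T0 : Matrix S S ℤ[X]} (hT0 : Pos T0) (a b x u : S → ℤ[X])
    (ha : ∀ i, (a i).coeff 0 = 0 ∧ Nn (a i)) (hb : ∀ i, (b i).coeff 0 = 0 ∧ Nn (b i))
    (hx : ∀ i, Nn (x i)) (hxu : ∑ j, x j * u j = 0)
    (h : ∀ i, a i - b i = u i - ∑ l, T0 i l * u l) :
    Eqv (Matrix.of fun i j => T0 i j + a i * x j) (Matrix.of fun i j => T0 i j + b i * x j) := by
  let x0 : S → ℕ := fun j => ((x j).coeff 0).toNat
  let x1 : S → ℤ[X] := fun j => x j - (x0 j : ℤ[X])
  have hx0 : ∀ j, ((x0 j : ℕ) : ℤ) = (x j).coeff 0 := fun j => Int.toNat_of_nonneg (hx j 0)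
  have hx1 : ∀ i, (x1 i).coeff 0 = 0 ∧ Nn (x1 i) := by
    intro i
    constructor
    · rw [Polynomial.coeff_sub, ← Polynomial.C_eq_natCast, Polynomial.coeff_C_zero, hx0, sub_self]
    · intro d
      rw [Polynomial.coeff_sub, ← Polynomial.C_eq_natCast, Polynomial.coeff_C]
      split_ifs with hd
      · rw [hd, hx0, sub_self]
      · rw [sub_zero]
        exact hx i d
  obtain ⟨p1, e1⟩ := eqv_ext hT0 a x0 x1 ha hx1
  obtain ⟨p2, e2⟩ := eqv_ext hT0 b x0 x1 hb hx1
  have hxx : ∀ j, (x0 j : ℤ[X]) + x1 j = x j := fun j => by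
    show (x0 j : ℤ[X]) + (x j - (x0 j : ℤ[X])) = x j
    ring
  simp only [hxx] at e1 e2
  refine e1.symm.trans (Eqv.trans ?_ e2)
  refine poly_gu p1 p2 (fun s => s.elim 1 x0) (fun s => s.elim (-∑ j, (x0 j : ℤ[X]) * u j) u) ?_ ?_
  · rw [Fintype.sum_option]
    simp only [Option.elim_none, Option.elim_some, Nat.cast_one, one_mul]
    ring
  · have hsum : ∀ i, ∑ l, b i * (x0 l : ℤ[X]) * u l = b i * ∑ l, (x0 l : ℤ[X]) * u l := by
      intro i
      rw [Finset.mul_sum]
      exact Finset.sum_congr rfl fun l _ => by ring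
    have key : ∀ i : S, u i - ∑ l, ext T0 b x0 x1 (some i) l *
        (l.elim (-∑ j, (x0 j : ℤ[X]) * u j) u) = a i - b i := by
      intro i
      rw [Fintype.sum_option]
      simp only [ext, Matrix.of_apply, Option.elim_none, Option.elim_some, add_mul,
        Finset.sum_add_distrib, hsum]
      rw [h i]
      ring
    have key2 : (-∑ j, (x0 j : ℤ[X]) * u j) - ∑ l, ext T0 b x0 x1 none l *
        (l.elim (-∑ j, (x0 j : ℤ[X]) * u j) u) = 0 := by
      rw [Fintype.sum_option]
      simp only [ext, Matrix.of_apply, Option.elim_none, Option.elim_some, zero_mul, zero_add]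
      rw [← neg_add', ← Finset.sum_add_distrib, neg_eq_zero, ← hxu]
      refine Finset.sum_congr rfl fun j _ => ?_
      rw [← add_mul, hxx]
    rintro (_ | i) (_ | j)
    · simp only [Option.elim_none]
      rw [key2]
      simp [ext]
    · simp only [Option.elim_none, Option.elim_some]
      rw [key2]
      simp [ext]
    · simp only [Option.elim_none, Option.elim_some]
      rw [key i]
      simp [ext]
    · simp only [Option.elim_some]
      rw [key i]
      simp only [ext, Matrix.of_apply]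
      ring

end Pool.Agent.WFS
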