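import Pool.Agent.WFG.Bridge
import Pool.Agent.WFS.Emb

/-!
# Sizes (helper10, WFS, assembly)

* `nr_of_rm`: the norm `nr (wz r)` from the row sizes `rm (1 - g) d`;
* `nr_of_coeff`: the norm of a matrix congruent to `1` mod `X ^ T` with bounded coefficients.
-/

set_option autoImplicit false
set_option linter.unusedSectionVars false

noncomputable section

namespace Pool.Agent.WFS

open Polynomial Matrix Pool.Agent.WFG Pool.WFS.Lad

variable {ι : Type} [Fintype ι] [DecidableEq ι]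

/-- the norm as a sum over a range -/
theorem wz_eq_range (r : ℝ) (p : ℤ[X]) {T : ℕ} (hT : p.natDegree < T) :
    wz r p = ∑ d ∈ Finset.range T, |(p.coeff d : ℝ)| * r ^ d := by
  unfold wz
  rw [wn_eq r (iz p) (s := Finset.range T)]
  · exact Finset.sum_congr rfl fun d _ => by rw [coeff_iz]
  · intro d hd
    rw [Finset.mem_range]
    by_contra hdT
    rw [Polynomial.mem_support_iff, coeff_iz] at hd
    apply hd
    rw [Polynomial.coeff_eq_zero_of_natDegree_lt (by omega), Int.cast_zero]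

theorem exists_natDegree_lt (M : Matrix ι ι ℤ[X]) : ∃ T : ℕ, ∀ i j, (M i j).natDegree < T := by
  refine ⟨∑ i, ∑ j, (M i j).natDegree + 1, fun i j => Nat.lt_succ_of_le ?_⟩
  exact (Finset.single_le_sum (f := fun j => (M i j).natDegree)
    (fun j _ => Nat.zero_le _) (Finset.mem_univ j)).trans
    (Finset.single_le_sum (f := fun i => ∑ j, (M i j).natDegree)
    (fun i _ => Nat.zero_le _) (Finset.mem_univ i))

theorem sm_of_rm {M : Matrix ι ι ℤ[X]} {r ε : ℝ} (hr : 0 ≤ r)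
    (h : ∀ T : ℕ, ∑ d ∈ Finset.range T, r ^ d * (rm M d : ℝ) ≤ ε) : Sm (wz r) ε M := by
  obtain ⟨T, hT⟩ := exists_natDegree_lt M
  refine ⟨fun i => ∑ d ∈ Finset.range T, r ^ d * (rmx M i d : ℝ), fun i => ?_, fun i j => ?_, ?_⟩
  · exact Finset.sum_nonneg fun d _ => mul_nonneg (pow_nonneg hr d) (Nat.cast_nonneg _)
  · rw [wz_eq_range r (M i j) (hT i j)]
    refine Finset.sum_le_sum fun d _ => ?_
    rw [mul_comm]
    refine mul_le_mul_of_nonneg_left ?_ (pow_nonneg hr d)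
    have := abs_le_rmx M i j d
    rw [← Int.cast_abs]
    exact_mod_cast this
  · refine le_trans (le_of_eq ?_) (h T)
    rw [Finset.sum_comm]
    refine Finset.sum_congr rfl fun d _ => ?_
    rw [rm_eq, Nat.cast_sum, Finset.mul_sum]

theorem nr_of_rm' {g : SL ι ℤ[X]} {r ε : ℝ} (hr : 0 ≤ r)
    (h : ∀ T : ℕ, ∑ d ∈ Finset.range T, r ^ d * (rm ((g : Matrix ι ι ℤ[X]) - 1) d : ℝ) ≤ ε) :
    nr (wz r) ε g := sm_of_rm hr h

theorem nr_of_rm {g : SL ι ℤ[X]} {r ε : ℝ} (hr : 0 ≤ r)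
    (h : ∀ T : ℕ, ∑ d ∈ Finset.range T, r ^ d * (rm (1 - (g : Matrix ι ι ℤ[X])) d : ℝ) ≤ ε) :
    nr (wz r) ε g := by
  refine nr_of_rm' hr fun T => ?_
  refine le_trans (le_of_eq ?_) (h T)
  exact Finset.sum_congr rfl fun d _ => by rw [rm_sub_comm]

theorem geom_le {r : ℝ} (hr : 0 ≤ r) (hr1 : r < 1) (T : ℕ) (s : Finset ℕ) (hs : ∀ d ∈ s, T ≤ d) :
    ∑ d ∈ s, r ^ d ≤ r ^ T / (1 - r) := by
  have h1 : ∑ d ∈ s, r ^ d = ∑ d ∈ s.image (fun d => d - T), r ^ (T + d) := by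
    rw [Finset.sum_image]
    · refine Finset.sum_congr rfl fun d hd => ?_
      rw [Nat.add_sub_cancel' (hs d hd)]
    · intro a ha b hb hab
      have h1 := hs a ha
      have h2 := hs b hb
      simp only at hab
      omega
  have h2 : ∑ d ∈ s.image (fun d => d - T), r ^ d ≤ 1 / (1 - r) := by
    have hsum := summable_geometric_of_lt_one hr hr1
    have := hsum.sum_le_tsum (s.image (fun d => d - T)) (fun d _ => pow_nonneg hr d)
    rwa [tsum_geometric_of_lt_one hr hr1, ← one_div] at this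
  rw [h1]
  simp only [pow_add]
  rw [← Finset.mul_sum]
  have h3 := mul_le_mul_of_nonneg_left h2 (pow_nonneg hr T)
  rw [mul_one_div] at h3
  exact h3

theorem sm_of_coeff {M : Matrix ι ι ℤ[X]} {r C : ℝ} (hr : 0 ≤ r) (hr1 : r < 1) (hC : 0 ≤ C)
    {T : ℕ} (h1 : ∀ i j, X ^ T ∣ M i j) (h2 : ∀ i j d, |((M i j).coeff d : ℝ)| ≤ C) :
    Sm (wz r) (Fintype.card ι * (C * (r ^ T / (1 - r)))) M := by
  have hpos : 0 ≤ r ^ T / (1 - r) := div_nonneg (pow_nonneg hr T) (by linarith)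
  refine ⟨fun _ => C * (r ^ T / (1 - r)), fun _ => mul_nonneg hC hpos, fun i j => ?_, ?_⟩
  · unfold wz wn
    calc ∑ d ∈ (iz (M i j)).support, |(iz (M i j)).coeff d| * r ^ d
        ≤ ∑ d ∈ (iz (M i j)).support, C * r ^ d := by
          refine Finset.sum_le_sum fun d _ => mul_le_mul_of_nonneg_right ?_ (pow_nonneg hr d)
          rw [coeff_iz]
          exact h2 i j d
      _ = C * ∑ d ∈ (iz (M i j)).support, r ^ d := by rw [Finset.mul_sum]
      _ ≤ C * (r ^ T / (1 - r)) := by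
          refine mul_le_mul_of_nonneg_left (geom_le hr hr1 T _ fun d hd => ?_) hC
          by_contra hdT
          rw [Polynomial.mem_support_iff, coeff_iz] at hd
          apply hd
          rw [Polynomial.X_pow_dvd_iff.1 (h1 i j) d (by omega), Int.cast_zero]
  · rw [Finset.sum_const, Finset.card_univ, nsmul_eq_mul]

theorem nr_of_coeff {g : SL ι ℤ[X]} {r C : ℝ} (hr : 0 ≤ r) (hr1 : r < 1) (hC : 0 ≤ C) {T : ℕ}
    (h1 : Cg (X ^ T) g)
    (h2 : ∀ i j d, |((((g : Matrix ι ι ℤ[X]) - 1) i j).coeff d : ℝ)| ≤ C) :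
    nr (wz r) (Fintype.card ι * (C * (r ^ T / (1 - r)))) g := sm_of_coeff hr hr1 hC h1 h2

/-- the size of `nr_of_coeff` is arbitrarily small for large `T` -/
theorem small_of_large {r : ℝ} (hr : 0 ≤ r) (hr1 : r < 1) (C : ℝ) {ε : ℝ} (hε : 0 < ε) :
    ∃ T0 : ℕ, ∀ T, T0 ≤ T → C * (r ^ T / (1 - r)) ≤ ε := by
  have h1 : Filter.Tendsto (fun T : ℕ => C * (r ^ T / (1 - r))) Filter.atTop (nhds 0) := by
    have h2 := tendsto_pow_atTop_nhds_zero_of_lt_one hr hr1
    have h3 := (h2.div_const (1 - r)).const_mul C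
    simpa using h3
  have h4 := h1.eventually (gt_mem_nhds hε)
  obtain ⟨T0, hT0⟩ := Filter.eventually_atTop.1 h4
  exact ⟨T0, fun T hT => (hT0 T hT).le⟩

end Pool.Agent.WFS
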