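import Pool.Agent.WFS.Emb
import Pool.Agent.WFG.Glue

/-!
# Assembly: the chain at the last stage

The block sum of the rotations is merged into one block `P`; then the small path theorem and the sum lemma lead
to the matrix of the labelled graph.
-/

set_option autoImplicit false
set_option linter.unusedSectionVars false

namespace Pool.Agent.WFS

open Matrix Pool.WFS.Lad Polynomial

section merge

variable {A : Type} [CommRing A] {N : A → ℝ} {ι κ : Type} [Fintype ι] [DecidableEq ι] [Fintype κ]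
  [DecidableEq κ]

theorem nr_list_prod (hN : IsN N) {τ : ℝ} (l : List (SL ι A)) (h : ∀ y ∈ l, nr N τ y) :
    nr N ((1 + τ) ^ l.length - 1) l.prod := by
  induction l with
  | nil =>
    rw [List.prod_nil]
    exact nr_one hN (by simp)
  | cons y l ih =>
    rw [List.prod_cons]
    have h1 := (h y (List.mem_cons_self)).mul hN (ih fun z hz => h z (List.mem_cons_of_mem _ hz))
    refine h1.mono (le_of_eq ?_)
    rw [List.length_cons, pow_succ]
    ring

theorem Cg_list_prod {D : A} (l : List (SL ι A)) (h : ∀ y ∈ l, Cg D y) : Cg D l.prod := by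
  induction l with
  | nil =>
    rw [List.prod_nil]
    exact Cg.one
  | cons y l ih =>
    rw [List.prod_cons]
    exact (h y (List.mem_cons_self)).mul (ih fun z hz => h z (List.mem_cons_of_mem _ hz))

theorem bl_cg {D : A} {g : SL ι A} (h : Cg D g) (k : κ) : Cg D (bl k g) := by
  rw [bl_eq_emb]
  exact emb_cg _ h

/-- the block sum of a list -/
def bls (l : List (κ × SL ι A)) : SL (ι × κ) A := (l.map fun x => bl x.1 x.2).prod

theorem bls_comm (l : List (κ × SL ι A)) {k : κ} (hk : k ∉ l.map Prod.fst) (g : SL ι A) :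
    bl k g * bls l = bls l * bl k g := by
  induction l with
  | nil => simp [bls]
  | cons x l ih =>
    rw [List.map_cons, List.mem_cons, not_or] at hk
    have h1 : bls (x :: l) = bl x.1 x.2 * bls l := by simp [bls]
    rw [h1, ← mul_assoc, bl_comm hk.1, mul_assoc, ih hk.2, mul_assoc]

/-- MERGING the blocks of a list into the block `k1` -/
theorem merge (hN : IsN N) {D : A} (k1 : κ) {τ : ℝ} (hτ : 0 ≤ τ) (l : List (κ × SL ι A)) :
    ∀ (a : SL ι A) (α : ℝ), (l.map Prod.fst).Nodup → k1 ∉ l.map Prod.fst →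
      (∀ x ∈ l, nr N τ x.2) → (∀ x ∈ l, Cg D x.2) → nr N α a →
      (1 + α) * (1 + τ) ^ l.length - 1 ≤ 1 / 100 →
      Ch N D (1 / 10) (bl k1 a * bls l) (bl k1 (a * (l.map Prod.snd).prod)) := by
  induction l with
  | nil =>
    intro a α _ _ _ _ _ _
    have h1 : bls ([] : List (κ × SL ι A)) = 1 := by simp [bls]
    rw [h1, mul_one, List.map_nil, List.prod_nil, mul_one]
    exact Ch.refl _
  | cons x l ih =>
    intro a α hnd hk1 hn hc ha hs
    rw [List.map_cons, List.nodup_cons] at hnd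
    rw [List.map_cons, List.mem_cons, not_or] at hk1
    have hα := ha.nonneg
    have hx := hn x (List.mem_cons_self)
    have hp1 : (1 : ℝ) ≤ (1 + τ) ^ l.length := one_le_pow₀ (by linarith)
    have hp : (1 + τ) ^ (x :: l).length = (1 + τ) * (1 + τ) ^ l.length := by
      rw [List.length_cons, pow_succ]
      ring
    rw [hp] at hs
    have hb : bls (x :: l) = bl x.1 x.2 * bls l := by simp [bls]
    -- the rest
    have hr : nr N ((1 + τ) ^ l.length - 1) (bls l) := by
      have := nr_list_prod hN (l.map fun x => (bl x.1 x.2 : SL (ι × κ) A)) (by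
        intro y hy
        obtain ⟨z, hz, rfl⟩ := List.mem_map.1 hy
        exact (hn z (List.mem_cons_of_mem _ hz)).bl hN z.1)
      rw [List.length_map] at this
      exact this
    set ρ : ℝ := (1 + τ) ^ l.length - 1 with hρ
    have hρ0 : 0 ≤ ρ := by linarith
    have hs' : (1 + α) * ((1 + τ) * (1 + ρ)) - 1 ≤ 1 / 100 := by
      have : 1 + ρ = (1 + τ) ^ l.length := by rw [hρ]; ring
      rw [this]
      exact hs
    have q1 := mul_nonneg hα hτ
    have q2 := mul_nonneg hα hρ0
    have q3 := mul_nonneg hτ hρ0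
    have q4 := mul_nonneg q1 hρ0
    have h1 : α ≤ 1 / 100 := by nlinarith
    have h2 : τ ≤ 1 / 100 := by nlinarith
    have h3 : ρ ≤ 1 / 100 := by nlinarith
    have c1 := sum_lemma (D := D) hN hk1.1 (ha.mono h1) (hx.mono h2) (by norm_num)
      (hc x (List.mem_cons_self))
    have c2 := c1.left hN hr (by nlinarith)
    have e1 : bl k1 a * bls (x :: l) = bls l * (bl k1 a * bl x.1 x.2) := by
      rw [hb, ← mul_assoc, mul_assoc, bls_comm l hnd.1 x.2, ← mul_assoc, bls_comm l hk1.2 a, mul_assoc]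
    have e2 : bls l * bl k1 (a * x.2) = bl k1 (a * x.2) * bls l := (bls_comm l hk1.2 _).symm
    rw [e2, ← e1] at c2
    have c3 := ih (a * x.2) ((1 + α) * (1 + τ) - 1) hnd.2 hk1.2
      (fun z hz => hn z (List.mem_cons_of_mem _ hz)) (fun z hz => hc z (List.mem_cons_of_mem _ hz))
      (ha.mul hN hx) (by
        have : (1 + ((1 + α) * (1 + τ) - 1)) * (1 + τ) ^ l.length - 1 =
          (1 + α) * ((1 + τ) * (1 + τ) ^ l.length) - 1 := by ring
        rw [this]
        exact hs)
    have e3 : (a * x.2) * (l.map Prod.snd).prod = a * ((x :: l).map Prod.snd).prod := by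
      rw [List.map_cons, List.prod_cons, mul_assoc]
    rw [e3] at c3
    exact (c2.mono (by nlinarith)).trans c3

end merge

/-- THE CHAIN from the block sum of the rotations to the matrix of the labelled graph -/
theorem asm_chain {ι κ : Type} [Fintype ι] [DecidableEq ι] [Fintype κ] [DecidableEq κ] {r : ℝ}
    (hr : 0 ≤ r) (hr1 : r < 1) {n : ℕ} (hn : 1 ≤ n)
    (hm : (Fintype.card ι : ℝ) * (r ^ n / (1 - r)) ≤ 1 / 50000) {k0 k1 k2 : κ} (h01 : k0 ≠ k1)
    (h02 : k0 ≠ k2) (h12 : k1 ≠ k2) (M : SL ι ℤ[X]) (hM : nr (wz r) (1 / 100000) M)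
    {τ : ℝ} (hτ : 0 ≤ τ) (l : List (κ × SL ι ℤ[X])) (hnd : (l.map Prod.fst).Nodup)
    (hk1 : k1 ∉ l.map Prod.fst) (hn' : ∀ x ∈ l, nr (wz r) τ x.2) (hc : ∀ x ∈ l, Cg (X ^ n) x.2)
    (hs : (1 + τ) ^ l.length - 1 ≤ 1 / 100000)
    (hF : M * ((l.map Prod.snd).prod)⁻¹ ∈
      Submonoid.closure {g : SL ι ℤ[X] | Mv (wz r) (X ^ n) (1 / 50000) g}) :
    Ch (wz r) (X ^ n) (1 / 10) (bls l) (bl k0 M) := by
  have hN := wz_isN hr
  set P := (l.map Prod.snd).prod with hP
  have hPn : nr (wz r) (1 / 100000) P := by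
    have h1 := nr_list_prod hN (l.map Prod.snd) (by
      intro y hy
      obtain ⟨z, hz, rfl⟩ := List.mem_map.1 hy
      exact hn' z hz)
    rw [List.length_map] at h1
    exact h1.mono hs
  have hPc : Cg (X ^ n) P := Cg_list_prod _ (by
    intro y hy
    obtain ⟨z, hz, rfl⟩ := List.mem_map.1 hy
    exact hc z hz)
  -- 1. merging
  have c1 := merge (D := (X ^ n : ℤ[X])) hN k1 hτ l 1 0 hnd hk1 hn' hc (nr_one hN le_rfl)
    (by linarith)
  rw [map_one, one_mul, one_mul, ← hP] at c1
  -- 2. the small path theorem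
  have hPi : nr (wz r) (1 / 100000 / (1 - 1 / 100000)) P⁻¹ := hPn.inv hN (by norm_num)
  have hFn : nr (wz r) (1 / 10000) (M * P⁻¹) := (hM.mul hN hPi).mono (by norm_num)
  have c2 := spt hr hr1 hn (δ := 1 / 10000) (by norm_num) le_rfl (by
    have : (1 : ℝ) / 10000 / 5 = 1 / 50000 := by norm_num
    rw [this]
    exact hm) h01 h02 h12 (M * P⁻¹) (by
    have : (1 : ℝ) / 10000 / 5 = 1 / 50000 := by norm_num
    rw [this]
    exact hF) hFn
  have c3 := c2.left hN (hPn.bl hN k1) (by norm_num)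
  rw [mul_one] at c3
  -- 3. the sum lemma
  have c4 := sum_lemma (D := (X ^ n : ℤ[X])) hN h01 (hFn.mono (by norm_num : (1 : ℝ) / 10000 ≤ 1 / 100))
    (hPn.mono (by norm_num : (1 : ℝ) / 100000 ≤ 1 / 100)) (by norm_num) hPc
  rw [inv_mul_cancel_right, bl_comm h01] at c4
  exact (c1.trans (c3.mono (by norm_num))).trans (c4.mono (by norm_num))

end Pool.Agent.WFS
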