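import Pool.Agent.WFS.Skew2

/-! # Deep pairs -/

set_option autoImplicit false
set_option linter.unusedSectionVars false

namespace Pool.Agent.WFS

/-- Gordan's lemma for a cone given by finitely many inequalities -/
theorem fg_ineq {L J : Type} [AddCommGroup L] [Fintype J] (lam : L →+ (J → ℤ))
    (hinj : Function.Injective lam) (P : AddSubmonoid L)
    (hP : ∀ x, x ∈ P ↔ ∀ j, 0 ≤ lam x j) : P.FG := by
  let f : (J → ℕ) →+ (J → ℤ) ⧸ lam.range := (QuotientAddGroup.mk' lam.range).comp (castV J)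
  have hK : (f.eqLocusM 0).FG := AddSubmonoid.fg_eqLocusM f 0
  have hmem : ∀ n, n ∈ f.eqLocusM 0 ↔ castV J n ∈ lam.range := by
    intro n
    show f n = 0 ↔ _
    exact QuotientAddGroup.eq_zero_iff _
  let g : ↥(f.eqLocusM 0) →+ L :=
    { toFun := fun n => (AddMonoidHom.ofInjective hinj).symm ⟨castV J n.1, (hmem n.1).1 n.2⟩
      map_zero' := by
        rw [← (AddMonoidHom.ofInjective hinj).symm.map_zero]
        congr 1
      map_add' := by
        intro a b
        rw [← (AddMonoidHom.ofInjective hinj).symm.map_add]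
        congr 1 }
  have hg : ∀ n, lam (g n) = castV J n.1 := by
    intro n
    have h2 := (AddMonoidHom.ofInjective hinj).apply_symm_apply
      ⟨castV J n.1, (hmem n.1).1 n.2⟩
    exact congrArg Subtype.val h2
  have h1 : (⊤ : AddSubmonoid ↥(f.eqLocusM 0)).FG :=
    ((AddMonoid.fg_iff_addSubmonoid_fg _).2 hK).fg_top
  have h2 := h1.map g
  have h3 : AddSubmonoid.map g ⊤ = P := by
    ext y
    rw [hP]
    constructor
    · rintro ⟨n, -, rfl⟩ s
      rw [hg]
      exact Nat.cast_nonneg _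
    · intro hy
      have h4 : castV J (fun s => (lam y s).toNat) = lam y := by
        funext s
        exact Int.toNat_of_nonneg (hy s)
      refine ⟨⟨fun s => (lam y s).toNat, ?_⟩, trivial, ?_⟩
      · rw [hmem, h4]
        exact ⟨y, rfl⟩
      · apply hinj
        rw [hg]
        exact h4
  rw [h3] at h2
  exact h2

section

variable {L : Type} [AddCommGroup L] {P : AddSubmonoid L}

/-- a cone closed under division -/
def Sat (P : AddSubmonoid L) : Prop := ∀ (n : ℕ) (v : L), 1 ≤ n → n • v ∈ P → v ∈ P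

theorem dq_sat : Sat (dq P) := by
  intro n y hn hy x hx
  have h1 : 0 ≤ (n • y) x := hy x hx
  rw [LinearMap.smul_apply, nsmul_eq_mul] at h1
  exact nonneg_of_mul_nonneg_right h1 (by exact_mod_cast hn)

theorem sub_of {M : Type} [AddCommGroup M] {Q : AddSubmonoid M} (hsat : Sat Q) {C ρ N : ℕ}
    (hC : 1 ≤ C) {x w : M} (hw : w ∈ Q) (hx : C • x - ρ • w ∈ Q) (hN : N * C ≤ ρ) :
    x - N • w ∈ Q := by
  refine hsat C _ hC ?_
  have h1 : C • (x - N • w) = (C • x - ρ • w) + (ρ - N * C) • w := by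
    obtain ⟨e, rfl⟩ := Nat.exists_eq_add_of_le hN
    rw [Nat.add_sub_cancel_left, smul_sub, add_smul, smul_smul, mul_comm N C]
    abel
  rw [h1]
  exact Q.add_mem hx (Q.nsmul_mem hw _)

theorem deep (hsat : Sat P) (w : P) (c : dq P) (C1 C2 m0 : ℕ) (hC1 : 1 ≤ C1) (hC2 : 1 ≤ C2)
    (x : P) (y : dq P) (ρ σ : ℕ) (hρ : 1 ≤ ρ) (hσ : 1 ≤ σ)
    (hx : C2 • x.1 - ρ • w.1 ∈ P) (hy : C1 • y.1 - σ • c.1 ∈ dq P)
    (hM : m0 * C1 * C2 ≤ ρ ∨ m0 * C1 * C2 ≤ σ) :
    ∃ z2 : Bool → Pr P, tm x y = m0 • tm w c + cl z2 ∧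
      ∀ v, ph z2 v = y.1 v • x.1 - ((m0 : ℤ) * c.1 v) • w.1 := by
  rcases hM with hM | hM
  · -- the vector is deep
    have h1 : x.1 - (m0 * C1) • w.1 ∈ P := sub_of hsat hC2 w.2 hx hM
    have h2 : C1 • y.1 - c.1 ∈ dq P := by
      have h3 : C1 • y.1 - c.1 = (C1 • y.1 - σ • c.1) + (σ - 1) • c.1 := by
        obtain ⟨e, rfl⟩ := Nat.exists_eq_add_of_le hσ
        rw [Nat.add_sub_cancel_left, add_smul, one_smul]
        abel
      rw [h3]
      exact (dq P).add_mem hy ((dq P).nsmul_mem c.2 _)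
    let x' : P := ⟨_, h1⟩
    let y' : dq P := ⟨_, h2⟩
    have hxe : x = (m0 * C1) • w + x' := by
      apply Subtype.ext
      show x.1 = (m0 * C1) • w.1 + (x.1 - (m0 * C1) • w.1)
      abel
    have hye : C1 • y = c + y' := by
      apply Subtype.ext
      show C1 • y.1 = c.1 + (C1 • y.1 - c.1)
      abel
    refine ⟨fun b => bif b then (m0 • w, y') else (x', y), ?_, fun v => ?_⟩
    · have e1 : cl (fun b : Bool => (bif b then (m0 • w, y') else (x', y) : Pr P)) =
          m0 • tm w y' + tm x' y := by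
        unfold cl
        rw [Fintype.sum_bool]
        show tm (m0 • w) y' + tm x' y = _
        rw [tm_nsmul_left]
      rw [e1]
      conv_lhs => rw [hxe]
      rw [tm_add_left, mul_smul, tm_nsmul_left, tm_nsmul_left, ← tm_nsmul_right C1, hye,
        tm_add_right, smul_add]
      abel
    · rw [ph_apply, Fintype.sum_bool]
      show (C1 • y.1 - c.1) v • (m0 • w.1) + y.1 v • (x.1 - (m0 * C1) • w.1) = _
      rw [LinearMap.sub_apply, LinearMap.smul_apply, nsmul_eq_mul, ← natCast_zsmul w.1 m0,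
        ← natCast_zsmul w.1 (m0 * C1), smul_sub, smul_smul, smul_smul, sub_mul, sub_smul]
      push_cast
      have e2 : (C1 : ℤ) * y.1 v * m0 = y.1 v * ((m0 : ℤ) * C1) := by ring
      have e3 : c.1 v * (m0 : ℤ) = (m0 : ℤ) * c.1 v := by ring
      rw [e2, e3]
      abel
  · -- the functional is deep
    have h1 : y.1 - (m0 * C2) • c.1 ∈ dq P := by
      refine sub_of dq_sat hC1 c.2 hy ?_
      calc m0 * C2 * C1 = m0 * C1 * C2 := by ring
        _ ≤ σ := hM
    have h2 : C2 • x.1 - w.1 ∈ P := by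
      have h3 : C2 • x.1 - w.1 = (C2 • x.1 - ρ • w.1) + (ρ - 1) • w.1 := by
        obtain ⟨e, rfl⟩ := Nat.exists_eq_add_of_le hρ
        rw [Nat.add_sub_cancel_left, add_smul, one_smul]
        abel
      rw [h3]
      exact P.add_mem hx (P.nsmul_mem w.2 _)
    let y' : dq P := ⟨_, h1⟩
    let x' : P := ⟨_, h2⟩
    have hye : y = (m0 * C2) • c + y' := by
      apply Subtype.ext
      show y.1 = (m0 * C2) • c.1 + (y.1 - (m0 * C2) • c.1)
      abel
    have hxe : C2 • x = w + x' := by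
      apply Subtype.ext
      show C2 • x.1 = w.1 + (C2 • x.1 - w.1)
      abel
    refine ⟨fun b => bif b then (m0 • x', c) else (x, y'), ?_, fun v => ?_⟩
    · have e1 : cl (fun b : Bool => (bif b then (m0 • x', c) else (x, y') : Pr P)) =
          m0 • tm x' c + tm x y' := by
        unfold cl
        rw [Fintype.sum_bool]
        show tm (m0 • x') c + tm x y' = _
        rw [tm_nsmul_left]
      rw [e1]
      conv_lhs => rw [hye]
      rw [tm_add_right, mul_smul, tm_nsmul_right, tm_nsmul_right, ← tm_nsmul_left C2, hxe,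
        tm_add_left, smul_add]
      abel
    · rw [ph_apply, Fintype.sum_bool]
      show c.1 v • (m0 • (C2 • x.1 - w.1)) + (y.1 - (m0 * C2) • c.1) v • x.1 = _
      rw [LinearMap.sub_apply, LinearMap.smul_apply, nsmul_eq_mul, ← natCast_zsmul x.1 C2,
        ← natCast_zsmul (((C2 : ℤ) • x.1 - w.1)) m0, smul_sub, smul_sub, smul_smul, smul_smul,
        smul_smul, sub_smul]
      push_cast
      have e2 : c.1 v * (m0 : ℤ) * C2 = (m0 : ℤ) * C2 * c.1 v := by ring
      have e3 : c.1 v * (m0 : ℤ) = (m0 : ℤ) * c.1 v := by ring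
      rw [e2, e3]
      abel

end

end Pool.Agent.WFS
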