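import Pool.Agent.WFS.Bal1

/-! # Families with one deep pair and a deep product -/

set_option autoImplicit false
set_option linter.unusedSectionVars false

namespace Pool.Agent.WFS

section

variable {L : Type} [AddCommGroup L] {P : AddSubmonoid L} {w : L} {c : Module.Dual ℤ L}

theorem sum_mul_le {k : ℕ} (a b : Fin k → ℕ) : ∑ j, a j * b j ≤ (∑ j, a j) * ∑ j, b j := by
  rw [Finset.sum_mul]
  exact Finset.sum_le_sum fun j _ => Nat.mul_le_mul_left _
    (Finset.single_le_sum (f := b) (fun _ _ => Nat.zero_le _) (Finset.mem_univ j))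

/-- a margin for a vector with a multiple in the cone -/
theorem margin {M : Type} [AddCommGroup M] {Q : AddSubmonoid M} (hsat : Sat Q) {k : ℕ}
    (a : Fin k → ℕ) (x : Fin k → M) (C X G : ℕ) (hG : 1 ≤ G) (v w : M) (hw : w ∈ Q)
    (hx : ∀ j, C • x j - X • w ∈ Q) (hv : G • v = ∑ j, a j • x j) :
    C • v - ((∑ j, a j) * X / G) • w ∈ Q := by
  refine hsat G _ hG ?_
  have h1 : G * ((∑ j, a j) * X / G) ≤ (∑ j, a j) * X := Nat.mul_div_le _ _
  generalize (∑ j, a j) * X / G = q at h1 ⊢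
  obtain ⟨e, he⟩ := Nat.exists_eq_add_of_le h1
  have h2 : G • (C • v - q • w) = ∑ j, a j • (C • x j - X • w) + e • w := by
    have h3 : ∑ j, a j • (C • x j - X • w) = C • ∑ j, a j • x j - ((∑ j, a j) * X) • w := by
      rw [Finset.smul_sum, Finset.sum_mul, Finset.sum_smul, ← Finset.sum_sub_distrib]
      refine Finset.sum_congr rfl fun j _ => ?_
      rw [smul_sub, smul_smul, smul_smul, smul_smul, mul_comm C (a j)]
    rw [h3, he, ← hv, smul_sub, add_smul, smul_smul, smul_smul, smul_smul, mul_comm C G]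
    abel
  rw [h2]
  exact Q.add_mem (Q.sum_mem fun j _ => Q.nsmul_mem (hx j) _) (Q.nsmul_mem hw _)

theorem bal_abs [Module.Free ℤ L] [Module.Finite ℤ L] (h : CD P w c) (hP : P.FG)
    (hQ : (dq P).FG) (hsat : Sat P) : ∃ m0 : ℕ, ∀ (C1 C2 X Y k : ℕ) (z : Fin k → Pr P)
      (j0 : Fin k) (r : P) (f : dq P), 1 ≤ C1 → 1 ≤ C2 → 1 ≤ X → 1 ≤ Y →
      (∀ j, C2 • (z j).1.1 - X • w ∈ P) → (∀ j, C1 • (z j).2.1 - Y • c ∈ dq P) →
      (∀ v, ph z v = f.1 v • r.1) → 0 < f.1 (z j0).1.1 → 0 < (z j0).2.1 r.1 →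
      f.1 (z j0).1.1 ≤ (∑ j, (mt z j j0 : ℤ)) * X → (z j0).2.1 r.1 ≤ (∑ j, (mt z j0 j : ℤ)) * Y →
      (m0 * C1 * C2) ^ 2 ≤ X * Y → cl z = tm r f := by
  classical
  obtain ⟨m0, huni⟩ := uni h hP hQ
  refine ⟨m0, fun C1 C2 X Y k z j0 r f hC1 hC2 hX hY hx hy hph hG hG' hrX hfY hXY => ?_⟩
  have hmt : ∀ i j, (z i).2.1 (z j).1.1 = (mt z i j : ℤ) := fun i j => (mt_coe z i j).symm
  obtain ⟨G, hGe⟩ := Int.eq_ofNat_of_zero_le hG.le
  obtain ⟨G', hGe'⟩ := Int.eq_ofNat_of_zero_le hG'.le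
  have hG1 : 1 ≤ G := by
    rw [hGe] at hG
    exact_mod_cast hG
  have hG1' : 1 ≤ G' := by
    rw [hGe'] at hG'
    exact_mod_cast hG'
  -- multiples of `r` and `f`
  have hr : G • r.1 = ∑ j, mt z j j0 • (z j).1.1 := by
    have h1 := hph (z j0).1.1
    rw [ph_apply, hGe] at h1
    rw [← natCast_zsmul]
    refine h1.symm.trans ?_
    refine Finset.sum_congr rfl fun j _ => ?_
    rw [hmt, natCast_zsmul]
  have hf : G' • f.1 = ∑ j, mt z j0 j • (z j).2.1 := by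
    refine LinearMap.ext fun v => ?_
    have h1 := congrArg (z j0).2.1 (hph v)
    rw [ph_apply, map_sum, map_smul, hGe', smul_eq_mul] at h1
    rw [LinearMap.smul_apply, nsmul_eq_mul, mul_comm, LinearMap.sum_apply]
    refine h1.symm.trans ?_
    refine Finset.sum_congr rfl fun j _ => ?_
    rw [map_smul, hmt, LinearMap.smul_apply, nsmul_eq_mul, smul_eq_mul, mul_comm]
  have hGG : G * G' ≤ (∑ j, mt z j j0) * ∑ j, mt z j0 j := by
    refine le_trans (le_of_eq ?_) (sum_mul_le _ _)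
    have h1 := congrArg (z j0).2.1 (hph (z j0).1.1)
    rw [ph_apply, map_sum, map_smul, hGe', smul_eq_mul, hGe] at h1
    have h2 : ((G * G' : ℕ) : ℤ) = ((∑ j, mt z j j0 * mt z j0 j : ℕ) : ℤ) := by
      push_cast
      refine h1.symm.trans ?_
      refine Finset.sum_congr rfl fun j _ => ?_
      rw [map_smul, hmt, hmt, smul_eq_mul]
    exact_mod_cast h2
  have hrX' : G ≤ (∑ j, mt z j j0) * X := by
    rw [hGe] at hrX
    exact_mod_cast hrX
  have hfY' : G' ≤ (∑ j, mt z j0 j) * Y := by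
    rw [hGe'] at hfY
    exact_mod_cast hfY
  have hxr := margin hsat _ _ C2 X G hG1 r.1 w h.hu hx hr
  have hyf := margin dq_sat _ _ C1 Y G' hG1' f.1 c h.hc hy hf
  have hρ1 : 1 ≤ (∑ j, mt z j j0) * X / G := (Nat.one_le_div_iff (by omega)).2 hrX'
  have hσ1 : 1 ≤ (∑ j, mt z j0 j) * Y / G' := (Nat.one_le_div_iff (by omega)).2 hfY'
  have hM1 : m0 * C1 * C2 ≤ X ∨ m0 * C1 * C2 ≤ Y := by
    by_contra hcon
    push Not at hcon
    have h1 : X * Y < (m0 * C1 * C2) ^ 2 := by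
      rw [pow_two]
      exact Nat.mul_lt_mul'' hcon.1 hcon.2
    omega
  have hM2 : m0 * C1 * C2 ≤ (∑ j, mt z j j0) * X / G ∨
      m0 * C1 * C2 ≤ (∑ j, mt z j0 j) * Y / G' := by
    by_contra hcon
    push Not at hcon
    have h1 := (Nat.div_lt_iff_lt_mul (by omega)).1 hcon.1
    have h2 := (Nat.div_lt_iff_lt_mul (by omega)).1 hcon.2
    have h3 := Nat.mul_lt_mul'' h1 h2
    have h4 : m0 * C1 * C2 * G * (m0 * C1 * C2 * G') = (m0 * C1 * C2) ^ 2 * (G * G') := by ring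
    have h5 : (∑ j, mt z j j0) * X * ((∑ j, mt z j0 j) * Y) =
        X * Y * ((∑ j, mt z j j0) * ∑ j, mt z j0 j) := by ring
    rw [h4, h5] at h3
    have h6 := Nat.mul_le_mul hXY hGG
    exact absurd h3 (not_lt.2 h6)
  let w' : P := ⟨w, h.hu⟩
  let c' : dq P := ⟨c, h.hc⟩
  obtain ⟨z2, hz2, hz2'⟩ := deep hsat w' c' C1 C2 m0 hC1 hC2 (z j0).1 (z j0).2 X Y hX hY
    (hx j0) (hy j0) hM1
  obtain ⟨z3, hz3, hz3'⟩ := deep hsat w' c' C1 C2 m0 hC1 hC2 r f _ _ hρ1 hσ1 hxr hyf hM2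
  let z1 : Bool ⊕ {j // j ≠ j0} → Pr P := Sum.elim z2 fun j => z j.1
  have hcl : cl z = m0 • tm w' c' + cl z1 := by
    rw [cl_sum, ← add_assoc, ← hz2]
    unfold cl
    rw [Fintype.sum_eq_add_sum_subtype_ne _ j0]
  have hph1 : ph z1 = ph z3 := by
    refine LinearMap.ext fun v => ?_
    rw [hz3', ph_sum, LinearMap.add_apply, hz2', ← hph v, ph_apply z,
      Fintype.sum_eq_add_sum_subtype_ne _ j0, ph_apply]
    abel
  exact key_eq _ m0 hcl hz3 (huni _ _ z1 z3 hph1)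

end

end Pool.Agent.WFS
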