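import Pool.Agent.WFS.Bal2

/-! # The cone of rounded functionals -/

set_option autoImplicit false
set_option linter.unusedSectionVars false

namespace Pool.Agent.WFS

/-- the cone of the vectors `x` with `κ |x a| ≤ Θ i · x` -/
def PT {r k : ℕ} (κ : ℕ) (Θ : Fin k → Fin r → ℤ) : AddSubmonoid (Fin r → ℤ) where
  carrier := {x | ∀ i a, (κ : ℤ) * |x a| ≤ ∑ b, Θ i b * x b}
  zero_mem' := by
    intro i a
    simp
  add_mem' := by
    intro x y hx hy i a
    have h1 := hx i a
    have h2 := hy i a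
    have h3 : (κ : ℤ) * |x a + y a| ≤ κ * (|x a| + |y a|) :=
      mul_le_mul_of_nonneg_left (abs_add_le _ _) (Nat.cast_nonneg _)
    have h4 : ∑ b, Θ i b * (x + y) b = ∑ b, Θ i b * x b + ∑ b, Θ i b * y b := by
      rw [← Finset.sum_add_distrib]
      exact Finset.sum_congr rfl fun b _ => by
        rw [Pi.add_apply]
        ring
    rw [h4, Pi.add_apply]
    linarith

theorem mem_PT {r k κ : ℕ} {Θ : Fin k → Fin r → ℤ} {x : Fin r → ℤ} :
    x ∈ PT κ Θ ↔ ∀ i a, (κ : ℤ) * |x a| ≤ ∑ b, Θ i b * x b := Iff.rfl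

theorem PT_sat {r k κ : ℕ} (Θ : Fin k → Fin r → ℤ) : Sat (PT κ Θ) := by
  intro n x hn hx i a
  have h1 := hx i a
  have hn' : (0 : ℤ) < n := by exact_mod_cast hn
  have h2 : ∑ b, Θ i b * (n • x) b = n * ∑ b, Θ i b * x b := by
    rw [Finset.mul_sum]
    exact Finset.sum_congr rfl fun b _ => by
      rw [Pi.smul_apply, nsmul_eq_mul]
      ring
  have h3 : (κ : ℤ) * |(n • x) a| = n * (κ * |x a|) := by
    rw [Pi.smul_apply, nsmul_eq_mul, abs_mul, Nat.abs_cast]
    ring
  rw [h2, h3] at h1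
  exact le_of_mul_le_mul_left h1 hn'

theorem PT_fg {r k κ : ℕ} (hk : 1 ≤ k) (hκ : 1 ≤ κ) (Θ : Fin k → Fin r → ℤ) : (PT κ Θ).FG := by
  let lam : (Fin r → ℤ) →+ (Fin k × Fin r × Bool → ℤ) :=
    { toFun := fun x p => ∑ b, Θ p.1 b * x b + (bif p.2.2 then (κ : ℤ) else -κ) * x p.2.1
      map_zero' := by
        funext p
        simp
      map_add' := by
        intro x y
        funext p
        have h4 : ∑ b, Θ p.1 b * (x + y) b = ∑ b, Θ p.1 b * x b + ∑ b, Θ p.1 b * y b := by
          rw [← Finset.sum_add_distrib]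
          exact Finset.sum_congr rfl fun b _ => by
            rw [Pi.add_apply]
            ring
        show ∑ b, Θ p.1 b * (x + y) b + (bif p.2.2 then (κ : ℤ) else -κ) * (x p.2.1 + y p.2.1) =
          (∑ b, Θ p.1 b * x b + (bif p.2.2 then (κ : ℤ) else -κ) * x p.2.1) +
          (∑ b, Θ p.1 b * y b + (bif p.2.2 then (κ : ℤ) else -κ) * y p.2.1)
        rw [h4]
        ring }
  have hlam : ∀ x i a s, lam x (i, a, s) = ∑ b, Θ i b * x b + (bif s then (κ : ℤ) else -κ) * x a :=
    fun _ _ _ _ => rfl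
  refine fg_ineq lam ?_ _ fun x => ?_
  · rw [injective_iff_map_eq_zero]
    intro x hx
    funext a
    have h1 := congrFun hx (⟨0, hk⟩, a, true)
    have h2 := congrFun hx (⟨0, hk⟩, a, false)
    rw [hlam] at h1 h2
    simp only [cond_true, cond_false, Pi.zero_apply] at h1 h2
    have h3 : (κ : ℤ) * x a = 0 := by linarith
    rcases mul_eq_zero.1 h3 with h | h
    · exfalso
      have : (κ : ℤ) ≠ 0 := by
        exact_mod_cast (by omega : κ ≠ 0)
      exact this h
    · exact h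
  · constructor
    · rintro hx ⟨i, a, s⟩
      have h1 := hx i a
      rw [hlam]
      have h2 : (κ : ℤ) * x a ≤ κ * |x a| := mul_le_mul_of_nonneg_left (le_abs_self _)
        (Nat.cast_nonneg _)
      have h3 : (κ : ℤ) * (-x a) ≤ κ * |x a| := mul_le_mul_of_nonneg_left (neg_le_abs _)
        (Nat.cast_nonneg _)
      cases s
      · simp only [cond_false]
        linarith
      · simp only [cond_true]
        linarith
    · intro hx i a
      have h1 := hx (i, a, true)
      have h2 := hx (i, a, false)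
      rw [hlam] at h1 h2
      simp only [cond_true, cond_false] at h1 h2
      rcases abs_cases (x a) with ⟨h, _⟩ | ⟨h, _⟩
      · rw [h]
        linarith
      · rw [h]
        linarith

theorem PT_dot {r k κ : ℕ} (hr : 1 ≤ r) (Θ : Fin k → Fin r → ℤ) (i : Fin k) :
    dot (Θ i) ∈ dq (PT κ Θ) := by
  intro x hx
  rw [dot_apply]
  exact le_trans (mul_nonneg (Nat.cast_nonneg _) (abs_nonneg _)) (hx i ⟨0, hr⟩)

theorem PT_CD {r k κ : ℕ} (hr : 1 ≤ r) (hk : 1 ≤ k) (hκ : 1 ≤ κ) (Θ : Fin k → Fin r → ℤ)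
    (w : Fin r → ℤ) (hw : ∀ i a, (κ : ℤ) * |w a| + 1 ≤ ∑ b, Θ i b * w b) :
    CD (PT κ Θ) w (∑ i, dot (Θ i)) where
  hu := fun i a => by
    have := hw i a
    linarith
  hc := (dq (PT κ Θ)).sum_mem fun i _ => PT_dot hr Θ i
  ou := by
    intro x
    let m : ℕ := ∑ i : Fin k, ∑ a : Fin r, ((κ : ℤ) * |x a| - ∑ b, Θ i b * x b).toNat
    refine ⟨m, fun i a => ?_⟩
    have h1 : (κ : ℤ) * |x a| - ∑ b, Θ i b * x b ≤ m := by
      have h2 : ((κ : ℤ) * |x a| - ∑ b, Θ i b * x b).toNat ≤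
          ∑ a : Fin r, ((κ : ℤ) * |x a| - ∑ b, Θ i b * x b).toNat :=
        Finset.single_le_sum (f := fun a : Fin r => ((κ : ℤ) * |x a| - ∑ b, Θ i b * x b).toNat)
          (fun _ _ => Nat.zero_le _) (Finset.mem_univ a)
      have h3 : ∑ a : Fin r, ((κ : ℤ) * |x a| - ∑ b, Θ i b * x b).toNat ≤ m :=
        Finset.single_le_sum (f := fun i : Fin k => ∑ a : Fin r,
          ((κ : ℤ) * |x a| - ∑ b, Θ i b * x b).toNat) (fun _ _ => Nat.zero_le _)
          (Finset.mem_univ i)
      have h4 := Int.self_le_toNat ((κ : ℤ) * |x a| - ∑ b, Θ i b * x b)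
      have h5 : ((((κ : ℤ) * |x a| - ∑ b, Θ i b * x b).toNat : ℕ) : ℤ) ≤ m := by
        exact_mod_cast h2.trans h3
      exact h4.trans h5
    have h2 : ∑ b, Θ i b * (x + m • w) b = ∑ b, Θ i b * x b + m * ∑ b, Θ i b * w b := by
      rw [Finset.mul_sum, ← Finset.sum_add_distrib]
      exact Finset.sum_congr rfl fun b _ => by
        rw [Pi.add_apply, Pi.smul_apply, nsmul_eq_mul]
        ring
    have h3 : (κ : ℤ) * |(x + m • w) a| ≤ κ * |x a| + m * (κ * |w a|) := by
      rw [Pi.add_apply, Pi.smul_apply, nsmul_eq_mul]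
      have h4 : |x a + m * w a| ≤ |x a| + m * |w a| := by
        refine (abs_add_le _ _).trans ?_
        rw [abs_mul, Nat.abs_cast]
      have h5 := mul_le_mul_of_nonneg_left h4 (Nat.cast_nonneg (α := ℤ) κ)
      linarith
    have h4 := mul_le_mul_of_nonneg_left (hw i a) (Nat.cast_nonneg (α := ℤ) m)
    rw [h2]
    linarith
  oc := by
    intro y
    refine ⟨∑ a, (|y (Pi.single a 1)|).toNat, fun v hv => ?_⟩
    have hcv : ∀ a, |v a| ≤ (∑ i, dot (Θ i)) v := by
      intro a
      have h1 := hv ⟨0, hk⟩ a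
      have h2 : dot (Θ ⟨0, hk⟩) v ≤ (∑ i, dot (Θ i)) v := by
        rw [LinearMap.sum_apply]
        exact Finset.single_le_sum (f := fun i => dot (Θ i) v)
          (fun i _ => PT_dot hr Θ i v hv) (Finset.mem_univ _)
      rw [dot_apply] at h2
      have h3 : |v a| ≤ κ * |v a| := by
        have h4 : (1 : ℤ) ≤ κ := by exact_mod_cast hκ
        have h5 := mul_le_mul_of_nonneg_right h4 (abs_nonneg (v a))
        linarith
      linarith
    have hyv : y v = ∑ a, v a * y (Pi.single a 1) := by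
      conv_lhs => rw [← Finset.univ_sum_single v]
      rw [map_sum]
      refine Finset.sum_congr rfl fun a _ => ?_
      have h1 : (Pi.single a (v a) : Fin r → ℤ) = v a • Pi.single a 1 := by
        rw [← Pi.single_smul, smul_eq_mul, mul_one]
      rw [h1, map_smul, smul_eq_mul]
    rw [LinearMap.add_apply, LinearMap.smul_apply, nsmul_eq_mul, hyv, Nat.cast_sum,
      Finset.sum_mul, ← Finset.sum_add_distrib]
    refine Finset.sum_nonneg fun a _ => ?_
    have h1 : ((|y (Pi.single a 1)|.toNat : ℕ) : ℤ) = |y (Pi.single a 1)| :=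
      Int.toNat_of_nonneg (abs_nonneg _)
    have h2 := neg_abs_le (v a * y (Pi.single a 1))
    rw [abs_mul] at h2
    have h3 := mul_le_mul_of_nonneg_right (hcv a) (abs_nonneg (y (Pi.single a 1)))
    rw [h1]
    linarith
  pos := by
    rw [LinearMap.sum_apply]
    refine Finset.sum_pos (fun i _ => ?_) ⟨⟨0, hk⟩, Finset.mem_univ _⟩
    rw [dot_apply]
    have h1 := hw i ⟨0, hr⟩
    have h2 : 0 ≤ (κ : ℤ) * |w ⟨0, hr⟩| := mul_nonneg (Nat.cast_nonneg _) (abs_nonneg _)
    linarith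

end Pool.Agent.WFS
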