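import Pool.Agent.WFS.Bal3

/-! # The balanced case -/

set_option autoImplicit false
set_option linter.unusedSectionVars false

namespace Pool.Agent.WFS

theorem fl {D Y y v : ℤ} (hY : 0 < Y) : D * (y * v) - Y * |v| ≤ Y * (D * y / Y * v) ∧
    Y * (D * y / Y * v) ≤ D * (y * v) + Y * |v| := by
  have h1 := Int.mul_ediv_add_emod (D * y) Y
  have h2 := Int.emod_nonneg (D * y) hY.ne'
  have h3 := Int.emod_lt_of_pos (D * y) hY
  generalize D * y / Y = q at h1 ⊢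
  generalize D * y % Y = e at h1 h2 h3
  have h4 : D * (y * v) = Y * (q * v) + e * v := by
    have h5 : D * (y * v) = D * y * v := by ring
    rw [h5, ← h1]
    ring
  have h5 : |e * v| ≤ Y * |v| := by
    rw [abs_mul, abs_of_nonneg h2]
    exact mul_le_mul_of_nonneg_right h3.le (abs_nonneg _)
  have h6 := abs_le.1 h5
  constructor <;> linarith [h6.1, h6.2]

theorem fl_sum {r : ℕ} {D Y : ℤ} (hY : 0 < Y) (y θ v : Fin r → ℤ)
    (hθ : ∀ a, θ a = D * y a / Y) :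
    D * ∑ b, y b * v b - Y * ∑ b, |v b| ≤ Y * ∑ b, θ b * v b ∧
      Y * ∑ b, θ b * v b ≤ D * ∑ b, y b * v b + Y * ∑ b, |v b| := by
  simp only [Finset.mul_sum, ← Finset.sum_sub_distrib, ← Finset.sum_add_distrib]
  refine ⟨Finset.sum_le_sum fun b _ => ?_, Finset.sum_le_sum fun b _ => ?_⟩
  · rw [hθ]
    exact (fl hY).1
  · rw [hθ]
    exact (fl hY).2

theorem mar {r H X Y : ℕ} (hY : 1 ≤ Y) (θ y x : Fin r → ℤ)
    (hθ : ∀ a, θ a = ((H * (3 * r + 1) : ℕ) : ℤ) * y a / Y) (hx : ∀ a, |x a| ≤ X)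
    (hXY : (X : ℤ) * Y ≤ H * ∑ a, y a * x a) (a : Fin r) :
    ((2 * r : ℕ) : ℤ) * |x a| + X ≤ ∑ b, θ b * x b := by
  have hY' : (0 : ℤ) < Y := by exact_mod_cast hY
  have h1 := (fl_sum hY' y θ x hθ).1
  have h2 : ∑ b, |x b| ≤ r * (X : ℤ) := by
    calc ∑ b, |x b| ≤ ∑ _b : Fin r, (X : ℤ) := Finset.sum_le_sum fun b _ => hx b
      _ = r * (X : ℤ) := by rw [Finset.sum_const, Finset.card_univ, Fintype.card_fin, nsmul_eq_mul]
  have h3 := mul_le_mul_of_nonneg_left h2 hY'.le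
  have h4 := mul_le_mul_of_nonneg_left hXY (by positivity : (0 : ℤ) ≤ 3 * r + 1)
  have h5 : (Y : ℤ) * ((2 * r + 1) * X) ≤ Y * ∑ b, θ b * x b := by
    push_cast at h1
    have e1 : (H : ℤ) * (3 * r + 1) * ∑ b, y b * x b = (3 * r + 1) * (H * ∑ b, y b * x b) := by
      ring
    rw [e1] at h1
    have e2 : (Y : ℤ) * ((2 * r + 1) * X) = (3 * r + 1) * (X * Y) - Y * (r * X) := by ring
    rw [e2]
    linarith
  have h6 := le_of_mul_le_mul_left h5 hY'
  have h7 : ((2 * r : ℕ) : ℤ) * |x a| ≤ ((2 * r : ℕ) : ℤ) * X :=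
    mul_le_mul_of_nonneg_left (hx a) (Nat.cast_nonneg _)
  push_cast at h7 ⊢
  linarith

theorem dmar {r Y : ℕ} {D : ℤ} (hr : 1 ≤ r) (hY : 1 ≤ Y) (θ y v : Fin r → ℤ)
    (hθ : ∀ a, θ a = D * y a / Y)
    (hv : ∀ a, ((2 * r : ℕ) : ℤ) * |v a| ≤ ∑ b, θ b * v b) :
    (Y : ℤ) * ∑ b, |v b| ≤ D * ∑ b, y b * v b := by
  have hY' : (0 : ℤ) < Y := by exact_mod_cast hY
  have hr' : (0 : ℤ) < r := by exact_mod_cast hr
  have h1 := (fl_sum hY' y θ v hθ).2
  have h2 : (r : ℤ) * (2 * ∑ b, |v b|) ≤ r * ∑ b, θ b * v b := by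
    calc (r : ℤ) * (2 * ∑ b, |v b|) = ∑ a : Fin r, ((2 * r : ℕ) : ℤ) * |v a| := by
          rw [← Finset.mul_sum]
          push_cast
          ring
      _ ≤ ∑ _a : Fin r, ∑ b, θ b * v b := Finset.sum_le_sum fun a _ => hv a
      _ = r * ∑ b, θ b * v b := by
          rw [Finset.sum_const, Finset.card_univ, Fintype.card_fin, nsmul_eq_mul]
  have h3 := le_of_mul_le_mul_left h2 hr'
  have h4 := mul_le_mul_of_nonneg_left h3 hY'.le
  have e : (Y : ℤ) * (2 * ∑ b, |v b|) = Y * ∑ b, |v b| + Y * ∑ b, |v b| := by ring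
  rw [e] at h4
  linarith

theorem bd {k : ℕ} (a : Fin k → ℕ) (x : Fin k → ℤ) (X : ℕ) (hx : ∀ j, |x j| ≤ X) (G v : ℤ)
    (hG : 0 < G) (hv : v ≠ 0) (h : G * v = ∑ j, (a j : ℤ) * x j) :
    G ≤ (∑ j, (a j : ℤ)) * X := by
  have h1 : G ≤ G * |v| := by
    have h2 : 1 ≤ |v| := Int.one_le_abs hv
    have h3 := mul_le_mul_of_nonneg_left h2 hG.le
    linarith
  have h2 : G * |v| = |∑ j, (a j : ℤ) * x j| := by
    rw [← h, abs_mul, abs_of_pos hG]
  rw [h2] at h1
  refine h1.trans ((Finset.abs_sum_le_sum_abs _ _).trans ?_)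
  rw [Finset.sum_mul]
  refine Finset.sum_le_sum fun j _ => ?_
  rw [abs_mul, Nat.abs_cast]
  exact mul_le_mul_of_nonneg_left (hx j) (Nat.cast_nonneg _)

theorem bal_theta {r k : ℕ} (hr : 1 ≤ r) (hk : 1 ≤ k) (H : ℕ) (hH : 1 ≤ H)
    (Θ : Fin k → Fin r → ℤ) :
    ∃ C : ℕ, ∀ (x y : Fin k → Fin r → ℤ) (ρ f : Fin r → ℤ) (X Y : ℕ)
      (A : Matrix (Fin k) (Fin k) ℕ), 1 ≤ X → 1 ≤ Y →
      (∀ i a, Θ i a = ((H * (3 * r + 1) : ℕ) : ℤ) * y i a / Y) →
      (∀ i j, (A i j : ℤ) = ∑ a, y i a * x j a) → (∀ j a, |x j a| ≤ X) →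
      (∀ i a, |y i a| ≤ Y) → (∀ i j, X * Y ≤ H * A i j) →
      (∀ a b, ∑ j, x j a * y j b = ρ a * f b) → (∀ j, 0 < ∑ a, f a * x j a) →
      (∀ i, 0 < ∑ a, y i a * ρ a) → C ≤ X * Y → Sse (toFin A) ⟨1, fun _ _ => A.trace⟩ := by
  classical
  by_cases hw : ∃ w : Fin r → ℤ, ∀ i a, ((2 * r : ℕ) : ℤ) * |w a| + 1 ≤ ∑ b, Θ i b * w b
  swap
  · refine ⟨0, fun x y ρ f X Y A hX hY hΘ hA hx hy hXY hφ hf hρ hC =>
      absurd ⟨x ⟨0, hk⟩, fun i a => ?_⟩ hw⟩
    have h1 := mar hY (Θ i) (y i) (x ⟨0, hk⟩) (hΘ i) (hx _) (by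
      rw [← hA]
      exact_mod_cast hXY i ⟨0, hk⟩) a
    have h2 : (1 : ℤ) ≤ X := by exact_mod_cast hX
    linarith
  obtain ⟨w, hw⟩ := hw
  have hCD := PT_CD hr hk (κ := 2 * r) (by omega) Θ w hw
  have hfg : (PT (2 * r) Θ).FG := PT_fg hk (by omega) Θ
  obtain ⟨m0, hm0⟩ := bal_abs hCD hfg (fg_dual hCD.ou hCD.hu hfg) (PT_sat Θ)
  obtain ⟨D0, hD0⟩ : ∃ D0 : ℕ, D0 = H * (3 * r + 1) := ⟨_, rfl⟩
  have hD1 : 1 ≤ D0 := by
    rw [hD0]
    exact Nat.one_le_iff_ne_zero.2 (Nat.mul_ne_zero (by omega) (by omega))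
  obtain ⟨C1, hC1⟩ : ∃ C1 : ℕ, C1 = k * D0 * D0 := ⟨_, rfl⟩
  have hC11 : 1 ≤ C1 := by
    rw [hC1]
    exact Nat.one_le_iff_ne_zero.2 (Nat.mul_ne_zero (Nat.mul_ne_zero (by omega) (by omega))
      (by omega))
  obtain ⟨C2, hC2⟩ : ∃ C2 : ℕ, 1 ≤ C2 ∧
      ∀ i a, ∑ b, Θ i b * w b + ((2 * r : ℕ) : ℤ) * |w a| ≤ C2 := by
    refine ⟨(∑ i : Fin k, ∑ a : Fin r, (∑ b, Θ i b * w b + ((2 * r : ℕ) : ℤ) * |w a|).toNat) + 1,
      by omega, fun i a => ?_⟩
    have h2 : (∑ b, Θ i b * w b + ((2 * r : ℕ) : ℤ) * |w a|).toNat ≤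
        ∑ a : Fin r, (∑ b, Θ i b * w b + ((2 * r : ℕ) : ℤ) * |w a|).toNat :=
      Finset.single_le_sum (f := fun a : Fin r =>
        (∑ b, Θ i b * w b + ((2 * r : ℕ) : ℤ) * |w a|).toNat)
        (fun _ _ => Nat.zero_le _) (Finset.mem_univ a)
    have h3 : ∑ a : Fin r, (∑ b, Θ i b * w b + ((2 * r : ℕ) : ℤ) * |w a|).toNat ≤
        ∑ i : Fin k, ∑ a : Fin r, (∑ b, Θ i b * w b + ((2 * r : ℕ) : ℤ) * |w a|).toNat :=
      Finset.single_le_sum (f := fun i : Fin k => ∑ a : Fin r,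
        (∑ b, Θ i b * w b + ((2 * r : ℕ) : ℤ) * |w a|).toNat) (fun _ _ => Nat.zero_le _)
        (Finset.mem_univ i)
    have h4 := Int.self_le_toNat (∑ b, Θ i b * w b + ((2 * r : ℕ) : ℤ) * |w a|)
    have h5 : (((∑ b, Θ i b * w b + ((2 * r : ℕ) : ℤ) * |w a|).toNat : ℕ) : ℤ) ≤
        (((∑ i : Fin k, ∑ a : Fin r, (∑ b, Θ i b * w b + ((2 * r : ℕ) : ℤ) * |w a|).toNat) + 1 :
          ℕ) : ℤ) := by
      exact_mod_cast (h2.trans h3).trans (Nat.le_succ _)
    exact h4.trans h5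
  refine ⟨(m0 * C1 * C2) ^ 2, fun x y ρ f X Y A hX hY hΘ hA hx hy hXY hφ hf hρ hC => ?_⟩
  have hY' : (0 : ℤ) < Y := by exact_mod_cast hY
  have hmar : ∀ i j a, ((2 * r : ℕ) : ℤ) * |x j a| + X ≤ ∑ b, Θ i b * x j b := by
    intro i j a
    refine mar hY (Θ i) (y i) (x j) (hΘ i) (hx j) ?_ a
    rw [← hA]
    exact_mod_cast hXY i j
  rw [← hD0] at hΘ
  have hdm : ∀ v ∈ PT (2 * r) Θ, ∀ i, (Y : ℤ) * ∑ b, |v b| ≤ D0 * ∑ b, y i b * v b :=
    fun v hv i => dmar hr hY (Θ i) (y i) v (hΘ i) (hv i)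
  have hΘb : ∀ i a, |Θ i a| ≤ D0 := by
    intro i a
    have h1 := abs_le.1 (hy i a)
    have hD' : (0 : ℤ) ≤ D0 := Nat.cast_nonneg _
    rw [hΘ, abs_le]
    constructor
    · refine Int.le_ediv_of_mul_le hY' ?_
      nlinarith [mul_le_mul_of_nonneg_left h1.1 hD']
    · refine Int.ediv_le_of_le_mul hY' ?_
      exact mul_le_mul_of_nonneg_left h1.2 hD'
  have hxP : ∀ j, x j ∈ PT (2 * r) Θ := by
    intro j i a
    have h1 := hmar i j a
    have h2 : (0 : ℤ) ≤ X := Nat.cast_nonneg _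
    linarith
  have hyP : ∀ i, dot (y i) ∈ dq (PT (2 * r) Θ) := by
    intro i v hv
    rw [dot_apply]
    have h1 := hdm v hv i
    have h2 : 0 ≤ (Y : ℤ) * ∑ b, |v b| :=
      mul_nonneg hY'.le (Finset.sum_nonneg fun b _ => abs_nonneg _)
    have hD' : (0 : ℤ) < D0 := by exact_mod_cast hD1
    exact nonneg_of_mul_nonneg_right (h2.trans h1) hD'
  let j0 : Fin k := ⟨0, hk⟩
  let z : Fin k → Pr (PT (2 * r) Θ) := fun j => (⟨x j, hxP j⟩, ⟨dot (y j), hyP j⟩)
  have hmt : mt z = A := by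
    ext i j
    show (dot (y i) (x j)).toNat = A i j
    rw [dot_apply, ← hA]
    exact Int.toNat_natCast _
  -- the two multiples
  have eρ : ∀ a, (∑ b, f b * x j0 b) * ρ a = ∑ j, (A j j0 : ℤ) * x j a := by
    intro a
    have e1 : ∑ j, (A j j0 : ℤ) * x j a = ∑ b, (∑ j, x j a * y j b) * x j0 b := by
      simp only [Finset.sum_mul]
      rw [Finset.sum_comm]
      refine Finset.sum_congr rfl fun j _ => ?_
      rw [hA, Finset.sum_mul]
      exact Finset.sum_congr rfl fun b _ => by ring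
    rw [e1, Finset.sum_mul]
    exact Finset.sum_congr rfl fun b _ => by
      rw [hφ]
      ring
  have ef : ∀ b, (∑ a, y j0 a * ρ a) * f b = ∑ j, (A j0 j : ℤ) * y j b := by
    intro b
    have e1 : ∑ j, (A j0 j : ℤ) * y j b = ∑ a, y j0 a * ∑ j, x j a * y j b := by
      simp only [Finset.mul_sum]
      rw [Finset.sum_comm]
      refine Finset.sum_congr rfl fun j _ => ?_
      rw [hA, Finset.sum_mul]
      exact Finset.sum_congr rfl fun a _ => by ring
    rw [e1, Finset.sum_mul]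
    exact Finset.sum_congr rfl fun a _ => by
      rw [hφ]
      ring
  have hρP : ρ ∈ PT (2 * r) Θ := by
    obtain ⟨G, hG⟩ := Int.eq_ofNat_of_zero_le (hf j0).le
    have hG1 : 1 ≤ G := by
      have := hf j0
      rw [hG] at this
      exact_mod_cast this
    refine PT_sat Θ G ρ hG1 ?_
    have h1 : G • ρ = ∑ j, A j j0 • x j := by
      funext a
      rw [Pi.smul_apply, nsmul_eq_mul, Finset.sum_apply]
      have h2 := eρ a
      rw [hG] at h2
      refine h2.trans (Finset.sum_congr rfl fun j _ => ?_)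
      rw [Pi.smul_apply, nsmul_eq_mul]
    rw [h1]
    exact (PT (2 * r) Θ).sum_mem fun j _ => (PT (2 * r) Θ).nsmul_mem (hxP j) _
  have hfP : dot f ∈ dq (PT (2 * r) Θ) := by
    obtain ⟨G, hG⟩ := Int.eq_ofNat_of_zero_le (hρ j0).le
    have hG1 : 1 ≤ G := by
      have := hρ j0
      rw [hG] at this
      exact_mod_cast this
    refine dq_sat G _ hG1 ?_
    have h1 : G • dot f = ∑ j, A j0 j • dot (y j) := by
      refine LinearMap.ext fun v => ?_
      rw [LinearMap.smul_apply, nsmul_eq_mul, LinearMap.sum_apply, dot_apply, Finset.mul_sum]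
      have e1 : ∀ j, (A j0 j • dot (y j)) v = ∑ b, (A j0 j : ℤ) * y j b * v b := by
        intro j
        rw [LinearMap.smul_apply, nsmul_eq_mul, dot_apply, Finset.mul_sum]
        exact Finset.sum_congr rfl fun b _ => by ring
      simp only [e1]
      rw [Finset.sum_comm]
      refine Finset.sum_congr rfl fun b _ => ?_
      have h2 := ef b
      rw [hG] at h2
      rw [← Finset.sum_mul, ← h2]
      show (G : ℤ) * (f b * v b) = (G : ℤ) * f b * v b
      ring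
    rw [h1]
    exact (dq (PT (2 * r) Θ)).sum_mem fun j _ => (dq (PT (2 * r) Θ)).nsmul_mem (hyP j) _
  have hcl : cl z = tm (⟨ρ, hρP⟩ : PT (2 * r) Θ) (⟨dot f, hfP⟩ : dq (PT (2 * r) Θ)) := by
    refine hm0 C1 C2 X Y k z j0 _ _ hC11 hC2.1 hX hY (fun j i a => ?_) (fun j v hv => ?_)
      (fun v => ?_) ?_ ?_ ?_ ?_ hC
    · -- the vectors are deep
      show ((2 * r : ℕ) : ℤ) * |(C2 • x j - X • w) a| ≤ ∑ b, Θ i b * (C2 • x j - X • w) b
      have e1 : ∑ b, Θ i b * (C2 • x j - X • w) b =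
          C2 * ∑ b, Θ i b * x j b - X * ∑ b, Θ i b * w b := by
        rw [Finset.mul_sum, Finset.mul_sum, ← Finset.sum_sub_distrib]
        refine Finset.sum_congr rfl fun b _ => ?_
        rw [Pi.sub_apply, Pi.smul_apply, Pi.smul_apply, nsmul_eq_mul, nsmul_eq_mul]
        ring
      have e2 : |(C2 • x j - X • w) a| ≤ C2 * |x j a| + X * |w a| := by
        rw [Pi.sub_apply, Pi.smul_apply, Pi.smul_apply, nsmul_eq_mul, nsmul_eq_mul]
        refine (abs_sub _ _).trans ?_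
        rw [abs_mul, abs_mul, Nat.abs_cast, Nat.abs_cast]
      have e3 := mul_le_mul_of_nonneg_left e2 (Nat.cast_nonneg (α := ℤ) (2 * r))
      have e4 := mul_le_mul_of_nonneg_left (hmar i j a) (Nat.cast_nonneg (α := ℤ) C2)
      have e5 := mul_le_mul_of_nonneg_left (hC2.2 i a) (Nat.cast_nonneg (α := ℤ) X)
      rw [e1]
      nlinarith [e3, e4, e5]
    · -- the functionals are deep
      show 0 ≤ (C1 • dot (y j) - Y • ∑ i, dot (Θ i)) v
      rw [LinearMap.sub_apply, LinearMap.smul_apply, LinearMap.smul_apply, nsmul_eq_mul,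
        nsmul_eq_mul, dot_apply, LinearMap.sum_apply]
      have h1 : ∑ i, dot (Θ i) v ≤ k * (D0 * ∑ b, |v b|) := by
        calc ∑ i, dot (Θ i) v ≤ ∑ _i : Fin k, (D0 : ℤ) * ∑ b, |v b| := by
              refine Finset.sum_le_sum fun i _ => ?_
              rw [dot_apply, Finset.mul_sum]
              refine Finset.sum_le_sum fun b _ => ?_
              refine (le_abs_self _).trans ?_
              rw [abs_mul]
              exact mul_le_mul_of_nonneg_right (hΘb i b) (abs_nonneg _)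
          _ = k * (D0 * ∑ b, |v b|) := by
              rw [Finset.sum_const, Finset.card_univ, Fintype.card_fin, nsmul_eq_mul]
      have h2 := mul_le_mul_of_nonneg_left h1 hY'.le
      have h3 := mul_le_mul_of_nonneg_left (hdm v hv j)
        (by positivity : (0 : ℤ) ≤ (k : ℤ) * D0)
      have e1 : (C1 : ℤ) * ∑ a, y j a * v a = k * D0 * (D0 * ∑ a, y j a * v a) := by
        rw [hC1]
        push_cast
        ring
      have e2 : (Y : ℤ) * (k * (D0 * ∑ b, |v b|)) = k * D0 * (Y * ∑ b, |v b|) := by ring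
      rw [e1]
      rw [e2] at h2
      linarith
    · -- the endomorphism
      funext a
      rw [ph_apply, Finset.sum_apply]
      show ∑ j, (dot (y j) v • x j) a = (dot f v • ρ) a
      simp only [Pi.smul_apply, smul_eq_mul, dot_apply, Finset.sum_mul]
      rw [Finset.sum_comm]
      refine Finset.sum_congr rfl fun b _ => ?_
      have h1 := hφ a b
      calc ∑ j, y j b * v b * x j a = (∑ j, x j a * y j b) * v b := by
            rw [Finset.sum_mul]
            exact Finset.sum_congr rfl fun j _ => by ring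
        _ = f b * v b * ρ a := by
            rw [h1]
            ring
    · show 0 < dot f (x j0)
      rw [dot_apply]
      exact hf j0
    · show 0 < dot (y j0) ρ
      rw [dot_apply]
      exact hρ j0
    · rw [hmt]
      show dot f (x j0) ≤ _
      rw [dot_apply]
      obtain ⟨a, ha⟩ : ∃ a, ρ a ≠ 0 := by
        by_contra hcon
        push Not at hcon
        have h1 := hρ j0
        simp [hcon] at h1
      exact bd (fun j => A j j0) (fun j => x j a) X (fun j => hx j a) _ (ρ a) (hf j0) ha (eρ a)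
    · rw [hmt]
      show dot (y j0) ρ ≤ _
      rw [dot_apply]
      obtain ⟨b, hb⟩ : ∃ b, f b ≠ 0 := by
        by_contra hcon
        push Not at hcon
        have h1 := hf j0
        simp [hcon] at h1
      exact bd (fun j => A j0 j) (fun j => y j b) Y (fun j => hy j b) _ (f b) (hρ j0) hb (ef b)
  have hfin : cl z = cl (fun _ : Unit => ((⟨ρ, hρP⟩, ⟨dot f, hfP⟩) : Pr (PT (2 * r) Θ))) := by
    rw [cl_unit, hcl]
  have h1 := (FR_of_cl hfin).sse
  rw [hmt] at h1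
  have h2 := h1.trace
  rw [toFin_trace, toFin_trace] at h2
  rw [h2]
  exact h1.trans sse_unit

end Pool.Agent.WFS
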