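import Pool.Agent.WFS.Step

/-! # Descent

`descent`: if the endomorphism of `D` is nilpotent modulo `ℤ u`, then the families which are equivalent to
`q D + (q T) (u, c) + (u, g)` have matrices strong shift equivalent to a number.
-/

set_option autoImplicit false
set_option linter.unusedSectionVars false

namespace Pool.Agent.WFS

theorem Est.trace {X Y : Σ k : ℕ, Matrix (Fin k) (Fin k) ℕ} (h : Est X Y) :
    X.2.trace = Y.2.trace := by
  obtain ⟨R, S, h1, h2⟩ := h
  rw [h1, h2, Matrix.trace_mul_comm]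

theorem Sse.trace {X Y : Σ k : ℕ, Matrix (Fin k) (Fin k) ℕ} (h : Sse X Y) :
    X.2.trace = Y.2.trace := by
  induction h with
  | single h => exact h.trace
  | tail _ h2 ih => exact ih.trans h2.trace

theorem toFin_trace {ι : Type} [Fintype ι] (A : Matrix ι ι ℕ) : (toFin A).2.trace = A.trace :=
  Equiv.sum_comp (Fintype.equivFin ι).symm (fun i => A i i)

/-- there is a nonzero nonnegative eigenvector with eigenvalue `n` -/
def EV (n : ℕ) (X : Σ k : ℕ, Matrix (Fin k) (Fin k) ℕ) : Prop :=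
  ∃ v : Fin X.1 → ℕ, v ≠ 0 ∧ X.2.mulVec v = n • v

theorem Est.ev {n : ℕ} (hn : 1 ≤ n) {X Y : Σ k : ℕ, Matrix (Fin k) (Fin k) ℕ} (h : Est X Y)
    (hX : EV n X) : EV n Y := by
  obtain ⟨R, S, h1, h2⟩ := h
  obtain ⟨v, hv, hXv⟩ := hX
  refine ⟨S.mulVec v, fun h0 => hv ?_, ?_⟩
  · have h3 : R.mulVec (S.mulVec v) = n • v := by
      rw [Matrix.mulVec_mulVec, ← h1, hXv]
    rw [h0, Matrix.mulVec_zero] at h3
    funext i
    have h4 := congrFun h3 i
    simp only [Pi.zero_apply, Pi.smul_apply, smul_eq_mul] at h4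
    rcases mul_eq_zero.1 h4.symm with h5 | h5
    · omega
    · exact h5
  · rw [h2, ← Matrix.mulVec_mulVec, Matrix.mulVec_mulVec v R S, ← h1, hXv, Matrix.mulVec_smul]

theorem Sse.ev {n : ℕ} (hn : 1 ≤ n) {X Y : Σ k : ℕ, Matrix (Fin k) (Fin k) ℕ} (h : Sse X Y)
    (hX : EV n X) : EV n Y := by
  induction h with
  | single h => exact h.ev hn hX
  | tail _ h2 ih => exact h2.ev hn ih

theorem ev_one {n N : ℕ} (h : EV n ⟨1, fun _ _ => N⟩) : N = n := by
  obtain ⟨v, hv, h1⟩ := h
  have h2 : N * v 0 = n * v 0 := by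
    have h3 := congrFun h1 0
    have h4 : Matrix.mulVec (fun _ _ => N : Matrix (Fin 1) (Fin 1) ℕ) v 0 = N * v 0 := by
      show ∑ i : Fin 1, N * v i = N * v 0
      rw [Fin.sum_univ_one]
    exact h4.symm.trans h3
  have h3 : 0 < v 0 := by
    rcases Nat.eq_zero_or_pos (v 0) with h4 | h4
    · exfalso
      apply hv
      funext i
      rw [Subsingleton.elim i 0, h4]
      rfl
    · exact h4
  exact Nat.eq_of_mul_eq_mul_right h3 h2

section

variable {L : Type} [AddCommGroup L] {P : AddSubmonoid L} {u : L} {c : Module.Dual ℤ L}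

theorem base (h : CD P u c) (hL : ∀ x : L, ∃ k : ℤ, x = k • u) {ι : Type} [Fintype ι]
    (z : ι → Pr P) : Sse (toFin (mt z)) ⟨1, fun _ _ => (mt z).trace⟩ := by
  choose k hk using fun j => hL (z j).1.1
  have hcu := h.pos
  have hk0 : ∀ j, 0 ≤ k j := by
    intro j
    have h1 : (0 : ℤ) ≤ c (z j).1.1 := h.hc _ (z j).1.2
    rw [hk j, map_zsmul, smul_eq_mul] at h1
    exact nonneg_of_mul_nonneg_left h1 hcu
  have hy0 : ∀ i, 0 ≤ (z i).2.1 u := fun i => (z i).2.2 u h.hu
  have h1 : Est (toFin (mt z)) (toFin (fun _ _ => (mt z).trace : Matrix (Fin 1) (Fin 1) ℕ)) := by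
    refine est_toFin (fun i _ => ((z i).2.1 u).toNat) (fun _ j => (k j).toNat) ?_ ?_
    · ext i j
      apply Nat.cast_injective (R := ℤ)
      rw [mt_coe, Matrix.mul_apply, Fin.sum_univ_one]
      push_cast
      rw [Int.toNat_of_nonneg (hy0 i), Int.toNat_of_nonneg (hk0 j)]
      rw [hk j, map_zsmul, smul_eq_mul, mul_comm]
    · ext i j
      apply Nat.cast_injective (R := ℤ)
      rw [Matrix.mul_apply]
      unfold Matrix.trace
      push_cast
      refine Finset.sum_congr rfl fun l _ => ?_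
      show ((mt z l l : ℕ) : ℤ) = _
      rw [mt_coe, Int.toNat_of_nonneg (hy0 l), Int.toNat_of_nonneg (hk0 l)]
      conv_lhs => rw [hk l]
      rw [map_zsmul, smul_eq_mul]
  exact h1.sse.trans (sse_toFin_fin _).symm

theorem pow_mod (φ ψ : L →ₗ[ℤ] L) {a : ℤ} (hφ : φ u = a • u) {d : Module.Dual ℤ L}
    (h : ∀ v, ψ v = φ v + (d v) • u) (s : ℕ) (x : L) :
    ∃ k : ℤ, (ψ ^ s) x = (φ ^ s) x + k • u := by
  induction s with
  | zero => exact ⟨0, by simp⟩
  | succ s ih =>
    obtain ⟨k, hk⟩ := ih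
    refine ⟨d ((φ ^ s) x) + k * (a + d u), ?_⟩
    rw [pow_succ', pow_succ', Module.End.mul_apply, Module.End.mul_apply, hk, map_add, h, map_smul, h u,
      hφ]
    module

theorem pow_u (φ : L →ₗ[ℤ] L) {a : ℤ} (hφ : φ u = a • u) (s : ℕ) :
    ∃ k : ℤ, (φ ^ s) u = k • u := by
  induction s with
  | zero => exact ⟨1, by simp⟩
  | succ s ih =>
    obtain ⟨k, hk⟩ := ih
    refine ⟨k * a, ?_⟩
    rw [pow_succ', Module.End.mul_apply, hk, map_smul, hφ, smul_smul]

end

theorem descent (s : ℕ) : ∀ (L : Type) [AddCommGroup L] [Module.Free ℤ L] [Module.Finite ℤ L]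
    (P : AddSubmonoid L) (u : L) (c : Module.Dual ℤ L) (h : CD P u c) (ι : Type) [Fintype ι]
    (D : ι → Pr P), (∃ a : ℤ, ph D u = a • u) → (∀ x, ∃ k : ℤ, ((ph D) ^ s) x = k • u) →
    ∃ T : ℕ, ∀ (κ : Type) [Fintype κ] (z : κ → Pr P) (q : ℕ) (g : dq P),
      cl z = q • cl D + (q * T) • tm ⟨u, h.hu⟩ ⟨c, h.hc⟩ + tm ⟨u, h.hu⟩ g →
      Sse (toFin (mt z)) ⟨1, fun _ _ => (mt z).trace⟩ := by
  induction s with
  | zero =>
    intro L _ _ _ P u c h ι _ D _ h2
    refine ⟨0, fun κ _ z q g _ => base h (fun x => ?_) z⟩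
    obtain ⟨k, hk⟩ := h2 x
    exact ⟨k, hk⟩
  | succ s ih =>
    intro L _ _ _ P u c h ι _ D h1 h2
    obtain ⟨a, ha⟩ := h1
    let L' : AddSubgroup L :=
      (AddSubgroup.zmultiples u).comap (((ph D) ^ s : Module.End ℤ L)).toAddMonoidHom
    have hmem : ∀ x, x ∈ L' ↔ ∃ k : ℤ, ((ph D) ^ s) x = k • u := by
      intro x
      constructor
      · rintro ⟨k, hk⟩
        exact ⟨k, hk.symm⟩
      · rintro ⟨k, hk⟩
        exact ⟨k, hk.symm⟩
    have hu' : u ∈ L' := (hmem u).2 (pow_u _ ha s)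
    have hD' : ∀ v, ph D v ∈ L' := by
      intro v
      rw [hmem]
      obtain ⟨k, hk⟩ := h2 v
      refine ⟨k, ?_⟩
      rw [pow_succ, Module.End.mul_apply] at hk
      exact hk
    obtain ⟨κ, _, E, hE, m, hcl, hph⟩ := step h D L' hu' hD'
    have hph' : ∀ v, ph E v = ph D v + (((m : ℤ) • c) v) • u := hph
    let E' := restr L' E hE
    have h' := h.restr L' hu'
    have hfin : Module.Finite ℤ ↥L' :=
      Module.Finite.of_injective L'.subtype.toIntLinearMap L'.subtype_injective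
    have hfree : Module.Free ℤ ↥L' := by
      have : Module.IsTorsionFree ℤ ↥L' :=
        L'.subtype_injective.moduleIsTorsionFree _ (fun _ _ => rfl)
      exact Module.free_of_finite_type_torsion_free'
    obtain ⟨T', hT'⟩ := ih ↥L' (cone' P L') ⟨u, hu'⟩ (res L' c) h' κ E'
      ⟨a + m * c u, by
        apply Subtype.ext
        rw [ph_restr]
        show ph E u = (a + m * c u) • u
        rw [hph, ha]
        module⟩
      (by
        intro x
        obtain ⟨k1, hk1⟩ := (hmem x.1).1 x.2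
        obtain ⟨k2, hk2⟩ := pow_mod (ph D) (ph E) ha hph' s x.1
        refine ⟨k1 + k2, ?_⟩
        apply Subtype.ext
        rw [ph_restr_pow, hk2, hk1]
        show _ = (k1 + k2) • u
        module)
    refine ⟨m + T', fun κ2 _ z q g hz => ?_⟩
    let z' : κ ⊕ Unit → Pr P := Sum.elim (fun j => (q • (E j).1, (E j).2))
      (fun _ => (⟨u, h.hu⟩, (q * T') • ⟨c, h.hc⟩ + g))
    have hz' : ∀ i, ((z' i).1 : L) ∈ L' := by
      rintro (j | j)
      · show ((q • (E j).1 : P) : L) ∈ L'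
        rw [AddSubmonoidClass.coe_nsmul]
        exact L'.nsmul_mem (hE j) _
      · exact hu'
    have hclz : cl z = cl z' := by
      have e1 : cl z' = q • cl E + ((q * T') • tm ⟨u, h.hu⟩ ⟨c, h.hc⟩ + tm ⟨u, h.hu⟩ g) := by
        show cl (Sum.elim _ _) = _
        rw [cl_sum, cl_unit, tm_add_right, tm_nsmul_right]
        congr 1
        unfold cl
        rw [Finset.smul_sum]
        exact Finset.sum_congr rfl fun j _ => tm_nsmul_left _ _ _
      rw [hz, e1, ← hcl, smul_add, ← mul_smul, mul_add, add_smul]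
      abel
    have hs1 : Sse (toFin (mt z)) (toFin (mt z')) := (FR_of_cl hclz).sse
    have hcl2 : cl (restr L' z' hz') = q • cl E' + (q * T') • tm ⟨⟨u, hu'⟩, h'.hu⟩ ⟨res L' c, h'.hc⟩ +
        tm ⟨⟨u, hu'⟩, h'.hu⟩ ⟨res L' g.1, res_mem g.2⟩ := by
      rw [add_assoc, ← tm_nsmul_right, ← tm_add_right]
      unfold cl
      rw [Fintype.sum_sum_type, Finset.smul_sum]
      congr 1
      refine Finset.sum_congr rfl fun j _ => ?_
      rw [← tm_nsmul_left]
      rfl
    have hs2 := hT' _ (restr L' z' hz') q ⟨res L' g.1, res_mem g.2⟩ hcl2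
    have ht : (mt z).trace = (mt z').trace := by
      have := hs1.trace
      rw [toFin_trace, toFin_trace] at this
      exact this
    rw [ht]
    exact hs1.trans hs2

end Pool.Agent.WFS
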