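import Pool.Agent.WFS.Mon

/-! # Extension of bilinear maps from cones to groups; equality after stabilisation

`stab`: two families with the same endomorphism `∑ y_i(·) x_i` become equal in `Tm P` after adding a multiple of
`tm u c`.
-/

set_option autoImplicit false
set_option linter.unusedSectionVars false

namespace Pool.Agent.WFS

section ext

variable {X G : Type*} [AddCommGroup X] [AddCommGroup G] {Q : AddSubmonoid X} {q : X}

theorem ext_aux (hq : q ∈ Q) (f : ↥Q →+ G) {x y : X} {m m' : ℕ} (h : x + m • q ∈ Q)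
    (h' : y + m' • q ∈ Q) (hxy : x = y) :
    f ⟨x + m • q, h⟩ - m • f ⟨q, hq⟩ = f ⟨y + m' • q, h'⟩ - m' • f ⟨q, hq⟩ := by
  subst hxy
  rw [sub_eq_sub_iff_add_eq_add, ← map_nsmul, ← map_nsmul, ← map_add, ← map_add]
  congr 1
  apply Subtype.ext
  show x + m • q + m' • q = x + m' • q + m • q
  abel

/-- extension of an additive map from a monoid with an order unit to the group -/
noncomputable def ex (hq : q ∈ Q) (hu : ∀ x : X, ∃ m : ℕ, x + m • q ∈ Q) :
    (↥Q →+ G) →+ (X →+ G) where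
  toFun f :=
    { toFun := fun x => f ⟨x + (hu x).choose • q, (hu x).choose_spec⟩ - (hu x).choose • f ⟨q, hq⟩
      map_zero' := by
        have h0 : (0 : X) + 0 • q ∈ Q := by
          rw [zero_smul, add_zero]
          exact Q.zero_mem
        rw [ext_aux hq f (hu 0).choose_spec h0 rfl]
        have : (⟨(0 : X) + 0 • q, h0⟩ : ↥Q) = 0 := Subtype.ext (by simp)
        rw [this, map_zero, zero_smul, sub_zero]
      map_add' := by
        intro x y
        have h1 : x + y + ((hu x).choose + (hu y).choose) • q ∈ Q := by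
          have := Q.add_mem (hu x).choose_spec (hu y).choose_spec
          rw [add_smul]
          convert this using 1
          abel
        rw [ext_aux hq f (hu (x + y)).choose_spec h1 rfl]
        have h2 : (⟨x + y + ((hu x).choose + (hu y).choose) • q, h1⟩ : ↥Q) =
            ⟨x + (hu x).choose • q, (hu x).choose_spec⟩ +
              ⟨y + (hu y).choose • q, (hu y).choose_spec⟩ := by
          apply Subtype.ext
          show x + y + ((hu x).choose + (hu y).choose) • q =
            x + (hu x).choose • q + (y + (hu y).choose • q)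
          rw [add_smul]
          abel
        rw [h2, map_add, add_smul]
        abel }
  map_zero' := by
    ext x
    simp
  map_add' := by
    intro f g
    ext x
    simp only [AddMonoidHom.add_apply, AddMonoidHom.coe_mk, ZeroHom.coe_mk, smul_add]
    abel

theorem ex_apply (hq : q ∈ Q) (hu : ∀ x : X, ∃ m : ℕ, x + m • q ∈ Q) (f : ↥Q →+ G) (x : ↥Q) :
    ex hq hu f x.1 = f x := by
  have h0 : x.1 + 0 • q ∈ Q := by
    rw [zero_smul, add_zero]
    exact x.2
  have h1 := ext_aux hq f (hu x.1).choose_spec h0 rfl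
  have h2 : (⟨x.1 + 0 • q, h0⟩ : ↥Q) = x := Subtype.ext (by simp)
  rw [h2, zero_smul, sub_zero] at h1
  exact h1

end ext

variable {L : Type} [AddCommGroup L]

/-- a cone with order units in the cone and in its dual -/
structure CD (P : AddSubmonoid L) (u : L) (c : Module.Dual ℤ L) : Prop where
  hu : u ∈ P
  hc : c ∈ dq P
  ou : ∀ x : L, ∃ m : ℕ, x + m • u ∈ P
  oc : ∀ y : Module.Dual ℤ L, ∃ m : ℕ, y + m • c ∈ dq P
  pos : 0 < c u

variable {P : AddSubmonoid L} {u : L} {c : Module.Dual ℤ L}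

/-- the extension of `tm` to a bilinear map on the groups -/
noncomputable def bil (h : CD P u c) :
    L →+ (Module.Dual ℤ L →+ Algebra.GrothendieckAddGroup (Tm P)) :=
  ex h.hu h.ou ((ex h.hc h.oc).comp
    ((AddMonoidHom.compHom (Algebra.GrothendieckAddGroup.of (M := Tm P))).comp (tmHom P)))

theorem bil_apply (h : CD P u c) (x : P) (y : dq P) :
    bil h x.1 y.1 = Algebra.GrothendieckAddGroup.of (tm x y) := by
  unfold bil
  rw [ex_apply]
  exact ex_apply h.hc h.oc _ y

/-- the endomorphism of a family -/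
noncomputable def ph {ι : Type} [Fintype ι] (z : ι → Pr P) : L →ₗ[ℤ] L :=
  ∑ i, (z i).2.1.smulRight (z i).1.1

theorem ph_apply {ι : Type} [Fintype ι] (z : ι → Pr P) (v : L) :
    ph z v = ∑ i, (z i).2.1 v • (z i).1.1 := by
  unfold ph
  rw [LinearMap.sum_apply]
  rfl

theorem of_cl (h : CD P u c) {ι κ : Type} [Fintype ι] [Fintype κ] (b : Module.Basis κ ℤ L)
    (z : ι → Pr P) :
    Algebra.GrothendieckAddGroup.of (cl z) = ∑ k, bil h (ph z (b k)) (b.coord k) := by
  classical
  unfold cl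
  rw [map_sum]
  have h1 : ∀ i, (Algebra.GrothendieckAddGroup.of (tm (z i).1 (z i).2) :
      Algebra.GrothendieckAddGroup (Tm P)) =
      ∑ k, bil h ((z i).2.1 (b k) • (z i).1.1) (b.coord k) := by
    intro i
    rw [← bil_apply h]
    conv_lhs => rw [← Module.Basis.sum_dual_apply_smul_coord b (z i).2.1]
    rw [map_sum]
    refine Finset.sum_congr rfl fun k _ => ?_
    rw [map_zsmul, map_zsmul]
    rfl
  simp_rw [h1]
  rw [Finset.sum_comm]
  refine Finset.sum_congr rfl fun k _ => ?_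
  rw [ph_apply, map_sum, AddMonoidHom.finsetSum_apply]

theorem tm_nsmul_left (m : ℕ) (x : P) (y : dq P) : tm (m • x) y = m • tm x y := by
  rw [← tmHom_apply, map_nsmul, AddMonoidHom.nsmul_apply, tmHom_apply]

theorem tm_nsmul_right (m : ℕ) (x : P) (y : dq P) : tm x (m • y) = m • tm x y := by
  rw [← tmHom_apply, map_nsmul, tmHom_apply]

theorem absorb (h : CD P u c) (t : Tm P) :
    ∃ (m : ℕ) (t' : Tm P), t + t' = m • tm ⟨u, h.hu⟩ ⟨c, h.hc⟩ := by
  induction t using AddCon.induction_on with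
  | H a =>
  induction a using FreeAddMonoid.inductionOn' with
  | zero => exact ⟨0, 0, by simp⟩
  | of_add p a ih =>
    obtain ⟨m, t', ht⟩ := ih
    obtain ⟨x, y⟩ := p
    obtain ⟨m1, h1⟩ := h.ou (-x.1)
    obtain ⟨m2, h2⟩ := h.oc (-y.1)
    have e1 : x + ⟨-x.1 + m1 • u, h1⟩ = m1 • (⟨u, h.hu⟩ : P) := by
      apply Subtype.ext
      show x.1 + (-x.1 + m1 • u) = m1 • u
      abel
    have e2 : y + ⟨-y.1 + m2 • c, h2⟩ = m2 • (⟨c, h.hc⟩ : dq P) := by
      apply Subtype.ext
      show y.1 + (-y.1 + m2 • c) = m2 • c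
      abel
    refine ⟨m2 * m1 + m, tm ⟨-x.1 + m1 • u, h1⟩ y + tm (m1 • ⟨u, h.hu⟩) ⟨-y.1 + m2 • c, h2⟩ + t', ?_⟩
    rw [AddCon.coe_add]
    have e3 : tm x y + (tm ⟨-x.1 + m1 • u, h1⟩ y + tm (m1 • ⟨u, h.hu⟩) ⟨-y.1 + m2 • c, h2⟩) =
        (m2 * m1) • tm (⟨u, h.hu⟩ : P) (⟨c, h.hc⟩ : dq P) := by
      rw [← add_assoc, ← tm_add_left, e1, ← tm_add_right, e2]
      rw [tm_nsmul_right, tm_nsmul_left, ← mul_smul]
    rw [add_smul, ← e3, ← ht]
    show tm x y + _ + _ = _
    abel

theorem stab [Module.Free ℤ L] [Module.Finite ℤ L] (h : CD P u c) {ι κ : Type} [Fintype ι]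
    [Fintype κ] (z : ι → Pr P) (w : κ → Pr P) (hzw : ph z = ph w) :
    ∃ m : ℕ, cl z + m • tm ⟨u, h.hu⟩ ⟨c, h.hc⟩ = cl w + m • tm ⟨u, h.hu⟩ ⟨c, h.hc⟩ := by
  have h1 := of_cl h (Module.Free.chooseBasis ℤ L) z
  rw [hzw, ← of_cl h (Module.Free.chooseBasis ℤ L) w] at h1
  have h2 := (AddLocalization.addMonoidOf (⊤ : AddSubmonoid (Tm P))).eq_iff_exists.1 h1
  obtain ⟨⟨t, _⟩, ht⟩ := h2
  obtain ⟨m, t', htt⟩ := absorb h t
  refine ⟨m, ?_⟩
  have ht' : t + cl z = t + cl w := ht
  rw [← htt]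
  calc cl z + (t + t') = (t + cl z) + t' := by abel
    _ = (t + cl w) + t' := by rw [ht']
    _ = cl w + (t + t') := by abel

end Pool.Agent.WFS
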