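import Pool.Agent.WFS.Desc

/-! # Descent for a finite set of families with a common flag

`Fil φ u j` is the set of the vectors which are mapped into `ℤ u` by all products of `j` maps `φ a`.
-/

set_option autoImplicit false
set_option linter.unusedSectionVars false

namespace Pool.Agent.WFS

variable {L : Type} [AddCommGroup L] {P : AddSubmonoid L} {u : L} {c : Module.Dual ℤ L}

/-- the vectors which are mapped into `ℤ u` by all products of `j` maps `φ a` -/
def Fil {α : Type} (φ : α → Module.End ℤ L) (u : L) : ℕ → AddSubgroup L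
  | 0 => AddSubgroup.zmultiples u
  | j + 1 => ⨅ a, (Fil φ u j).comap (φ a).toAddMonoidHom

theorem mem_Fil_zero {α : Type} {φ : α → Module.End ℤ L} {x : L} :
    x ∈ Fil φ u 0 ↔ ∃ k : ℤ, x = k • u := by
  constructor
  · rintro ⟨k, hk⟩
    exact ⟨k, hk.symm⟩
  · rintro ⟨k, hk⟩
    exact ⟨k, hk.symm⟩

theorem mem_Fil_succ {α : Type} {φ : α → Module.End ℤ L} {j : ℕ} {x : L} :
    x ∈ Fil φ u (j + 1) ↔ ∀ a, φ a x ∈ Fil φ u j := by
  show x ∈ (⨅ a, (Fil φ u j).comap (φ a).toAddMonoidHom : AddSubgroup L) ↔ _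
  rw [AddSubgroup.mem_iInf]
  rfl

theorem u_mem_Fil {α : Type} {φ : α → Module.End ℤ L} (hφ : ∀ a, ∃ b : ℤ, φ a u = b • u)
    (j : ℕ) : u ∈ Fil φ u j := by
  induction j with
  | zero => exact mem_Fil_zero.2 ⟨1, (one_smul _ _).symm⟩
  | succ j ih =>
    rw [mem_Fil_succ]
    intro a
    obtain ⟨b, hb⟩ := hφ a
    rw [hb]
    exact (Fil φ u j).zsmul_mem ih b

theorem Fil_mod {α : Type} {φ ψ : α → Module.End ℤ L} (hφ : ∀ a, ∃ b : ℤ, φ a u = b • u)
    (d : α → Module.Dual ℤ L) (h : ∀ a v, ψ a v = φ a v + (d a v) • u) (j : ℕ) {x : L}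
    (hx : x ∈ Fil φ u j) : x ∈ Fil ψ u j := by
  have hψ : ∀ a, ∃ b : ℤ, ψ a u = b • u := by
    intro a
    obtain ⟨b, hb⟩ := hφ a
    refine ⟨b + d a u, ?_⟩
    rw [h, hb, add_smul]
  induction j generalizing x with
  | zero => exact hx
  | succ j ih =>
    rw [mem_Fil_succ] at hx ⊢
    intro a
    rw [h]
    exact (Fil ψ u j).add_mem (ih (hx a)) ((Fil ψ u j).zsmul_mem (u_mem_Fil hψ j) _)

theorem Fil_restr {α : Type} {ψ : α → Module.End ℤ L} (L' : AddSubgroup L) (hu : u ∈ L')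
    (ψ' : α → Module.End ℤ ↥L') (h : ∀ a (x : L'), (ψ' a x).1 = ψ a x.1) (j : ℕ) {x : L'}
    (hx : x.1 ∈ Fil ψ u j) : x ∈ Fil ψ' (⟨u, hu⟩ : L') j := by
  induction j generalizing x with
  | zero =>
    rw [mem_Fil_zero] at hx ⊢
    obtain ⟨k, hk⟩ := hx
    exact ⟨k, Subtype.ext hk⟩
  | succ j ih =>
    rw [mem_Fil_succ] at hx ⊢
    intro a
    apply ih
    rw [h]
    exact hx a

theorem descent' (s : ℕ) : ∀ (L : Type) [AddCommGroup L] [Module.Free ℤ L] [Module.Finite ℤ L]
    (P : AddSubmonoid L) (u : L) (c : Module.Dual ℤ L) (h : CD P u c) (α : Type) [Fintype α]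
    (ι : α → Type) [∀ a, Fintype (ι a)] (D : ∀ a, ι a → Pr P),
    (∀ a, ∃ b : ℤ, ph (D a) u = b • u) → (∀ x, x ∈ Fil (fun a => ph (D a)) u s) →
    ∃ T : ℕ, ∀ (κ : Type) [Fintype κ] (z : κ → Pr P) (q : α → ℕ) (g : dq P),
      cl z = ∑ a, q a • cl (D a) + ((∑ a, q a) * T) • tm ⟨u, h.hu⟩ ⟨c, h.hc⟩ + tm ⟨u, h.hu⟩ g →
      Sse (toFin (mt z)) ⟨1, fun _ _ => (mt z).trace⟩ := by
  induction s with
  | zero =>
    intro L _ _ _ P u c h α _ ι _ D _ h2
    exact ⟨0, fun κ _ z q g _ => base h (fun x => mem_Fil_zero.1 (h2 x)) z⟩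
  | succ s ih =>
    intro L _ _ _ P u c h α _ ι _ D h1 h2
    let L' : AddSubgroup L := Fil (fun a => ph (D a)) u s
    have hu' : u ∈ L' := u_mem_Fil h1 s
    have hD' : ∀ a v, ph (D a) v ∈ L' := fun a v => mem_Fil_succ.1 (h2 v) a
    choose κ fκ E hE m hcl hph using fun a => step h (D a) L' hu' (hD' a)
    have hb : ∀ a v, ph (E a) v = ph (D a) v + (((m a : ℤ) • c) v) • u := hph
    let E' : ∀ a, κ a → Pr (cone' P L') := fun a => restr L' (E a) (hE a)
    have h' := h.restr L' hu'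
    have hfin : Module.Finite ℤ ↥L' :=
      Module.Finite.of_injective L'.subtype.toIntLinearMap L'.subtype_injective
    have hfree : Module.Free ℤ ↥L' := by
      have : Module.IsTorsionFree ℤ ↥L' :=
        L'.subtype_injective.moduleIsTorsionFree _ (fun _ _ => rfl)
      exact Module.free_of_finite_type_torsion_free'
    obtain ⟨T', hT'⟩ := ih ↥L' (cone' P L') ⟨u, hu'⟩ (res L' c) h' α κ E'
      (by
        intro a
        obtain ⟨b, hb'⟩ := h1 a
        refine ⟨b + m a * c u, ?_⟩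
        apply Subtype.ext
        rw [ph_restr]
        show ph (E a) u = (b + m a * c u) • u
        rw [hph, hb']
        module)
      (by
        intro x
        refine Fil_restr (ψ := fun a => ph (E a)) L' hu' _ (fun a y => ph_restr L' (E a) (hE a) y)
          s ?_
        exact Fil_mod h1 (fun a => (m a : ℤ) • c) hb s x.2)
    refine ⟨∑ a, m a + T', fun κ2 _ z q g hz => ?_⟩
    let r : ℕ := ∑ a, q a * (∑ b, m b - m a)
    let z' : (Σ a, κ a) ⊕ Unit → Pr P := Sum.elim (fun j => (q j.1 • (E j.1 j.2).1, (E j.1 j.2).2))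
      (fun _ => (⟨u, h.hu⟩, ((∑ a, q a) * T') • ⟨c, h.hc⟩ + (r • ⟨c, h.hc⟩ + g)))
    have hz' : ∀ i, ((z' i).1 : L) ∈ L' := by
      rintro (j | j)
      · show ((q j.1 • (E j.1 j.2).1 : P) : L) ∈ L'
        rw [AddSubmonoidClass.coe_nsmul]
        exact L'.nsmul_mem (hE _ _) _
      · exact hu'
    have hle : ∀ a, m a ≤ ∑ b, m b := fun a =>
      Finset.single_le_sum (fun _ _ => Nat.zero_le _) (Finset.mem_univ a)
    have hr : (∑ a, q a) * (∑ b, m b) = ∑ a, q a * m a + r := by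
      show _ = _ + ∑ a, q a * (∑ b, m b - m a)
      rw [← Finset.sum_add_distrib, Finset.sum_mul]
      refine Finset.sum_congr rfl fun a _ => ?_
      rw [← mul_add]
      congr 1
      have := hle a
      omega
    have hclz : cl z = cl z' := by
      have e1 : cl z' = ∑ a, q a • cl (E a) + (((∑ a, q a) * T') • tm ⟨u, h.hu⟩ ⟨c, h.hc⟩ +
          (r • tm ⟨u, h.hu⟩ ⟨c, h.hc⟩ + tm ⟨u, h.hu⟩ g)) := by
        show cl (Sum.elim _ _) = _
        rw [cl_sum, cl_unit, tm_add_right, tm_add_right, tm_nsmul_right, tm_nsmul_right]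
        congr 1
        unfold cl
        rw [Fintype.sum_sigma]
        refine Finset.sum_congr rfl fun a _ => ?_
        rw [Finset.smul_sum]
        exact Finset.sum_congr rfl fun j _ => tm_nsmul_left _ _ _
      have e2 : ∑ a, q a • cl (E a) = ∑ a, q a • cl (D a) +
          (∑ a, q a * m a) • tm ⟨u, h.hu⟩ ⟨c, h.hc⟩ := by
        rw [Finset.sum_smul, ← Finset.sum_add_distrib]
        refine Finset.sum_congr rfl fun a _ => ?_
        rw [← hcl, smul_add, mul_smul]
      rw [hz, e1, e2, mul_add, add_smul, hr, add_smul]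
      abel
    have hs1 : Sse (toFin (mt z)) (toFin (mt z')) := (FR_of_cl hclz).sse
    let g' : dq (cone' P L') := ⟨res L' ((r • (⟨c, h.hc⟩ : dq P) + g : dq P) : Module.Dual ℤ L),
      res_mem (r • (⟨c, h.hc⟩ : dq P) + g : dq P).2⟩
    have hcl2 : cl (restr L' z' hz') = ∑ a, q a • cl (E' a) +
        ((∑ a, q a) * T') • tm ⟨⟨u, hu'⟩, h'.hu⟩ ⟨res L' c, h'.hc⟩ +
        tm ⟨⟨u, hu'⟩, h'.hu⟩ g' := by
      rw [add_assoc, ← tm_nsmul_right, ← tm_add_right]
      unfold cl
      rw [Fintype.sum_sum_type, Fintype.sum_sigma]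
      congr 1
      refine Finset.sum_congr rfl fun a _ => ?_
      rw [Finset.smul_sum]
      refine Finset.sum_congr rfl fun j _ => ?_
      rw [← tm_nsmul_left]
      rfl
    have hs2 := hT' _ (restr L' z' hz') q g' hcl2
    have ht : (mt z).trace = (mt z').trace := by
      have := hs1.trace
      rw [toFin_trace, toFin_trace] at this
      exact this
    rw [ht]
    exact hs1.trans hs2

end Pool.Agent.WFS
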