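import Pool.Agent.WFS.Uni

/-! # The cones of a lattice of integer vectors are finitely generated -/

set_option autoImplicit false
set_option linter.unusedSectionVars false

namespace Pool.Agent.WFS

/-- the cast to integer vectors -/
def castV (J : Type) : (J → ℕ) →+ (J → ℤ) where
  toFun n j := (n j : ℤ)
  map_zero' := by
    funext j
    simp
  map_add' := by
    intro n n'
    funext j
    simp

theorem fg_cone {k : ℕ} (L : AddSubgroup (Fin k → ℤ)) : (cone' (P0 k) L).FG := by
  let f : (Fin k → ℕ) →+ (Fin k → ℤ) ⧸ L := (QuotientAddGroup.mk' L).comp (castV (Fin k))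
  have hK : (f.eqLocusM 0).FG := AddSubmonoid.fg_eqLocusM f 0
  have hmem : ∀ n, n ∈ f.eqLocusM 0 ↔ castV (Fin k) n ∈ L := by
    intro n
    show f n = 0 ↔ _
    exact QuotientAddGroup.eq_zero_iff _
  let g : ↥(f.eqLocusM 0) →+ ↥L :=
    { toFun := fun n => ⟨castV (Fin k) n.1, (hmem n.1).1 n.2⟩
      map_zero' := Subtype.ext (map_zero _)
      map_add' := fun a b => Subtype.ext (map_add (castV (Fin k)) a.1 b.1) }
  have h1 : (⊤ : AddSubmonoid ↥(f.eqLocusM 0)).FG :=
    ((AddMonoid.fg_iff_addSubmonoid_fg _).2 hK).fg_top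
  have h2 := h1.map g
  have h3 : AddSubmonoid.map g ⊤ = cone' (P0 k) L := by
    ext x
    constructor
    · rintro ⟨n, -, rfl⟩
      show ∀ i, (0 : ℤ) ≤ (n.1 i : ℤ)
      exact fun i => Nat.cast_nonneg _
    · intro hx
      have hx' : ∀ i, 0 ≤ x.1 i := hx
      have h4 : castV (Fin k) (fun i => (x.1 i).toNat) = x.1 := by
        funext i
        exact Int.toNat_of_nonneg (hx' i)
      refine ⟨⟨fun i => (x.1 i).toNat, ?_⟩, trivial, ?_⟩
      · rw [hmem, h4]
        exact x.2
      · exact Subtype.ext h4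
  rw [h3] at h2
  exact h2

theorem fg_dual {L : Type} [AddCommGroup L] {P : AddSubmonoid L} {u : L}
    (ou : ∀ x : L, ∃ m : ℕ, x + m • u ∈ P) (hu : u ∈ P) (hP : P.FG) : (dq P).FG := by
  obtain ⟨S, hS⟩ := hP
  let ev : Module.Dual ℤ L →+ (↥S → ℤ) :=
    { toFun := fun y s => y s.1
      map_zero' := rfl
      map_add' := fun _ _ => rfl }
  have hpos : ∀ y : Module.Dual ℤ L, y ∈ dq P ↔ ∀ s : ↥S, 0 ≤ y s.1 := by
    intro y
    constructor
    · intro hy s
      refine hy _ ?_
      rw [← hS]
      exact AddSubmonoid.subset_closure s.2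
    · intro hy x hx
      rw [← hS] at hx
      induction hx using AddSubmonoid.closure_induction with
      | mem x hx => exact hy ⟨x, hx⟩
      | zero => rw [map_zero]
      | add x x' _ _ ih ih' =>
        rw [map_add]
        exact add_nonneg ih ih'
  have hinj : Function.Injective ev := by
    rw [injective_iff_map_eq_zero]
    intro y hy
    have h1 : ∀ s : ↥S, y s.1 = 0 := fun s => congrFun hy s
    have h2 : ∀ x ∈ P, y x = 0 := by
      intro x hx
      rw [← hS] at hx
      induction hx using AddSubmonoid.closure_induction with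
      | mem x hx => exact h1 ⟨x, hx⟩
      | zero => rw [map_zero]
      | add x x' _ _ ih ih' => rw [map_add, ih, ih', add_zero]
    ext x
    obtain ⟨m, hm⟩ := ou x
    have h3 := h2 _ hm
    rw [map_add, map_nsmul, h2 u hu, smul_zero, add_zero] at h3
    exact h3
  let f : (↥S → ℕ) →+ (↥S → ℤ) ⧸ ev.range := (QuotientAddGroup.mk' ev.range).comp (castV ↥S)
  have hK : (f.eqLocusM 0).FG := AddSubmonoid.fg_eqLocusM f 0
  have hmem : ∀ n, n ∈ f.eqLocusM 0 ↔ castV ↥S n ∈ ev.range := by
    intro n
    show f n = 0 ↔ _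
    exact QuotientAddGroup.eq_zero_iff _
  let g : ↥(f.eqLocusM 0) →+ Module.Dual ℤ L :=
    { toFun := fun n => (AddMonoidHom.ofInjective hinj).symm ⟨castV ↥S n.1, (hmem n.1).1 n.2⟩
      map_zero' := by
        rw [← (AddMonoidHom.ofInjective hinj).symm.map_zero]
        congr 1
      map_add' := by
        intro a b
        rw [← (AddMonoidHom.ofInjective hinj).symm.map_add]
        congr 1 }
  have hg : ∀ n s, (g n) (s : ↥S).1 = (n.1 s : ℤ) := by
    intro n s
    have h1 : ev (g n) = castV ↥S n.1 := by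
      have h2 := (AddMonoidHom.ofInjective hinj).apply_symm_apply
        ⟨castV ↥S n.1, (hmem n.1).1 n.2⟩
      exact congrArg Subtype.val h2
    exact congrFun h1 s
  have h1 : (⊤ : AddSubmonoid ↥(f.eqLocusM 0)).FG :=
    ((AddMonoid.fg_iff_addSubmonoid_fg _).2 hK).fg_top
  have h2 := h1.map g
  have h3 : AddSubmonoid.map g ⊤ = dq P := by
    ext y
    rw [hpos]
    constructor
    · rintro ⟨n, -, rfl⟩ s
      rw [hg]
      exact Nat.cast_nonneg _
    · intro hy
      have h4 : castV ↥S (fun s => (y s.1).toNat) = ev y := by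
        funext s
        exact Int.toNat_of_nonneg (hy s)
      refine ⟨⟨fun s => (y s.1).toNat, ?_⟩, trivial, ?_⟩
      · rw [hmem, h4]
        exact ⟨y, rfl⟩
      · apply hinj
        funext s
        rw [show ev (g _) s = g _ s.1 from rfl, hg]
        exact Int.toNat_of_nonneg (hy s)
  rw [h3] at h2
  exact h2

end Pool.Agent.WFS
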