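import Pool.Agent.WFS.LabDef

/-! # The automaton of the longest suffix in a prefix closed set of paths

A path of the automaton `f : V → Fin n → V` is a pair `(v, u)` of a vertex and a word. `P` is a prefix closed set of
paths of bounded length which contains the empty paths. State = longest suffix of the path read so far which is in
`P`. The automaton is a definite covering of `f`.
-/

set_option autoImplicit false

namespace Pool.Agent.WFS

theorem act_append {Q : Type} {n : ℕ} (δ : Q → Fin n → Q) (q : Q) (u w : List (Fin n)) :
    act δ q (u ++ w) = act δ (act δ q u) w := List.foldl_append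

/-- the suffix of the path `(v, u)` which begins after `i` letters -/
def suf {V : Type} {n : ℕ} (f : V → Fin n → V) (v : V) (u : List (Fin n)) (i : ℕ) :
    V × List (Fin n) := (act f v (u.take i), u.drop i)

theorem suf_zero {V : Type} {n : ℕ} (f : V → Fin n → V) (v : V) (u : List (Fin n)) :
    suf f v u 0 = (v, u) := by simp [suf, act]

theorem act_suf {V : Type} {n : ℕ} (f : V → Fin n → V) (v : V) (u : List (Fin n)) (i : ℕ) :
    act f (suf f v u i).1 (suf f v u i).2 = act f v u := by
  show act f (act f v (u.take i)) (u.drop i) = _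
  rw [← act_append, List.take_append_drop]

theorem suf_suf {V : Type} {n : ℕ} (f : V → Fin n → V) (v : V) (u : List (Fin n)) (i j : ℕ) :
    suf f (suf f v u i).1 (suf f v u i).2 j = suf f v u (i + j) := by
  show (act f (act f v (u.take i)) ((u.drop i).take j), (u.drop i).drop j) =
    (act f v (u.take (i + j)), u.drop (i + j))
  rw [← act_append, List.take_add, List.drop_drop]

theorem suf_append {V : Type} {n : ℕ} (f : V → Fin n → V) (v : V) (u w : List (Fin n)) (i : ℕ)
    (h : i ≤ u.length) : suf f v (u ++ w) i = ((suf f v u i).1, (suf f v u i).2 ++ w) := by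
  show (act f v ((u ++ w).take i), (u ++ w).drop i) = (act f v (u.take i), u.drop i ++ w)
  rw [List.take_append_of_le_length h, List.drop_append_of_le_length h]

/-- prefix closed sets of paths of length at most `M` which contain the empty paths -/
structure Pref {V : Type} {n : ℕ} (P : V → List (Fin n) → Prop) (M : ℕ) : Prop where
  nil : ∀ v, P v []
  pre : ∀ v u a, P v (u ++ [a]) → P v u
  len : ∀ v u, P v u → u.length ≤ M

section

variable {V : Type} {n : ℕ} {f : V → Fin n → V} {P : V → List (Fin n) → Prop} {M : ℕ}

theorem Pref.pres (hP : Pref P M) (v : V) (u w : List (Fin n)) (h : P v (u ++ w)) : P v u := by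
  induction w using List.reverseRecOn with
  | nil => simpa using h
  | append_singleton w a ih =>
    refine ih (hP.pre v _ a ?_)
    rwa [List.append_assoc]

theorem Pref.ex (hP : Pref P M) (f : V → Fin n → V) (v : V) (u : List (Fin n)) :
    ∃ i, P (suf f v u i).1 (suf f v u i).2 :=
  ⟨u.length, by
    show P _ (u.drop u.length)
    rw [List.drop_length]
    exact hP.nil _⟩

open Classical in
/-- the beginning of the longest suffix in `P` -/
noncomputable def li (f : V → Fin n → V) (hP : Pref P M) (v : V) (u : List (Fin n)) : ℕ :=
  Nat.find (hP.ex f v u)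

/-- the longest suffix in `P` -/
noncomputable def ls (f : V → Fin n → V) (hP : Pref P M) (v : V) (u : List (Fin n)) :
    V × List (Fin n) := suf f v u (li f hP v u)

theorem ls_mem (hP : Pref P M) (v : V) (u : List (Fin n)) :
    P (ls f hP v u).1 (ls f hP v u).2 := by
  classical
  exact Nat.find_spec (hP.ex f v u)

theorem li_min (hP : Pref P M) (v : V) (u : List (Fin n)) (i : ℕ) (h : i < li f hP v u) :
    ¬ P (suf f v u i).1 (suf f v u i).2 := by
  classical
  exact Nat.find_min (hP.ex f v u) h

theorem li_le (hP : Pref P M) (v : V) (u : List (Fin n)) (i : ℕ)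
    (h : P (suf f v u i).1 (suf f v u i).2) : li f hP v u ≤ i := by
  classical
  exact Nat.find_min' (hP.ex f v u) h

theorem li_le_length (hP : Pref P M) (v : V) (u : List (Fin n)) : li f hP v u ≤ u.length := by
  refine li_le hP v u _ ?_
  show P _ (u.drop u.length)
  rw [List.drop_length]
  exact hP.nil _

theorem li_eq (hP : Pref P M) (v : V) (u : List (Fin n)) (i : ℕ)
    (h : P (suf f v u i).1 (suf f v u i).2) (h' : ∀ j < i, ¬ P (suf f v u j).1 (suf f v u j).2) :
    li f hP v u = i := by
  refine le_antisymm (li_le hP v u i h) ?_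
  by_contra hc
  exact h' _ (not_le.1 hc) (ls_mem hP v u)

/-- a path in `P` is its own longest suffix -/
theorem ls_self (hP : Pref P M) (v : V) (u : List (Fin n)) (h : P v u) : ls f hP v u = (v, u) := by
  have h0 : li f hP v u = 0 := li_eq hP v u 0 (by rw [suf_zero]; exact h) (by intro j hj; omega)
  show suf f v u (li f hP v u) = _
  rw [h0, suf_zero]

theorem act_ls (hP : Pref P M) (v : V) (u : List (Fin n)) :
    act f (ls f hP v u).1 (ls f hP v u).2 = act f v u := act_suf f v u _

/-- if the suffix after `i` letters begins not later than the longest suffix in `P` then both paths have the same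
longest suffix -/
theorem ls_suf (hP : Pref P M) (v : V) (u : List (Fin n)) (i : ℕ) (h : i ≤ li f hP v u) :
    ls f hP (suf f v u i).1 (suf f v u i).2 = ls f hP v u := by
  have h1 : li f hP (suf f v u i).1 (suf f v u i).2 = li f hP v u - i := by
    refine li_eq hP _ _ _ ?_ ?_
    · rw [suf_suf, Nat.add_sub_cancel' h]
      exact ls_mem hP v u
    · intro j hj
      rw [suf_suf]
      exact li_min hP v u _ (by omega)
  show suf f _ _ (li f hP _ _) = suf f v u (li f hP v u)
  rw [h1, suf_suf, Nat.add_sub_cancel' h]

/-- the longest suffix of a longer path does not begin earlier -/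
theorem li_append (hP : Pref P M) (v : V) (u w : List (Fin n)) :
    li f hP v u ≤ li f hP v (u ++ w) := by
  by_cases h : li f hP v (u ++ w) ≤ u.length
  · refine li_le hP v u _ ?_
    have h1 := ls_mem (f := f) hP v (u ++ w)
    unfold ls at h1
    rw [suf_append f v u w _ h] at h1
    exact hP.pres _ _ _ h1
  · exact (li_le_length hP v u).trans (not_le.1 h).le

/-- (AC) -/
theorem ls_append (hP : Pref P M) (v : V) (u w : List (Fin n)) :
    ls f hP (ls f hP v u).1 ((ls f hP v u).2 ++ w) = ls f hP v (u ++ w) := by
  have h := ls_suf (f := f) hP v (u ++ w) (li f hP v u) (li_append hP v u w)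
  rw [suf_append f v u w _ (li_le_length hP v u)] at h
  exact h

/-- the states -/
def St (P : V → List (Fin n) → Prop) : Type := {q : V × List (Fin n) // P q.1 q.2}

/-- the transitions -/
noncomputable def dl (f : V → Fin n → V) (hP : Pref P M) (q : St P) (a : Fin n) : St P :=
  ⟨ls f hP q.1.1 (q.1.2 ++ [a]), ls_mem hP _ _⟩

/-- the vertex at the end -/
def en (f : V → Fin n → V) (q : St P) : V := act f q.1.1 q.1.2

theorem en_dl (hP : Pref P M) (q : St P) (a : Fin n) : en f (dl f hP q a) = f (en f q) a := by
  show act f (ls f hP q.1.1 (q.1.2 ++ [a])).1 (ls f hP q.1.1 (q.1.2 ++ [a])).2 = f (act f q.1.1 q.1.2) a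
  rw [act_ls, act_append]
  rfl

theorem act_dl (hP : Pref P M) (q : St P) (y : List (Fin n)) :
    (act (dl f hP) q y).1 = ls f hP q.1.1 (q.1.2 ++ y) := by
  induction y using List.reverseRecOn with
  | nil =>
    rw [List.append_nil, ls_self hP _ _ q.2]
    rfl
  | append_singleton y a ih =>
    rw [act_append]
    show ls f hP (act (dl f hP) q y).1.1 ((act (dl f hP) q y).1.2 ++ [a]) = _
    rw [ih, ls_append, List.append_assoc]

/-- after `M` letters the state only depends on the vertex at the beginning -/
theorem act_dl_eq (hP : Pref P M) (q q' : St P) (h : en f q = en f q') (y : List (Fin n))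
    (hy : M ≤ y.length) : act (dl f hP) q y = act (dl f hP) q' y := by
  have key : ∀ q : St P, (act (dl f hP) q y).1 = ls f hP (en f q) y := by
    intro q
    rw [act_dl]
    have hl : q.1.2.length ≤ li f hP q.1.1 (q.1.2 ++ y) := by
      have h1 := hP.len _ _ (ls_mem (f := f) hP q.1.1 (q.1.2 ++ y))
      have h2 := li_le_length (f := f) hP q.1.1 (q.1.2 ++ y)
      unfold ls suf at h1
      rw [List.length_drop, List.length_append] at h1
      rw [List.length_append] at h2
      omega
    have h3 := ls_suf (f := f) hP q.1.1 (q.1.2 ++ y) _ hl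
    rw [suf_append f _ _ _ _ le_rfl] at h3
    rw [← h3]
    have h4 : suf f q.1.1 q.1.2 q.1.2.length = (en f q, []) := by
      show (act f q.1.1 (q.1.2.take q.1.2.length), q.1.2.drop q.1.2.length) = _
      rw [List.take_length, List.drop_length]
      rfl
    rw [h4]
    rfl
  apply Subtype.ext
  rw [key, key, h]

theorem en_surjective (hP : Pref P M) : Function.Surjective (en (P := P) f) :=
  fun v => ⟨⟨(v, []), hP.nil v⟩, rfl⟩

theorem finite_St [Finite V] (hP : Pref P M) : Finite (St P) := by
  have h1 : (Set.univ ×ˢ {u : List (Fin n) | u.length ≤ M} : Set (V × List (Fin n))).Finite :=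
    Set.finite_univ.prod (List.finite_length_le (Fin n) M)
  exact (h1.subset fun q hq => ⟨trivial, hP.len _ _ hq⟩).to_subtype

/-- the automaton is strong shift equivalent to `f` -/
theorem sse_dl [Fintype V] [DecidableEq V] (hP : Pref P M) [Fintype (St P)] [DecidableEq (St P)] :
    Sse (toFin (adj (dl f hP))) (toFin (adj f)) :=
  sse_cover M (dl f hP) f (en f) (en_surjective hP) (en_dl hP)
    (fun q q' h y hy => act_dl_eq hP q q' h y hy.ge)

end

end Pool.Agent.WFS
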