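import Pool.Agent.WFS.LabC1b

/-! # Williams' conjecture for full shifts, module C (labelling), the function `b`

`exists_b`: the function `b` and the inverse `psi` of `Theta`, with everything the labelling needs.
-/

set_option autoImplicit false

namespace Pool.Agent.WFS.Lab

variable {V : Type} {n : ℕ} [NeZero n]

/-- the orbit relation -/
def orbSetoid (f : Fin n → V → V) : Setoid (V × (ℕ → Fin n)) where
  r z z' := (∃ i, (sg f)^[i] z = z') ∧ ∃ i, (sg f)^[i] z' = z
  iseqv := by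
    refine ⟨fun z => ⟨⟨0, rfl⟩, ⟨0, rfl⟩⟩, fun h => ⟨h.2, h.1⟩, ?_⟩
    rintro z z' z'' ⟨⟨i, hi⟩, ⟨j, hj⟩⟩ ⟨⟨i', hi'⟩, ⟨j', hj'⟩⟩
    refine ⟨⟨i' + i, ?_⟩, ⟨j + j', ?_⟩⟩
    · rw [Function.iterate_add_apply, hi, hi']
    · rw [Function.iterate_add_apply, hj', hj]

/-- the base point of the orbit -/
noncomputable def base (f : Fin n → V → V) (z : V × (ℕ → Fin n)) : V × (ℕ → Fin n) :=
  (Quotient.mk (orbSetoid f) z).out

theorem base_rel (f : Fin n → V → V) (z : V × (ℕ → Fin n)) :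
    (∃ i, (sg f)^[i] (base f z) = z) ∧ ∃ i, (sg f)^[i] z = base f z :=
  Quotient.exact (s := orbSetoid f) (Quotient.out_eq (Quotient.mk (orbSetoid f) z))

theorem base_iter {f : Fin n → V → V} {z : V × (ℕ → Fin n)} (hz : ∃ p, 0 < p ∧ (sg f)^[p] z = z)
    (i : ℕ) : base f ((sg f)^[i] z) = base f z := by
  classical
  have h : Quotient.mk (orbSetoid f) ((sg f)^[i] z) = Quotient.mk (orbSetoid f) z := by
    refine Quotient.sound (s := orbSetoid f) ⟨?_, ⟨i, rfl⟩⟩
    obtain ⟨p, hp, hpz⟩ := hz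
    refine ⟨p * i - i, ?_⟩
    rw [← Function.iterate_add_apply, Nat.sub_add_cancel (Nat.le_mul_of_pos_left i hp)]
    have := iter_add_mul hpz 0 i
    rw [zero_add] at this
    exact this
  simp only [base, h]

open Classical in
/-- the values of `b`: the first letter of `Theta` for short points; for a long point zero near
the base point of the orbit, else the letter itself -/
noncomputable def bfun (f : Fin n → V → V) (N k : ℕ) (e : V × (ℕ → Fin n) → (ℕ → Fin n))
    (z : V × (ℕ → Fin n)) : Fin n :=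
  if z ∈ PA f N k then e z 0
  else if ∃ i, i < k ∧ (sg f)^[i] (base f z) = z then 0 else z.2 0

theorem nu_short {f : Fin n → V → V} {N k : ℕ} {e : V × (ℕ → Fin n) → (ℕ → Fin n)}
    (he : ∀ z ∈ PA f N k, e (sg f z) = shift (e z)) {z : V × (ℕ → Fin n)} (hz : z ∈ PA f N k) :
    nu f (bfun f N k e) z = e z := by
  have h1 : ∀ i, e ((sg f)^[i] z) = shift^[i] (e z) := by
    intro i
    induction i with
    | zero => rfl
    | succ i ih =>
      rw [Function.iterate_succ_apply', Function.iterate_succ_apply', ← ih]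
      exact he _ (PA_sg_iter hz i)
  funext i
  show bfun f N k e ((sg f)^[i] z) = e z i
  rw [bfun, if_pos (PA_sg_iter hz i), h1, shift_iter]
  show e z (0 + i) = _
  rw [zero_add]

/-- the data of a long orbit: base point `z0`, least period `c ≥ N`, and the values of `b` -/
theorem long_data {f : Fin n → V → V} {N k : ℕ} (e : V × (ℕ → Fin n) → (ℕ → Fin n))
    {z : V × (ℕ → Fin n)} (hz : z ∈ Cyc f N k) (hz' : z ∉ PA f N k) (hkN : k ≤ N) :
    ∃ (y X : ℕ → Fin n) (c s t : ℕ), N ≤ c ∧ 0 < c ∧ s < c ∧ Av k y ∧ Per c X ∧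
      (∀ j, j < k → X j = 0) ∧ (∀ j, k ≤ j → j < c → X j = y j) ∧
      nu f (bfun f N k e) z = (fun i => X (i + s)) ∧
      X = fun i => nu f (bfun f N k e) z (i + t) := by
  classical
  obtain ⟨⟨u, hu⟩, ⟨t, ht⟩⟩ := base_rel f z
  have hz0 : base f z ∈ Cyc f N k := by rw [← ht]; exact Cyc.sg_iter hz t
  obtain ⟨p, hp, hpz⟩ := hz.2
  have hperz : ∀ i, ∃ q, 0 < q ∧ (sg f)^[q] ((sg f)^[i] z) = (sg f)^[i] z := fun i =>
    ⟨p, hp, by rw [← Function.iterate_add_apply, add_comm, Function.iterate_add_apply, hpz]⟩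
  have hb0 : ∀ i, base f ((sg f)^[i] z) = base f z := base_iter ⟨p, hp, hpz⟩
  -- no point of the orbit is short
  have hlong : ∀ i, (sg f)^[i] z ∉ PA f N k := by
    intro i hi
    obtain ⟨-, q, hq, hqN, h⟩ := hi
    refine hz' ⟨hz.1.1, q, hq, hqN, ?_⟩
    have e1 : (sg f)^[p * i] z = z := by
      have := iter_add_mul hpz 0 i
      rw [zero_add] at this
      exact this
    have e2 : (sg f)^[p * i - i] ((sg f)^[i] z) = z := by
      rw [← Function.iterate_add_apply, Nat.sub_add_cancel (Nat.le_mul_of_pos_left i hp)]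
      exact e1
    have e3 : (sg f)^[q] ((sg f)^[p * i - i] ((sg f)^[i] z)) =
        (sg f)^[p * i - i] ((sg f)^[i] z) := by
      rw [← Function.iterate_add_apply, add_comm, Function.iterate_add_apply, h]
    rwa [e2] at e3
  have hex : ∃ c, 0 < c ∧ (sg f)^[c] (base f z) = base f z := hz0.2
  obtain ⟨hc0, hc⟩ := Nat.find_spec hex
  have hmin : ∀ j, 0 < j → j < Nat.find hex → (sg f)^[j] (base f z) ≠ base f z :=
    fun j hj hjc h => Nat.find_min hex hjc ⟨hj, h⟩
  generalize Nat.find hex = c at hc0 hc hmin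
  have hcN : N ≤ c := by
    by_contra hlt
    refine hlong t ?_
    rw [ht]
    exact ⟨hz0.1.1, c, hc0, by omega, hc⟩
  set z0 := base f z with hz0def
  have hlong0 : ∀ i, (sg f)^[i] z0 ∉ PA f N k := by
    intro i
    rw [← ht, ← Function.iterate_add_apply]
    exact hlong _
  have hbase0 : ∀ i, base f ((sg f)^[i] z0) = z0 := by
    intro i
    rw [← ht, ← Function.iterate_add_apply, hb0, ← ht]
  have hX : ∀ j, nu f (bfun f N k e) z0 j =
      (if ∃ i, i < k ∧ (sg f)^[i] z0 = (sg f)^[j] z0 then 0 else z0.2 j) := by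
    intro j
    show bfun f N k e ((sg f)^[j] z0) = _
    rw [bfun, if_neg (hlong0 j), hbase0]
    congr 1
    rw [sg_iter]
    show z0.2 (0 + j) = _
    rw [zero_add]
  refine ⟨z0.2, nu f (bfun f N k e) z0, c, u % c, t, hcN, hc0, Nat.mod_lt _ hc0, hz0.1.1,
    ?_, ?_, ?_, ?_, ?_⟩
  · intro i
    show bfun f N k e ((sg f)^[i + c] z0) = bfun f N k e ((sg f)^[i] z0)
    rw [iter_add_period hc]
  · intro j hj
    rw [hX, if_pos ⟨j, hj, rfl⟩]
  · intro j hkj hjc
    rw [hX, if_neg]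
    rintro ⟨i, hi, h⟩
    have := iter_inj hc hmin (show i < c by omega) hjc h
    omega
  · have e1 : (sg f)^[u % c] z0 = z := by
      have := iter_add_mul hc (u % c) (u / c)
      rw [Nat.mod_add_div, hu] at this
      exact this.symm
    rw [← nu_shift_iter, e1]
  · rw [← nu_shift_iter, ht]

theorem long_not_per {k N c p : ℕ} {X y : ℕ → Fin n} (hk : 0 < k) (h3 : 3 * k ≤ N) (hc : N ≤ c)
    (hy : Av k y) (hX : Per c X) (h0 : ∀ j, j < k → X j = 0) (h1 : ∀ j, k ≤ j → j < c → X j = y j)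
    (hp : 0 < p) (hpN : p < N) (hXp : Per p X) : False := by
  obtain ⟨g, hg, hgc, hXg⟩ : ∃ g, 0 < g ∧ 2 * g ≤ c ∧ Per g X := by
    rcases Nat.lt_or_ge c (2 * p) with h | h
    · refine ⟨c - p, by omega, by omega, fun i => ?_⟩
      rw [← hXp, ← hX i]
      congr 1
      omega
    · exact ⟨p, hp, h, hXp⟩
  rcases Nat.lt_or_ge g k with h | h
  · have hz : ∀ i, X i = 0 := by
      intro i
      induction i using Nat.strong_induction_on with
      | _ i ih =>
        rcases Nat.lt_or_ge i k with hi | hi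
        · exact h0 i hi
        · have := hXg (i - g)
          rw [Nat.sub_add_cancel (by omega)] at this
          rw [this]
          exact ih _ (by omega)
    obtain ⟨j, hj, hne⟩ := hy k
    apply hne
    rw [← h1 (k + j) (by omega) (by omega)]
    exact hz _
  · obtain ⟨j, hj, hne⟩ := hy g
    apply hne
    rw [← h1 (g + j) (by omega) (by omega), add_comm, hXg]
    exact h0 j hj

theorem long_av {k N c s : ℕ} {X y : ℕ → Fin n} (h3 : 3 * k ≤ N) (hc : N ≤ c)
    (hy : Av k y) (hX : Per c X) (h1 : ∀ j, k ≤ j → j < c → X j = y j) :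
    Av (3 * k) (fun i => X (i + s)) := by
  intro i
  show ∃ j, j < 3 * k ∧ X (i + j + s) ≠ 0
  rcases Nat.eq_zero_or_pos k with hk | hk
  · subst hk
    obtain ⟨j, hj, -⟩ := hy 0
    omega
  have hc0 : 0 < c := by omega
  obtain ⟨q, r, hr, hqr⟩ : ∃ q r, r < c ∧ i + s = r + c * q :=
    ⟨(i + s) / c, (i + s) % c, Nat.mod_lt _ hc0, (Nat.mod_add_div _ _).symm⟩
  have key : ∀ j, X (i + j + s) = X (r + j) := by
    intro j
    rw [show i + j + s = (r + j) + c * q by omega]
    exact hX.mul q _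
  rcases Nat.lt_or_ge r k with hrk | hrk
  · obtain ⟨j, hj, hne⟩ := hy k
    refine ⟨k - r + j, by omega, ?_⟩
    rw [key, show r + (k - r + j) = k + j by omega, h1 _ (by omega) (by omega)]
    exact hne
  · rcases Nat.lt_or_ge c (r + k) with hrc | hrc
    · obtain ⟨j, hj, hne⟩ := hy k
      refine ⟨c - r + k + j, by omega, ?_⟩
      rw [key, show r + (c - r + k + j) = (k + j) + c by omega, hX, h1 _ (by omega) (by omega)]
      exact hne
    · obtain ⟨j, hj, hne⟩ := hy r
      refine ⟨j, by omega, ?_⟩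
      rw [key, h1 _ (by omega) (by omega)]
      exact hne

/-- **The function `b` and the map `psi`** of the labelling. -/
theorem exists_b [Fintype V] [DecidableEq V] (f : Fin n → V → V) {N k : ℕ} (hk : 0 < k)
    (h3 : 3 * k ≤ N) (hf : ∃ e, ∀ v, (f 0)^[k] v = e)
    (htr : ∀ m, 0 < m → (mat f ^ m).trace = n ^ m) :
    ∃ (b : V × (ℕ → Fin n) → Fin n) (psi : (ℕ → Fin n) → V × (ℕ → Fin n)),
      (∀ x ∈ (Pn N k : Set (ℕ → Fin n)), psi x ∈ Cyc f N k) ∧
      (∀ x ∈ (Pn N k : Set (ℕ → Fin n)), psi (shift x) = sg f (psi x)) ∧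
      (∀ x ∈ (Pn N k : Set (ℕ → Fin n)), nu f b (psi x) = x) ∧
      (∀ z ∈ Cyc f N k, (∃ p, 0 < p ∧ p < N ∧ Per p (nu f b z)) →
        nu f b z ∈ (Pn N k : Set (ℕ → Fin n)) ∧ z = psi (nu f b z)) ∧
      (∀ z ∈ Cyc f N k, Av (3 * k) (nu f b z)) := by
  obtain ⟨e, he, hes⟩ := exists_theta f hf htr N (k := k)
  have hne : Nonempty V := ⟨hf.choose⟩
  haveI : Nonempty (V × (ℕ → Fin n)) := ⟨(hf.choose, fun _ => 0)⟩
  have hinv := he.invOn_invFunOn
  have hmaps : ∀ x ∈ (Pn N k : Set (ℕ → Fin n)), Function.invFunOn e (PA f N k) x ∈ PA f N k :=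
    fun x hx => Function.invFunOn_mem (he.surjOn hx)
  have hright : ∀ x ∈ (Pn N k : Set (ℕ → Fin n)), e (Function.invFunOn e (PA f N k) x) = x :=
    fun x hx => hinv.2 hx
  have hleft : ∀ z ∈ PA f N k, Function.invFunOn e (PA f N k) (e z) = z := fun z hz => hinv.1 hz
  refine ⟨bfun f N k e, Function.invFunOn e (PA f N k), fun x hx => PA_sub f N k (hmaps x hx),
    ?_, ?_, ?_, ?_⟩
  · intro x hx
    refine he.injOn (hmaps _ (Pn.shift hx)) (PA_sg (hmaps x hx)) ?_
    rw [hright _ (Pn.shift hx), hes _ (hmaps x hx), hright x hx]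
  · intro x hx
    rw [nu_short hes (hmaps x hx), hright x hx]
  · rintro z hz ⟨p, hp, hpN, hper⟩
    by_cases hz' : z ∈ PA f N k
    · rw [nu_short hes hz']
      exact ⟨he.mapsTo hz', (hleft z hz').symm⟩
    · exfalso
      obtain ⟨y, X, c, s, t, hcN, hc0, hs, hy, hX, hX0, hX1, hn1, hn2⟩ :=
        long_data e hz hz' (by omega)
      refine long_not_per hk h3 hcN hy hX hX0 hX1 hp hpN ?_
      rw [hn2]
      exact hper.shift_iter t
  · intro z hz
    by_cases hz' : z ∈ PA f N k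
    · rw [nu_short hes hz']
      have h1 : Av k (e z) := (he.mapsTo hz').1
      intro i
      obtain ⟨j, hj, hne⟩ := h1 i
      exact ⟨j, by omega, hne⟩
    · obtain ⟨y, X, c, s, t, hcN, hc0, hs, hy, hX, hX0, hX1, hn1, hn2⟩ :=
        long_data e hz hz' (by omega)
      rw [hn1]
      exact long_av h3 hcN hy hX hX1

end Pool.Agent.WFS.Lab
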