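import Mathlib

/-!
# WFS module C (labelling), C3: runs, detours, the states and the longest suffix
(helper40; text /team-store/wfs_labelling.md by helper76)

Everything is stated for an abstract data set `Dat V α`: the default maps `f`, the letter `o` (= 0),
the numbers `N k R L`, the matched letters `b`, the detours `ze`, the inverse `th` of Theta.
A path is a pair `(v, u)`: start vertex and the list of default letters (first letter first).
-/

set_option autoImplicit false
set_option linter.all false

namespace Pool.WFS.Lab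

variable {V α : Type}

/-- the end of the path `(v, u)` -/
def act (f : α → V → V) (v : V) (u : List α) : V := u.foldl (fun w a => f a w) v

/-- shift of a sequence by `m` -/
def sh (x : ℕ → α) (m : ℕ) : ℕ → α := fun i => x (m + i)

/-- the first `l` letters of a sequence -/
def pre (x : ℕ → α) (l : ℕ) : List α := (List.range l).map x

/-- the bad periodic sequences: some period `p` with `0 < p < N`, and no block of `k` letters `o` -/
def Bad (o : α) (N k : ℕ) (x : ℕ → α) : Prop :=
  (∃ p, 0 < p ∧ p < N ∧ ∀ i, x (i + p) = x i) ∧ ∀ i, ∃ j, j < k ∧ x (i + j) ≠ o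

/-- the sequence `nu(z)_i = b(sigma^i z)` of the matched letters along the orbit of `z = (v, x)` -/
def nuf (f : α → V → V) (b : V → (ℕ → α) → α) (v : V) (x : ℕ → α) : ℕ → α :=
  fun i => b (act f v (pre x i)) (sh x i)

/-- the data for the labelling -/
structure Dat (V α : Type) where
  /-- default maps -/
  f : α → V → V
  /-- the letter 0 -/
  o : α
  /-- another letter -/
  o' : α
  N : ℕ
  k : ℕ
  R : ℕ
  L : ℕ
  /-- the points on which `b`, `ze` are used -/
  Cyc : V → (ℕ → α) → Prop
  b : V → (ℕ → α) → α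
  /-- the detour, its first letter is `b` -/
  ze : V → (ℕ → α) → List α
  /-- inverse of Theta -/
  th : (ℕ → α) → V × (ℕ → α)
  ho' : o' ≠ o
  hk : 0 < k
  hN : 3 * k ≤ N
  hL : 2 * (R + 6 * N) + 4 * k ≤ L
  /-- the vertex reached by reading `0^k` -/
  vs : V
  hsync : ∀ v, act f v (List.replicate k o) = vs
  cyc_bad : ∀ v x, Cyc v x → Bad o N k x
  cyc_sh : ∀ v x, Cyc v x → Cyc (f (x 0) v) (sh x 1)
  cyc_run : ∀ v x, Bad o N k x → Cyc (act f v (pre x L)) (sh x L)
  ze_len : ∀ v x, Cyc v x → (ze v x).length = 1 + R + L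
  ze_zero : ∀ v x, Cyc v x → (ze v x)[0]? = some (b v x)
  ze_run : ∀ v x, Cyc v x → ∀ j, j < L → (ze v x)[1 + R + j]? = some ((th x).2 (1 + R + j))
  ze_end : ∀ v x, Cyc v x → act f v (ze v x) = act f (th x).1 (pre (th x).2 (1 + R + L))
  th_bad : ∀ x, Bad o N k x → Bad o N k (th x).2
  th_cyc : ∀ x, Bad o N k x → Cyc (th x).1 (th x).2
  th_sh : ∀ x, Bad o N k x → th (sh x 1) = (f ((th x).2 0) (th x).1, sh (th x).2 1)
  th_nu : ∀ x, Bad o N k x → nuf f b (th x).1 (th x).2 = x
  nu_per : ∀ v x, Cyc v x → (∃ p, 0 < p ∧ p < N ∧ ∀ i, nuf f b v x (i + p) = nuf f b v x i) →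
    Bad o N k (nuf f b v x) ∧ (v, x) = th (nuf f b v x)
  nu_zero : ∀ v x, Cyc v x → ∀ i, ∃ j, j < 3 * k ∧ nuf f b v x (i + j) ≠ o

/-! ### elementary lemmas -/

@[simp] theorem act_nil (f : α → V → V) (v : V) : act f v [] = v := rfl

@[simp] theorem act_cons (f : α → V → V) (v : V) (a : α) (u : List α) :
    act f v (a :: u) = act f (f a v) u := rfl

theorem act_append (f : α → V → V) (v : V) (u w : List α) :
    act f v (u ++ w) = act f (act f v u) w := by
  simp [act, List.foldl_append]

@[simp] theorem pre_length (x : ℕ → α) (l : ℕ) : (pre x l).length = l := by simp [pre]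

@[simp] theorem pre_zero (x : ℕ → α) : pre x 0 = [] := rfl

theorem pre_getElem? (x : ℕ → α) (l t : ℕ) (h : t < l) : (pre x l)[t]? = some (x t) := by
  simp [pre, h]

theorem pre_getElem?_none (x : ℕ → α) (l t : ℕ) (h : l ≤ t) : (pre x l)[t]? = none := by
  simp [pre, h]

theorem pre_succ (x : ℕ → α) (l : ℕ) : pre x (l + 1) = pre x l ++ [x l] := by
  simp [pre, List.range_succ]

theorem pre_succ' (x : ℕ → α) (l : ℕ) : pre x (l + 1) = x 0 :: pre (sh x 1) l := by
  apply List.ext_getElem? 
  intro t
  cases t with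
  | zero => rw [pre_getElem? _ _ _ (by omega)]; simp
  | succ t =>
    rw [List.getElem?_cons_succ]
    rcases lt_or_ge t l with h | h
    · rw [pre_getElem? _ _ _ (by omega), pre_getElem? _ _ _ h]; simp [sh, add_comm]
    · rw [pre_getElem?_none _ _ _ (by omega), pre_getElem?_none _ _ _ h]

theorem pre_add (x : ℕ → α) (l m : ℕ) : pre x (l + m) = pre x l ++ pre (sh x l) m := by
  induction m with
  | zero => simp
  | succ m ih => rw [← add_assoc, pre_succ, ih, pre_succ, List.append_assoc]; rfl

theorem pre_take (x : ℕ → α) (l m : ℕ) (h : m ≤ l) : (pre x l).take m = pre x m := by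
  obtain ⟨c, rfl⟩ := Nat.exists_eq_add_of_le h
  rw [pre_add, List.take_append_of_le_length (by simp), List.take_of_length_le (by simp)]

theorem pre_drop (x : ℕ → α) (l m : ℕ) (h : m ≤ l) : (pre x l).drop m = pre (sh x m) (l - m) := by
  obtain ⟨c, rfl⟩ := Nat.exists_eq_add_of_le h
  rw [pre_add, List.drop_append_of_le_length (by simp), List.drop_of_length_le (by simp)]
  simp

theorem sh_sh (x : ℕ → α) (a c : ℕ) : sh (sh x a) c = sh x (a + c) := by
  funext i; simp [sh, add_assoc]

@[simp] theorem sh_zero (x : ℕ → α) : sh x 0 = x := by funext i; simp [sh]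

theorem Bad.sh {o : α} {N k : ℕ} {x : ℕ → α} (h : Bad o N k x) (m : ℕ) : Bad o N k (sh x m) := by
  obtain ⟨⟨p, h1, h2, h3⟩, h4⟩ := h
  refine ⟨⟨p, h1, h2, fun i => ?_⟩, fun i => ?_⟩
  · simp only [Lab.sh]; rw [← add_assoc, h3]
  · obtain ⟨j, hj, hx⟩ := h4 (m + i)
    exact ⟨j, hj, by simpa [Lab.sh, add_assoc] using hx⟩

/-- Fine and Wilf, weak form -/
theorem fw {N : ℕ} {x y : ℕ → α} (hx : ∃ p, 0 < p ∧ p < N ∧ ∀ i, x (i + p) = x i)
    (hy : ∃ p, 0 < p ∧ p < N ∧ ∀ i, y (i + p) = y i) (h : ∀ i, i < 2 * N → x i = y i) : x = y := by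
  obtain ⟨p, p1, p2, p3⟩ := hx
  obtain ⟨q, q1, q2, q3⟩ := hy
  funext i
  induction i using Nat.strong_induction_on with
  | _ i ih =>
    rcases lt_or_ge i (2 * N) with h' | h'
    · exact h i h'
    · have e1 : x i = x (i - p) := by
        conv_lhs => rw [show i = (i - p) + p by omega]
        exact p3 _
      have e2 : y (i - p) = y (i - p - q) := by
        conv_lhs => rw [show i - p = (i - p - q) + q by omega]
        exact q3 _
      have e3 : x (i - q) = x (i - q - p) := by
        conv_lhs => rw [show i - q = (i - q - p) + p by omega]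
        exact p3 _
      have e4 : y i = y (i - q) := by
        conv_lhs => rw [show i = (i - q) + q by omega]
        exact q3 _
      rw [e1, ih (i - p) (by omega), e2, e4, ← ih (i - q) (by omega), e3,
        ih (i - q - p) (by omega), show i - q - p = i - p - q by omega]

theorem Bad.fw {o : α} {N k : ℕ} {x y : ℕ → α} (hx : Bad o N k x) (hy : Bad o N k y)
    (h : ∀ i, i < 2 * N → x i = y i) : x = y := Lab.fw hx.1 hy.1 h

/-- agreement on a window of length `2N` gives agreement after it -/
theorem Bad.fw' {o : α} {N k : ℕ} {x y : ℕ → α} (hx : Bad o N k x) (hy : Bad o N k y) (s t : ℕ)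
    (h : ∀ i, i < 2 * N → x (s + i) = y (t + i)) (i : ℕ) : x (s + i) = y (t + i) :=
  congrFun (Bad.fw (hx.sh s) (hy.sh t) h) i

namespace Dat

variable (D : Dat V α)

/-- bad sequences of the data -/
abbrev B (x : ℕ → α) : Prop := Bad D.o D.N D.k x

/-- matched letters along the orbit -/
abbrev nu (v : V) (x : ℕ → α) : ℕ → α := nuf D.f D.b v x

/-- a run: a piece of a bad sequence -/
def Run (u : List α) : Prop := ∃ x, D.B x ∧ u = pre x u.length

/-- the path `(v, x_0 .. x_(L-1) ze_0 .. ze_(i-1))` -/
def pth (v : V) (x : ℕ → α) (i : ℕ) : List α :=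
  pre x D.L ++ (D.ze (act D.f v (pre x D.L)) (sh x D.L)).take i

/-- paths of type R: a full run followed by `1 ≤ i ≤ R + L` letters of the detour -/
def TR (v : V) (u : List α) : Prop :=
  ∃ x i, D.B x ∧ 1 ≤ i ∧ i ≤ D.R + D.L ∧ D.b (act D.f v (pre x D.L)) (sh x D.L) ≠ x D.L ∧
    u = D.pth v x i

/-- the set `Q` of the states -/
def InQ (v : V) (u : List α) : Prop := (u.length ≤ D.L ∧ D.Run u) ∨ D.TR v u

open Classical in
/-- the longest suffix of a path which is a state -/
noncomputable def ls : V → List α → V × List α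
  | v, [] => (v, [])
  | v, a :: u => if D.InQ v (a :: u) then (v, a :: u) else ls (D.f a v) u

open Classical in
/-- continuation of the run `u.take L` -/
noncomputable def cx (u : List α) : ℕ → α :=
  if h : ∃ x, D.B x ∧ u.take D.L = pre x D.L then sh h.choose D.L else fun _ => D.o

/-- the vertex after the run -/
def cv (v : V) (u : List α) : V := act D.f v (u.take D.L)

open Classical in
/-- the permutation of the labels at the state `(v, u)`: label -> default letter -/
noncomputable def sg (q : V × List α) : Equiv.Perm α :=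
  if q.2.length < D.L then 1
  else Equiv.swap (D.cx q.2 (q.2.length - D.L))
    ((D.ze (D.cv q.1 q.2) (D.cx q.2)).getD (q.2.length - D.L) D.o)

/-- reading the label `c` at the state `q` -/
noncomputable def stp (c : α) (q : V × List α) : V × List α := D.ls q.1 (q.2 ++ [D.sg q c])

/-- the state after the first `t` letters of the label sequence `X` -/
noncomputable def sr (X : ℕ → α) (q : V × List α) : ℕ → V × List α
  | 0 => q
  | t + 1 => D.stp (X t) (sr X q t)

/-- the set of the states as a subset of the set of all paths -/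
def St (q : V × List α) : Prop := D.InQ q.1 q.2

end Dat

end Pool.WFS.Lab
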