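import Pool.Agent.WFS.LabDefs
import Pool.Agent.WFS.LabC2b
import Pool.Agent.WFS.LabC3

/-! # WFS module C: the data of the labelling from the matched letters and primitivity -/

set_option autoImplicit false

namespace Pool.Agent.WFS.Lab

/-- matched letters `b` and the inverse `ps` of Theta -/
structure BP {V : Type} {n : ℕ} [NeZero n] (f : Fin n → V → V) (N k : ℕ)
    (b : V × (ℕ → Fin n) → Fin n) (ps : (ℕ → Fin n) → V × (ℕ → Fin n)) : Prop where
  cyc : ∀ x ∈ (Pn N k : Set (ℕ → Fin n)), ps x ∈ Cyc f N k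
  sh : ∀ x ∈ (Pn N k : Set (ℕ → Fin n)), ps (shift x) = sg f (ps x)
  nu : ∀ x ∈ (Pn N k : Set (ℕ → Fin n)), nu f b (ps x) = x
  per : ∀ z ∈ Cyc f N k, (∃ p, 0 < p ∧ p < N ∧ Per p (Lab.nu f b z)) →
    Lab.nu f b z ∈ (Pn N k : Set (ℕ → Fin n)) ∧ z = ps (Lab.nu f b z)
  zero : ∀ z ∈ Cyc f N k, ∀ i, ∃ j, j < 3 * k ∧ Lab.nu f b z (i + j) ≠ 0

open Pool.WFS.Lab (Bad act pre sh nuf Dat act_append pre_add pre_length)

variable {V : Type} {n : ℕ}

theorem run_eq_act (f : Fin n → V → V) (x : ℕ → Fin n) (m : ℕ) (v : V) :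
    run f x m v = act f v (pre x m) := by
  induction m with
  | zero => rfl
  | succ m ih =>
    rw [Pool.WFS.Lab.pre_succ, act_append, ← ih]
    rfl

theorem sh_eq (x : ℕ → Fin n) (m : ℕ) : sh x m = fun i => x (i + m) := by
  funext i
  show x (m + i) = x (i + m)
  rw [add_comm]

theorem sh_one (x : ℕ → Fin n) : sh x 1 = shift x := sh_eq x 1

theorem mem_Pn [NeZero n] (N k : ℕ) (x : ℕ → Fin n) : x ∈ (Pn N k : Set (ℕ → Fin n)) ↔ Bad 0 N k x :=
  ⟨fun h => ⟨h.2, h.1⟩, fun h => ⟨h.2, h.1⟩⟩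

theorem nuf_eq (f : Fin n → V → V) (b : V × (ℕ → Fin n) → Fin n) (v : V) (x : ℕ → Fin n) :
    nuf f (fun v x => b (v, x)) v x = nu f b (v, x) := by
  funext i
  show b (act f v (pre x i), sh x i) = b ((sg f)^[i] (v, x))
  rw [sg_iter, ← run_eq_act, sh_eq]

/-- after `card V * N` letters of a bad sequence the point is periodic -/
theorem cyc_run [NeZero n] [Fintype V] (f : Fin n → V → V) (N k L : ℕ) (hL : Fintype.card V * N ≤ L)
    (v : V) (x : ℕ → Fin n) (hx : x ∈ (Pn N k : Set (ℕ → Fin n))) :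
    (sg f)^[L] (v, x) ∈ Cyc f N k := by
  obtain ⟨h1, p, hp, hpN, h2⟩ := hx
  -- two of the points after `i * p` letters, `i ≤ card V`, have the same vertex
  obtain ⟨i, j, hij, hv⟩ := Fintype.exists_ne_map_eq_of_card_lt
    (fun i : Fin (Fintype.card V + 1) => run f x (p * i.val) v) (by simp)
  wlog hlt : i < j generalizing i j
  · exact this j i hij.symm hv.symm (lt_of_le_of_ne (not_lt.1 hlt) hij.symm)
  have hlt' : i.val < j.val := hlt
  have hj : j.val ≤ Fintype.card V := Nat.lt_succ_iff.1 j.isLt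
  -- the points are equal
  have hpt : ∀ m : ℕ, (sg f)^[p * m] (v, x) = (run f x (p * m) v, x) := by
    intro m
    rw [sg_iter]
    refine Prod.ext rfl ?_
    funext t
    exact Per.mul h2 m t
  have he : (sg f)^[p * i.val] (v, x) = (sg f)^[p * j.val] (v, x) := by
    rw [hpt, hpt]
    exact Prod.ext hv rfl
  have hiL : p * i.val ≤ L := by
    have : p * i.val ≤ N * Fintype.card V := Nat.mul_le_mul hpN.le (by omega)
    rw [mul_comm] at hL
    omega
  refine ⟨?_, p * (j.val - i.val), ?_, ?_⟩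
  · rw [sg_iter]
    exact Pn.shift_iter ⟨h1, p, hp, hpN, h2⟩ L
  · exact Nat.mul_pos hp (by omega)
  · rw [← Function.iterate_add_apply]
    have e1 : p * (j.val - i.val) + L = (L - p * i.val) + p * j.val := by
      have h3 : p * j.val = p * i.val + p * (j.val - i.val) := by
        rw [← Nat.mul_add]
        congr 1
        omega
      omega
    rw [e1, Function.iterate_add_apply, ← he, ← Function.iterate_add_apply]
    congr 2
    omega

theorem act_replicate [NeZero n] (f : Fin n → V → V) (k : ℕ) (v : V) :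
    act f v (List.replicate k 0) = (f 0)^[k] v := by
  induction k generalizing v with
  | zero => rfl
  | succ k ih =>
    show act f (f 0 v) (List.replicate k 0) = (f 0)^[k] (f 0 v)
    exact ih _

section

variable [NeZero n] [Fintype V] {f : Fin n → V → V} {N k R : ℕ} {b : V × (ℕ → Fin n) → Fin n}
  {ps : (ℕ → Fin n) → V × (ℕ → Fin n)}

/-- the detour -/
noncomputable def zeb (f : Fin n → V → V) (R L : ℕ) (b : V × (ℕ → Fin n) → Fin n)
    (ps : (ℕ → Fin n) → V × (ℕ → Fin n)) (dw : V → V → List (Fin n)) (v : V) (x : ℕ → Fin n) :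
    List (Fin n) :=
  b (v, x) :: (dw (f (b (v, x)) v) (act f (ps x).1 (pre (ps x).2 (1 + R))) ++
    pre (sh (ps x).2 (1 + R)) L)

/-- THE BRIDGE -/
theorem exists_dat (hn : 2 ≤ n) (v0 : V) (hk : 0 < k) (hN : 3 * k ≤ N)
    (hsync : ∀ v, (f 0)^[k] v = v0)
    (hprim : ∀ v v', ∃ d : List (Fin n), d.length = R ∧ act f v d = v')
    (hbp : BP f N k b ps) :
    ∃ D : Dat V (Fin n), D.f = f ∧ D.o = 0 ∧ D.N = N ∧ D.k = k ∧ D.R = R ∧
      D.L = 2 * (R + 6 * N) + 4 * k + Fintype.card V * N := by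
  choose dw hdw1 hdw2 using hprim
  have hcard : Fintype.card V * N ≤ 2 * (R + 6 * N) + 4 * k + Fintype.card V * N := by omega
  generalize hL : 2 * (R + 6 * N) + 4 * k + Fintype.card V * N = L at hcard
  have hlen : ∀ v x, (zeb f R L b ps dw v x).length = 1 + R + L := by
    intro v x
    simp only [zeb, List.length_cons, List.length_append, hdw1, pre_length]
    omega
  refine ⟨{
    f := f
    o := 0
    o' := ⟨1, by omega⟩
    N := N
    k := k
    R := R
    L := L
    Cyc := fun v x => (v, x) ∈ Cyc f N k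
    b := fun v x => b (v, x)
    ze := zeb f R L b ps dw
    th := ps
    ho' := ?_
    hk := hk
    hN := hN
    hL := by omega
    vs := v0
    hsync := ?_
    cyc_bad := ?_
    cyc_sh := ?_
    cyc_run := ?_
    ze_len := fun v x _ => hlen v x
    ze_zero := ?_
    ze_run := ?_
    ze_end := ?_
    th_bad := ?_
    th_cyc := ?_
    th_sh := ?_
    th_nu := ?_
    nu_per := ?_
    nu_zero := ?_ }, rfl, rfl, rfl, rfl, rfl, rfl⟩
  · intro h
    have := congrArg Fin.val h
    simp at this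
  · intro v
    rw [← hsync v]
    exact act_replicate f k v
  · intro v x h
    exact (mem_Pn N k x).1 h.1
  · intro v x h
    rw [sh_one]
    exact Cyc.sg h
  · intro v x h
    have h1 := cyc_run f N k L hcard v x ((mem_Pn N k x).2 h)
    rw [sg_iter] at h1
    rw [← run_eq_act, sh_eq]
    exact h1
  · intro v x _
    rfl
  · intro v x _ j hj
    show (b (v, x) :: (_ ++ pre (sh (ps x).2 (1 + R)) L))[1 + R + j]? = _
    have e1 : 1 + R + j = (R + j) + 1 := by omega
    have e2 : (b (v, x) :: (dw (f (b (v, x)) v) (act f (ps x).1 (pre (ps x).2 (1 + R))) ++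
        pre (sh (ps x).2 (1 + R)) L))[1 + R + j]? = some ((ps x).2 (1 + R + j)) := by
      conv_lhs => rw [e1]
      rw [List.getElem?_cons_succ, List.getElem?_append_right (by rw [hdw1]; omega), hdw1,
        show R + j - R = j by omega, Pool.WFS.Lab.pre_getElem? _ _ _ hj]
      rfl
    exact e2
  · intro v x _
    show act f (f (b (v, x)) v) (_ ++ _) = _
    rw [act_append, hdw2, ← act_append, ← pre_add]
  · intro x h
    exact (mem_Pn N k _).1 (hbp.cyc x ((mem_Pn N k x).2 h)).1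
  · intro x h
    exact hbp.cyc x ((mem_Pn N k x).2 h)
  · intro x h
    rw [sh_one, hbp.sh x ((mem_Pn N k x).2 h)]
    refine Prod.ext rfl ?_
    exact (sh_one _).symm
  · intro x h
    rw [nuf_eq]
    exact hbp.nu x ((mem_Pn N k x).2 h)
  · intro v x h hp
    rw [nuf_eq] at hp ⊢
    have h1 := hbp.per (v, x) h hp
    exact ⟨(mem_Pn N k _).1 h1.1, h1.2⟩
  · intro v x h i
    rw [nuf_eq]
    exact hbp.zero (v, x) h i

end

/-- THE DATA: for all `N ≥ 3 k` -/
theorem exists_dat' [NeZero n] [Fintype V] [DecidableEq V] (hn : 2 ≤ n) (f : Fin n → V → V) {N k R : ℕ}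
    (v0 : V) (hk : 0 < k) (hN : 3 * k ≤ N) (hsync : ∀ v, (f 0)^[k] v = v0)
    (hprim : ∀ v v', ∃ d : List (Fin n), d.length = R ∧ act f v d = v')
    (htr : ∀ m, 0 < m → (mat f ^ m).trace = n ^ m) :
    ∃ D : Dat V (Fin n), D.f = f ∧ D.o = 0 ∧ D.N = N ∧ D.k = k ∧ D.R = R ∧
      D.L = 2 * (R + 6 * N) + 4 * k + Fintype.card V * N := by
  obtain ⟨b, psi, h1, h2, h3, h4, h5⟩ := exists_b f hk hN ⟨v0, hsync⟩ htr
  exact exists_dat hn v0 hk hN hsync hprim ⟨h1, h2, h3, h4, fun z hz i => h5 z hz i⟩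

end Pool.Agent.WFS.Lab
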