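import Mathlib

/-! # Williams' conjecture for full shifts, module C (labelling), C1

Two finite sets with periodic self maps and equal numbers of fixed points of all powers are isomorphic.
-/

set_option autoImplicit false

namespace Pool.Agent.WFS.Lab

section Equivariant

variable {α β : Type*}

section Orbit

variable [DecidableEq α]

/-- the orbit of `a`, listed up to `m` -/
def orb (s : α → α) (m : ℕ) (a : α) : Finset α := (Finset.range m).image (fun i => s^[i] a)

theorem mem_orb {s : α → α} {m : ℕ} {a x : α} : x ∈ orb s m a ↔ ∃ i, i < m ∧ s^[i] a = x := by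
  simp [orb]

theorem iter_mem {s : α → α} {S : Finset α} (hS : ∀ a ∈ S, s a ∈ S) {a : α} (ha : a ∈ S) (i : ℕ) :
    s^[i] a ∈ S := by
  induction i with
  | zero => simpa using ha
  | succ i ih => rw [Function.iterate_succ_apply']; exact hS _ ih

theorem orb_sub {s : α → α} {S : Finset α} (hS : ∀ a ∈ S, s a ∈ S) {a : α} (ha : a ∈ S) (m : ℕ) :
    orb s m a ⊆ S := by
  intro x hx
  obtain ⟨i, -, rfl⟩ := mem_orb.1 hx
  exact iter_mem hS ha i

theorem iter_add_period {s : α → α} {m : ℕ} {a : α} (ha : s^[m] a = a) (i : ℕ) :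
    s^[i + m] a = s^[i] a := by
  rw [Function.iterate_add_apply, ha]

theorem iter_add_mul {s : α → α} {m : ℕ} {a : α} (ha : s^[m] a = a) (i k : ℕ) :
    s^[i + m * k] a = s^[i] a := by
  induction k with
  | zero => simp
  | succ k ih => rw [Nat.mul_succ, ← add_assoc, iter_add_period ha, ih]

theorem iter_mem_orb {s : α → α} {m : ℕ} (hm : 0 < m) {a : α} (ha : s^[m] a = a) (i : ℕ) :
    s^[i] a ∈ orb s m a := by
  refine mem_orb.2 ⟨i % m, Nat.mod_lt _ hm, ?_⟩
  have h := iter_add_mul ha (i % m) (i / m)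
  rw [Nat.mod_add_div] at h
  exact h.symm

theorem orb_closed {s : α → α} {m : ℕ} (hm : 0 < m) {a : α} (ha : s^[m] a = a) {x : α}
    (hx : x ∈ orb s m a) : s x ∈ orb s m a := by
  obtain ⟨i, -, rfl⟩ := mem_orb.1 hx
  rw [← Function.iterate_succ_apply' s]
  exact iter_mem_orb hm ha _

theorem orb_back {s : α → α} {m : ℕ} (hm : 0 < m) {a : α} (ha : s^[m] a = a) {x : α}
    (hxp : ∃ p, 0 < p ∧ s^[p] x = x) (hx : s x ∈ orb s m a) : x ∈ orb s m a := by
  obtain ⟨p, hp, hpx⟩ := hxp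
  obtain ⟨i, -, hi⟩ := mem_orb.1 hx
  have : x = s^[(p - 1) + i] a := by
    rw [Function.iterate_add_apply, hi, ← Function.iterate_succ_apply]
    rw [Nat.succ_eq_add_one, Nat.sub_add_cancel hp, hpx]
  rw [this]
  exact iter_mem_orb hm ha _

/-- fixed points of the powers on points of minimal period `m` -/
theorem fix_iff {s : α → α} {m : ℕ} (hm : 0 < m) {x : α} (hx : s^[m] x = x)
    (hmin : ∀ j, 0 < j → j < m → s^[j] x ≠ x) (j : ℕ) : s^[j] x = x ↔ m ∣ j := by
  have h := iter_add_mul hx (j % m) (j / m)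
  rw [Nat.mod_add_div] at h
  constructor
  · intro hj
    by_contra hd
    have h0 : 0 < j % m := by
      rcases Nat.eq_zero_or_pos (j % m) with h0 | h0
      · exact absurd (Nat.dvd_of_mod_eq_zero h0) hd
      · exact h0
    exact hmin (j % m) h0 (Nat.mod_lt _ hm) (by rw [← h, hj])
  · intro hd
    rw [h, Nat.mod_eq_zero_of_dvd hd]
    rfl

theorem iter_inj {s : α → α} {m : ℕ} {x : α} (hx : s^[m] x = x)
    (hmin : ∀ j, 0 < j → j < m → s^[j] x ≠ x) {i j : ℕ} (hi : i < m) (hj : j < m)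
    (h : s^[i] x = s^[j] x) : i = j := by
  wlog hij : i ≤ j generalizing i j
  · exact (this hj hi h.symm (by omega)).symm
  by_contra hne
  have h1 : s^[(m - j) + i] x = s^[(m - j) + j] x := by
    rw [Function.iterate_add_apply, Function.iterate_add_apply, h]
  rw [Nat.sub_add_cancel hj.le, hx] at h1
  exact hmin (m - j + i) (by omega) (by omega) h1

theorem card_fix_orb {s : α → α} {m : ℕ} (hm : 0 < m) {S : Finset α} (hS : ∀ a ∈ S, s a ∈ S)
    (hmin : ∀ x ∈ S, ∀ j, 0 < j → j < m → s^[j] x ≠ x) {a : α} (haS : a ∈ S) (ha : s^[m] a = a)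
    (j : ℕ) : ((orb s m a).filter (fun x => s^[j] x = x)).card = if m ∣ j then m else 0 := by
  have hfix : ∀ x ∈ orb s m a, (s^[j] x = x ↔ m ∣ j) := by
    intro x hx
    have hxS := orb_sub hS haS m hx
    obtain ⟨i, hi, rfl⟩ := mem_orb.1 hx
    refine fix_iff hm ?_ (hmin _ hxS) j
    rw [← Function.iterate_add_apply, add_comm, iter_add_period ha]
  split_ifs with hd
  · rw [Finset.filter_true_of_mem (fun x hx => (hfix x hx).2 hd), orb,
      Finset.card_image_of_injOn, Finset.card_range]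
    intro i hi j hj h
    exact iter_inj ha (hmin a haS) (by simpa using hi) (by simpa using hj) h
  · rw [Finset.filter_false_of_mem (fun x hx h => hd ((hfix x hx).1 h)), Finset.card_empty]

theorem card_fix_sdiff {s : α → α} {m : ℕ} (hm : 0 < m) {S : Finset α} (hS : ∀ a ∈ S, s a ∈ S)
    (hmin : ∀ x ∈ S, ∀ j, 0 < j → j < m → s^[j] x ≠ x) {a : α} (haS : a ∈ S) (ha : s^[m] a = a)
    (j : ℕ) : (S.filter (fun x => s^[j] x = x)).card =
      ((S \ orb s m a).filter (fun x => s^[j] x = x)).card + if m ∣ j then m else 0 := by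
  rw [← card_fix_orb hm hS hmin haS ha j, ← Finset.card_union_of_disjoint,
    ← Finset.filter_union, Finset.sdiff_union_of_subset (orb_sub hS haS m)]
  exact Finset.disjoint_filter_filter (Finset.sdiff_disjoint)

end Orbit

variable [DecidableEq α] [DecidableEq β]

theorem exists_bijOn_aux [Nonempty β] (s : α → α) (t : β → β) (N : ℕ) :
    ∀ (n : ℕ) (S : Finset α) (T : Finset β), S.card = n →
    (∀ a ∈ S, s a ∈ S) → (∀ b ∈ T, t b ∈ T) →
    (∀ a ∈ S, ∃ p, 0 < p ∧ p < N ∧ s^[p] a = a) →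
    (∀ b ∈ T, ∃ p, 0 < p ∧ p < N ∧ t^[p] b = b) →
    (∀ m, 0 < m → m < N →
      (S.filter (fun a => s^[m] a = a)).card = (T.filter (fun b => t^[m] b = b)).card) →
    ∃ e : α → β, Set.BijOn e S T ∧ ∀ a ∈ S, e (s a) = t (e a) := by
  intro n
  induction n using Nat.strong_induction_on with
  | _ n ih =>
  intro S T hn hS hT hSp hTp hc
  rcases S.eq_empty_or_nonempty with h0 | h0
  · have hT0 : T = ∅ := by
      rw [Finset.eq_empty_iff_forall_notMem]
      intro b hb
      obtain ⟨p, hp, hpN, hpb⟩ := hTp b hb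
      have h1 := hc p hp hpN
      rw [h0] at h1
      have h2 : b ∈ T.filter (fun b => t^[p] b = b) := Finset.mem_filter.2 ⟨hb, hpb⟩
      have h3 : 0 < (T.filter (fun b => t^[p] b = b)).card := Finset.card_pos.2 ⟨b, h2⟩
      simp only [Finset.filter_empty, Finset.card_empty] at h1
      omega
    refine ⟨fun _ => Classical.arbitrary β, ?_, ?_⟩
    · rw [h0, hT0]; simp
    · rw [h0]; simp
  -- the least period
  obtain ⟨a0, ha0⟩ := h0
  obtain ⟨p0, hp0, hp0N, hp0a⟩ := hSp a0 ha0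
  have hex : ∃ m, 0 < m ∧ ∃ a ∈ S, s^[m] a = a := ⟨p0, hp0, a0, ha0, hp0a⟩
  classical
  obtain ⟨hm, a, haS, ha⟩ := Nat.find_spec hex
  have hmin' : ∀ j, j < Nat.find hex → ¬ (0 < j ∧ ∃ a ∈ S, s^[j] a = a) :=
    fun j hj => Nat.find_min hex hj
  have hmN : Nat.find hex < N :=
    lt_of_le_of_lt (Nat.find_min' hex ⟨hp0, a0, ha0, hp0a⟩) hp0N
  generalize Nat.find hex = m at hm ha hmin' hmN
  have hminS : ∀ x ∈ S, ∀ j, 0 < j → j < m → s^[j] x ≠ x :=
    fun x hx j hj hjm h => hmin' j hjm ⟨hj, x, hx, h⟩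
  have hminT : ∀ x ∈ T, ∀ j, 0 < j → j < m → t^[j] x ≠ x := by
    intro x hx j hj hjm h
    have h1 := hc j hj (by omega)
    have h2 : 0 < (T.filter (fun b => t^[j] b = b)).card :=
      Finset.card_pos.2 ⟨x, Finset.mem_filter.2 ⟨hx, h⟩⟩
    rw [← h1] at h2
    obtain ⟨y, hy⟩ := Finset.card_pos.1 h2
    rw [Finset.mem_filter] at hy
    exact hminS y hy.1 j hj hjm hy.2
  obtain ⟨b, hbT, hb⟩ : ∃ b ∈ T, t^[m] b = b := by
    have h1 := hc m hm hmN
    have h2 : 0 < (S.filter (fun b => s^[m] b = b)).card :=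
      Finset.card_pos.2 ⟨a, Finset.mem_filter.2 ⟨haS, ha⟩⟩
    rw [h1] at h2
    obtain ⟨y, hy⟩ := Finset.card_pos.1 h2
    rw [Finset.mem_filter] at hy
    exact ⟨y, hy.1, hy.2⟩
  -- remove the orbits
  obtain ⟨e, he, hes⟩ := ih (S \ orb s m a).card
    (by
      rw [← hn]
      refine Finset.card_lt_card ?_
      refine Finset.sdiff_ssubset (orb_sub hS haS m) ?_
      exact ⟨a, by simpa using iter_mem_orb hm ha 0⟩)
    (S \ orb s m a) (T \ orb t m b) rfl
    (by
      intro x hx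
      rw [Finset.mem_sdiff] at hx ⊢
      refine ⟨hS x hx.1, fun h => hx.2 ?_⟩
      obtain ⟨p, hp, -, hpx⟩ := hSp x hx.1
      exact orb_back hm ha ⟨p, hp, hpx⟩ h)
    (by
      intro x hx
      rw [Finset.mem_sdiff] at hx ⊢
      refine ⟨hT x hx.1, fun h => hx.2 ?_⟩
      obtain ⟨p, hp, -, hpx⟩ := hTp x hx.1
      exact orb_back hm hb ⟨p, hp, hpx⟩ h)
    (fun x hx => hSp x (Finset.mem_sdiff.1 hx).1)
    (fun x hx => hTp x (Finset.mem_sdiff.1 hx).1)
    (by
      intro j hj hjN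
      have h1 := hc j hj hjN
      rw [card_fix_sdiff hm hS hminS haS ha, card_fix_sdiff hm hT hminT hbT hb] at h1
      omega)
  -- glue
  have hidx : ∀ i, i < m → ∀ h : (∃ j, j < m ∧ s^[j] a = s^[i] a), h.choose = i := by
    intro i hi h
    exact iter_inj ha (hminS a haS) h.choose_spec.1 hi h.choose_spec.2
  let E : α → β := fun x => if h : ∃ j, j < m ∧ s^[j] a = x then t^[h.choose] b else e x
  have hE1 : ∀ i, i < m → E (s^[i] a) = t^[i] b := by
    intro i hi
    have h : ∃ j, j < m ∧ s^[j] a = s^[i] a := ⟨i, hi, rfl⟩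
    show (if h : ∃ j, j < m ∧ s^[j] a = s^[i] a then t^[h.choose] b else e (s^[i] a)) = _
    rw [dif_pos h, hidx i hi h]
  have hE1' : ∀ i, E (s^[i] a) = t^[i] b := by
    intro i
    have h1 := iter_add_mul ha (i % m) (i / m)
    have h2 := iter_add_mul hb (i % m) (i / m)
    rw [Nat.mod_add_div] at h1 h2
    rw [h1, h2]
    exact hE1 _ (Nat.mod_lt _ hm)
  have hE2 : ∀ x, x ∉ orb s m a → E x = e x := by
    intro x hx
    exact dif_neg (fun h => hx (mem_orb.2 h))
  have heT : ∀ x ∈ S, x ∉ orb s m a → E x ∈ T ∧ E x ∉ orb t m b := by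
    intro x hx hx'
    rw [hE2 x hx']
    have h3 := he.mapsTo (show x ∈ ((S \ orb s m a : Finset α) : Set α) from by
      simpa using ⟨hx, hx'⟩)
    simpa using h3
  refine ⟨E, ⟨?_, ?_, ?_⟩, ?_⟩
  · intro x hx
    by_cases hx' : x ∈ orb s m a
    · obtain ⟨i, hi, rfl⟩ := mem_orb.1 hx'
      rw [hE1 i hi]
      exact iter_mem hT hbT i
    · exact (heT x hx hx').1
  · intro x hx y hy hxy
    by_cases hx' : x ∈ orb s m a <;> by_cases hy' : y ∈ orb s m a
    · obtain ⟨i, hi, rfl⟩ := mem_orb.1 hx'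
      obtain ⟨j, hj, rfl⟩ := mem_orb.1 hy'
      rw [hE1 i hi, hE1 j hj] at hxy
      rw [iter_inj hb (hminT b hbT) hi hj hxy]
    · exfalso
      obtain ⟨i, hi, rfl⟩ := mem_orb.1 hx'
      refine (heT y hy hy').2 ?_
      rw [← hxy, hE1 i hi]
      exact mem_orb.2 ⟨i, hi, rfl⟩
    · exfalso
      obtain ⟨i, hi, rfl⟩ := mem_orb.1 hy'
      refine (heT x hx hx').2 ?_
      rw [hxy, hE1 i hi]
      exact mem_orb.2 ⟨i, hi, rfl⟩
    · rw [hE2 x hx', hE2 y hy'] at hxy
      exact he.injOn (by simpa using ⟨hx, hx'⟩) (by simpa using ⟨hy, hy'⟩) hxy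
  · intro y hy
    by_cases hy' : y ∈ orb t m b
    · obtain ⟨i, hi, rfl⟩ := mem_orb.1 hy'
      exact ⟨s^[i] a, iter_mem hS haS i, hE1 i hi⟩
    · obtain ⟨x, hx, hxy⟩ := he.surjOn (show y ∈ ((T \ orb t m b : Finset β) : Set β) from by
        simpa using ⟨hy, hy'⟩)
      have hx2 : x ∈ S ∧ x ∉ orb s m a := by simpa using hx
      exact ⟨x, hx2.1, by rw [hE2 x hx2.2, hxy]⟩
  · intro x hx
    by_cases hx' : x ∈ orb s m a
    · obtain ⟨i, hi, rfl⟩ := mem_orb.1 hx'
      rw [hE1 i hi, ← Function.iterate_succ_apply' s, ← Function.iterate_succ_apply' t, hE1']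
    · have hsx : s x ∉ orb s m a := by
        intro h
        obtain ⟨p, hp, -, hpx⟩ := hSp x hx
        exact hx' (orb_back hm ha ⟨p, hp, hpx⟩ h)
      rw [hE2 x hx', hE2 _ hsx]
      exact hes x (Finset.mem_sdiff.2 ⟨hx, hx'⟩)

/-- **Equal fixed point numbers give an equivariant bijection** (all periods `< N`). -/
theorem exists_bijOn [Nonempty β] (s : α → α) (t : β → β) (N : ℕ) (S : Finset α) (T : Finset β)
    (hS : ∀ a ∈ S, s a ∈ S) (hT : ∀ b ∈ T, t b ∈ T)
    (hSp : ∀ a ∈ S, ∃ p, 0 < p ∧ p < N ∧ s^[p] a = a)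
    (hTp : ∀ b ∈ T, ∃ p, 0 < p ∧ p < N ∧ t^[p] b = b)
    (hc : ∀ m, 0 < m → m < N →
      (S.filter (fun a => s^[m] a = a)).card = (T.filter (fun b => t^[m] b = b)).card) :
    ∃ e : α → β, Set.BijOn e S T ∧ ∀ a ∈ S, e (s a) = t (e a) :=
  exists_bijOn_aux s t N S.card S T rfl hS hT hSp hTp hc

end Equivariant

end Pool.Agent.WFS.Lab
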