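import Pool.Agent.WFS.LabDefs
import Pool.Agent.WFS.LabC1

/-! # Williams' conjecture for full shifts, module C (labelling), C1 and the function `b`

`tr A ^ m = n ^ m` gives an equivariant bijection between the short periodic points over the sequences
avoiding `0 ^ k` and the periodic sequences avoiding `0 ^ k`. From this the function `b` of the labelling.
-/

set_option autoImplicit false

namespace Pool.Agent.WFS.Lab

variable {V : Type} {n : ℕ}

section count

variable [NeZero n]

/-- extension of a word by zero -/
def ext {m : ℕ} (w : Fin m → Fin n) : ℕ → Fin n := fun i => if h : i < m then w ⟨i, h⟩ else 0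

/-- periodic extension of a word -/
def perx {m : ℕ} (w : Fin m → Fin n) : ℕ → Fin n :=
  fun i => if h : 0 < m then w ⟨i % m, Nat.mod_lt _ h⟩ else 0

theorem perx_eq_ext {m : ℕ} (w : Fin m → Fin n) (i : ℕ) (hi : i < m) : perx w i = ext w i := by
  have hm : 0 < m := by omega
  simp only [perx, ext, dif_pos hm, dif_pos hi]
  congr 1
  exact Fin.ext (Nat.mod_eq_of_lt hi)

theorem perx_per {m : ℕ} (w : Fin m → Fin n) : Per m (perx w) := by
  intro i
  by_cases hm : 0 < m
  · simp only [perx, dif_pos hm, Nat.add_mod_right]
  · simp only [perx, dif_neg hm]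

theorem perx_eq_self {m : ℕ} (hm : 0 < m) {x : ℕ → Fin n} (hx : Per m x) :
    perx (fun i : Fin m => x i) = x := by
  funext i
  simp only [perx, dif_pos hm]
  have := hx.mul (i / m) (i % m)
  rw [Nat.mod_add_div] at this
  exact this.symm

theorem perx_inj {m : ℕ} {w w' : Fin m → Fin n} (h : perx w = perx w') : w = w' := by
  funext i
  have h1 := congrFun h i
  rw [perx_eq_ext w i i.2, perx_eq_ext w' i i.2] at h1
  simpa [ext] using h1

theorem run_perx {m : ℕ} (f : Fin n → V → V) (w : Fin m → Fin n) (v : V) :
    run f (perx w) m v = run f (ext w) m v := run_congr f (fun i hi => perx_eq_ext w i hi) v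

variable [Fintype V] [DecidableEq V]

theorem mat_pow (f : Fin n → V → V) (m : ℕ) : ∀ i j : V, (mat f ^ m) i j =
    (Finset.univ.filter (fun w : Fin m → Fin n => run f (ext w) m j = i)).card := by
  induction m with
  | zero =>
    intro i j
    rw [pow_zero, Matrix.one_apply]
    by_cases h : i = j
    · rw [if_pos h]
      have e0 : (Finset.univ.filter (fun w : Fin 0 → Fin n => run f (ext w) 0 j = i)) =
          Finset.univ := Finset.filter_true_of_mem (fun w _ => h.symm)
      rw [e0]
      simp
    · rw [if_neg h]
      have e0 : (Finset.univ.filter (fun w : Fin 0 → Fin n => run f (ext w) 0 j = i)) =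
          ∅ := Finset.filter_false_of_mem (fun w _ h' => h h'.symm)
      rw [e0]
      simp
  | succ m ih =>
    intro i j
    rw [pow_succ', Matrix.mul_apply]
    have e1 : ∀ w : Fin (m + 1) → Fin n, run f (ext w) (m + 1) j =
        f (w (Fin.last m)) (run f (ext (fun i : Fin m => w i.castSucc)) m j) := by
      intro w
      show f (ext w m) (run f (ext w) m j) = _
      have e2 : ext w m = w (Fin.last m) := by
        simp only [ext, dif_pos (Nat.lt_succ_self m)]
        rfl
      rw [e2]
      congr 1
      refine run_congr f (fun i hi => ?_) j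
      simp only [ext, dif_pos hi, dif_pos (Nat.lt_succ_of_lt hi)]
      rfl
    have e3 : (Finset.univ.filter (fun w : Fin (m + 1) → Fin n => run f (ext w) (m + 1) j = i)).card
        = (Finset.univ.filter (fun p : Fin n × (Fin m → Fin n) =>
            f p.1 (run f (ext p.2) m j) = i)).card := by
      refine Finset.card_bij' (fun w _ => (w (Fin.last m), fun i : Fin m => w i.castSucc))
        (fun p _ => Fin.snoc (α := fun _ => Fin n) p.2 p.1) ?_ ?_ ?_ ?_
      · intro w hw
        simp only [Finset.mem_filter, Finset.mem_univ, true_and] at hw ⊢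
        rw [← e1]; exact hw
      · intro p hp
        simp only [Finset.mem_filter, Finset.mem_univ, true_and] at hp ⊢
        rw [e1]
        simpa using hp
      · intro w _
        exact Fin.snoc_init_self (α := fun _ => Fin n) w
      · intro p _
        simp
    rw [e3]
    have e4 : (Finset.univ.filter (fun p : Fin n × (Fin m → Fin n) =>
            f p.1 (run f (ext p.2) m j) = i)).card =
        ∑ l : V, (Finset.univ.filter (fun p : Fin n × (Fin m → Fin n) =>
            f p.1 l = i ∧ run f (ext p.2) m j = l)).card := by
      rw [Finset.card_eq_sum_card_fiberwise (f := fun p : Fin n × (Fin m → Fin n) =>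
        run f (ext p.2) m j) (t := Finset.univ) (by intro x _; simp)]
      refine Finset.sum_congr rfl (fun l _ => ?_)
      congr 1
      ext p
      simp only [Finset.mem_filter, Finset.mem_univ, true_and]
      constructor
      · rintro ⟨h1, h2⟩
        exact ⟨by rw [← h2]; exact h1, h2⟩
      · rintro ⟨h1, h2⟩
        exact ⟨by rw [h2]; exact h1, h2⟩
    rw [e4]
    refine Finset.sum_congr rfl (fun l _ => ?_)
    rw [ih l j]
    show (Finset.univ.filter (fun a => f a l = i)).card * _ = _
    rw [← Finset.card_product]
    congr 1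
    ext p
    simp only [Finset.mem_product, Finset.mem_filter, Finset.mem_univ, true_and]

theorem sum_fix (f : Fin n → V → V) {m : ℕ} (hm : (mat f ^ m).trace = n ^ m) :
    ∑ w : Fin m → Fin n, (Finset.univ.filter (fun v => run f (perx w) m v = v)).card = n ^ m := by
  rw [← hm, Matrix.trace]
  simp only [Matrix.diag_apply, mat_pow]
  have h := Finset.sum_card_bipartiteAbove_eq_sum_card_bipartiteBelow
    (s := (Finset.univ : Finset (Fin m → Fin n))) (t := (Finset.univ : Finset V))
    (r := fun (w : Fin m → Fin n) (v : V) => run f (perx w) m v = v)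
  simp only [Finset.bipartiteBelow, Finset.bipartiteAbove] at h
  rw [h]
  refine Finset.sum_congr rfl (fun v _ => ?_)
  simp only [run_perx]

theorem run_mul (f : Fin n → V → V) {m : ℕ} {x : ℕ → Fin n} (hx : Per m x) (j : ℕ) (v : V) :
    run f x (m * j) v = (run f x m)^[j] v := by
  induction j with
  | zero => rfl
  | succ j ih =>
    rw [Nat.mul_succ, run_add, ih, Function.iterate_succ_apply']
    refine run_congr f (fun i _ => ?_) _
    rw [hx.mul]

theorem fix_one (f : Fin n → V → V) {k : ℕ} (hf : ∃ e, ∀ v, (f 0)^[k] v = e) {m : ℕ} (hm : 0 < m)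
    {x : ℕ → Fin n} (hx : Per m x) (hav : ¬ Av k x) :
    (Finset.univ.filter (fun v => run f x m v = v)).card = 1 := by
  obtain ⟨e, he⟩ := hf
  simp only [Av, not_forall, not_exists, not_and, not_not] at hav
  obtain ⟨i, hi⟩ := hav
  have h0 : ∀ v, run f (fun l => x (l + i)) k v = e := by
    intro v
    rw [run_congr f (y := fun _ => (0 : Fin n)) (fun l hl => by rw [add_comm]; exact hi l hl) v,
      ← he v]
    generalize k = k'
    induction k' with
    | zero => rfl
    | succ k' ih =>
      rw [Function.iterate_succ_apply', ← ih]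
      rfl
  -- after `i + k` letters everything is the same
  have h1 : ∀ v v', run f x (m * (i + k)) v = run f x (m * (i + k)) v' := by
    intro v v'
    have e1 : m * (i + k) = (i + k) + (m * (i + k) - (i + k)) := by
      have : i + k ≤ m * (i + k) := Nat.le_mul_of_pos_left _ hm
      omega
    rw [e1, run_add f x (i + k), run_add f x (i + k), run_add f x i, run_add f x i, h0, h0]
  set g := run f x m with hg
  have h2 : ∀ v v', g^[i + k] v = g^[i + k] v' := by
    intro v v'
    rw [hg, ← run_mul f hx, ← run_mul f hx]
    exact h1 v v'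
  rw [Finset.card_eq_one]
  refine ⟨g^[i + k] e, ?_⟩
  ext v
  simp only [Finset.mem_filter, Finset.mem_univ, true_and, Finset.mem_singleton]
  constructor
  · intro hv
    have : g^[i + k] v = v := Function.iterate_fixed hv _
    rw [← this]
    exact h2 _ _
  · intro hv
    rw [hv, ← Function.iterate_succ_apply' g, Function.iterate_succ_apply g]
    exact h2 _ _

theorem sum_fix_av (f : Fin n → V → V) {k : ℕ} (hf : ∃ e, ∀ v, (f 0)^[k] v = e) {m : ℕ}
    (hm : 0 < m) (htr : (mat f ^ m).trace = n ^ m) [DecidablePred (fun w : Fin m → Fin n =>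
      Av k (perx w))] :
    ∑ w ∈ Finset.univ.filter (fun w : Fin m → Fin n => Av k (perx w)),
      (Finset.univ.filter (fun v => run f (perx w) m v = v)).card =
    (Finset.univ.filter (fun w : Fin m → Fin n => Av k (perx w))).card := by
  have h1 := sum_fix f htr
  rw [← Finset.sum_filter_add_sum_filter_not Finset.univ
    (fun w : Fin m → Fin n => Av k (perx w))] at h1
  have h2 : ∑ w ∈ Finset.univ.filter (fun w : Fin m → Fin n => ¬ Av k (perx w)),
      (Finset.univ.filter (fun v => run f (perx w) m v = v)).card =
      (Finset.univ.filter (fun w : Fin m → Fin n => ¬ Av k (perx w))).card := by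
    rw [Finset.card_eq_sum_ones]
    refine Finset.sum_congr rfl (fun w hw => ?_)
    exact fix_one f hf hm (perx_per w) (Finset.mem_filter.1 hw).2
  have h3 := Finset.card_filter_add_card_filter_not (s := (Finset.univ : Finset (Fin m → Fin n)))
    (fun w : Fin m → Fin n => Av k (perx w))
  rw [Finset.card_univ, Fintype.card_fun, Fintype.card_fin, Fintype.card_fin] at h3
  rw [h2] at h1
  omega

end count

section Theta

variable [NeZero n]

theorem Pn_finite (N k : ℕ) : (Pn N k : Set (ℕ → Fin n)).Finite := by
  refine Set.Finite.subset (Set.Finite.biUnion (Set.finite_Iio N)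
    (fun p _ => Set.finite_range (fun w : Fin p → Fin n => perx w))) ?_
  rintro x ⟨-, p, hp, hpN, hx⟩
  exact Set.mem_biUnion (show p ∈ Set.Iio N from hpN) ⟨fun i => x i, perx_eq_self hp hx⟩

/-- the short periodic points -/
def PA (f : Fin n → V → V) (N k : ℕ) : Set (V × (ℕ → Fin n)) :=
  {z | Av k z.2 ∧ ∃ p, 0 < p ∧ p < N ∧ (sg f)^[p] z = z}

theorem per_of_sg {f : Fin n → V → V} {z : V × (ℕ → Fin n)} {p : ℕ} (h : (sg f)^[p] z = z) :
    Per p z.2 := by
  intro i
  rw [sg_iter] at h
  exact congrFun (congrArg Prod.snd h) i

theorem PA_sub (f : Fin n → V → V) (N k : ℕ) : PA f N k ⊆ Cyc f N k := by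
  rintro z ⟨h1, p, hp, hpN, h2⟩
  exact ⟨⟨h1, p, hp, hpN, per_of_sg h2⟩, p, hp, h2⟩

theorem PA_sg {f : Fin n → V → V} {N k : ℕ} {z : V × (ℕ → Fin n)} (h : z ∈ PA f N k) :
    sg f z ∈ PA f N k := by
  obtain ⟨h1, p, hp, hpN, h2⟩ := h
  refine ⟨h1.shift, p, hp, hpN, ?_⟩
  rw [← Function.iterate_succ_apply, Function.iterate_succ_apply' (sg f), h2]

theorem PA_sg_iter {f : Fin n → V → V} {N k : ℕ} {z : V × (ℕ → Fin n)} (h : z ∈ PA f N k)
    (i : ℕ) : (sg f)^[i] z ∈ PA f N k := by
  induction i with
  | zero => exact h
  | succ i ih => rw [Function.iterate_succ_apply']; exact PA_sg ih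

theorem Cyc_finite [Finite V] (f : Fin n → V → V) (N k : ℕ) : (Cyc f N k).Finite := by
  refine Set.Finite.subset (Set.Finite.prod (Set.finite_univ (α := V)) (Pn_finite (n := n) N k)) ?_
  rintro z ⟨h1, -⟩
  exact ⟨Set.mem_univ _, h1⟩

variable [Fintype V] [DecidableEq V]

theorem exists_theta (f : Fin n → V → V) {k : ℕ} (hf : ∃ e, ∀ v, (f 0)^[k] v = e)
    (htr : ∀ m, 0 < m → (mat f ^ m).trace = n ^ m) (N : ℕ) :
    ∃ e : V × (ℕ → Fin n) → (ℕ → Fin n), Set.BijOn e (PA f N k) (Pn N k) ∧
      ∀ z ∈ PA f N k, e (sg f z) = shift (e z) := by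
  classical
  have hA : (PA f N k).Finite := (Cyc_finite f N k).subset (PA_sub f N k)
  have hP : (Pn N k : Set (ℕ → Fin n)).Finite := Pn_finite N k
  obtain ⟨e, he, hes⟩ := exists_bijOn (sg f) (shift (n := n)) N hA.toFinset hP.toFinset
    (fun z hz => by rw [Set.Finite.mem_toFinset] at hz ⊢; exact PA_sg hz)
    (fun x hx => by rw [Set.Finite.mem_toFinset] at hx ⊢; exact Pn.shift hx)
    (fun z hz => by
      rw [Set.Finite.mem_toFinset] at hz
      exact hz.2)
    (fun x hx => by
      rw [Set.Finite.mem_toFinset] at hx
      obtain ⟨-, p, hp, hpN, hx⟩ := hx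
      exact ⟨p, hp, hpN, by rw [shift_iter]; funext i; exact hx i⟩)
    (by
      intro m hm hmN
      have h1 : (hP.toFinset.filter (fun b => shift^[m] b = b)).card =
          (Finset.univ.filter (fun w : Fin m → Fin n => Av k (perx w))).card := by
        refine Finset.card_bij' (fun x _ => fun i : Fin m => x i) (fun w _ => perx w) ?_ ?_ ?_ ?_
        · intro x hx
          rw [Finset.mem_filter, Set.Finite.mem_toFinset, shift_iter] at hx
          have hx2 : Per m x := fun i => congrFun hx.2 i
          simp only [Finset.mem_filter, Finset.mem_univ, true_and]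
          rw [perx_eq_self hm hx2]
          exact hx.1.1
        · intro w hw
          simp only [Finset.mem_filter, Finset.mem_univ, true_and] at hw
          rw [Finset.mem_filter, Set.Finite.mem_toFinset, shift_iter]
          exact ⟨⟨hw, m, hm, hmN, perx_per w⟩, funext (perx_per w)⟩
        · intro x hx
          rw [Finset.mem_filter, Set.Finite.mem_toFinset, shift_iter] at hx
          exact perx_eq_self hm (fun i => congrFun hx.2 i)
        · intro w _
          exact perx_inj (perx_eq_self hm (perx_per w))
      have h2 : (hA.toFinset.filter (fun b => (sg f)^[m] b = b)).card =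
          (Finset.univ.filter (fun p : (Fin m → Fin n) × V => Av k (perx p.1) ∧
            run f (perx p.1) m p.2 = p.2)).card := by
        refine Finset.card_bij' (fun z _ => (fun i : Fin m => z.2 i, z.1))
          (fun p _ => (p.2, perx p.1)) ?_ ?_ ?_ ?_
        · intro z hz
          rw [Finset.mem_filter, Set.Finite.mem_toFinset] at hz
          have hz2 := per_of_sg hz.2
          simp only [Finset.mem_filter, Finset.mem_univ, true_and]
          rw [perx_eq_self hm hz2]
          refine ⟨hz.1.1, ?_⟩
          have := hz.2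
          rw [sg_iter] at this
          exact congrArg Prod.fst this
        · intro p hp
          simp only [Finset.mem_filter, Finset.mem_univ, true_and] at hp
          rw [Finset.mem_filter, Set.Finite.mem_toFinset]
          have h3 : (sg f)^[m] (p.2, perx p.1) = (p.2, perx p.1) := by
            rw [sg_iter]
            exact Prod.ext hp.2 (funext (perx_per p.1))
          exact ⟨⟨hp.1, m, hm, hmN, h3⟩, h3⟩
        · intro z hz
          rw [Finset.mem_filter, Set.Finite.mem_toFinset] at hz
          exact Prod.ext rfl (perx_eq_self hm (per_of_sg hz.2))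
        · intro p _
          exact Prod.ext (perx_inj (perx_eq_self hm (perx_per p.1))) rfl
      rw [h1, h2, ← sum_fix_av f hf hm (htr m hm)]
      rw [Finset.card_eq_sum_card_fiberwise (f := fun p : (Fin m → Fin n) × V => p.1)
        (t := Finset.univ.filter (fun w : Fin m → Fin n => Av k (perx w)))
        (by
          intro p hp
          simp only [Finset.coe_filter, Finset.mem_univ, true_and, Set.mem_setOf_eq] at hp ⊢
          exact hp.1)]
      refine Finset.sum_congr rfl (fun w hw => ?_)
      rw [Finset.mem_filter] at hw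
      refine Finset.card_bij' (fun p _ => p.2) (fun v _ => (w, v)) ?_ ?_ ?_ ?_
      · intro p hp
        simp only [Finset.mem_filter, Finset.mem_univ, true_and] at hp ⊢
        obtain ⟨⟨-, h4⟩, h5⟩ := hp
        rw [h5] at h4
        exact h4
      · intro v hv
        simp only [Finset.mem_filter, Finset.mem_univ, true_and] at hv ⊢
        exact ⟨⟨hw.2, hv⟩, trivial⟩
      · intro p hp
        simp only [Finset.mem_filter, Finset.mem_univ, true_and] at hp
        exact Prod.ext hp.2.symm rfl
      · intro v _
        rfl)
  rw [Set.Finite.coe_toFinset, Set.Finite.coe_toFinset] at he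
  exact ⟨e, he, fun z hz => hes z (by rw [Set.Finite.mem_toFinset]; exact hz)⟩

end Theta

end Pool.Agent.WFS.Lab
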