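import Pool.Agent.WFS.LabC3

/-!
# WFS module C (labelling), C4: longest suffixes, and the steps of the labelled automaton
(helper40; text /team-store/wfs_labelling.md by helper76)
-/

set_option autoImplicit false
set_option linter.all false

namespace Pool.WFS.Lab

namespace Dat

variable {V α : Type} (D : Dat V α)

/-! ### longest suffix -/

theorem pre_take' (x : ℕ → α) (l m : ℕ) : (pre x l).take m = pre x (min m l) := by
  rcases le_or_gt m l with h | h
  · rw [pre_take _ _ _ h, min_eq_left h]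
  · rw [List.take_of_length_le (by simp; omega), min_eq_right h.le]

theorem run_nil : D.Run [] := by
  refine ⟨fun _ => D.o', ⟨⟨1, one_pos, ?_, fun i => rfl⟩, fun i => ⟨0, D.hk, D.ho'⟩⟩, by simp⟩
  have := D.hN
  have := D.hk
  omega

theorem ls_spec (v : V) (u : List α) : ∃ m, m ≤ u.length ∧
    D.ls v u = (act D.f v (u.take m), u.drop m) ∧ D.InQ (act D.f v (u.take m)) (u.drop m) ∧
    ∀ m', m' < m → ¬ D.InQ (act D.f v (u.take m')) (u.drop m') := by
  induction u generalizing v with
  | nil =>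
    refine ⟨0, le_rfl, rfl, Or.inl ⟨by simp, D.run_nil⟩, fun m' h => absurd h (by omega)⟩
  | cons a u ih =>
    by_cases h : D.InQ v (a :: u)
    · refine ⟨0, by omega, ?_, by simpa using h, fun m' h => absurd h (by omega)⟩
      simp [ls, h]
    · obtain ⟨m, h1, h2, h3, h4⟩ := ih (D.f a v)
      refine ⟨m + 1, by simpa using h1, ?_, by simpa using h3, fun m' hm => ?_⟩
      · simp only [ls, h, if_false, List.take_succ_cons, List.drop_succ_cons, act_cons]
        exact h2
      · cases m' with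
        | zero => simpa using h
        | succ m' => simpa using h4 m' (by omega)

theorem st_ls (v : V) (u : List α) : D.St (D.ls v u) := by
  obtain ⟨m, -, h2, h3, -⟩ := D.ls_spec v u
  rw [h2]; exact h3

theorem act_ls (v : V) (u : List α) : act D.f (D.ls v u).1 (D.ls v u).2 = act D.f v u := by
  obtain ⟨m, -, h2, -, -⟩ := D.ls_spec v u
  rw [h2, ← act_append, List.take_append_drop]

theorem ls_of_inQ {v : V} {u : List α} (h : D.InQ v u) : D.ls v u = (v, u) := by
  cases u with
  | nil => rfl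
  | cons a u => simp [ls, h]

/-- prefixes of states are states -/
theorem inQ_take {v : V} {u : List α} (h : D.InQ v u) (m : ℕ) : D.InQ v (u.take m) := by
  rcases h with ⟨h1, x, hx, hu⟩ | ⟨x, i, hx, h1, h2, h3, h4⟩
  · left
    refine ⟨by simp; omega, x, hx, ?_⟩
    rw [hu, List.length_take, pre_length, pre_take' ]
  · rcases le_or_gt m D.L with hm | hm
    · left
      have hl : D.L ≤ u.length := by rw [h4]; simp [pth]
      have e : u.take m = pre x m := by
        rw [h4, pth, List.take_append_of_le_length (by simpa using hm), pre_take _ _ _ hm]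
      rw [e]
      exact ⟨by simpa using hm, x, hx, by simp⟩
    · right
      refine ⟨x, min (m - D.L) i, hx, by omega, by omega, h3, ?_⟩
      rw [h4, pth, pth, List.take_append, pre_length, List.take_of_length_le (by simp; omega),
        List.take_take]

theorem ls_length_ge {v : V} {u : List α} (s : ℕ) (h : D.InQ (act D.f v (u.take s)) (u.drop s)) :
    u.length - s ≤ (D.ls v u).2.length := by
  obtain ⟨m, -, h2, -, h4⟩ := D.ls_spec v u
  have : ¬ s < m := fun hs => h4 s hs h
  rw [h2]; simp; omega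

/-- (AC) -/
theorem ls_append (v : V) (u w : List α) :
    D.ls v (u ++ w) = D.ls (D.ls v u).1 ((D.ls v u).2 ++ w) := by
  induction u generalizing v with
  | nil => simp [ls]
  | cons a u ih =>
    by_cases h : D.InQ v (a :: u)
    · simp [ls, h]
    · have h' : ¬ D.InQ v (a :: u ++ w) := fun h' => h (by
        have := D.inQ_take h' (a :: u).length
        simpa using this)
      have h'' : ¬ D.InQ v (a :: (u ++ w)) := h'
      simp only [ls, h, if_false, List.cons_append, h'']
      exact ih _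

/-- a short longest suffix only depends on the last letters -/
theorem ls_short {v : V} {u w : List α} (h : (D.ls v (u ++ w)).2.length ≤ w.length) :
    D.ls v (u ++ w) = D.ls (act D.f v u) w := by
  induction u generalizing v with
  | nil => rfl
  | cons a u ih =>
    by_cases h1 : D.InQ v (a :: (u ++ w))
    · exfalso
      simp only [ls, h1, if_true, List.cons_append] at h
      simp at h
    · simp only [ls, h1, if_false, List.cons_append, act_cons] at h ⊢
      exact ih h

theorem inQ_length {v : V} {u : List α} (h : D.InQ v u) : u.length ≤ D.L + (D.R + D.L) := by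
  rcases h with ⟨h1, -⟩ | ⟨x, i, hx, h1, h2, h3, h4⟩
  · omega
  · rw [h4, pth]; simp; omega

/-- the automaton is definite -/
theorem ls_definite (v : V) (u w : List α) (h : 2 * D.L + D.R ≤ w.length) :
    D.ls v (u ++ w) = D.ls (act D.f v u) w := by
  refine D.ls_short ?_
  have := D.inQ_length (D.st_ls v (u ++ w))
  omega

/-! ### auxiliary lemmas on the letters of the special paths -/

theorem hN0 : 0 < D.N := by
  have := D.hN
  have := D.hk
  omega

theorem pre_inj {x y : ℕ → α} {l t : ℕ} (h : pre x l = pre y l) (ht : t < l) : x t = y t := by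
  have h1 := pre_getElem? x l t ht
  rw [h, pre_getElem? y l t ht] at h1
  exact (Option.some.inj h1).symm

theorem pre_congr {x y : ℕ → α} {l : ℕ} (h : ∀ t, t < l → x t = y t) : pre x l = pre y l := by
  unfold pre
  refine List.map_congr_left fun t ht => h t (by simpa using ht)

theorem B_eq {x y : ℕ → α} (hx : D.B x) (hy : D.B y) (h : pre x D.L = pre y D.L) : x = y := by
  refine Bad.fw hx hy fun i hi => pre_inj h ?_
  have := D.hL
  omega

theorem cx_eq {u : List α} {x : ℕ → α} (hx : D.B x) (hu : u.take D.L = pre x D.L) :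
    D.cx u = sh x D.L := by
  have h : ∃ x, D.B x ∧ u.take D.L = pre x D.L := ⟨x, hx, hu⟩
  have h1 : D.cx u = sh h.choose D.L := by
    unfold cx
    rw [dif_pos h]
  rw [h1, D.B_eq hx h.choose_spec.1 (by rw [← hu]; exact h.choose_spec.2)]

/-- the letters of the special path as a sequence -/
noncomputable def lt (v : V) (x : ℕ → α) : ℕ → α := fun p =>
  if p < D.L then x p else (D.ze (act D.f v (pre x D.L)) (sh x D.L)).getD (p - D.L) D.o

theorem lt_lt {v : V} {x : ℕ → α} {p : ℕ} (h : p < D.L) : D.lt v x p = x p := by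
  simp [lt, h]

theorem lt_L {v : V} {x : ℕ → α} (hx : D.B x) :
    D.lt v x D.L = D.b (act D.f v (pre x D.L)) (sh x D.L) := by
  have := D.ze_zero _ _ (D.cyc_run v x hx)
  simp [lt, this]

theorem lt_y {v : V} {x : ℕ → α} (hx : D.B x) {q : ℕ} (h1 : 1 + D.R ≤ q) (h2 : q < 1 + D.R + D.L) :
    D.lt v x (D.L + q) = (D.th (sh x D.L)).2 q := by
  obtain ⟨j, rfl⟩ := Nat.exists_eq_add_of_le h1
  have := D.ze_run _ _ (D.cyc_run v x hx) j (by omega)
  simp [lt, this]

theorem pth_eq {v : V} {x : ℕ → α} (hx : D.B x) {i : ℕ} (hi : i ≤ 1 + D.R + D.L) :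
    D.pth v x i = pre (D.lt v x) (D.L + i) := by
  have hl := D.ze_len _ _ (D.cyc_run v x hx)
  rw [pre_add, pth]
  congr 1
  · exact pre_congr fun t ht => (D.lt_lt ht).symm
  · apply List.ext_getElem?
    intro t
    rcases Nat.lt_or_ge t i with h | h
    · rw [pre_getElem? _ _ _ h, List.getElem?_take_of_lt h]
      simp [sh, lt]
      rw [List.getElem?_eq_getElem (by omega)]
      simp
    · rw [pre_getElem?_none _ _ _ h]
      simp
      omega

theorem pth_length {v : V} {x : ℕ → α} (hx : D.B x) {i : ℕ} (hi : i ≤ 1 + D.R + D.L) :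
    (D.pth v x i).length = D.L + i := by
  rw [D.pth_eq hx hi]; simp

theorem pth_take {v : V} {x : ℕ → α} {i : ℕ} : (D.pth v x i).take D.L = pre x D.L := by
  simp [pth]

theorem pth_succ {v : V} {x : ℕ → α} (hx : D.B x) {i : ℕ} (hi : i < 1 + D.R + D.L) :
    D.pth v x (i + 1) = D.pth v x i ++ [D.lt v x (D.L + i)] := by
  rw [D.pth_eq hx (Nat.succ_le_of_lt hi), D.pth_eq hx hi.le]
  exact pre_succ _ _

theorem pth_zero {v : V} {x : ℕ → α} : D.pth v x 0 = pre x D.L := by
  simp [pth]

theorem sg_pth {v : V} {x : ℕ → α} (hx : D.B x) {i : ℕ} (hi : i ≤ 1 + D.R + D.L) :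
    D.sg (v, D.pth v x i) = @Equiv.swap _ (Classical.decEq α) (x (D.L + i)) (D.lt v x (D.L + i)) := by
  have h1 := D.pth_length (v := v) hx hi
  have h2 : ¬ (D.pth v x i).length < D.L := by omega
  unfold sg
  simp only [h2, if_false]
  rw [D.cx_eq hx D.pth_take, h1]
  simp only [cv, D.pth_take, lt, sh]
  simp

theorem run_pre_iff {w : ℕ → α} {l : ℕ} : D.Run (pre w l) ↔ ∃ x, D.B x ∧ ∀ t, t < l → w t = x t := by
  constructor
  · rintro ⟨x, hx, h⟩
    rw [pre_length] at h
    exact ⟨x, hx, fun t ht => pre_inj h ht⟩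
  · rintro ⟨x, hx, h⟩
    exact ⟨x, hx, by rw [pre_length]; exact pre_congr h⟩

theorem ls_eq {v : V} {u : List α} (m : ℕ) (h : D.InQ (act D.f v (u.take m)) (u.drop m))
    (h' : ∀ m', m' < m → ¬ D.InQ (act D.f v (u.take m')) (u.drop m')) (hm : m ≤ u.length) :
    D.ls v u = (act D.f v (u.take m), u.drop m) := by
  obtain ⟨m1, h1, h2, h3, h4⟩ := D.ls_spec v u
  rcases lt_trichotomy m m1 with hl | rfl | hl
  · exact absurd h (h4 m hl)
  · exact h2
  · exact absurd h3 (h' m1 hl)

/-! ### the steps -/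

/-- the matched point after the run `(v, x_0 .. x_(L-1))` -/
def zv (v : V) (x : ℕ → α) : V := act D.f v (pre x D.L)

/-- a run which agrees with `lt v x` on a window inside the run part is broken at `L` -/
theorem brk1 {v : V} {x x' : ℕ → α} (hx : D.B x) (hx' : D.B x')
    (hb : D.b (act D.f v (pre x D.L)) (sh x D.L) ≠ x D.L) {m : ℕ} (hm : m + 2 * D.N ≤ D.L)
    (h : ∀ t, t ≤ D.L - m → D.lt v x (m + t) = x' t) : False := by
  have h0 := D.hN0
  have e := Bad.fw' hx hx' m 0 (fun i hi => by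
    rw [← D.lt_lt (v := v) (x := x) (by omega : m + i < D.L), zero_add]
    exact h i (by omega)) (D.L - m)
  have e2 := h (D.L - m) le_rfl
  rw [show m + (D.L - m) = D.L by omega] at e e2
  rw [zero_add] at e
  rw [D.lt_L hx, ← e] at e2
  exact hb e2

/-- a run which agrees with `lt v x` on a window inside the `y`-part continues along it -/
theorem brk2 {v : V} {x x' : ℕ → α} (hx : D.B x) (hx' : D.B x') {q s : ℕ}
    (h1 : 1 + D.R + 2 * D.N ≤ q) (h2 : q ≤ D.R + D.L) (hs : 2 * D.N ≤ s)
    (h : ∀ j, j < 2 * D.N → D.lt v x (D.L + (q - 2 * D.N + j)) = x' (s - 2 * D.N + j)) :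
    D.lt v x (D.L + q) = x' s := by
  have e := Bad.fw' (D.th_bad _ (hx.sh D.L)) hx' (q - 2 * D.N) (s - 2 * D.N) (fun j hj => by
    rw [← h j hj, D.lt_y hx (by omega) (by omega)]) (2 * D.N)
  rw [D.lt_y hx (by omega) (by omega)]
  rw [show q - 2 * D.N + 2 * D.N = q by omega, show s - 2 * D.N + 2 * D.N = s by omega] at e
  exact e

theorem TR_elim {v : V} {w : ℕ → α} {l : ℕ} (h : D.TR v (pre w l)) : ∃ x i, D.B x ∧ 1 ≤ i ∧
    i ≤ D.R + D.L ∧ D.b (act D.f v (pre x D.L)) (sh x D.L) ≠ x D.L ∧ l = D.L + i ∧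
    ∀ t, t < D.L + i → w t = D.lt v x t := by
  obtain ⟨x, i, hx, h1, h2, h3, h4⟩ := h
  rw [D.pth_eq hx (by omega)] at h4
  have h5 := congrArg List.length h4
  simp at h5
  subst h5
  exact ⟨x, i, hx, h1, h2, h3, rfl, fun t ht => pre_inj h4 ht⟩

/-- (NoR) -/
theorem no_TR {v v' : V} {x : ℕ → α} (hx : D.B x)
    (hb : D.b (act D.f v (pre x D.L)) (sh x D.L) ≠ x D.L) {i m : ℕ} (hi : i ≤ 1 + D.R + D.L)
    (hm : 0 < m) : ¬ D.TR v' (pre (sh (D.lt v x) m) (D.L + i - m)) := by
  intro h
  obtain ⟨x', i', hx', h1, h2, h3, h4, h5⟩ := D.TR_elim h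
  have hN0 := D.hN0
  have hL := D.hL
  rcases Nat.lt_or_ge D.L (m + 2 * D.N) with hc | hc
  · have e1 := D.brk2 (v := v) (q := m) (s := D.L) hx hx' (by omega) (by omega) (by omega)
      (fun j hj => by
        have := h5 (D.L - 2 * D.N + j) (by omega)
        rw [D.lt_lt (by omega)] at this
        rw [← this]
        simp only [sh]
        congr 1
        omega)
    have e2 := h5 D.L (by omega)
    rw [D.lt_L hx'] at e2
    simp only [sh] at e2
    rw [show m + D.L = D.L + m by omega, e1] at e2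
    exact h3 e2.symm
  · refine D.brk1 hx hx' hb (m := m) (by omega) fun t ht => ?_
    have := h5 t (by omega)
    rw [D.lt_lt (p := t) (by omega)] at this
    exact this

/-- two special paths with the same run -/
theorem x_eq_of {v v' : V} {x x' : ℕ → α} (hx : D.B x) (hx' : D.B x')
    (h : ∀ t, t < D.L → D.lt v x t = D.lt v' x' t) : x = x' := by
  refine D.B_eq hx hx' (pre_congr fun t ht => ?_)
  have := h t ht
  rwa [D.lt_lt ht, D.lt_lt ht] at this

theorem pre_drop' (w : ℕ → α) (l m : ℕ) : (pre w l).drop m = pre (sh w m) (l - m) := by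
  rcases le_or_gt m l with h | h
  · exact pre_drop w l m h
  · rw [List.drop_of_length_le (by simp; omega), show l - m = 0 by omega, pre_zero]

/-- a path with a changed last letter -/
def upd (w : ℕ → α) (l : ℕ) (a : α) : ℕ → α := fun t => if t = l then a else w t

theorem pre_upd (w : ℕ → α) (l : ℕ) (a : α) : pre w l ++ [a] = pre (upd w l a) (l + 1) := by
  rw [pre_succ]
  congr 1
  · exact pre_congr fun t ht => by simp [upd, ht.ne]
  · simp [upd]

theorem upd_lt {w : ℕ → α} {l t : ℕ} {a : α} (h : t < l) : upd w l a t = w t := by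
  simp [upd, h.ne]

theorem upd_eq {w : ℕ → α} {l : ℕ} {a : α} : upd w l a l = a := by
  simp [upd]

/-- the key lemma for (OFF) -/
theorem off_key {v : V} {x : ℕ → α} (hx : D.B x)
    (hb : D.b (act D.f v (pre x D.L)) (sh x D.L) ≠ x D.L)
    {i : ℕ} (h1 : 1 ≤ i) (h2 : i ≤ D.R + D.L) {a : α} (ha : a ≠ D.lt v x (D.L + i)) :
    (D.ls v (D.pth v x i ++ [a])).2.length ≤ D.R + 4 * D.N + 1 ∨
    (D.L - 2 * D.N < i ∧ ∃ x', D.B x' ∧
      D.b (D.zv (D.ls v (D.pth v x i ++ [a])).1 x') (sh x' D.L) ≠ x' D.L ∧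
      (D.ls v (D.pth v x i ++ [a])).2 = D.pth (D.ls v (D.pth v x i ++ [a])).1 x' 1) := by
  have hN0 := D.hN0
  have hL := D.hL
  obtain ⟨m, m1, m2, m3, -⟩ := D.ls_spec v (D.pth v x i ++ [a])
  rw [m2]
  rw [D.pth_eq hx (by omega), pre_upd] at m1 m3 ⊢
  simp only [pre_length] at m1
  rw [pre_drop'] at m3 ⊢
  simp only [pre_length]
  set v' := act D.f v ((pre (upd (D.lt v x) (D.L + i) a) (D.L + i + 1)).take m) with hv'
  rcases m3 with ⟨m4, m5⟩ | m4
  · left
    by_contra hlen
    rw [pre_length] at m4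
    obtain ⟨x', hx', m6⟩ := D.run_pre_iff.1 m5
    rcases Nat.lt_or_ge i (1 + D.R + 2 * D.N) with hi | hi
    · refine D.brk1 hx hx' hb (m := m) (by omega) fun t ht => ?_
      rw [← m6 t (by omega)]
      simp only [sh]
      rw [upd_lt (by omega)]
    · have e1 := D.brk2 (v := v) (q := i) (s := D.L + i - m) hx hx' (by omega) (by omega) (by omega)
        (fun j hj => by
          rw [← m6 _ (by omega)]
          simp only [sh]
          rw [upd_lt (by omega)]
          congr 1
          omega)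
      have e2 := m6 (D.L + i - m) (by omega)
      simp only [sh] at e2
      rw [show m + (D.L + i - m) = D.L + i by omega, upd_eq, ← e1] at e2
      exact ha e2
  · obtain ⟨x', i', hx', n1, n2, n3, n4, n5⟩ := D.TR_elim m4
    rcases Nat.lt_or_ge 1 i' with hi' | hi'
    · -- drop the last letter
      exfalso
      have hTR : D.TR v' (pre (sh (D.lt v x) m) (D.L + i - m)) := by
        refine ⟨x', i' - 1, hx', by omega, by omega, n3, ?_⟩
        rw [D.pth_eq hx' (by omega), show D.L + i - m = D.L + (i' - 1) by omega]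
        refine pre_congr fun t ht => ?_
        rw [← n5 t (by omega)]
        simp only [sh]
        rw [upd_lt (by omega)]
      rcases Nat.eq_zero_or_pos m with hm | hm
      · subst hm
        have hv : v' = v := by rw [hv']; simp
        rw [hv] at n5 n3
        have hxx : x = x' := D.x_eq_of (v := v) (v' := v) hx hx' fun t ht => by
          rw [← n5 t (by omega)]
          simp only [sh, zero_add]
          rw [upd_lt (by omega)]
        subst hxx
        have e := n5 (D.L + i) (by omega)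
        simp only [sh, zero_add] at e
        rw [upd_eq] at e
        exact ha e
      · exact D.no_TR hx hb (by omega) hm hTR
    · have hi1 : i' = 1 := by omega
      subst hi1
      have hmi : m = i := by omega
      rcases Nat.lt_or_ge (D.L - 2 * D.N) i with hi | hi
      · right
        refine ⟨hi, x', hx', n3, ?_⟩
        rw [D.pth_eq hx' (by omega), show D.L + i + 1 - m = D.L + 1 by omega]
        exact pre_congr fun t ht => n5 t ht
      · exfalso
        refine D.brk1 hx hx' hb (m := m) (by omega) fun t ht => ?_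
        have := n5 t (by omega)
        rw [D.lt_lt (p := t) (by omega)] at this
        rw [← this]
        simp only [sh]
        rw [upd_lt (by omega)]

/-- the key lemma for (OFF), P type -/
theorem off_key_P {v : V} {x : ℕ → α} (hx : D.B x) {a : α} (ha : a ≠ x D.L)
    (hb : a ≠ D.b (act D.f v (pre x D.L)) (sh x D.L)) :
    (D.ls v (pre x D.L ++ [a])).2.length ≤ 2 * D.N := by
  have hN0 := D.hN0
  have hL := D.hL
  obtain ⟨m, m1, m2, m3, -⟩ := D.ls_spec v (pre x D.L ++ [a])
  rw [m2]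
  rw [pre_upd] at m1 m3 ⊢
  simp only [pre_length] at m1
  rw [pre_drop'] at m3 ⊢
  simp only [pre_length]
  rcases m3 with ⟨m4, m5⟩ | m4
  · by_contra hlen
    rw [pre_length] at m4
    obtain ⟨x', hx', m6⟩ := D.run_pre_iff.1 m5
    have e := Bad.fw' hx hx' m 0 (fun j hj => by
      rw [zero_add, ← m6 j (by omega)]
      simp only [sh]
      rw [upd_lt (by omega)]) (D.L - m)
    have e2 := m6 (D.L - m) (by omega)
    simp only [sh] at e2
    rw [show m + (D.L - m) = D.L by omega] at e e2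
    rw [upd_eq] at e2
    rw [zero_add, ← e2] at e
    exact ha e.symm
  · exfalso
    obtain ⟨x', i', hx', n1, n2, n3, n4, n5⟩ := D.TR_elim m4
    have hm : m = 0 := by omega
    subst hm
    have hi1 : i' = 1 := by omega
    subst hi1
    simp only [List.take_zero, act_nil] at n3 n5
    have hxx : x = x' := D.B_eq hx hx' (pre_congr fun t ht => by
      have := n5 t (by omega)
      rw [D.lt_lt (by omega)] at this
      rw [← this]
      simp only [sh, zero_add]
      rw [upd_lt (by omega)])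
    subst hxx
    have e := n5 D.L (by omega)
    simp only [sh, zero_add] at e
    rw [upd_eq, D.lt_L hx] at e
    exact hb e

/-- expected label sequence `E` of a special state `q` (`P` type: `i = 0`; `R` type: `1 ≤ i`) -/
def Ex (q : V × List α) (E : ℕ → α) : Prop :=
  (∃ x, D.B x ∧ q.2 = D.pth q.1 x 0 ∧ E = D.nu (D.zv q.1 x) (sh x D.L)) ∨
  (∃ x i, D.B x ∧ 1 ≤ i ∧ i ≤ D.R + D.L ∧ D.b (D.zv q.1 x) (sh x D.L) ≠ x D.L ∧
    q.2 = D.pth q.1 x i ∧ E = sh x (D.L + i))

/-- a state is free (length `< L`) or special -/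
theorem st_cases {q : V × List α} (h : D.St q) :
    (q.2.length < D.L ∧ D.Run q.2) ∨ ∃ E, D.Ex q E := by
  rcases h with ⟨h1, h2⟩ | ⟨x, i, hx, h1, h2, h3, h4⟩
  · rcases Nat.lt_or_ge q.2.length D.L with h | h
    · exact Or.inl ⟨h, h2⟩
    · right
      obtain ⟨x, hx, hu⟩ := h2
      refine ⟨_, Or.inl ⟨x, hx, ?_, rfl⟩⟩
      rw [D.pth_zero, hu, show q.2.length = D.L by omega]
  · exact Or.inr ⟨_, Or.inr ⟨x, i, hx, h1, h2, h3, h4, rfl⟩⟩

theorem ex_length {q : V × List α} {E : ℕ → α} (h : D.Ex q E) : D.L ≤ q.2.length := by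
  rcases h with ⟨x, hx, h1, -⟩ | ⟨x, i, hx, -, -, -, h1, -⟩ <;> rw [h1] <;> simp [pth]

theorem st_stp (c : α) (q : V × List α) : D.St (D.stp c q) := D.st_ls _ _

theorem stp_length_le (c : α) (q : V × List α) : (D.stp c q).2.length ≤ q.2.length + 1 := by
  obtain ⟨m, -, h2, -, -⟩ := D.ls_spec q.1 (q.2 ++ [D.sg q c])
  rw [stp, h2]; simp

/-- (FREE) -/
theorem stp_free {q : V × List α} (h : q.2.length < D.L) (c : α) :
    D.stp c q = D.ls q.1 (q.2 ++ [c]) := by
  simp [stp, sg, h]

/-- (ON) for the P type -/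
theorem stp_P_on {v : V} {x : ℕ → α} (hx : D.B x) :
    D.stp (D.b (D.zv v x) (sh x D.L)) (v, D.pth v x 0) =
      (D.f (x 0) v, D.pth (D.f (x 0) v) (sh x 1) 0) := by
  have hN0 := D.hN0
  have hL := D.hL
  have h1 : D.sg (v, D.pth v x 0) (D.b (D.zv v x) (sh x D.L)) = x D.L := by
    rw [D.sg_pth hx (by omega), add_zero, D.lt_L hx]
    exact @Equiv.swap_apply_right _ (Classical.decEq α) _ _
  rw [stp, h1]
  simp only [D.pth_zero]
  rw [← pre_succ]
  have h2 : (pre x (D.L + 1)).drop 1 = pre (sh x 1) D.L := by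
    rw [pre_drop x (D.L + 1) 1 (by omega)]; rfl
  have h3 : (pre x (D.L + 1)).take 1 = [x 0] := by
    rw [pre_succ']; simp
  rw [D.ls_eq 1 _ _ (by simp), h2, h3]
  · rfl
  · rw [h2]
    exact Or.inl ⟨by simp, sh x 1, hx.sh 1, by simp⟩
  · intro m' hm'
    obtain rfl : m' = 0 := by omega
    simp only [List.take_zero, List.drop_zero, act_nil]
    rintro (⟨m4, -⟩ | m4)
    · simp at m4
    · obtain ⟨x', i', hx', n1, n2, n3, n4, n5⟩ := D.TR_elim m4
      obtain rfl : i' = 1 := by omega
      have hxx : x = x' := D.B_eq hx hx' (pre_congr fun t ht => by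
        rw [n5 t (by omega), D.lt_lt (by omega)])
      subst hxx
      have e := n5 D.L (by omega)
      rw [D.lt_L hx] at e
      exact n3 e.symm

/-- (EXIT) -/
theorem stp_P_exit {v : V} {x : ℕ → α} (hx : D.B x) (hb : D.b (D.zv v x) (sh x D.L) ≠ x D.L) :
    D.stp (x D.L) (v, D.pth v x 0) = (v, D.pth v x 1) := by
  have hN0 := D.hN0
  have hL := D.hL
  have h1 : D.sg (v, D.pth v x 0) (x D.L) = D.lt v x (D.L + 0) := by
    rw [D.sg_pth hx (by omega), add_zero, D.lt_L hx]
    exact @Equiv.swap_apply_left _ (Classical.decEq α) _ _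
  rw [stp, h1]
  simp only
  rw [← D.pth_succ hx (by omega)]
  exact D.ls_of_inQ (Or.inr ⟨x, 1, hx, le_rfl, by omega, hb, rfl⟩)

/-- (OFF) for the P type -/
theorem stp_P_off {v : V} {x : ℕ → α} (hx : D.B x) {c : α}
    (h1 : c ≠ D.b (D.zv v x) (sh x D.L)) (h2 : c ≠ x D.L) :
    (D.stp c (v, D.pth v x 0)).2.length ≤ 2 * D.N := by
  have h3 : D.sg (v, D.pth v x 0) c = c := by
    rw [D.sg_pth hx (by omega), add_zero, D.lt_L hx]
    exact @Equiv.swap_apply_of_ne_of_ne _ (Classical.decEq α) _ _ _ h2 h1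
  rw [stp, h3]
  simp only [D.pth_zero]
  exact D.off_key_P hx h2 h1

/-- (ON) for the R type -/
theorem stp_R_on {v : V} {x : ℕ → α} (hx : D.B x) (hb : D.b (D.zv v x) (sh x D.L) ≠ x D.L)
    {i : ℕ} (h1 : 1 ≤ i) (h2 : i < D.R + D.L) :
    D.stp (x (D.L + i)) (v, D.pth v x i) = (v, D.pth v x (i + 1)) := by
  have h3 : D.sg (v, D.pth v x i) (x (D.L + i)) = D.lt v x (D.L + i) := by
    rw [D.sg_pth hx (by omega)]
    exact @Equiv.swap_apply_left _ (Classical.decEq α) _ _
  rw [stp, h3]
  simp only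
  rw [← D.pth_succ hx (by omega)]
  exact D.ls_of_inQ (Or.inr ⟨x, i + 1, hx, by omega, by omega, hb, rfl⟩)

/-- (ON) at the end of the detour: next state `P` on the orbit of `th` -/
theorem th_iter {x : ℕ → α} (hx : D.B x) (m : ℕ) :
    D.th (sh x m) = (act D.f (D.th x).1 (pre (D.th x).2 m), sh (D.th x).2 m) := by
  induction m with
  | zero => simp
  | succ m ih =>
    rw [← sh_sh, D.th_sh _ (hx.sh m), ih, pre_succ, act_append, ← sh_sh]
    simp [sh]

theorem stp_R_last {v : V} {x : ℕ → α} (hx : D.B x) (hb : D.b (D.zv v x) (sh x D.L) ≠ x D.L) :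
    ∃ v' y, D.B y ∧ D.stp (x (D.L + (D.R + D.L))) (v, D.pth v x (D.R + D.L)) =
        (v', D.pth v' y 0) ∧
      (D.zv v' y, sh y D.L) = D.th (sh x (D.L + (1 + D.R + D.L))) := by
  have hN0 := D.hN0
  have hL := D.hL
  have h3 : D.sg (v, D.pth v x (D.R + D.L)) (x (D.L + (D.R + D.L))) =
      D.lt v x (D.L + (D.R + D.L)) := by
    rw [D.sg_pth hx (by omega)]
    exact @Equiv.swap_apply_left _ (Classical.decEq α) _ _
  have h4 : D.pth v x (D.R + D.L) ++ [D.lt v x (D.L + (D.R + D.L))] = D.pth v x (D.R + D.L + 1) :=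
    (D.pth_succ hx (by omega)).symm
  set y := sh (D.th (sh x D.L)).2 (1 + D.R) with hy
  have hyB : D.B y := (D.th_bad _ (hx.sh D.L)).sh _
  have h5 : D.pth v x (D.R + D.L + 1) = pre (D.lt v x) (D.L + (D.R + D.L + 1)) :=
    D.pth_eq hx (by omega)
  have h6 : (D.pth v x (D.R + D.L + 1)).drop (D.L + 1 + D.R) = pre y D.L := by
    rw [h5, pre_drop', show D.L + (D.R + D.L + 1) - (D.L + 1 + D.R) = D.L by omega]
    refine pre_congr fun t ht => ?_
    simp only [sh, hy]
    rw [show D.L + 1 + D.R + t = D.L + (1 + D.R + t) by omega, D.lt_y hx (by omega) (by omega)]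
  set v' := act D.f v ((D.pth v x (D.R + D.L + 1)).take (D.L + 1 + D.R)) with hv'
  refine ⟨v', y, hyB, ?_, ?_⟩
  · rw [stp, h3]
    simp only
    rw [h4, D.ls_eq (D.L + 1 + D.R) _ _ _, h6, D.pth_zero]
    · rw [h6]
      exact Or.inl ⟨by simp, y, hyB, by simp⟩
    · intro m' hm'
      rintro (⟨m4, -⟩ | m4)
      · rw [List.length_drop, D.pth_length hx (by omega)] at m4
        omega
      · rcases Nat.eq_zero_or_pos m' with h0 | h0
        · subst h0
          simp only [List.take_zero, List.drop_zero, act_nil] at m4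
          rw [h5] at m4
          obtain ⟨x', i', hx', n1, n2, n3, n4, n5⟩ := D.TR_elim m4
          omega
        · rw [h5, pre_drop'] at m4
          exact D.no_TR (i := D.R + D.L + 1) hx hb (by omega) h0 m4
    · rw [D.pth_length hx (by omega)]
      omega
  · have h7 : act D.f v' (pre y D.L) = act D.f (D.zv v x) (D.ze (D.zv v x) (sh x D.L)) := by
      rw [hv', ← h6, ← act_append, List.take_append_drop, pth, act_append]
      rw [show D.R + D.L + 1 = 1 + D.R + D.L by omega,
        ← D.ze_len _ _ (D.cyc_run v x hx), List.take_length]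
      rfl
    have h8 : act D.f (D.zv v x) (D.ze (D.zv v x) (sh x D.L)) = _ :=
      D.ze_end _ _ (D.cyc_run v x hx)
    have h9 : D.zv v' y = act D.f v' (pre y D.L) := rfl
    rw [h9, h7, h8, ← sh_sh, D.th_iter (hx.sh D.L), hy, sh_sh]

/-- (OFF) for the R type -/
theorem stp_R_off {v : V} {x : ℕ → α} (hx : D.B x) (hb : D.b (D.zv v x) (sh x D.L) ≠ x D.L)
    {i : ℕ} (h1 : 1 ≤ i) (h2 : i ≤ D.R + D.L) {c : α} (hc : c ≠ x (D.L + i)) :
    (D.stp c (v, D.pth v x i)).2.length ≤ D.R + 4 * D.N + 1 ∨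
    (D.L - 2 * D.N < i ∧ ∃ x', D.B x' ∧
      D.b (D.zv (D.stp c (v, D.pth v x i)).1 x') (sh x' D.L) ≠ x' D.L ∧
      (D.stp c (v, D.pth v x i)).2 = D.pth (D.stp c (v, D.pth v x i)).1 x' 1) := by
  have h3 : D.sg (v, D.pth v x i) c ≠ D.lt v x (D.L + i) := by
    intro h
    have h4 : D.sg (v, D.pth v x i) (x (D.L + i)) = D.lt v x (D.L + i) := by
      rw [D.sg_pth hx (by omega)]
      exact @Equiv.swap_apply_left _ (Classical.decEq α) _ _
    exact hc ((D.sg (v, D.pth v x i)).injective (h.trans h4.symm))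
  exact D.off_key hx hb h1 h2 h3

/-! ### summary in terms of the expected sequence -/

/-- (ON) -/
theorem nu_step (v : V) (x : ℕ → α) : sh (D.nu v x) 1 = D.nu (D.f (x 0) v) (sh x 1) := by
  funext i
  simp only [sh, nuf]
  rw [show 1 + i = i + 1 by omega, pre_succ', act_cons]
  congr 1
  funext j
  simp only [sh]
  congr 1
  omega

theorem zv_step (v : V) (x : ℕ → α) :
    D.zv (D.f (x 0) v) (sh x 1) = D.f (x D.L) (D.zv v x) := by
  have h : act D.f v (pre x (D.L + 1)) = act D.f v (x 0 :: pre (sh x 1) D.L) := by rw [pre_succ']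
  rw [pre_succ, act_append] at h
  exact h.symm

theorem ex_on {q : V × List α} {E : ℕ → α} (h : D.Ex q E) : D.Ex (D.stp (E 0) q) (sh E 1) := by
  have hN0 := D.hN0
  have hL := D.hL
  obtain ⟨v, u⟩ := q
  rcases h with ⟨x, hx, h1, h2⟩ | ⟨x, i, hx, h1, h2, h3, h4, h5⟩
  · simp only at h1 h2
    subst h1
    have e0 : E 0 = D.b (D.zv v x) (sh x D.L) := by
      rw [h2]; simp [nuf]
    rw [e0, D.stp_P_on hx, h2, D.nu_step]
    refine Or.inl ⟨sh x 1, hx.sh 1, rfl, ?_⟩
    simp only
    rw [D.zv_step, sh_sh, sh_sh, add_comm D.L 1]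
    rfl
  · simp only at h3 h4
    subst h4
    have e0 : E 0 = x (D.L + i) := by rw [h5]; simp [sh]
    rw [e0]
    rcases Nat.lt_or_ge i (D.R + D.L) with hi | hi
    · rw [D.stp_R_on hx h3 h1 hi, h5]
      exact Or.inr ⟨x, i + 1, hx, by omega, by omega, h3, rfl, by rw [sh_sh, add_assoc]⟩
    · obtain rfl : i = D.R + D.L := by omega
      obtain ⟨v', y, hy, e1, e2⟩ := D.stp_R_last hx h3
      rw [e1, h5]
      refine Or.inl ⟨y, hy, rfl, ?_⟩
      simp only
      have e3 := D.th_nu _ (hx.sh (D.L + (1 + D.R + D.L)))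
      rw [← e2] at e3
      have e4 : D.nu (D.zv v' y) (sh y D.L) = _ := e3
      rw [e4, sh_sh]
      congr 1
      omega

/-- (OFF): next state short and free, or `R(z, 1)` -/
theorem ex_off {q : V × List α} {E : ℕ → α} (h : D.Ex q E) {c : α} (hc : c ≠ E 0) :
    (D.stp c q).2.length ≤ D.R + 4 * D.N + 1 ∨
    ∃ x, D.B x ∧ D.b (D.zv (D.stp c q).1 x) (sh x D.L) ≠ x D.L ∧
      (D.stp c q).2 = D.pth (D.stp c q).1 x 1 := by
  have hN0 := D.hN0
  have hL := D.hL
  obtain ⟨v, u⟩ := q
  rcases h with ⟨x, hx, h1, h2⟩ | ⟨x, i, hx, h1, h2, h3, h4, h5⟩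
  · simp only at h1 h2
    subst h1
    have e0 : E 0 = D.b (D.zv v x) (sh x D.L) := by
      rw [h2]; simp [nuf]
    rw [e0] at hc
    by_cases h3 : c = x D.L
    · subst h3
      right
      rw [D.stp_P_exit hx hc.symm]
      exact ⟨x, hx, hc.symm, rfl⟩
    · left
      have := D.stp_P_off (v := v) hx hc h3
      omega
  · simp only at h3 h4
    subst h4
    have e0 : E 0 = x (D.L + i) := by rw [h5]; simp [sh]
    rw [e0] at hc
    rcases D.stp_R_off hx h3 h1 h2 hc with h | ⟨-, h⟩
    · exact Or.inl h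
    · exact Or.inr h

/-- (OFF) from `R(z, i)` with `1 ≤ i ≤ L - 2N`: next state short and free -/
theorem R_off {q : V × List α} {x : ℕ → α} (hx : D.B x)
    (hb : D.b (D.zv q.1 x) (sh x D.L) ≠ x D.L) {i : ℕ} (h1 : 1 ≤ i) (h2 : i + 2 * D.N ≤ D.L)
    (hq : q.2 = D.pth q.1 x i) {c : α} (hc : c ≠ x (D.L + i)) :
    (D.stp c q).2.length ≤ D.R + 4 * D.N + 1 := by
  obtain ⟨v, u⟩ := q
  simp only at hq hb
  subst hq
  rcases D.stp_R_off hx hb h1 (by omega) hc with h | ⟨h, -⟩
  · exact h
  · omega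

/-- a captured state is on the way to the matched orbit: the expected sequence of a P state is in
`Bad` only on the orbit of `th` -/
theorem ex_P_th {v : V} {x : ℕ → α} (hx : D.B x) {X : ℕ → α}
    (hX : ∃ p, 0 < p ∧ p < D.N ∧ ∀ i, X (i + p) = X i)
    (h : D.nu (D.zv v x) (sh x D.L) = X) : D.B X ∧ (D.zv v x, sh x D.L) = D.th X := by
  have h1 := D.nu_per _ _ (D.cyc_run v x hx) (by rw [← h] at hX; exact hX)
  rw [← h]
  exact h1

/-- expected sequences have no block of `3k` letters `o` -/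
theorem ex_zero {q : V × List α} {E : ℕ → α} (h : D.Ex q E) (i : ℕ) :
    ∃ j, j < 3 * D.k ∧ E (i + j) ≠ D.o := by
  rcases h with ⟨x, hx, h1, h2⟩ | ⟨x, i', hx, h1, h2, h3, h4, h5⟩
  · rw [h2]
    exact D.nu_zero _ _ (D.cyc_run q.1 x hx) i
  · rw [h5]
    obtain ⟨j, hj, hx'⟩ := hx.2 (D.L + i' + i)
    exact ⟨j, by omega, by simpa [sh, add_assoc] using hx'⟩

end Dat

end Pool.WFS.Lab
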