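import Pool.Agent.WFS.LabC4

/-!
# WFS module C (labelling), C5: goodness

Every label sequence `X` of a period `< N` synchronises the labelled automaton
(helper90; text /team-store/wfs_labelling.md by helper76).
-/

set_option autoImplicit false
set_option linter.all false

namespace Pool.WFS.Lab

variable {V α : Type}

theorem act_pre_succ (f : α → V → V) (v : V) (x : ℕ → α) (i : ℕ) :
    act f v (pre x (i + 1)) = f (x i) (act f v (pre x i)) := by
  rw [pre_succ, act_append]
  rfl

theorem pre_congr {x y : ℕ → α} {l : ℕ} (h : ∀ i, i < l → x i = y i) : pre x l = pre y l := by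
  apply List.ext_getElem?
  intro t
  rcases lt_or_ge t l with ht | ht
  · rw [pre_getElem? _ _ _ ht, pre_getElem? _ _ _ ht, h t ht]
  · rw [pre_getElem?_none _ _ _ ht, pre_getElem?_none _ _ _ ht]

theorem pre_inj {x y : ℕ → α} {l : ℕ} (h : pre x l = pre y l) (i : ℕ) (hi : i < l) : x i = y i := by
  have h1 : (pre x l)[i]? = (pre y l)[i]? := by rw [h]
  rw [pre_getElem? _ _ _ hi, pre_getElem? _ _ _ hi] at h1
  exact Option.some.inj h1

/-- reading `o` `k` times -/
theorem pre_const {x : ℕ → α} {o : α} {l : ℕ} (h : ∀ i, i < l → x i = o) :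
    pre x l = List.replicate l o := by
  apply List.ext_getElem?
  intro t
  rcases lt_or_ge t l with ht | ht
  · rw [pre_getElem? _ _ _ ht, h t ht, List.getElem?_replicate, if_pos ht]
  · rw [pre_getElem?_none _ _ _ ht, List.getElem?_replicate, if_neg (by omega)]

namespace Dat

variable (D : Dat V α)

theorem srg_add (X : ℕ → α) (q : V × List α) (s t : ℕ) :
    D.sr X q (s + t) = D.sr (sh X s) (D.sr X q s) t := by
  induction t with
  | zero => rfl
  | succ t ih =>
    show D.stp (X (s + t)) (D.sr X q (s + t)) = D.stp (X (s + t)) _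
    rw [ih]

theorem srg_st {q : V × List α} (hq : D.St q) (X : ℕ → α) (t : ℕ) : D.St (D.sr X q t) := by
  cases t with
  | zero => exact hq
  | succ t => exact D.st_stp _ _

/-- as long as the states are free the state is the longest suffix of the default path -/
theorem srg_free (X : ℕ → α) (q : V × List α) (hq : D.St q) (t : ℕ)
    (h : ∀ i, i < t → (D.sr X q i).2.length < D.L) :
    D.sr X q t = D.ls q.1 (q.2 ++ pre X t) := by
  induction t with
  | zero =>
    rw [pre_zero, List.append_nil]
    exact (D.ls_of_inQ hq).symm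
  | succ t ih =>
    have e1 : D.sr X q (t + 1) = D.stp (X t) (D.sr X q t) := rfl
    rw [e1, D.stp_free (h t (Nat.lt_succ_self t)), ih (fun i hi => h i (by omega)), pre_succ,
      ← List.append_assoc, D.ls_append q.1 (q.2 ++ pre X t) [X t]]

/-- captured states stay captured -/
theorem captured {X : ℕ → α} {q : V × List α} (h : D.Ex q X) (t : ℕ) :
    D.Ex (D.sr X q t) (sh X t) := by
  induction t with
  | zero => rw [sh_zero]; exact h
  | succ t ih =>
    have e1 := D.ex_on ih
    rw [sh_sh] at e1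
    have e2 : sh X t 0 = X t := by simp [sh]
    rw [e2] at e1
    exact e1

/-- the states along the expected sequence -/
theorem ex_follow {X E : ℕ → α} {q : V × List α} (h : D.Ex q E) (t : ℕ)
    (hE : ∀ i, i < t → E i = X i) : D.Ex (D.sr X q t) (sh E t) := by
  induction t with
  | zero => rw [sh_zero]; exact h
  | succ t ih =>
    have e1 := D.ex_on (ih (fun i hi => hE i (by omega)))
    rw [sh_sh] at e1
    have e2 : sh E t 0 = X t := by
      show E (t + 0) = X t
      rw [add_zero]
      exact hE t (Nat.lt_succ_self t)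
    rw [e2] at e1
    exact e1

/-- first difference of two sequences -/
theorem first_diff {x y : ℕ → α} (h : x ≠ y) : ∃ j, x j ≠ y j ∧ ∀ i, i < j → x i = y i := by
  classical
  have hex : ∃ j, x j ≠ y j := by
    by_contra hc
    push_neg at hc
    exact h (funext hc)
  refine ⟨Nat.find hex, Nat.find_spec hex, fun i hi => ?_⟩
  by_contra hne
  exact Nat.find_min hex hi hne

/-- short periodic sequences -/
def SP (N : ℕ) (x : ℕ → α) : Prop := ∃ p, 0 < p ∧ p < N ∧ ∀ i, x (i + p) = x i

theorem SP.sh {N : ℕ} {x : ℕ → α} (h : SP N x) (m : ℕ) : SP N (sh x m) := by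
  obtain ⟨p, h1, h2, h3⟩ := h
  refine ⟨p, h1, h2, fun i => ?_⟩
  show x (m + (i + p)) = x (m + i)
  rw [← add_assoc, h3]

/-- a state `R(z, 1)` is captured or leaves to a short free state -/
theorem R1_leave {X : ℕ → α} (hX : SP D.N X) {q : V × List α} {x : ℕ → α} (hx : D.B x)
    (hb : D.b (D.zv q.1 x) (sh x D.L) ≠ x D.L) (hq : q.2 = D.pth q.1 x 1) :
    D.Ex q X ∨ ∃ t, (D.sr X q t).2.length ≤ D.R + 4 * D.N + 1 := by
  have hN := D.hN
  have hL := D.hL
  have hk := D.hk
  by_cases hE : sh x (D.L + 1) = X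
  · left
    right
    exact ⟨x, 1, hx, le_refl _, by omega, hb, hq, hE.symm⟩
  right
  obtain ⟨j, hj, hlt⟩ := first_diff hE
  have hj2 : j < 2 * D.N := by
    by_contra hge
    exact hE (fw (hx.sh (D.L + 1)).1 hX (fun i hi => hlt i (by omega)))
  have hst : ∀ i, i ≤ j → D.sr X q i = (q.1, D.pth q.1 x (1 + i)) := by
    intro i hi
    induction i with
    | zero =>
      show q = _
      rw [add_zero, ← hq]
    | succ i ih =>
      have e1 : D.sr X q (i + 1) = D.stp (X i) (D.sr X q i) := rfl
      rw [e1, ih (by omega), ← hlt i (by omega)]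
      have e2 : sh x (D.L + 1) i = x (D.L + (1 + i)) := by
        show x (D.L + 1 + i) = _
        rw [add_assoc]
      rw [e2, D.stp_R_on hx hb (by omega) (by omega)]
      rfl
  refine ⟨j + 1, ?_⟩
  have e1 : D.sr X q (j + 1) = D.stp (X j) (D.sr X q j) := rfl
  rw [e1, hst j (le_refl _)]
  refine D.R_off (q := (q.1, D.pth q.1 x (1 + j))) hx hb (i := 1 + j) (by omega) (by omega) rfl ?_
  intro h
  apply hj
  show x (D.L + 1 + j) = X j
  rw [h, add_assoc]

/-- a special state is captured, or leaves to a captured state, or to a short free state -/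
theorem special_leave {X : ℕ → α} (hX : SP D.N X) {q : V × List α} {E : ℕ → α} (hq : D.Ex q E) :
    (∃ t, D.Ex (D.sr X q t) (sh X t)) ∨ ∃ t, (D.sr X q t).2.length ≤ D.R + 4 * D.N + 1 := by
  by_cases hE : E = X
  · left
    exact ⟨0, by rw [sh_zero, ← hE]; exact hq⟩
  obtain ⟨j, hj, hlt⟩ := first_diff hE
  have h1 := D.ex_follow hq j hlt
  have h2 : X j ≠ sh E j 0 := by
    show X j ≠ E (j + 0)
    rw [add_zero]
    exact fun h => hj h.symm
  rcases D.ex_off h1 h2 with h3 | ⟨x, hx, hb, h3⟩
  · right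
    exact ⟨j + 1, h3⟩
  · rcases D.R1_leave (hX.sh (j + 1)) hx hb h3 with h4 | ⟨t, h4⟩
    · left
      exact ⟨j + 1, h4⟩
    · right
      refine ⟨j + 1 + t, ?_⟩
      rw [D.srg_add]
      exact h4

/-- from a free state: stay free for ever, or the first time a state is special it is of type P -/
theorem free_alt (X : ℕ → α) {q : V × List α} (hq : D.St q) (hf : q.2.length < D.L) :
    (∀ t, (D.sr X q t).2.length < D.L) ∨ ∃ t x, (∀ i, i < t → (D.sr X q i).2.length < D.L) ∧
      D.B x ∧ (D.sr X q t).2 = pre x D.L ∧ D.L ≤ q.2.length + t := by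
  classical
  by_cases hall : ∀ t, (D.sr X q t).2.length < D.L
  · exact Or.inl hall
  right
  push_neg at hall
  have hspec := Nat.find_spec hall
  have hmin : ∀ i, i < Nat.find hall → (D.sr X q i).2.length < D.L := by
    intro i hi
    have := Nat.find_min hall hi
    omega
  generalize Nat.find hall = t at hspec hmin
  have hlen : ∀ i, (D.sr X q i).2.length ≤ q.2.length + i := by
    intro i
    induction i with
    | zero => exact le_refl _
    | succ i ih =>
      have e1 : D.sr X q (i + 1) = D.stp (X i) (D.sr X q i) := rfl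
      rw [e1]
      have := D.stp_length_le (X i) (D.sr X q i)
      omega
  obtain ⟨t', rfl⟩ : ∃ t', t = t' + 1 := by
    cases t with
    | zero => exact absurd hf (by have : q.2.length = (D.sr X q 0).2.length := rfl
                                  omega)
    | succ t' => exact ⟨t', rfl⟩
  have h1 := hmin t' (by omega)
  have h2 : (D.sr X q (t' + 1)).2.length ≤ (D.sr X q t').2.length + 1 := D.stp_length_le _ _
  have h3 : (D.sr X q (t' + 1)).2.length = D.L := by omega
  have h4 := D.srg_st hq X (t' + 1)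
  have h5 : D.Run (D.sr X q (t' + 1)).2 := by
    rcases h4 with h4 | h4
    · exact h4.2
    · exfalso
      obtain ⟨x, i, hx, hi1, hi2, -, h6⟩ := h4
      have h7 : (D.sr X q (t' + 1)).2.length = D.L + i := by
        rw [h6]
        have hz := D.ze_len _ _ (D.cyc_run (D.sr X q (t' + 1)).1 x hx)
        simp only [pth, List.length_append, pre_length, List.length_take, hz]
        omega
      omega
  obtain ⟨x, hx, h6⟩ := h5
  rw [h3] at h6
  exact ⟨t' + 1, x, hmin, hx, h6, by rw [← h3]; exact hlen _⟩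

/-- the last letters of the full run reached from a short state are letters of `X` -/
theorem run_tail (X : ℕ → α) {q : V × List α} (hq : D.St q) {t : ℕ} {x : ℕ → α}
    (hfree : ∀ i, i < t → (D.sr X q i).2.length < D.L) (hx : (D.sr X q t).2 = pre x D.L)
    {m : ℕ} (hm : m ≤ t) (hmL : m ≤ D.L) (i : ℕ) (hi : i < m) :
    x (D.L - m + i) = X (t - m + i) := by
  have h1 := D.srg_free X q hq t hfree
  obtain ⟨s, hs, h2, -, -⟩ := D.ls_spec q.1 (q.2 ++ pre X t)
  rw [← h1] at h2
  rw [h2] at hx
  have hlen : (q.2 ++ pre X t).length - s = D.L := by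
    have := congrArg List.length hx
    simpa using this
  have h3 : (q.2 ++ pre X t)[s + (D.L - m + i)]? = some (x (D.L - m + i)) := by
    have := congrArg (fun u => u[D.L - m + i]?) hx
    simp only [List.getElem?_drop] at this
    rw [this, pre_getElem? _ _ _ (by omega)]
  rw [List.length_append, pre_length] at hlen
  rw [List.getElem?_append_right (by omega), pre_getElem? _ _ _ (by omega)] at h3
  have h4 := Option.some.inj h3
  rw [← h4]
  congr 1
  omega

/-- a sequence of short period with a block `o^k` has one in every window of length `N + k` -/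
theorem block {X : ℕ → α} (hX : SP D.N X) (hnb : ¬ D.B X) (s : ℕ) :
    ∃ i, s ≤ i ∧ i < s + D.N ∧ ∀ j, j < D.k → X (i + j) = D.o := by
  have h1 : ¬ ∀ i, ∃ j, j < D.k ∧ X (i + j) ≠ D.o := fun h => hnb ⟨hX, h⟩
  push_neg at h1
  obtain ⟨i0, hi0⟩ := h1
  obtain ⟨p, hp, hpN, hper⟩ := hX
  have hmul : ∀ c i, X (i + p * c) = X i := by
    intro c i
    induction c with
    | zero => simp
    | succ c ih => rw [Nat.mul_succ, ← add_assoc, hper, ih]
  -- the place `i ≡ i0` in the window
  have key : ∃ i c d, s ≤ i ∧ i < s + p ∧ i + p * c = i0 + p * d := by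
    refine ⟨s + (i0 + p * s - s) % p, (i0 + p * s - s) / p, s, by omega, ?_, ?_⟩
    · have := Nat.mod_lt (i0 + p * s - s) hp
      omega
    · have h2 := Nat.mod_add_div (i0 + p * s - s) p
      have h3 : s ≤ p * s := Nat.le_mul_of_pos_left s hp
      omega
  obtain ⟨i, c, d, h1, h2, h3⟩ := key
  refine ⟨i, h1, by omega, fun j hj => ?_⟩
  rw [← hmul c (i + j), show i + j + p * c = (i0 + j) + p * d by omega, hmul]
  exact hi0 j hj

/-- a free short state stays free when `X` has a block `o^k` -/
theorem stays_free {X : ℕ → α} (hX : SP D.N X) (hnb : ¬ D.B X) {q : V × List α} (hq : D.St q)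
    (hs : q.2.length ≤ D.R + 4 * D.N + 1) (t : ℕ) : (D.sr X q t).2.length < D.L := by
  have hN := D.hN
  have hL := D.hL
  have hk := D.hk
  rcases D.free_alt X hq (by omega) with h | ⟨t, x, hfree, hx, hrun, hlen⟩
  · exact h t
  · exfalso
    set m := D.N + D.k with hm
    have h1 := D.run_tail X hq hfree hrun (m := m) (by omega) (by omega)
    obtain ⟨i, hi1, hi2, hi3⟩ := D.block hX hnb (t - m)
    obtain ⟨j, hj, hne⟩ := hx.2 (D.L - m + (i - (t - m)))
    apply hne
    rw [show D.L - m + (i - (t - m)) + j = D.L - m + (i - (t - m) + j) by omega,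
      h1 _ (by omega), show t - m + (i - (t - m) + j) = i + j by omega]
    exact hi3 j hj

/-- the states of an expected sequence with a block `o^k` are left -/
theorem ex_not_X {X : ℕ → α} (hX : SP D.N X) (hnb : ¬ D.B X) {q : V × List α} : ¬ D.Ex q X := by
  rintro (⟨x, hx, -, h⟩ | ⟨x, i, hx, -, -, -, -, h⟩)
  · exact hnb (D.ex_P_th hx hX h.symm).1
  · exact hnb (by rw [h]; exact hx.sh _)

/-- the vertex is synchronised by the block `o^k` -/
theorem act_sync {X : ℕ → α} (hX : SP D.N X) (hnb : ¬ D.B X) (m : ℕ) (hm : D.N + D.k ≤ m)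
    (v v' : V) : act D.f v (pre X m) = act D.f v' (pre X m) := by
  obtain ⟨i, hi1, hi2, hi3⟩ := D.block hX hnb 0
  have e1 : m = i + (D.k + (m - i - D.k)) := by omega
  have e2 : pre (sh X i) D.k = List.replicate D.k D.o := pre_const (fun j hj => hi3 j hj)
  rw [e1, pre_add, pre_add, e2, act_append, act_append, act_append, act_append, D.hsync, D.hsync]

/-- case (a): `X` contains `o^k` -/
theorem good_a {X : ℕ → α} (hX : SP D.N X) (hnb : ¬ D.B X) :
    ∃ g : ℕ → V × List α, ∀ q, D.St q → ∃ T, ∀ t, T ≤ t → D.sr X q t = g t := by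
  have hnb' : ∀ s, ¬ D.B (sh X s) := by
    intro s h
    obtain ⟨i, hi1, hi2, hi3⟩ := D.block hX hnb s
    obtain ⟨j, hj, hne⟩ := h.2 (i - s)
    apply hne
    show X (s + (i - s + j)) = D.o
    rw [show s + (i - s + j) = i + j by omega]
    exact hi3 j hj
  refine ⟨fun t => D.ls (act D.f D.vs (pre X (t - D.L))) (pre (sh X (t - D.L)) D.L), ?_⟩
  intro q hq
  -- a short free state is reached
  have hshort : ∀ (s : ℕ) (q : V × List α), D.St q →
      ∃ t, (D.sr (sh X s) q t).2.length ≤ D.R + 4 * D.N + 1 ∨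
        ∀ t', (D.sr (sh X s) q t').2.length < D.L := by
    intro s q hq
    rcases D.st_cases hq with ⟨hl, -⟩ | ⟨E, hE⟩
    · rcases D.free_alt (sh X s) hq hl with h | ⟨t, x, hfree, hx, hrun, -⟩
      · exact ⟨0, Or.inr h⟩
      · have hE : D.Ex (D.sr (sh X s) q t) (D.nu (D.zv (D.sr (sh X s) q t).1 x) (sh x D.L)) := by
          left
          refine ⟨x, hx, ?_, rfl⟩
          rw [hrun]
          simp [pth]
        rcases D.special_leave ((hX.sh s).sh t) hE with ⟨t', h⟩ | ⟨t', h⟩
        · exfalso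
          rw [sh_sh, sh_sh] at h
          exact D.ex_not_X (hX.sh _) (hnb' _) h
        · exact ⟨t + t', Or.inl (by rw [D.srg_add]; exact h)⟩
    · rcases D.special_leave (hX.sh s) hE with ⟨t', h⟩ | ⟨t', h⟩
      · exfalso
        rw [sh_sh] at h
        exact D.ex_not_X (hX.sh _) (hnb' _) h
      · exact ⟨t', Or.inl h⟩
  obtain ⟨t1, ht1⟩ : ∃ t1, ∀ t, t1 ≤ t → (D.sr X q t).2.length < D.L := by
    obtain ⟨t1, h | h⟩ := hshort 0 q hq
    · rw [sh_zero] at h
      refine ⟨t1, fun t ht => ?_⟩
      obtain ⟨c, rfl⟩ := Nat.exists_eq_add_of_le ht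
      rw [D.srg_add]
      exact D.stays_free (hX.sh t1) (hnb' t1) (D.srg_st hq X t1) h c
    · rw [sh_zero] at h
      exact ⟨0, fun t _ => h t⟩
  refine ⟨t1 + (D.N + D.k) + D.L, fun t ht => ?_⟩
  obtain ⟨c, rfl⟩ : ∃ c, t = t1 + c + D.L := ⟨t - t1 - D.L, by omega⟩
  have h1 : D.sr X q (t1 + c + D.L) =
      D.ls (D.sr X q t1).1 ((D.sr X q t1).2 ++ pre (sh X t1) (c + D.L)) := by
    rw [add_assoc, D.srg_add, D.srg_free (sh X t1) _ (D.srg_st hq X t1)]
    intro i _
    rw [← D.srg_add]
    exact ht1 _ (by omega)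
  have h2 := ht1 (t1 + c + D.L) (by omega)
  rw [h1, pre_add, ← List.append_assoc] at h2
  rw [h1, pre_add, ← List.append_assoc, D.ls_short (by rw [pre_length]; omega), sh_sh, act_append]
  show _ = D.ls (act D.f D.vs (pre X (t1 + c + D.L - D.L))) (pre (sh X (t1 + c + D.L - D.L)) D.L)
  rw [Nat.add_sub_cancel, pre_add, act_append]
  congr 1
  exact D.act_sync (hX.sh t1) (hnb' t1) c (by omega) _ _

/-- the P states along the orbit, as long as the labels are the matched ones -/
theorem P_follow {X : ℕ → α} {v : V} {x : ℕ → α} (hx : D.B x) (t : ℕ)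
    (h : ∀ i, i < t → X i = D.nu (D.zv v x) (sh x D.L) i) :
    D.sr X (v, D.pth v x 0) t = (act D.f v (pre x t), D.pth (act D.f v (pre x t)) (sh x t) 0) := by
  induction t with
  | zero =>
    show (v, D.pth v x 0) = _
    simp
  | succ t ih =>
    have e1 : D.sr X (v, D.pth v x 0) (t + 1) = D.stp (X t) (D.sr X (v, D.pth v x 0) t) := rfl
    have e2 : X t = D.b (D.zv (act D.f v (pre x t)) (sh x t)) (sh (sh x t) D.L) := by
      rw [h t (Nat.lt_succ_self t)]
      show D.b (act D.f (D.zv v x) (pre (sh x D.L) t)) (sh (sh x D.L) t) = _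
      unfold zv
      rw [← act_append, ← act_append, ← pre_add, ← pre_add, sh_sh, sh_sh, add_comm]
    rw [e1, ih (fun i hi => h i (by omega)), e2, D.stp_P_on (hx.sh t), act_pre_succ]
    simp only [sh_sh]
    simp [sh]

/-- case (b): `X` is bad; every state is captured -/
theorem capture_b {X : ℕ → α} (hb : D.B X) {q : V × List α} (hq : D.St q) :
    ∃ t, D.Ex (D.sr X q t) (sh X t) := by
  have hN := D.hN
  have hL := D.hL
  have hk := D.hk
  -- a free state does not stay free
  have hnf : ∀ (s : ℕ) (q : V × List α), D.St q → q.2.length < D.L →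
      ∃ t x, (∀ i, i < t → (D.sr (sh X s) q i).2.length < D.L) ∧
      D.B x ∧ (D.sr (sh X s) q t).2 = pre x D.L ∧ D.L ≤ q.2.length + t := by
    intro s q hq hl
    rcases D.free_alt (sh X s) hq hl with h | h
    · exfalso
      have h1 := D.srg_free (sh X s) q hq D.L (fun i _ => h i)
      have h2 := h D.L
      rw [h1] at h2
      have h3 := D.ls_length_ge (v := q.1) (u := q.2 ++ pre (sh X s) D.L) q.2.length
        (by
          rw [List.drop_left]
          left
          refine ⟨by simp, sh X s, hb.sh s, by simp⟩)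
      rw [List.length_append, pre_length] at h3
      omega
    · exact h
  -- from a short state
  have hshort : ∀ (s : ℕ) (q : V × List α), D.St q → q.2.length ≤ D.R + 4 * D.N + 1 →
      ∃ t, D.Ex (D.sr (sh X s) q t) (sh (sh X s) t) := by
    intro s q hq hl
    obtain ⟨t, x, hfree, hx, hrun, hlen⟩ := hnf s q hq (by omega)
    have h1 := D.run_tail (sh X s) hq hfree hrun (m := 2 * D.N) (by omega) (by omega)
    have h2 : sh x D.L = sh (sh X s) t := by
      have h3 := Bad.fw' hx (hb.sh s) (D.L - 2 * D.N) (t - 2 * D.N) (fun i hi => h1 i hi)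
      funext i
      have h4 := h3 (2 * D.N + i)
      rw [show D.L - 2 * D.N + (2 * D.N + i) = D.L + i by omega,
        show t - 2 * D.N + (2 * D.N + i) = t + i by omega] at h4
      exact h4
    set q1 := D.sr (sh X s) q t with hq1
    have hq1' : q1 = (q1.1, D.pth q1.1 x 0) := by
      refine Prod.ext rfl ?_
      rw [hrun]
      simp [pth]
    by_cases hE : D.nu (D.zv q1.1 x) (sh x D.L) = sh (sh X s) t
    · refine ⟨t, Or.inl ⟨x, hx, ?_, hE.symm⟩⟩
      rw [← hq1]
      exact congrArg Prod.snd hq1'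
    obtain ⟨j, hj, hlt⟩ := first_diff hE
    have h5 := D.P_follow (X := sh (sh X s) t) hx j (v := q1.1) (fun i hi => (hlt i hi).symm)
    rw [← hq1'] at h5
    refine ⟨t + (j + 1), ?_⟩
    rw [D.srg_add, ← hq1]
    have e1 : D.sr (sh (sh X s) t) q1 (j + 1) =
        D.stp (sh (sh X s) t j) (D.sr (sh (sh X s) t) q1 j) := rfl
    have e2 : sh (sh X s) t j = (sh x j) D.L := by
      rw [← h2]
      show x (D.L + j) = x (j + D.L)
      rw [add_comm]
    have e3 : D.b (D.zv (act D.f q1.1 (pre x j)) (sh x j)) (sh (sh x j) D.L) ≠ (sh x j) D.L := by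
      intro h
      apply hj
      rw [e2, ← h]
      show D.b (act D.f (D.zv q1.1 x) (pre (sh x D.L) j)) (sh (sh x D.L) j) = _
      unfold zv
      rw [← act_append, ← act_append, ← pre_add, ← pre_add, sh_sh, sh_sh, add_comm]
    rw [e1, h5, e2, D.stp_P_exit (hx.sh j) e3]
    right
    refine ⟨sh x j, 1, hx.sh j, le_refl _, by omega, e3, rfl, ?_⟩
    rw [← sh_sh (sh X s) t (j + 1), ← h2, sh_sh, sh_sh]
    congr 1
    omega
  -- from a special state
  have hspec : ∀ (s : ℕ) (q : V × List α) (E : ℕ → α), D.St q → D.Ex q E →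
      ∃ t, D.Ex (D.sr (sh X s) q t) (sh (sh X s) t) := by
    intro s q E hq hE
    rcases D.special_leave (hb.sh s).1 hE with h | ⟨t, h⟩
    · exact h
    · obtain ⟨t', h'⟩ := hshort (s + t) _ (D.srg_st hq (sh X s) t) h
      refine ⟨t + t', ?_⟩
      rw [D.srg_add, ← sh_sh (sh X s) t t', sh_sh X s t]
      exact h'
  rcases D.st_cases hq with ⟨hl, -⟩ | ⟨E, hE⟩
  · obtain ⟨t, x, -, hx, hrun, -⟩ := hnf 0 q hq hl
    rw [sh_zero] at hrun
    obtain ⟨t', h'⟩ := hspec t (D.sr X q t) _ (D.srg_st hq X t) (Or.inl ⟨x, hx, by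
      rw [hrun]; simp [pth], rfl⟩)
    refine ⟨t + t', ?_⟩
    rw [D.srg_add, ← sh_sh]
    exact h'
  · have := hspec 0 q E hq hE
    rw [sh_zero] at this
    exact this

theorem th_iter_g {X : ℕ → α} (hb : D.B X) (m : ℕ) :
    D.th (sh X m) = (act D.f (D.th X).1 (pre (D.th X).2 m), sh (D.th X).2 m) := by
  induction m with
  | zero => simp
  | succ m ih =>
    rw [← sh_sh, D.th_sh _ (hb.sh m), ih]
    refine Prod.ext ?_ ?_
    · show D.f (sh (D.th X).2 m 0) _ = _
      rw [act_pre_succ]
      simp [sh]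
    · show sh (sh (D.th X).2 m) 1 = _
      rw [sh_sh]

/-- a captured state becomes a P state -/
theorem capture_P {X : ℕ → α} (hb : D.B X) {q : V × List α} (hE : D.Ex q X) :
    ∃ t v y, D.B y ∧ D.sr X q t = (v, D.pth v y 0) ∧
      (D.zv v y, sh y D.L) = D.th (sh X t) := by
  rcases hE with ⟨x, hx, hq, h⟩ | ⟨x, i, hx, hi1, hi2, hbb, hq, h⟩
  · refine ⟨0, q.1, x, hx, Prod.ext rfl hq, ?_⟩
    rw [sh_zero]
    exact (D.ex_P_th hx hb.1 h.symm).2
  · -- along the detour
    have hst : ∀ j, i + j ≤ D.R + D.L → D.sr X q j = (q.1, D.pth q.1 x (i + j)) := by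
      intro j hj
      induction j with
      | zero =>
        show q = _
        rw [add_zero, ← hq]
      | succ j ih =>
        have e1 : D.sr X q (j + 1) = D.stp (X j) (D.sr X q j) := rfl
        have e2 : X j = x (D.L + (i + j)) := by
          rw [h]
          show x (D.L + i + j) = _
          rw [add_assoc]
        rw [e1, ih (by omega), e2, D.stp_R_on hx hbb (by omega) (by omega)]
        rfl
    obtain ⟨v', y, hy, h1, h2⟩ := D.stp_R_last (v := q.1) hx hbb
    refine ⟨D.R + D.L - i + 1, v', y, hy, ?_, ?_⟩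
    · have e1 : D.sr X q (D.R + D.L - i + 1) =
          D.stp (X (D.R + D.L - i)) (D.sr X q (D.R + D.L - i)) := rfl
      have e2 : X (D.R + D.L - i) = x (D.L + (D.R + D.L)) := by
        rw [h]
        show x (D.L + i + (D.R + D.L - i)) = _
        congr 1
        omega
      rw [e1, hst _ (by omega), e2, show i + (D.R + D.L - i) = D.R + D.L by omega, h1]
    · rw [h2, h, sh_sh]
      congr 2
      omega

/-- case (b) -/
theorem good_b {X : ℕ → α} (hb : D.B X) :
    ∃ g : ℕ → V × List α, ∀ q, D.St q → ∃ T, ∀ t, T ≤ t → D.sr X q t = g t := by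
  refine ⟨fun t => ((D.th (sh X (t - D.L))).1, pre (D.th (sh X (t - D.L))).2 D.L), ?_⟩
  intro q hq
  obtain ⟨t1, ht1⟩ := D.capture_b hb hq
  obtain ⟨t2, v, y, hy, h1, h2⟩ := D.capture_P (hb.sh t1) ht1
  rw [← D.srg_add, ] at h1
  rw [sh_sh] at h2
  set s := t1 + t2 with hs
  refine ⟨s + D.L, fun t ht => ?_⟩
  obtain ⟨c, rfl⟩ : ∃ c, t = s + (D.L + c) := ⟨t - s - D.L, by omega⟩
  have h3 : ∀ i, sh X s i = D.nu (D.zv v y) (sh y D.L) i := by
    intro i
    have h4 := D.th_nu (sh X s) (hb.sh s)
    rw [← h2] at h4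
    exact (congrFun h4 i).symm
  rw [D.srg_add, h1, D.P_follow hy (D.L + c) (fun i _ => h3 i)]
  show _ = ((D.th (sh X (s + (D.L + c) - D.L))).1, pre (D.th (sh X (s + (D.L + c) - D.L))).2 D.L)
  have e1 : s + (D.L + c) - D.L = s + c := by omega
  have e2 : D.th (sh X (s + c)) = (act D.f (D.zv v y) (pre (sh y D.L) c), sh (sh y D.L) c) := by
    rw [← sh_sh, D.th_iter_g (hb.sh s), ← h2]
  rw [e1, e2, sh_sh]
  refine Prod.ext ?_ ?_
  · show act D.f v (pre y (D.L + c)) = act D.f (D.zv v y) (pre (sh y D.L) c)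
    unfold zv
    rw [← act_append, ← pre_add]
  · show D.pth _ _ 0 = _
    simp [pth]

theorem finite_states [Finite V] [Finite α] : {q : V × List α | D.St q}.Finite := by
  refine Set.Finite.subset (Set.Finite.prod (Set.finite_univ (α := V))
    (List.finite_length_le α (D.L + (D.R + D.L)))) ?_
  rintro q hq
  exact ⟨Set.mem_univ _, D.inQ_length hq⟩

/-- **Goodness** (C5): a label sequence of a period `< N` synchronises the automaton. -/
theorem good [Finite V] [Finite α] {X : ℕ → α}
    (hX : ∃ p, 0 < p ∧ p < D.N ∧ ∀ i, X (i + p) = X i) :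
    ∃ T, ∀ t, T ≤ t → ∀ q q', D.St q → D.St q' → D.sr X q t = D.sr X q' t := by
  obtain ⟨g, hg⟩ : ∃ g : ℕ → V × List α, ∀ q, D.St q → ∃ T, ∀ t, T ≤ t → D.sr X q t = g t := by
    by_cases hb : D.B X
    · exact D.good_b hb
    · exact D.good_a hX hb
  choose! T hT using hg
  refine ⟨D.finite_states.toFinset.sup T, fun t ht q q' hq hq' => ?_⟩
  rw [hT q hq t, hT q' hq' t]
  · exact le_trans (Finset.le_sup (f := T) (by rw [Set.Finite.mem_toFinset]; exact hq')) ht
  · exact le_trans (Finset.le_sup (f := T) (by rw [Set.Finite.mem_toFinset]; exact hq)) ht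

end Dat

end Pool.WFS.Lab
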