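import Pool.Agent.WFS.LabC4

/-!
# WFS module C (labelling), C6: the word `o ^ (7k)` is a killing word
(helper18; text /team-store/wfs_labelling.md by helper76)

`D.kill`: the state after `7k` letters `o` (as labels) does not depend on the state at the beginning; it is
`ls vs (o ^ k)`. An expected sequence has no block of `3k` letters `o` and a bad sequence no block of `k`, so a special
state is left after at most `4k` letters `o` into a short free state; a free state becomes short or special after at most
`k` letters; a short free state stays free and after `2k` letters it is `ls vs (o ^ k)`.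
-/

set_option autoImplicit false
set_option linter.all false

namespace Pool.WFS.Lab

namespace Dat

variable {V α : Type} (D : Dat V α)

/-- the constant sequence `o` -/
abbrev Z : ℕ → α := fun _ => D.o

theorem sr_succ (X : ℕ → α) (q : V × List α) (t : ℕ) :
    D.sr X q (t + 1) = D.stp (X t) (D.sr X q t) := rfl

theorem sr_add (X : ℕ → α) (q : V × List α) (s t : ℕ) :
    D.sr X q (s + t) = D.sr (sh X s) (D.sr X q s) t := by
  induction t with
  | zero => rfl
  | succ t ih =>
    rw [← add_assoc, sr_succ, sr_succ, ih]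
    rfl

theorem sr_Z_add (q : V × List α) (s t : ℕ) :
    D.sr D.Z q (s + t) = D.sr D.Z (D.sr D.Z q s) t := D.sr_add D.Z q s t

theorem st_sr {X : ℕ → α} {q : V × List α} (hq : D.St q) (t : ℕ) : D.St (D.sr X q t) := by
  cases t with
  | zero => exact hq
  | succ t => exact D.st_stp _ _

theorem sr_length_le (X : ℕ → α) (q : V × List α) (t : ℕ) :
    (D.sr X q t).2.length ≤ q.2.length + t := by
  induction t with
  | zero => exact le_refl _
  | succ t ih =>
    have := D.stp_length_le (X t) (D.sr X q t)
    rw [sr_succ]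
    omega

theorem ls_self {q : V × List α} (hq : D.St q) : D.ls q.1 q.2 = q := D.ls_of_inQ hq

/-- while the states are free the labels are the default letters -/
theorem sr_free {q : V × List α} (hq : D.St q) (s : ℕ)
    (h : ∀ s', s' < s → (D.sr D.Z q s').2.length < D.L) :
    D.sr D.Z q s = D.ls q.1 (q.2 ++ List.replicate s D.o) := by
  induction s with
  | zero =>
    rw [List.replicate_zero, List.append_nil]
    exact (D.ls_self hq).symm
  | succ s ih =>
    have h1 := ih fun s' hs' => h s' (by omega)
    rw [sr_succ, D.stp_free (h s (by omega)), h1, ← ls_append, List.append_assoc]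
    congr 2
    exact (List.replicate_succ' ..).symm

theorem tr_length {v : V} {u : List α} (h : D.TR v u) : D.L < u.length := by
  obtain ⟨x, i, hx, h1, h2, hb, rfl⟩ := h
  unfold pth
  rw [List.length_append, pre_length, List.length_take, D.ze_len _ _ (D.cyc_run v x hx)]
  omega

/-- a free state after `k` default letters `o` is short -/
theorem zeros_short {v : V} {u : List α} {m : ℕ} (hm : D.k ≤ m)
    (h : (D.ls v (u ++ List.replicate m D.o)).2.length < D.L) :
    (D.ls v (u ++ List.replicate m D.o)).2.length < D.k := by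
  obtain ⟨m0, h0, h1, h2, -⟩ := D.ls_spec v (u ++ List.replicate m D.o)
  rw [h1] at h ⊢
  by_contra hcon
  rcases h2 with ⟨-, x, hx, hu⟩ | h2
  · set w := (u ++ List.replicate m D.o).drop m0 with hw
    have hwl : w.length = u.length + m - m0 := by
      rw [hw, List.length_drop, List.length_append, List.length_replicate]
    have hcon' : D.k ≤ w.length := not_lt.1 hcon
    obtain ⟨j, hj, hne⟩ := hx.2 (w.length - D.k)
    apply hne
    have e1 : w[w.length - D.k + j]? = some (x (w.length - D.k + j)) := by
      have h5 : ∀ t : ℕ, w[t]? = (pre x w.length)[t]? := fun t => congrArg (fun l => l[t]?) hu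
      rw [h5]
      exact pre_getElem? _ _ _ (by omega)
    have e2 : w[w.length - D.k + j]? = some D.o := by
      rw [hw, List.getElem?_drop, ← hw, List.getElem?_append_right (by omega),
        List.getElem?_replicate_of_lt (by omega)]
    rw [e1] at e2
    exact Option.some.inj e2
  · have := D.tr_length h2
    exact absurd h (not_lt.2 this.le)

/-- a short state stays free -/
theorem short_all {q : V × List α} (hq : D.St q) (hs : q.2.length ≤ D.R + 4 * D.N + 1) (s : ℕ) :
    (D.sr D.Z q s).2.length < D.L ∧ (D.k ≤ s → (D.sr D.Z q s).2.length < D.k) := by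
  have hL := D.hL
  have hk := D.hk
  have hN := D.hN
  induction s using Nat.strong_induction_on with
  | _ s ih =>
    have h1 : (D.sr D.Z q s).2.length < D.L := by
      rcases le_or_gt s D.k with h | h
      · have := D.sr_length_le D.Z q s
        omega
      · obtain ⟨s', rfl⟩ : ∃ s', s = s' + 1 := ⟨s - 1, by omega⟩
        have h2 := (ih s' (by omega)).2 (by omega)
        have h3 := D.stp_length_le (D.Z s') (D.sr D.Z q s')
        rw [sr_succ]
        omega
    refine ⟨h1, fun h2 => ?_⟩
    have h3 := D.sr_free hq s fun s' hs' => (ih s' hs').1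
    rw [h3] at h1 ⊢
    exact D.zeros_short h2 h1

theorem act_zeros (v : V) {m : ℕ} (hm : D.k ≤ m) : act D.f v (List.replicate m D.o) = D.vs := by
  obtain ⟨c, rfl⟩ := Nat.exists_eq_add_of_le hm
  rw [add_comm, ← List.replicate_append_replicate, act_append]
  exact D.hsync _

/-- a short state is killed by `2k` letters `o` -/
theorem short_kill {q : V × List α} (hq : D.St q) (hs : q.2.length ≤ D.R + 4 * D.N + 1) {s : ℕ}
    (h : 2 * D.k ≤ s) : D.sr D.Z q s = D.ls D.vs (List.replicate D.k D.o) := by
  have hk := D.hk
  have h1 := D.sr_free hq s fun s' _ => (D.short_all hq hs s').1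
  have h2 := (D.short_all hq hs s).2 (by omega)
  obtain ⟨c, rfl⟩ := Nat.exists_eq_add_of_le h
  have e1 : q.2 ++ List.replicate (2 * D.k + c) D.o =
      (q.2 ++ List.replicate (D.k + c) D.o) ++ List.replicate D.k D.o := by
    rw [List.append_assoc, List.replicate_append_replicate]
    congr 2
    ring
  rw [h1, e1] at h2 ⊢
  rw [D.ls_short (by rw [List.length_replicate]; exact h2.le), act_append,
    D.act_zeros _ (by omega)]

/-- a special state is left after at most `4k` letters `o` -/
theorem special_exit {q : V × List α} {E : ℕ → α} (h : D.Ex q E) :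
    ∃ t, t ≤ 4 * D.k ∧ (D.sr D.Z q t).2.length ≤ D.R + 4 * D.N + 1 := by
  classical
  have hL := D.hL
  have hk := D.hk
  have hN := D.hN
  obtain ⟨j0, hj0, hne0⟩ := D.ex_zero h 0
  rw [zero_add] at hne0
  have hex : ∃ j, E j ≠ D.o := ⟨j0, hne0⟩
  set j := Nat.find hex with hj
  have hjE : E j ≠ D.o := Nat.find_spec hex
  have hjlt : j < 3 * D.k := lt_of_le_of_lt (Nat.find_min' hex hne0) hj0
  have hmin : ∀ i, i < j → E i = D.o := fun i hi => not_not.1 (Nat.find_min hex hi)
  have hon : ∀ i, i ≤ j → D.Ex (D.sr D.Z q i) (sh E i) := by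
    intro i
    induction i with
    | zero => intro _; rw [sh_zero]; exact h
    | succ i ih =>
      intro hi
      have h1 := D.ex_on (ih (by omega))
      rw [sh_sh] at h1
      have h2 : sh E i 0 = D.o := by
        show E (i + 0) = D.o
        rw [add_zero]
        exact hmin i (by omega)
      rw [h2] at h1
      exact h1
  have hc : D.o ≠ sh E j 0 := by
    show D.o ≠ E (j + 0)
    rw [add_zero]
    exact hjE.symm
  rcases D.ex_off (hon j le_rfl) hc with h1 | ⟨x, hx, hb, hp⟩
  · exact ⟨j + 1, by omega, h1⟩
  · set q1 := D.stp D.o (D.sr D.Z q j) with hq1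
    have hq1' : D.sr D.Z q (j + 1) = q1 := rfl
    obtain ⟨i0, hi0, hnei⟩ := hx.2 (D.L + 1)
    have hex2 : ∃ i, x (D.L + 1 + i) ≠ D.o := ⟨i0, hnei⟩
    set i := Nat.find hex2 with hi
    have hiE : x (D.L + 1 + i) ≠ D.o := Nat.find_spec hex2
    have hilt : i < D.k := lt_of_le_of_lt (Nat.find_min' hex2 hnei) hi0
    have hmin2 : ∀ i', i' < i → x (D.L + 1 + i') = D.o := fun i' hi' =>
      not_not.1 (Nat.find_min hex2 hi')
    have hon2 : ∀ i', i' ≤ i → D.sr D.Z q1 i' = (q1.1, D.pth q1.1 x (1 + i')) := by
      intro i'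
      induction i' with
      | zero =>
        intro _
        show q1 = _
        rw [add_zero, ← hp]
      | succ i' ih =>
        intro hi'
        rw [sr_succ, ih (by omega)]
        have h3 := D.stp_R_on hx hb (i := 1 + i') (by omega) (by omega)
        rw [show D.L + (1 + i') = D.L + 1 + i' by ring, hmin2 i' (by omega)] at h3
        exact h3
    have h4 := hon2 i le_rfl
    have h5 := D.R_off (q := D.sr D.Z q1 i) hx (by rw [h4]; exact hb) (i := 1 + i) (by omega)
      (by omega) (by rw [h4]) (c := D.o) (by
        rw [show D.L + (1 + i) = D.L + 1 + i by ring]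
        exact hiE.symm)
    refine ⟨(j + 1) + (i + 1), by omega, ?_⟩
    rw [sr_Z_add, hq1']
    exact h5

/-- every state becomes short after at most `5k` letters `o` -/
theorem all_exit {q : V × List α} (hq : D.St q) :
    ∃ t, t ≤ 5 * D.k ∧ (D.sr D.Z q t).2.length ≤ D.R + 4 * D.N + 1 := by
  have hk := D.hk
  have hN := D.hN
  have key : ∀ s, s ≤ D.k → D.L ≤ (D.sr D.Z q s).2.length →
      ∃ t, t ≤ 5 * D.k ∧ (D.sr D.Z q t).2.length ≤ D.R + 4 * D.N + 1 := by
    intro s hs hle
    rcases D.st_cases (D.st_sr (X := D.Z) hq s) with ⟨h1, -⟩ | ⟨E, hE⟩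
    · omega
    · obtain ⟨t, ht, h2⟩ := D.special_exit hE
      refine ⟨s + t, by omega, ?_⟩
      rw [sr_Z_add]
      exact h2
  by_cases h : ∃ s, s ≤ D.k ∧ D.L ≤ (D.sr D.Z q s).2.length
  · obtain ⟨s, h1, h2⟩ := h
    exact key s h1 h2
  · push Not at h
    have h1 := D.sr_free hq D.k fun s' hs' => h s' hs'.le
    have h2 := h D.k le_rfl
    rw [h1] at h2
    have h3 := D.zeros_short le_rfl h2
    refine ⟨D.k, by omega, ?_⟩
    rw [h1]
    omega

theorem kill_eq {q : V × List α} (hq : D.St q) :
    D.sr D.Z q (7 * D.k) = D.ls D.vs (List.replicate D.k D.o) := by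
  obtain ⟨t, ht, h⟩ := D.all_exit hq
  obtain ⟨c, hc⟩ := Nat.exists_eq_add_of_le (show t ≤ 7 * D.k by omega)
  rw [hc, sr_Z_add]
  exact D.short_kill (D.st_sr hq t) h (by omega)

/-- **Killing word.** -/
theorem kill {q q' : V × List α} (hq : D.St q) (hq' : D.St q') :
    D.sr (fun _ => D.o) q (7 * D.k) = D.sr (fun _ => D.o) q' (7 * D.k) :=
  (D.kill_eq hq).trans (D.kill_eq hq').symm

end Dat

end Pool.WFS.Lab
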