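import Pool.Agent.WFS.LabC3

/-! # WFS module LabW (first part of C7): counting words which avoid `o ^ K`, and the bad sequences

`α` is a finite alphabet, `o : α`. `AvW o K u`: the word `u` does not contain `o ^ K`. There are `C` and `lam` with
`1 ≤ lam < card α` such that at most `C * lam ^ j` words of length `j` avoid `o ^ K` (`exists_lam`); the set of the
bad sequences `Bad o N k` is finite and has at most `N * C * lam ^ N` elements for `k ≤ K` (`bad_card`).
(helper18)
-/

set_option autoImplicit false

namespace Pool.WFS.Lab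

variable {α : Type}

/-- the word `u` does not contain `o ^ K` -/
def AvW (o : α) (K : ℕ) (u : List α) : Prop := ¬ List.replicate K o <:+: u

theorem AvW.sub {o : α} {K : ℕ} {u v : List α} (h : AvW o K u) (hv : v <:+: u) : AvW o K v :=
  fun h' => h (h'.trans hv)

theorem AvW.mono {o : α} {k K : ℕ} (hk : k ≤ K) {u : List α} (h : AvW o k u) : AvW o K u := by
  intro h'
  refine h (List.IsInfix.trans ?_ h')
  refine ⟨[], List.replicate (K - k) o, ?_⟩
  rw [List.nil_append, List.replicate_append_replicate, Nat.add_sub_cancel' hk]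

/-- the words of length `j` which avoid `o ^ K` -/
def WA (o : α) (K j : ℕ) : Set (List α) := {u | u.length = j ∧ AvW o K u}

variable [Fintype α]

theorem WA_finite (o : α) (K j : ℕ) : (WA o K j).Finite :=
  (List.finite_length_eq α j).subset fun _ h => h.1

theorem ncard_len (j : ℕ) : {u : List α | u.length = j}.ncard = Fintype.card α ^ j := by
  rw [← Nat.card_coe_set_eq]
  have h : Nat.card (List.Vector α j) = Fintype.card α ^ j := by
    rw [Nat.card_eq_fintype_card, card_vector]
  exact h

theorem WA_ncard_le (o : α) (K j : ℕ) : (WA o K j).ncard ≤ Fintype.card α ^ j := by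
  rw [← ncard_len (α := α) j]
  exact Set.ncard_le_ncard (fun _ h => h.1) (List.finite_length_eq α j)

theorem WA_step (o : α) (K j : ℕ) :
    (WA o K (j + K)).ncard ≤ (Fintype.card α ^ K - 1) * (WA o K j).ncard := by
  set B : Set (List α) := {u | u.length = K} \ {List.replicate K o} with hB
  have hBf : B.Finite := (List.finite_length_eq α K).subset fun _ h => h.1
  have hBc : B.ncard = Fintype.card α ^ K - 1 := by
    rw [hB, Set.ncard_sdiff_singleton_of_mem (by simp), ncard_len]
  rw [← hBc, ← Set.ncard_prod]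
  refine Set.ncard_le_ncard_of_injOn (fun u => (u.take K, u.drop K)) ?_ ?_
    (hBf.prod (WA_finite o K j))
  · rintro u ⟨hu, hav⟩
    refine ⟨⟨?_, ?_⟩, ?_, ?_⟩
    · show (u.take K).length = K
      rw [List.length_take, hu]
      omega
    · intro h
      have h1 : u.take K = List.replicate K o := h
      refine hav ?_
      rw [← h1]
      exact (List.take_prefix K u).isInfix
    · show (u.drop K).length = j
      rw [List.length_drop, hu]
      omega
    · exact hav.sub (List.drop_suffix K u).isInfix
  · intro u _ v _ h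
    have h1 : u.take K = v.take K := congrArg Prod.fst h
    have h2 : u.drop K = v.drop K := congrArg Prod.snd h
    rw [← List.take_append_drop K u, ← List.take_append_drop K v, h1, h2]

theorem WA_bound (o : α) (K q r : ℕ) :
    (WA o K (r + q * K)).ncard ≤ (Fintype.card α ^ K - 1) ^ q * Fintype.card α ^ r := by
  induction q with
  | zero =>
    rw [zero_mul, add_zero, pow_zero, one_mul]
    exact WA_ncard_le o K r
  | succ q ih =>
    have e : r + (q + 1) * K = (r + q * K) + K := by ring
    rw [e]
    refine (WA_step o K (r + q * K)).trans ?_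
    calc (Fintype.card α ^ K - 1) * (WA o K (r + q * K)).ncard ≤
          (Fintype.card α ^ K - 1) * ((Fintype.card α ^ K - 1) ^ q * Fintype.card α ^ r) :=
          Nat.mul_le_mul_left _ ih
      _ = (Fintype.card α ^ K - 1) ^ (q + 1) * Fintype.card α ^ r := by ring

/-- exponentially few words avoid `o ^ K` -/
theorem exists_lam (o : α) (hn : 2 ≤ Fintype.card α) {K : ℕ} (hK : 1 ≤ K) :
    ∃ lam : ℝ, 1 ≤ lam ∧ lam < Fintype.card α ∧
      ∀ j : ℕ, ((WA o K j).ncard : ℝ) ≤ (Fintype.card α : ℝ) ^ K * lam ^ j := by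
  set n : ℕ := Fintype.card α with hndef
  have hnK : 2 ≤ n ^ K := by
    calc 2 ≤ n := hn
      _ = n ^ 1 := (pow_one n).symm
      _ ≤ n ^ K := Nat.pow_le_pow_right (by omega) hK
  have hb : (1 : ℝ) ≤ (n : ℝ) ^ K - 1 := by
    have : (2 : ℝ) ≤ (n : ℝ) ^ K := by exact_mod_cast hnK
    linarith
  have hK0 : (K : ℝ) ≠ 0 := by
    have : (1 : ℝ) ≤ K := by exact_mod_cast hK
    linarith
  set lam : ℝ := ((n : ℝ) ^ K - 1) ^ ((1 : ℝ) / K) with hlam
  have hlK : lam ^ K = (n : ℝ) ^ K - 1 := by
    rw [hlam, ← Real.rpow_natCast, ← Real.rpow_mul (by linarith), one_div_mul_cancel hK0,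
      Real.rpow_one]
  have hl1 : 1 ≤ lam := Real.one_le_rpow hb (by positivity)
  have hn1 : (1 : ℝ) ≤ n := by
    have : (2 : ℝ) ≤ n := by exact_mod_cast hn
    linarith
  refine ⟨lam, hl1, ?_, fun j => ?_⟩
  · refine lt_of_pow_lt_pow_left₀ K (by linarith) ?_
    rw [hlK]
    linarith
  · have hj : j = j % K + j / K * K := by
      rw [mul_comm, Nat.mod_add_div]
    have h1 : ((WA o K j).ncard : ℝ) ≤ (((n : ℝ) ^ K - 1) ^ (j / K)) * (n : ℝ) ^ (j % K) := by
      have h2 := WA_bound o K (j / K) (j % K)
      rw [← hj, ← hndef] at h2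
      have h3 : ((WA o K j).ncard : ℝ) ≤ (((n ^ K - 1) ^ (j / K) * n ^ (j % K) : ℕ) : ℝ) := by
        exact_mod_cast h2
      rw [Nat.cast_mul, Nat.cast_pow, Nat.cast_pow, Nat.cast_sub (by omega), Nat.cast_pow,
        Nat.cast_one] at h3
      exact h3
    refine h1.trans ?_
    rw [← hlK, ← pow_mul, mul_comm]
    refine mul_le_mul ?_ ?_ (by positivity) (by positivity)
    · exact pow_le_pow_right₀ hn1 (Nat.mod_lt j hK).le
    · exact pow_le_pow_right₀ hl1 (by rw [mul_comm]; exact Nat.div_mul_le_self j K)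

omit [Fintype α] in
theorem pre_AvW {o : α} {k : ℕ} {x : ℕ → α} (h : ∀ i, ∃ j, j < k ∧ x (i + j) ≠ o) (m : ℕ) :
    AvW o k (pre x m) := by
  rintro ⟨s, t, hst⟩
  obtain ⟨j, hj, hne⟩ := h s.length
  have hlen : s.length + j < m := by
    have h1 := congrArg List.length hst
    simp only [List.length_append, List.length_replicate, pre_length] at h1
    omega
  have h3 : (s ++ List.replicate k o ++ t)[s.length + j]? = some o := by
    rw [List.append_assoc, List.getElem?_append_right (by omega),
      show s.length + j - s.length = j by omega,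
      List.getElem?_append_left (by rw [List.length_replicate]; exact hj),
      List.getElem?_replicate_of_lt hj]
  rw [hst, pre_getElem? _ _ _ hlen] at h3
  exact hne (Option.some.inj h3)

omit [Fintype α] in
theorem per_mod {p : ℕ} {x : ℕ → α} (h : ∀ i, x (i + p) = x i) (i : ℕ) : x i = x (i % p) := by
  have h1 : ∀ (q r : ℕ), x (r + q * p) = x r := by
    intro q
    induction q with
    | zero => intro r; rw [zero_mul, add_zero]
    | succ q ih =>
      intro r
      have e : r + (q + 1) * p = (r + q * p) + p := by ring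
      rw [e, h, ih]
  have h2 := h1 (i / p) (i % p)
  rw [mul_comm, Nat.mod_add_div] at h2
  exact h2

/-- the set of the bad sequences is finite and small -/
theorem bad_card {o : α} {N k K : ℕ} (hkK : k ≤ K) {C lam : ℝ} (hl : 1 ≤ lam) (hC : 0 ≤ C)
    (h : ∀ j : ℕ, ((WA o K j).ncard : ℝ) ≤ C * lam ^ j) :
    {x : ℕ → α | Bad o N k x}.Finite ∧
      (({x : ℕ → α | Bad o N k x}.ncard : ℕ) : ℝ) ≤ N * C * lam ^ N := by
  classical
  -- a sequence is determined by a period and the word of a period
  set T : Set (ℕ × List α) := ⋃ p ∈ Finset.range N, (fun u => (p, u)) '' WA o K p with hT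
  have hTf : T.Finite := (Finset.range N).finite_toSet.biUnion
    fun p _ => (WA_finite o K p).image _
  have hex : ∀ x ∈ {x : ℕ → α | Bad o N k x}, ∃ p, 0 < p ∧ p < N ∧ ∀ i, x (i + p) = x i :=
    fun x hx => hx.1
  choose! p hp0 hpN hper using hex
  have hmaps : ∀ x ∈ {x : ℕ → α | Bad o N k x}, (p x, pre x (p x)) ∈ T := by
    intro x hx
    rw [hT, Set.mem_iUnion₂]
    refine ⟨p x, Finset.mem_range.2 (hpN x hx), pre x (p x), ⟨pre_length _ _, ?_⟩, rfl⟩
    exact (pre_AvW hx.2 _).mono hkK
  have hinj : Set.InjOn (fun x => (p x, pre x (p x))) {x : ℕ → α | Bad o N k x} := by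
    intro x hx y hy hxy
    have h1 : p x = p y := congrArg Prod.fst hxy
    have h2 : pre x (p x) = pre y (p y) := congrArg Prod.snd hxy
    rw [← h1] at h2
    have h3 : ∀ i, i < p x → x i = y i := by
      intro i hi
      have h4 : (pre x (p x))[i]? = (pre y (p x))[i]? := congrArg (fun l : List α => l[i]?) h2
      rw [pre_getElem? _ _ _ hi, pre_getElem? _ _ _ hi] at h4
      exact Option.some.inj h4
    funext i
    rw [per_mod (hper x hx) i, per_mod (hper y hy) i, ← h1]
    exact h3 _ (Nat.mod_lt _ (hp0 x hx))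
  refine ⟨Set.Finite.of_finite_image (hTf.subset (Set.image_subset_iff.2 hmaps)) hinj, ?_⟩
  have h5 : {x : ℕ → α | Bad o N k x}.ncard ≤ T.ncard :=
    Set.ncard_le_ncard_of_injOn _ hmaps hinj hTf
  have h6 : (T.ncard : ℝ) ≤ N * C * lam ^ N := by
    have h7 : T.ncard ≤ ∑ p ∈ Finset.range N, (WA o K p).ncard := by
      rw [hT]
      refine (Finset.set_ncard_biUnion_le _ _).trans ?_
      exact Finset.sum_le_sum fun p _ => Set.ncard_image_le (WA_finite o K p)
    calc (T.ncard : ℝ) ≤ ((∑ p ∈ Finset.range N, (WA o K p).ncard : ℕ) : ℝ) := by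
          exact_mod_cast h7
      _ = ∑ p ∈ Finset.range N, ((WA o K p).ncard : ℝ) := by push_cast; rfl
      _ ≤ ∑ _p ∈ Finset.range N, C * lam ^ N := by
          refine Finset.sum_le_sum fun p hp => (h p).trans ?_
          exact mul_le_mul_of_nonneg_left
            (pow_le_pow_right₀ hl (Finset.mem_range.1 hp).le) hC
      _ = N * C * lam ^ N := by
          rw [Finset.sum_const, Finset.card_range, nsmul_eq_mul, mul_assoc]
  exact (by exact_mod_cast h5 :
    (({x : ℕ → α | Bad o N k x}.ncard : ℕ) : ℝ) ≤ (T.ncard : ℝ)).trans h6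

end Pool.WFS.Lab
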