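import Pool.Agent.WFS.LabC5
import Pool.Agent.WFS.LabC6
import Pool.Agent.WFS.LabW

/-!
# WFS module C (labelling), C7: sizes and NEAR
(helper18, after helper28's `Lab/Near`; text /team-store/wfs_labelling.md by helper76)

`Dat.QS`: the states as a type, `Dat.F`: the labelled automaton. Assume that for all `j` at most `C l ^ j` words of length
`j` avoid `o ^ (7k)` (`C ≥ 1`, `l ≥ 1`; `exists_lam`). Then

* `card_QS`: `#QS ≤ (2 L + R + 1) (#V N C l ^ N)`;
* `near`: for a finite set `A` of words of length `d ≥ N` which avoid `o ^ (7k)`, the sum over the states `q'` of the maximum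
  over the states `q` of the number of the words of `A` which lead from `q` to `q'` is at most
  `(2 L + R + 1) (#V N C²) l ^ d`;
* `avw_of_not_const`: a word whose map is not constant avoids `o ^ (7k)`;
* `sync_word`: some power of the map of a nonempty word of length `< N` is constant.
-/

set_option autoImplicit false
set_option linter.all false

namespace Pool.WFS.Lab

namespace Dat

variable {V α : Type} (D : Dat V α)

/-- the states as a type -/
abbrev QS : Type := {q : V × List α // D.St q}

/-- the labelled automaton -/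
noncomputable def F (a : α) (q : D.QS) : D.QS := ⟨D.stp a q.1, D.st_stp _ _⟩

theorem F_val (a : α) (q : D.QS) : (D.F a q).1 = D.stp a q.1 := rfl

theorem act_F_val (u : List α) : ∀ q : D.QS, (act D.F q u).1 = act D.stp q.1 u := by
  induction u with
  | nil => intro q; rfl
  | cons a u ih => intro q; rw [act_cons, act_cons, ih]; rfl

theorem act_stp_pre (X : ℕ → α) (q : V × List α) (t : ℕ) : act D.stp q (pre X t) = D.sr X q t := by
  induction t with
  | zero => rfl
  | succ t ih =>
    rw [pre_succ, act_append, ih]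
    rfl

/-- the state at the beginning -/
def q0 (v : V) : D.QS := ⟨(v, []), Or.inl ⟨Nat.zero_le _, D.run_nil⟩⟩

theorem nonempty_QS [Nonempty V] : Nonempty D.QS := ⟨D.q0 (Classical.arbitrary V)⟩

/-! ### killing -/

theorem act_kill (q q' : D.QS) :
    act D.F q (List.replicate (7 * D.k) D.o) = act D.F q' (List.replicate (7 * D.k) D.o) := by
  have e : List.replicate (7 * D.k) D.o = pre (fun _ => D.o) (7 * D.k) :=
    (pre_const fun _ _ => rfl).symm
  apply Subtype.ext
  rw [act_F_val, act_F_val, e, act_stp_pre, act_stp_pre]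
  exact D.kill q.2 q'.2

/-- a word whose map is not constant avoids the killing word -/
theorem avw_of_not_const [Nonempty V] {x : List α} (h : ¬ ∃ c, ∀ q, act D.F q x = c) :
    AvW D.o (7 * D.k) x := by
  rintro ⟨s, t, rfl⟩
  obtain ⟨q1⟩ := D.nonempty_QS
  refine h ⟨act D.F q1 (s ++ List.replicate (7 * D.k) D.o ++ t), fun q => ?_⟩
  rw [act_append, act_append, act_append, act_append, D.act_kill (act D.F q s) (act D.F q1 s)]

/-! ### goodness for words -/

theorem act_iterate {Q : Type} (f : α → Q → Q) (w : List α) (m : ℕ) (q : Q) :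
    (fun q => act f q w)^[m] q = act f q (List.replicate m w).flatten := by
  induction m generalizing q with
  | zero => rfl
  | succ m ih =>
    rw [Function.iterate_succ_apply, ih, List.replicate_succ, List.flatten_cons, act_append]

theorem pre_period {w : List α} {X : ℕ → α} (hw : pre X w.length = w)
    (hX : ∀ i, X (i + w.length) = X i) (m : ℕ) :
    pre X (m * w.length) = (List.replicate m w).flatten := by
  induction m with
  | zero => simp
  | succ m ih =>
    have e : (m + 1) * w.length = w.length + m * w.length := by ring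
    have e2 : sh X w.length = X := by
      funext i
      show X (w.length + i) = X i
      rw [add_comm, hX]
    rw [e, pre_add, hw, e2, ih, List.replicate_succ, List.flatten_cons]

/-- **Goodness for words.** -/
theorem sync_word [Finite V] [Finite α] [Nonempty V] {w : List α} (h0 : w ≠ [])
    (hN : w.length < D.N) : ∃ m c, ∀ q, (fun q => act D.F q w)^[m] q = c := by
  have hl : 0 < w.length := List.length_pos_iff.2 h0
  set X : ℕ → α := fun i => w[i % w.length]'(Nat.mod_lt _ hl) with hX
  have hper : ∀ i, X (i + w.length) = X i := by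
    intro i
    simp only [hX, Nat.add_mod_right]
  have hpre : pre X w.length = w := by
    apply List.ext_getElem?
    intro t
    rcases lt_or_ge t w.length with ht | ht
    · rw [pre_getElem? _ _ _ ht, List.getElem?_eq_getElem ht]
      simp only [hX, Nat.mod_eq_of_lt ht]
    · rw [pre_getElem?_none _ _ _ ht, List.getElem?_eq_none ht]
  obtain ⟨T, hT⟩ := D.good (X := X) ⟨w.length, hl, hN, hper⟩
  obtain ⟨q1⟩ := D.nonempty_QS
  refine ⟨T, act D.F q1 (List.replicate T w).flatten, fun q => ?_⟩
  rw [act_iterate]
  apply Subtype.ext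
  rw [act_F_val, act_F_val, ← pre_period hpre hper, act_stp_pre, act_stp_pre]
  exact hT _ (Nat.le_mul_of_pos_right T hl) _ _ q.2 q1.2

/-! ### sizes -/

theorem pth_len {v : V} {x : ℕ → α} (hx : D.B x) {i : ℕ} (hi : i ≤ 1 + D.R + D.L) :
    (D.pth v x i).length = D.L + i := by
  unfold pth
  rw [List.length_append, pre_length, List.length_take, D.ze_len _ _ (D.cyc_run v x hx)]
  omega

/-- the states of length `j` -/
theorem card_len [Fintype V] [Fintype α] {C l : ℝ} (hC : 1 ≤ C) (hl : 1 ≤ l)
    (hW : ∀ d, ((WA D.o (7 * D.k) d).ncard : ℝ) ≤ C * l ^ d) (j : ℕ) :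
    ({q : V × List α | D.St q ∧ q.2.length = j}.ncard : ℝ) ≤
      Fintype.card V * D.N * C * l ^ min j D.N := by
  have hk := D.hk
  have hN := D.hN
  have hL := D.hL
  have hVc : (Set.univ : Set V).ncard = Fintype.card V := by
    rw [Set.ncard_univ, Nat.card_eq_fintype_card]
  have hbad := bad_card (o := D.o) (N := D.N) (k := D.k) (K := 7 * D.k) (by omega) hl
    (by linarith) hW
  rcases Nat.lt_or_ge D.N j with hj | hj
  · -- long states
    have hsub : {q : V × List α | D.St q ∧ q.2.length = j} ⊆
        (fun p : V × (ℕ → α) => (p.1, if j ≤ D.L then pre p.2 j else D.pth p.1 p.2 (j - D.L))) ''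
          ((Set.univ : Set V) ×ˢ {x : ℕ → α | Bad D.o D.N D.k x}) := by
      rintro ⟨v, u⟩ ⟨hq, hlen⟩
      have hlen' : u.length = j := hlen
      rcases hq with ⟨h1, x, hx, h2⟩ | ⟨x, i, hx, h1, h2, h3, h4⟩
      · have h1' : u.length ≤ D.L := h1
        have h2' : u = pre x u.length := h2
        refine ⟨(v, x), ⟨Set.mem_univ _, hx⟩, ?_⟩
        show (v, if j ≤ D.L then pre x j else D.pth v x (j - D.L)) = (v, u)
        rw [if_pos (by omega), ← hlen', ← h2']
      · have h4' : u = D.pth v x i := h4
        refine ⟨(v, x), ⟨Set.mem_univ _, hx⟩, ?_⟩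
        have hji : j = D.L + i := by
          rw [← hlen', h4', D.pth_len hx (by omega)]
        show (v, if j ≤ D.L then pre x j else D.pth v x (j - D.L)) = (v, u)
        rw [if_neg (by omega), hji, Nat.add_sub_cancel_left, ← h4']
    have hfin : ((Set.univ : Set V) ×ˢ {x : ℕ → α | Bad D.o D.N D.k x}).Finite :=
      (Set.finite_univ).prod hbad.1
    have h1 : {q : V × List α | D.St q ∧ q.2.length = j}.ncard ≤
        Fintype.card V * {x : ℕ → α | Bad D.o D.N D.k x}.ncard := by
      refine le_trans (Set.ncard_le_ncard hsub (hfin.image _)) ?_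
      refine le_trans (Set.ncard_image_le hfin) ?_
      rw [Set.ncard_prod, hVc]
    have h2 : (({q : V × List α | D.St q ∧ q.2.length = j}.ncard : ℕ) : ℝ) ≤
        Fintype.card V * (({x : ℕ → α | Bad D.o D.N D.k x}.ncard : ℕ) : ℝ) := by
      exact_mod_cast h1
    rw [min_eq_right hj.le]
    refine h2.trans ?_
    calc (Fintype.card V : ℝ) * (({x : ℕ → α | Bad D.o D.N D.k x}.ncard : ℕ) : ℝ)
        ≤ Fintype.card V * (D.N * C * l ^ D.N) :=
          mul_le_mul_of_nonneg_left hbad.2 (Nat.cast_nonneg _)
      _ = Fintype.card V * D.N * C * l ^ D.N := by ring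
  · -- short states
    have hsub : {q : V × List α | D.St q ∧ q.2.length = j} ⊆
        (Set.univ : Set V) ×ˢ WA D.o (7 * D.k) j := by
      rintro ⟨v, u⟩ ⟨hq, hlen⟩
      have hlen' : u.length = j := hlen
      refine ⟨Set.mem_univ _, ?_⟩
      show u ∈ WA D.o (7 * D.k) j
      rcases hq with ⟨h1, x, hx, h2⟩ | ⟨x, i, hx, h1, h2, h3, h4⟩
      · have h2' : u = pre x u.length := h2
        rw [h2', hlen']
        exact ⟨pre_length _ _, (pre_AvW hx.2 j).mono (by omega)⟩
      · have h4' : u = D.pth v x i := h4
        have hji : j = D.L + i := by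
          rw [← hlen', h4', D.pth_len hx (by omega)]
        omega
    have hfin : ((Set.univ : Set V) ×ˢ WA D.o (7 * D.k) j).Finite :=
      (Set.finite_univ).prod (WA_finite D.o (7 * D.k) j)
    have h1 : {q : V × List α | D.St q ∧ q.2.length = j}.ncard ≤
        Fintype.card V * (WA D.o (7 * D.k) j).ncard := by
      refine le_trans (Set.ncard_le_ncard hsub hfin) ?_
      rw [Set.ncard_prod, hVc]
    have h2 : (({q : V × List α | D.St q ∧ q.2.length = j}.ncard : ℕ) : ℝ) ≤
        Fintype.card V * ((WA D.o (7 * D.k) j).ncard : ℝ) := by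
      exact_mod_cast h1
    rw [min_eq_left hj]
    refine h2.trans ?_
    have hN1 : (1 : ℝ) ≤ D.N := by
      have : 1 ≤ D.N := by omega
      exact_mod_cast this
    have hpos : (0 : ℝ) ≤ C * l ^ j := mul_nonneg (by linarith) (pow_nonneg (by linarith) _)
    calc (Fintype.card V : ℝ) * ((WA D.o (7 * D.k) j).ncard : ℝ)
        ≤ Fintype.card V * (C * l ^ j) := mul_le_mul_of_nonneg_left (hW j) (Nat.cast_nonneg _)
      _ ≤ Fintype.card V * (D.N * (C * l ^ j)) :=
          mul_le_mul_of_nonneg_left (le_mul_of_one_le_left hpos hN1) (Nat.cast_nonneg _)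
      _ = Fintype.card V * D.N * C * l ^ j := by ring

theorem card_St [Fintype V] [Fintype α] {C l : ℝ} (hC : 1 ≤ C) (hl : 1 ≤ l)
    (hW : ∀ d, ((WA D.o (7 * D.k) d).ncard : ℝ) ≤ C * l ^ d) :
    ({q : V × List α | D.St q}.ncard : ℝ) ≤
      (2 * D.L + D.R + 1) * (Fintype.card V * D.N * C * l ^ D.N) := by
  classical
  have hS := D.finite_states
  have h1 : {q : V × List α | D.St q}.ncard = ∑ j ∈ Finset.range (2 * D.L + D.R + 1),
      {q : V × List α | D.St q ∧ q.2.length = j}.ncard := by
    rw [Set.ncard_eq_toFinset_card _ hS,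
      Finset.card_eq_sum_card_fiberwise (f := fun q : V × List α => q.2.length)
        (t := Finset.range (2 * D.L + D.R + 1))]
    · refine Finset.sum_congr rfl fun j _ => ?_
      rw [← Set.ncard_coe_finset]
      congr 1
      ext q
      simp
    · intro q hq
      have hq' : D.St q := by simpa using hq
      have := D.inQ_length hq'
      simp
      omega
  rw [h1]
  push_cast
  calc ∑ j ∈ Finset.range (2 * D.L + D.R + 1),
        ({q : V × List α | D.St q ∧ q.2.length = j}.ncard : ℝ)
      ≤ ∑ _j ∈ Finset.range (2 * D.L + D.R + 1), (Fintype.card V * D.N * C * l ^ D.N : ℝ) := by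
        refine Finset.sum_le_sum fun j _ => (D.card_len hC hl hW j).trans ?_
        have h0 : (0 : ℝ) ≤ Fintype.card V * D.N * C :=
          mul_nonneg (by positivity) (by linarith)
        exact mul_le_mul_of_nonneg_left (pow_le_pow_right₀ hl (min_le_right _ _)) h0
    _ = (2 * D.L + D.R + 1) * (Fintype.card V * D.N * C * l ^ D.N) := by
        rw [Finset.sum_const, Finset.card_range, nsmul_eq_mul]
        push_cast
        ring

theorem card_QS [Fintype V] [Fintype α] [Fintype D.QS] {C l : ℝ} (hC : 1 ≤ C) (hl : 1 ≤ l)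
    (hW : ∀ d, ((WA D.o (7 * D.k) d).ncard : ℝ) ≤ C * l ^ d) :
    (Fintype.card D.QS : ℝ) ≤
      (2 * D.L + D.R + 1) * (Fintype.card V * D.N * C * l ^ D.N) := by
  refine le_trans (le_of_eq ?_) (D.card_St hC hl hW)
  have h : Fintype.card D.QS = {q : V × List α | D.St q}.ncard := by
    rw [← Nat.card_coe_set_eq, ← Nat.card_eq_fintype_card]
    rfl
  rw [h]

/-! ### NEAR -/

/-- the default word of a label word -/
noncomputable def dw : List α → V × List α → List α
  | [], _ => []
  | a :: u, q => D.sg q a :: dw u (D.stp a q)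

theorem dw_length (u : List α) : ∀ q, (D.dw u q).length = u.length := by
  induction u with
  | nil => intro q; rfl
  | cons a u ih => intro q; simp [dw, ih]

theorem dw_act (u : List α) : ∀ q, D.St q → act D.stp q u = D.ls q.1 (q.2 ++ D.dw u q) := by
  induction u with
  | nil =>
    intro q hq
    show q = D.ls q.1 (q.2 ++ [])
    rw [List.append_nil]
    exact (D.ls_of_inQ hq).symm
  | cons a u ih =>
    intro q hq
    rw [act_cons, ih _ (D.st_stp _ _)]
    show D.ls (D.stp a q).1 ((D.stp a q).2 ++ D.dw u (D.stp a q)) =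
      D.ls q.1 (q.2 ++ (D.sg q a :: D.dw u (D.stp a q)))
    have e : q.2 ++ (D.sg q a :: D.dw u (D.stp a q)) =
        (q.2 ++ [D.sg q a]) ++ D.dw u (D.stp a q) := by simp
    rw [e, D.ls_append q.1 (q.2 ++ [D.sg q a])]
    rfl

theorem dw_take (u : List α) : ∀ (m : ℕ) (q : V × List α),
    D.dw (u.take m) q = (D.dw u q).take m := by
  induction u with
  | nil => intro m q; simp [dw]
  | cons a u ih =>
    intro m q
    cases m with
    | zero => simp [dw]
    | succ m => simp [dw, ih]

theorem dw_inj (u : List α) : ∀ (u' : List α) (q : V × List α),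
    D.dw u q = D.dw u' q → u = u' := by
  induction u with
  | nil =>
    intro u' q h
    cases u' with
    | nil => rfl
    | cons a u' => simp [dw] at h
  | cons a u ih =>
    intro u' q h
    cases u' with
    | nil => simp [dw] at h
    | cons a' u' =>
      simp only [dw, List.cons.injEq] at h
      obtain ⟨h1, h2⟩ := h
      have h3 : a = a' := (D.sg q).injective h1
      subst h3
      rw [ih u' _ h2]

/-- the end of the default word is determined by the target -/
theorem dw_drop {d : ℕ} {x : List α} (hx : x.length = d) {q q' : V × List α} (hq : D.St q)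
    (h : act D.stp q x = q') :
    (D.dw x q).drop (d - q'.2.length) = q'.2.drop (q'.2.length - d) := by
  have hy : (D.dw x q).length = d := by rw [dw_length, hx]
  rw [D.dw_act x q hq] at h
  obtain ⟨i, h2, h3, -, -⟩ := D.ls_spec q.1 (q.2 ++ D.dw x q)
  have h3' : q'.2 = (q.2 ++ D.dw x q).drop i := by rw [← h, h3]
  simp only [List.length_append, hy] at h2
  have h4 : q'.2.length = q.2.length + d - i := by
    rw [h3', List.length_drop, List.length_append, hy]
  rw [h4, h3', List.drop_drop]
  have e : i + (q.2.length + d - i - d) = q.2.length + (d - (q.2.length + d - i)) := by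
    omega
  rw [e, ← List.drop_drop, List.drop_left]

theorem take_WA {o : α} {m d : ℕ} {u : List α} (hu : u ∈ WA o m d) {j : ℕ} (hj : j ≤ d) :
    u.take j ∈ WA o m j := by
  obtain ⟨h1, h2⟩ := hu
  exact ⟨by rw [List.length_take, h1]; omega, h2.sub (List.take_prefix j u).isInfix⟩

/-- the number of words with a given effect -/
theorem card_words [DecidableEq D.QS] [Fintype α] {C l : ℝ}
    (hW : ∀ d, ((WA D.o (7 * D.k) d).ncard : ℝ) ≤ C * l ^ d) (d : ℕ)
    (A : Finset (List α)) (hA : ∀ x ∈ A, x ∈ WA D.o (7 * D.k) d) (q q' : D.QS) :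
    ((A.filter fun x => act D.F q x = q').card : ℝ) ≤ C * l ^ (d - q'.1.2.length) := by
  refine le_trans ?_ (hW _)
  refine Nat.cast_le.2 ?_
  rw [← Set.ncard_coe_finset]
  refine Set.ncard_le_ncard_of_injOn (fun x : List α => x.take (d - q'.1.2.length)) ?_ ?_
    (WA_finite _ _ _)
  · intro x hx
    have hx' : x ∈ A ∧ act D.F q x = q' := by simpa using hx
    exact take_WA (hA x hx'.1) (Nat.sub_le _ _)
  · intro x hx x' hx' hxx
    have h1 : x ∈ A ∧ act D.F q x = q' := by simpa using hx
    have h2 : x' ∈ A ∧ act D.F q x' = q' := by simpa using hx'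
    have h1' : act D.stp q.1 x = q'.1 := by rw [← act_F_val, h1.2]
    have h2' : act D.stp q.1 x' = q'.1 := by rw [← act_F_val, h2.2]
    refine D.dw_inj x x' q.1 ?_
    rw [← List.take_append_drop (d - q'.1.2.length) (D.dw x q.1),
      ← List.take_append_drop (d - q'.1.2.length) (D.dw x' q.1),
      D.dw_drop (hA x h1.1).1 q.2 h1', D.dw_drop (hA x' h2.1).1 q.2 h2', ← dw_take, ← dw_take]
    have hxx' : x.take (d - q'.1.2.length) = x'.take (d - q'.1.2.length) := hxx
    rw [hxx']

/-- **NEAR.** -/
theorem near [Fintype V] [Fintype α] [Fintype D.QS] [DecidableEq D.QS] {C l : ℝ}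
    (hC : 1 ≤ C) (hl : 1 ≤ l)
    (hW : ∀ d, ((WA D.o (7 * D.k) d).ncard : ℝ) ≤ C * l ^ d) {d : ℕ} (hd : D.N ≤ d)
    (A : Finset (List α)) (hA : ∀ x ∈ A, x ∈ WA D.o (7 * D.k) d) :
    ((∑ q' : D.QS, Finset.univ.sup fun q : D.QS =>
        (A.filter fun x => act D.F q x = q').card : ℕ) : ℝ) ≤
      (2 * D.L + D.R + 1) * (Fintype.card V * D.N * C ^ 2) * l ^ d := by
  have hC0 : (0 : ℝ) ≤ C := by linarith
  have hl0 : (0 : ℝ) ≤ l := by linarith
  -- one target
  have h1 : ∀ q' : D.QS,
      ((Finset.univ.sup fun q : D.QS => (A.filter fun x => act D.F q x = q').card : ℕ) : ℝ) ≤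
        C * l ^ (d - q'.1.2.length) := by
    intro q'
    have h0 : (0 : ℝ) ≤ C * l ^ (d - q'.1.2.length) := mul_nonneg hC0 (pow_nonneg hl0 _)
    refine le_trans ?_ (Nat.floor_le h0)
    norm_cast
    refine Finset.sup_le fun q _ => ?_
    exact Nat.le_floor (D.card_words hW d A hA q q')
  -- targets of a given length
  have h2 : ∀ j, (((Finset.univ : Finset D.QS).filter
      fun q' => q'.1.2.length = j).card : ℝ) ≤ Fintype.card V * D.N * C * l ^ min j D.N := by
    intro j
    refine le_trans ?_ (D.card_len hC hl hW j)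
    refine Nat.cast_le.2 ?_
    rw [← Set.ncard_coe_finset]
    refine Set.ncard_le_ncard_of_injOn Subtype.val ?_ Subtype.val_injective.injOn
      (D.finite_states.subset fun q hq => hq.1)
    intro q' hq'
    have : q'.1.2.length = j := by simpa using hq'
    exact ⟨q'.2, this⟩
  have hmap : ∀ q' ∈ (Finset.univ : Finset D.QS),
      q'.1.2.length ∈ Finset.range (2 * D.L + D.R + 1) := by
    intro q' _
    have := D.inQ_length q'.2
    rw [Finset.mem_range]
    omega
  push_cast
  calc ∑ q' : D.QS, ((Finset.univ.sup fun q : D.QS =>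
          (A.filter fun x => act D.F q x = q').card : ℕ) : ℝ)
      ≤ ∑ q' : D.QS, C * l ^ (d - q'.1.2.length) := Finset.sum_le_sum fun q' _ => h1 q'
    _ = ∑ j ∈ Finset.range (2 * D.L + D.R + 1),
          ∑ q' ∈ (Finset.univ : Finset D.QS).filter (fun q' => q'.1.2.length = j),
            C * l ^ (d - q'.1.2.length) := (Finset.sum_fiberwise_of_maps_to hmap _).symm
    _ ≤ ∑ _j ∈ Finset.range (2 * D.L + D.R + 1),
          (Fintype.card V * D.N * C ^ 2 * l ^ d : ℝ) := by
        refine Finset.sum_le_sum fun j _ => ?_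
        have h3 : ∑ q' ∈ (Finset.univ : Finset D.QS).filter (fun q' => q'.1.2.length = j),
            C * l ^ (d - q'.1.2.length) =
            (((Finset.univ : Finset D.QS).filter fun q' => q'.1.2.length = j).card : ℝ) *
              (C * l ^ (d - j)) := by
          rw [← nsmul_eq_mul, ← Finset.sum_const]
          refine Finset.sum_congr rfl fun q' hq' => ?_
          rw [(Finset.mem_filter.1 hq').2]
        rw [h3]
        have h4 : l ^ min j D.N * l ^ (d - j) ≤ l ^ d := by
          rw [← pow_add]
          refine pow_le_pow_right₀ hl ?_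
          rcases Nat.le_total j D.N with h | h
          · rw [min_eq_left h]; omega
          · rw [min_eq_right h]; omega
        calc (((Finset.univ : Finset D.QS).filter fun q' => q'.1.2.length = j).card : ℝ) *
              (C * l ^ (d - j))
            ≤ (Fintype.card V * D.N * C * l ^ min j D.N) * (C * l ^ (d - j)) :=
              mul_le_mul_of_nonneg_right (h2 j) (mul_nonneg hC0 (pow_nonneg hl0 _))
          _ = (Fintype.card V * D.N * C ^ 2) * (l ^ min j D.N * l ^ (d - j)) := by ring
          _ ≤ (Fintype.card V * D.N * C ^ 2) * l ^ d :=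
              mul_le_mul_of_nonneg_left h4 (by positivity)
          _ = Fintype.card V * D.N * C ^ 2 * l ^ d := by ring
    _ = (2 * D.L + D.R + 1) * (Fintype.card V * D.N * C ^ 2) * l ^ d := by
        rw [Finset.sum_const, Finset.card_range, nsmul_eq_mul]
        push_cast
        ring

end Dat

end Pool.WFS.Lab
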