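import Pool.Agent.WFS.Basic

/-! # Definite covering automata are strong shift equivalences

`δ : Q → Fin n → Q` covers `f : V → Fin n → V` (`en (δ q a) = f (en q) a`, `en` surjective) and the state after a
word of length `J` only depends on the vertex at the beginning: the two adjacency matrices are strong shift
equivalent.
-/

set_option autoImplicit false

namespace Pool.Agent.WFS

/-- reading a word from a state -/
def act {Q : Type} {n : ℕ} (δ : Q → Fin n → Q) (q : Q) (w : List (Fin n)) : Q := w.foldl δ q

theorem act_nil {Q : Type} {n : ℕ} (δ : Q → Fin n → Q) (q : Q) : act δ q [] = q := rfl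

theorem act_cons {Q : Type} {n : ℕ} (δ : Q → Fin n → Q) (q : Q) (a : Fin n) (w : List (Fin n)) :
    act δ q (a :: w) = act δ (δ q a) w := rfl

/-- the adjacency matrix of an automaton: entry `(i, j)` = number of letters from `j` to `i` -/
def adj {Q : Type} [DecidableEq Q] {n : ℕ} (δ : Q → Fin n → Q) : Matrix Q Q ℕ :=
  Matrix.of fun i j => (Finset.univ.filter fun a => δ j a = i).card

/-- relabelling at the states does not change the matrix -/
theorem adj_relabel {Q : Type} [DecidableEq Q] {n : ℕ} (δ : Q → Fin n → Q)
    (σ : Q → Equiv.Perm (Fin n)) : adj (fun q a => δ q (σ q a)) = adj δ := by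
  ext i j
  show (Finset.univ.filter fun a => δ j (σ j a) = i).card = (Finset.univ.filter fun a => δ j a = i).card
  refine Finset.card_bij (fun a _ => σ j a) ?_ ?_ ?_
  · intro a ha
    simpa using ha
  · intro a _ b _ h
    exact (σ j).injective h
  · intro b hb
    exact ⟨(σ j).symm b, by simpa using hb, by simp⟩

/-- one step: `g` is a surjection and `δ q a` only depends on `g q` -/
theorem sse_one {Q W : Type} [Fintype Q] [DecidableEq Q] [Fintype W] [DecidableEq W] {n : ℕ}
    (δ : Q → Fin n → Q) (ε : W → Fin n → W) (g : Q → W) (hg : Function.Surjective g)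
    (hc : ∀ q a, g (δ q a) = ε (g q) a) (h1 : ∀ q q', g q = g q' → δ q = δ q') :
    Sse (toFin (adj δ)) (toFin (adj ε)) := by
  obtain ⟨s, hs⟩ := hg.hasRightInverse
  refine (est_toFin (Matrix.of fun (q : Q) (w : W) => (Finset.univ.filter fun a => δ (s w) a = q).card)
    (Matrix.of fun (w : W) (q : Q) => if g q = w then 1 else 0) ?_ ?_).sse
  · ext i j
    rw [Matrix.mul_apply]
    simp only [Matrix.of_apply, mul_ite, mul_one, mul_zero, Finset.sum_ite_eq, Finset.mem_univ, if_true]
    have : δ (s (g j)) = δ j := h1 _ _ (hs _)
    show (Finset.univ.filter fun a => δ j a = i).card = _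
    rw [this]
  · ext w w'
    rw [Matrix.mul_apply]
    simp only [Matrix.of_apply]
    show (Finset.univ.filter fun a => ε w' a = w).card = _
    have e : (Finset.univ.filter fun a => ε w' a = w) =
        (Finset.univ.filter fun q => g q = w).biUnion
          (fun q => Finset.univ.filter fun a => δ (s w') a = q) := by
      ext a
      simp only [Finset.mem_filter, Finset.mem_univ, true_and, Finset.mem_biUnion, exists_eq_right']
      rw [hc, hs]
    rw [e, Finset.card_biUnion]
    · rw [Finset.sum_filter]
      refine Finset.sum_congr rfl fun q _ => ?_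
      by_cases h : g q = w
      · simp [h]
      · simp [h]
    · intro q _ q' _ hne
      rw [Function.onFun, Finset.disjoint_left]
      intro a ha hb
      exact hne ((Finset.mem_filter.1 ha).2.symm.trans (Finset.mem_filter.1 hb).2)

/-- DEFINITE COVERING AUTOMATON ⟹ SSE -/
theorem sse_cover (J : ℕ) {Q V : Type} [Fintype Q] [DecidableEq Q] [Fintype V] [DecidableEq V] {n : ℕ}
    (δ : Q → Fin n → Q) (f : V → Fin n → V) (en : Q → V) (hs : Function.Surjective en)
    (hc : ∀ q a, en (δ q a) = f (en q) a)
    (hJ : ∀ q q', en q = en q' → ∀ y : List (Fin n), y.length = J → act δ q y = act δ q' y) :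
    Sse (toFin (adj δ)) (toFin (adj f)) := by
  classical
  induction J generalizing Q with
  | zero =>
    have hi : ∀ q q', en q = en q' → q = q' := fun q q' h => hJ q q' h [] rfl
    exact sse_one δ f en hs hc fun q q' h => by rw [hi q q' h]
  | succ J ih =>
    -- the quotient by `all words of length 1 give the same state` and the same vertex
    let r : Setoid Q := ⟨fun q q' => en q = en q' ∧ δ q = δ q',
      ⟨fun q => ⟨rfl, rfl⟩, fun h => ⟨h.1.symm, h.2.symm⟩, fun h h' => ⟨h.1.trans h'.1, h.2.trans h'.2⟩⟩⟩
    let ε : Quotient r → Fin n → Quotient r := fun x a =>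
      Quotient.liftOn x (fun q => (Quotient.mk r (δ q a))) (fun q q' h => by
        show Quotient.mk r (δ q a) = Quotient.mk r (δ q' a)
        rw [h.2])
    let e' : Quotient r → V := fun x => Quotient.liftOn x en (fun q q' h => h.1)
    have hact : ∀ (y : List (Fin n)) (q : Q), act ε (Quotient.mk r q) y = Quotient.mk r (act δ q y) := by
      intro y
      induction y with
      | nil => intro q; rfl
      | cons a y ihy => intro q; exact ihy (δ q a)
    have h1 : Sse (toFin (adj δ)) (toFin (adj ε)) := by
      refine sse_one δ ε (Quotient.mk r) Quotient.mk_surjective (fun q a => rfl) ?_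
      intro q q' h
      exact (Quotient.exact h).2
    refine h1.trans (ih ε e' ?_ ?_ ?_)
    · intro v
      obtain ⟨q, hq⟩ := hs v
      exact ⟨Quotient.mk r q, hq⟩
    · intro x a
      induction x using Quotient.ind with
      | _ q => exact hc q a
    · intro x x' h y hy
      induction x using Quotient.ind with
      | _ q =>
      induction x' using Quotient.ind with
      | _ q' =>
      rw [hact, hact]
      apply Quotient.sound
      refine ⟨?_, ?_⟩
      · have hen : ∀ (y : List (Fin n)) (q : Q), en (act δ q y) = act f (en q) y := by
          intro y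
          induction y with
          | nil => intro q; rfl
          | cons a y ihy =>
            intro q
            rw [act_cons, act_cons, ihy, hc]
        rw [hen, hen]
        exact congrArg (fun v => act f v y) h
      · funext a
        have h2 := hJ q q' h (y ++ [a]) (by simp [hy])
        simpa [act, List.foldl_append] using h2

end Pool.Agent.WFS
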