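import Mathlib

/-! # Williams' conjecture for full shifts, module C (labelling): definitions

`f : Fin n → V → V` is the labelled graph (`n` maps), a sequence is a map `ℕ → Fin n`.
-/

set_option autoImplicit false

namespace Pool.Agent.WFS.Lab

variable {V : Type} {n : ℕ}

/-- the shift of a sequence -/
def shift (x : ℕ → Fin n) : ℕ → Fin n := fun i => x (i + 1)

/-- the shift of a point `(v, x)`: read the first letter of `x` -/
def sg (f : Fin n → V → V) (z : V × (ℕ → Fin n)) : V × (ℕ → Fin n) := (f (z.2 0) z.1, shift z.2)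

/-- the vertex reached from `v` after the first `m` letters of `x` -/
def run (f : Fin n → V → V) (x : ℕ → Fin n) : ℕ → V → V
  | 0, v => v
  | m + 1, v => f (x m) (run f x m v)

/-- `p` is a period of `x` -/
def Per (p : ℕ) (x : ℕ → Fin n) : Prop := ∀ i, x (i + p) = x i

/-- `x` does not contain `0 ^ k` -/
def Av [NeZero n] (k : ℕ) (x : ℕ → Fin n) : Prop := ∀ i, ∃ j, j < k ∧ x (i + j) ≠ 0

/-- the sequences of some period `< N` which avoid `0 ^ k` -/
def Pn [NeZero n] (N k : ℕ) : Set (ℕ → Fin n) := {x | Av k x ∧ ∃ p, 0 < p ∧ p < N ∧ Per p x}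

/-- the periodic points over `Pn` -/
def Cyc [NeZero n] (f : Fin n → V → V) (N k : ℕ) : Set (V × (ℕ → Fin n)) :=
  {z | z.2 ∈ Pn N k ∧ ∃ p, 0 < p ∧ (sg f)^[p] z = z}

/-- the sequence of the values of `b` along the orbit of `z` -/
def nu (f : Fin n → V → V) (b : V × (ℕ → Fin n) → Fin n) (z : V × (ℕ → Fin n)) : ℕ → Fin n :=
  fun i => b ((sg f)^[i] z)

/-- the matrix of the graph: `mat f i j` edges from `j` to `i` -/
def mat [DecidableEq V] (f : Fin n → V → V) : Matrix V V ℕ :=
  Matrix.of fun i j => (Finset.univ.filter (fun a => f a j = i)).card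

theorem shift_iter (x : ℕ → Fin n) (m : ℕ) : shift^[m] x = fun i => x (i + m) := by
  induction m with
  | zero => rfl
  | succ m ih =>
    rw [Function.iterate_succ_apply', ih]
    funext i
    show x (i + 1 + m) = x (i + (m + 1))
    congr 1
    ring

theorem sg_iter (f : Fin n → V → V) (z : V × (ℕ → Fin n)) (m : ℕ) :
    (sg f)^[m] z = (run f z.2 m z.1, fun i => z.2 (i + m)) := by
  induction m with
  | zero => rfl
  | succ m ih =>
    rw [Function.iterate_succ_apply', ih]
    refine Prod.ext ?_ ?_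
    · show f (z.2 (0 + m)) _ = f (z.2 m) _
      rw [zero_add]
    · funext i
      show z.2 (i + 1 + m) = z.2 (i + (m + 1))
      congr 1
      ring

theorem run_congr (f : Fin n → V → V) {x y : ℕ → Fin n} {m : ℕ} (h : ∀ i, i < m → x i = y i)
    (v : V) : run f x m v = run f y m v := by
  induction m with
  | zero => rfl
  | succ m ih =>
    show f (x m) (run f x m v) = f (y m) (run f y m v)
    rw [h m (Nat.lt_succ_self m), ih (fun i hi => h i (by omega))]

theorem run_add (f : Fin n → V → V) (x : ℕ → Fin n) (l m : ℕ) (v : V) :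
    run f x (l + m) v = run f (fun i => x (i + l)) m (run f x l v) := by
  induction m with
  | zero => rfl
  | succ m ih =>
    show f (x (l + m)) (run f x (l + m) v) = f (x (m + l)) _
    rw [ih, add_comm l m]

theorem Per.mul {p : ℕ} {x : ℕ → Fin n} (h : Per p x) (k i : ℕ) : x (i + p * k) = x i := by
  induction k with
  | zero => rfl
  | succ k ih => rw [Nat.mul_succ, ← add_assoc, h, ih]

theorem Per.shift_iter {p : ℕ} {x : ℕ → Fin n} (h : Per p x) (m : ℕ) :
    Per p (fun i => x (i + m)) := by
  intro i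
  show x (i + p + m) = x (i + m)
  rw [add_right_comm]
  exact h _

theorem Per.shift {p : ℕ} {x : ℕ → Fin n} (h : Per p x) : Per p (shift x) := h.shift_iter 1

theorem Av.shift_iter [NeZero n] {k : ℕ} {x : ℕ → Fin n} (h : Av k x) (m : ℕ) :
    Av k (fun i => x (i + m)) := by
  intro i
  obtain ⟨j, hj, hne⟩ := h (i + m)
  refine ⟨j, hj, ?_⟩
  show x (i + j + m) ≠ 0
  rwa [show i + j + m = i + m + j by ring]

theorem Av.shift [NeZero n] {k : ℕ} {x : ℕ → Fin n} (h : Av k x) : Av k (shift x) := h.shift_iter 1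

theorem Pn.shift_iter [NeZero n] {N k : ℕ} {x : ℕ → Fin n} (h : x ∈ Pn N k) (m : ℕ) :
    (fun i => x (i + m)) ∈ (Pn N k : Set (ℕ → Fin n)) := by
  obtain ⟨h1, p, hp, hpN, h2⟩ := h
  exact ⟨h1.shift_iter m, p, hp, hpN, h2.shift_iter m⟩

theorem Pn.shift [NeZero n] {N k : ℕ} {x : ℕ → Fin n} (h : x ∈ Pn N k) :
    shift x ∈ (Pn N k : Set (ℕ → Fin n)) := Pn.shift_iter h 1

theorem Cyc.sg [NeZero n] {f : Fin n → V → V} {N k : ℕ} {z : V × (ℕ → Fin n)}
    (h : z ∈ Cyc f N k) : sg f z ∈ Cyc f N k := by
  obtain ⟨h1, p, hp, h2⟩ := h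
  refine ⟨Pn.shift h1, p, hp, ?_⟩
  rw [← Function.iterate_succ_apply, Function.iterate_succ_apply' (Lab.sg f), h2]

theorem Cyc.sg_iter [NeZero n] {f : Fin n → V → V} {N k : ℕ} {z : V × (ℕ → Fin n)}
    (h : z ∈ Cyc f N k) (m : ℕ) : (Lab.sg f)^[m] z ∈ Cyc f N k := by
  induction m with
  | zero => exact h
  | succ m ih => rw [Function.iterate_succ_apply']; exact Cyc.sg ih

theorem nu_shift (f : Fin n → V → V) (b : V × (ℕ → Fin n) → Fin n) (z : V × (ℕ → Fin n)) :
    nu f b (sg f z) = shift (nu f b z) := rfl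

theorem nu_shift_iter (f : Fin n → V → V) (b : V × (ℕ → Fin n) → Fin n) (z : V × (ℕ → Fin n))
    (m : ℕ) : nu f b ((sg f)^[m] z) = fun i => nu f b z (i + m) := by
  funext i
  show b ((sg f)^[i] ((sg f)^[m] z)) = b ((sg f)^[i + m] z)
  rw [Function.iterate_add_apply]

/-- **Fine and Wilf, weak form**: the sequences of periods `p`, `q` which agree on `[0, p + q)`
are equal. -/
theorem fw {p q : ℕ} {x y : ℕ → Fin n} (hx : Per p x) (hy : Per q y) (hp : 0 < p) (hq : 0 < q)
    (h : ∀ i, i < p + q → x i = y i) : x = y := by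
  funext i
  induction i using Nat.strong_induction_on with
  | _ i ih =>
    rcases Nat.lt_or_ge i (p + q) with hi | hi
    · exact h i hi
    · have e1 : x i = x (i - p) := by
        have := hx (i - p)
        rwa [Nat.sub_add_cancel (by omega)] at this
      have e2 : x (i - q) = x (i - q - p) := by
        have := hx (i - q - p)
        rwa [Nat.sub_add_cancel (by omega)] at this
      have e3 : y i = y (i - q) := by
        have := hy (i - q)
        rwa [Nat.sub_add_cancel (by omega)] at this
      have e4 : y (i - p) = y (i - p - q) := by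
        have := hy (i - p - q)
        rwa [Nat.sub_add_cancel (by omega)] at this
      rw [e1, ih (i - p) (by omega), e4, e3, ← ih (i - q) (by omega), e2,
        ih (i - q - p) (by omega)]
      congr 1
      omega

end Pool.Agent.WFS.Lab
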