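import Mathlib

set_option autoImplicit false

namespace Pool.WFS.Lab

/-- both sizes are small for large `N` -/
theorem tail_small {s : ℝ} (hs0 : 0 ≤ s) (hs1 : s < 1) (C : ℝ) (hC : 0 ≤ C) (e : ℕ) {ε : ℝ}
    (hε : 0 < ε) (N₀ : ℕ) : ∃ N, N₀ ≤ N ∧ C * (N : ℝ) ^ e * s ^ N ≤ ε ∧
      ∀ T : ℕ, ∑ d ∈ Finset.range T, (if N ≤ d then C * ((N + d : ℕ) : ℝ) ^ e * s ^ d else 0) ≤ ε := by
  have h1 : Summable fun d : ℕ => (d : ℝ) ^ e * s ^ d :=
    summable_pow_mul_geometric_of_norm_lt_one e (by rwa [Real.norm_of_nonneg hs0])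
  have h2 : Summable fun d : ℕ => C * 2 ^ e * ((d : ℝ) ^ e * s ^ d) := h1.mul_left _
  have h0 : ∀ d : ℕ, 0 ≤ C * 2 ^ e * ((d : ℝ) ^ e * s ^ d) := fun d => by positivity
  obtain ⟨N1, hN1⟩ := (Metric.tendsto_atTop.1 (tendsto_sum_nat_add
    (fun d : ℕ => C * 2 ^ e * ((d : ℝ) ^ e * s ^ d)))) ε hε
  refine ⟨max N1 N₀, le_max_right _ _, ?_, ?_⟩
  all_goals
    set N := max N1 N₀ with hN
    have h3 := hN1 N (le_max_left _ _)
    rw [Real.dist_eq, sub_zero] at h3
    have h4 : Summable fun k : ℕ => C * 2 ^ e * (((k + N : ℕ) : ℝ) ^ e * s ^ (k + N)) :=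
      (summable_nat_add_iff N).2 h2
    have h5 := (abs_lt.1 h3).2
  · have h6 := h4.le_tsum 0 (fun j _ => h0 (j + N))
    have h7 : (1 : ℝ) ≤ 2 ^ e := one_le_pow₀ (by norm_num)
    simp only [zero_add] at h6
    have h8 : C * (N : ℝ) ^ e * s ^ N ≤ C * 2 ^ e * ((N : ℝ) ^ e * s ^ N) := by
      have : 0 ≤ C * ((N : ℝ) ^ e * s ^ N) := by positivity
      nlinarith
    linarith
  · intro T
    have h6 : ∑ d ∈ Finset.range T, (if N ≤ d then C * ((N + d : ℕ) : ℝ) ^ e * s ^ d else 0) ≤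
        ∑ d ∈ Finset.range T, (if N ≤ d then C * 2 ^ e * ((d : ℝ) ^ e * s ^ d) else 0) := by
      refine Finset.sum_le_sum fun d _ => ?_
      split_ifs with hd
      · have e1 : ((N + d : ℕ) : ℝ) ^ e ≤ 2 ^ e * (d : ℝ) ^ e := by
          rw [← mul_pow]
          refine pow_le_pow_left₀ (by positivity) ?_ e
          have : (N : ℝ) ≤ d := by exact_mod_cast hd
          push_cast
          linarith
        have e2 : 0 ≤ C * s ^ d := by positivity
        calc C * ((N + d : ℕ) : ℝ) ^ e * s ^ d = (C * s ^ d) * ((N + d : ℕ) : ℝ) ^ e := by ring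
          _ ≤ (C * s ^ d) * (2 ^ e * (d : ℝ) ^ e) := mul_le_mul_of_nonneg_left e1 e2
          _ = _ := by ring
      · exact le_rfl
    have h7 : ∑ d ∈ Finset.range T, (if N ≤ d then C * 2 ^ e * ((d : ℝ) ^ e * s ^ d) else 0) =
        ∑ k ∈ Finset.range (T - N), C * 2 ^ e * (((k + N : ℕ) : ℝ) ^ e * s ^ (k + N)) := by
      rw [← Finset.sum_filter]
      symm
      refine Finset.sum_bij' (fun k _ => k + N) (fun d _ => d - N) ?_ ?_ ?_ ?_ ?_
      · intro k hk
        simp only [Finset.mem_range, Finset.mem_filter] at hk ⊢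
        omega
      · intro d hd
        simp only [Finset.mem_range, Finset.mem_filter] at hd ⊢
        omega
      · intro k hk; exact Nat.add_sub_cancel k N
      · intro d hd
        simp only [Finset.mem_range, Finset.mem_filter] at hd

        omega
      · intro k hk; rfl
    have h8 := h4.sum_le_tsum (Finset.range (T - N)) (fun j _ => h0 (j + N))
    linarith

end Pool.WFS.Lab
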