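import Pool.Agent.WFS.LabOut
import Pool.Agent.WFS.LabTail
import Pool.Agent.WFS.LabC7

/-!
# WFS module C: THE LABELLING THEOREM
-/

set_option autoImplicit false

namespace Pool.Agent.WFS.Lab

open Pool.Agent.WFS
open Pool.WFS.Lab (act pre WA exists_lam tail_small)

theorem C7a {V : Type} [Fintype V] [DecidableEq V] {n : ℕ} [NeZero n] (D : Pool.WFS.Lab.Dat V (Fin n)) 
    (C l : ℝ) (hC : 1 ≤ C) (hl : 1 ≤ l)
    (hW : ∀ d, ((WA D.o (7 * D.k) d).ncard : ℝ) ≤ C * l ^ d) [Fintype (QQ D)] :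
    (Fintype.card (QQ D) : ℝ) ≤ (2 * D.L + D.R + 1) * (Fintype.card V * D.N * C * l ^ D.N) :=
  D.card_QS hC hl hW

theorem C7b {V : Type} [Fintype V] [DecidableEq V] {n : ℕ} [NeZero n] (D : Pool.WFS.Lab.Dat V (Fin n)) 
    (C l : ℝ) (hC : 1 ≤ C) (hl : 1 ≤ l)
    (hW : ∀ d, ((WA D.o (7 * D.k) d).ncard : ℝ) ≤ C * l ^ d) [Fintype (QQ D)] [DecidableEq (QQ D)]
    (d : ℕ) (hd : D.N ≤ d) (A : Finset (List (Fin n))) (hA : ∀ x ∈ A, x ∈ WA D.o (7 * D.k) d) :
    ((∑ q', Finset.univ.sup fun q => (A.filter fun x => wf (FF D) x q = q').card : ℕ) : ℝ) ≤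
      (2 * D.L + D.R + 1) * (Fintype.card V * D.N * C ^ 2) * l ^ d :=
  D.near hC hl hW hd A hA

theorem labelling {V : Type} [Fintype V] [DecidableEq V] [Nonempty V] {n : ℕ} (hn : 2 ≤ n)
    (A : Matrix V V ℕ) (hA : FS n A) :
    ∃ r : ℝ, 0 < r ∧ r < 1 ∧ 1 < n * r ∧ ∀ ε : ℝ, 0 < ε → ∀ N₀ : ℕ, ∃ N, N₀ ≤ N ∧
      ∃ (Q : Type) (_ : Fintype Q) (_ : DecidableEq Q) (_ : Nonempty Q) (F : Fin n → Q → Q),
        Sse (toFin (am F)) (toFin A) ∧
        (∀ w : List (Fin n), w ≠ [] → w.length < N → ∃ m c, ∀ q, (wf F w)^[m] q = c) ∧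
        (Fintype.card Q : ℝ) * r ^ N ≤ ε ∧
        ∀ (W : Finset (List (Fin n))) (T : ℕ),
          (∀ x ∈ W, N ≤ x.length ∧ ¬ ∃ c, ∀ q, wf F x q = c) →
          (∑ d ∈ Finset.range T, r ^ d * ((∑ q', Finset.univ.sup fun q =>
            (W.filter fun x => x.length = d ∧ wf F x q = q').card : ℕ) : ℝ)) ≤ ε := by
  classical
  have hn1 : 1 ≤ n := by omega
  have : NeZero n := ⟨by omega⟩
  obtain ⟨f, v0, hf1, -, hf3⟩ := FS.maps hn1 hA inferInstance
  have hz : (⟨0, hn1⟩ : Fin n) = 0 := rfl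
  rw [hz] at hf3
  have hfA : am f = A := by ext i j; exact (hf1 i j).symm
  have hk : 1 ≤ Fintype.card V := Fintype.card_pos
  have hmat : mat f = A := by ext i j; exact (hf1 i j).symm
  have htr : ∀ m, 0 < m → (mat f ^ m).trace = n ^ m := fun m hm => by
    rw [hmat]; exact hA.trace_pow inferInstance m hm
  obtain ⟨R, hR⟩ : ∃ R, ∀ v v', ∃ d : List (Fin n), d.length = R ∧ act f v d = v' := by
    obtain ⟨-, R, rr, h1, h2⟩ := hA
    refine ⟨R, fun v v' => ?_⟩
    have h3 := h2 v' v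
    rw [← hmat, mat_pow] at h3
    have h4 : 0 < (Finset.univ.filter fun w : Fin R → Fin n => run f (ext w) R v = v').card := by
      rw [h3]; exact h1 v'
    obtain ⟨w, hw⟩ := Finset.card_pos.mp h4
    refine ⟨pre (ext w) R, by simp, ?_⟩
    rw [← run_eq_act]
    exact (Finset.mem_filter.mp hw).2
  obtain ⟨l, hl, hln, hW⟩ := exists_lam (0 : Fin n) (by rw [Fintype.card_fin]; exact hn)
    (K := 7 * Fintype.card V) (by omega)
  rw [Fintype.card_fin] at hln hW
  set C : ℝ := (n : ℝ) ^ (7 * Fintype.card V) with hCdef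
  have hC : 1 ≤ C := one_le_pow₀ (by exact_mod_cast hn1)
  have hn0 : (0 : ℝ) < n := by exact_mod_cast hn1
  have hl0 : (0 : ℝ) < l := by linarith
  -- the radius
  obtain ⟨r, hr1, hr2⟩ := exists_between (one_div_lt_one_div_of_lt hl0 hln)
  have hr0 : 0 < r := lt_trans (by positivity) hr1
  have hrl : r * l < 1 := by
    rw [lt_div_iff₀ hl0] at hr2
    exact hr2
  have hrn : 1 < n * r := by
    rw [div_lt_iff₀ hn0] at hr1
    linarith
  have hr1' : r < 1 := lt_of_lt_of_le hr2 (by rw [div_le_one hl0]; exact hl)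
  refine ⟨r, hr0, hr1', hrn, fun ε hε N₀ => ?_⟩
  have hq0 : 0 ≤ r * l := by positivity
  set k := Fintype.card V with hkdef
  set K0 : ℝ := (4 * (R + 6 + R) + 8 * k + 2 * k + 24 + 1 + R : ℝ) * (k * C ^ 2) with hK0
  obtain ⟨N, hN, hb1, hb2⟩ := tail_small hq0 hrl K0 (by positivity) 2 hε
    (N₀ + 3 * k + 1)
  obtain ⟨D, d1, d2, d3, d4, d5, d6⟩ := exists_dat' hn f v0 hk (by omega : 3 * k ≤ N) hf3 hR htr
  have hfin : Finite (QQ D) := D.finite_states.to_subtype
  have hft : Fintype (QQ D) := Fintype.ofFinite _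
  refine ⟨N, by omega, QQ D, hft, inferInstance, ⟨⟨(v0, []), nil_mem D v0⟩⟩, FF D, ?_, ?_, ?_, ?_⟩
  · have e1 := sse_FF D
    rw [d1, hfA] at e1
    exact e1
  · intro w hw hlw
    exact good_FF D w hw (by rw [d3]; exact hlw)
  all_goals
    have hW' : ∀ d, ((WA D.o (7 * D.k) d).ncard : ℝ) ≤ C * l ^ d := by
      intro d
      rw [d4, d2]
      exact hW d
    have hN1 : (1 : ℝ) ≤ N := by
      have : 1 ≤ N := by omega
      exact_mod_cast this
    have hLR : (2 * D.L + D.R + 1 : ℝ) ≤ (4 * (R + 6 + R) + 8 * k + 2 * k + 24 + 1 + R : ℝ) * N := by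
      rw [d5, d6]
      push_cast
      have hR0 : (0 : ℝ) ≤ R := Nat.cast_nonneg _
      have hk0 : (0 : ℝ) ≤ k := Nat.cast_nonneg _
      nlinarith [mul_le_mul_of_nonneg_left hN1 hR0, mul_le_mul_of_nonneg_left hN1 hk0]
  · have e1 := C7a D C l hC hl hW'
    rw [d3] at e1
    have hC0 : 0 ≤ C := by linarith
    calc (Fintype.card (QQ D) : ℝ) * r ^ N
        ≤ ((2 * D.L + D.R + 1) * (k * N * C * l ^ N)) * r ^ N :=
          mul_le_mul_of_nonneg_right e1 (by positivity)
      _ = (2 * D.L + D.R + 1) * (k * N * C * (r * l) ^ N) := by rw [mul_pow]; ring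
      _ ≤ ((4 * (R + 6 + R) + 8 * k + 2 * k + 24 + 1 + R) * N) * (k * N * C * (r * l) ^ N) :=
          mul_le_mul_of_nonneg_right hLR (by positivity)
      _ = ((4 * (R + 6 + R) + 8 * k + 2 * k + 24 + 1 + R) * N * (k * N * (r * l) ^ N)) * C := by ring
      _ ≤ ((4 * (R + 6 + R) + 8 * k + 2 * k + 24 + 1 + R) * N * (k * N * (r * l) ^ N)) * C ^ 2 := by
          refine mul_le_mul_of_nonneg_left ?_ (by positivity)
          nlinarith
      _ = K0 * (N : ℝ) ^ 2 * (r * l) ^ N := by rw [hK0]; ring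
      _ ≤ ε := hb1
  · intro W T hWx
    -- the words contain no `o^(7 k)`
    have hnz : ∀ x ∈ W, x ∈ WA D.o (7 * D.k) x.length := by
      intro x hx
      refine ⟨rfl, fun hin => (hWx x hx).2 ?_⟩
      exact const_of_infix' hin (kill_FF D)
    have hterm : ∀ d, ((∑ q', Finset.univ.sup fun q =>
        (W.filter fun x => x.length = d ∧ wf (FF D) x q = q').card : ℕ) : ℝ) ≤
        if N ≤ d then (2 * D.L + D.R + 1) * (k * N * C ^ 2) * l ^ d else 0 := by
      intro d
      split_ifs with hd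
      · have e1 := C7b D C l hC hl hW' d (by rw [d3]; exact hd) (W.filter fun x => x.length = d)
          (by
            intro x hx
            rw [Finset.mem_filter] at hx
            rw [← hx.2]
            exact hnz x hx.1)
        rw [d3] at e1
        simp only [Finset.filter_filter] at e1
        exact e1
      · have e2 : ∀ q q', (W.filter fun x => x.length = d ∧ wf (FF D) x q = q') = ∅ := by
          intro q q'
          rw [Finset.filter_eq_empty_iff]
          rintro x hx ⟨h1, _⟩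
          have := (hWx x hx).1
          omega
        rw [Finset.sum_eq_zero, Nat.cast_zero]
        intro q' _
        refine Nat.le_zero.mp (Finset.sup_le fun q _ => ?_)
        rw [e2, Finset.card_empty]
    refine le_trans ?_ (hb2 T)
    refine Finset.sum_le_sum fun d _ => ?_
    refine (mul_le_mul_of_nonneg_left (hterm d) (by positivity)).trans ?_
    split_ifs with hd
    · have hd' : (N : ℝ) ≤ (N + d : ℕ) := by exact_mod_cast Nat.le_add_right _ _
      calc r ^ d * ((2 * D.L + D.R + 1) * (k * N * C ^ 2) * l ^ d)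
          = (2 * D.L + D.R + 1) * (k * N * C ^ 2 * (r * l) ^ d) := by rw [mul_pow]; ring
        _ ≤ ((4 * (R + 6 + R) + 8 * k + 2 * k + 24 + 1 + R) * N) * (k * N * C ^ 2 * (r * l) ^ d) :=
            mul_le_mul_of_nonneg_right hLR (by positivity)
        _ = K0 * (N : ℝ) ^ 2 * (r * l) ^ d := by rw [hK0]; ring
        _ ≤ K0 * ((N + d : ℕ) : ℝ) ^ 2 * (r * l) ^ d := by
            refine mul_le_mul_of_nonneg_right (mul_le_mul_of_nonneg_left ?_ (by positivity))
              (by positivity)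
            exact pow_le_pow_left₀ (by positivity) hd' 2
    · rw [mul_zero]

end Pool.Agent.WFS.Lab
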