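import Pool.Agent.WFS.PolyLin2

/-!
# Reduction: a matrix which is shift equivalent to `(n)` is strong shift equivalent to a matrix with all
column sums `n` and with a power which has positive entries and equal columns
-/

set_option autoImplicit false
set_option linter.unusedSectionVars false

namespace Pool.Agent.WFS

open Matrix

section data

variable {V W : Type} [Fintype V] [DecidableEq V] [Fintype W] [DecidableEq W]

/-- the data of a shift equivalence with `(n)` -/
def Sd (n : ℕ) (A : Matrix V V ℕ) (l : ℕ) (R S : V → ℕ) : Prop :=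
  A ^ l = vecMulVec R S ∧ A *ᵥ R = n • R ∧ S ᵥ* A = n • S ∧ S ⬝ᵥ R = n ^ l

theorem pow_swap (U : Matrix V W ℕ) (D : Matrix W V ℕ) (l : ℕ) :
    (D * U) ^ (l + 1) = D * (U * D) ^ l * U := by
  induction l with
  | zero => simp
  | succ l ih =>
    rw [pow_succ, ih, pow_succ]
    simp only [Matrix.mul_assoc]

theorem Sd.swap {n : ℕ} {A : Matrix V V ℕ} {l : ℕ} {R S : V → ℕ} (h : Sd n A l R S)
    (U : Matrix V W ℕ) (D : Matrix W V ℕ) (hA : A = U * D) :
    Sd n (D * U) (l + 1) (D *ᵥ R) (S ᵥ* U) := by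
  subst hA
  obtain ⟨h1, h2, h3, h4⟩ := h
  refine ⟨?_, ?_, ?_, ?_⟩
  · rw [pow_swap, h1, Matrix.mul_vecMulVec, Matrix.vecMulVec_mul]
  · have : (D * U) *ᵥ (D *ᵥ R) = D *ᵥ ((U * D) *ᵥ R) := by
      simp only [Matrix.mulVec_mulVec, Matrix.mul_assoc]
    rw [this, h2, Matrix.mulVec_smul]
  · have : (S ᵥ* U) ᵥ* (D * U) = (S ᵥ* (U * D)) ᵥ* U := by
      simp only [Matrix.vecMul_vecMul, Matrix.mul_assoc]
    rw [this, h3, Matrix.smul_vecMul]
  · have : (S ᵥ* U) ⬝ᵥ (D *ᵥ R) = S ⬝ᵥ ((U * D) *ᵥ R) := by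
      rw [← Matrix.dotProduct_mulVec, Matrix.mulVec_mulVec]
    rw [this, h2, dotProduct_smul, h4, smul_eq_mul, pow_succ, mul_comm]

/-- deleting a zero row -/
theorem del_row (A : Matrix V V ℕ) (z : V) (hz : ∀ j, A z j = 0) :
    ∃ (U : Matrix V {i // i ≠ z} ℕ) (D : Matrix {i // i ≠ z} V ℕ), A = U * D := by
  refine ⟨Matrix.of fun i j => if i = j.1 then 1 else 0, A.submatrix Subtype.val id, ?_⟩
  ext i j
  rw [Matrix.mul_apply]
  by_cases hi : i = z
  · rw [hi, hz, Finset.sum_eq_zero]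
    intro x _
    simp [x.2.symm]
  · rw [Finset.sum_eq_single (⟨i, hi⟩ : {i // i ≠ z})]
    · simp
    · intro b _ hb
      have : i ≠ b.1 := fun h => hb (Subtype.ext h.symm)
      simp [this]
    · intro h
      exact absurd (Finset.mem_univ _) h

/-- deleting a zero column -/
theorem del_col (A : Matrix V V ℕ) (z : V) (hz : ∀ i, A i z = 0) :
    ∃ (U : Matrix V {i // i ≠ z} ℕ) (D : Matrix {i // i ≠ z} V ℕ), A = U * D := by
  obtain ⟨U, D, h⟩ := del_row Aᵀ z hz
  refine ⟨Dᵀ, Uᵀ, ?_⟩
  rw [← Matrix.transpose_mul, ← h, Matrix.transpose_transpose]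

theorem pos_of_rows {n : ℕ} {A : Matrix V V ℕ} {l : ℕ} {R S : V → ℕ} (h1 : A ^ l = vecMulVec R S)
    (h2 : A *ᵥ R = n • R) (hr : ∀ i, ∃ j, A i j ≠ 0) (z : V) : 0 < R z := by
  by_contra h0
  have hz : R z = 0 := by omega
  have key : ∀ t : ℕ, ∀ z, R z = 0 → ∃ j, (A ^ t) z j ≠ 0 := by
    intro t
    induction t with
    | zero => exact fun z _ => ⟨z, by simp⟩
    | succ t ih =>
      intro z hz
      obtain ⟨y, hy⟩ := hr z
      have h3 : ∑ j, A z j * R j = 0 := by
        have := congrFun h2 z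
        rw [Pi.smul_apply, hz, smul_zero] at this
        exact this
      have h4 : R y = 0 := by
        have := (Finset.sum_eq_zero_iff.1 h3) y (Finset.mem_univ y)
        exact (Nat.mul_eq_zero.1 this).resolve_left hy
      obtain ⟨j, hj⟩ := ih y h4
      refine ⟨j, ?_⟩
      rw [pow_succ', Matrix.mul_apply]
      intro h5
      have := (Finset.sum_eq_zero_iff.1 h5) y (Finset.mem_univ y)
      exact (Nat.mul_ne_zero hy hj) this
  obtain ⟨j, hj⟩ := key l z hz
  apply hj
  rw [h1, Matrix.vecMulVec_apply, hz, zero_mul]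

/-- trimming -/
theorem trim {n : ℕ} (m : ℕ) : ∀ (V : Type) [Fintype V] [DecidableEq V] (A : Matrix V V ℕ) (l : ℕ)
    (R S : V → ℕ), Fintype.card V = m → Sd n A l R S →
    ∃ (W : Type) (_ : Fintype W) (_ : DecidableEq W) (B : Matrix W W ℕ) (l' : ℕ) (R' S' : W → ℕ),
      Sse (toFin A) (toFin B) ∧ Sd n B l' R' S' ∧ (∀ i, 0 < R' i) ∧ (∀ i, 0 < S' i) := by
  induction m with
  | zero =>
    intro V _ _ A l R S hm h
    have he := Fintype.card_eq_zero_iff.1 hm
    exact ⟨V, _, _, A, l, R, S, Sse.refl _, h, fun i => (he.false i).elim, fun i => (he.false i).elim⟩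
  | succ m ih =>
    intro V _ _ A l R S hm h
    have step : ∀ (z : V) (U : Matrix V {i // i ≠ z} ℕ) (D : Matrix {i // i ≠ z} V ℕ), A = U * D →
        ∃ (W : Type) (_ : Fintype W) (_ : DecidableEq W) (B : Matrix W W ℕ) (l' : ℕ) (R' S' : W → ℕ),
          Sse (toFin A) (toFin B) ∧ Sd n B l' R' S' ∧ (∀ i, 0 < R' i) ∧ (∀ i, 0 < S' i) := by
      intro z U D hA
      obtain ⟨W, i1, i2, B, l', R', S', h1, h2, h3, h4⟩ := ih {i // i ≠ z} (D * U) (l + 1) (D *ᵥ R)
        (S ᵥ* U) (by rw [Fintype.card_subtype_compl, Fintype.card_subtype_eq, hm]; omega)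
        (h.swap U D hA)
      exact ⟨W, i1, i2, B, l', R', S', (est_toFin U D hA rfl).sse.trans h1, h2, h3, h4⟩
    by_cases hr : ∃ z, ∀ j, A z j = 0
    · obtain ⟨z, hz⟩ := hr
      obtain ⟨U, D, hA⟩ := del_row A z hz
      exact step z U D hA
    by_cases hc : ∃ z, ∀ i, A i z = 0
    · obtain ⟨z, hz⟩ := hc
      obtain ⟨U, D, hA⟩ := del_col A z hz
      exact step z U D hA
    push Not at hr hc
    refine ⟨V, _, _, A, l, R, S, Sse.refl _, h, fun i => pos_of_rows h.1 h.2.1 hr i, fun i => ?_⟩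
    refine pos_of_rows (A := Aᵀ) (n := n) (l := l) (R := S) (S := R) ?_ ?_ hc i
    · rw [← Matrix.transpose_pow, h.1, Matrix.transpose_vecMulVec]
    · rw [Matrix.mulVec_transpose]
      exact h.2.2.1

/-- a subset with sum divisible by `n` -/
theorem exists_subsum {E : Type} [Fintype E] {n : ℕ} (hn : 1 ≤ n) (w : E → ℕ)
    (hE : n ≤ Fintype.card E) : ∃ F : Finset E, F.Nonempty ∧ F.card ≤ n ∧ n ∣ ∑ e ∈ F, w e := by
  classical
  obtain ⟨g, hg⟩ : ∃ g : Fin n → E, Function.Injective g := by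
    have : Nonempty (Fin n ↪ E) := Function.Embedding.nonempty_of_card_le (by simpa using hE)
    obtain ⟨g⟩ := this
    exact ⟨g, g.injective⟩
  let p : ℕ → ℕ := fun t => ∑ s ∈ Finset.range t, if h : s < n then w (g ⟨s, h⟩) else 0
  obtain ⟨a, ha, b, hb, hab, he⟩ := Finset.exists_ne_map_eq_of_card_lt_of_maps_to
    (s := Finset.range (n + 1)) (t := Finset.range n) (f := fun t => p t % n) (by simp) (by
      intro t _
      simp only [Finset.coe_range, Set.mem_Iio]
      exact Nat.mod_lt _ (by omega))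
  wlog hlt : a < b generalizing a b
  · exact this b hb a ha hab.symm he.symm (by omega)
  rw [Finset.mem_range] at ha hb
  refine ⟨(Finset.Ico a b).attach.image (fun s => g ⟨s.1, by
    have := Finset.mem_Ico.1 s.2
    omega⟩), ?_, ?_, ?_⟩
  · refine Finset.Nonempty.image ?_ _
    rw [Finset.attach_nonempty_iff]
    exact Finset.nonempty_Ico.2 hlt
  · refine Finset.card_image_le.trans ?_
    rw [Finset.card_attach, Nat.card_Ico]
    omega
  · rw [Finset.sum_image]
    · have h1 : p b = p a + ∑ s ∈ Finset.Ico a b, if h : s < n then w (g ⟨s, h⟩) else 0 :=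
        (Finset.sum_range_add_sum_Ico _ hlt.le).symm
      have h2 : ∑ s ∈ (Finset.Ico a b).attach, w (g ⟨s.1, by
          have := Finset.mem_Ico.1 s.2
          omega⟩) = ∑ s ∈ Finset.Ico a b, if h : s < n then w (g ⟨s, h⟩) else 0 := by
        rw [← Finset.sum_attach (Finset.Ico a b)]
        refine Finset.sum_congr rfl fun s _ => ?_
        have := Finset.mem_Ico.1 s.2
        rw [dif_pos (by omega)]
      rw [h2]
      have h3 : p a ≡ p b [MOD n] := he
      rw [h1] at h3
      have h4 := (Nat.modEq_iff_dvd' (Nat.le_add_right _ _)).1 h3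
      rwa [Nat.add_sub_cancel_left] at h4
    · intro x _ y _ hxy
      have := hg hxy
      exact Subtype.ext (Fin.mk.inj_iff.1 this)

/-- the column of a vertex with the largest weight and an edge to a smaller weight splits -/
theorem exists_split {n : ℕ} (hn : 1 ≤ n) (a S : V → ℕ) (m : ℕ) (hS : ∀ i, 0 < S i)
    (hm : ∀ i, S i ≤ m) (i1 : V) (hi1 : S i1 < m) (ha1 : a i1 ≠ 0) (hsum : ∑ i, S i * a i = n * m) :
    ∃ (b c : V → ℕ) (θ θ' : ℕ), (∀ i, a i = b i + c i) ∧ 0 < θ ∧ 0 < θ' ∧
      ∑ i, S i * b i = n * θ ∧ ∑ i, S i * c i = n * θ' ∧ θ + θ' = m := by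
  let E := Σ i : V, Fin (a i)
  have hcard : Fintype.card E = ∑ i, a i := by simp [E]
  have hlt : n < Fintype.card E := by
    rw [hcard]
    by_contra hle
    have h1 : ∑ i, S i * a i < ∑ i, m * a i := by
      refine Finset.sum_lt_sum (fun i _ => Nat.mul_le_mul_right _ (hm i)) ⟨i1, Finset.mem_univ _, ?_⟩
      exact Nat.mul_lt_mul_of_pos_right hi1 (Nat.pos_of_ne_zero ha1)
    rw [← Finset.mul_sum, hsum, mul_comm n m] at h1
    exact absurd (Nat.lt_of_mul_lt_mul_left h1) (by omega)
  obtain ⟨F, hF1, hF2, ⟨θ, hF3⟩⟩ := exists_subsum hn (fun e : E => S e.1) hlt.le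
  have hwt : ∀ G : Finset E, ∑ e ∈ G, S e.1 = ∑ i, S i * (G.filter fun e => e.1 = i).card := by
    intro G
    rw [← Finset.sum_fiberwise G (fun e => e.1) (fun e => S e.1)]
    refine Finset.sum_congr rfl fun i _ => ?_
    rw [Finset.sum_congr rfl (g := fun _ => S i), Finset.sum_const, smul_eq_mul, mul_comm]
    intro e he
    rw [(Finset.mem_filter.1 he).2]
  have hab : ∀ i, a i = (F.filter fun e => e.1 = i).card + (Fᶜ.filter fun e => e.1 = i).card := by
    intro i
    rw [← Finset.card_union_of_disjoint, ← Finset.filter_union, Finset.union_compl]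
    · have : (Finset.univ.filter fun e : E => e.1 = i) =
          Finset.univ.image (fun x : Fin (a i) => (⟨i, x⟩ : E)) := by
        ext ⟨j, y⟩
        simp only [Finset.mem_filter, Finset.mem_univ, true_and, Finset.mem_image]
        constructor
        · rintro rfl
          exact ⟨y, rfl⟩
        · rintro ⟨x, hx⟩
          exact (Sigma.mk.inj_iff.1 hx).1.symm
      rw [this, Finset.card_image_of_injective, Finset.card_univ, Fintype.card_fin]
      intro x y hxy
      exact eq_of_heq (Sigma.mk.inj_iff.1 hxy).2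
    · refine Finset.disjoint_filter_filter ?_
      exact disjoint_compl_right
  have hsum1 : n * θ + ∑ i, S i * (Fᶜ.filter fun e => e.1 = i).card = n * m := by
    rw [← hsum, ← hF3, hwt, ← Finset.sum_add_distrib]
    refine Finset.sum_congr rfl fun i _ => ?_
    rw [hab i, mul_add]
  have hpos : 0 < ∑ i, S i * (Fᶜ.filter fun e => e.1 = i).card := by
    rw [← hwt]
    refine Finset.sum_pos (fun e _ => hS _) ?_
    rw [← Finset.card_pos, Finset.card_compl]
    omega
  have hθ : 0 < θ := by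
    have h1 : 0 < ∑ e ∈ F, S e.1 := Finset.sum_pos (fun e _ => hS _) hF1
    rw [hF3] at h1
    exact Nat.pos_of_mul_pos_left h1
  have hle : θ ≤ m := by
    have : n * θ ≤ n * m := by omega
    exact Nat.le_of_mul_le_mul_left this (by omega)
  refine ⟨_, _, θ, m - θ, hab, hθ, ?_, ?_, ?_, by omega⟩
  · by_contra h0
    have : θ = m := by omega
    subst this
    omega
  · rw [← hwt, hF3]
  · rw [Nat.mul_sub]
    omega

/-- one splitting -/
theorem split_step {n : ℕ} (hn : 1 ≤ n) {A : Matrix V V ℕ} {l : ℕ} {R S : V → ℕ} (h : Sd n A l R S)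
    (hR : ∀ i, 0 < R i) (hS : ∀ i, 0 < S i) (hc : ¬ ∀ i j, S i = S j) :
    ∃ (B : Matrix (Option V) (Option V) ℕ) (l' : ℕ) (R' S' : Option V → ℕ),
      Sse (toFin A) (toFin B) ∧ Sd n B l' R' S' ∧ (∀ i, 0 < R' i) ∧ (∀ i, 0 < S' i) ∧
      ∑ i, S' i = ∑ i, S i := by
  push Not at hc
  obtain ⟨a0, b0, hab0⟩ := hc
  obtain ⟨jm, -, hjm⟩ := Finset.exists_max_image Finset.univ S ⟨a0, Finset.mem_univ a0⟩
  -- a vertex of the largest weight with an edge to a smaller weight
  obtain ⟨j0, i1, hj0, hi1, hA1⟩ : ∃ j0 i1, S j0 = S jm ∧ S i1 < S jm ∧ A i1 j0 ≠ 0 := by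
    by_contra hcon
    push Not at hcon
    have key : ∀ t : ℕ, ∀ i, (A ^ t) i jm ≠ 0 → S i = S jm := by
      intro t
      induction t with
      | zero =>
        intro i hi
        by_contra hne
        apply hi
        rw [pow_zero, Matrix.one_apply_ne]
        intro h
        exact hne (by rw [h])
      | succ t ih =>
        intro i hi
        by_contra hne
        apply hi
        rw [pow_succ', Matrix.mul_apply]
        refine Finset.sum_eq_zero fun y _ => ?_
        by_cases hy : (A ^ t) y jm = 0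
        · rw [hy, mul_zero]
        · rw [hcon y i (ih y hy) (lt_of_le_of_ne (hjm i (Finset.mem_univ i)) hne), zero_mul]
    have hall : ∀ i, S i = S jm := by
      intro i
      refine key l i ?_
      rw [h.1, Matrix.vecMulVec_apply]
      exact Nat.mul_ne_zero (hR i).ne' (hS jm).ne'
    exact hab0 (by rw [hall a0, hall b0])
  have hsumj : ∑ i, S i * A i j0 = n * S jm := by
    have := congrFun h.2.2.1 j0
    rw [Pi.smul_apply, smul_eq_mul, hj0] at this
    exact this
  obtain ⟨b, c, θ, θ', hbc, hθ, hθ', hb, hc', hm⟩ := exists_split hn (fun i => A i j0) S (S jm) hS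
    (fun i => hjm i (Finset.mem_univ i)) i1 hi1 hA1 hsumj
  let U : Matrix V (Option V) ℕ := Matrix.of fun i w => Option.elim w (c i)
    (fun j => if j = j0 then b i else A i j)
  let D : Matrix (Option V) V ℕ := Matrix.of fun w j => Option.elim w (if j0 = j then 1 else 0)
    (fun j' => if j' = j then 1 else 0)
  let S' : Option V → ℕ := fun w => Option.elim w θ' (fun j => if j = j0 then θ else S j)
  have hA : A = U * D := by
    ext i j
    rw [Matrix.mul_apply, Fintype.sum_option]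
    have e1 : ∑ x : V, U i (some x) * D (some x) j = U i (some j) := by
      rw [Finset.sum_eq_single j]
      · simp [D]
      · intro x _ hx
        simp [D, hx]
      · intro hc
        exact absurd (Finset.mem_univ _) hc
    rw [e1]
    by_cases hj : j = j0
    · subst hj
      simp [U, D, hbc i, add_comm]
    · simp [U, D, hj, Ne.symm hj]
  have hSU : S ᵥ* U = n • S' := by
    funext w
    rw [Pi.smul_apply, smul_eq_mul]
    rcases w with _ | j
    · exact hc'
    · by_cases hj : j = j0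
      · subst hj
        show ∑ i, S i * U i (some j) = n * S' (some j)
        simp only [U, S', Matrix.of_apply, Option.elim_some, if_true]
        exact hb
      · show ∑ i, S i * U i (some j) = n * S' (some j)
        simp only [U, S', Matrix.of_apply, Option.elim_some, if_neg hj]
        exact congrFun h.2.2.1 j
  have h2 := h.swap U D hA
  have hSD : S' ᵥ* D = S := by
    funext j
    show ∑ w, S' w * D w j = S j
    rw [Fintype.sum_option]
    have e1 : ∑ x : V, S' (some x) * D (some x) j = S' (some j) := by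
      rw [Finset.sum_eq_single j]
      · simp [D]
      · intro x _ hx
        simp [D, hx]
      · intro hc
        exact absurd (Finset.mem_univ _) hc
    rw [e1]
    by_cases hj : j = j0
    · subst hj
      simp only [S', D, Matrix.of_apply, Option.elim_some, Option.elim_none, if_true, mul_one]
      omega
    · simp [S', D, hj, Ne.symm hj]
  refine ⟨D * U, l + 1, n • (D *ᵥ R), S', (est_toFin U D hA rfl).sse, ⟨?_, ?_, ?_, ?_⟩, ?_, ?_, ?_⟩
  · rw [h2.1, hSU]
    ext i j
    simp only [Matrix.vecMulVec_apply, Pi.smul_apply, smul_eq_mul]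
    ring
  · rw [Matrix.mulVec_smul, h2.2.1]
  · rw [← Matrix.vecMul_vecMul, hSD, hSU]
  · have := h2.2.2.2
    rw [hSU, smul_dotProduct] at this
    rw [dotProduct_smul]
    exact this
  · intro w
    rw [Pi.smul_apply, smul_eq_mul]
    refine Nat.mul_pos (by omega) ?_
    show 0 < ∑ j, D w j * R j
    rcases w with _ | j
    · refine Finset.sum_pos' (fun _ _ => Nat.zero_le _) ⟨j0, Finset.mem_univ _, ?_⟩
      simpa [D] using hR j0
    · refine Finset.sum_pos' (fun _ _ => Nat.zero_le _) ⟨j, Finset.mem_univ _, ?_⟩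
      simpa [D] using hR j
  · intro w
    rcases w with _ | j
    · exact hθ'
    · by_cases hj : j = j0
      · simpa [S', hj] using hθ
      · simpa [S', hj] using hS j
  · rw [Fintype.sum_option]
    have e1 : ∑ j, S' (some j) + S jm = ∑ j, S j + θ := by
      rw [← Finset.add_sum_erase _ _ (Finset.mem_univ j0), ← Finset.add_sum_erase _ S (Finset.mem_univ j0)]
      have e2 : ∑ x ∈ Finset.univ.erase j0, S' (some x) = ∑ x ∈ Finset.univ.erase j0, S x := by
        refine Finset.sum_congr rfl fun x hx => ?_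
        have := Finset.ne_of_mem_erase hx
        simp [S', this]
      have e3 : S' (some j0) = θ := by simp [S']
      rw [e2, e3, hj0]
      ring
    show θ' + ∑ j, S' (some j) = ∑ j, S j
    omega

/-- all splittings -/
theorem split_all {n : ℕ} (hn : 1 ≤ n) (m : ℕ) : ∀ (V : Type) [Fintype V] [DecidableEq V]
    (A : Matrix V V ℕ) (l : ℕ) (R S : V → ℕ), Sd n A l R S → (∀ i, 0 < R i) → (∀ i, 0 < S i) →
    ∑ i, S i ≤ Fintype.card V + m →
    ∃ (W : Type) (_ : Fintype W) (_ : DecidableEq W) (B : Matrix W W ℕ) (l' : ℕ) (R' S' : W → ℕ),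
      Sse (toFin A) (toFin B) ∧ Sd n B l' R' S' ∧ (∀ i, 0 < R' i) ∧ (∀ i, 0 < S' i) ∧
      ∀ i j, S' i = S' j := by
  induction m with
  | zero =>
    intro V _ _ A l R S h hR hS hm
    refine ⟨V, _, _, A, l, R, S, Sse.refl _, h, hR, hS, ?_⟩
    have h1 : ∀ i, S i = 1 := by
      by_contra hcon
      push Not at hcon
      obtain ⟨i, hi⟩ := hcon
      have : ∑ i : V, 1 < ∑ i, S i := Finset.sum_lt_sum (fun i _ => hS i) ⟨i, Finset.mem_univ i, by
        have := hS i
        omega⟩
      rw [Finset.sum_const, Finset.card_univ, smul_eq_mul, mul_one] at this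
      omega
    intro i j
    rw [h1, h1]
  | succ m ih =>
    intro V _ _ A l R S h hR hS hm
    by_cases hc : ∀ i j, S i = S j
    · exact ⟨V, _, _, A, l, R, S, Sse.refl _, h, hR, hS, hc⟩
    · obtain ⟨B, l1, R1, S1, h1, h2, h3, h4, h5⟩ := split_step hn h hR hS hc
      obtain ⟨W, i1, i2, B', l', R', S', h6, h7⟩ := ih (Option V) B l1 R1 S1 h2 h3 h4 (by
        rw [h5, Fintype.card_option]
        omega)
      exact ⟨W, i1, i2, B', l', R', S', h1.trans h6, h7⟩

/-- a matrix with column sums `n` and a power with positive entries and equal columns -/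
def FS (n : ℕ) (A : Matrix V V ℕ) : Prop :=
  (∀ j, ∑ i, A i j = n) ∧ ∃ (l : ℕ) (r : V → ℕ), (∀ i, 0 < r i) ∧ ∀ i j, (A ^ l) i j = r i

theorem exists_FS {n : ℕ} (hn : 1 ≤ n) {A : Matrix V V ℕ} {l : ℕ} {R S : V → ℕ}
    (h : Sd n A l R S) : ∃ (W : Type) (_ : Fintype W) (_ : DecidableEq W) (B : Matrix W W ℕ),
      Nonempty W ∧ Sse (toFin A) (toFin B) ∧ FS n B := by
  obtain ⟨W1, i1, i2, B1, l1, R1, S1, h1, h2, h3, h4⟩ := trim (n := n) _ V A l R S rfl h
  obtain ⟨W, i3, i4, B, l2, R2, S2, h5, h6, h7, h8, h9⟩ := split_all hn (∑ i, S1 i) W1 B1 l1 R1 S1 h2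
    h3 h4 (by omega)
  have hne : Nonempty W := by
    by_contra hcon
    rw [not_nonempty_iff] at hcon
    have := h6.2.2.2
    rw [Matrix.dotProduct_of_isEmpty] at this
    exact absurd this.symm (pow_ne_zero _ (by omega))
  obtain ⟨w0⟩ := hne
  refine ⟨W, i3, i4, B, ⟨w0⟩, h1.trans h5, ?_, l2, fun i => R2 i * S2 w0, fun i => Nat.mul_pos (h7 i) (h8 w0),
    fun i j => ?_⟩
  · intro j
    have h10 := congrFun h6.2.2.1 j
    have h11 : ∑ i, S2 i * B i j = n * S2 j := h10
    have h12 : ∑ i, S2 i * B i j = S2 j * ∑ i, B i j := by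
      rw [Finset.mul_sum]
      exact Finset.sum_congr rfl fun i _ => by rw [h9 i j]
    rw [h12, mul_comm n] at h11
    exact Nat.eq_of_mul_eq_mul_left (h8 j) h11
  · rw [h6.1, Matrix.vecMulVec_apply, h9 j w0]

theorem sd_of_se {n m : ℕ} (A : Matrix (Fin m) (Fin m) ℕ)
    (h : ∃ ℓ : ℕ, 1 ≤ ℓ ∧ ∃ R : Matrix (Fin m) (Fin 1) ℕ, ∃ S : Matrix (Fin 1) (Fin m) ℕ,
        A ^ ℓ = R * S ∧
        (Matrix.of (fun _ _ => n) : Matrix (Fin 1) (Fin 1) ℕ) ^ ℓ = S * R ∧
        A * R = R * (Matrix.of (fun _ _ => n) : Matrix (Fin 1) (Fin 1) ℕ) ∧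
        S * A = (Matrix.of (fun _ _ => n) : Matrix (Fin 1) (Fin 1) ℕ) * S) :
    ∃ (l : ℕ) (R S : Fin m → ℕ), Sd n A l R S := by
  obtain ⟨l, -, R, S, h1, h2, h3, h4⟩ := h
  have hpow : ∀ l : ℕ, ((Matrix.of (fun _ _ => n) : Matrix (Fin 1) (Fin 1) ℕ) ^ l) 0 0 = n ^ l := by
    intro l
    induction l with
    | zero => simp
    | succ l ih => rw [pow_succ, Matrix.mul_apply, Fin.sum_univ_one, ih, Matrix.of_apply, pow_succ]
  refine ⟨l, fun i => R i 0, fun j => S 0 j, ?_, ?_, ?_, ?_⟩
  · rw [h1]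
    ext i j
    rw [Matrix.mul_apply, Fin.sum_univ_one, Matrix.vecMulVec_apply]
  · funext i
    have := congrFun (congrFun h3 i) 0
    rw [Matrix.mul_apply, Matrix.mul_apply, Fin.sum_univ_one, Matrix.of_apply] at this
    rw [Pi.smul_apply, smul_eq_mul, mul_comm n, ← this]
    rfl
  · funext j
    have := congrFun (congrFun h4 0) j
    rw [Matrix.mul_apply, Matrix.mul_apply, Fin.sum_univ_one, Matrix.of_apply] at this
    rw [Pi.smul_apply, smul_eq_mul, ← this]
    rfl
  · have := congrFun (congrFun h2 0) 0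
    rw [hpow, Matrix.mul_apply] at this
    exact this.symm

theorem colsum_pow {n : ℕ} {A : Matrix V V ℕ} (h : ∀ j, ∑ i, A i j = n) (t : ℕ) (j : V) :
    ∑ i, (A ^ t) i j = n ^ t := by
  induction t generalizing j with
  | zero => simp [Matrix.one_apply]
  | succ t ih =>
    rw [pow_succ]
    simp only [Matrix.mul_apply]
    rw [Finset.sum_comm]
    rw [Finset.sum_congr rfl fun y _ => (Finset.sum_mul Finset.univ (fun i => (A ^ t) i y) (A y j)).symm]
    rw [Finset.sum_congr rfl fun y _ => by rw [ih y], ← Finset.mul_sum, h, pow_succ]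

theorem fs_one {A : Matrix V V ℕ} (h : FS 1 A) (hne : Nonempty V) :
    Sse (toFin A) ⟨1, fun _ _ => 1⟩ := by
  obtain ⟨v0⟩ := hne
  obtain ⟨h1, l, r, hr, h2⟩ := h
  have h3 : ∑ i, r i = 1 := by
    have := colsum_pow h1 l v0
    rw [one_pow] at this
    rw [← this]
    exact Finset.sum_congr rfl fun i _ => (h2 i v0).symm
  have hs : ∀ i, i = v0 := by
    intro i
    by_contra hne
    have h4 : r i + r v0 ≤ ∑ i, r i := by
      rw [← Finset.sum_pair hne]
      exact Finset.sum_le_sum_of_subset (Finset.subset_univ _)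
    have := hr i
    have := hr v0
    omega
  have hA : ∀ i j, A i j = 1 := by
    intro i j
    have := h1 j
    rw [Fintype.sum_eq_single v0 (fun x hx => absurd (hs x) hx)] at this
    rw [hs i, this]
  have : Sse (toFin A) (toFin (fun _ _ => 1 : Matrix (Fin 1) (Fin 1) ℕ)) := by
    refine (est_toFin (fun _ _ => 1 : Matrix V (Fin 1) ℕ) (fun _ _ => 1 : Matrix (Fin 1) V ℕ) ?_ ?_).sse
    · ext i j
      rw [Matrix.mul_apply, Fin.sum_univ_one, hA]
    · ext i j
      rw [Matrix.mul_apply, Fintype.sum_eq_single v0 (fun x hx => absurd (hs x) hx)]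
  exact this.trans (sse_toFin_fin _).symm

/-- THE REDUCTION of the problem -/
theorem reduce (main : ∀ (n : ℕ), 2 ≤ n → ∀ (V : Type) [Fintype V] [DecidableEq V]
      (A : Matrix V V ℕ), Nonempty V → FS n A → Sse (toFin A) ⟨1, fun _ _ => n⟩) :
    ∀ (n : ℕ), 1 ≤ n → ∀ (m : ℕ) (A : Matrix (Fin m) (Fin m) ℕ),
      (∃ ℓ : ℕ, 1 ≤ ℓ ∧ ∃ R : Matrix (Fin m) (Fin 1) ℕ, ∃ S : Matrix (Fin 1) (Fin m) ℕ,
        A ^ ℓ = R * S ∧
        (Matrix.of (fun _ _ => n) : Matrix (Fin 1) (Fin 1) ℕ) ^ ℓ = S * R ∧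
        A * R = R * (Matrix.of (fun _ _ => n) : Matrix (Fin 1) (Fin 1) ℕ) ∧
        S * A = (Matrix.of (fun _ _ => n) : Matrix (Fin 1) (Fin 1) ℕ) * S) →
      Relation.TransGen
        (fun X Y : (Σ k : ℕ, Matrix (Fin k) (Fin k) ℕ) =>
          ∃ R : Matrix (Fin X.1) (Fin Y.1) ℕ, ∃ S : Matrix (Fin Y.1) (Fin X.1) ℕ,
            X.2 = R * S ∧ Y.2 = S * R)
        ⟨m, A⟩ ⟨1, (Matrix.of (fun _ _ => n) : Matrix (Fin 1) (Fin 1) ℕ)⟩ := by
  intro n hn m A h
  obtain ⟨l, R, S, hS⟩ := sd_of_se A h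
  obtain ⟨W, i1, i2, B, hne, h1, h2⟩ := exists_FS hn hS
  have h3 : Sse (toFin B) ⟨1, fun _ _ => n⟩ := by
    rcases Nat.lt_or_ge 1 n with h4 | h4
    · exact main n h4 W B hne h2
    · have : n = 1 := by omega
      subst this
      exact fs_one h2 hne
  exact (sse_toFin_fin A).trans (h1.trans h3)

/-- the traces of the powers -/
theorem FS.trace_pow {n : ℕ} {A : Matrix V V ℕ} (h : FS n A) (hne : Nonempty V) (t : ℕ) (ht : 1 ≤ t) :
    (A ^ t).trace = n ^ t := by
  obtain ⟨v0⟩ := hne
  obtain ⟨h1, l, r, hr, h2⟩ := h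
  let A' : Matrix V V ℤ := A.map (Nat.cast : ℕ → ℤ)
  have hA' : ∀ t, A' ^ t = (A ^ t).map (Nat.cast : ℕ → ℤ) := by
    intro t
    exact (Matrix.map_pow A (Nat.castRingHom ℤ) t).symm
  have hc : ∀ j, ∑ i, A' i j = n := by
    intro j
    rw [← h1 j]
    push_cast
    rfl
  let v : V → ℤ := fun i => if i = v0 then (n : ℤ) else 0
  let E : Matrix V V ℤ := Matrix.of fun i _ => v i
  let M : Matrix V V ℤ := A' - E
  have hv : ∑ i, v i = n := by simp [v]
  have hM1 : ∀ j, ∑ i, M i j = 0 := by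
    intro j
    show ∑ i, (A' i j - v i) = 0
    rw [Finset.sum_sub_distrib, hc, hv, sub_self]
  -- `E * M = 0`
  have hEM : ∀ w : V → ℤ, (Matrix.of fun i (_ : V) => w i) * M = 0 := by
    intro w
    ext i j
    rw [Matrix.mul_apply]
    show ∑ k, w i * M k j = 0
    rw [← Finset.mul_sum, hM1, mul_zero]
  have hpow : ∀ s, M ^ (s + 1) = A' ^ s * M := by
    intro s
    induction s with
    | zero => simp
    | succ s ih =>
      rw [pow_succ', ih, ← Matrix.mul_assoc, pow_succ' A']
      have h3 : M * A' ^ s * M = A' * A' ^ s * M := by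
        have h4 : M = A' - E := rfl
        rcases Nat.eq_zero_or_pos s with h5 | h5
        · subst h5
          rw [pow_zero, mul_one, mul_one]
          nth_rewrite 1 [h4]
          rw [sub_mul, hEM, sub_zero]
        · nth_rewrite 1 [h4]
          rw [sub_mul, sub_mul]
          have h6 : E * A' ^ s * M = 0 := by
            have h7 : E * A' ^ s = Matrix.of fun i (_ : V) => v i * n ^ s := by
              ext i j
              rw [Matrix.mul_apply, hA']
              show ∑ k, v i * (((A ^ s) k j : ℕ) : ℤ) = v i * n ^ s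
              rw [← Finset.mul_sum, ← Nat.cast_sum, colsum_pow h1, Nat.cast_pow]
            rw [h7]
            exact hEM _
          rw [h6, sub_zero]
      exact h3
  have hnil : M ^ (l + 1) = 0 := by
    rw [hpow, hA']
    have : (A ^ l).map (Nat.cast : ℕ → ℤ) = Matrix.of fun i (_ : V) => ((r i : ℕ) : ℤ) := by
      ext i j
      rw [Matrix.map_apply, h2 i j]
      rfl
    rw [this]
    exact hEM _
  have htr : ∀ s, 1 ≤ s → ∃ w : V → ℤ, A' ^ s = M ^ s + (Matrix.of fun i (_ : V) => w i) ∧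
      ∑ i, w i = n ^ s := by
    intro s hs
    induction s, hs using Nat.le_induction with
    | base =>
      refine ⟨v, ?_, by rw [hv, pow_one]⟩
      rw [pow_one, pow_one]
      show A' = A' - E + E
      rw [sub_add_cancel]
    | succ s hs ih =>
      obtain ⟨w, hw1, hw2⟩ := ih
      refine ⟨fun i => ∑ k, A' i k * w k, ?_, ?_⟩
      · rw [pow_succ', hw1, mul_add, hpow s]
        congr 1
        obtain ⟨s', rfl⟩ := Nat.exists_eq_add_of_le' hs
        rw [hpow s', ← Matrix.mul_assoc, pow_succ' A']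
      · rw [Finset.sum_comm, pow_succ, ← hw2, Finset.sum_mul]
        refine Finset.sum_congr rfl fun k _ => ?_
        rw [← Finset.sum_mul, hc, mul_comm]
  obtain ⟨w, hw1, hw2⟩ := htr t ht
  have h5 : (M ^ t).trace = 0 := by
    have h6 : IsNilpotent (M ^ t) := IsNilpotent.pow_of_pos (n := t) ⟨l + 1, hnil⟩ (by omega)
    exact (Matrix.isNilpotent_trace_of_isNilpotent h6).eq_zero
  have h6 : (A' ^ t).trace = n ^ t := by
    rw [hw1, Matrix.trace_add, h5, zero_add]
    exact hw2
  have h7 : ((A ^ t).trace : ℤ) = n ^ t := by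
    rw [← h6, hA']
    simp [Matrix.trace]
  exact_mod_cast h7

/-- the labelling of the edges by `Fin n`, with one label which leads every vertex to a loop -/
theorem FS.maps {n : ℕ} (hn : 1 ≤ n) {A : Matrix V V ℕ} (h : FS n A) (hne : Nonempty V) :
    ∃ (f : Fin n → V → V) (v0 : V), (∀ i j, A i j = (Finset.univ.filter fun a => f a j = i).card) ∧
      f ⟨0, hn⟩ v0 = v0 ∧ ∀ j, (f ⟨0, hn⟩)^[Fintype.card V] j = v0 := by
  obtain ⟨v0, hv0⟩ : ∃ v0, A v0 v0 ≠ 0 := by
    by_contra hcon
    push Not at hcon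
    have h1 := h.trace_pow hne 1 le_rfl
    rw [pow_one, pow_one] at h1
    have h2 : A.trace = 0 := Finset.sum_eq_zero fun i _ => hcon i
    omega
  obtain ⟨hc, l, r, hr, hl⟩ := h
  have hex : ∀ j, ∃ t, (A ^ t) v0 j ≠ 0 := fun j => ⟨l, by rw [hl]; exact (hr v0).ne'⟩
  classical
  let d : V → ℕ := fun j => Nat.find (hex j)
  have hstep : ∀ j, ∃ i, A i j ≠ 0 ∧ (j = v0 → i = v0) ∧ (j ≠ v0 → d i < d j) := by
    intro j
    by_cases hj : j = v0
    · exact ⟨v0, by rw [hj]; exact hv0, fun _ => rfl, fun h => absurd hj h⟩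
    · have h1 : (A ^ d j) v0 j ≠ 0 := Nat.find_spec (hex j)
      obtain ⟨t, ht⟩ : ∃ t, d j = t + 1 := by
        refine Nat.exists_eq_succ_of_ne_zero fun h0 => ?_
        rw [h0, pow_zero, Matrix.one_apply_ne (Ne.symm hj)] at h1
        exact h1 rfl
      rw [ht, pow_succ, Matrix.mul_apply] at h1
      obtain ⟨i, -, hi⟩ := Finset.exists_ne_zero_of_sum_ne_zero h1
      refine ⟨i, fun h0 => hi (by rw [h0, mul_zero]), fun h => absurd h hj, fun _ => ?_⟩
      have h2 : (A ^ t) v0 i ≠ 0 := fun h0 => hi (by rw [h0, zero_mul])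
      have h3 : d i ≤ t := Nat.find_min' (hex i) h2
      omega
  choose g hg1 hg2 hg3 using hstep
  have hcardE : ∀ j, Fintype.card (Σ i, Fin (A i j)) = n := by
    intro j
    rw [Fintype.card_sigma, ← hc j]
    simp
  let e0 : ∀ j, (Σ i, Fin (A i j)) ≃ Fin n := fun j => Fintype.equivFinOfCardEq (hcardE j)
  let x0 : ∀ j, (Σ i, Fin (A i j)) := fun j => ⟨g j, ⟨0, Nat.pos_of_ne_zero (hg1 j)⟩⟩
  let e : ∀ j, (Σ i, Fin (A i j)) ≃ Fin n := fun j => (e0 j).trans (Equiv.swap (e0 j (x0 j)) ⟨0, hn⟩)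
  have he : ∀ j, (e j).symm ⟨0, hn⟩ = x0 j := by
    intro j
    rw [Equiv.symm_apply_eq]
    simp [e]
  let f : Fin n → V → V := fun a j => ((e j).symm a).1
  have hf0 : ∀ j, f ⟨0, hn⟩ j = g j := fun j => by
    show ((e j).symm ⟨0, hn⟩).1 = g j
    rw [he j]
  refine ⟨f, v0, fun i j => ?_, ?_, ?_⟩
  · have h1 : (Finset.univ.filter fun a => f a j = i) =
        (Finset.univ.image fun y : Fin (A i j) => e j ⟨i, y⟩) := by
      ext a
      simp only [Finset.mem_filter, Finset.mem_univ, true_and, Finset.mem_image]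
      constructor
      · intro ha
        have ha' : ((e j).symm a).1 = i := ha
        subst ha'
        exact ⟨((e j).symm a).2, by simp⟩
      · rintro ⟨y, rfl⟩
        show ((e j).symm (e j ⟨i, y⟩)).1 = i
        rw [Equiv.symm_apply_apply]
    rw [h1, Finset.card_image_of_injective, Finset.card_univ, Fintype.card_fin]
    intro y y' hyy
    have := (e j).injective hyy
    exact eq_of_heq (Sigma.mk.inj_iff.1 this).2
  · rw [hf0, hg2 v0 rfl]
  · intro j
    have hfix : ∀ s, (f ⟨0, hn⟩)^[s] v0 = v0 := fun s =>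
      Function.iterate_fixed (by rw [hf0, hg2 v0 rfl]) s
    by_contra hcon
    have hne' : ∀ t ≤ Fintype.card V, (f ⟨0, hn⟩)^[t] j ≠ v0 := by
      intro t ht h0
      apply hcon
      obtain ⟨s, hs⟩ := Nat.exists_eq_add_of_le ht
      rw [hs, add_comm, Function.iterate_add_apply, h0, hfix]
    have hmono : ∀ s t, s < t → t ≤ Fintype.card V →
        d ((f ⟨0, hn⟩)^[t] j) < d ((f ⟨0, hn⟩)^[s] j) := by
      intro s t hst ht
      induction t, hst using Nat.le_induction with
      | base =>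
        rw [Nat.succ_eq_add_one, Function.iterate_succ_apply', hf0]
        exact hg3 _ (hne' s (by omega))
      | succ t hst ih =>
        refine lt_trans ?_ (ih (by omega))
        rw [Function.iterate_succ_apply', hf0]
        exact hg3 _ (hne' t (by omega))
    have hinj : Set.InjOn (fun t => (f ⟨0, hn⟩)^[t] j) (Finset.range (Fintype.card V + 1) : Set ℕ) := by
      intro s hs t ht hst
      rw [Finset.coe_range, Set.mem_Iio] at hs ht
      have hst' : (f ⟨0, hn⟩)^[s] j = (f ⟨0, hn⟩)^[t] j := hst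
      rcases lt_trichotomy s t with h1 | h1 | h1
      · have := hmono s t h1 (by omega)
        rw [hst'] at this
        exact absurd this (lt_irrefl _)
      · exact h1
      · have := hmono t s h1 (by omega)
        rw [hst'] at this
        exact absurd this (lt_irrefl _)
    have h5 := Finset.card_le_univ ((Finset.range (Fintype.card V + 1)).image fun t => (f ⟨0, hn⟩)^[t] j)
    rw [Finset.card_image_of_injOn hinj, Finset.card_range] at h5
    omega

end data

end Pool.Agent.WFS
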