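import Pool.Agent.WFS.Lab.Auto
import Pool.Agent.WFS.LabC5
import Pool.Agent.WFS.LabC6
import Pool.Agent.WFS.LabBr
import Pool.Agent.WFS.LabW
import Pool.Agent.WFS.Red

/-!
# WFS module C: the labelled graph of the data `Dat`

`QQ D` the states, `FF D` the labelled graph. Its matrix is strong shift equivalent to the matrix of `D.f`, every
word of length `< N` synchronises, the word `o^(7 k)` synchronises.
-/

set_option autoImplicit false

namespace Pool.Agent.WFS.Lab

open Pool.Agent.WFS

variable {V α : Type}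

/-- the states -/
abbrev QQ (D : Pool.WFS.Lab.Dat V α) : Type := {q : V × List α // D.St q}

/-- the labelled graph -/
noncomputable def FF (D : Pool.WFS.Lab.Dat V α) (a : α) (q : QQ D) : QQ D :=
  ⟨D.stp a q.1, D.st_stp a q.1⟩

/-- the graph with the default labels -/
noncomputable def DF (D : Pool.WFS.Lab.Dat V α) (a : α) (q : QQ D) : QQ D :=
  ⟨D.ls q.1.1 (q.1.2 ++ [a]), D.st_ls _ _⟩

theorem act_eq_wf (f : α → V → V) (v : V) (u : List α) : Pool.WFS.Lab.act f v u = wf f u v := rfl

theorem nil_mem (D : Pool.WFS.Lab.Dat V α) (v : V) : D.St (v, []) :=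
  Or.inl ⟨Nat.zero_le _, D.run_nil⟩

theorem wf_DF (D : Pool.WFS.Lab.Dat V α) (y : List α) (q : QQ D) :
    (wf (DF D) y q).1 = D.ls q.1.1 (q.1.2 ++ y) := by
  induction y using List.reverseRecOn with
  | nil =>
    rw [List.append_nil, wf_nil]
    exact (D.ls_of_inQ q.2).symm
  | append_singleton y a ih =>
    rw [wf_concat]
    show D.ls (wf (DF D) y q).1.1 ((wf (DF D) y q).1.2 ++ [a]) = _
    rw [ih, ← List.append_assoc, D.ls_append q.1.1 (q.1.2 ++ y) [a]]

/-- the labelled graph gives a strong shift equivalent matrix -/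
theorem sse_FF [Fintype α] [Fintype V] [DecidableEq V] (D : Pool.WFS.Lab.Dat V α)
    [Fintype (QQ D)] [DecidableEq (QQ D)] : Sse (toFin (am (FF D))) (toFin (am D.f)) := by
  have e1 : am (FF D) = am (DF D) := am_relabel (DF D) (fun q => D.sg q.1)
  rw [e1]
  refine auto_sse D.f (2 * D.L + D.R) (DF D) (fun q => Pool.WFS.Lab.act D.f q.1.1 q.1.2) ?_ ?_ ?_
  · exact fun v => ⟨⟨(v, []), nil_mem D v⟩, rfl⟩
  · intro a q
    show Pool.WFS.Lab.act D.f (D.ls q.1.1 (q.1.2 ++ [a])).1 (D.ls q.1.1 (q.1.2 ++ [a])).2 = _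
    rw [D.act_ls, Pool.WFS.Lab.act_append]
    rfl
  · intro q q' h y hy
    apply Subtype.ext
    rw [wf_DF, wf_DF, D.ls_definite _ _ _ hy.ge, D.ls_definite _ _ _ hy.ge, h]

/-- reading a sequence = reading words -/
theorem wf_pre (D : Pool.WFS.Lab.Dat V α) (X : ℕ → α) (q : QQ D) (t : ℕ) :
    (wf (FF D) (Pool.WFS.Lab.pre X t) q).1 = D.sr X q.1 t := by
  induction t with
  | zero => rfl
  | succ t ih =>
    rw [Pool.WFS.Lab.pre_succ, wf_concat, D.sr_succ, ← ih]
    rfl

/-- the periodic sequence of a word -/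
def per (w : List α) (h : w ≠ []) (i : ℕ) : α :=
  w[i % w.length]'(Nat.mod_lt _ (List.length_pos_iff.mpr h))

theorem pre_per (w : List α) (h : w ≠ []) (m : ℕ) :
    Pool.WFS.Lab.pre (per w h) (m * w.length) = (List.replicate m w).flatten := by
  have e0 : Pool.WFS.Lab.pre (per w h) w.length = w := by
    apply List.ext_getElem
    · simp
    · intro i h1 h2
      simp only [Pool.WFS.Lab.pre, List.getElem_map, List.getElem_range, per]
      congr 1
      exact Nat.mod_eq_of_lt h2
  have e1 : Pool.WFS.Lab.sh (per w h) w.length = per w h := by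
    funext i
    simp [Pool.WFS.Lab.sh, per]
  induction m with
  | zero => simp
  | succ m ih =>
    rw [show (m + 1) * w.length = w.length + m * w.length by ring, Pool.WFS.Lab.pre_add, e0, e1, ih,
      List.replicate_succ, List.flatten_cons]

theorem wf_flatten {Q : Type} (F : α → Q → Q) (w : List α) (m : ℕ) (q : Q) :
    wf F (List.replicate m w).flatten q = (wf F w)^[m] q := by
  induction m generalizing q with
  | zero => rfl
  | succ m ih =>
    rw [List.replicate_succ, List.flatten_cons, wf_append, ih, Function.iterate_succ_apply]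

/-- GOODNESS: every word of length `< N` synchronises -/
theorem good_FF [Finite V] [Finite α] (D : Pool.WFS.Lab.Dat V α) [Nonempty V] (w : List α)
    (hw : w ≠ []) (hl : w.length < D.N) : ∃ m c, ∀ q, (wf (FF D) w)^[m] q = c := by
  obtain ⟨T, hT⟩ := D.good (X := per w hw) ⟨w.length, List.length_pos_iff.mpr hw, hl, fun i => by
    simp [per]⟩
  obtain ⟨v⟩ := ‹Nonempty V›
  refine ⟨T, (wf (FF D) w)^[T] ⟨(v, []), nil_mem D v⟩, fun q => ?_⟩
  have h1 : T ≤ T * w.length := Nat.le_mul_of_pos_right _ (List.length_pos_iff.mpr hw)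
  apply Subtype.ext
  rw [← wf_flatten, ← wf_flatten, ← pre_per w hw, wf_pre, wf_pre]
  exact hT _ h1 _ _ q.2 (nil_mem D v)

/-- KILLING WORD -/
theorem kill_FF (D : Pool.WFS.Lab.Dat V α) [Nonempty V] :
    ∃ c, ∀ q, wf (FF D) (List.replicate (7 * D.k) D.o) q = c := by
  obtain ⟨v⟩ := ‹Nonempty V›
  have e : List.replicate (7 * D.k) D.o = Pool.WFS.Lab.pre (fun _ => D.o) (7 * D.k) := by
    rw [Pool.WFS.Lab.pre, List.map_const', List.length_range]
  refine ⟨wf (FF D) (List.replicate (7 * D.k) D.o) ⟨(v, []), nil_mem D v⟩, fun q => ?_⟩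
  apply Subtype.ext
  rw [e, wf_pre, wf_pre]
  exact D.kill q.2 (nil_mem D v)

/-- a word which contains a synchronising word is constant -/
theorem const_of_infix' {Q : Type} {F : α → Q → Q} {s x : List α} (h : s <:+: x)
    (hs : ∃ c, ∀ q, wf F s q = c) : ∃ c, ∀ q, wf F x q = c := by
  obtain ⟨u, w, rfl⟩ := h
  obtain ⟨c, hc⟩ := hs
  refine ⟨wf F w c, fun q => ?_⟩
  rw [wf_append, wf_append, hc]

end Pool.Agent.WFS.Lab
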