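import Mathlib

/-! Small matrices: ring seminorm, the norm `sum_i max_j`, small transvections (moves) and chains.
(helper45, WFS, algebra part) -/

set_option autoImplicit false
set_option linter.all false

namespace Pool.WFS.Lad

open Matrix

/-- a submultiplicative seminorm on a commutative ring with `N 1 ≤ 1`. -/
structure IsN {A : Type} [CommRing A] (N : A → ℝ) : Prop where
  nn : ∀ a, 0 ≤ N a
  z : N 0 = 0
  one : N 1 ≤ 1
  add : ∀ a b, N (a + b) ≤ N a + N b
  neg : ∀ a, N (-a) = N a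
  mul : ∀ a b, N (a * b) ≤ N a * N b

variable {A : Type} [CommRing A] {N : A → ℝ}
variable {ι : Type} [Fintype ι] [DecidableEq ι]

theorem IsN.sub (h : IsN N) (a b : A) : N (a - b) ≤ N a + N b := by
  have := h.add a (-b); rw [h.neg] at this; rwa [sub_eq_add_neg]

theorem IsN.sum (h : IsN N) {κ : Type} (s : Finset κ) (f : κ → A) :
    N (∑ k ∈ s, f k) ≤ ∑ k ∈ s, N (f k) := by
  classical
  induction s using Finset.induction_on with
  | empty => simp [h.z]
  | insert a s ha ih =>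
    rw [Finset.sum_insert ha, Finset.sum_insert ha]
    exact (h.add _ _).trans (by linarith)

theorem IsN.prod (h : IsN N) {κ : Type} (s : Finset κ) (f : κ → A) :
    N (∏ k ∈ s, f k) ≤ ∏ k ∈ s, N (f k) := by
  classical
  induction s using Finset.induction_on with
  | empty => simpa using h.one
  | insert a s ha ih =>
    rw [Finset.prod_insert ha, Finset.prod_insert ha]
    exact (h.mul _ _).trans (mul_le_mul_of_nonneg_left ih (h.nn _))

/-- the sum over the rows of the maximum of the row is at most `e` -/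
def Sm (N : A → ℝ) (e : ℝ) (M : Matrix ι ι A) : Prop :=
  ∃ b : ι → ℝ, (∀ i, 0 ≤ b i) ∧ (∀ i j, N (M i j) ≤ b i) ∧ ∑ i, b i ≤ e

theorem Sm.mono {e f : ℝ} {M : Matrix ι ι A} (h : Sm N e M) (hf : e ≤ f) : Sm N f M := by
  obtain ⟨b, h0, h1, h2⟩ := h
  exact ⟨b, h0, h1, h2.trans hf⟩

theorem Sm.nonneg {e : ℝ} {M : Matrix ι ι A} (h : Sm N e M) : 0 ≤ e := by
  obtain ⟨b, h0, h1, h2⟩ := h
  exact (Finset.sum_nonneg fun i _ => h0 i).trans h2

theorem Sm.zero (hN : IsN N) {e : ℝ} (he : 0 ≤ e) : Sm N e (0 : Matrix ι ι A) :=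
  ⟨0, fun _ => le_rfl, fun i j => by simp [hN.z], by simpa using he⟩

theorem Sm.add (hN : IsN N) {e f : ℝ} {M M' : Matrix ι ι A} (h : Sm N e M) (h' : Sm N f M') :
    Sm N (e + f) (M + M') := by
  obtain ⟨b, h0, h1, h2⟩ := h
  obtain ⟨c, k0, k1, k2⟩ := h'
  refine ⟨fun i => b i + c i, fun i => add_nonneg (h0 i) (k0 i), fun i j => ?_, ?_⟩
  · exact (hN.add _ _).trans (add_le_add (h1 i j) (k1 i j))
  · rw [Finset.sum_add_distrib]; linarith

theorem Sm.neg (hN : IsN N) {e : ℝ} {M : Matrix ι ι A} (h : Sm N e M) : Sm N e (-M) := by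
  obtain ⟨b, h0, h1, h2⟩ := h
  exact ⟨b, h0, fun i j => by simpa [hN.neg] using h1 i j, h2⟩

theorem Sm.sub (hN : IsN N) {e f : ℝ} {M M' : Matrix ι ι A} (h : Sm N e M) (h' : Sm N f M') :
    Sm N (e + f) (M - M') := by
  rw [sub_eq_add_neg]; exact h.add hN (h'.neg hN)

theorem Sm.mul (hN : IsN N) {e f : ℝ} {M M' : Matrix ι ι A} (h : Sm N e M) (h' : Sm N f M') :
    Sm N (e * f) (M * M') := by
  have he := h.nonneg
  obtain ⟨b, h0, h1, h2⟩ := h
  obtain ⟨c, k0, k1, k2⟩ := h'
  refine ⟨fun i => b i * ∑ k, c k,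
    fun i => mul_nonneg (h0 i) (Finset.sum_nonneg fun k _ => k0 k), fun i j => ?_, ?_⟩
  · rw [Matrix.mul_apply]
    refine (hN.sum _ _).trans ?_
    show _ ≤ b i * ∑ k, c k
    rw [Finset.mul_sum]
    exact Finset.sum_le_sum fun k _ => (hN.mul _ _).trans
      (mul_le_mul (h1 i k) (k1 k j) (hN.nn _) (h0 i))
  · rw [← Finset.sum_mul]
    exact mul_le_mul h2 k2 (Finset.sum_nonneg fun k _ => k0 k) he

/-- special linear group -/
abbrev SL (ι : Type) [Fintype ι] [DecidableEq ι] (A : Type) [CommRing A] :=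
  Matrix.SpecialLinearGroup ι A

/-- `g` is within `e` of `1` -/
def nr (N : A → ℝ) (e : ℝ) (g : SL ι A) : Prop := Sm N e ((g : Matrix ι ι A) - 1)

theorem nr.mono {e f : ℝ} {g : SL ι A} (h : nr N e g) (hf : e ≤ f) : nr N f g := Sm.mono h hf

theorem nr.nonneg {e : ℝ} {g : SL ι A} (h : nr N e g) : 0 ≤ e := Sm.nonneg h

theorem nr_one (hN : IsN N) {e : ℝ} (he : 0 ≤ e) : nr N e (1 : SL ι A) := by
  unfold nr; simpa using Sm.zero hN he

theorem nr.mul (hN : IsN N) {e f : ℝ} {a b : SL ι A} (ha : nr N e a) (hb : nr N f b) :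
    nr N ((1 + e) * (1 + f) - 1) (a * b) := by
  unfold nr at *
  have h := (ha.add hN hb).add hN (ha.mul hN hb)
  have e1 : ((a * b : SL ι A) : Matrix ι ι A) - 1
      = ((a : Matrix ι ι A) - 1) + ((b : Matrix ι ι A) - 1)
        + ((a : Matrix ι ι A) - 1) * ((b : Matrix ι ι A) - 1) := by
    rw [Matrix.SpecialLinearGroup.coe_mul]; noncomm_ring
  rw [e1]
  exact h.mono (by ring_nf; rfl)

theorem Sm.inv_aux (hN : IsN N) {e : ℝ} (he : e < 1) {E F : Matrix ι ι A}
    (h : F = -E - E * F) (hE : Sm N e E) : Sm N (e / (1 - e)) F := by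
  have he0 := hE.nonneg
  obtain ⟨b, h0, h1, h2⟩ := hE
  rcases isEmpty_or_nonempty ι with hι | hι
  · refine ⟨fun _ => 0, fun _ => le_rfl, fun i => isEmptyElim i, ?_⟩
    simpa using div_nonneg he0 (by linarith)
  set β : ι → ℝ := fun i => ⨆ j, N (F i j) with hβ
  have hb1 : ∀ i j, N (F i j) ≤ β i := fun i j =>
    le_ciSup (f := fun j => N (F i j)) (Set.finite_range _).bddAbove j
  have hb0 : ∀ i, 0 ≤ β i := fun i => (hN.nn _).trans (hb1 i (Classical.arbitrary ι))
  have hb2 : ∀ i, β i ≤ b i * (1 + ∑ k, β k) := by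
    intro i
    refine ciSup_le fun j => ?_
    have : F i j = -(E i j) - ∑ k, E i k * F k j := by
      conv_lhs => rw [h]
      simp [Matrix.mul_apply]
    rw [this]
    refine (hN.sub _ _).trans ?_
    rw [hN.neg, mul_add, mul_one, Finset.mul_sum]
    refine add_le_add (h1 i j) ((hN.sum _ _).trans ?_)
    exact Finset.sum_le_sum fun k _ => (hN.mul _ _).trans
      (mul_le_mul (h1 i k) (hb1 k j) (hN.nn _) (h0 i))
  refine ⟨β, hb0, hb1, ?_⟩
  have hs : ∑ i, β i ≤ e * (1 + ∑ k, β k) := by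
    calc ∑ i, β i ≤ ∑ i, b i * (1 + ∑ k, β k) := Finset.sum_le_sum fun i _ => hb2 i
      _ = (∑ i, b i) * (1 + ∑ k, β k) := by rw [Finset.sum_mul]
      _ ≤ e * (1 + ∑ k, β k) := mul_le_mul_of_nonneg_right h2
          (by linarith [Finset.sum_nonneg fun i (_ : i ∈ Finset.univ) => hb0 i])
  rw [le_div_iff₀ (by linarith)]
  nlinarith

theorem nr.inv (hN : IsN N) {e : ℝ} (he : e < 1) {a : SL ι A} (ha : nr N e a) :
    nr N (e / (1 - e)) a⁻¹ := by
  unfold nr at *
  refine Sm.inv_aux hN he (E := (a : Matrix ι ι A) - 1) ?_ ha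
  have h : (a : Matrix ι ι A) * ((a⁻¹ : SL ι A) : Matrix ι ι A) = 1 := by
    rw [← Matrix.SpecialLinearGroup.coe_mul, mul_inv_cancel, Matrix.SpecialLinearGroup.coe_one]
  have : ((a : Matrix ι ι A) - 1) * (((a⁻¹ : SL ι A) : Matrix ι ι A) - 1)
    = (a : Matrix ι ι A) * ((a⁻¹ : SL ι A) : Matrix ι ι A) - a
      - ((a⁻¹ : SL ι A) : Matrix ι ι A) + 1 := by noncomm_ring
  rw [this, h]; noncomm_ring

theorem IsN.int (h : IsN N) (k : ℤ) : N ((k : ℤ) : A) ≤ |(k : ℝ)| := by
  have hn : ∀ n : ℕ, N ((n : ℕ) : A) ≤ n := by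
    intro n
    induction n with
    | zero => simp [h.z]
    | succ n ih =>
      push_cast
      exact (h.add _ _).trans (add_le_add ih h.one)
  obtain ⟨n, rfl | rfl⟩ := k.eq_nat_or_neg
  · have := hn n
    simpa using this
  · have := hn n
    rw [Int.cast_neg, h.neg]
    simpa using this

/-- a letter: `1 + v xᵀ` with `x` a constant integral row, `x v = 0`, `v` divisible by `D`,
of size at most `e`. -/
def Mv (N : A → ℝ) (D : A) (e : ℝ) (g : SL ι A) : Prop :=
  ∃ (v : ι → A) (x : ι → ℤ), (g : Matrix ι ι A) = 1 + Matrix.vecMulVec v (fun j => ((x j : ℤ) : A)) ∧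
    (fun j => ((x j : ℤ) : A)) ⬝ᵥ v = 0 ∧ (∀ i, D ∣ v i) ∧
    ∃ (a : ι → ℝ) (c : ℝ), (∀ i, N (v i) ≤ a i) ∧ (∀ j, |(x j : ℝ)| ≤ c) ∧ 0 ≤ c ∧
      (∑ i, a i) * c ≤ e

theorem det_one_add_vv (v x : ι → A) : (1 + Matrix.vecMulVec v x).det = 1 + x ⬝ᵥ v := by
  have := Matrix.det_one_add_replicateCol_mul_replicateRow (ι := Unit) v x
  rwa [← Matrix.vecMulVec_eq Unit] at this

/-- the transvection with given `v`, `x`. -/
def tv (v x : ι → A) (h : x ⬝ᵥ v = 0) : SL ι A :=
  ⟨1 + Matrix.vecMulVec v x, by rw [det_one_add_vv, h, add_zero]⟩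

@[simp] theorem coe_tv (v x : ι → A) (h : x ⬝ᵥ v = 0) :
    ((tv v x h : SL ι A) : Matrix ι ι A) = 1 + Matrix.vecMulVec v x := rfl

theorem vv_mul_vv (v x v' x' : ι → A) :
    Matrix.vecMulVec v x * Matrix.vecMulVec v' x' = (x ⬝ᵥ v') • Matrix.vecMulVec v x' := by
  ext i j
  simp only [Matrix.mul_apply, Matrix.vecMulVec_apply, Matrix.smul_apply, smul_eq_mul,
    dotProduct, Finset.sum_mul]
  exact Finset.sum_congr rfl fun k _ => by ring

theorem Mv.mono {D : A} {e f : ℝ} {g : SL ι A} (h : Mv N D e g) (hf : e ≤ f) : Mv N D f g := by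
  obtain ⟨v, x, h1, h2, h3, a, c, h4, h5, h6, h7⟩ := h
  exact ⟨v, x, h1, h2, h3, a, c, h4, h5, h6, h7.trans hf⟩

theorem Mv.toNr (hN : IsN N) {D : A} {e : ℝ} {g : SL ι A} (h : Mv N D e g) : nr N e g := by
  obtain ⟨v, x, h1, h2, h3, a, c, h4, h5, h6, h7⟩ := h
  refine ⟨fun i => a i * c, fun i => mul_nonneg ((hN.nn _).trans (h4 i)) h6, fun i j => ?_, ?_⟩
  · rw [h1]
    simp only [add_sub_cancel_left, Matrix.vecMulVec_apply]
    exact (hN.mul _ _).trans (mul_le_mul (h4 i) ((hN.int _).trans (h5 j)) (hN.nn _)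
      ((hN.nn _).trans (h4 i)))
  · rwa [← Finset.sum_mul]

theorem Mv.inv (hN : IsN N) {D : A} {e : ℝ} {g : SL ι A} (h : Mv N D e g) : Mv N D e g⁻¹ := by
  obtain ⟨v, x, h1, h2, h3, a, c, h4, h5, h6, h7⟩ := h
  have e00 : (fun j => (((-x j : ℤ)) : A)) = -(fun j => ((x j : ℤ) : A)) := by
    ext j; simp
  have e0 : (fun j => (((-x j : ℤ)) : A)) ⬝ᵥ v = 0 := by
    rw [e00, neg_dotProduct, h2, neg_zero]
  have e1 : g⁻¹ = tv v (fun j => (((-x j : ℤ)) : A)) e0 := by
    rw [inv_eq_iff_mul_eq_one]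
    ext1
    rw [Matrix.SpecialLinearGroup.coe_mul, coe_tv, h1, Matrix.SpecialLinearGroup.coe_one,
      mul_add, add_mul, add_mul, vv_mul_vv, h2, e00]
    simp [Matrix.vecMulVec_neg]
  refine ⟨v, fun j => -x j, by rw [e1, coe_tv], e0, h3, a, c, h4, fun j => ?_, h6, h7⟩
  simpa using h5 j

/-- `g` and `h` are joined by small moves inside the ball of radius `e`. -/
def Ch (N : A → ℝ) (D : A) (e : ℝ) (g h : SL ι A) : Prop :=
  Relation.ReflTransGen (fun a b => nr N e a ∧ nr N e b ∧ Mv N D e (a⁻¹ * b)) g h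

theorem Ch.refl {D : A} {e : ℝ} (g : SL ι A) : Ch N D e g g := Relation.ReflTransGen.refl

theorem Ch.trans {D : A} {e : ℝ} {a b c : SL ι A} (h : Ch N D e a b) (h' : Ch N D e b c) :
    Ch N D e a c := Relation.ReflTransGen.trans h h'

theorem Ch.symm (hN : IsN N) {D : A} {e : ℝ} {a b : SL ι A} (h : Ch N D e a b) :
    Ch N D e b a := by
  induction h with
  | refl => exact Ch.refl _
  | tail _ h1 ih =>
    obtain ⟨h1, h2, h3⟩ := h1
    refine Relation.ReflTransGen.head ⟨h2, h1, ?_⟩ ih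
    have := h3.inv hN
    rwa [_root_.mul_inv_rev, inv_inv] at this

theorem Ch.mono {D : A} {e f : ℝ} {a b : SL ι A} (h : Ch N D e a b) (hf : e ≤ f) :
    Ch N D f a b := by
  induction h with
  | refl => exact Ch.refl _
  | tail _ h1 ih =>
    exact Relation.ReflTransGen.tail ih ⟨h1.1.mono hf, h1.2.1.mono hf, h1.2.2.mono hf⟩

theorem Ch.one_step {D : A} {e : ℝ} {a t : SL ι A} (ha : nr N e a) (hb : nr N e (a * t))
    (ht : Mv N D e t) : Ch N D e a (a * t) :=
  Relation.ReflTransGen.single ⟨ha, hb, by rwa [inv_mul_cancel_left]⟩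

/-- left translation by an element near `1` -/
theorem Ch.left (hN : IsN N) {D : A} {e f : ℝ} {a b y : SL ι A} (h : Ch N D e a b)
    (hy : nr N f y) (he : e ≤ (1 + f) * (1 + e) - 1) :
    Ch N D ((1 + f) * (1 + e) - 1) (y * a) (y * b) := by
  induction h with
  | refl => exact Ch.refl _
  | tail _ h1 ih =>
    refine Relation.ReflTransGen.tail ih ⟨hy.mul hN h1.1, hy.mul hN h1.2.1, ?_⟩
    have := h1.2.2.mono he
    rwa [_root_.mul_inv_rev, mul_assoc, inv_mul_cancel_left]

/-- near `1` along a chain -/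
theorem Ch.nr_right {D : A} {e : ℝ} {a b : SL ι A} (h : Ch N D e a b) (ha : nr N e a) :
    nr N e b := by
  induction h with
  | refl => exact ha
  | tail _ h1 _ => exact h1.2.1

/-! ### the determinant of a small matrix -/

theorem pow_aux {x a : ℝ} (hx : 0 < x) (ha : 0 ≤ a) (hax : a < x) (k : ℕ) :
    (1 / x) ^ k + k * a * (1 / x) ^ (k + 1) ≤ (1 / (x - a)) ^ k := by
  have h1 : (1 / x) * (1 + a / x) ≤ 1 / (x - a) := by
    rw [div_mul_eq_mul_div, one_mul, div_le_div_iff₀ hx (by linarith)]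
    have : (1 + a / x) * (x - a) = x - a * (a / x) := by field_simp; ring
    rw [this]
    have : 0 ≤ a * (a / x) := by positivity
    linarith
  have h2 : ((1 / x) * (1 + a / x)) ^ k ≤ (1 / (x - a)) ^ k :=
    pow_le_pow_left₀ (by positivity) h1 k
  have h3 : 1 + (k : ℝ) * (a / x) ≤ (1 + a / x) ^ k :=
    one_add_mul_le_pow (by have : 0 ≤ a / x := by positivity
                           linarith) k
  have h4 : (0 : ℝ) ≤ (1 / x) ^ k := by positivity
  have e1 : (1 / x) ^ k + k * a * (1 / x) ^ (k + 1) = (1 / x) ^ k * (1 + (k : ℝ) * (a / x)) := by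
    rw [pow_succ]; ring
  rw [e1]
  refine (mul_le_mul_of_nonneg_left h3 h4).trans ?_
  rwa [mul_pow] at h2

theorem powerset_bound {b : ι → ℝ} (h0 : ∀ i, 0 ≤ b i) (S : Finset ι) (hS : ∑ i ∈ S, b i < 1)
    (l : ℕ) :
    ∑ T ∈ S.powerset, (((T.card + l).factorial : ℝ) / (l.factorial : ℝ)) * ∏ i ∈ T, b i
      ≤ (1 / (1 - ∑ i ∈ S, b i)) ^ (l + 1) := by
  induction S using Finset.induction_on generalizing l with
  | empty =>
    simp
    rw [div_self (by positivity)]
  | insert a S ha ih =>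
    rw [Finset.sum_insert ha] at hS ⊢
    have hS0 : 0 ≤ ∑ i ∈ S, b i := Finset.sum_nonneg fun i _ => h0 i
    have ha0 := h0 a
    have hS1 : ∑ i ∈ S, b i < 1 := by linarith
    rw [Finset.sum_powerset_insert ha]
    have e1 : ∑ t ∈ S.powerset, ((((insert a t).card + l).factorial : ℝ) / (l.factorial : ℝ))
          * ∏ i ∈ insert a t, b i
        = (l + 1 : ℕ) * b a * ∑ T ∈ S.powerset,
          (((T.card + (l + 1)).factorial : ℝ) / ((l + 1).factorial : ℝ)) * ∏ i ∈ T, b i := by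
      rw [Finset.mul_sum]
      refine Finset.sum_congr rfl fun t ht => ?_
      have hat : a ∉ t := fun h => ha (Finset.mem_powerset.1 ht h)
      rw [Finset.card_insert_of_notMem hat, Finset.prod_insert hat, Nat.factorial_succ l]
      have : t.card + 1 + l = t.card + (l + 1) := by ring
      rw [this]
      have h1 : (l.factorial : ℝ) ≠ 0 := by positivity
      have h2 : ((l : ℝ) + 1) ≠ 0 := by positivity
      push_cast
      field_simp
    rw [e1]
    have h1 := ih hS1 l
    have h2 := ih hS1 (l + 1)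
    have h3 := pow_aux (x := 1 - ∑ i ∈ S, b i) (a := b a) (by linarith) ha0 (by linarith) (l + 1)
    have h4 : (0 : ℝ) ≤ (l + 1 : ℕ) * b a := by positivity
    have h5 := mul_le_mul_of_nonneg_left h2 h4
    have e2 : 1 - (b a + ∑ i ∈ S, b i) = 1 - ∑ i ∈ S, b i - b a := by ring
    rw [e2]
    linarith

theorem card_fix (S : Finset ι) :
    (Finset.univ.filter fun σ : Equiv.Perm ι => ∀ k, k ∉ S → σ k = k).card
      = S.card.factorial := by
  classical
  have e := Equiv.Perm.subtypeEquivSubtypePerm (fun k => k ∈ S)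
  have h := Fintype.card_congr e
  rw [Fintype.card_perm, Fintype.card_coe] at h
  rw [h, Fintype.card_subtype]

theorem det_piecewise_bound (hN : IsN N) {b : ι → ℝ} (h0 : ∀ i, 0 ≤ b i) {E : Matrix ι ι A}
    (h1 : ∀ i j, N (E i j) ≤ b i) (S : Finset ι) :
    N (Matrix.det (S.piecewise E (1 : Matrix ι ι A) : Matrix ι ι A))
      ≤ (S.card.factorial : ℝ) * ∏ i ∈ S, b i := by
  classical
  rw [Matrix.det_apply]
  refine (hN.sum _ _).trans ?_
  have key : ∀ σ : Equiv.Perm ι,
      N (Equiv.Perm.sign σ • ∏ i, (S.piecewise E (1 : Matrix ι ι A) : Matrix ι ι A) (σ i) i)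
        ≤ if (∀ k, k ∉ S → σ k = k) then ∏ i ∈ S, b i else 0 := by
    intro σ
    have hs : N (Equiv.Perm.sign σ • ∏ i, (S.piecewise E (1 : Matrix ι ι A) : Matrix ι ι A) (σ i) i)
        = N (∏ i, (S.piecewise E (1 : Matrix ι ι A) : Matrix ι ι A) (σ i) i) := by
      rcases Int.units_eq_one_or (Equiv.Perm.sign σ) with h | h
      · rw [h, one_smul]
      · rw [h]
        rw [Units.neg_smul, one_smul, hN.neg]
    rw [hs]
    split_ifs with hσ
    · refine (hN.prod _ _).trans ?_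
      have e1 : ∏ i ∈ S, b i = ∏ i, (if σ i ∈ S then b (σ i) else 1) := by
        rw [Equiv.prod_comp σ (fun k => if k ∈ S then b k else 1)]
        rw [Finset.prod_ite_mem, Finset.univ_inter]
      rw [e1]
      refine Finset.prod_le_prod (fun i _ => hN.nn _) fun i _ => ?_
      by_cases h : σ i ∈ S
      · rw [if_pos h, Finset.piecewise_eq_of_mem _ _ _ h]
        exact h1 _ _
      · rw [if_neg h, Finset.piecewise_eq_of_notMem _ _ _ h, Matrix.one_apply]
        split_ifs
        · exact hN.one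
        · rw [hN.z]; exact zero_le_one
    · push Not at hσ
      obtain ⟨k, hk, hk2⟩ := hσ
      have : ∏ i, (S.piecewise E (1 : Matrix ι ι A) : Matrix ι ι A) (σ i) i = 0 := by
        refine Finset.prod_eq_zero (Finset.mem_univ (σ.symm k)) ?_
        rw [Equiv.apply_symm_apply, Finset.piecewise_eq_of_notMem _ _ _ hk,
          Matrix.one_apply_ne]
        intro h
        apply hk2
        conv_lhs => rw [h]
        rw [Equiv.apply_symm_apply]
      rw [this, hN.z]
  refine (Finset.sum_le_sum fun σ _ => key σ).trans ?_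
  rw [← Finset.sum_filter, Finset.sum_const, card_fix, nsmul_eq_mul]

theorem det_one_add_bound (hN : IsN N) {b : ι → ℝ} (h0 : ∀ i, 0 ≤ b i) {E : Matrix ι ι A}
    (h1 : ∀ i j, N (E i j) ≤ b i) {u : ℝ} (hu : ∑ i, b i ≤ u) (hu1 : u < 1) :
    N ((1 + E).det - 1) ≤ u / (1 - u) := by
  classical
  have e1 : (1 + E).det = ∑ S : Finset ι,
      Matrix.det (S.piecewise E (1 : Matrix ι ι A) : Matrix ι ι A) := by
    rw [add_comm]
    exact MultilinearMap.map_add_univ (Matrix.detRowAlternating (n := ι) (R := A)).toMultilinearMap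
      E (1 : Matrix ι ι A)
  have e2 : (1 + E).det - 1 = ∑ S ∈ (Finset.univ : Finset (Finset ι)).erase ∅,
      Matrix.det (S.piecewise E (1 : Matrix ι ι A) : Matrix ι ι A) := by
    rw [e1, ← Finset.add_sum_erase _ _ (Finset.mem_univ (∅ : Finset ι)),
      Finset.piecewise_empty, Matrix.det_one]
    ring
  rw [e2]
  refine (hN.sum _ _).trans ?_
  refine (Finset.sum_le_sum fun S _ => det_piecewise_bound hN h0 h1 S).trans ?_
  have h2 := powerset_bound h0 Finset.univ (lt_of_le_of_lt hu hu1) 0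
  rw [Finset.powerset_univ, ← Finset.add_sum_erase _ _ (Finset.mem_univ (∅ : Finset ι))] at h2
  simp only [add_zero, Finset.card_empty, Nat.factorial_zero, Nat.cast_one, div_one,
    Finset.prod_empty, mul_one, zero_add, pow_one] at h2
  have h3 : 1 / (1 - ∑ i, b i) ≤ 1 / (1 - u) :=
    one_div_le_one_div_of_le (by linarith) (by linarith)
  have h4 : u / (1 - u) = 1 / (1 - u) - 1 := by
    have : (1 - u) ≠ 0 := by linarith
    field_simp
    ring
  rw [h4]
  linarith

theorem Sm.det (hN : IsN N) {u : ℝ} {E : Matrix ι ι A} (h : Sm N u E) (hu : u < 1) :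
    N ((1 + E).det - 1) ≤ u / (1 - u) := by
  obtain ⟨b, h0, h1, h2⟩ := h
  exact det_one_add_bound hN h0 h1 h2 hu

/-- if `1 + E + θ e_{pp}` has determinant one and `E` is small then `θ` is small -/
theorem corner_bound (hN : IsN N) {u : ℝ} {E : Matrix ι ι A} (h : Sm N u E) (hu : 2 * u < 1)
    (p : ι) (θ : A) (hd : (1 + E + Matrix.single p p θ).det = 1) :
    N θ ≤ u / (1 - 2 * u) := by
  have hu0 := h.nonneg
  set E' : Matrix ι ι A := Matrix.updateRow E p 0 with hE'
  have hE'S : Sm N u E' := by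
    obtain ⟨b, h0, h1, h2⟩ := h
    refine ⟨b, h0, fun i j => ?_, h2⟩
    by_cases hi : i = p
    · subst hi; rw [hE', Matrix.updateRow_self]; simpa [hN.z] using h0 i
    · rw [hE', Matrix.updateRow_ne hi]; exact h1 i j
  have e1 : (1 + E + Matrix.single p p θ) = Matrix.updateRow (1 + E) p
      ((1 + E) p + θ • (1 : Matrix ι ι A) p) := by
    ext i j
    by_cases hi : i = p
    · subst hi
      rw [Matrix.updateRow_self]
      simp [Matrix.single_apply, Matrix.one_apply]
    · rw [Matrix.updateRow_ne hi]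
      simp [Matrix.single_apply, Ne.symm hi]
  have e2 : Matrix.updateRow (1 + E) p ((1 : Matrix ι ι A) p) = 1 + E' := by
    ext i j
    by_cases hi : i = p
    · subst hi
      rw [Matrix.updateRow_self]
      simp [hE', Matrix.updateRow_self]
    · rw [Matrix.updateRow_ne hi]
      simp [hE', Matrix.updateRow_ne hi]
  rw [e1, Matrix.det_updateRow_add, Matrix.updateRow_eq_self, Matrix.det_updateRow_smul, e2] at hd
  have h1 := h.det hN (by linarith)
  have h2 := hE'S.det hN (by linarith)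
  have e3 : θ = -((1 + E).det - 1) - θ * ((1 + E').det - 1) := by
    linear_combination hd
  have h3 : N θ ≤ N ((1 + E).det - 1) + N θ * N ((1 + E').det - 1) := by
    conv_lhs => rw [e3]
    refine (hN.sub _ _).trans ?_
    rw [hN.neg]
    exact add_le_add le_rfl (hN.mul _ _)
  have h4 : N θ ≤ u / (1 - u) + N θ * (u / (1 - u)) :=
    h3.trans (add_le_add h1 (mul_le_mul_of_nonneg_left h2 (hN.nn _)))
  have h5 : 0 < 1 - u := by linarith
  have h6 : N θ * (1 - u) ≤ u + N θ * u := by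
    have := mul_le_mul_of_nonneg_right h4 h5.le
    have e4 : (u / (1 - u) + N θ * (u / (1 - u))) * (1 - u) = u + N θ * u := by
      field_simp
    rwa [e4] at this
  rw [le_div_iff₀ (by linarith)]
  linarith

end Pool.WFS.Lad
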