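import Pool.Agent.WFS.LadA

/-! The weighted norm `sum |p_d| r^d`, rounding of polynomials, dilation `p(sX)`.
(helper45, WFS, algebra part) -/

set_option autoImplicit false
set_option linter.all false

namespace Pool.WFS.Lad

open Polynomial

/-- weighted `l^1` norm -/
noncomputable def wn (r : ℝ) (p : ℝ[X]) : ℝ := ∑ d ∈ p.support, |p.coeff d| * r ^ d

theorem wn_eq (r : ℝ) (p : ℝ[X]) {s : Finset ℕ} (hs : p.support ⊆ s) :
    wn r p = ∑ d ∈ s, |p.coeff d| * r ^ d := by
  unfold wn
  refine Finset.sum_subset hs fun d _ hd => ?_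
  rw [Polynomial.notMem_support_iff.1 hd, abs_zero, zero_mul]

theorem wn_le_of_coeff {r : ℝ} (hr : 0 ≤ r) {p q : ℝ[X]} {c : ℝ}
    (h : ∀ d, |p.coeff d| ≤ c * |q.coeff d|) : wn r p ≤ c * wn r q := by
  rw [wn_eq r p (Finset.subset_union_left (s₂ := q.support)),
    wn_eq r q (Finset.subset_union_right (s₁ := p.support)), Finset.mul_sum]
  refine Finset.sum_le_sum fun d _ => ?_
  have := mul_le_mul_of_nonneg_right (h d) (pow_nonneg hr d)
  linarith

theorem wn_monomial (r : ℝ) (n : ℕ) (a : ℝ) : wn r (monomial n a) = |a| * r ^ n := by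
  rw [wn_eq r _ (Polynomial.support_monomial_subset (a := a) n)] <;> simp

theorem wn_isN {r : ℝ} (hr : 0 ≤ r) : IsN (wn r) := by
  have hadd : ∀ a b, wn r (a + b) ≤ wn r a + wn r b := by
    intro a b
    have hs : (a + b).support ⊆ a.support ∪ b.support := Polynomial.support_add
    rw [wn_eq r _ hs, wn_eq r a (Finset.subset_union_left (s₂ := b.support)),
      wn_eq r b (Finset.subset_union_right (s₁ := a.support)), ← Finset.sum_add_distrib]
    refine Finset.sum_le_sum fun d _ => ?_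
    rw [Polynomial.coeff_add, ← add_mul]
    exact mul_le_mul_of_nonneg_right (abs_add_le _ _) (pow_nonneg hr d)
  have hz : wn r 0 = 0 := by simp [wn]
  have hsum : ∀ {κ : Type} (s : Finset κ) (f : κ → ℝ[X]),
      wn r (∑ k ∈ s, f k) ≤ ∑ k ∈ s, wn r (f k) := by
    classical
    intro κ s f
    induction s using Finset.induction_on with
    | empty => simp [hz]
    | insert a s ha ih =>
      rw [Finset.sum_insert ha, Finset.sum_insert ha]
      exact (hadd _ _).trans (by linarith)
  refine ⟨fun a => Finset.sum_nonneg fun d _ => mul_nonneg (abs_nonneg _) (pow_nonneg hr d),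
    hz, ?_, hadd, fun a => by simp [wn], ?_⟩
  · have : (1 : ℝ[X]) = monomial 0 1 := by simp
    rw [this, wn_monomial]; simp
  · intro a b
    rw [Polynomial.mul_eq_sum_sum]
    refine (hsum _ _).trans ?_
    have h1 : ∀ i ∈ a.support, wn r (b.sum fun j c => monomial (i + j) (a.coeff i * c))
        ≤ (|a.coeff i| * r ^ i) * wn r b := by
      intro i _
      rw [Polynomial.sum_def]
      refine (hsum _ _).trans ?_
      rw [wn, Finset.mul_sum]
      refine Finset.sum_le_sum fun j _ => le_of_eq ?_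
      rw [wn_monomial, abs_mul, pow_add]; ring
    refine (Finset.sum_le_sum h1).trans ?_
    rw [← Finset.sum_mul]
    exact le_of_eq rfl

/-- `ℤ[X] → ℝ[X]` -/
noncomputable def iz : ℤ[X] →+* ℝ[X] := Polynomial.mapRingHom (Int.castRingHom ℝ)

theorem coeff_iz (p : ℤ[X]) (d : ℕ) : (iz p).coeff d = (p.coeff d : ℝ) := by
  simp [iz]

/-- weighted norm on `ℤ[X]` -/
noncomputable def wz (r : ℝ) (p : ℤ[X]) : ℝ := wn r (iz p)

theorem wz_isN {r : ℝ} (hr : 0 ≤ r) : IsN (wz r) := by
  have h := wn_isN hr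
  refine ⟨fun a => h.nn _, ?_, ?_, fun a b => ?_, fun a => ?_, fun a b => ?_⟩
  · simp only [wz, map_zero]; exact h.z
  · simp only [wz, map_one]; exact h.one
  · simp only [wz, map_add]; exact h.add _ _
  · simp only [wz, map_neg]; exact h.neg _
  · simp only [wz, map_mul]; exact h.mul _ _

/-- coefficientwise rounding -/
noncomputable def rd (p : ℝ[X]) : ℤ[X] := ∑ d ∈ p.support, monomial d (round (p.coeff d))

theorem coeff_rd (p : ℝ[X]) (d : ℕ) : (rd p).coeff d = round (p.coeff d) := by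
  unfold rd
  rw [Polynomial.finset_sum_coeff]
  simp only [Polynomial.coeff_monomial]
  rw [Finset.sum_ite_eq' p.support d (fun b => round (p.coeff b))]
  split_ifs with h
  · rfl
  · rw [Polynomial.notMem_support_iff.1 h, round_zero]

theorem abs_round_le (x : ℝ) : |((round x : ℤ) : ℝ)| ≤ 2 * |x| := by
  by_cases h : |x| < 1 / 2
  · have : round x = 0 := by
      rw [abs_lt] at h
      rw [round_eq, Int.floor_eq_zero_iff]
      constructor <;> linarith
    rw [this]; simp
  · push Not at h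
    have h1 := abs_sub_round x
    have h2 : |((round x : ℤ) : ℝ)| ≤ |x| + |x - round x| := by
      have := abs_sub x (x - round x)
      rwa [sub_sub_cancel] at this
    linarith

theorem wn_rd_le {r : ℝ} (hr : 0 ≤ r) (p : ℝ[X]) : wn r (iz (rd p)) ≤ 2 * wn r p := by
  refine wn_le_of_coeff hr fun d => ?_
  rw [coeff_iz, coeff_rd]
  exact abs_round_le _

theorem dvd_rd {n : ℕ} {p : ℝ[X]} (h : X ^ n ∣ p) : X ^ n ∣ rd p := by
  rw [Polynomial.X_pow_dvd_iff] at h ⊢
  intro d hd
  rw [coeff_rd, h d hd, round_zero]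

theorem wn_sub_rd {r : ℝ} (hr : 0 ≤ r) (hr1 : r < 1) {n : ℕ} {p : ℝ[X]} (h : X ^ n ∣ p) :
    wn r (p - iz (rd p)) ≤ r ^ n / (1 - r) / 2 := by
  have hc : ∀ d, (p - iz (rd p)).coeff d = p.coeff d - round (p.coeff d) := by
    intro d
    rw [Polynomial.coeff_sub, coeff_iz, coeff_rd]
  have hs : (p - iz (rd p)).support ⊆ Finset.Ico n (p.natDegree + 1) := by
    intro d hd
    rw [Polynomial.mem_support_iff, hc] at hd
    rw [Finset.mem_Ico]
    by_contra hcon
    apply hd
    have h0 : p.coeff d = 0 := by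
      rw [not_and_or] at hcon
      rcases hcon with h1 | h1
      · exact Polynomial.X_pow_dvd_iff.1 h d (by omega)
      · exact Polynomial.coeff_eq_zero_of_natDegree_lt (by omega)
    rw [h0, round_zero]; simp
  rw [wn_eq r _ hs]
  have h1 : ∀ d ∈ Finset.Ico n (p.natDegree + 1),
      |(p - iz (rd p)).coeff d| * r ^ d ≤ (1 / 2) * r ^ d := by
    intro d _
    rw [hc]
    exact mul_le_mul_of_nonneg_right (abs_sub_round _) (pow_nonneg hr d)
  refine (Finset.sum_le_sum h1).trans ?_
  rw [← Finset.mul_sum]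
  have h2 := geom_sum_Ico_le_of_lt_one (m := n) (n := p.natDegree + 1) hr hr1
  linarith

/-- dilation -/
noncomputable def dil (s : ℝ) : ℝ[X] →+* ℝ[X] := Polynomial.compRingHom (C s * X)

theorem coeff_dil (s : ℝ) (p : ℝ[X]) (d : ℕ) : (dil s p).coeff d = p.coeff d * s ^ d := by
  unfold dil
  rw [Polynomial.coe_compRingHom_apply, Polynomial.comp_C_mul_X_coeff]

theorem dil_one : dil 1 = RingHom.id ℝ[X] := by
  ext p d <;> simp [coeff_dil]

theorem wn_dil_le {r s : ℝ} (hr : 0 ≤ r) (hs : 0 ≤ s) (hs1 : s ≤ 1) (p : ℝ[X]) :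
    wn r (dil s p) ≤ wn r p := by
  have := wn_le_of_coeff (r := r) hr (p := dil s p) (q := p) (c := 1) fun d => by
    rw [coeff_dil, abs_mul, one_mul]
    have h1 : |s ^ d| ≤ 1 := by
      rw [abs_of_nonneg (pow_nonneg hs d)]; exact pow_le_one₀ hs hs1
    exact mul_le_of_le_one_right (abs_nonneg _) h1
  linarith

theorem wn_dil_sub {r : ℝ} (hr : 0 ≤ r) {s t : ℝ} (hs : 0 ≤ s) (hs1 : s ≤ 1) (ht : 0 ≤ t)
    (ht1 : t ≤ 1) (p : ℝ[X]) :
    wn r (dil s p - dil t p) ≤ (|s - t| * p.natDegree) * wn r p := by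
  refine wn_le_of_coeff hr fun d => ?_
  rw [Polynomial.coeff_sub, coeff_dil, coeff_dil, ← mul_sub, abs_mul, mul_comm]
  by_cases hd : d ≤ p.natDegree
  · refine mul_le_mul_of_nonneg_right ?_ (abs_nonneg _)
    have h1 := abs_pow_sub_pow_le s t d
    have h2 : max |s| |t| ^ (d - 1) ≤ 1 := by
      refine pow_le_one₀ (le_max_of_le_left (abs_nonneg _)) ?_
      rw [abs_of_nonneg hs, abs_of_nonneg ht]; exact max_le hs1 ht1
    have h3 : (d : ℝ) ≤ p.natDegree := by exact_mod_cast hd
    calc |s ^ d - t ^ d| ≤ |s - t| * d * max |s| |t| ^ (d - 1) := h1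
      _ ≤ |s - t| * d * 1 := mul_le_mul_of_nonneg_left h2 (by positivity)
      _ ≤ |s - t| * p.natDegree := by
          rw [mul_one]; exact mul_le_mul_of_nonneg_left h3 (abs_nonneg _)
  · rw [Polynomial.coeff_eq_zero_of_natDegree_lt (by omega)]; simp

end Pool.WFS.Lad
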