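import Pool.Agent.WFS.LadB

/-! The rounding lemma. (helper45, WFS, algebra part) -/

set_option autoImplicit false
set_option linter.all false

namespace Pool.WFS.Lad

open Matrix Polynomial

section gen

variable {A : Type} [CommRing A] {N : A → ℝ}
variable {ι : Type} [Fintype ι] [DecidableEq ι]

/-- the column transvections of a matrix with zero diagonal -/
def colT (U : Matrix ι ι A) (h : ∀ i, U i i = 0) (j : ι) : SL ι A :=
  tv (fun i => U i j) (fun k => ((if k = j then (1 : ℤ) else 0 : ℤ) : A)) (by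
    simp [dotProduct, h j])

/-- product of the column transvections over a list -/
def colP (U : Matrix ι ι A) (h : ∀ i, U i i = 0) : List ι → SL ι A
  | [] => 1
  | j :: L => colP U h L * colT U h j

theorem colP_cons_apply (U : Matrix ι ι A) (h : ∀ i, U i i = 0) (j : ι) (L : List ι) (i k : ι) :
    ((colP U h (j :: L) : SL ι A) : Matrix ι ι A) i k
      = ((colP U h L : SL ι A) : Matrix ι ι A) i k
        + (∑ l, ((colP U h L : SL ι A) : Matrix ι ι A) i l * U l j) *
          (if k = j then 1 else 0) := by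
  rw [colP, Matrix.SpecialLinearGroup.coe_mul, colT, coe_tv, mul_add, mul_one, Matrix.add_apply,
    Matrix.mul_vecMulVec, Matrix.vecMulVec_apply]
  congr 1
  rw [Matrix.mulVec, dotProduct]
  split_ifs <;> simp

theorem colP_bound (hN : IsN N) (U : Matrix ι ι A) (h : ∀ i, U i i = 0) {b : ι → ℝ}
    (h0 : ∀ i, 0 ≤ b i) (h1 : ∀ i j, N (U i j) ≤ b i) {u : ℝ} (hu : ∑ i, b i ≤ u) (hu1 : u < 1)
    (L : List ι) (hL : L.Nodup) :
    (∀ i k, k ∉ L → (((colP U h L : SL ι A) : Matrix ι ι A) - 1) i k = 0) ∧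
    (∀ i k, N ((((colP U h L : SL ι A) : Matrix ι ι A) - 1) i k) ≤ b i / (1 - u)) ∧
    (∀ i k, N ((((colP U h L : SL ι A) : Matrix ι ι A) - 1) i k - if k ∈ L then U i k else 0)
      ≤ b i * u / (1 - u)) := by
  have hu0 : 0 ≤ u := (Finset.sum_nonneg fun i _ => h0 i).trans hu
  have h1u : 0 < 1 - u := by linarith
  induction L with
  | nil =>
    refine ⟨fun i k _ => by simp [colP], fun i k => ?_, fun i k => ?_⟩
    · simp [colP, hN.z]; exact div_nonneg (h0 i) h1u.le
    · simp [colP, hN.z]; exact div_nonneg (mul_nonneg (h0 i) hu0) h1u.le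
  | cons j L ih =>
    obtain ⟨hj, hL'⟩ := List.nodup_cons.1 hL
    obtain ⟨i1, i2, i3⟩ := ih hL'
    have key : ∀ i k, (((colP U h (j :: L) : SL ι A) : Matrix ι ι A) - 1) i k
        = if k = j then U i j + ∑ l, (((colP U h L : SL ι A) : Matrix ι ι A) - 1) i l * U l j
          else (((colP U h L : SL ι A) : Matrix ι ι A) - 1) i k := by
      intro i k
      rw [Matrix.sub_apply, colP_cons_apply]
      split_ifs with hk
      · subst hk
        have e1 := i1 i k hj
        rw [Matrix.sub_apply, sub_eq_zero] at e1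
        have e2 : ∑ l, ((colP U h L : SL ι A) : Matrix ι ι A) i l * U l k
            = U i k + ∑ l, (((colP U h L : SL ι A) : Matrix ι ι A) - 1) i l * U l k := by
          simp only [Matrix.sub_apply, sub_mul, Finset.sum_sub_distrib]
          simp [Matrix.one_apply]
        rw [e2, e1]; ring
      · rw [mul_zero, add_zero, Matrix.sub_apply]
    have hsum : ∀ i, N (∑ l, (((colP U h L : SL ι A) : Matrix ι ι A) - 1) i l * U l j)
        ≤ b i * u / (1 - u) := by
      intro i
      refine (hN.sum _ _).trans ?_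
      calc ∑ l, N ((((colP U h L : SL ι A) : Matrix ι ι A) - 1) i l * U l j)
          ≤ ∑ l, (b i / (1 - u)) * b l := Finset.sum_le_sum fun l _ => (hN.mul _ _).trans
            (mul_le_mul (i2 i l) (h1 l j) (hN.nn _) (div_nonneg (h0 i) h1u.le))
        _ = (b i / (1 - u)) * ∑ l, b l := by rw [Finset.mul_sum]
        _ ≤ (b i / (1 - u)) * u := mul_le_mul_of_nonneg_left hu (div_nonneg (h0 i) h1u.le)
        _ = b i * u / (1 - u) := by ring
    refine ⟨fun i k hk => ?_, fun i k => ?_, fun i k => ?_⟩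
    · rw [List.mem_cons, not_or] at hk
      rw [key, if_neg hk.1]
      exact i1 i k hk.2
    · rw [key]
      split_ifs with hk
      · refine (hN.add _ _).trans ((add_le_add (h1 i j) (hsum i)).trans (le_of_eq ?_))
        field_simp; ring
      · exact i2 i k
    · rw [key]
      by_cases hk : k = j
      · subst hk
        rw [if_pos rfl, if_pos (List.mem_cons_self), add_sub_cancel_left]
        exact hsum i
      · rw [if_neg hk]
        have : (k ∈ j :: L) ↔ k ∈ L := by simp [hk]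
        simp only [this]
        exact i3 i k

theorem colP_chain (hN : IsN N) {D : A} (U : Matrix ι ι A) (h : ∀ i, U i i = 0)
    (hD : ∀ i j, D ∣ U i j) {b : ι → ℝ}
    (h0 : ∀ i, 0 ≤ b i) (h1 : ∀ i j, N (U i j) ≤ b i) {u : ℝ} (hu : ∑ i, b i ≤ u) (hu1 : u < 1)
    (L : List ι) (hL : L.Nodup) : Ch N D (u / (1 - u)) 1 (colP U h L) := by
  have hu0 : 0 ≤ u := (Finset.sum_nonneg fun i _ => h0 i).trans hu
  have h1u : 0 < 1 - u := by linarith
  have huu : u ≤ u / (1 - u) := by
    rw [le_div_iff₀ h1u]; nlinarith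
  have hnr : ∀ L : List ι, L.Nodup → nr N (u / (1 - u)) (colP U h L) := by
    intro L hL
    refine ⟨fun i => b i / (1 - u), fun i => div_nonneg (h0 i) h1u.le,
      (colP_bound hN U h h0 h1 hu hu1 L hL).2.1, ?_⟩
    rw [← Finset.sum_div]
    exact div_le_div_of_nonneg_right hu h1u.le
  induction L with
  | nil => exact Ch.refl _
  | cons j L ih =>
    obtain ⟨hj, hL'⟩ := List.nodup_cons.1 hL
    refine (ih hL').trans ?_
    rw [colP]
    refine Ch.one_step (hnr L hL') (hnr (j :: L) hL) ?_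
    refine Mv.mono ?_ huu
    refine ⟨fun i => U i j, fun k => if k = j then 1 else 0, by rw [colT, coe_tv],
      by simp [dotProduct, h j], fun i => hD i j, b, 1,
      fun i => h1 i j, fun k => ?_, zero_le_one, by simpa using hu⟩
    show |((if k = j then (1 : ℤ) else 0 : ℤ) : ℝ)| ≤ 1
    split_ifs <;> simp

/-- product of a list of small elements -/
def lP (t : ι → SL ι A) : List ι → SL ι A
  | [] => 1
  | j :: L => lP t L * t j

theorem lP_bound (hN : IsN N) (t : ι → SL ι A) {c : ι → ℝ}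
    (ht : ∀ i, nr N (c i) (t i)) (L : List ι) :
    nr N (Real.exp ((L.map c).sum) - 1) (lP t L) ∧
    Sm N (Real.exp ((L.map c).sum) - 1 - (L.map c).sum)
      (((lP t L : SL ι A) : Matrix ι ι A) - 1 - (L.map fun i => ((t i : SL ι A) : Matrix ι ι A) - 1).sum) := by
  induction L with
  | nil =>
    simp only [List.map_nil, List.sum_nil, Real.exp_zero, sub_self, sub_zero, lP]
    refine ⟨nr_one hN le_rfl, ?_⟩
    simpa using Sm.zero hN le_rfl
  | cons j L ih =>
    obtain ⟨i1, i2⟩ := ih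
    set s := (L.map c).sum with hs
    have hj := ht j
    have hj0 := hj.nonneg
    have e1 : ((j :: L).map c).sum = s + c j := by rw [List.map_cons, List.sum_cons, add_comm]
    have hexp : Real.exp s * (1 + c j) ≤ Real.exp (s + c j) := by
      rw [Real.exp_add]
      exact mul_le_mul_of_nonneg_left (by linarith [Real.add_one_le_exp (c j)])
        (Real.exp_pos _).le
    rw [e1]
    constructor
    · rw [lP]
      refine (i1.mul hN hj).mono ?_
      have : (1 + (Real.exp s - 1)) * (1 + c j) - 1 = Real.exp s * (1 + c j) - 1 := by ring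
      rw [this]; linarith
    · have h3 : Sm N ((Real.exp s - 1) * c j)
          ((((lP t L : SL ι A) : Matrix ι ι A) - 1) * (((t j : SL ι A) : Matrix ι ι A) - 1)) :=
        Sm.mul hN i1 hj
      have h4 := i2.add hN h3
      have e2 : ((lP t (j :: L) : SL ι A) : Matrix ι ι A) - 1
            - ((j :: L).map fun i => ((t i : SL ι A) : Matrix ι ι A) - 1).sum
          = ((((lP t L : SL ι A) : Matrix ι ι A) - 1
            - (L.map fun i => ((t i : SL ι A) : Matrix ι ι A) - 1).sum)
            + (((lP t L : SL ι A) : Matrix ι ι A) - 1) * (((t j : SL ι A) : Matrix ι ι A) - 1)) := by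
        rw [lP, Matrix.SpecialLinearGroup.coe_mul, List.map_cons, List.sum_cons]
        noncomm_ring
      rw [e2]
      refine h4.mono ?_
      have : Real.exp s - 1 - s + (Real.exp s - 1) * c j
        = Real.exp s * (1 + c j) - 1 - (s + c j) := by ring
      rw [this]; linarith

theorem lP_chain (hN : IsN N) {D : A} (t : ι → SL ι A) {c : ι → ℝ} {C : ℝ}
    (ht : ∀ i, nr N (c i) (t i)) (L : List ι)
    (ht2 : ∀ i ∈ L, Mv N D (c i) (t i)) (hC : (L.map c).sum ≤ C) (hC0 : C ≤ 1) :
    Ch N D (2 * C) 1 (lP t L) := by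
  have hc : ∀ i, 0 ≤ c i := fun i => (ht i).nonneg
  have hCnn : ∀ L : List ι, 0 ≤ (L.map c).sum := by
    intro L
    induction L with
    | nil => simp
    | cons j L ih => rw [List.map_cons, List.sum_cons]; linarith [hc j]
  have hexp : ∀ x : ℝ, 0 ≤ x → x ≤ C → Real.exp x - 1 ≤ 2 * C := by
    intro x hx hxC
    have := Real.abs_exp_sub_one_le (x := x) (by rw [abs_of_nonneg hx]; linarith)
    rw [abs_of_nonneg hx] at this
    linarith [le_abs_self (Real.exp x - 1)]
  induction L with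
  | nil => exact Ch.refl _
  | cons j L ih =>
    rw [List.map_cons, List.sum_cons] at hC
    have hL : (L.map c).sum ≤ C := by linarith [hc j]
    have h1 := ih (fun i hi => ht2 i (List.mem_cons_of_mem _ hi)) hL
    refine h1.trans ?_
    rw [lP]
    refine Ch.one_step ((lP_bound hN t ht L).1.mono (hexp _ (hCnn L) hL)) ?_
      ((ht2 j List.mem_cons_self).mono ?_)
    · have := (lP_bound hN t ht (j :: L)).1
      rw [lP] at this
      refine this.mono (hexp _ (hCnn _) ?_)
      rw [List.map_cons, List.sum_cons]; linarith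
    · linarith [hCnn L, hc j]

end gen

section rounding

variable {ι : Type} [Fintype ι] [DecidableEq ι]

/-- `SL(ℤ[X]) → SL(ℝ[X])` -/
noncomputable def zr : SL ι ℤ[X] →* SL ι ℝ[X] := Matrix.SpecialLinearGroup.map iz

theorem coe_zr (g : SL ι ℤ[X]) (i j : ι) :
    ((zr g : SL ι ℝ[X]) : Matrix ι ι ℝ[X]) i j = iz ((g : Matrix ι ι ℤ[X]) i j) := rfl

theorem coe_zr' (g : SL ι ℤ[X]) :
    ((zr g : SL ι ℝ[X]) : Matrix ι ι ℝ[X]) = iz.mapMatrix (g : Matrix ι ι ℤ[X]) := rfl

theorem Sm_map {r e : ℝ} {M : Matrix ι ι ℤ[X]} (h : Sm (wz r) e M) :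
    Sm (wn r) e (iz.mapMatrix M) := h

theorem nr_zr {r e : ℝ} {g : SL ι ℤ[X]} (h : nr (wz r) e g) : nr (wn r) e (zr g) := by
  unfold nr at *
  have : ((zr g : SL ι ℝ[X]) : Matrix ι ι ℝ[X]) - 1
      = iz.mapMatrix ((g : Matrix ι ι ℤ[X]) - 1) := by
    rw [map_sub, map_one, coe_zr']
  rw [this]; exact Sm_map h

theorem nr_of_zr {r e : ℝ} {g : SL ι ℤ[X]} (h : nr (wn r) e (zr g)) : nr (wz r) e g := by
  unfold nr at *
  have : ((zr g : SL ι ℝ[X]) : Matrix ι ι ℝ[X]) - 1
      = iz.mapMatrix ((g : Matrix ι ι ℤ[X]) - 1) := by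
    rw [map_sub, map_one, coe_zr']
  rw [this] at h; exact h

/-- off-diagonal part to be realised by column transvections -/
noncomputable def Um (p : ι) (E : Matrix ι ι ℝ[X]) : Matrix ι ι ℤ[X] := Matrix.of fun i j =>
  (if i = j then 0 else rd (E i j)) + (if j = p ∧ i ≠ p then rd (E i i) else 0)
    - (if i = p ∧ j ≠ p then rd (E j j) else 0)

theorem Um_diag (p : ι) (E : Matrix ι ι ℝ[X]) (i : ι) : Um p E i i = 0 := by
  simp only [Um, Matrix.of_apply, if_true, zero_add]
  rw [if_neg (by rintro ⟨h, h'⟩; exact h' h), sub_zero]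

/-- diagonal part -/
noncomputable def qm (p : ι) (E : Matrix ι ι ℝ[X]) (i : ι) : ℤ[X] :=
  if i = p then 0 else rd (E i i)

theorem tD_aux (p : ι) (q : ℤ[X]) (i : ι) :
    (fun k => (((if k = i then (1 : ℤ) else 0) - (if k = p then 1 else 0) : ℤ) : ℤ[X])) ⬝ᵥ
      (fun k => if k = i ∨ k = p then q else 0) = 0 := by
  simp only [dotProduct, Int.cast_sub, Int.cast_ite, Int.cast_one, Int.cast_zero, sub_mul,
    Finset.sum_sub_distrib, ite_mul, one_mul, zero_mul]
  simp

/-- the transvection `1 + q (e_i + e_p)(e_i - e_p)^T` -/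
noncomputable def tD (p : ι) (q : ι → ℤ[X]) (i : ι) : SL ι ℤ[X] :=
  tv (fun k => if k = i ∨ k = p then q i else 0)
    (fun k => (((if k = i then (1 : ℤ) else 0) - (if k = p then 1 else 0) : ℤ) : ℤ[X]))
    (tD_aux p (q i) i)

theorem tD_Mv {r : ℝ} (hr : 0 ≤ r) {D : ℤ[X]} (p : ι) (q : ι → ℤ[X]) (i : ι)
    (hq : q p = 0) (hD : D ∣ q i) : Mv (wz r) D (2 * wz r (q i)) (tD p q i) := by
  have hN := wz_isN hr
  refine ⟨_, fun k => (if k = i then (1 : ℤ) else 0) - (if k = p then 1 else 0),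
    coe_tv _ _ _, tD_aux p (q i) i, fun k => ?_,
    fun k => if k = i ∨ k = p then wz r (q i) else 0, 1, fun k => ?_, fun k => ?_, zero_le_one, ?_⟩
  · show D ∣ (if k = i ∨ k = p then q i else 0)
    split_ifs
    · exact hD
    · exact dvd_zero _
  · show wz r (if k = i ∨ k = p then q i else 0) ≤ (if k = i ∨ k = p then wz r (q i) else 0)
    split_ifs
    · exact le_rfl
    · rw [hN.z]
  · show |(((if k = i then (1 : ℤ) else 0) - (if k = p then 1 else 0) : ℤ) : ℝ)| ≤ 1
    rcases em (k = i) with h1 | h1 <;> rcases em (k = p) with h2 | h2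
    · rw [if_pos h1, if_pos h2]; simp
    · rw [if_pos h1, if_neg h2]; simp
    · rw [if_neg h1, if_pos h2]; simp
    · rw [if_neg h1, if_neg h2]; simp
  · rw [mul_one]
    have h0 := hN.nn (q i)
    calc ∑ k, (if k = i ∨ k = p then wz r (q i) else 0)
        ≤ ∑ k, ((if k = i then wz r (q i) else 0) + (if k = p then wz r (q i) else 0)) := by
          refine Finset.sum_le_sum fun k _ => ?_
          rcases em (k = i) with h1 | h1 <;> rcases em (k = p) with h2 | h2
          · rw [if_pos h1, if_pos h2, if_pos (Or.inl h1)]; linarith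
          · rw [if_pos h1, if_neg h2, if_pos (Or.inl h1)]; linarith
          · rw [if_neg h1, if_pos h2, if_pos (Or.inr h2)]; linarith
          · rw [if_neg h1, if_neg h2, if_neg (by rintro (h | h); exacts [h1 h, h2 h])]; linarith
      _ = 2 * wz r (q i) := by
          rw [Finset.sum_add_distrib]; simp; ring

theorem sumV_apply (p : ι) (q : ι → ℤ[X]) (hq : q p = 0) (k l : ι) :
    (∑ i, (((tD p q i : SL ι ℤ[X]) : Matrix ι ι ℤ[X]) - 1)) k l
      = (if k = l then q k else 0) - (if l = p then q k else 0)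
        + (if k = p then q l - (if l = p then ∑ i, q i else 0) else 0) := by
  rw [Matrix.sum_apply]
  have e1 : ∀ i, (((tD p q i : SL ι ℤ[X]) : Matrix ι ι ℤ[X]) - 1) k l
      = (if k = i then q i * ((if l = i then 1 else 0) - (if l = p then 1 else 0)) else 0)
        + (if k = p then q i * ((if l = i then 1 else 0) - (if l = p then 1 else 0)) else 0) := by
    intro i
    rw [tD, coe_tv, add_sub_cancel_left, Matrix.vecMulVec_apply, Int.cast_sub, Int.cast_ite,
      Int.cast_ite, Int.cast_one, Int.cast_zero]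
    rcases em (k = i) with h1 | h1 <;> rcases em (k = p) with h2 | h2
    · have : q i = 0 := by rw [← h1, h2, hq]
      rw [if_pos h1, if_pos h2, if_pos (Or.inl h1), this]; ring
    · rw [if_pos h1, if_neg h2, if_pos (Or.inl h1)]; ring
    · rw [if_neg h1, if_pos h2, if_pos (Or.inr h2)]; ring
    · rw [if_neg h1, if_neg h2, if_neg (by rintro (h | h); exacts [h1 h, h2 h])]; ring
  simp only [e1, Finset.sum_add_distrib]
  congr 1
  · rw [Finset.sum_ite_eq]
    simp only [Finset.mem_univ, if_true]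
    by_cases h : k = l
    · subst h; simp; split_ifs <;> simp
    · rw [if_neg (Ne.symm h), if_neg h]; split_ifs <;> simp
  · by_cases h : k = p
    · simp only [h, if_true, mul_sub, Finset.sum_sub_distrib]
      congr 1
      · simp
      · split_ifs <;> simp
    · simp [h]

theorem T_apply (p : ι) (E : Matrix ι ι ℝ[X]) (k l : ι) :
    (Um p E + ∑ i, (((tD p (qm p E) i : SL ι ℤ[X]) : Matrix ι ι ℤ[X]) - 1)) k l
      = if k = p ∧ l = p then -∑ i, qm p E i else rd (E k l) := by
  have hq : qm p E p = 0 := by simp [qm]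
  rw [Matrix.add_apply, sumV_apply p _ hq]
  simp only [Um, Matrix.of_apply]
  by_cases h1 : k = p <;> by_cases h2 : l = p
  · subst h1; subst h2; simp [hq]
  · subst h1
    have h3 : ¬ (k = l) := fun h => h2 h.symm
    simp [h2, h3, qm]
  · subst h2
    simp [h1, qm]
  · by_cases h3 : k = l
    · subst h3; simp [h1, qm]
    · simp [h1, h2, h3]

theorem Sm_const {A : Type} [CommRing A] {N : A → ℝ} {c e : ℝ} (hc : 0 ≤ c) {M : Matrix ι ι A}
    (h : ∀ i j, N (M i j) ≤ c) (he : (Fintype.card ι : ℝ) * c ≤ e) : Sm N e M :=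
  ⟨fun _ => c, fun _ => hc, h, by simpa using he⟩

theorem Sm_single {A : Type} [CommRing A] {N : A → ℝ} (hN : IsN N) {e : ℝ} (p : ι) (θ : A)
    (h : N θ ≤ e) : Sm N e (Matrix.single p p θ) := by
  have he : 0 ≤ e := (hN.nn _).trans h
  refine ⟨fun i => if i = p then e else 0, fun i => by
    show 0 ≤ (if i = p then e else 0)
    split_ifs <;> simp [he], fun i j => ?_, by simp⟩
  show N (Matrix.single p p θ i j) ≤ (if i = p then e else 0)
  rw [Matrix.single_apply]
  by_cases h1 : i = p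
  · subst h1
    simp only [true_and, if_true]
    split_ifs
    · exact h
    · rw [hN.z]; exact he
  · rw [if_neg (fun hh => h1 hh.1.symm), hN.z, if_neg h1]

/-- **Rounding lemma.** -/
theorem rounding {r δ : ℝ} (hr : 0 ≤ r) (hr1 : r < 1) {n : ℕ} (hδ : 0 < δ)
    (hδ1 : δ ≤ 1 / 10000) (hm : (Fintype.card ι : ℝ) * (r ^ n / (1 - r)) ≤ δ / 5)
    (z : SL ι ℝ[X]) (hz : nr (wn r) (2 * δ) z)
    (hd : ∀ i j, X ^ n ∣ ((z : Matrix ι ι ℝ[X]) - 1) i j) :
    ∃ ζ : SL ι ℤ[X], Ch (wz r) (X ^ n) (50 * δ) 1 ζ ∧ nr (wn r) δ ((zr ζ)⁻¹ * z) := by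
  have hN := wn_isN hr
  have hNz := wz_isN hr
  rcases isEmpty_or_nonempty ι with hι | hι
  · refine ⟨1, Ch.refl _, ?_⟩
    refine ⟨fun _ => 0, fun i => isEmptyElim i, fun i => isEmptyElim i, by simpa using hδ.le⟩
  obtain ⟨p⟩ := hι
  set E : Matrix ι ι ℝ[X] := (z : Matrix ι ι ℝ[X]) - 1 with hE
  obtain ⟨b, b0, b1, b2⟩ := hz
  set β := ∑ i, b i with hβ
  have hβ0 : 0 ≤ β := Finset.sum_nonneg fun i _ => b0 i
  have hbi : ∀ i, b i ≤ β := fun i =>
    Finset.single_le_sum (fun i _ => b0 i) (Finset.mem_univ i)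
  have hrd : ∀ i j, wz r (rd (E i j)) ≤ 2 * b i := fun i j =>
    (wn_rd_le hr _).trans (by linarith [b1 i j])
  -- the off-diagonal part
  set U := Um p E with hU
  have hU0 : ∀ i, U i i = 0 := Um_diag p E
  set B : ι → ℝ := fun i => 4 * b i + (if i = p then 2 * β else 0) with hB
  have hB0 : ∀ i, 0 ≤ B i := by
    intro i; simp only [hB]; split_ifs <;> linarith [b0 i]
  have hB1 : ∀ i j, wz r (U i j) ≤ B i := by
    intro i j
    simp only [hU, Um, Matrix.of_apply, hB]
    refine (hNz.sub _ _).trans ?_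
    have h1 : wz r ((if i = j then 0 else rd (E i j)) + (if j = p ∧ i ≠ p then rd (E i i) else 0))
        ≤ 4 * b i := by
      refine (hNz.add _ _).trans ?_
      have h2 : wz r (if i = j then 0 else rd (E i j)) ≤ 2 * b i := by
        split_ifs
        · rw [hNz.z]; linarith [b0 i]
        · exact hrd i j
      have h3 : wz r (if j = p ∧ i ≠ p then rd (E i i) else 0) ≤ 2 * b i := by
        split_ifs
        · exact hrd i i
        · rw [hNz.z]; linarith [b0 i]
      linarith
    have h4 : wz r (if i = p ∧ j ≠ p then rd (E j j) else 0)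
        ≤ if i = p then 2 * β else 0 := by
      by_cases hi : i = p
      · rw [if_pos hi]
        split_ifs
        · exact (hrd j j).trans (by linarith [hbi j])
        · rw [hNz.z]; linarith
      · rw [if_neg hi, if_neg (fun h => hi h.1), hNz.z]
    linarith
  have hB2 : ∑ i, B i ≤ 12 * δ := by
    simp only [hB]
    rw [Finset.sum_add_distrib, ← Finset.mul_sum]
    simp
    linarith
  have hdE : ∀ i j, X ^ n ∣ rd (E i j) := fun i j => dvd_rd (hd i j)
  have hUd : ∀ i j, X ^ n ∣ U i j := by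
    intro i j
    simp only [hU, Um, Matrix.of_apply]
    refine dvd_sub (dvd_add ?_ ?_) ?_
    · split_ifs
      · exact dvd_zero _
      · exact hdE i j
    · split_ifs
      · exact hdE i i
      · exact dvd_zero _
    · split_ifs
      · exact hdE j j
      · exact dvd_zero _
  have hu1 : 12 * δ < 1 := by linarith
  set L := (Finset.univ : Finset ι).toList with hL
  have hLn : L.Nodup := Finset.nodup_toList _
  set P1 := colP U hU0 L with hP1
  have c1 := colP_chain hNz (D := X ^ n) U hU0 hUd hB0 hB1 hB2 hu1 L hLn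
  obtain ⟨-, c2, c3⟩ := colP_bound hNz U hU0 hB0 hB1 hB2 hu1 L hLn
  have hu2 : 12 * δ / (1 - 12 * δ) ≤ 13 * δ := by
    rw [div_le_iff₀ (by linarith)]; nlinarith
  have hP1n : nr (wz r) (13 * δ) P1 := by
    refine nr.mono (e := 12 * δ / (1 - 12 * δ)) ⟨fun i => B i / (1 - 12 * δ),
      fun i => div_nonneg (hB0 i) (by linarith), c2, ?_⟩ hu2
    rw [← Finset.sum_div]
    exact div_le_div_of_nonneg_right hB2 (by linarith)
  have hS1 : Sm (wz r) (150 * δ ^ 2) ((P1 : Matrix ι ι ℤ[X]) - 1 - U) := by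
    refine Sm.mono (e := (12 * δ) * (12 * δ) / (1 - 12 * δ))
      ⟨fun i => B i * (12 * δ) / (1 - 12 * δ),
      fun i => div_nonneg (mul_nonneg (hB0 i) (by linarith)) (by linarith), fun i j => ?_, ?_⟩ ?_
    · have := c3 i j
      rwa [if_pos (by simp [hL])] at this
    · rw [← Finset.sum_div, ← Finset.sum_mul]
      exact div_le_div_of_nonneg_right (mul_le_mul_of_nonneg_right hB2 (by linarith))
        (by linarith)
    · rw [div_le_iff₀ (by linarith)]; nlinarith [sq_nonneg δ]
  -- the diagonal part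
  set q := qm p E with hq
  have hqp : q p = 0 := by simp [hq, qm]
  have hqd : ∀ i, X ^ n ∣ q i := by
    intro i; simp only [hq, qm]; split_ifs
    · exact dvd_zero _
    · exact hdE i i
  have hqb : ∀ i, wz r (q i) ≤ 2 * b i := by
    intro i; simp only [hq, qm]; split_ifs
    · rw [hNz.z]; linarith [b0 i]
    · exact hrd i i
  set P2 := lP (tD p q) L with hP2
  have hM : ∀ i, Mv (wz r) (X ^ n) (2 * wz r (q i)) (tD p q i) := fun i =>
    tD_Mv hr p q i hqp (hqd i)
  have hMn : ∀ i, nr (wz r) (2 * wz r (q i)) (tD p q i) := fun i => (hM i).toNr hNz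
  have hsum : (L.map fun i => 2 * wz r (q i)).sum = ∑ i, 2 * wz r (q i) := by
    rw [hL, Finset.sum_map_toList]
  have hC : (L.map fun i => 2 * wz r (q i)).sum ≤ 8 * δ := by
    rw [hsum]
    calc ∑ i, 2 * wz r (q i) ≤ ∑ i, 4 * b i :=
          Finset.sum_le_sum fun i _ => by linarith [hqb i]
      _ = 4 * β := by rw [← Finset.mul_sum]
      _ ≤ 8 * δ := by linarith
  have hC0 : 0 ≤ (L.map fun i => 2 * wz r (q i)).sum := by
    rw [hsum]; exact Finset.sum_nonneg fun i _ => by linarith [hNz.nn (q i)]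
  obtain ⟨d1, d2⟩ := lP_bound hNz (tD p q) hMn L
  have d3 := lP_chain hNz (D := X ^ n) (tD p q) hMn L (fun i _ => hM i) hC (by linarith)
  set x := (L.map fun i => 2 * wz r (q i)).sum with hx
  have hexp1 : Real.exp x - 1 ≤ 16 * δ := by
    have := Real.abs_exp_sub_one_le (x := x) (by rw [abs_of_nonneg hC0]; linarith)
    rw [abs_of_nonneg hC0] at this
    linarith [le_abs_self (Real.exp x - 1)]
  have hexp2 : Real.exp x - 1 - x ≤ 64 * δ ^ 2 := by
    have := Real.abs_exp_sub_one_sub_id_le (x := x) (by rw [abs_of_nonneg hC0]; linarith)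
    have h2 : x ^ 2 ≤ (8 * δ) ^ 2 := pow_le_pow_left₀ hC0 hC 2
    have h3 := le_abs_self (Real.exp x - 1 - x)
    nlinarith
  have hP2n : nr (wz r) (16 * δ) P2 := d1.mono hexp1
  have hS2 := Sm.mono d2 hexp2
  rw [hL, Finset.sum_map_toList, ← hL] at hS2
  set V := ∑ i, (((tD p q i : SL ι ℤ[X]) : Matrix ι ι ℤ[X]) - 1) with hV
  set ζ := P1 * P2 with hζ
  -- the chain
  have hch : Ch (wz r) (X ^ n) (50 * δ) 1 ζ := by
    have a1 : Ch (wz r) (X ^ n) (50 * δ) 1 P1 := c1.mono (hu2.trans (by linarith))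
    have a2 := Ch.left hNz d3 hP1n (by nlinarith)
    rw [mul_one] at a2
    exact a1.trans (a2.mono (by nlinarith))
  -- second order terms
  have hζn : nr (wz r) (30 * δ) ζ := (hP1n.mul hNz hP2n).mono (by nlinarith)
  set S := (ζ : Matrix ι ι ℤ[X]) - 1 - (U + V) with hS
  have hSS : Sm (wz r) (δ / 20) S := by
    have h1 := (hS1.add hNz hS2).add hNz (Sm.mul hNz hP1n hP2n)
    have h2 : S = ((P1 : Matrix ι ι ℤ[X]) - 1 - U) + ((P2 : Matrix ι ι ℤ[X]) - 1 - V)
        + ((P1 : Matrix ι ι ℤ[X]) - 1) * ((P2 : Matrix ι ι ℤ[X]) - 1) := by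
      rw [hS, hζ, Matrix.SpecialLinearGroup.coe_mul]; noncomm_ring
    rw [h2]
    exact h1.mono (by nlinarith)
  -- the difference
  set θ : ℝ[X] := E p p + ∑ i, iz (q i) with hθ
  set D0 : Matrix ι ι ℝ[X] := Matrix.of fun i j =>
    if i = p ∧ j = p then 0 else E i j - iz (rd (E i j)) with hD0
  have hD0S : Sm (wn r) (δ / 10) D0 := by
    refine Sm_const (c := r ^ n / (1 - r) / 2) (by
      have : 0 ≤ r ^ n := pow_nonneg hr n
      have : 0 < 1 - r := by linarith
      positivity) (fun i j => ?_) (by linarith)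
    simp only [hD0, Matrix.of_apply]
    split_ifs
    · rw [hN.z]
      have : 0 ≤ r ^ n := pow_nonneg hr n
      have : 0 < 1 - r := by linarith
      positivity
    · exact wn_sub_rd hr hr1 (hd i j)
  have hdiff : (z : Matrix ι ι ℝ[X]) - ((zr ζ : SL ι ℝ[X]) : Matrix ι ι ℝ[X])
      = D0 - iz.mapMatrix S + Matrix.single p p θ := by
    have e1 : ((zr ζ : SL ι ℝ[X]) : Matrix ι ι ℝ[X])
        = 1 + iz.mapMatrix (U + V) + iz.mapMatrix S := by
      rw [coe_zr', hS, map_sub, map_sub, map_one]; abel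
    have e2 : E - iz.mapMatrix (U + V) = D0 + Matrix.single p p θ := by
      ext1 i j
      rw [Matrix.sub_apply, RingHom.mapMatrix_apply, Matrix.map_apply, hU, hV, hq, T_apply,
        Matrix.add_apply, Matrix.single_apply]
      simp only [hD0, Matrix.of_apply]
      by_cases h : i = p ∧ j = p
      · rw [if_pos h, if_pos h, if_pos ⟨h.1.symm, h.2.symm⟩, map_neg, map_sum, hθ, h.1, h.2]
        ring
      · rw [if_neg h, if_neg h, if_neg (fun hh => h ⟨hh.1.symm, hh.2.symm⟩)]
        ring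
    have e3 : (z : Matrix ι ι ℝ[X]) = 1 + E := by rw [hE]; abel
    rw [e1, e3]
    have e4 : (1 : Matrix ι ι ℝ[X]) + E - (1 + iz.mapMatrix (U + V) + iz.mapMatrix S)
      = (E - iz.mapMatrix (U + V)) - iz.mapMatrix S := by abel
    rw [e4, e2]; abel
  have hθn : wn r θ ≤ 6 * δ := by
    rw [hθ]
    refine (hN.add _ _).trans ?_
    have h1 : wn r (E p p) ≤ β := (b1 p p).trans (hbi p)
    have h2 : wn r (∑ i, iz (q i)) ≤ 2 * β := by
      refine (hN.sum _ _).trans ?_
      rw [hβ, Finset.mul_sum]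
      exact Finset.sum_le_sum fun i _ => hqb i
    linarith
  refine ⟨ζ, hch, ?_⟩
  set Z' : Matrix ι ι ℝ[X] := (((zr ζ)⁻¹ : SL ι ℝ[X]) : Matrix ι ι ℝ[X]) - 1 with hZ'
  have hZn : Sm (wn r) (31 * δ) Z' := by
    have := (nr_zr hζn).inv hN (by linarith)
    refine Sm.mono this ?_
    rw [div_le_iff₀ (by linarith)]; nlinarith
  have hDS : Sm (wn r) (δ / 10 + δ / 20) (D0 - iz.mapMatrix S) := hD0S.sub hN (Sm_map hSS)
  set F : Matrix ι ι ℝ[X] := (D0 - iz.mapMatrix S) + Z' * (D0 - iz.mapMatrix S)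
    + Z' * Matrix.single p p θ with hF
  have hFn : Sm (wn r) (δ / 4) F := by
    have h1 := (hDS.add hN (Sm.mul hN hZn hDS)).add hN (Sm.mul hN hZn (Sm_single hN p θ hθn))
    exact h1.mono (by nlinarith)
  have hfin : (((zr ζ)⁻¹ * z : SL ι ℝ[X]) : Matrix ι ι ℝ[X]) = 1 + F + Matrix.single p p θ := by
    have h1 : (((zr ζ)⁻¹ : SL ι ℝ[X]) : Matrix ι ι ℝ[X]) * ((zr ζ : SL ι ℝ[X]) : Matrix ι ι ℝ[X])
        = 1 := by
      rw [← Matrix.SpecialLinearGroup.coe_mul, inv_mul_cancel, Matrix.SpecialLinearGroup.coe_one]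
    have h2 : (z : Matrix ι ι ℝ[X]) = ((zr ζ : SL ι ℝ[X]) : Matrix ι ι ℝ[X])
        + (D0 - iz.mapMatrix S + Matrix.single p p θ) := by rw [← hdiff]; abel
    have h3 : (((zr ζ)⁻¹ : SL ι ℝ[X]) : Matrix ι ι ℝ[X]) = 1 + Z' := by rw [hZ']; abel
    rw [Matrix.SpecialLinearGroup.coe_mul, h2, mul_add, h1, h3, hF]
    noncomm_ring
  have hdet : (1 + F + Matrix.single p p θ).det = 1 := by
    rw [← hfin]; exact Matrix.SpecialLinearGroup.det_coe _
  have hθ2 := corner_bound hN hFn (by linarith) p θ hdet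
  have hθ3 : wn r θ ≤ δ / 3 := by
    refine hθ2.trans ?_
    rw [div_le_iff₀ (by linarith)]; nlinarith
  unfold nr
  rw [hfin]
  have e5 : 1 + F + Matrix.single p p θ - 1 = F + Matrix.single p p θ := by abel
  rw [e5]
  exact (hFn.add hN (Sm_single hN p θ hθ3)).mono (by linarith)

end rounding

end Pool.WFS.Lad
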