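import Pool.Agent.WFS.LadC

/-! Block sums and the sum lemma. (helper45, WFS, algebra part) -/

set_option autoImplicit false
set_option linter.all false

namespace Pool.WFS.Lad

open Matrix

variable {A : Type} [CommRing A] {N : A → ℝ}

section com

variable {ι σ : Type} [Fintype ι] [DecidableEq ι] [Fintype σ] [DecidableEq σ]

/-- product of letters -/
def comP (u : ι → σ → A) (x : ι → σ → ℤ)
    (h : ∀ j j', (fun s => ((x j s : ℤ) : A)) ⬝ᵥ u j' = 0) : List ι → SL σ A
  | [] => 1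
  | j :: L => comP u x h L * tv (u j) (fun s => ((x j s : ℤ) : A)) (h j j)

theorem comP_coe (u : ι → σ → A) (x : ι → σ → ℤ)
    (h : ∀ j j', (fun s => ((x j s : ℤ) : A)) ⬝ᵥ u j' = 0) (L : List ι) :
    ((comP u x h L : SL σ A) : Matrix σ σ A)
      = 1 + (L.map fun j => Matrix.vecMulVec (u j) (fun s => ((x j s : ℤ) : A))).sum := by
  have h2 : ∀ (L : List ι) (j : ι),
      (L.map fun j => Matrix.vecMulVec (u j) (fun s => ((x j s : ℤ) : A))).sum
        * Matrix.vecMulVec (u j) (fun s => ((x j s : ℤ) : A)) = 0 := by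
    intro L j
    induction L with
    | nil => simp
    | cons i L ih =>
      rw [List.map_cons, List.sum_cons, add_mul, ih, add_zero, vv_mul_vv, h i j, zero_smul]
  induction L with
  | nil => simp [comP]
  | cons j L ih =>
    rw [comP, Matrix.SpecialLinearGroup.coe_mul, ih, coe_tv, mul_add, mul_one, add_mul, one_mul,
      h2 L j, add_zero, List.map_cons, List.sum_cons]
    abel

theorem comP_nr (hN : IsN N) (u : ι → σ → A) (x : ι → σ → ℤ)
    (h : ∀ j j', (fun s => ((x j s : ℤ) : A)) ⬝ᵥ u j' = 0) {b : σ → ℝ} (hb0 : ∀ s, 0 ≤ b s)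
    (hb : ∀ j s, N (u j s) ≤ b s) (hx : ∀ s, ∑ j, |(x j s : ℝ)| ≤ 1) {e : ℝ}
    (he : ∑ s, b s ≤ e) (L : List ι) (hL : L.Nodup) : nr N e (comP u x h L) := by
  refine ⟨b, hb0, fun s t => ?_, he⟩
  rw [comP_coe, add_sub_cancel_left]
  have h1 : ∀ L : List ι,
      N ((L.map fun j => Matrix.vecMulVec (u j) (fun s => ((x j s : ℤ) : A))).sum s t)
        ≤ b s * (L.map fun j => |(x j t : ℝ)|).sum := by
    intro L
    induction L with
    | nil => simp [hN.z]
    | cons j L ih =>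
      rw [List.map_cons, List.sum_cons, List.map_cons, List.sum_cons, Matrix.add_apply, mul_add,
        Matrix.vecMulVec_apply]
      refine (hN.add _ _).trans (add_le_add ((hN.mul _ _).trans ?_) ih)
      exact mul_le_mul (hb j s) (hN.int _) (hN.nn _) (hb0 s)
  refine (h1 L).trans ?_
  have h2 : (L.map fun j => |(x j t : ℝ)|).sum ≤ 1 := by
    rw [← List.sum_toFinset _ hL]
    exact (Finset.sum_le_univ_sum_of_nonneg fun j => abs_nonneg _).trans (hx t)
  exact mul_le_of_le_one_right (hb0 s) h2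

theorem comP_chain (hN : IsN N) {D : A} (u : ι → σ → A) (x : ι → σ → ℤ)
    (h : ∀ j j', (fun s => ((x j s : ℤ) : A)) ⬝ᵥ u j' = 0) (hD : ∀ j s, D ∣ u j s)
    {b : σ → ℝ} (hb0 : ∀ s, 0 ≤ b s)
    (hb : ∀ j s, N (u j s) ≤ b s) (hx : ∀ s, ∑ j, |(x j s : ℝ)| ≤ 1) {e : ℝ}
    (he : ∑ s, b s ≤ e) (L : List ι) (hL : L.Nodup) : Ch N D e 1 (comP u x h L) := by
  induction L with
  | nil => exact Ch.refl _
  | cons j L ih =>
    obtain ⟨hj, hL'⟩ := List.nodup_cons.1 hL
    refine (ih hL').trans ?_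
    have h1 := comP_nr hN u x h hb0 hb hx he (j :: L) hL
    rw [comP] at h1 ⊢
    refine Ch.one_step (comP_nr hN u x h hb0 hb hx he L hL') h1 ?_
    refine ⟨u j, x j, coe_tv _ _ _, h j j, hD j, b, 1, hb j, fun s => ?_, zero_le_one,
      by simpa using he⟩
    exact (Finset.single_le_sum (f := fun j => |(x j s : ℝ)|) (fun j _ => abs_nonneg _)
      (Finset.mem_univ j)).trans (hx s)

end com

section block

variable {ι κ : Type} [Fintype ι] [DecidableEq ι] [Fintype κ] [DecidableEq κ]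

/-- block matrix unit -/
def K (k l : κ) (M : Matrix ι ι A) : Matrix (ι × κ) (ι × κ) A :=
  Matrix.of fun s t => if s.2 = k ∧ t.2 = l then M s.1 t.1 else 0

theorem K_apply (k l : κ) (M : Matrix ι ι A) (s t : ι × κ) :
    K k l M s t = if s.2 = k ∧ t.2 = l then M s.1 t.1 else 0 := rfl

theorem K_mul_same (k l m : κ) (M M' : Matrix ι ι A) :
    K k l M * K l m M' = K k m (M * M') := by
  ext ⟨i, a⟩ ⟨j, b⟩
  rw [Matrix.mul_apply, Fintype.sum_prod_type]
  simp only [K_apply]
  by_cases ha : a = k <;> by_cases hb : b = m <;> simp [ha, hb, Matrix.mul_apply]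

theorem K_mul_ne {l l' : κ} (hl : l ≠ l') (k m : κ) (M M' : Matrix ι ι A) :
    K k l M * K l' m M' = 0 := by
  ext ⟨i, a⟩ ⟨j, b⟩
  rw [Matrix.mul_apply, Fintype.sum_prod_type]
  simp only [K_apply]
  refine Finset.sum_eq_zero fun i' _ => Finset.sum_eq_zero fun c _ => ?_
  by_cases hc : c = l
  · subst hc; simp [hl]
  · simp [hc]

theorem K_add (k l : κ) (M M' : Matrix ι ι A) : K k l (M + M') = K k l M + K k l M' := by
  ext s t; simp only [K_apply, Matrix.add_apply]; split_ifs <;> simp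

theorem K_sub (k l : κ) (M M' : Matrix ι ι A) : K k l (M - M') = K k l M - K k l M' := by
  ext s t; simp only [K_apply, Matrix.sub_apply]; split_ifs <;> simp

theorem K_neg (k l : κ) (M : Matrix ι ι A) : K k l (-M) = -K k l M := by
  ext s t; simp only [K_apply, Matrix.neg_apply]; split_ifs <;> simp

theorem K_zero (k l : κ) : K k l (0 : Matrix ι ι A) = 0 := by
  ext s t; simp only [K_apply, Matrix.zero_apply]; split_ifs <;> simp

theorem K_det (k : κ) (M : Matrix ι ι A) : (1 + K k k (M - 1)).det = M.det := by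
  have h : 1 + K k k (M - 1) = Matrix.blockDiagonal (fun m => if m = k then M else 1) := by
    ext ⟨i, a⟩ ⟨j, b⟩
    simp only [Matrix.add_apply, K_apply, Matrix.blockDiagonal_apply, Matrix.sub_apply,
      Matrix.one_apply, Prod.mk.injEq]
    by_cases hab : a = b
    · subst hab
      by_cases ha : a = k
      · simp [ha]
      · simp [ha, Matrix.one_apply]
    · by_cases ha : a = k
      · have : ¬ b = k := fun h => hab (ha.trans h.symm)
        simp [hab, this]
      · simp [hab, ha]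
  rw [h, Matrix.det_blockDiagonal]
  rw [Finset.prod_eq_single k]
  · simp
  · intro b _ hb; simp [hb]
  · intro h; exact absurd (Finset.mem_univ k) h

/-- the block embedding -/
def bl (k : κ) : SL ι A →* SL (ι × κ) A where
  toFun g := ⟨1 + K k k ((g : Matrix ι ι A) - 1), by rw [K_det]; exact g.det_coe⟩
  map_one' := by
    apply Subtype.ext
    show 1 + K k k (((1 : SL ι A) : Matrix ι ι A) - 1) = 1
    rw [Matrix.SpecialLinearGroup.coe_one, sub_self, K_zero, add_zero]
  map_mul' g h := by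
    apply Subtype.ext
    show 1 + K k k (((g * h : SL ι A) : Matrix ι ι A) - 1)
      = (1 + K k k ((g : Matrix ι ι A) - 1)) * (1 + K k k ((h : Matrix ι ι A) - 1))
    have e1 : (((g * h : SL ι A) : Matrix ι ι A) - 1) = ((g : Matrix ι ι A) - 1)
        + ((h : Matrix ι ι A) - 1) + ((g : Matrix ι ι A) - 1) * ((h : Matrix ι ι A) - 1) := by
      rw [Matrix.SpecialLinearGroup.coe_mul]; noncomm_ring
    rw [e1, K_add, K_add, mul_add, mul_one, add_mul, one_mul, K_mul_same]
    abel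

theorem coe_bl (k : κ) (g : SL ι A) :
    ((bl k g : SL (ι × κ) A) : Matrix (ι × κ) (ι × κ) A) = 1 + K k k ((g : Matrix ι ι A) - 1) :=
  rfl

theorem bl_comm {k l : κ} (hkl : k ≠ l) (g h : SL ι A) : bl k g * bl l h = bl l h * bl k g := by
  apply Subtype.ext
  rw [Matrix.SpecialLinearGroup.coe_mul, Matrix.SpecialLinearGroup.coe_mul, coe_bl, coe_bl]
  have e1 := K_mul_ne hkl k l ((g : Matrix ι ι A) - 1) ((h : Matrix ι ι A) - 1)
  have e2 := K_mul_ne hkl.symm l k ((h : Matrix ι ι A) - 1) ((g : Matrix ι ι A) - 1)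
  simp only [mul_add, add_mul, e1, e2, mul_one, one_mul, add_zero]
  abel

theorem Sm_K {e : ℝ} {M : Matrix ι ι A} (hN : IsN N) (h : Sm N e M) (k l : κ) :
    Sm N e (K k l M) := by
  obtain ⟨b, h0, h1, h2⟩ := h
  refine ⟨fun s => if s.2 = k then b s.1 else 0, fun s => ?_, fun s t => ?_, ?_⟩
  · show 0 ≤ (if s.2 = k then b s.1 else 0)
    split_ifs
    · exact h0 _
    · exact le_rfl
  · show N (K k l M s t) ≤ (if s.2 = k then b s.1 else 0)
    rw [K_apply]
    by_cases hs : s.2 = k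
    · rw [if_pos hs]
      split_ifs
      · exact h1 _ _
      · rw [hN.z]; exact h0 _
    · rw [if_neg hs, if_neg (fun h => hs h.1), hN.z]
  · rw [Fintype.sum_prod_type]
    simpa using h2

theorem nr.bl (hN : IsN N) {e : ℝ} {g : SL ι A} (h : nr N e g) (k : κ) :
    nr N e (Lad.bl k g) := by
  unfold nr
  rw [coe_bl, add_sub_cancel_left]
  exact Sm_K hN h k k

theorem Mv.bl {D : A} {e : ℝ} {g : SL ι A} (h : Mv N D e g) (hN : IsN N) (k : κ) :
    Mv N D e (Lad.bl k g) := by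
  obtain ⟨v, x, h1, h2, h3, a, c, h4, h5, h6, h7⟩ := h
  have ha : ∀ i, 0 ≤ a i := fun i => (hN.nn _).trans (h4 i)
  refine ⟨fun s => if s.2 = k then v s.1 else 0, fun s => if s.2 = k then x s.1 else 0, ?_, ?_,
    fun s => ?_, fun s => if s.2 = k then a s.1 else 0, c, fun s => ?_, fun s => ?_, h6, ?_⟩
  · rw [coe_bl, h1, add_sub_cancel_left]
    congr 1
    ext ⟨i, m⟩ ⟨j, m'⟩
    rw [K_apply, Matrix.vecMulVec_apply, Matrix.vecMulVec_apply]
    by_cases hm : m = k <;> by_cases hm' : m' = k <;> simp [hm, hm']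
  · simp only [dotProduct, Fintype.sum_prod_type]
    simp only [dotProduct] at h2
    rw [← h2]
    refine Finset.sum_congr rfl fun i _ => ?_
    rw [Finset.sum_eq_single k]
    · simp
    · intro m _ hm; simp [hm]
    · intro h; exact absurd (Finset.mem_univ k) h
  · show D ∣ (if s.2 = k then v s.1 else 0)
    split_ifs
    · exact h3 _
    · exact dvd_zero _
  · show N (if s.2 = k then v s.1 else 0) ≤ (if s.2 = k then a s.1 else 0)
    split_ifs
    · exact h4 _
    · rw [hN.z]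
  · show |((if s.2 = k then x s.1 else 0 : ℤ) : ℝ)| ≤ c
    split_ifs
    · exact h5 _
    · simpa using h6
  · rw [Fintype.sum_prod_type]
    simpa using h7

theorem Ch.bl {D : A} {e : ℝ} {g h : SL ι A} (hc : Ch N D e g h) (hN : IsN N) (k : κ) :
    Ch N D e (Lad.bl k g) (Lad.bl k h) := by
  induction hc with
  | refl => exact Ch.refl _
  | tail _ h1 ih =>
    refine Relation.ReflTransGen.tail ih ⟨h1.1.bl hN k, h1.2.1.bl hN k, ?_⟩
    rw [← map_inv, ← map_mul]
    exact h1.2.2.bl hN k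

theorem BT_aux (μ ν : κ → ℤ) (hμ : ∑ m, ν m * μ m = 0) (M : Matrix ι ι A) (j j' : ι) :
    (fun s : ι × κ => (((if s.1 = j then ν s.2 else 0 : ℤ)) : A)) ⬝ᵥ
      (fun s : ι × κ => ((μ s.2 : ℤ) : A) * M s.1 j') = 0 := by
  simp only [dotProduct, Fintype.sum_prod_type]
  rw [Finset.sum_eq_single j]
  · simp only [if_true]
    have : ∀ m, ((ν m : ℤ) : A) * (((μ m : ℤ) : A) * M j j') = (((ν m * μ m : ℤ)) : A) * M j j' := by
      intro m; push_cast; ring
    simp only [this]
    rw [← Finset.sum_mul, ← Int.cast_sum, hμ]; simp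
  · intro i _ hi; simp [hi]
  · intro h; exact absurd (Finset.mem_univ j) h

/-- block transvection `1 + M ⊗ (μ νᵀ)` -/
noncomputable def BT (μ ν : κ → ℤ) (hμ : ∑ m, ν m * μ m = 0) (M : Matrix ι ι A) : SL (ι × κ) A :=
  comP (fun (j : ι) (s : ι × κ) => ((μ s.2 : ℤ) : A) * M s.1 j)
    (fun (j : ι) (s : ι × κ) => if s.1 = j then ν s.2 else 0)
    (BT_aux μ ν hμ M) (Finset.univ : Finset ι).toList

theorem BT_apply (μ ν : κ → ℤ) (hμ : ∑ m, ν m * μ m = 0) (M : Matrix ι ι A) (s t : ι × κ) :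
    (((BT μ ν hμ M : SL (ι × κ) A) : Matrix (ι × κ) (ι × κ) A) - 1) s t
      = ((μ s.2 : ℤ) : A) * M s.1 t.1 * ((ν t.2 : ℤ) : A) := by
  rw [BT, comP_coe, add_sub_cancel_left, Finset.sum_map_toList, Matrix.sum_apply]
  simp only [Matrix.vecMulVec_apply]
  rw [Finset.sum_eq_single t.1]
  · simp
  · intro j _ hj; simp [Ne.symm hj]
  · intro h; exact absurd (Finset.mem_univ _) h

theorem BT_chain (hN : IsN N) {D : A} (μ ν : κ → ℤ) (hμ : ∑ m, ν m * μ m = 0)
    (hν : ∀ m, |(ν m : ℝ)| ≤ 1) {M : Matrix ι ι A} (hD : ∀ i j, D ∣ M i j) {η e : ℝ}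
    (hM : Sm N η M) (he : (∑ m, |(μ m : ℝ)|) * η ≤ e) :
    Ch N D e 1 (BT μ ν hμ M) ∧ nr N e (BT μ ν hμ M) := by
  obtain ⟨b, h0, h1, h2⟩ := hM
  have hb0 : ∀ s : ι × κ, 0 ≤ |(μ s.2 : ℝ)| * b s.1 := fun s => mul_nonneg (abs_nonneg _) (h0 _)
  have hb : ∀ (j : ι) (s : ι × κ), N (((μ s.2 : ℤ) : A) * M s.1 j) ≤ |(μ s.2 : ℝ)| * b s.1 :=
    fun j s => (hN.mul _ _).trans (mul_le_mul (hN.int _) (h1 _ _) (hN.nn _) (abs_nonneg _))
  have hx : ∀ s : ι × κ, ∑ j : ι, |((if s.1 = j then ν s.2 else 0 : ℤ) : ℝ)| ≤ 1 := by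
    intro s
    rw [Finset.sum_eq_single s.1]
    · simpa using hν s.2
    · intro j _ hj; simp [Ne.symm hj]
    · intro h; exact absurd (Finset.mem_univ _) h
  have hs : ∑ s : ι × κ, |(μ s.2 : ℝ)| * b s.1 ≤ e := by
    refine le_trans (le_of_eq ?_) ((mul_le_mul_of_nonneg_left h2
      (Finset.sum_nonneg fun m _ => abs_nonneg _)).trans he)
    rw [Fintype.sum_prod_type, Finset.sum_comm, Finset.sum_mul]
    refine Finset.sum_congr rfl fun m _ => ?_
    rw [Finset.mul_sum]
  exact ⟨comP_chain hN _ _ _ (fun j s => Dvd.dvd.mul_left (hD _ _) _) hb0 hb hx hs _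
    (Finset.nodup_toList _), comP_nr hN _ _ _ hb0 hb hx hs _ (Finset.nodup_toList _)⟩

end block

section cg

variable {ι : Type} [Fintype ι] [DecidableEq ι]

/-- congruent to `1` modulo `D` -/
def Cg (D : A) (g : SL ι A) : Prop := ∀ i j, D ∣ ((g : Matrix ι ι A) - 1) i j

theorem Cg.one {D : A} : Cg D (1 : SL ι A) := by
  intro i j; rw [Matrix.SpecialLinearGroup.coe_one, sub_self]; exact dvd_zero _

theorem Cg.mul {D : A} {a b : SL ι A} (ha : Cg D a) (hb : Cg D b) : Cg D (a * b) := by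
  intro i j
  have : ((a * b : SL ι A) : Matrix ι ι A) - 1
      = ((a : Matrix ι ι A) - 1) * (b : Matrix ι ι A) + ((b : Matrix ι ι A) - 1) := by
    rw [Matrix.SpecialLinearGroup.coe_mul]; noncomm_ring
  rw [this, Matrix.add_apply, Matrix.mul_apply]
  exact dvd_add (Finset.dvd_sum fun k _ => Dvd.dvd.mul_right (ha i k) _) (hb i j)

theorem coe_inv_mul (a : SL ι A) :
    ((a⁻¹ : SL ι A) : Matrix ι ι A) * (a : Matrix ι ι A) = 1 := by
  rw [← Matrix.SpecialLinearGroup.coe_mul, inv_mul_cancel, Matrix.SpecialLinearGroup.coe_one]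

theorem coe_mul_inv (a : SL ι A) :
    (a : Matrix ι ι A) * ((a⁻¹ : SL ι A) : Matrix ι ι A) = 1 := by
  rw [← Matrix.SpecialLinearGroup.coe_mul, mul_inv_cancel, Matrix.SpecialLinearGroup.coe_one]

theorem Cg.inv {D : A} {a : SL ι A} (ha : Cg D a) : Cg D a⁻¹ := by
  intro i j
  have : ((a⁻¹ : SL ι A) : Matrix ι ι A) - 1
      = -(((a⁻¹ : SL ι A) : Matrix ι ι A) * ((a : Matrix ι ι A) - 1)) := by
    rw [mul_sub, coe_inv_mul]; noncomm_ring
  rw [this, Matrix.neg_apply, Matrix.mul_apply]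
  exact (dvd_neg).2 (Finset.dvd_sum fun k _ => Dvd.dvd.mul_left (ha k j) _)

theorem Mv.cg {D : A} {e : ℝ} {g : SL ι A} (h : Mv N D e g) : Cg D g := by
  obtain ⟨v, x, h1, h2, h3, -⟩ := h
  intro i j
  rw [h1, add_sub_cancel_left, Matrix.vecMulVec_apply]
  exact Dvd.dvd.mul_right (h3 i) _

theorem Ch.cg {D : A} {e : ℝ} {a b : SL ι A} (h : Ch N D e a b) (ha : Cg D a) : Cg D b := by
  induction h with
  | refl => exact ha
  | @tail c d _ h1 ih =>
    have := ih.mul h1.2.2.cg
    rwa [mul_inv_cancel_left] at this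

end cg

section sum

variable {ι κ : Type} [Fintype ι] [DecidableEq ι] [Fintype κ] [DecidableEq κ]

theorem mu_aux1 {k l : κ} : ∑ m, ((if m = k then (1 : ℤ) else 0) - (if m = l then 1 else 0))
    * ((if m = k then (1 : ℤ) else 0) + (if m = l then 1 else 0)) = 0 := by
  have : ∀ m, ((if m = k then (1 : ℤ) else 0) - (if m = l then 1 else 0))
      * ((if m = k then (1 : ℤ) else 0) + (if m = l then 1 else 0))
      = (if m = k then 1 else 0) - (if m = l then 1 else 0) := by
    intro m; split_ifs <;> norm_num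
  simp only [this]
  simp

theorem mu_aux2 {k l : κ} (h : k ≠ l) :
    ∑ m, (if m = l then (1 : ℤ) else 0) * (if m = k then (1 : ℤ) else 0) = 0 := by
  refine Finset.sum_eq_zero fun m _ => ?_
  by_cases h1 : m = l
  · have : ¬ m = k := fun h2 => h (h2.symm.trans h1)
    simp [this]
  · simp [h1]

/-- the three block transvections whose product is `b ⊕ b⁻¹`. -/
theorem three {k l : κ} (hkl : k ≠ l) (b : SL ι A) :
    BT (fun m => (if m = k then (1 : ℤ) else 0) + (if m = l then 1 else 0))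
        (fun m => (if m = k then (1 : ℤ) else 0) - (if m = l then 1 else 0)) mu_aux1
        ((b : Matrix ι ι A) - 1)
      * BT (fun m => if m = k then (1 : ℤ) else 0) (fun m => if m = l then (1 : ℤ) else 0)
        (mu_aux2 hkl) (1 - ((b⁻¹ : SL ι A) : Matrix ι ι A))
      * BT (fun m => if m = l then (1 : ℤ) else 0) (fun m => if m = k then (1 : ℤ) else 0)
        (mu_aux2 hkl.symm) (-(((b : Matrix ι ι A) - 1) * (b : Matrix ι ι A)))
      = bl k b * bl l b⁻¹ := by
  set β : Matrix ι ι A := (b : Matrix ι ι A) - 1 with hβ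
  set γ : Matrix ι ι A := 1 - ((b⁻¹ : SL ι A) : Matrix ι ι A) with hγ
  have h1 : ((BT (fun m => (if m = k then (1 : ℤ) else 0) + (if m = l then 1 else 0))
      (fun m => (if m = k then (1 : ℤ) else 0) - (if m = l then 1 else 0)) mu_aux1 β
      : SL (ι × κ) A) : Matrix (ι × κ) (ι × κ) A)
      = 1 + (K k k β - K k l β + K l k β - K l l β) := by
    rw [← sub_eq_iff_eq_add']
    ext s t
    rw [BT_apply]
    simp only [Matrix.sub_apply, Matrix.add_apply, K_apply]
    by_cases a1 : s.2 = k <;> by_cases a2 : s.2 = l <;> by_cases a3 : t.2 = k <;>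
      by_cases a4 : t.2 = l <;> simp [a1, a2, a3, a4, hkl, hkl.symm]
    all_goals first
      | (exact absurd (a1.symm.trans a2) hkl)
      | (exact absurd (a3.symm.trans a4) hkl)
      | skip
  have h2 : ((BT (fun m => if m = k then (1 : ℤ) else 0) (fun m => if m = l then (1 : ℤ) else 0)
      (mu_aux2 hkl) γ : SL (ι × κ) A) : Matrix (ι × κ) (ι × κ) A) = 1 + K k l γ := by
    rw [← sub_eq_iff_eq_add']
    ext s t
    rw [BT_apply, K_apply]
    by_cases a1 : s.2 = k <;> by_cases a2 : t.2 = l <;> simp [a1, a2]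
  have h3 : ((BT (fun m => if m = l then (1 : ℤ) else 0) (fun m => if m = k then (1 : ℤ) else 0)
      (mu_aux2 hkl.symm) (-(β * (b : Matrix ι ι A))) : SL (ι × κ) A) :
      Matrix (ι × κ) (ι × κ) A) = 1 - K l k (β * (b : Matrix ι ι A)) := by
    rw [sub_eq_add_neg, ← K_neg, ← sub_eq_iff_eq_add']
    ext s t
    rw [BT_apply, K_apply]
    by_cases a1 : s.2 = l <;> by_cases a2 : t.2 = k <;> simp [a1, a2]
  apply Subtype.ext
  show ((_ * _ * _ : SL (ι × κ) A) : Matrix (ι × κ) (ι × κ) A) = _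
  rw [Matrix.SpecialLinearGroup.coe_mul, Matrix.SpecialLinearGroup.coe_mul, h1, h2, h3]
  show _ = ((bl k b * bl l b⁻¹ : SL (ι × κ) A) : Matrix (ι × κ) (ι × κ) A)
  rw [Matrix.SpecialLinearGroup.coe_mul, coe_bl, coe_bl]
  have r1 : β * γ = β - γ := by
    rw [hβ, hγ, sub_mul, mul_sub, coe_mul_inv]; noncomm_ring
  have r2 : γ * (β * (b : Matrix ι ι A)) = β * (b : Matrix ι ι A) - β := by
    have : γ * β = β - γ := by
      rw [hβ, hγ, mul_sub, sub_mul, coe_inv_mul]; noncomm_ring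
    rw [← mul_assoc, this, sub_mul]
    have : γ * (b : Matrix ι ι A) = β := by
      rw [hβ, hγ, sub_mul, coe_inv_mul]; noncomm_ring
    rw [this]
  have r3 : ((b⁻¹ : SL ι A) : Matrix ι ι A) - 1 = -γ := by rw [hγ]; abel
  have s1 : (1 + (K k k β - K k l β + K l k β - K l l β)) * (1 + K k l γ)
      = 1 + K k k β + K l k β - K l l γ := by
    simp only [mul_add, mul_one, add_mul, sub_mul, one_mul, K_mul_same, K_mul_ne hkl.symm, r1,
      K_sub]
    abel
  rw [s1, r3, K_neg, ← hβ]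
  simp only [mul_add, mul_sub, mul_one, add_mul, sub_mul, one_mul, K_mul_same, K_mul_ne hkl,
    K_mul_ne hkl.symm, r2, K_sub, mul_neg]
  abel

theorem mu_sum1 (k l : κ) :
    ∑ m, |(((if m = k then (1 : ℤ) else 0) + (if m = l then 1 else 0) : ℤ) : ℝ)| ≤ 2 := by
  calc ∑ m, |(((if m = k then (1 : ℤ) else 0) + (if m = l then 1 else 0) : ℤ) : ℝ)|
      ≤ ∑ m, ((if m = k then (1 : ℝ) else 0) + (if m = l then 1 else 0)) := by
        refine Finset.sum_le_sum fun m _ => ?_
        split_ifs <;> norm_num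
    _ ≤ 2 := by rw [Finset.sum_add_distrib]; simp; norm_num

theorem mu_sum2 (k : κ) : ∑ m, |((if m = k then (1 : ℤ) else 0 : ℤ) : ℝ)| ≤ 1 := by
  have : ∀ m, |((if m = k then (1 : ℤ) else 0 : ℤ) : ℝ)| = if m = k then 1 else 0 := by
    intro m; split_ifs <;> norm_num
  simp only [this]; simp

/-- **Sum lemma.** -/
theorem sum_lemma (hN : IsN N) {D : A} {k l : κ} (hkl : k ≠ l) {a b : SL ι A} {η : ℝ}
    (ha : nr N η a) (hb : nr N η b) (hη : η ≤ 1 / 20) (hD : Cg D b) :
    Ch N D (8 * η) (bl k a * bl l b) (bl k (a * b)) := by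
  have hη0 := ha.nonneg
  have hbi : nr N (η / (1 - η)) b⁻¹ := hb.inv hN (by linarith)
  have hηη : η / (1 - η) ≤ 1.12 * η := by
    rw [div_le_iff₀ (by linarith)]; nlinarith
  obtain ⟨c1, n1⟩ := BT_chain hN (D := D)
    (fun m => (if m = k then (1 : ℤ) else 0) + (if m = l then 1 else 0))
    (fun m => (if m = k then (1 : ℤ) else 0) - (if m = l then 1 else 0)) mu_aux1
    (fun m => by split_ifs <;> norm_num) (M := (b : Matrix ι ι A) - 1) hD hb (e := 2 * η)
    (mul_le_mul_of_nonneg_right (mu_sum1 k l) hη0)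
  obtain ⟨c2, n2⟩ := BT_chain hN (D := D)
    (fun m => if m = k then (1 : ℤ) else 0) (fun m => if m = l then (1 : ℤ) else 0)
    (mu_aux2 hkl) (fun m => by split_ifs <;> norm_num)
    (M := 1 - ((b⁻¹ : SL ι A) : Matrix ι ι A))
    (fun i j => by
      have := hD.inv i j
      rw [← neg_sub, Matrix.neg_apply]
      exact (dvd_neg).2 this) (η := 1.12 * η)
    (by
      have := (Sm.neg hN hbi).mono hηη
      rwa [neg_sub] at this) (e := 1.12 * η)
    (mul_le_of_le_one_left (by linarith) (mu_sum2 k))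
  obtain ⟨c3, n3⟩ := BT_chain hN (D := D)
    (fun m => if m = l then (1 : ℤ) else 0) (fun m => if m = k then (1 : ℤ) else 0)
    (mu_aux2 hkl.symm) (fun m => by split_ifs <;> norm_num)
    (M := -(((b : Matrix ι ι A) - 1) * (b : Matrix ι ι A)))
    (fun i j => by
      rw [Matrix.neg_apply, Matrix.mul_apply]
      exact (dvd_neg).2 (Finset.dvd_sum fun k _ => Dvd.dvd.mul_right (hD i k) _)) (η := 1.1 * η)
    (by
      have h1 : ((b : Matrix ι ι A) - 1) * (b : Matrix ι ι A)
        = ((b : Matrix ι ι A) - 1) + ((b : Matrix ι ι A) - 1) * ((b : Matrix ι ι A) - 1) := by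
        noncomm_ring
      rw [h1]
      exact (Sm.neg hN (Sm.add hN hb (Sm.mul hN hb hb))).mono (by nlinarith)) (e := 1.1 * η)
    (mul_le_of_le_one_left (by linarith) (mu_sum2 l))
  have h3 := three hkl b
  set T1 := BT
    (fun m => (if m = k then (1 : ℤ) else 0) + (if m = l then 1 else 0))
    (fun m => (if m = k then (1 : ℤ) else 0) - (if m = l then 1 else 0)) mu_aux1
    ((b : Matrix ι ι A) - 1)
  set T2 := BT
    (fun m => if m = k then (1 : ℤ) else 0) (fun m => if m = l then (1 : ℤ) else 0)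
    (mu_aux2 hkl) (1 - ((b⁻¹ : SL ι A) : Matrix ι ι A))
  set T3 := BT
    (fun m => if m = l then (1 : ℤ) else 0) (fun m => if m = k then (1 : ℤ) else 0)
    (mu_aux2 hkl.symm) (-(((b : Matrix ι ι A) - 1) * (b : Matrix ι ι A)))
  have hX : nr N (2.1 * η) (bl k a * bl l b) :=
    ((ha.bl hN k).mul hN (hb.bl hN l)).mono (by nlinarith)
  have hX1 : nr N (4.6 * η) (bl k a * bl l b * T1) := (hX.mul hN n1).mono (by nlinarith)
  have hX2 : nr N (6.3 * η) (bl k a * bl l b * T1 * T2) := (hX1.mul hN n2).mono (by nlinarith)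
  have d1 := (Ch.left hN c1 hX (by nlinarith)).mono (show _ ≤ 8 * η by nlinarith)
  have d2 := (Ch.left hN c2 hX1 (by nlinarith)).mono (show _ ≤ 8 * η by nlinarith)
  have d3 := (Ch.left hN c3 hX2 (by nlinarith)).mono (show _ ≤ 8 * η by nlinarith)
  rw [mul_one] at d1 d2 d3
  have h4 : bl k a * bl l b * T1 * T2 * T3 = bl k (a * b) := by
    rw [mul_assoc (bl k a * bl l b * T1), mul_assoc (bl k a * bl l b), ← mul_assoc T1, h3,
      mul_assoc (bl k a), ← mul_assoc (bl l b), ← bl_comm hkl b b, mul_assoc (bl k b),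
      ← map_mul, mul_inv_cancel, map_one, mul_one, ← map_mul]
  rw [h4] at d3
  exact (d1.trans d2).trans d3

/-- left multiplication by the inverse of a chain -/
theorem left_lemma (hN : IsN N) {D : A} {k l : κ} (hkl : k ≠ l) {y ζ : SL ι A} {e f η : ℝ}
    (hy : nr N f y) (hζ : Ch N D e 1 ζ) (he : e ≤ 1 / 100) (hf : f ≤ 1 / 100)
    (hη : e * 1.02 ≤ η) (hη2 : f ≤ η) (hη3 : η ≤ 1 / 20) (hD : Cg D y) :
    Ch N D (8 * η) (bl k y) (bl k (ζ⁻¹ * y)) := by
  have hf0 := hy.nonneg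
  have he0 : 0 ≤ η := hf0.trans hη2
  rcases eq_or_ne ζ 1 with h1 | h1
  · rw [h1, inv_one, one_mul]; exact Ch.refl _
  have hen : nr N e ζ := by
    rcases Relation.ReflTransGen.cases_tail hζ with h | ⟨c, _, h⟩
    · exact absurd h h1
    · exact h.2.1
  have he1 := hen.nonneg
  have hiζ : nr N (e * 1.02) ζ⁻¹ := (hen.inv hN (by linarith)).mono (by
    rw [div_le_iff₀ (by linarith)]; nlinarith)
  -- chain from 1 to ζ⁻¹
  have hc : Ch N D (2.1 * e) 1 ζ⁻¹ := by
    have := (Ch.left hN hζ hiζ (by nlinarith)).mono (show _ ≤ 2.1 * e by nlinarith)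
    rw [mul_one, inv_mul_cancel] at this
    exact this.symm hN
  have s1 : Ch N D (8 * η) (bl k y) (bl l y) := by
    have := sum_lemma hN hkl.symm (a := 1) (b := y) (nr_one hN he0) (hy.mono hη2) hη3 hD
    rw [map_one, one_mul, one_mul] at this
    exact this
  have s2 : Ch N D (8 * η) (bl l y) (bl l y * bl k ζ⁻¹) := by
    have := (Ch.left hN (hc.bl hN k) (hy.bl hN l) (by nlinarith)).mono
      (show _ ≤ 8 * η by nlinarith)
    rwa [map_one, mul_one] at this
  have s3 : Ch N D (8 * η) (bl k ζ⁻¹ * bl l y) (bl k (ζ⁻¹ * y)) :=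
    sum_lemma hN hkl (hiζ.mono hη) (hy.mono hη2) hη3 hD
  rw [bl_comm hkl] at s3
  exact (s1.trans s2).trans s3

end sum

end Pool.WFS.Lad
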