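import Pool.Agent.WFS.LadD

/-! Ladders and the small path theorem. (helper45, WFS, algebra part) -/

set_option autoImplicit false
set_option linter.all false

namespace Pool.WFS.Lad

open Matrix Polynomial

section path

variable {ι : Type} [Fintype ι] [DecidableEq ι]

/-- dilation of matrices -/
noncomputable def dl (s : ℝ) : SL ι ℝ[X] →* SL ι ℝ[X] := Matrix.SpecialLinearGroup.map (dil s)

theorem coe_dl (s : ℝ) (g : SL ι ℝ[X]) (i j : ι) :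
    ((dl s g : SL ι ℝ[X]) : Matrix ι ι ℝ[X]) i j = dil s ((g : Matrix ι ι ℝ[X]) i j) := rfl

theorem coe_dl_sub (s : ℝ) (g : SL ι ℝ[X]) (i j : ι) :
    (((dl s g : SL ι ℝ[X]) : Matrix ι ι ℝ[X]) - 1) i j
      = dil s (((g : Matrix ι ι ℝ[X]) - 1) i j) := by
  rw [Matrix.sub_apply, Matrix.sub_apply, map_sub, coe_dl]
  congr 1
  rw [Matrix.one_apply]
  split_ifs <;> simp

theorem dl_one' (g : SL ι ℝ[X]) : dl 1 g = g := by
  apply Matrix.SpecialLinearGroup.ext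
  intro i j
  rw [coe_dl, dil_one]; rfl

theorem dl_zero {n : ℕ} (hn : 1 ≤ n) {g : SL ι ℝ[X]} (hg : Cg (X ^ n) g) : dl 0 g = 1 := by
  apply Subtype.ext
  show ((dl 0 g : SL ι ℝ[X]) : Matrix ι ι ℝ[X]) = ((1 : SL ι ℝ[X]) : Matrix ι ι ℝ[X])
  rw [Matrix.SpecialLinearGroup.coe_one, ← sub_eq_zero]
  ext1 i j
  rw [coe_dl_sub, Matrix.zero_apply]
  ext d
  rw [coeff_dil, Polynomial.coeff_zero]
  rcases Nat.eq_zero_or_pos d with hd | hd
  · rw [hd, Polynomial.X_pow_dvd_iff.1 (hg i j) 0 (by omega), zero_mul]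
  · rw [zero_pow (by omega), mul_zero]

theorem nr_dl {r e s : ℝ} (hr : 0 ≤ r) (hs : 0 ≤ s) (hs1 : s ≤ 1) {g : SL ι ℝ[X]}
    (h : nr (wn r) e g) : nr (wn r) e (dl s g) := by
  obtain ⟨b, h0, h1, h2⟩ := h
  refine ⟨b, h0, fun i j => ?_, h2⟩
  rw [coe_dl_sub]
  exact (wn_dil_le hr hs hs1 _).trans (h1 i j)

theorem cg_dl {n : ℕ} {s : ℝ} {g : SL ι ℝ[X]} (h : Cg (X ^ n) g) : Cg (X ^ n) (dl s g) := by
  intro i j
  rw [coe_dl_sub, Polynomial.X_pow_dvd_iff]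
  intro d hd
  rw [coeff_dil, Polynomial.X_pow_dvd_iff.1 (h i j) d hd, zero_mul]

theorem cg_zr {n : ℕ} {g : SL ι ℤ[X]} (h : Cg (X ^ n) g) : Cg (X ^ n) (zr g) := by
  intro i j
  have e1 : ((zr g : SL ι ℝ[X]) : Matrix ι ι ℝ[X]) - 1
      = iz.mapMatrix ((g : Matrix ι ι ℤ[X]) - 1) := by
    rw [map_sub, map_one, coe_zr']
  rw [e1, RingHom.mapMatrix_apply, Matrix.map_apply]
  have := map_dvd iz (h i j)
  rw [map_pow] at this
  have e2 : iz X = X := by simp [iz]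
  rwa [e2] at this

theorem mesh {r : ℝ} (hr : 0 ≤ r) (h : SL ι ℝ[X]) : ∃ M : ℝ, 0 ≤ M ∧ ∀ s t : ℝ, 0 ≤ s → s ≤ 1 →
    0 ≤ t → t ≤ 1 → nr (wn r) (|t - s| * M) ((dl s h)⁻¹ * dl t h) := by
  have hN := wn_isN hr
  set S : ℝ := ∑ i, ∑ j, ∑ l, wn r (((h⁻¹ : SL ι ℝ[X]) : Matrix ι ι ℝ[X]) i l)
    * ((((h : Matrix ι ι ℝ[X]) l j).natDegree : ℝ) * wn r ((h : Matrix ι ι ℝ[X]) l j)) with hS
  have hterm : ∀ i j l, 0 ≤ wn r (((h⁻¹ : SL ι ℝ[X]) : Matrix ι ι ℝ[X]) i l)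
    * ((((h : Matrix ι ι ℝ[X]) l j).natDegree : ℝ) * wn r ((h : Matrix ι ι ℝ[X]) l j)) := by
    intro i j l
    have h1 := hN.nn (((h⁻¹ : SL ι ℝ[X]) : Matrix ι ι ℝ[X]) i l)
    have h2 := hN.nn ((h : Matrix ι ι ℝ[X]) l j)
    positivity
  have hS0 : 0 ≤ S := Finset.sum_nonneg fun i _ => Finset.sum_nonneg fun j _ =>
    Finset.sum_nonneg fun l _ => hterm i j l
  refine ⟨Fintype.card ι * S, by positivity, fun s t hs hs1 ht ht1 => ?_⟩
  refine Sm_const (c := |t - s| * S) (by positivity) (fun i j => ?_) (le_of_eq (by ring))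
  have e1 : (((dl s h)⁻¹ * dl t h : SL ι ℝ[X]) : Matrix ι ι ℝ[X]) - 1
      = ((dl s h⁻¹ : SL ι ℝ[X]) : Matrix ι ι ℝ[X])
        * (((dl t h : SL ι ℝ[X]) : Matrix ι ι ℝ[X]) - ((dl s h : SL ι ℝ[X]) : Matrix ι ι ℝ[X])) := by
    rw [Matrix.SpecialLinearGroup.coe_mul, mul_sub, map_inv, coe_inv_mul]
  rw [e1, Matrix.mul_apply]
  refine (hN.sum _ _).trans ?_
  have h1 : ∀ l, wn r (((dl s h⁻¹ : SL ι ℝ[X]) : Matrix ι ι ℝ[X]) i l
      * ((((dl t h : SL ι ℝ[X]) : Matrix ι ι ℝ[X]) - ((dl s h : SL ι ℝ[X]) : Matrix ι ι ℝ[X])) l j))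
      ≤ |t - s| * (wn r (((h⁻¹ : SL ι ℝ[X]) : Matrix ι ι ℝ[X]) i l)
    * ((((h : Matrix ι ι ℝ[X]) l j).natDegree : ℝ) * wn r ((h : Matrix ι ι ℝ[X]) l j))) := by
    intro l
    refine (hN.mul _ _).trans ?_
    rw [Matrix.sub_apply, coe_dl, coe_dl, coe_dl]
    have a1 := wn_dil_le hr hs hs1 (((h⁻¹ : SL ι ℝ[X]) : Matrix ι ι ℝ[X]) i l)
    have a2 := wn_dil_sub hr ht ht1 hs hs1 ((h : Matrix ι ι ℝ[X]) l j)
    refine (mul_le_mul a1 a2 (hN.nn _) (hN.nn _)).trans (le_of_eq (by ring))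
  refine (Finset.sum_le_sum fun l _ => h1 l).trans ?_
  rw [← Finset.mul_sum]
  refine mul_le_mul_of_nonneg_left ?_ (abs_nonneg _)
  have h2 : ∑ l, wn r (((h⁻¹ : SL ι ℝ[X]) : Matrix ι ι ℝ[X]) i l)
      * ((((h : Matrix ι ι ℝ[X]) l j).natDegree : ℝ) * wn r ((h : Matrix ι ι ℝ[X]) l j))
      ≤ ∑ j, ∑ l, wn r (((h⁻¹ : SL ι ℝ[X]) : Matrix ι ι ℝ[X]) i l)
      * ((((h : Matrix ι ι ℝ[X]) l j).natDegree : ℝ) * wn r ((h : Matrix ι ι ℝ[X]) l j)) :=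
    Finset.single_le_sum (f := fun j => ∑ l, wn r (((h⁻¹ : SL ι ℝ[X]) : Matrix ι ι ℝ[X]) i l)
      * ((((h : Matrix ι ι ℝ[X]) l j).natDegree : ℝ) * wn r ((h : Matrix ι ι ℝ[X]) l j)))
      (fun j _ => Finset.sum_nonneg fun l _ => hterm i j l) (Finset.mem_univ j)
  exact h2.trans (Finset.single_le_sum (f := fun i => ∑ j, ∑ l,
      wn r (((h⁻¹ : SL ι ℝ[X]) : Matrix ι ι ℝ[X]) i l)
      * ((((h : Matrix ι ι ℝ[X]) l j).natDegree : ℝ) * wn r ((h : Matrix ι ι ℝ[X]) l j)))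
      (fun i _ => Finset.sum_nonneg fun j _ => Finset.sum_nonneg fun l _ => hterm i j l)
      (Finset.mem_univ i))

/-- a ladder of integral matrices following the dilations of `h` -/
def Ladder (r δ : ℝ) (n K : ℕ) (h : SL ι ℤ[X]) (g : ℕ → SL ι ℤ[X]) : Prop :=
  g 0 = 1 ∧ (∀ k, k ≤ K → Cg (X ^ n) (g k)) ∧
  (∀ k, k < K → Ch (wz r) (X ^ n) (50 * δ) 1 ((g k)⁻¹ * g (k + 1))) ∧
  (∀ k, k ≤ K → nr (wn r) δ ((zr (g k))⁻¹ * dl ((k : ℝ) / K) (zr h)))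

theorem exists_ladder {r δ : ℝ} (hr : 0 ≤ r) (hr1 : r < 1) {n : ℕ} (hn : 1 ≤ n) (hδ : 0 < δ)
    (hδ1 : δ ≤ 1 / 10000) (hm : (Fintype.card ι : ℝ) * (r ^ n / (1 - r)) ≤ δ / 5)
    (h : SL ι ℤ[X]) (hc : Cg (X ^ n) h) :
    ∃ K0 : ℕ, ∀ K, K0 ≤ K → 0 < K → ∃ g, Ladder r δ n K h g := by
  have hN := wn_isN hr
  obtain ⟨M, hM0, hM⟩ := mesh hr (zr h)
  refine ⟨⌈2 * M / δ⌉₊, fun K hK hK0 => ?_⟩
  have hKr : (0 : ℝ) < K := by exact_mod_cast hK0
  have hK2 : 1 / (K : ℝ) * M ≤ δ / 2 := by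
    have h1 : 2 * M / δ ≤ K := (Nat.le_ceil _).trans (by exact_mod_cast hK)
    rw [div_le_iff₀ hδ] at h1
    rw [div_mul_eq_mul_div, one_mul, div_le_iff₀ hKr]
    linarith
  set Good : ℕ → SL ι ℤ[X] → Prop := fun k g =>
    k ≤ K → Cg (X ^ n) g ∧ nr (wn r) δ ((zr g)⁻¹ * dl ((k : ℝ) / K) (zr h)) with hGood
  have step : ∀ (k : ℕ) (g : {g : SL ι ℤ[X] // Good k g}), ∃ g' : {g : SL ι ℤ[X] // Good (k + 1) g},
      k < K → Ch (wz r) (X ^ n) (50 * δ) 1 (g.1⁻¹ * g'.1) := by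
    rintro k ⟨g, hg⟩
    by_cases hk : k < K
    · obtain ⟨hg1, hg2⟩ := hg hk.le
      have hs0 : 0 ≤ (k : ℝ) / K := by positivity
      have hs1 : (k : ℝ) / K ≤ 1 := by
        rw [div_le_one hKr]; exact_mod_cast hk.le
      have ht0 : 0 ≤ ((k + 1 : ℕ) : ℝ) / K := by positivity
      have ht1 : ((k + 1 : ℕ) : ℝ) / K ≤ 1 := by
        rw [div_le_one hKr]; exact_mod_cast hk
      have hst : |((k + 1 : ℕ) : ℝ) / K - (k : ℝ) / K| = 1 / K := by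
        rw [← sub_div]; push_cast
        rw [add_sub_cancel_left, abs_of_nonneg (by positivity)]
      have hm1 := hM _ _ hs0 hs1 ht0 ht1
      rw [hst] at hm1
      have hm2 := hm1.mono hK2
      set z : SL ι ℝ[X] := (zr g)⁻¹ * dl (((k + 1 : ℕ) : ℝ) / K) (zr h) with hz
      have hz1 : z = ((zr g)⁻¹ * dl ((k : ℝ) / K) (zr h))
          * ((dl ((k : ℝ) / K) (zr h))⁻¹ * dl (((k + 1 : ℕ) : ℝ) / K) (zr h)) := by
        rw [hz]; group
      have hz2 : nr (wn r) (2 * δ) z := by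
        rw [hz1]
        exact (hg2.mul hN hm2).mono (by nlinarith)
      have hz3 : Cg (X ^ n) z := (cg_zr hg1).inv.mul (cg_dl (cg_zr hc))
      obtain ⟨ζ, hζ1, hζ2⟩ := rounding hr hr1 hδ hδ1 hm z hz2 hz3
      refine ⟨⟨g * ζ, fun _ => ⟨hg1.mul (hζ1.cg Cg.one), ?_⟩⟩, fun _ => ?_⟩
      · have e1 : (zr (g * ζ))⁻¹ * dl (((k + 1 : ℕ) : ℝ) / K) (zr h) = (zr ζ)⁻¹ * z := by
          rw [hz, map_mul]; group
        rw [e1]; exact hζ2
      · show Ch (wz r) (X ^ n) (50 * δ) 1 (g⁻¹ * (g * ζ))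
        rwa [inv_mul_cancel_left]
    · exact ⟨⟨1, fun hh => absurd hh (by omega)⟩, fun hh => absurd hh hk⟩
  choose f hf using step
  have h0 : Good 0 1 := by
    intro _
    refine ⟨Cg.one, ?_⟩
    rw [map_one, inv_one, one_mul, Nat.cast_zero, zero_div, dl_zero hn (cg_zr hc)]
    exact nr_one hN hδ.le
  let s : (k : ℕ) → {g : SL ι ℤ[X] // Good k g} := fun k =>
    Nat.rec (motive := fun k => {g : SL ι ℤ[X] // Good k g}) ⟨1, h0⟩ (fun k g => f k g) k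
  refine ⟨fun k => (s k : SL ι ℤ[X]), rfl, fun k hk => ((s k).2 hk).1, fun k hk => hf k (s k) hk,
    fun k hk => ((s k).2 hk).2⟩

end path

section main

variable {ι κ : Type} [Fintype ι] [DecidableEq ι] [Fintype κ] [DecidableEq κ]

theorem div_aux {x δ c : ℝ} (hx : 0 ≤ x) (hx1 : x ≤ 1 / 10000) : x / (1 - x) ≤ 1.01 * x := by
  rw [div_le_iff₀ (by linarith)]; nlinarith

theorem cmp_nr {r δ : ℝ} (hr : 0 ≤ r) {n K : ℕ} (hK : 0 < K) (hδ : 0 < δ)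
    (hδ1 : δ ≤ 1 / 10000) {h l : SL ι ℤ[X]} {g g' : ℕ → SL ι ℤ[X]}
    (hg : Ladder r δ n K h g) (hg' : Ladder r δ n K (h * l) g') (hl : nr (wz r) (δ / 5) l)
    {k : ℕ} (hk : k ≤ K) : nr (wz r) (3 * δ) ((g' k)⁻¹ * g k) := by
  have hN := wn_isN hr
  have hKr : (0 : ℝ) < K := by exact_mod_cast hK
  have hs0 : 0 ≤ (k : ℝ) / K := by positivity
  have hs1 : (k : ℝ) / K ≤ 1 := by
    rw [div_le_one hKr]; exact_mod_cast hk
  apply nr_of_zr
  have e1 : zr ((g' k)⁻¹ * g k) = ((zr (g' k))⁻¹ * dl ((k : ℝ) / K) (zr (h * l)))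
      * (dl ((k : ℝ) / K) (zr l))⁻¹ * ((zr (g k))⁻¹ * dl ((k : ℝ) / K) (zr h))⁻¹ := by
    rw [map_mul, map_mul, map_mul, map_inv]; group
  rw [e1]
  have a1 := hg'.2.2.2 k hk
  have a2 : nr (wn r) (1.01 * (δ / 5)) (dl ((k : ℝ) / K) (zr l))⁻¹ :=
    ((nr_dl hr hs0 hs1 (nr_zr hl)).inv hN (by linarith)).mono
      (div_aux (δ := δ) (c := 0) (by linarith) (by linarith))
  have a3 : nr (wn r) (1.01 * δ) ((zr (g k))⁻¹ * dl ((k : ℝ) / K) (zr h))⁻¹ :=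
    ((hg.2.2.2 k hk).inv hN (by linarith)).mono (div_aux (δ := δ) (c := 0) hδ.le hδ1)
  have a4 : nr (wn r) (1.3 * δ) (((zr (g' k))⁻¹ * dl ((k : ℝ) / K) (zr (h * l)))
      * (dl ((k : ℝ) / K) (zr l))⁻¹) := (a1.mul hN a2).mono (by nlinarith)
  exact (a4.mul hN a3).mono (by nlinarith)

theorem cmp_chain {r δ : ℝ} (hr : 0 ≤ r) {n K : ℕ} (hK : 0 < K) (hδ : 0 < δ)
    (hδ1 : δ ≤ 1 / 10000) {h l : SL ι ℤ[X]} {g g' : ℕ → SL ι ℤ[X]}
    (hg : Ladder r δ n K h g) (hg' : Ladder r δ n K (h * l) g') (hl : nr (wz r) (δ / 5) l)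
    {k1 k2 : κ} (h12 : k1 ≠ k2) (k : ℕ) (hk : k ≤ K) :
    Ch (wz r) (X ^ n) (450 * δ) 1 (bl k1 ((g' k)⁻¹ * g k)) := by
  have hN := wz_isN hr
  induction k with
  | zero => rw [hg.1, hg'.1, inv_one, one_mul, map_one]; exact Ch.refl _
  | succ k ih =>
    have hk' : k ≤ K := by omega
    have hkK : k < K := by omega
    have hu := cmp_nr hr hK hδ hδ1 hg hg' hl hk'
    set u := (g' k)⁻¹ * g k with hu'
    set ζ := (g k)⁻¹ * g (k + 1) with hζ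
    set ζ' := (g' k)⁻¹ * g' (k + 1) with hζ'
    have c1 := hg.2.2.1 k hkK
    have c2 := hg'.2.2.1 k hkK
    have e1 : (g' (k + 1))⁻¹ * g (k + 1) = ζ'⁻¹ * (u * ζ) := by
      rw [hu', hζ, hζ']; group
    rw [e1]
    have hζn : nr (wz r) (50 * δ) ζ := c1.nr_right (nr_one hN (by linarith))
    have huζ : nr (wz r) (54 * δ) (u * ζ) := (hu.mul hN hζn).mono (by nlinarith)
    have cu : Cg (X ^ n) u := (hg'.2.1 k hk').inv.mul (hg.2.1 k hk')
    have cuζ : Cg (X ^ n) (u * ζ) := cu.mul (c1.cg Cg.one)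
    have d1 : Ch (wz r) (X ^ n) (450 * δ) (bl k1 u) (bl k1 (u * ζ)) := by
      have := (Ch.left hN (c1.bl hN k1) (hu.bl hN k1) (by nlinarith)).mono
        (show _ ≤ 450 * δ by nlinarith)
      rwa [map_one, mul_one, ← map_mul] at this
    have d2 : Ch (wz r) (X ^ n) (450 * δ) (bl k1 (u * ζ)) (bl k1 (ζ'⁻¹ * (u * ζ))) :=
      (left_lemma hN h12 huζ c2 (by linarith) (by linarith) (show 50 * δ * 1.02 ≤ 54 * δ by linarith)
        le_rfl (by linarith) cuζ).mono (by linarith)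
    exact ((ih hk').trans d1).trans d2

theorem Ladder.end_nr {r δ : ℝ} (hr : 0 ≤ r) {n K : ℕ} (hK : 0 < K) {h : SL ι ℤ[X]}
    {g : ℕ → SL ι ℤ[X]} (hg : Ladder r δ n K h g) : nr (wz r) δ ((g K)⁻¹ * h) := by
  apply nr_of_zr
  have h1 := hg.2.2.2 K le_rfl
  have hKr : (K : ℝ) ≠ 0 := by exact_mod_cast hK.ne'
  rw [div_self hKr, dl_one'] at h1
  rwa [map_mul, map_inv]

/-- **Small path theorem.** -/
theorem spt {r δ : ℝ} (hr : 0 ≤ r) (hr1 : r < 1) {n : ℕ} (hn : 1 ≤ n) (hδ : 0 < δ)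
    (hδ1 : δ ≤ 1 / 10000) (hm : (Fintype.card ι : ℝ) * (r ^ n / (1 - r)) ≤ δ / 5)
    {k0 k1 k2 : κ} (h01 : k0 ≠ k1) (h02 : k0 ≠ k2) (h12 : k1 ≠ k2) (F : SL ι ℤ[X])
    (hF : F ∈ Submonoid.closure {g : SL ι ℤ[X] | Mv (wz r) (X ^ n) (δ / 5) g})
    (hFn : nr (wz r) δ F) : Ch (wz r) (X ^ n) (500 * δ) 1 (bl k0 F) := by
  have hN := wz_isN hr
  have hNr := wn_isN hr
  have key : Cg (X ^ n) F ∧ ∃ K0 : ℕ, ∀ K, K0 ≤ K → 0 < K → ∀ g, Ladder r δ n K F g →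
      Ch (wz r) (X ^ n) (500 * δ) 1 (bl k0 ((g K)⁻¹ * F)) := by
    clear hFn
    induction hF using Submonoid.closure_induction_right with
    | one =>
      refine ⟨Cg.one, 0, fun K _ hK g hg => ?_⟩
      have ht : Ladder r δ n K (1 : SL ι ℤ[X]) (fun _ => 1) := by
        refine ⟨rfl, fun _ _ => Cg.one, fun _ _ => ?_, fun _ _ => ?_⟩
        · rw [inv_one, one_mul]; exact Ch.refl _
        · rw [map_one, map_one, inv_one, one_mul]; exact nr_one hNr hδ.le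
      have hg' : Ladder r δ n K (1 * 1 : SL ι ℤ[X]) g := by rwa [one_mul]
      have h1n : nr (wz r) (δ / 5) (1 : SL ι ℤ[X]) := nr_one hN (by linarith)
      have c1 := cmp_chain hr hK hδ hδ1 ht hg' h1n h12 K le_rfl
      rw [mul_one] at c1 ⊢
      have hn1 := hg.end_nr hr hK
      rw [mul_one] at hn1
      have c2 := sum_lemma hN h01 (a := 1) (b := (g K)⁻¹) (nr_one hN hδ.le) hn1 (by linarith)
        (hg.2.1 K le_rfl).inv
      rw [map_one, one_mul, one_mul] at c2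
      exact (c1.mono (by linarith)).trans (c2.mono (by linarith))
    | mul_right h hh l hl ih =>
      obtain ⟨hc, K0, hP⟩ := ih
      have hl' : Mv (wz r) (X ^ n) (δ / 5) l := hl
      have hln := hl'.toNr hN
      obtain ⟨K1, hK1⟩ := exists_ladder hr hr1 hn hδ hδ1 hm h hc
      refine ⟨hc.mul hl'.cg, max K0 K1, fun K hK hK0 g' hg' => ?_⟩
      obtain ⟨g, hg⟩ := hK1 K (le_trans (le_max_right _ _) hK) hK0
      have c0 := hP K (le_trans (le_max_left _ _) hK) hK0 g hg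
      have cu := cmp_chain hr hK0 hδ hδ1 hg hg' hln h12 K le_rfl
      have nu := cmp_nr hr hK0 hδ hδ1 hg hg' hln (le_refl K)
      have nw := hg.end_nr hr hK0
      set u := (g' K)⁻¹ * g K with hu
      set w := (g K)⁻¹ * h with hw
      have cgw : Cg (X ^ n) w := (hg.2.1 K le_rfl).inv.mul hc
      have cgu : Cg (X ^ n) u := (hg'.2.1 K le_rfl).inv.mul (hg.2.1 K le_rfl)
      have c1 : Ch (wz r) (X ^ n) (500 * δ) (bl k0 w) (bl k0 w * bl k1 u) := by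
        have := (Ch.left hN cu (nw.bl hN k0) (by nlinarith)).mono
          (show _ ≤ 500 * δ by nlinarith)
        rwa [mul_one] at this
      have c2 : Ch (wz r) (X ^ n) (500 * δ) (bl k0 w * bl k1 u) (bl k1 (u * w)) := by
        have := (sum_lemma hN h01.symm nu (nw.mono (show δ ≤ 3 * δ by linarith)) (by linarith)
          cgw).mono (show _ ≤ 500 * δ by linarith)
        rwa [bl_comm h01.symm] at this
      have nuw : nr (wz r) (5 * δ) (u * w) := (nu.mul hN nw).mono (by nlinarith)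
      have c3 : Ch (wz r) (X ^ n) (500 * δ) (bl k1 (u * w)) (bl k0 (u * w)) := by
        have := (sum_lemma hN h01 (a := 1) (b := u * w) (nr_one hN (by linarith)) nuw
          (by linarith) (cgu.mul cgw)).mono (show _ ≤ 500 * δ by linarith)
        rwa [map_one, one_mul, one_mul] at this
      have nuwl : nr (wz r) (6 * δ) (u * w * l) := (nuw.mul hN hln).mono (by nlinarith)
      have c4 : Ch (wz r) (X ^ n) (500 * δ) (bl k0 (u * w)) (bl k0 (u * w * l)) := by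
        rw [map_mul _ (u * w) l]
        refine Ch.one_step ((nuw.bl hN k0).mono (by linarith)) ?_
          ((hl'.bl hN k0).mono (by linarith))
        rw [← map_mul]
        exact (nuwl.bl hN k0).mono (by linarith)
      have e1 : (g' K)⁻¹ * (h * l) = u * w * l := by rw [hu, hw]; group
      rw [e1]
      exact (((c0.trans c1).trans c2).trans c3).trans c4
  obtain ⟨hc, K0, hP⟩ := key
  have ht : Ladder r δ n (K0 + 1) F (fun _ => 1) := by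
    refine ⟨rfl, fun _ _ => Cg.one, fun _ _ => ?_, fun k hk => ?_⟩
    · rw [inv_one, one_mul]; exact Ch.refl _
    · rw [map_one, inv_one, one_mul]
      refine nr_dl hr (by positivity) ?_ (nr_zr hFn)
      rw [div_le_one (by positivity)]; exact_mod_cast hk
  have := hP (K0 + 1) (by omega) (by omega) _ ht
  rwa [inv_one, one_mul] at this

end main

end Pool.WFS.Lad
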