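import Pool.Agent.WFS.LadF

/-! Folding many small blocks into one, and the chain used in the assembly (blueprint 5.5).
(helper45, WFS, algebra part) -/

set_option autoImplicit false
set_option linter.all false

namespace Pool.WFS.Lad

open Matrix Polynomial

section fold

variable {A : Type} [CommRing A] {N : A → ℝ}
variable {ι κ : Type} [Fintype ι] [DecidableEq ι] [Fintype κ] [DecidableEq κ]

theorem bl_comm_prod {k : κ} (g : SL ι A) (L : List (κ × SL ι A)) (hk : k ∉ L.map Prod.fst) :
    bl k g * (L.map fun p => bl p.1 p.2).prod = (L.map fun p => bl p.1 p.2).prod * bl k g := by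
  induction L with
  | nil => simp
  | cons p L ih =>
    rw [List.map_cons, List.mem_cons, not_or] at hk
    rw [List.map_cons, List.prod_cons, ← mul_assoc, bl_comm hk.1, mul_assoc, ih hk.2, mul_assoc]

/-- size of a product of small elements -/
theorem nr_list_prod {σ : Type} [Fintype σ] [DecidableEq σ] (hN : IsN N) {α : Type}
    (t : α → SL σ A) (c : α → ℝ) (L : List α) (h : ∀ x ∈ L, nr N (c x) (t x)) :
    nr N (Real.exp ((L.map c).sum) - 1) (L.map t).prod := by
  induction L with
  | nil => simpa using nr_one hN le_rfl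
  | cons x L ih =>
    have h1 := h x List.mem_cons_self
    have h2 := ih fun y hy => h y (List.mem_cons_of_mem _ hy)
    simp only [List.map_cons, List.prod_cons, List.sum_cons]
    refine (h1.mul hN h2).mono ?_
    have h3 := h1.nonneg
    rw [Real.exp_add]
    have h4 : 1 + c x ≤ Real.exp (c x) := by linarith [Real.add_one_le_exp (c x)]
    have h5 := mul_le_mul_of_nonneg_right h4 (Real.exp_pos ((L.map c).sum)).le
    linarith

theorem exp_small {x η : ℝ} (hx : 0 ≤ x) (hxη : x ≤ η) (hη : η ≤ 1) : Real.exp x - 1 ≤ 2 * η := by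
  have := Real.abs_exp_sub_one_le (x := x) (by rw [abs_of_nonneg hx]; linarith)
  rw [abs_of_nonneg hx] at this
  linarith [le_abs_self (Real.exp x - 1)]

theorem sum_map_nonneg {α : Type} (c : α → ℝ) (L : List α) (h : ∀ x ∈ L, 0 ≤ c x) :
    0 ≤ (L.map c).sum := by
  induction L with
  | nil => simp
  | cons x L ih =>
    rw [List.map_cons, List.sum_cons]
    exact add_nonneg (h x List.mem_cons_self) (ih fun y hy => h y (List.mem_cons_of_mem _ hy))

theorem cg_list_prod {D : A} (L : List (κ × SL ι A)) (h : ∀ p ∈ L, Cg D p.2) :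
    Cg D (L.map Prod.snd).prod := by
  induction L with
  | nil => simpa using Cg.one
  | cons p L ih =>
    rw [List.map_cons, List.prod_cons]
    exact (h p List.mem_cons_self).mul (ih fun q hq => h q (List.mem_cons_of_mem _ hq))

/-- **Folding.** Blocks `Y_i` at distinct places are joined to their product at the place `k1`. -/
theorem fold_blocks (hN : IsN N) {D : A} {k1 : κ} {η : ℝ} (hη : η ≤ 1 / 60) (c : SL ι A → ℝ)
    (L : List (κ × SL ι A)) (hL : (L.map Prod.fst).Nodup) (hk1 : k1 ∉ L.map Prod.fst)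
    (hc : ∀ p ∈ L, nr N (c p.2) p.2) (hD : ∀ p ∈ L, Cg D p.2)
    (hs : (L.map fun p => c p.2).sum ≤ η) :
    Ch N D (20 * η) ((L.map fun p => bl p.1 p.2).prod) (bl k1 (L.map Prod.snd).prod) := by
  have hη0 : 0 ≤ η :=
    (sum_map_nonneg (fun p : κ × SL ι A => c p.2) L fun p hp => (hc p hp).nonneg).trans hs
  have key : ∀ (L : List (κ × SL ι A)), (L.map Prod.fst).Nodup → k1 ∉ L.map Prod.fst →
      (∀ p ∈ L, nr N (c p.2) p.2) → (∀ p ∈ L, Cg D p.2) → ∀ (a : SL ι A) (x : ℝ), 0 ≤ x →
      nr N (Real.exp x - 1) a → x + (L.map fun p => c p.2).sum ≤ η →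
      Ch N D (20 * η) (bl k1 a * (L.map fun p => bl p.1 p.2).prod)
        (bl k1 (a * (L.map Prod.snd).prod)) := by
    intro L
    induction L with
    | nil => intro _ _ _ _ a x _ _ _; simp only [List.map_nil, List.prod_nil, mul_one]; exact Ch.refl _
    | cons p L ih =>
      intro hL hk1 hc hD a x hx ha hs
      rw [List.map_cons, List.nodup_cons] at hL
      rw [List.map_cons, List.mem_cons, not_or] at hk1
      rw [List.map_cons, List.sum_cons] at hs
      have hcp := hc p List.mem_cons_self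
      have hcp0 := hcp.nonneg
      have hcL : ∀ q ∈ L, nr N (c q.2) q.2 := fun q hq => hc q (List.mem_cons_of_mem _ hq)
      have hDL : ∀ q ∈ L, Cg D q.2 := fun q hq => hD q (List.mem_cons_of_mem _ hq)
      have hL0 : 0 ≤ (L.map fun p => c p.2).sum :=
        sum_map_nonneg (fun p : κ × SL ι A => c p.2) L fun q hq => (hcL q hq).nonneg
      have ha2 : nr N (2 * η) a := ha.mono (exp_small hx (by linarith) (by linarith))
      have hY2 : nr N (2 * η) p.2 := hcp.mono (by linarith)
      have hrest : nr N (2 * η) ((L.map fun p => bl p.1 p.2).prod) := by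
        refine (nr_list_prod hN (fun p : κ × SL ι A => bl p.1 p.2) (fun p => c p.2) L
          fun q hq => (hcL q hq).bl hN q.1).mono (exp_small hL0 (by linarith) (by linarith))
      have hay : nr N (Real.exp (x + c p.2) - 1) (a * p.2) := by
        refine (ha.mul hN hcp).mono ?_
        rw [Real.exp_add]
        have h4 : 1 + c p.2 ≤ Real.exp (c p.2) := by linarith [Real.add_one_le_exp (c p.2)]
        have h5 := mul_le_mul_of_nonneg_left h4 (Real.exp_pos x).le
        linarith
      have s1 := sum_lemma hN hk1.1 ha2 hY2 (by linarith) (hD p List.mem_cons_self)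
      have s2 := (Ch.left hN s1 hrest (by nlinarith)).mono (show _ ≤ 20 * η by nlinarith)
      have s3 := ih hL.2 hk1.2 hcL hDL (a * p.2) (x + c p.2) (by linarith) hay (by linarith)
      have e1 : bl k1 a * ((p :: L).map fun p => bl p.1 p.2).prod
          = (L.map fun p => bl p.1 p.2).prod * (bl k1 a * bl p.1 p.2) := by
        rw [List.map_cons, List.prod_cons, ← mul_assoc, mul_assoc, bl_comm_prod p.2 L hL.1,
          ← mul_assoc, bl_comm_prod a L hk1.2, mul_assoc]
      have e2 : (L.map fun p => bl p.1 p.2).prod * bl k1 (a * p.2)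
          = bl k1 (a * p.2) * (L.map fun p => bl p.1 p.2).prod :=
        (bl_comm_prod (a * p.2) L hk1.2).symm
      have e3 : a * ((p :: L).map Prod.snd).prod = a * p.2 * (L.map Prod.snd).prod := by
        rw [List.map_cons, List.prod_cons, mul_assoc]
      rw [e1, e3]
      rw [e2] at s2
      exact s2.trans s3
  have := key L hL hk1 hc hD 1 0 le_rfl (by rw [Real.exp_zero, sub_self]; exact nr_one hN le_rfl)
    (by linarith)
  rwa [map_one, one_mul, one_mul] at this

end fold

section final

variable {ι κ : Type} [Fintype ι] [DecidableEq ι] [Fintype κ] [DecidableEq κ]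

/-- **The chain of the assembly** (blueprint 5.5): if `M P⁻¹` is small and a product of letters,
where `P` is the product of the blocks `Y_i`, then the block sum of the `Y_i` (at the places `p.1`)
is joined to `M` at the place `k0`. -/
theorem assembly_chain {r δ : ℝ} (hr : 0 ≤ r) (hr1 : r < 1) {n : ℕ} (hn : 1 ≤ n) (hδ : 0 < δ)
    (hδ1 : δ ≤ 1 / 10000) (hm : (Fintype.card ι : ℝ) * (r ^ n / (1 - r)) ≤ δ / 5)
    {k0 k1 k2 : κ} (h01 : k0 ≠ k1) (h02 : k0 ≠ k2) (h12 : k1 ≠ k2)
    (c : SL ι ℤ[X] → ℝ) (L : List (κ × SL ι ℤ[X])) (hL : (L.map Prod.fst).Nodup)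
    (hk1 : k1 ∉ L.map Prod.fst) (hc : ∀ p ∈ L, nr (wz r) (c p.2) p.2)
    (hD : ∀ p ∈ L, Cg (X ^ n) p.2) (hs : (L.map fun p => c p.2).sum ≤ δ) (M : SL ι ℤ[X])
    (hF : M * ((L.map Prod.snd).prod)⁻¹ ∈
      Submonoid.closure {g : SL ι ℤ[X] | Mv (wz r) (X ^ n) (δ / 5) g})
    (hFn : nr (wz r) δ (M * ((L.map Prod.snd).prod)⁻¹)) :
    Ch (wz r) (X ^ n) (600 * δ) ((L.map fun p => bl p.1 p.2).prod) (bl k0 M) := by
  have hN := wz_isN hr
  set P := (L.map Prod.snd).prod with hP
  have hs0 : 0 ≤ (L.map fun p => c p.2).sum :=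
    sum_map_nonneg (fun p : κ × SL ι ℤ[X] => c p.2) L fun q hq => (hc q hq).nonneg
  have hPn : nr (wz r) (2 * δ) P := by
    have := nr_list_prod hN (fun p : κ × SL ι ℤ[X] => p.2) (fun p => c p.2) L hc
    exact this.mono (exp_small hs0 hs (by linarith))
  have hPc : Cg (X ^ n) P := cg_list_prod L hD
  have s1 := (fold_blocks hN (k1 := k1) (η := δ) (by linarith) c L hL hk1 hc hD hs).mono
    (show _ ≤ 600 * δ by linarith)
  have s2 := spt hr hr1 hn hδ hδ1 hm h01 h02 h12 _ hF hFn
  have s3 : Ch (wz r) (X ^ n) (600 * δ) (bl k1 P) (bl k1 P * bl k0 (M * P⁻¹)) := by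
    have := (Ch.left hN s2 (hPn.bl hN k1) (by nlinarith)).mono (show _ ≤ 600 * δ by nlinarith)
    rwa [mul_one] at this
  have s4 : Ch (wz r) (X ^ n) (600 * δ) (bl k0 (M * P⁻¹) * bl k1 P) (bl k0 (M * P⁻¹ * P)) :=
    (sum_lemma hN h01 (hFn.mono (show δ ≤ 2 * δ by linarith)) hPn (by linarith) hPc).mono
      (by linarith)
  rw [inv_mul_cancel_right, bl_comm h01] at s4
  exact (s1.trans s3).trans s4

end final

end Pool.WFS.Lad
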