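import Pool.Agent.WFS.Basic

/-! # The monoid of pairs modulo strong shift equivalence in every context

`Tm P` is the commutative monoid of the finite formal sums of pairs modulo `FR`. It is bilinear. The map from the
Grothendieck group is a function of the endomorphism `Φ z = ∑ y_i(·) x_i`. As `(u, c)` absorbs everything, two
families with the same `Φ` become equal after adding a multiple of `(u, c)`.
-/

set_option autoImplicit false
set_option linter.unusedSectionVars false

namespace Pool.Agent.WFS

variable {L : Type} [AddCommGroup L]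

theorem FR_append {P : AddSubmonoid L} (a b : List (Pr P)) :
    FR (Sum.elim a.get b.get) (a ++ b).get := by
  refine FR_equiv _ _ (finSumFinEquiv.trans (finCongr List.length_append.symm)) ?_
  rintro (i | i)
  · simp [List.getElem_append_left]
  · simp [List.getElem_append_right]

/-- the congruence -/
def con (P : AddSubmonoid L) : AddCon (FreeAddMonoid (Pr P)) where
  r a b := FR (FreeAddMonoid.toList a).get (FreeAddMonoid.toList b).get
  iseqv := ⟨fun _ => FR.refl _, fun h => h.symm, fun h h' => h.trans h'⟩
  add' := by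
    intro a b c d h h'
    exact (FR_append _ _).symm.trans ((FR_sum h h').trans (FR_append _ _))

/-- the monoid -/
abbrev Tm (P : AddSubmonoid L) : Type := (con P).Quotient

instance (P : AddSubmonoid L) : AddCommMonoid (Tm P) :=
  { (inferInstance : AddMonoid (con P).Quotient) with
    add_comm := by
      intro a b
      induction a using AddCon.induction_on with
      | H a =>
      induction b using AddCon.induction_on with
      | H b =>
      rw [← AddCon.coe_add, ← AddCon.coe_add, AddCon.eq]
      refine (FR_append _ _).symm.trans (FR.trans ?_ (FR_append _ _))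
      exact FR_equiv _ _ (Equiv.sumComm _ _) (by rintro (i | i) <;> rfl) }

/-- the generators -/
def tm {P : AddSubmonoid L} (x : P) (y : dq P) : Tm P :=
  ((FreeAddMonoid.of (x, y) : FreeAddMonoid (Pr P)) : (con P).Quotient)

variable {P : AddSubmonoid L}

theorem tm_add_left (x x' : P) (y : dq P) : tm (x + x') y = tm x y + tm x' y := by
  unfold tm
  rw [← AddCon.coe_add, AddCon.eq]
  show FR (FreeAddMonoid.toList _).get (FreeAddMonoid.toList _).get
  refine FR_x _ _ (fun _ => (0 : Fin 1)) ?_ ?_
  · intro k
    fin_cases k <;> rfl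
  · intro i
    fin_cases i
    show x + x' = ∑ k : Fin 2, _
    rw [Fin.sum_univ_two]
    rfl

theorem tm_zero_left (y : dq P) : tm (0 : P) y = 0 := by
  unfold tm
  rw [← AddCon.coe_zero, AddCon.eq]
  show FR (FreeAddMonoid.toList _).get (FreeAddMonoid.toList _).get
  refine FR_x _ _ (fun k : Fin 0 => k.elim0) ?_ ?_
  · intro k
    exact k.elim0
  · intro i
    fin_cases i
    rfl

theorem tm_add_right (x : P) (y y' : dq P) : tm x (y + y') = tm x y + tm x y' := by
  unfold tm
  rw [← AddCon.coe_add, AddCon.eq]
  show FR (FreeAddMonoid.toList _).get (FreeAddMonoid.toList _).get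
  refine FR_y _ _ (fun _ => (0 : Fin 1)) ?_ ?_
  · intro k
    fin_cases k <;> rfl
  · intro i
    fin_cases i
    show y + y' = ∑ k : Fin 2, _
    rw [Fin.sum_univ_two]
    rfl

theorem tm_zero_right (x : P) : tm x (0 : dq P) = 0 := by
  unfold tm
  rw [← AddCon.coe_zero, AddCon.eq]
  show FR (FreeAddMonoid.toList _).get (FreeAddMonoid.toList _).get
  refine FR_y _ _ (fun k : Fin 0 => k.elim0) ?_ ?_
  · intro k
    exact k.elim0
  · intro i
    fin_cases i
    rfl

/-- `tm` as a bilinear map -/
def tmHom (P : AddSubmonoid L) : ↥P →+ (↥(dq P) →+ Tm P) where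
  toFun x :=
    { toFun := fun y => tm x y
      map_zero' := tm_zero_right x
      map_add' := tm_add_right x }
  map_zero' := by
    ext y
    exact tm_zero_left y
  map_add' := by
    intro x x'
    ext y
    exact tm_add_left x x' y

theorem tmHom_apply (x : P) (y : dq P) : tmHom P x y = tm x y := rfl

/-- the class of a family -/
def cl {ι : Type} [Fintype ι] (z : ι → Pr P) : Tm P := ∑ i, tm (z i).1 (z i).2

theorem mk_eq_cl (a : FreeAddMonoid (Pr P)) :
    ((a : FreeAddMonoid (Pr P)) : (con P).Quotient) = cl (FreeAddMonoid.toList a).get := by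
  induction a using FreeAddMonoid.inductionOn' with
  | zero => rfl
  | of_add p a ih =>
    rw [AddCon.coe_add, ih]
    show _ = ∑ i : Fin ((FreeAddMonoid.toList a).length + 1), _
    rw [Fin.sum_univ_succ]
    rfl

theorem exists_mk {ι : Type} [Fintype ι] (z : ι → Pr P) :
    ∃ a : FreeAddMonoid (Pr P), FR z (FreeAddMonoid.toList a).get ∧
      cl z = ((a : FreeAddMonoid (Pr P)) : (con P).Quotient) := by
  let e : ι ≃ Fin (List.ofFn (fun i => z ((Fintype.equivFin ι).symm i))).length :=
    (Fintype.equivFin ι).trans (finCongr (List.length_ofFn).symm)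
  refine ⟨FreeAddMonoid.ofList (List.ofFn (fun i => z ((Fintype.equivFin ι).symm i))), ?_, ?_⟩
  · refine FR_equiv _ _ e ?_
    intro i
    show (List.ofFn (fun i => z ((Fintype.equivFin ι).symm i))).get (e i) = _
    simp [e]
  · rw [mk_eq_cl]
    show cl z = cl (List.ofFn (fun i => z ((Fintype.equivFin ι).symm i))).get
    unfold cl
    refine Eq.trans ?_ (Equiv.sum_comp e _)
    refine Finset.sum_congr rfl fun i _ => ?_
    simp [e]

theorem FR_of_cl {ι κ : Type} [Fintype ι] [Fintype κ] {z : ι → Pr P} {w : κ → Pr P}
    (h : cl z = cl w) : FR z w := by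
  obtain ⟨a, ha, ha'⟩ := exists_mk z
  obtain ⟨b, hb, hb'⟩ := exists_mk w
  rw [ha', hb', AddCon.eq] at h
  exact ha.trans (FR.trans h hb.symm)

theorem cl_sum {ι κ : Type} [Fintype ι] [Fintype κ] (z : ι → Pr P) (w : κ → Pr P) :
    cl (Sum.elim z w) = cl z + cl w := by
  unfold cl
  rw [Fintype.sum_sum_type]
  rfl

end Pool.Agent.WFS
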