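import Pool.Agent.WFG.Gu

/-!
# Polynomial matrices and strong shift equivalence

`T : Matrix S S ℤ[X]` with nonnegative coefficients and without constant terms describes the graph with
vertices `S` and, for every `d ≥ 1`, `(T i j).coeff d` edges of length `d` from `j` to `i`. `lin D T` is the
linear matrix, with a delay line of length `D` at every target. `Eqv T T'`: the linear matrices are strong
shift equivalent.
-/

set_option autoImplicit false
set_option linter.unusedSectionVars false

namespace Pool.Agent.WFS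

open Polynomial Matrix Pool.Agent.WFG

variable {S S' S'' : Type}

/-- nonnegative coefficients, no constant terms -/
def Pos (T : Matrix S S ℤ[X]) : Prop := ∀ i j, (T i j).coeff 0 = 0 ∧ ∀ d, 0 ≤ (T i j).coeff d

/-- all degrees are at most `D` -/
def Bd (D : ℕ) (T : Matrix S S ℤ[X]) : Prop := ∀ i j d, D < d → (T i j).coeff d = 0

theorem Bd.mono {D E : ℕ} {T : Matrix S S ℤ[X]} (h : Bd D T) (hDE : D ≤ E) : Bd E T :=
  fun i j d hd => h i j d (lt_of_le_of_lt hDE hd)

theorem exists_bd [Fintype S] (T : Matrix S S ℤ[X]) : ∃ D, 1 ≤ D ∧ Bd D T := by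
  classical
  refine ⟨1 + ∑ i, ∑ j, (T i j).natDegree, by omega, ?_⟩
  intro i j d hd
  refine Polynomial.coeff_eq_zero_of_natDegree_lt (lt_of_le_of_lt ?_ hd)
  calc (T i j).natDegree ≤ ∑ j', (T i j').natDegree :=
        Finset.single_le_sum (f := fun j' => (T i j').natDegree) (fun _ _ => Nat.zero_le _)
          (Finset.mem_univ j)
    _ ≤ ∑ i', ∑ j', (T i' j').natDegree :=
        Finset.single_le_sum (f := fun i' => ∑ j', (T i' j').natDegree) (fun _ _ => Nat.zero_le _)
          (Finset.mem_univ i)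
    _ ≤ _ := by omega

/-- the linear matrix -/
def lin (D : ℕ) [DecidableEq S] (T : Matrix S S ℤ[X]) : Matrix (S × Fin D) (S × Fin D) ℕ :=
  fun p q => (if q.2.val = 0 then ((T p.1 q.1).coeff (p.2.val + 1)).toNat else 0) +
    (if p.1 = q.1 ∧ q.2.val = p.2.val + 1 then 1 else 0)

/-- strong shift equivalence of polynomial matrices -/
def Eqv [Fintype S] [DecidableEq S] [Fintype S'] [DecidableEq S'] (T : Matrix S S ℤ[X])
    (T' : Matrix S' S' ℤ[X]) : Prop :=
  ∀ D D', 1 ≤ D → 1 ≤ D' → Bd D T → Bd D' T' → Sse (toFin (lin D T)) (toFin (lin D' T'))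

section gen

/-- reindexing -/
theorem sse_reindex {ι κ : Type} [Fintype ι] [Fintype κ] (A : Matrix ι ι ℕ) (e : κ ≃ ι) :
    Sse (toFin A) (toFin (A.submatrix e e)) := by
  classical
  refine (est_toFin (A.submatrix id e) ((1 : Matrix ι ι ℕ).submatrix e id) ?_ ?_).sse
  · refine Eq.trans ?_ (Matrix.submatrix_mul_equiv A 1 id e id).symm
    simp
  · refine Eq.trans ?_ (Matrix.submatrix_mul_equiv (1 : Matrix ι ι ℕ) A e (Equiv.refl ι) e).symm
    simp

/-- a vertex whose row is zero may be deleted -/
theorem sse_del {ι : Type} [Fintype ι] [DecidableEq ι] (A : Matrix ι ι ℕ) (z : ι)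
    (hz : ∀ j, A z j = 0) :
    Sse (toFin A) (toFin (A.submatrix (Subtype.val : {i // i ≠ z} → ι) Subtype.val)) := by
  let R : Matrix ι {i // i ≠ z} ℕ := Matrix.of fun i j => if i = j.1 then 1 else 0
  refine (est_toFin R (A.submatrix (Subtype.val : {i // i ≠ z} → ι) id) ?_ ?_).sse
  · ext i j
    rw [Matrix.mul_apply]
    by_cases hi : i = z
    · rw [hi, hz, Finset.sum_eq_zero]
      intro x _
      simp [R, x.2.symm]
    · rw [Finset.sum_eq_single (⟨i, hi⟩ : {i // i ≠ z})]
      · simp [R]
      · intro b _ hb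
        have : i ≠ b.1 := fun h => hb (Subtype.ext h.symm)
        simp [R, this]
      · intro h
        exact absurd (Finset.mem_univ _) h
  · ext i j
    rw [Matrix.mul_apply, Finset.sum_eq_single j.1]
    · simp [R]
    · intro b _ hb
      simp [R, hb]
    · intro h
      exact absurd (Finset.mem_univ _) h

/-- a set of vertices which can only be entered from vertices of the set of larger rank may be deleted -/
theorem sse_delSet (m : ℕ) : ∀ {ι : Type} [Fintype ι] [DecidableEq ι] (A : Matrix ι ι ℕ)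
    (Z : ι → Prop) [DecidablePred Z] (ρ : ι → ℕ)
    (_ : ∀ z y, Z z → A z y ≠ 0 → Z y ∧ ρ z < ρ y) (_ : Fintype.card {i // Z i} = m),
    Sse (toFin A) (toFin (A.submatrix (Subtype.val : {i // ¬ Z i} → ι) Subtype.val)) := by
  induction m with
  | zero =>
    intro ι _ _ A Z _ ρ hZ hm
    have h0 : ∀ i, ¬ Z i := by
      intro i hi
      have := Fintype.card_eq_zero_iff.1 hm
      exact this.false ⟨i, hi⟩
    exact sse_reindex A (Equiv.subtypeUnivEquiv h0)
  | succ m ih =>
    intro ι _ _ A Z _ ρ hZ hm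
    have hne : (Finset.univ.filter Z).Nonempty := by
      have : 0 < Fintype.card {i // Z i} := by omega
      obtain ⟨x⟩ := Fintype.card_pos_iff.1 this
      exact ⟨x.1, by simp [x.2]⟩
    obtain ⟨z, hz, hmax⟩ := Finset.exists_max_image _ ρ hne
    rw [Finset.mem_filter] at hz
    have hrow : ∀ j, A z j = 0 := by
      intro j
      by_contra h
      obtain ⟨h1, h2⟩ := hZ z j hz.2 h
      have := hmax j (by simp [h1])
      omega
    refine (sse_del A z hrow).trans ?_
    have h3 := ih (A.submatrix (Subtype.val : {i // i ≠ z} → ι) Subtype.val)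
      (fun i => Z i.1) (fun i => ρ i.1) (fun a b ha hab => hZ a.1 b.1 ha hab) ?_
    · refine h3.trans ?_
      let e : {i : ι // ¬ Z i} ≃ {i : {i : ι // i ≠ z} // ¬ Z i.1} :=
        { toFun := fun i => ⟨⟨i.1, fun h => i.2 (h ▸ hz.2)⟩, i.2⟩
          invFun := fun i => ⟨i.1.1, i.2⟩
          left_inv := fun i => rfl
          right_inv := fun i => rfl }
      exact sse_reindex _ e
    · let e : {i : {i : ι // i ≠ z} // Z i.1} ≃ {i : {i : ι // Z i} // i ≠ ⟨z, hz.2⟩} :=
        { toFun := fun i => ⟨⟨i.1.1, i.2⟩, fun h => i.1.2 (congrArg Subtype.val h)⟩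
          invFun := fun i => ⟨⟨i.1.1, fun h => i.2 (Subtype.ext h)⟩, i.1.2⟩
          left_inv := fun i => rfl
          right_inv := fun i => rfl }
      rw [Fintype.card_congr e, Fintype.card_subtype_compl, Fintype.card_subtype_eq, hm]
      omega

theorem toFin_submatrix {ι : Type} [Fintype ι] (A : Matrix ι ι ℕ) :
    toFin A = ⟨Fintype.card ι, A.submatrix (Fintype.equivFin ι).symm (Fintype.equivFin ι).symm⟩ := rfl

/-- the general move, with the sequence `y j = A' ^ j w` given -/
theorem gu_seq {ι : Type} [Fintype ι] [DecidableEq ι] (A A' : Matrix ι ι ℕ) (x : ι → ℕ)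
    (y : ℕ → ι → ℤ) (d : ℕ) (hA : ∀ i j, (A i j : ℤ) = A' i j + y 0 i * x j)
    (hy : ∀ j i, y (j + 1) i = ∑ l, (A' i l : ℤ) * y j l) (h1 : ∀ i, y d i = 0)
    (h2 : ∀ j, ∑ i, (x i : ℤ) * y j i = 0) : Sse (toFin A) (toFin A') := by
  let e := (Fintype.equivFin ι).symm
  have key : ∀ j, (((A'.submatrix e e).map (Nat.cast : ℕ → ℤ)) ^ j).mulVec (fun i => y 0 (e i)) =
      fun i => y j (e i) := by
    intro j
    induction j with
    | zero => simp
    | succ j ih =>
      rw [pow_succ', ← Matrix.mulVec_mulVec, ih]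
      funext i
      show ∑ l, (A' (e i) (e l) : ℤ) * y j (e l) = y (j + 1) (e i)
      rw [hy]
      exact Equiv.sum_comp e (fun l => (A' (e i) l : ℤ) * y j l)
  refine gu (A.submatrix e e) (A'.submatrix e e) (fun i => y 0 (e i)) (fun i => x (e i)) d ?_ ?_ ?_
  · intro i j
    exact hA (e i) (e j)
  · rw [key]
    funext i
    exact h1 (e i)
  · intro j
    rw [key]
    show ∑ i, (x (e i) : ℤ) * y j (e i) = 0
    rw [Equiv.sum_comp e (fun l => (x l : ℤ) * y j l)]
    exact h2 j

end gen

section basic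

variable [Fintype S] [DecidableEq S] [Fintype S'] [DecidableEq S'] [Fintype S''] [DecidableEq S'']

theorem lin_succ {D : ℕ} {T : Matrix S S ℤ[X]} (h : Bd D T) :
    Sse (toFin (lin (D + 1) T)) (toFin (lin D T)) := by
  refine (sse_delSet _ (lin (D + 1) T) (fun p => p.2.val = D) (fun _ => 0) ?_ rfl).trans ?_
  · rintro ⟨s, a⟩ ⟨s', b⟩ ha hne
    exfalso
    apply hne
    have ha' : a.val = D := ha
    have h1 : (T s s').coeff (D + 1) = 0 := h s s' _ (Nat.lt_succ_self D)
    have h2 : ¬ (s = s' ∧ b.val = D + 1) := fun h => by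
      have := b.2
      omega
    simp [lin, ha', h1, h2]
  · let e : S × Fin D ≃ {p : S × Fin (D + 1) // ¬ p.2.val = D} :=
      { toFun := fun p => ⟨(p.1, p.2.castSucc), fun h => by
          have h' : p.2.val = D := h
          have := p.2.2
          omega⟩
        invFun := fun p => (p.1.1, ⟨p.1.2.val, by
          have h1 := p.1.2.2
          have h2 := p.2
          omega⟩)
        left_inv := fun p => rfl
        right_inv := fun p => rfl }
    exact sse_reindex _ e

theorem lin_indep {D E : ℕ} {T : Matrix S S ℤ[X]} (hD : Bd D T) (hE : Bd E T) :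
    Sse (toFin (lin D T)) (toFin (lin E T)) := by
  have key : ∀ D k : ℕ, Bd D T → Sse (toFin (lin (D + k) T)) (toFin (lin D T)) := by
    intro D k h
    induction k with
    | zero => exact Sse.refl _
    | succ k ih => exact (lin_succ (h.mono (Nat.le_add_right _ _))).trans ih
  rcases le_total D E with h | h
  · obtain ⟨k, rfl⟩ := Nat.exists_eq_add_of_le h
    exact (key D k hD).symm
  · obtain ⟨k, rfl⟩ := Nat.exists_eq_add_of_le h
    exact key E k hE

theorem Eqv.of {T : Matrix S S ℤ[X]} {T' : Matrix S' S' ℤ[X]} {D D' : ℕ} (hD : Bd D T)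
    (hD' : Bd D' T') (h : Sse (toFin (lin D T)) (toFin (lin D' T'))) : Eqv T T' := by
  intro E E' _ _ hE hE'
  exact (lin_indep hE hD).trans (h.trans (lin_indep hD' hE'))

theorem Eqv.refl (T : Matrix S S ℤ[X]) : Eqv T T := by
  intro D D' _ _ h h'
  exact lin_indep h h'

theorem Eqv.symm {T : Matrix S S ℤ[X]} {T' : Matrix S' S' ℤ[X]} (h : Eqv T T') : Eqv T' T :=
  fun D D' h1 h2 h3 h4 => (h D' D h2 h1 h4 h3).symm

theorem Eqv.trans {T : Matrix S S ℤ[X]} {T' : Matrix S' S' ℤ[X]} {T'' : Matrix S'' S'' ℤ[X]}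
    (h : Eqv T T') (h' : Eqv T' T'') : Eqv T T'' := by
  intro D D'' h1 h2 h3 h4
  obtain ⟨D', h5, h6⟩ := exists_bd T'
  exact (h D D' h1 h5 h3 h6).trans (h' D' D'' h5 h2 h6 h4)

/-- reindexing -/
theorem eqv_reindex (T : Matrix S S ℤ[X]) (e : S' ≃ S) : Eqv T (T.submatrix e e) := by
  obtain ⟨D, h1, h2⟩ := exists_bd T
  refine Eqv.of h2 (D' := D) (fun i j => h2 (e i) (e j)) ?_
  have h3 := sse_reindex (lin D T) (e.prodCongr (Equiv.refl (Fin D)))
  have h4 : (lin D T).submatrix (e.prodCongr (Equiv.refl (Fin D))) (e.prodCongr (Equiv.refl (Fin D))) =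
      lin D (T.submatrix e e) := by
    ext p q
    simp [lin]
  rwa [h4] at h3

/-- linear matrices -/
theorem sse_linear (A : Matrix S S ℕ) :
    Sse (toFin A) (toFin (lin 1 (Matrix.of fun i j => C (A i j : ℤ) * X : Matrix S S ℤ[X]))) := by
  have h := sse_reindex A (Equiv.prodUnique S (Fin 1))
  have h4 : A.submatrix (Equiv.prodUnique S (Fin 1)) (Equiv.prodUnique S (Fin 1)) =
      lin 1 (Matrix.of fun i j => C (A i j : ℤ) * X : Matrix S S ℤ[X]) := by
    ext p q
    have hp : p.2.val = 0 := by omega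
    have hq : q.2.val = 0 := by omega
    simp [lin]
  rwa [h4] at h

theorem bd_linear (A : Matrix S S ℕ) :
    Bd 1 (Matrix.of fun i j => C (A i j : ℤ) * X : Matrix S S ℤ[X]) := by
  intro i j d hd
  simp only [Matrix.of_apply, Polynomial.coeff_C_mul, Polynomial.coeff_X]
  rw [if_neg (by omega), mul_zero]

/-- a vertex with zero row may be removed -/
theorem eqv_del (T : Matrix S S ℤ[X]) (v : S) (hv : ∀ j, T v j = 0) :
    Eqv T (T.submatrix (Subtype.val : {i // i ≠ v} → S) Subtype.val) := by
  obtain ⟨D, h1, h2⟩ := exists_bd T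
  refine Eqv.of h2 (D' := D) (fun i j => h2 i.1 j.1) ?_
  refine (sse_delSet _ (lin D T) (fun p => p.1 = v) (fun p => p.2.val) ?_ rfl).trans ?_
  · rintro ⟨s, a⟩ ⟨s', b⟩ ha hne
    have ha' : s = v := ha
    subst ha'
    have h3 : s = s' ∧ b.val = a.val + 1 := by
      by_contra hcon
      apply hne
      simp [lin, hv, hcon]
    refine ⟨h3.1.symm, ?_⟩
    show a.val < b.val
    omega
  · let e : {i : S // i ≠ v} × Fin D ≃ {p : S × Fin D // ¬ p.1 = v} :=
      { toFun := fun p => ⟨(p.1.1, p.2), p.1.2⟩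
        invFun := fun p => (⟨p.1.1, p.2⟩, p.1.2)
        left_inv := fun p => rfl
        right_inv := fun p => rfl }
    have h5 := sse_reindex ((lin D T).submatrix
      (Subtype.val : {p : S × Fin D // ¬ p.1 = v} → S × Fin D) Subtype.val) e
    have h6 : ((lin D T).submatrix (Subtype.val : {p : S × Fin D // ¬ p.1 = v} → S × Fin D)
        Subtype.val).submatrix e e =
        lin D (T.submatrix (Subtype.val : {i // i ≠ v} → S) Subtype.val) := by
      ext p q
      have : (p.1.1 = q.1.1) ↔ (p.1 = q.1) := Subtype.ext_iff.symm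
      simp [lin, e, this]
    rwa [h6] at h5

end basic

section gumove

variable [Fintype S] [DecidableEq S]

/-- the coefficients of the iterates in the proof of `poly_gu` -/
def Yf (T' : Matrix S S ℤ[X]) (u : S → ℤ[X]) (s : S) (j e : ℕ) : ℤ :=
  (u s).coeff (e + j + 1) - ∑ l, ∑ m ∈ Finset.range (e + 1), (T' s l).coeff m *
    (u l).coeff (e + j + 1 - m)

theorem Yf_succ (T' : Matrix S S ℤ[X]) (u : S → ℤ[X]) (s : S) (j e : ℕ) :
    Yf T' u s (j + 1) e = Yf T' u s j (e + 1) + ∑ l, (T' s l).coeff (e + 1) * (u l).coeff (j + 1) := by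
  have h1 : ∑ l, ∑ m ∈ Finset.range (e + 1 + 1), (T' s l).coeff m * (u l).coeff (e + 1 + j + 1 - m) =
      ∑ l, ∑ m ∈ Finset.range (e + 1), (T' s l).coeff m * (u l).coeff (e + (j + 1) + 1 - m) +
        ∑ l, (T' s l).coeff (e + 1) * (u l).coeff (j + 1) := by
    rw [← Finset.sum_add_distrib]
    refine Finset.sum_congr rfl fun l _ => ?_
    rw [Finset.sum_range_succ]
    have e1 : e + 1 + j + 1 = e + (j + 1) + 1 := by omega
    have e2 : e + (j + 1) + 1 - (e + 1) = j + 1 := by omega
    rw [e1, e2]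
  have e1 : e + 1 + j + 1 = e + (j + 1) + 1 := by omega
  unfold Yf
  rw [h1, e1]
  ring

theorem Yf_zero {T' : Matrix S S ℤ[X]} (hT' : Pos T') (u : S → ℤ[X]) (s : S) (j : ℕ) :
    Yf T' u s j 0 = (u s).coeff (j + 1) := by
  unfold Yf
  rw [Finset.sum_eq_zero]
  · simp
  · intro l _
    simp [(hT' s l).1]

theorem coeff_sub_mul (T' : Matrix S S ℤ[X]) (u : S → ℤ[X]) (s : S) (n : ℕ) :
    (u s - ∑ l, T' s l * u l).coeff n = (u s).coeff n -
      ∑ l, ∑ m ∈ Finset.range (n + 1), (T' s l).coeff m * (u l).coeff (n - m) := by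
  rw [Polynomial.coeff_sub, Polynomial.finsetSum_coeff]
  congr 1
  refine Finset.sum_congr rfl fun l _ => ?_
  rw [Polynomial.coeff_mul, Finset.Nat.sum_antidiagonal_eq_sum_range_succ_mk]

/-- THE POLYNOMIAL MOVE: `T - T' = ((1 - T') u) xᵀ` with `x ≥ 0` constant and `x · u = 0` -/
theorem poly_gu {T T' : Matrix S S ℤ[X]} (hT : Pos T) (hT' : Pos T') (x : S → ℕ) (u : S → ℤ[X])
    (hx : ∑ j, (x j : ℤ[X]) * u j = 0)
    (h : ∀ i j, T i j - T' i j = (u i - ∑ l, T' i l * u l) * (x j : ℤ[X])) : Eqv T T' := by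
  by_cases hx0 : ∀ j, x j = 0
  · have : T = T' := by
      ext1 i j
      have h1 := h i j
      rw [hx0 j, Nat.cast_zero, mul_zero] at h1
      exact sub_eq_zero.1 h1
    rw [this]
    exact Eqv.refl _
  push Not at hx0
  obtain ⟨j0, hj0⟩ := hx0
  obtain ⟨D1, -, hD1⟩ := exists_bd T
  obtain ⟨D2, -, hD2⟩ := exists_bd T'
  let D0 := D1 + D2
  have hB : Bd (D0 + 1) T := hD1.mono (by omega)
  have hB' : Bd (D0 + 1) T' := hD2.mono (by omega)
  have hj0' : (x j0 : ℤ) ≠ 0 := by exact_mod_cast hj0
  have hcz : ∀ s n, (T s j0).coeff n - (T' s j0).coeff n = 0 →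
      (u s - ∑ l, T' s l * u l).coeff n = 0 := by
    intro s n h0
    have h1 := congrArg (fun q => Polynomial.coeff q n) (h s j0)
    simp only [Polynomial.coeff_sub] at h1
    rw [h0, ← Polynomial.C_eq_natCast, Polynomial.coeff_mul_C] at h1
    have h2 := (mul_eq_zero.1 h1.symm).resolve_right (by simpa using hj0')
    exact h2
  have hu0 : ∀ s, (u s).coeff 0 = 0 := by
    intro s
    have h1 := hcz s 0 (by rw [(hT s j0).1, (hT' s j0).1, sub_zero])
    rw [coeff_sub_mul] at h1
    simp only [zero_add, Finset.range_one, Finset.sum_singleton, (hT' _ _).1, zero_mul,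
      Finset.sum_const_zero, sub_zero] at h1
    exact h1
  have hYD : ∀ s j, Yf T' u s j (D0 + 1) = 0 := by
    intro s j
    have h1 := hcz s (D0 + 1 + j + 1) (by rw [hB s j0 _ (by omega), hB' s j0 _ (by omega), sub_zero])
    rw [coeff_sub_mul] at h1
    have h2 : ∀ l, ∑ m ∈ Finset.range (D0 + 1 + j + 1 + 1), (T' s l).coeff m *
        (u l).coeff (D0 + 1 + j + 1 - m) = ∑ m ∈ Finset.range (D0 + 1 + 1), (T' s l).coeff m *
        (u l).coeff (D0 + 1 + j + 1 - m) := by
      intro l
      symm
      refine Finset.sum_subset (fun a ha => ?_) (fun a _ ha => ?_)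
      · rw [Finset.mem_range] at ha ⊢
        omega
      · rw [Finset.mem_range] at ha
        rw [hB' s l a (by omega), zero_mul]
    rw [Finset.sum_congr rfl fun l _ => h2 l] at h1
    exact h1
  have hYw : ∀ s e, Yf T' u s 0 e = (u s - ∑ l, T' s l * u l).coeff (e + 1) := by
    intro s e
    rw [coeff_sub_mul]
    unfold Yf
    congr 1
    refine Finset.sum_congr rfl fun l _ => ?_
    rw [Finset.sum_range_succ _ (e + 1)]
    simp [hu0 l]
  have hcast : ∀ (U : Matrix S S ℤ[X]), Pos U → ∀ i j d, (((U i j).coeff d).toNat : ℤ) =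
      (U i j).coeff d := fun U hU i j d => Int.toNat_of_nonneg ((hU i j).2 d)
  obtain ⟨d, hd⟩ : ∃ d, ∀ s n, d < n → (u s).coeff n = 0 := by
    refine ⟨∑ s, (u s).natDegree, fun s n hn => Polynomial.coeff_eq_zero_of_natDegree_lt
      (lt_of_le_of_lt ?_ hn)⟩
    exact Finset.single_le_sum (f := fun s => (u s).natDegree) (fun _ _ => Nat.zero_le _)
      (Finset.mem_univ s)
  refine Eqv.of hB hB' (gu_seq (lin (D0 + 1) T) (lin (D0 + 1) T')
    (fun q => if q.2.val = 0 then x q.1 else 0) (fun j p => Yf T' u p.1 j p.2.val) d ?_ ?_ ?_ ?_)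
  · rintro ⟨s, a⟩ ⟨s', b⟩
    simp only [lin]
    by_cases hb : b.val = 0
    · simp only [hb, if_true]
      push_cast
      rw [hcast T hT, hcast T' hT', hYw]
      have h1 := congrArg (fun q => Polynomial.coeff q (a.val + 1)) (h s s')
      simp only [Polynomial.coeff_sub] at h1
      rw [← Polynomial.C_eq_natCast, Polynomial.coeff_mul_C] at h1
      linarith
    · simp only [hb, if_false]
      simp
  · intro j
    rintro ⟨s, a⟩
    simp only [lin]
    rw [Fintype.sum_prod_type]
    have h1 : ∀ l : S, ∑ b : Fin (D0 + 1), ((((if b.val = 0 then ((T' s l).coeff (a.val + 1)).toNat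
        else 0) + (if s = l ∧ b.val = a.val + 1 then 1 else 0) : ℕ) : ℤ) * Yf T' u l j b.val) =
        (T' s l).coeff (a.val + 1) * (u l).coeff (j + 1) +
          (if s = l then (if a.val + 1 < D0 + 1 then Yf T' u l j (a.val + 1) else 0) else 0) := by
      intro l
      have h2 : ∀ b : Fin (D0 + 1), ((((if b.val = 0 then ((T' s l).coeff (a.val + 1)).toNat
        else 0) + (if s = l ∧ b.val = a.val + 1 then 1 else 0) : ℕ) : ℤ) * Yf T' u l j b.val) =
        (if b.val = 0 then (T' s l).coeff (a.val + 1) * (u l).coeff (j + 1) else 0) +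
        (if s = l ∧ b.val = a.val + 1 then Yf T' u l j (a.val + 1) else 0) := by
        intro b
        push_cast
        rw [add_mul]
        congr 1
        · by_cases hb : b.val = 0
          · rw [if_pos hb, if_pos hb, hcast T' hT', hb, Yf_zero hT']
          · simp [hb]
        · by_cases hb : s = l ∧ b.val = a.val + 1
          · rw [if_pos hb, if_pos hb, one_mul, hb.2]
          · simp [hb]
      rw [Finset.sum_congr rfl fun b _ => h2 b, Finset.sum_add_distrib]
      congr 1
      · rw [Finset.sum_eq_single (0 : Fin (D0 + 1))]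
        · simp
        · intro b _ hb
          rw [if_neg]
          intro h0
          exact hb (Fin.ext h0)
        · intro hc
          exact absurd (Finset.mem_univ _) hc
      · by_cases hsl : s = l
        · simp only [hsl, true_and, if_true]
          by_cases ha : a.val + 1 < D0 + 1
          · rw [if_pos ha, Finset.sum_eq_single (⟨a.val + 1, ha⟩ : Fin (D0 + 1))]
            · simp
            · intro b _ hb
              rw [if_neg]
              intro h0
              exact hb (Fin.ext h0)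
            · intro hc
              exact absurd (Finset.mem_univ _) hc
          · rw [if_neg ha, Finset.sum_eq_zero]
            intro b _
            rw [if_neg]
            have := b.2
            omega
        · simp [hsl]
    rw [Finset.sum_congr rfl fun l _ => h1 l, Finset.sum_add_distrib, Finset.sum_ite_eq,
      if_pos (Finset.mem_univ _), Yf_succ]
    have h3 : (if a.val + 1 < D0 + 1 then Yf T' u s j (a.val + 1) else 0) =
        Yf T' u s j (a.val + 1) := by
      by_cases ha : a.val + 1 < D0 + 1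
      · rw [if_pos ha]
      · rw [if_neg ha]
        have h4 : a.val + 1 = D0 + 1 := by
          have := a.2
          omega
        rw [h4, hYD]
    rw [h3, add_comm]
  · rintro ⟨s, a⟩
    show Yf T' u s d a.val = 0
    unfold Yf
    rw [hd s _ (by omega), Finset.sum_eq_zero, sub_zero]
    intro l _
    refine Finset.sum_eq_zero fun m hm => ?_
    rw [Finset.mem_range] at hm
    rw [hd l _ (by omega), mul_zero]
  · intro j
    rw [Fintype.sum_prod_type]
    have h1 : ∀ s : S, ∑ a : Fin (D0 + 1), (((if a.val = 0 then x s else 0 : ℕ) : ℤ) *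
        Yf T' u s j a.val) = (x s : ℤ) * (u s).coeff (j + 1) := by
      intro s
      rw [Finset.sum_eq_single (0 : Fin (D0 + 1))]
      · simp [Yf_zero hT']
      · intro b _ hb
        rw [if_neg]
        · simp
        · intro h0
          exact hb (Fin.ext h0)
      · intro hc
        exact absurd (Finset.mem_univ _) hc
    rw [Finset.sum_congr rfl fun s _ => h1 s]
    have h2 := congrArg (fun q => Polynomial.coeff q (j + 1)) hx
    simp only [Polynomial.finsetSum_coeff, Polynomial.coeff_zero] at h2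
    rw [← h2]
    refine Finset.sum_congr rfl fun s _ => ?_
    rw [← Polynomial.C_eq_natCast, Polynomial.coeff_C_mul]

end gumove

end Pool.Agent.WFS
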