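import Pool.Agent.WFS.PolyLin

/-!
# Polynomial matrices: swapping a constant factor, merging, elimination, the column move
-/

set_option autoImplicit false
set_option linter.unusedSectionVars false

namespace Pool.Agent.WFS

open Polynomial Matrix Pool.Agent.WFG

variable {S W : Type}

section swap

variable [Fintype S] [DecidableEq S] [Fintype W] [DecidableEq W]

/-- the master matrix on `(S ⊕ W) × Fin D`; `Q a w s` is the coefficient of degree `a + 1` -/
def swN (D : ℕ) (P : S → W → ℕ) (Q : ℕ → W → S → ℕ) : (S ⊕ W) × Fin D → (S ⊕ W) × Fin D → ℕ :=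
  fun x y => match x, y with
  | (Sum.inl s, a), (Sum.inl s', b) =>
      (if b.val = 0 then ∑ w, P s w * Q a.val w s' else 0) + (if s = s' ∧ b.val = a.val + 1 then 1 else 0)
  | (Sum.inl s, a), (Sum.inr w', b) =>
      (if b.val = 0 then ∑ w, P s w * ∑ s', Q a.val w s' * P s' w' else 0) +
        (if b.val = a.val + 1 then P s w' else 0)
  | (Sum.inr w, a), (Sum.inl s', b) => if b.val = 0 then Q a.val w s' else 0
  | (Sum.inr w, a), (Sum.inr w', b) =>
      (if b.val = 0 then ∑ s', Q a.val w s' * P s' w' else 0) + (if w = w' ∧ b.val = a.val + 1 then 1 else 0)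

/-- the vertices of the stage `m` -/
def swV {D : ℕ} (m : ℕ) (x : (S ⊕ W) × Fin D) : ℕ :=
  match x with
  | (Sum.inl _, a) => if a.val < m then 1 else 0
  | (Sum.inr _, a) => if m ≤ a.val then 1 else 0

/-- the transfer -/
def swR {D : ℕ} (P : S → W → ℕ) (k : ℕ) (x y : (S ⊕ W) × Fin D) : ℕ :=
  match x, y with
  | (Sum.inl s, a), (Sum.inl s', b) => if a.val < k ∧ s = s' ∧ a = b then 1 else 0
  | (Sum.inl s, a), (Sum.inr w', b) => if a.val = k ∧ a = b then P s w' else 0
  | (Sum.inr _, _), (Sum.inl _, _) => 0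
  | (Sum.inr w, a), (Sum.inr w', b) => if k < a.val ∧ w = w' ∧ a = b then 1 else 0

theorem swR_mul_inl {D : ℕ} (P : S → W → ℕ) (k : ℕ) (s : S) (a : Fin D)
    (f : (S ⊕ W) × Fin D → ℕ) : ∑ y, swR P k (Sum.inl s, a) y * f y =
      (if a.val < k then f (Sum.inl s, a) else 0) + (if a.val = k then ∑ w, P s w * f (Sum.inr w, a) else 0) := by
  rw [Fintype.sum_prod_type, Fintype.sum_sum_type]
  congr 1
  · rw [Finset.sum_eq_single s, Finset.sum_eq_single a]
    · simp [swR]
    · intro b _ hb
      simp [swR, hb.symm]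
    · intro h
      exact absurd (Finset.mem_univ _) h
    · intro s' _ hs
      refine Finset.sum_eq_zero fun b _ => ?_
      simp [swR, hs.symm]
    · intro h
      exact absurd (Finset.mem_univ _) h
  · by_cases ha : a.val = k
    · rw [if_pos ha]
      refine Finset.sum_congr rfl fun w _ => ?_
      rw [Finset.sum_eq_single a]
      · simp [swR, ha]
      · intro b _ hb
        simp [swR, hb.symm]
      · intro h
        exact absurd (Finset.mem_univ _) h
    · rw [if_neg ha]
      refine Finset.sum_eq_zero fun w _ => Finset.sum_eq_zero fun b _ => ?_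
      simp [swR, ha]

theorem swR_mul_inr {D : ℕ} (P : S → W → ℕ) (k : ℕ) (w : W) (a : Fin D)
    (f : (S ⊕ W) × Fin D → ℕ) : ∑ y, swR P k (Sum.inr w, a) y * f y =
      (if k < a.val then f (Sum.inr w, a) else 0) := by
  rw [Fintype.sum_prod_type, Fintype.sum_sum_type]
  rw [Finset.sum_eq_zero, zero_add]
  · rw [Finset.sum_eq_single w, Finset.sum_eq_single a]
    · simp [swR]
    · intro b _ hb
      simp [swR, hb.symm]
    · intro h
      exact absurd (Finset.mem_univ _) h
    · intro s' _ hs
      refine Finset.sum_eq_zero fun b _ => ?_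
      simp [swR, hs.symm]
    · intro h
      exact absurd (Finset.mem_univ _) h
  · intro s _
    refine Finset.sum_eq_zero fun b _ => ?_
    simp [swR]

theorem mul_swR_inl {D : ℕ} (P : S → W → ℕ) (k : ℕ) (s : S) (a : Fin D)
    (f : (S ⊕ W) × Fin D → ℕ) : ∑ y, f y * swR P k y (Sum.inl s, a) =
      (if a.val < k then f (Sum.inl s, a) else 0) := by
  rw [Fintype.sum_prod_type, Fintype.sum_sum_type]
  rw [Finset.sum_eq_single s, Finset.sum_eq_single a, Finset.sum_eq_zero (s := Finset.univ)
    (f := fun w : W => ∑ y, f (Sum.inr w, y) * swR P k (Sum.inr w, y) (Sum.inl s, a)), add_zero]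
  · simp [swR]
  · intro s _
    refine Finset.sum_eq_zero fun b _ => ?_
    simp [swR]
  · intro b _ hb
    simp [swR, hb]
  · intro h
    exact absurd (Finset.mem_univ _) h
  · intro s' _ hs
    refine Finset.sum_eq_zero fun b _ => ?_
    simp [swR, hs]
  · intro h
    exact absurd (Finset.mem_univ _) h

theorem mul_swR_inr {D : ℕ} (P : S → W → ℕ) (k : ℕ) (w : W) (a : Fin D)
    (f : (S ⊕ W) × Fin D → ℕ) : ∑ y, f y * swR P k y (Sum.inr w, a) =
      (if a.val = k then ∑ s, f (Sum.inl s, a) * P s w else 0) + (if k < a.val then f (Sum.inr w, a) else 0) := by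
  rw [Fintype.sum_prod_type, Fintype.sum_sum_type]
  congr 1
  · by_cases ha : a.val = k
    · rw [if_pos ha]
      refine Finset.sum_congr rfl fun s _ => ?_
      rw [Finset.sum_eq_single a]
      · simp [swR, ha]
      · intro b _ hb
        simp [swR, hb]
      · intro h
        exact absurd (Finset.mem_univ _) h
    · rw [if_neg ha]
      refine Finset.sum_eq_zero fun w _ => Finset.sum_eq_zero fun b _ => ?_
      by_cases hb : b = a
      · subst hb
        simp [swR, ha]
      · simp [swR, hb]
  · rw [Finset.sum_eq_single w, Finset.sum_eq_single a]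
    · simp [swR]
    · intro b _ hb
      simp [swR, hb]
    · intro h
      exact absurd (Finset.mem_univ _) h
    · intro s' _ hs
      refine Finset.sum_eq_zero fun b _ => ?_
      simp [swR, hs]
    · intro h
      exact absurd (Finset.mem_univ _) h

/-- the matrix of the stage `m` -/
def swM (D : ℕ) (P : S → W → ℕ) (Q : ℕ → W → S → ℕ) (m : ℕ) :
    Matrix ((S ⊕ W) × Fin D) ((S ⊕ W) × Fin D) ℕ :=
  fun x y => swV m x * (swV m y * swN D P Q x y)

theorem sw_step (D : ℕ) (P : S → W → ℕ) (Q : ℕ → W → S → ℕ) (k : ℕ) :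
    Sse (toFin (swM D P Q (k + 1))) (toFin (swM D P Q k)) := by
  refine (est_toFin (swR P k : Matrix ((S ⊕ W) × Fin D) ((S ⊕ W) × Fin D) ℕ)
    (fun x y => swV k x * (swV (k + 1) y * swN D P Q x y)) ?_ ?_).sse
  · ext x z
    rw [Matrix.mul_apply]
    obtain ⟨x | x, a⟩ := x
    · rw [swR_mul_inl]
      rcases lt_trichotomy a.val k with h | h | h
      · simp [swM, swV, h, h.ne, Nat.lt_succ_of_lt h]
      · obtain ⟨z | z, b⟩ := z
        · by_cases hb : b.val < k + 1
          · have hb2 : b.val ≠ a.val + 1 := by omega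
            simp only [swM, swV, swN, h, lt_irrefl, if_true, if_false, hb, le_refl, Nat.lt_succ_self,
              one_mul, zero_add]
            rw [h] at hb2
            by_cases hb0 : b.val = 0
            · simp [hb0]
            · simp [hb0, hb2]
          · simp [swM, swV, hb, h]
        · by_cases hb : k + 1 ≤ b.val
          · simp only [swM, swV, swN, h, lt_irrefl, if_true, if_false, hb, le_refl, Nat.lt_succ_self,
              one_mul, zero_add]
            have hb0 : b.val ≠ 0 := by omega
            by_cases hb2 : b.val = k + 1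
            · simp [hb2]
            · simp [hb0, hb2]
          · simp [swM, swV, hb, h]
      · have h1 : ¬ a.val < k := by omega
        have h2 : ¬ a.val = k := by omega
        have h3 : ¬ a.val < k + 1 := by omega
        simp [swM, swV, h1, h2, h3]
    · rw [swR_mul_inr]
      by_cases h : k < a.val
      · simp [swM, swV, h, h.le, Nat.succ_le_of_lt h]
      · have h2 : ¬ k + 1 ≤ a.val := by omega
        simp [swM, swV, h, h2]
  · ext x z
    rw [Matrix.mul_apply]
    obtain ⟨z | z, a⟩ := z
    · rw [mul_swR_inl]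
      by_cases h : a.val < k
      · simp [swM, swV, h, Nat.lt_succ_of_lt h]
      · simp [swM, swV, h]
    · rw [mul_swR_inr]
      rcases lt_trichotomy a.val k with h | h | h
      · have h1 : ¬ k ≤ a.val := by omega
        have h2 : ¬ a.val = k := by omega
        have h3 : ¬ k < a.val := by omega
        simp [swM, swV, h1, h2, h3]
      · obtain ⟨x | x, b⟩ := x
        · by_cases hb : b.val < k
          · simp only [swM, swV, swN, h, lt_irrefl, if_true, if_false, hb, le_refl, Nat.lt_succ_self,
              one_mul, add_zero]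
            by_cases hk0 : k = 0
            · omega
            · by_cases hk1 : k = b.val + 1
              · simp [hk1]
              · simp [hk0, hk1]
          · simp [swM, swV, hb]
        · by_cases hb : k ≤ b.val
          · simp only [swM, swV, swN, h, lt_irrefl, if_true, if_false, hb, le_refl, Nat.lt_succ_self,
              one_mul, add_zero]
            have hk1 : k ≠ b.val + 1 := by omega
            by_cases hk0 : k = 0
            · simp [hk0]
            · simp [hk0, hk1]
          · simp [swM, swV, hb]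
      · have h1 : k ≤ a.val := by omega
        have h2 : ¬ a.val = k := by omega
        have h3 : k + 1 ≤ a.val := by omega
        simp [swM, swV, h1, h2, h3, h]

theorem sw_steps (D : ℕ) (P : S → W → ℕ) (Q : ℕ → W → S → ℕ) (k : ℕ) :
    Sse (toFin (swM D P Q k)) (toFin (swM D P Q 0)) := by
  induction k with
  | zero => exact Sse.refl _
  | succ k ih => exact (sw_step D P Q k).trans ih

/-- SWAPPING A CONSTANT FACTOR -/
theorem eqv_swap (P : Matrix S W ℕ) (Q : Matrix W S ℤ[X])
    (hQ : ∀ w s, (Q w s).coeff 0 = 0 ∧ ∀ d, 0 ≤ (Q w s).coeff d) :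
    Eqv (P.map (Nat.cast : ℕ → ℤ[X]) * Q) (Q * P.map (Nat.cast : ℕ → ℤ[X])) := by
  obtain ⟨D1, h1, h1'⟩ := exists_bd (P.map (Nat.cast : ℕ → ℤ[X]) * Q)
  obtain ⟨D2, h2, h2'⟩ := exists_bd (Q * P.map (Nat.cast : ℕ → ℤ[X]))
  have hB1 : Bd (D1 + D2) (P.map (Nat.cast : ℕ → ℤ[X]) * Q) := h1'.mono (by omega)
  have hB2 : Bd (D1 + D2) (Q * P.map (Nat.cast : ℕ → ℤ[X])) := h2'.mono (by omega)
  refine Eqv.of hB1 hB2 ?_
  let Q' : ℕ → W → S → ℕ := fun a w s => ((Q w s).coeff (a + 1)).toNat
  have hc : ∀ a w s, ((Q' a w s : ℕ) : ℤ) = (Q w s).coeff (a + 1) := fun a w s =>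
    Int.toNat_of_nonneg ((hQ w s).2 _)
  have e1 : ∀ a s s', (((P.map (Nat.cast : ℕ → ℤ[X]) * Q) s s').coeff (a + 1)).toNat =
      ∑ w, P s w * Q' a w s' := by
    intro a s s'
    rw [Matrix.mul_apply, Polynomial.finsetSum_coeff]
    have : ∑ w, (P.map (Nat.cast : ℕ → ℤ[X]) s w * Q w s').coeff (a + 1) =
        ((∑ w, P s w * Q' a w s' : ℕ) : ℤ) := by
      push_cast
      refine Finset.sum_congr rfl fun w _ => ?_
      rw [hc, Matrix.map_apply, ← Polynomial.C_eq_natCast, Polynomial.coeff_C_mul]
    rw [this, Int.toNat_natCast]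
  have e2 : ∀ a w w', (((Q * P.map (Nat.cast : ℕ → ℤ[X])) w w').coeff (a + 1)).toNat =
      ∑ s', Q' a w s' * P s' w' := by
    intro a w w'
    rw [Matrix.mul_apply, Polynomial.finsetSum_coeff]
    have : ∑ s', (Q w s' * P.map (Nat.cast : ℕ → ℤ[X]) s' w').coeff (a + 1) =
        ((∑ s', Q' a w s' * P s' w' : ℕ) : ℤ) := by
      push_cast
      refine Finset.sum_congr rfl fun s' _ => ?_
      rw [hc, Matrix.map_apply, ← Polynomial.C_eq_natCast, Polynomial.coeff_mul_C]
    rw [this, Int.toNat_natCast]
  have h3 : Sse (toFin (lin (D1 + D2) (P.map (Nat.cast : ℕ → ℤ[X]) * Q)))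
      (toFin (swM (D1 + D2) P Q' (D1 + D2))) := by
    refine Sse.symm ?_
    refine (sse_delSet _ (swM (D1 + D2) P Q' (D1 + D2)) (fun x => swV (D1 + D2) x = 0) (fun _ => 0)
      ?_ rfl).trans ?_
    · intro z y hz hne
      exfalso
      apply hne
      simp [swM, hz]
    · let e : S × Fin (D1 + D2) ≃ {x : (S ⊕ W) × Fin (D1 + D2) // ¬ swV (D1 + D2) x = 0} :=
        { toFun := fun p => ⟨(Sum.inl p.1, p.2), by simp [swV]⟩
          invFun := fun p => (match p with
            | ⟨(Sum.inl s, a), _⟩ => (s, a)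
            | ⟨(Sum.inr w, a), h⟩ => absurd (by simp [swV]) h)
          left_inv := fun p => rfl
          right_inv := fun p => by
            obtain ⟨⟨p | p, a⟩, h⟩ := p
            · rfl
            · exact absurd (by simp [swV]) h }
      have h5 := sse_reindex ((swM (D1 + D2) P Q' (D1 + D2)).submatrix
        (Subtype.val : {x : (S ⊕ W) × Fin (D1 + D2) // ¬ swV (D1 + D2) x = 0} → _) Subtype.val) e
      have h6 : ((swM (D1 + D2) P Q' (D1 + D2)).submatrix
          (Subtype.val : {x : (S ⊕ W) × Fin (D1 + D2) // ¬ swV (D1 + D2) x = 0} → _)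
          Subtype.val).submatrix e e = lin (D1 + D2) (P.map (Nat.cast : ℕ → ℤ[X]) * Q) := by
        ext p q
        show swV (D1 + D2) (Sum.inl p.1, p.2) * (swV (D1 + D2) (Sum.inl q.1, q.2) *
          swN _ P Q' (Sum.inl p.1, p.2) (Sum.inl q.1, q.2)) = _
        simp only [swV, swN, lin, Fin.is_lt, if_true, one_mul, e1]
      rwa [h6] at h5
  have h4 : Sse (toFin (swM (D1 + D2) P Q' 0))
      (toFin (lin (D1 + D2) (Q * P.map (Nat.cast : ℕ → ℤ[X])))) := by
    refine (sse_delSet _ (swM (D1 + D2) P Q' 0) (fun x => swV 0 x = 0) (fun _ => 0)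
      ?_ rfl).trans ?_
    · intro z y hz hne
      exfalso
      apply hne
      simp [swM, hz]
    · let e : W × Fin (D1 + D2) ≃ {x : (S ⊕ W) × Fin (D1 + D2) // ¬ swV 0 x = 0} :=
        { toFun := fun p => ⟨(Sum.inr p.1, p.2), by simp [swV]⟩
          invFun := fun p => (match p with
            | ⟨(Sum.inr s, a), _⟩ => (s, a)
            | ⟨(Sum.inl w, a), h⟩ => absurd (by simp [swV]) h)
          left_inv := fun p => rfl
          right_inv := fun p => by
            obtain ⟨⟨p | p, a⟩, h⟩ := p
            · exact absurd (by simp [swV]) h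
            · rfl }
      have h5 := sse_reindex ((swM (D1 + D2) P Q' 0).submatrix
        (Subtype.val : {x : (S ⊕ W) × Fin (D1 + D2) // ¬ swV 0 x = 0} → _) Subtype.val) e
      have h6 : ((swM (D1 + D2) P Q' 0).submatrix
          (Subtype.val : {x : (S ⊕ W) × Fin (D1 + D2) // ¬ swV 0 x = 0} → _)
          Subtype.val).submatrix e e = lin (D1 + D2) (Q * P.map (Nat.cast : ℕ → ℤ[X])) := by
        ext p q
        show swV 0 (Sum.inr p.1, p.2) * (swV 0 (Sum.inr q.1, q.2) *
          swN _ P Q' (Sum.inr p.1, p.2) (Sum.inr q.1, q.2)) = _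
        simp only [swV, swN, lin, Nat.zero_le, if_true, one_mul, e2]
      rwa [h6] at h5
  exact h3.trans ((sw_steps _ P Q' _).trans h4)

end swap

section moves

variable [Fintype S] [DecidableEq S] [Fintype W] [DecidableEq W]

/-- MERGING: the columns of `T` are constant on the fibres of `π` -/
theorem eqv_merge (π : S → W) (T : Matrix S S ℤ[X]) (Q : Matrix S W ℤ[X])
    (hQ : ∀ s w, (Q s w).coeff 0 = 0 ∧ ∀ d, 0 ≤ (Q s w).coeff d)
    (hT : ∀ s s', T s s' = Q s (π s')) :
    Eqv T (Matrix.of fun w w' => ∑ s, if π s = w then Q s w' else 0) := by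
  let P : Matrix W S ℕ := Matrix.of fun w s => if π s = w then 1 else 0
  have h := (eqv_swap P Q hQ).symm
  have h1 : Q * P.map (Nat.cast : ℕ → ℤ[X]) = T := by
    ext1 s s'
    rw [Matrix.mul_apply, Finset.sum_eq_single (π s'), hT]
    · simp [P]
    · intro w _ hw
      simp [P, hw.symm]
    · intro h
      exact absurd (Finset.mem_univ _) h
  have h2 : P.map (Nat.cast : ℕ → ℤ[X]) * Q =
      (Matrix.of fun w w' => ∑ s, if π s = w then Q s w' else 0) := by
    ext1 w w'
    rw [Matrix.mul_apply, Matrix.of_apply]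
    refine Finset.sum_congr rfl fun s _ => ?_
    by_cases hs : π s = w
    · simp [P, hs]
    · simp [P, hs]
  rwa [h1, h2] at h

/-- THE COLUMN MOVE: `T` and `T'` differ in the column `v` only, and there by `(1 - T') u` with `u v = 0` -/
theorem eqv_col {T T' : Matrix S S ℤ[X]} (hT : Pos T) (hT' : Pos T') (v : S) (u : S → ℤ[X])
    (hv : u v = 0) (h0 : ∀ i j, j ≠ v → T i j = T' i j)
    (h : ∀ i, T i v - T' i v = u i - ∑ l, T' i l * u l) : Eqv T T' := by
  refine poly_gu hT hT' (fun j => if j = v then 1 else 0) u ?_ ?_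
  · refine Finset.sum_eq_zero fun j _ => ?_
    by_cases hj : j = v
    · simp [hj, hv]
    · simp [hj]
  · intro i j
    by_cases hj : j = v
    · subst hj
      simp [h i]
    · simp [hj, h0 i j hj]

/-- the elimination of `v` in the columns of the finite set `F` -/
noncomputable def elimF (T : Matrix S S ℤ[X]) (v : S) (F : Finset S) : Matrix S S ℤ[X] := Matrix.of fun s s' =>
  if s' ∈ F then (if s = v then 0 else T s s' + T s v * T v s') else T s s'

theorem pos_elimF {T : Matrix S S ℤ[X]} (hT : Pos T) (v : S) (F : Finset S) : Pos (elimF T v F) := by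
  intro i j
  unfold elimF
  rw [Matrix.of_apply]
  split_ifs with h1 h2
  · simp
  · refine ⟨?_, fun d => ?_⟩
    · rw [Polynomial.coeff_add, Polynomial.mul_coeff_zero, (hT i j).1, (hT i v).1]
      simp
    · rw [Polynomial.coeff_add, Polynomial.coeff_mul]
      refine add_nonneg ((hT i j).2 d) (Finset.sum_nonneg fun p _ => mul_nonneg ((hT _ _).2 _)
        ((hT _ _).2 _))
  · exact hT i j

/-- ELIMINATION of a vertex without loops -/
theorem eqv_elim {T : Matrix S S ℤ[X]} (hT : Pos T) (v : S) (hv : T v v = 0) :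
    Eqv T (Matrix.of fun (s s' : {s // s ≠ v}) => T s.1 s'.1 + T s.1 v * T v s'.1) := by
  have key : ∀ F : Finset S, v ∉ F → Eqv T (elimF T v F) := by
    intro F
    induction F using Finset.induction_on with
    | empty =>
      intro _
      have : elimF T v ∅ = T := by
        ext1 i j
        simp [elimF]
      rw [this]
      exact Eqv.refl _
    | insert a F ha ih =>
      intro hvF
      rw [Finset.mem_insert, not_or] at hvF
      refine (ih hvF.2).trans ?_
      refine eqv_col (pos_elimF hT v F) (pos_elimF hT v _) a (fun l => if l = v then T v a else 0) ?_ ?_ ?_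
      · rw [if_neg (Ne.symm hvF.1)]
      · intro i j hj
        simp [elimF, hj]
      · intro i
        rw [Finset.sum_eq_single v]
        · by_cases hi : i = v
          · subst hi
            simp [elimF, ha, hvF.2, hvF.1, hv]
          · simp [elimF, ha, hvF.2, hvF.1, hi]
        · intro l _ hl
          simp [hl]
        · intro h
          exact absurd (Finset.mem_univ _) h
  refine (key (Finset.univ.erase v) (Finset.notMem_erase _ _)).trans ?_
  -- column `v` is unchanged; the row of `v` is zero
  have hrow : ∀ j, elimF T v (Finset.univ.erase v) v j = 0 := by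
    intro j
    by_cases hj : j = v
    · subst hj
      simp [elimF, hv]
    · simp [elimF, hj]
  have h := eqv_del _ v hrow
  have e : (elimF T v (Finset.univ.erase v)).submatrix (Subtype.val : {i // i ≠ v} → S) Subtype.val =
      (Matrix.of fun (s s' : {s // s ≠ v}) => T s.1 s'.1 + T s.1 v * T v s'.1) := by
    ext1 i j
    simp [elimF, i.2, j.2]
  rwa [e] at h

/-- the class of a matrix over `ℕ` -/
theorem sse_of_eqv {k k' : ℕ} (A : Matrix (Fin k) (Fin k) ℕ) (B : Matrix (Fin k') (Fin k') ℕ)
    (h : Eqv (Matrix.of fun i j => C (A i j : ℤ) * X : Matrix (Fin k) (Fin k) ℤ[X])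
      (Matrix.of fun i j => C (B i j : ℤ) * X : Matrix (Fin k') (Fin k') ℤ[X])) :
    Sse ⟨k, A⟩ ⟨k', B⟩ :=
  (sse_toFin_fin A).trans ((sse_linear A).trans ((h 1 1 le_rfl le_rfl (bd_linear A)
    (bd_linear B)).trans ((sse_linear B).symm.trans (sse_toFin_fin B).symm)))

theorem eqv_of_sse {S S' : Type} [Fintype S] [DecidableEq S] [Fintype S'] [DecidableEq S']
    (A : Matrix S S ℕ) (B : Matrix S' S' ℕ) (h : Sse (toFin A) (toFin B)) :
    Eqv (Matrix.of fun i j => C (A i j : ℤ) * X : Matrix S S ℤ[X])
      (Matrix.of fun i j => C (B i j : ℤ) * X : Matrix S' S' ℤ[X]) :=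
  Eqv.of (bd_linear A) (bd_linear B) ((sse_linear A).symm.trans (h.trans (sse_linear B)))

end moves

end Pool.Agent.WFS
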