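import Pool.Agent.WFS.Red

/-! # The reduction with the index types `Fin k` -/

set_option autoImplicit false
set_option linter.unusedSectionVars false

namespace Pool.Agent.WFS

open Matrix

theorem submatrix_pow' {V W : Type} [Fintype V] [DecidableEq V] [Fintype W] [DecidableEq W]
    (A : Matrix V V ℕ) (e : W ≃ V) (l : ℕ) : (A.submatrix e e) ^ l = (A ^ l).submatrix e e := by
  induction l with
  | zero => simp
  | succ l ih =>
    rw [pow_succ, ih, pow_succ]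
    exact Matrix.submatrix_mul_equiv (A ^ l) A e e e

theorem FS.submatrix {n : ℕ} {V W : Type} [Fintype V] [DecidableEq V] [Fintype W] [DecidableEq W]
    {A : Matrix V V ℕ} (h : FS n A) (e : W ≃ V) : FS n (A.submatrix e e) := by
  obtain ⟨h1, l, r, hr, h2⟩ := h
  refine ⟨fun j => ?_, l, fun i => r (e i), fun i => hr _, fun i j => ?_⟩
  · rw [← h1 (e j)]
    exact Equiv.sum_comp e (fun i => A i (e j))
  · rw [submatrix_pow', Matrix.submatrix_apply, h2]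

/-- THE REDUCTION of the problem, with the index types `Fin k` -/
theorem reduceFin (main : ∀ (n : ℕ), 2 ≤ n → ∀ (k : ℕ) (A : Matrix (Fin (k + 1)) (Fin (k + 1)) ℕ),
      FS n A → Sse ⟨k + 1, A⟩ ⟨1, Matrix.of fun _ _ => n⟩) :
    ∀ (n : ℕ), 1 ≤ n → ∀ (m : ℕ) (A : Matrix (Fin m) (Fin m) ℕ),
      (∃ ℓ : ℕ, 1 ≤ ℓ ∧ ∃ R : Matrix (Fin m) (Fin 1) ℕ, ∃ S : Matrix (Fin 1) (Fin m) ℕ,
        A ^ ℓ = R * S ∧
        (Matrix.of (fun _ _ => n) : Matrix (Fin 1) (Fin 1) ℕ) ^ ℓ = S * R ∧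
        A * R = R * (Matrix.of (fun _ _ => n) : Matrix (Fin 1) (Fin 1) ℕ) ∧
        S * A = (Matrix.of (fun _ _ => n) : Matrix (Fin 1) (Fin 1) ℕ) * S) →
      Relation.TransGen
        (fun X Y : (Σ k : ℕ, Matrix (Fin k) (Fin k) ℕ) =>
          ∃ R : Matrix (Fin X.1) (Fin Y.1) ℕ, ∃ S : Matrix (Fin Y.1) (Fin X.1) ℕ,
            X.2 = R * S ∧ Y.2 = S * R)
        ⟨m, A⟩ ⟨1, (Matrix.of (fun _ _ => n) : Matrix (Fin 1) (Fin 1) ℕ)⟩ := by
  refine reduce fun n hn V _ _ A hne hA => ?_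
  obtain ⟨v0⟩ := hne
  have hcard : 0 < Fintype.card V := Fintype.card_pos_iff.2 ⟨v0⟩
  obtain ⟨k, hk⟩ : ∃ k, Fintype.card V = k + 1 := Nat.exists_eq_succ_of_ne_zero hcard.ne'
  let e : Fin (k + 1) ≃ V := (Fintype.equivFinOfCardEq hk).symm
  have h1 : Sse (toFin A) (toFin (A.submatrix e e)) := sse_reindex A e
  exact h1.trans ((sse_toFin_fin _).symm.trans (main n hn k (A.submatrix e e) (hA.submatrix e)))

end Pool.Agent.WFS
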