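import Pool.Agent.WFS.Fam

/-! # The family of a nonnegative matrix -/

set_option autoImplicit false
set_option linter.unusedSectionVars false

namespace Pool.Agent.WFS

/-- the nonnegative vectors -/
def P0 (k : ℕ) : AddSubmonoid (Fin k → ℤ) where
  carrier := {x | ∀ i, 0 ≤ x i}
  add_mem' := fun ha hb i => add_nonneg (ha i) (hb i)
  zero_mem' := fun _ => le_refl _

theorem mem_P0 {k : ℕ} {x : Fin k → ℤ} : x ∈ P0 k ↔ ∀ i, 0 ≤ x i := Iff.rfl

/-- the sum of the coordinates -/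
def c0 (k : ℕ) : Module.Dual ℤ (Fin k → ℤ) := ∑ i, LinearMap.proj i

theorem c0_apply {k : ℕ} (x : Fin k → ℤ) : c0 k x = ∑ i, x i := by
  unfold c0
  rw [LinearMap.sum_apply]
  rfl

/-- the coordinates -/
def ep {k : ℕ} (j : Fin k) : dq (P0 k) := ⟨LinearMap.proj j, fun _ hx => hx j⟩

theorem ep_apply {k : ℕ} (j : Fin k) (x : Fin k → ℤ) : (ep j).1 x = x j := rfl

theorem dual_apply {k : ℕ} (y : Module.Dual ℤ (Fin k → ℤ)) (x : Fin k → ℤ) :
    y x = ∑ j, x j * y (Pi.single j 1) := by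
  conv_lhs => rw [← Finset.univ_sum_single x, map_sum]
  refine Finset.sum_congr rfl fun j _ => ?_
  have : (Pi.single j (x j) : Fin k → ℤ) = x j • Pi.single j 1 := by
    rw [← Pi.single_smul, smul_eq_mul, mul_one]
  rw [this, map_smul, smul_eq_mul]

theorem CD0 {k : ℕ} (hk : 1 ≤ k) {u : Fin k → ℤ} (hu : ∀ i, 1 ≤ u i) : CD (P0 k) u (c0 k) where
  hu := fun i => zero_le_one.trans (hu i)
  hc := by
    intro x hx
    rw [c0_apply]
    exact Finset.sum_nonneg fun i _ => hx i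
  ou := by
    intro x
    refine ⟨∑ i, (x i).natAbs, fun i => ?_⟩
    have h1 : (x i).natAbs ≤ ∑ i, (x i).natAbs :=
      Finset.single_le_sum (f := fun i => (x i).natAbs) (fun _ _ => Nat.zero_le _)
        (Finset.mem_univ i)
    have h2 : ((∑ i, (x i).natAbs : ℕ) : ℤ) * 1 ≤ ((∑ i, (x i).natAbs : ℕ) : ℤ) * u i :=
      mul_le_mul_of_nonneg_left (hu i) (Nat.cast_nonneg _)
    show 0 ≤ x i + ((∑ i, (x i).natAbs) • u) i
    rw [Pi.smul_apply, nsmul_eq_mul]
    omega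
  oc := by
    intro y
    refine ⟨∑ j, (y (Pi.single j 1)).natAbs, fun x hx => ?_⟩
    rw [LinearMap.add_apply, LinearMap.smul_apply, nsmul_eq_mul, dual_apply y x, c0_apply,
      Finset.mul_sum, ← Finset.sum_add_distrib]
    refine Finset.sum_nonneg fun j _ => ?_
    have h1 : (y (Pi.single j 1)).natAbs ≤ ∑ j, (y (Pi.single j 1)).natAbs :=
      Finset.single_le_sum (f := fun j => (y (Pi.single j 1)).natAbs) (fun _ _ => Nat.zero_le _)
        (Finset.mem_univ j)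
    have h2 : 0 ≤ y (Pi.single j 1) + ((∑ j, (y (Pi.single j 1)).natAbs : ℕ) : ℤ) := by omega
    have h3 := mul_nonneg (hx j) h2
    linarith
  pos := by
    rw [c0_apply]
    refine Finset.sum_pos (fun i _ => lt_of_lt_of_le zero_lt_one (hu i)) ?_
    exact ⟨⟨0, hk⟩, Finset.mem_univ _⟩

/-- the family of a matrix -/
def zA {k : ℕ} (A : Matrix (Fin k) (Fin k) ℕ) : Fin k → Pr (P0 k) := fun j =>
  (⟨fun i => (A i j : ℤ), fun _ => Nat.cast_nonneg _⟩, ep j)

theorem mt_zA {k : ℕ} (A : Matrix (Fin k) (Fin k) ℕ) : mt (zA A) = A := by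
  ext i j
  show ((A i j : ℤ)).toNat = A i j
  exact Int.toNat_natCast _

theorem one_pow' (n l : ℕ) :
    (Matrix.of (fun _ _ => n) : Matrix (Fin 1) (Fin 1) ℕ) ^ l = fun _ _ => n ^ l := by
  have h1 : (Matrix.of (fun _ _ => n) : Matrix (Fin 1) (Fin 1) ℕ) = n • 1 := by
    ext i j
    rw [Subsingleton.elim i 0, Subsingleton.elim j 0]
    simp
  rw [h1, smul_pow, one_pow]
  ext i j
  rw [Subsingleton.elim i 0, Subsingleton.elim j 0]
  simp

theorem ev_of_se {n m : ℕ} (hn : 1 ≤ n) (A : Matrix (Fin m) (Fin m) ℕ)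
    (h : ∃ ℓ : ℕ, 1 ≤ ℓ ∧ ∃ R : Matrix (Fin m) (Fin 1) ℕ, ∃ S : Matrix (Fin 1) (Fin m) ℕ,
        A ^ ℓ = R * S ∧
        (Matrix.of (fun _ _ => n) : Matrix (Fin 1) (Fin 1) ℕ) ^ ℓ = S * R ∧
        A * R = R * (Matrix.of (fun _ _ => n) : Matrix (Fin 1) (Fin 1) ℕ) ∧
        S * A = (Matrix.of (fun _ _ => n) : Matrix (Fin 1) (Fin 1) ℕ) * S) : EV n ⟨m, A⟩ := by
  obtain ⟨ℓ, -, R, S, -, h2, h3, -⟩ := h
  refine ⟨fun i => R i 0, fun h0 => ?_, ?_⟩
  · have hR : R = 0 := by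
      ext i j
      rw [Subsingleton.elim j 0]
      exact congrFun h0 i
    rw [hR, Matrix.mul_zero, one_pow'] at h2
    have h4 := congrFun (congrFun h2 0) 0
    exact absurd h4 (pow_ne_zero _ (by omega))
  · funext i
    have h4 := congrFun (congrFun h3 i) 0
    rw [Matrix.mul_apply, Matrix.mul_apply, Fin.sum_univ_one] at h4
    show ∑ j, A i j * R j 0 = n * R i 0
    rw [h4, mul_comm]
    rfl

/-- the conclusion of the theorems from the strong shift equivalence to the trace -/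
theorem finish {n m : ℕ} (hn : 1 ≤ n) (A : Matrix (Fin m) (Fin m) ℕ) (h : EV n ⟨m, A⟩)
    (hs : Sse (toFin (mt (zA A))) ⟨1, fun _ _ => (mt (zA A)).trace⟩) :
    Relation.TransGen
        (fun X Y : (Σ k : ℕ, Matrix (Fin k) (Fin k) ℕ) =>
          ∃ R : Matrix (Fin X.1) (Fin Y.1) ℕ, ∃ S : Matrix (Fin Y.1) (Fin X.1) ℕ,
            X.2 = R * S ∧ Y.2 = S * R)
        ⟨m, A⟩ ⟨1, (Matrix.of (fun _ _ => n) : Matrix (Fin 1) (Fin 1) ℕ)⟩ := by
  rw [mt_zA] at hs
  have h1 : Sse ⟨m, A⟩ ⟨1, fun _ _ => A.trace⟩ := (sse_toFin_fin A).trans hs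
  have h2 : A.trace = n := ev_one (h1.ev hn h)
  rw [h2] at h1
  exact h1

theorem exists_prim {k : ℕ} (i0 : Fin k) (u : Fin k → ℤ) (hu : ∀ i, 1 ≤ u i) :
    ∃ (u0 : Fin k → ℤ) (d : ℕ), (∀ i, 1 ≤ u0 i) ∧ 1 ≤ d ∧ u = (d : ℤ) • u0 ∧
      ∀ x : Fin k → ℤ, (∃ r : ℚ, ∀ i, (x i : ℚ) = r * u i) → ∃ m : ℤ, x = m • u0 := by
  let H : AddSubgroup ℤ :=
    { carrier := {t | ∃ x : Fin k → ℤ, x i0 = t ∧ ∃ r : ℚ, ∀ i, (x i : ℚ) = r * u i}
      zero_mem' := ⟨0, rfl, 0, fun i => by simp⟩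
      add_mem' := by
        rintro a b ⟨x, hx, r, hr⟩ ⟨y, hy, r', hr'⟩
        refine ⟨x + y, by rw [Pi.add_apply, hx, hy], r + r', fun i => ?_⟩
        rw [Pi.add_apply]
        push_cast
        rw [hr, hr']
        ring
      neg_mem' := by
        rintro a ⟨x, hx, r, hr⟩
        refine ⟨-x, by rw [Pi.neg_apply, hx], -r, fun i => ?_⟩
        rw [Pi.neg_apply]
        push_cast
        rw [hr]
        ring }
  obtain ⟨a, ha⟩ := Int.subgroup_cyclic H
  have ha' : H = AddSubgroup.zmultiples a := by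
    rw [ha, AddSubgroup.zmultiples_eq_closure]
  have hu0 : (u i0 : ℚ) ≠ 0 := by
    have := hu i0
    have h2 : u i0 ≠ 0 := by omega
    exact_mod_cast h2
  have huq : ∀ i, (u i : ℚ) = 1 * u i := fun i => (one_mul _).symm
  have haH : a ∈ H := by
    rw [ha']
    exact AddSubgroup.mem_zmultiples a
  obtain ⟨x0, hx0, r0, hr0⟩ := haH
  have huH : u i0 ∈ H := ⟨u, rfl, 1, huq⟩
  rw [ha'] at huH
  obtain ⟨d, hd⟩ := huH
  have hd' : d * a = u i0 := hd
  have ha0 : (a : ℚ) = r0 * u i0 := by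
    rw [← hx0]
    exact hr0 i0
  have key : ∀ (x : Fin k → ℤ) (m : ℤ), (∃ r : ℚ, ∀ i, (x i : ℚ) = r * u i) → x i0 = m * a →
      x = m • x0 := by
    rintro x m ⟨r, hr⟩ hxm
    funext i
    have h1 : (x i : ℚ) = m * x0 i := by
      have h2 := hr i0
      rw [hxm] at h2
      push_cast at h2
      rw [ha0] at h2
      have h3 : (r : ℚ) = m * r0 := by
        have h4 : (m * r0 - r) * (u i0 : ℚ) = 0 := by linear_combination h2
        rcases mul_eq_zero.1 h4 with h5 | h5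
        · linarith
        · exact absurd h5 hu0
      rw [hr i, hr0 i, h3]
      ring
    rw [Pi.smul_apply, smul_eq_mul]
    exact_mod_cast h1
  have hux : u = d • x0 := key u d ⟨1, huq⟩ hd'.symm
  have hd0 : d ≠ 0 := by
    rintro rfl
    have := hu i0
    rw [zero_mul] at hd'
    omega
  have hgen : ∀ x : Fin k → ℤ, (∃ r : ℚ, ∀ i, (x i : ℚ) = r * u i) → ∃ m : ℤ, x = m • x0 := by
    intro x hx
    have h1 : x i0 ∈ H := ⟨x, rfl, hx⟩
    rw [ha'] at h1
    obtain ⟨m, hm⟩ := h1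
    exact ⟨m, key x m hx hm.symm⟩
  rcases lt_or_gt_of_ne hd0 with hneg | hpos
  · refine ⟨-x0, d.natAbs, ?_, by omega, ?_, ?_⟩
    · intro i
      have h1 := hu i
      rw [hux, Pi.smul_apply, smul_eq_mul] at h1
      rw [Pi.neg_apply]
      by_contra h2
      push Not at h2
      have h3 : 0 ≤ x0 i := by omega
      have h4 : d * x0 i ≤ 0 := mul_nonpos_of_nonpos_of_nonneg hneg.le h3
      omega
    · have h1 : ((d.natAbs : ℕ) : ℤ) = -d := by omega
      rw [h1, smul_neg, neg_smul, neg_neg]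
      exact hux
    · intro x hx
      obtain ⟨m, hm⟩ := hgen x hx
      exact ⟨-m, by rw [hm, smul_neg, neg_smul, neg_neg]⟩
  · refine ⟨x0, d.natAbs, ?_, by omega, ?_, hgen⟩
    · intro i
      have h1 := hu i
      rw [hux, Pi.smul_apply, smul_eq_mul] at h1
      by_contra h2
      push Not at h2
      have h3 : x0 i ≤ 0 := by omega
      have h4 : d * x0 i ≤ 0 := mul_nonpos_of_nonneg_of_nonpos hpos.le h3
      omega
    · have h1 : ((d.natAbs : ℕ) : ℤ) = d := by omega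
      rw [h1]
      exact hux

end Pool.Agent.WFS
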