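import Pool.Agent.WFS.Lag2

/-! # Rank two: the skew case

`A i j = b i * s j + t i * p j` with `|b i * p j| ≤ A i j`.  If all `b i > 0`, the vectors `x_j = (s_j, p_j)` are
combinations of `(1, 0)`, `(N, 1)`, `(N', -1)`, and the class of the family is computed.
-/

set_option autoImplicit false
set_option linter.unusedSectionVars false

namespace Pool.Agent.WFS

/-- the scalar product as a functional -/
def dot {r : ℕ} (y : Fin r → ℤ) : Module.Dual ℤ (Fin r → ℤ) := ∑ a, y a • LinearMap.proj a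

theorem dot_apply {r : ℕ} (y x : Fin r → ℤ) : dot y x = ∑ a, y a * x a := by
  unfold dot
  rw [LinearMap.sum_apply]
  rfl

theorem Est.transpose {X Y : Σ k : ℕ, Matrix (Fin k) (Fin k) ℕ} (h : Est X Y) :
    Est ⟨X.1, X.2.transpose⟩ ⟨Y.1, Y.2.transpose⟩ := by
  obtain ⟨R, S, h1, h2⟩ := h
  refine ⟨S.transpose, R.transpose, ?_, ?_⟩
  · show X.2.transpose = _
    rw [h1, Matrix.transpose_mul]
  · show Y.2.transpose = _
    rw [h2, Matrix.transpose_mul]

theorem Sse.transpose {X Y : Σ k : ℕ, Matrix (Fin k) (Fin k) ℕ} (h : Sse X Y) :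
    Sse ⟨X.1, X.2.transpose⟩ ⟨Y.1, Y.2.transpose⟩ := by
  induction h with
  | single h => exact h.transpose.sse
  | tail _ h2 ih => exact ih.trans h2.transpose.sse

theorem exists_min_N {k : ℕ} (hk : 1 ≤ k) (b t : Fin k → ℤ) (hb : ∀ i, 0 < b i) :
    ∃ N : ℤ, (∀ i, 0 ≤ b i * N + t i) ∧ ∃ i, b i * N + t i < b i := by
  have : Nonempty (Fin k) := ⟨⟨0, hk⟩⟩
  obtain ⟨i, hi⟩ := Finite.exists_max (fun i : Fin k => -(t i / b i))
  refine ⟨-(t i / b i), fun i' => ?_, i, ?_⟩
  · have h1 := hi i'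
    have h2 := Int.mul_ediv_add_emod (t i') (b i')
    have h3 := Int.emod_nonneg (t i') (hb i').ne'
    have h4 : b i' * (t i / b i) ≤ b i' * (t i' / b i') :=
      mul_le_mul_of_nonneg_left (by simpa using h1) (hb i').le
    have h5 : b i' * -(t i / b i) = -(b i' * (t i / b i)) := by ring
    rw [h5]
    omega
  · have h2 := Int.mul_ediv_add_emod (t i) (b i)
    have h3 := Int.emod_lt_of_pos (t i) (hb i)
    have h5 : b i * -(t i / b i) = -(b i * (t i / b i)) := by ring
    rw [h5]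
    omega

theorem skew_core {k : ℕ} (hk : 1 ≤ k) (s p b t : Fin k → ℤ) (A : Matrix (Fin k) (Fin k) ℕ)
    (hA : ∀ i j, (A i j : ℤ) = b i * s j + t i * p j)
    (hsk : ∀ i j, |b i * p j| ≤ A i j) (r0 r1 f0 f1 : ℤ)
    (h00 : ∑ j, s j * b j = r0 * f0) (h01 : ∑ j, s j * t j = r0 * f1)
    (h10 : ∑ j, p j * b j = r1 * f0) (h11 : ∑ j, p j * t j = r1 * f1)
    (hfx : ∀ j, 0 < f0 * s j + f1 * p j) (hyr : ∀ i, 0 < b i * r0 + t i * r1)
    (hb : ∀ i, 0 < b i) (hr1 : 0 ≤ r1) : Sse (toFin A) ⟨1, fun _ _ => A.trace⟩ := by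
  classical
  obtain ⟨N, hN, iN, hiN⟩ := exists_min_N hk b t hb
  obtain ⟨N', hN', iN', hiN'⟩ := exists_min_N hk b (fun i => -t i) hb
  -- the cone
  let P : AddSubmonoid (Fin 2 → ℤ) :=
    { carrier := {x | ∀ i, 0 ≤ b i * x 0 + t i * x 1}
      zero_mem' := fun i => by simp
      add_mem' := by
        intro x y hx hy i
        have h1 := hx i
        have h2 := hy i
        simp only [Pi.add_apply]
        linarith }
  have hP : ∀ x : Fin 2 → ℤ, x ∈ P ↔ ∀ i, 0 ≤ b i * x 0 + t i * x 1 := fun _ => Iff.rfl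
  have hy : ∀ i, dot ![b i, t i] ∈ dq P := by
    intro i x hx
    rw [dot_apply, Fin.sum_univ_two]
    exact (hP x).1 hx i
  have hrP : (![r0, r1] : Fin 2 → ℤ) ∈ P := fun i => (hyr i).le
  have hf : dot ![f0, f1] ∈ dq P := by
    intro x hx
    rw [dot_apply, Fin.sum_univ_two]
    show 0 ≤ f0 * x 0 + f1 * x 1
    have h1 : (b ⟨0, hk⟩ * r0 + t ⟨0, hk⟩ * r1) * (f0 * x 0 + f1 * x 1) =
        ∑ j, (A ⟨0, hk⟩ j : ℤ) * (b j * x 0 + t j * x 1) := by
      have e1 : ∑ j, (A ⟨0, hk⟩ j : ℤ) * (b j * x 0 + t j * x 1) =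
          b ⟨0, hk⟩ * ((∑ j, s j * b j) * x 0 + (∑ j, s j * t j) * x 1) +
          t ⟨0, hk⟩ * ((∑ j, p j * b j) * x 0 + (∑ j, p j * t j) * x 1) := by
        simp only [Finset.sum_mul, Finset.mul_sum, mul_add, ← Finset.sum_add_distrib]
        refine Finset.sum_congr rfl fun j _ => ?_
        rw [hA]
        ring
      rw [e1, h00, h01, h10, h11]
      ring
    have h2 : 0 ≤ ∑ j, (A ⟨0, hk⟩ j : ℤ) * (b j * x 0 + t j * x 1) :=
      Finset.sum_nonneg fun j _ => mul_nonneg (Nat.cast_nonneg _) ((hP x).1 hx j)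
    rw [← h1] at h2
    exact nonneg_of_mul_nonneg_right h2 (hyr _)
  have hxP : ∀ j, (![s j, p j] : Fin 2 → ℤ) ∈ P := by
    intro j i
    show 0 ≤ b i * s j + t i * p j
    rw [← hA]
    exact Nat.cast_nonneg _
  let yP : Fin k → dq P := fun i => ⟨dot ![b i, t i], hy i⟩
  let xP : Fin k → P := fun j => ⟨![s j, p j], hxP j⟩
  let rP : P := ⟨![r0, r1], hrP⟩
  let fP : dq P := ⟨dot ![f0, f1], hf⟩
  let lP : P := ⟨![1, 0], fun i => by
    show 0 ≤ b i * 1 + t i * 0
    have := hb i
    omega⟩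
  let eP : P := ⟨![N, 1], fun i => by
    show 0 ≤ b i * N + t i * 1
    rw [mul_one]
    exact hN i⟩
  let eN : P := ⟨![N', -1], fun i => by
    show 0 ≤ b i * N' + t i * (-1)
    have := hN' i
    linarith⟩
  let z : Fin k → Pr P := fun j => (xP j, yP j)
  have hmt : mt z = A := by
    ext i j
    show (dot ![b i, t i] ![s j, p j]).toNat = A i j
    rw [dot_apply, Fin.sum_univ_two]
    show (b i * s j + t i * p j).toNat = A i j
    rw [← hA]
    exact Int.toNat_natCast _
  -- coefficients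
  have hσ : ∀ j, ∃ α β σ : ℕ, p j = α - β ∧ s j = α * N + β * N' + σ := by
    intro j
    rcases le_or_gt 0 (p j) with hp | hp
    · refine ⟨(p j).toNat, 0, (s j - p j * N).toNat, ?_, ?_⟩
      · push_cast
        omega
      · have h1 : 0 ≤ s j - p j * N := by
          have h2 : b iN * (s j - p j * N) = A iN j - p j * (b iN * N + t iN) := by
            rw [hA]
            ring
          have h3 : p j * (b iN * N + t iN) ≤ p j * b iN := mul_le_mul_of_nonneg_left hiN.le hp
          have h4 := (abs_le.1 (hsk iN j)).2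
          have h5 : 0 ≤ b iN * (s j - p j * N) := by
            rw [h2]
            linarith
          exact nonneg_of_mul_nonneg_right h5 (hb iN)
        have h2 : ((p j).toNat : ℤ) = p j := Int.toNat_of_nonneg hp
        have h3 : ((s j - p j * N).toNat : ℤ) = s j - p j * N := Int.toNat_of_nonneg h1
        rw [h2, h3]
        push_cast
        ring
    · refine ⟨0, (-p j).toNat, (s j + p j * N').toNat, ?_, ?_⟩
      · push_cast
        omega
      · have h1 : 0 ≤ s j + p j * N' := by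
          have h2 : b iN' * (s j + p j * N') = A iN' j + p j * (b iN' * N' + -t iN') := by
            rw [hA]
            ring
          have h3 : p j * b iN' ≤ p j * (b iN' * N' + -t iN') :=
            mul_le_mul_of_nonpos_left hiN'.le hp.le
          have h4 := (abs_le.1 (hsk iN' j)).1
          have h5 : 0 ≤ b iN' * (s j + p j * N') := by
            rw [h2]
            linarith
          exact nonneg_of_mul_nonneg_right h5 (hb iN')
        have h2 : ((-p j).toNat : ℤ) = -p j := Int.toNat_of_nonneg (by omega)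
        have h3 : ((s j + p j * N').toNat : ℤ) = s j + p j * N' := Int.toNat_of_nonneg h1
        rw [h2, h3]
        push_cast
        ring
  choose α β σ hp hs using hσ
  have hx : ∀ j, xP j = α j • eP + β j • eN + σ j • lP := by
    intro j
    apply Subtype.ext
    show (![s j, p j] : Fin 2 → ℤ) = α j • ![N, 1] + β j • ![N', -1] + σ j • ![1, 0]
    ext a
    fin_cases a
    · simp [hs j]
    · simp [hp j]
      ring
  let Yp : dq P := ∑ j, α j • yP j
  let Ym : dq P := ∑ j, β j • yP j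
  let Y0 : dq P := ∑ j, σ j • yP j
  have hcl : cl z = tm eP Yp + tm eN Ym + tm lP Y0 := by
    have h1 : ∀ j, tm (z j).1 (z j).2 = α j • tm eP (yP j) + β j • tm eN (yP j) +
        σ j • tm lP (yP j) := by
      intro j
      show tm (xP j) (yP j) = _
      rw [hx, tm_add_left, tm_add_left, tm_nsmul_left, tm_nsmul_left, tm_nsmul_left]
    unfold cl
    rw [Finset.sum_congr rfl fun j _ => h1 j, Finset.sum_add_distrib, Finset.sum_add_distrib]
    simp only [Yp, Ym, Y0, tm_sum_right, tm_nsmul_right]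
  -- values of the functionals
  have hval : ∀ (γ : Fin k → ℕ) (x : Fin 2 → ℤ),
      ((∑ j, γ j • yP j : dq P) : Module.Dual ℤ (Fin 2 → ℤ)) x =
      (∑ j, (γ j : ℤ) * b j) * x 0 + (∑ j, (γ j : ℤ) * t j) * x 1 := by
    intro γ x
    rw [AddSubmonoid.coe_finsetSum, LinearMap.sum_apply, Finset.sum_mul, Finset.sum_mul,
      ← Finset.sum_add_distrib]
    refine Finset.sum_congr rfl fun j _ => ?_
    show (γ j • dot ![b j, t j]) x = _
    rw [LinearMap.smul_apply, dot_apply, Fin.sum_univ_two, nsmul_eq_mul]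
    show (γ j : ℤ) * (b j * x 0 + t j * x 1) = _
    ring
  have hYp : Yp = Ym + r1.toNat • fP := by
    apply Subtype.ext
    refine LinearMap.ext fun x => ?_
    show (Yp : Module.Dual ℤ (Fin 2 → ℤ)) x =
      (Ym : Module.Dual ℤ (Fin 2 → ℤ)) x + (r1.toNat • dot ![f0, f1]) x
    rw [hval, hval, LinearMap.smul_apply, dot_apply, Fin.sum_univ_two, nsmul_eq_mul,
      Int.toNat_of_nonneg hr1]
    show _ = _ + r1 * (f0 * x 0 + f1 * x 1)
    have e1 : ∑ j, (α j : ℤ) * b j = ∑ j, (β j : ℤ) * b j + r1 * f0 := by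
      rw [← h10, ← Finset.sum_add_distrib]
      exact Finset.sum_congr rfl fun j _ => by rw [hp j]; ring
    have e2 : ∑ j, (α j : ℤ) * t j = ∑ j, (β j : ℤ) * t j + r1 * f1 := by
      rw [← h11, ← Finset.sum_add_distrib]
      exact Finset.sum_congr rfl fun j _ => by rw [hp j]; ring
    rw [e1, e2]
    ring
  have hK : 0 ≤ N + N' := by
    have h1 := hN ⟨0, hk⟩
    have h2 := hN' ⟨0, hk⟩
    have h3 : 0 ≤ b ⟨0, hk⟩ * (N + N') := by linarith
    exact nonneg_of_mul_nonneg_right h3 (hb _)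
  have hee : eP + eN = (N + N').toNat • lP := by
    apply Subtype.ext
    show (![N, 1] + ![N', -1] : Fin 2 → ℤ) = (N + N').toNat • ![1, 0]
    ext a
    fin_cases a
    · simp [Int.toNat_of_nonneg hK]
    · simp
  -- the functional of `(1, 0)`
  have hfun : ∀ x : Fin 2 → ℤ,
      (((N + N').toNat • Ym + Y0 : dq P) : Module.Dual ℤ (Fin 2 → ℤ)) x =
      (r0 - r1 * N) * (f0 * x 0 + f1 * x 1) := by
    intro x
    show ((N + N').toNat • (Ym : Module.Dual ℤ (Fin 2 → ℤ)) +
      (Y0 : Module.Dual ℤ (Fin 2 → ℤ))) x = _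
    rw [LinearMap.add_apply, LinearMap.smul_apply, nsmul_eq_mul, Int.toNat_of_nonneg hK, hval,
      hval]
    have e1 : ∑ j, (σ j : ℤ) * b j = r0 * f0 - N * (r1 * f0) - (N + N') * ∑ j, (β j : ℤ) * b j := by
      rw [← h00, ← h10, Finset.mul_sum, Finset.mul_sum, ← Finset.sum_sub_distrib,
        ← Finset.sum_sub_distrib]
      exact Finset.sum_congr rfl fun j _ => by rw [hp j, hs j]; ring
    have e2 : ∑ j, (σ j : ℤ) * t j = r0 * f1 - N * (r1 * f1) - (N + N') * ∑ j, (β j : ℤ) * t j := by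
      rw [← h01, ← h11, Finset.mul_sum, Finset.mul_sum, ← Finset.sum_sub_distrib,
        ← Finset.sum_sub_distrib]
      exact Finset.sum_congr rfl fun j _ => by rw [hp j, hs j]; ring
    rw [e1, e2]
    ring
  have hg : 0 ≤ r0 - r1 * N := by
    have h1 := ((N + N').toNat • Ym + Y0 : dq P).2 _ (hxP ⟨0, hk⟩)
    rw [hfun] at h1
    exact nonneg_of_mul_nonneg_left h1 (hfx ⟨0, hk⟩)
  have hfun' : (N + N').toNat • Ym + Y0 = (r0 - r1 * N).toNat • fP := by
    apply Subtype.ext
    refine LinearMap.ext fun x => ?_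
    rw [hfun]
    show _ = ((r0 - r1 * N).toNat • dot ![f0, f1]) x
    rw [LinearMap.smul_apply, dot_apply, Fin.sum_univ_two, nsmul_eq_mul, Int.toNat_of_nonneg hg]
    rfl
  have hr : rP = r1.toNat • eP + (r0 - r1 * N).toNat • lP := by
    apply Subtype.ext
    show (![r0, r1] : Fin 2 → ℤ) = r1.toNat • ![N, 1] + (r0 - r1 * N).toNat • ![1, 0]
    ext a
    fin_cases a
    · show r0 = r1.toNat • N + (r0 - r1 * N).toNat • (1 : ℤ)
      rw [nsmul_eq_mul, nsmul_eq_mul, Int.toNat_of_nonneg hg, Int.toNat_of_nonneg hr1]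
      ring
    · simp [Int.toNat_of_nonneg hr1]
  have hfin : cl z = cl (fun _ : Unit => ((rP, fP) : Pr P)) := by
    rw [cl_unit, hcl, hYp, tm_add_right, tm_nsmul_right]
    conv_rhs => rw [hr]
    rw [tm_add_left, tm_nsmul_left, tm_nsmul_left, ← tm_nsmul_right (r0 - r1 * N).toNat,
      ← hfun', tm_add_right, tm_nsmul_right, ← tm_nsmul_left (N + N').toNat, ← hee, tm_add_left]
    abel
  have h1 := (FR_of_cl hfin).sse
  rw [hmt] at h1
  have h2 := h1.trace
  rw [toFin_trace, toFin_trace] at h2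
  rw [h2]
  exact h1.trans sse_unit

end Pool.Agent.WFS
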