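import Pool.Agent.WFS.Skew

/-! # Rank two: the skew case, all signs -/

set_option autoImplicit false
set_option linter.unusedSectionVars false

namespace Pool.Agent.WFS

theorem skew_pos {k : ℕ} (hk : 1 ≤ k) (s p b t : Fin k → ℤ) (A : Matrix (Fin k) (Fin k) ℕ)
    (hA : ∀ i j, (A i j : ℤ) = b i * s j + t i * p j)
    (hsk : ∀ i j, |b i * p j| ≤ A i j) (r0 r1 f0 f1 : ℤ)
    (h00 : ∑ j, s j * b j = r0 * f0) (h01 : ∑ j, s j * t j = r0 * f1)
    (h10 : ∑ j, p j * b j = r1 * f0) (h11 : ∑ j, p j * t j = r1 * f1)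
    (hfx : ∀ j, 0 < f0 * s j + f1 * p j) (hyr : ∀ i, 0 < b i * r0 + t i * r1)
    (hb : ∀ i, 0 < b i) : Sse (toFin A) ⟨1, fun _ _ => A.trace⟩ := by
  rcases le_or_gt 0 r1 with h | h
  · exact skew_core hk s p b t A hA hsk r0 r1 f0 f1 h00 h01 h10 h11 hfx hyr hb h
  · refine skew_core hk s (fun j => -p j) b (fun i => -t i) A (fun i j => ?_) (fun i j => ?_)
      r0 (-r1) f0 (-f1) h00 ?_ ?_ ?_ (fun j => ?_) (fun i => ?_) hb (by omega)
    · rw [hA]
      ring
    · have h1 : b i * -p j = -(b i * p j) := by ring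
      rw [h1, abs_neg]
      exact hsk i j
    · have h1 : ∑ j, s j * -t j = -∑ j, s j * t j := by
        rw [← Finset.sum_neg_distrib]
        exact Finset.sum_congr rfl fun j _ => by ring
      rw [h1, h01]
      ring
    · have h1 : ∑ j, -p j * b j = -∑ j, p j * b j := by
        rw [← Finset.sum_neg_distrib]
        exact Finset.sum_congr rfl fun j _ => by ring
      rw [h1, h10]
      ring
    · have h1 : ∑ j, -p j * -t j = ∑ j, p j * t j :=
        Finset.sum_congr rfl fun j _ => by ring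
      rw [h1, h11]
      ring
    · have h1 := hfx j
      have h2 : f0 * s j + -f1 * -p j = f0 * s j + f1 * p j := by ring
      rw [h2]
      exact h1
    · have h1 := hyr i
      have h2 : b i * r0 + -t i * -r1 = b i * r0 + t i * r1 := by ring
      rw [h2]
      exact h1

theorem skew_sgn {k : ℕ} (hk : 1 ≤ k) (s p b t : Fin k → ℤ) (A : Matrix (Fin k) (Fin k) ℕ)
    (hA : ∀ i j, (A i j : ℤ) = b i * s j + t i * p j)
    (hsk : ∀ i j, |b i * p j| ≤ A i j) (r0 r1 f0 f1 : ℤ)
    (h00 : ∑ j, s j * b j = r0 * f0) (h01 : ∑ j, s j * t j = r0 * f1)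
    (h10 : ∑ j, p j * b j = r1 * f0) (h11 : ∑ j, p j * t j = r1 * f1)
    (hfx : ∀ j, 0 < f0 * s j + f1 * p j) (hyr : ∀ i, 0 < b i * r0 + t i * r1)
    (κ : ℤ) (hb : ∀ i, 0 < b i * κ) : Sse (toFin A) ⟨1, fun _ _ => A.trace⟩ := by
  rcases le_or_gt 0 κ with h | h
  · exact skew_pos hk s p b t A hA hsk r0 r1 f0 f1 h00 h01 h10 h11 hfx hyr
      fun i => pos_of_mul_pos_left (hb i) h
  · refine skew_pos hk (fun j => -s j) p (fun i => -b i) t A (fun i j => ?_) (fun i j => ?_)
      (-r0) r1 (-f0) f1 ?_ ?_ ?_ h11 (fun j => ?_) (fun i => ?_) (fun i => ?_)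
    · rw [hA]
      ring
    · have h1 : -b i * p j = -(b i * p j) := by ring
      rw [h1, abs_neg]
      exact hsk i j
    · have h1 : ∑ j, -s j * -b j = ∑ j, s j * b j :=
        Finset.sum_congr rfl fun j _ => by ring
      rw [h1, h00]
      ring
    · have h1 : ∑ j, -s j * t j = -∑ j, s j * t j := by
        rw [← Finset.sum_neg_distrib]
        exact Finset.sum_congr rfl fun j _ => by ring
      rw [h1, h01]
      ring
    · have h1 : ∑ j, p j * -b j = -∑ j, p j * b j := by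
        rw [← Finset.sum_neg_distrib]
        exact Finset.sum_congr rfl fun j _ => by ring
      rw [h1, h10]
      ring
    · have h1 := hfx j
      have h2 : -f0 * -s j + f1 * p j = f0 * s j + f1 * p j := by ring
      rw [h2]
      exact h1
    · have h1 := hyr i
      have h2 : -b i * -r0 + t i * r1 = b i * r0 + t i * r1 := by ring
      rw [h2]
      exact h1
    · have h1 := hb i
      have h2 : 0 < -b i * -κ := by
        have h3 : -b i * -κ = b i * κ := by ring
        rw [h3]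
        exact h1
      exact pos_of_mul_pos_left h2 (by omega)

theorem skew_aux {k : ℕ} (hk : 1 ≤ k) (s p b t : Fin k → ℤ) (A : Matrix (Fin k) (Fin k) ℕ)
    (hpos : ∀ i j, 0 < A i j)
    (hA : ∀ i j, (A i j : ℤ) = b i * s j + t i * p j)
    (hsk : ∀ i j, |b i * p j| ≤ A i j) (r0 r1 f0 f1 : ℤ)
    (h00 : ∑ j, s j * b j = r0 * f0) (h01 : ∑ j, s j * t j = r0 * f1)
    (h10 : ∑ j, p j * b j = r1 * f0) (h11 : ∑ j, p j * t j = r1 * f1)
    (hfx : ∀ j, 0 < f0 * s j + f1 * p j) (hyr : ∀ i, 0 < b i * r0 + t i * r1) :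
    Sse (toFin A) ⟨1, fun _ _ => A.trace⟩ := by
  have hposZ : ∀ i j, (0 : ℤ) < A i j := fun i j => by exact_mod_cast hpos i j
  -- all `b i` have the same sign, or all `p j` have
  have hdich : (∃ κ : ℤ, ∀ i, 0 < b i * κ) ∨ ∃ κ : ℤ, ∀ j, 0 < p j * κ := by
    by_cases hz : ∃ j, p j = 0
    · obtain ⟨j, hj⟩ := hz
      refine Or.inl ⟨s j, fun i => ?_⟩
      have h1 := hposZ i j
      rw [hA, hj] at h1
      linarith
    · push Not at hz
      by_cases hn : ∃ j, p j < 0
      · by_cases hp : ∃ j, 0 < p j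
        · obtain ⟨j, hj⟩ := hn
          obtain ⟨j', hj'⟩ := hp
          refine Or.inl ⟨p j' * s j - p j * s j', fun i => ?_⟩
          have h1 : b i * (p j' * s j - p j * s j') = p j' * A i j - p j * A i j' := by
            rw [hA, hA]
            ring
          rw [h1]
          have h2 := mul_pos hj' (hposZ i j)
          have h3 := mul_pos (neg_pos.2 hj) (hposZ i j')
          linarith
        · push Not at hp
          refine Or.inr ⟨-1, fun j => ?_⟩
          have h1 := hp j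
          have h2 := hz j
          omega
      · push Not at hn
        refine Or.inr ⟨1, fun j => ?_⟩
        have h1 := hn j
        have h2 := hz j
        omega
  rcases hdich with ⟨κ, hκ⟩ | ⟨κ, hκ⟩
  · exact skew_sgn hk s p b t A hA hsk r0 r1 f0 f1 h00 h01 h10 h11 hfx hyr κ hκ
  · have h1 := skew_sgn hk t b p s A.transpose (fun i j => ?_) (fun i j => ?_) f1 f0 r1 r0
      (by rw [← mul_comm r1, ← h11]; exact Finset.sum_congr rfl fun j _ => mul_comm _ _)
      (by rw [← mul_comm r0, ← h01]; exact Finset.sum_congr rfl fun j _ => mul_comm _ _)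
      (by rw [← mul_comm r1, ← h10]; exact Finset.sum_congr rfl fun j _ => mul_comm _ _)
      (by rw [← mul_comm r0, ← h00]; exact Finset.sum_congr rfl fun j _ => mul_comm _ _)
      (fun j => ?_) (fun i => ?_) κ hκ
    · have h2 := h1.transpose
      have h4 : A.transpose.trace = A.trace := Matrix.trace_transpose A
      rw [h4] at h2
      exact h2
    · rw [Matrix.transpose_apply, hA]
      ring
    · rw [Matrix.transpose_apply, mul_comm]
      exact hsk j i
    · have h2 := hyr j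
      have h3 : r1 * t j + r0 * b j = b j * r0 + t j * r1 := by ring
      rw [h3]
      exact h2
    · have h2 := hfx i
      have h3 : p i * f1 + s i * f0 = f0 * s i + f1 * p i := by ring
      rw [h3]
      exact h2

/-- `y_i(r) f(x_j) = (A ^ 2) i j` -/
theorem prod_eq {k : ℕ} (s p b t : Fin k → ℤ) (A : Matrix (Fin k) (Fin k) ℕ)
    (hA : ∀ i j, (A i j : ℤ) = b i * s j + t i * p j) (r0 r1 f0 f1 : ℤ)
    (h00 : ∑ j, s j * b j = r0 * f0) (h01 : ∑ j, s j * t j = r0 * f1)
    (h10 : ∑ j, p j * b j = r1 * f0) (h11 : ∑ j, p j * t j = r1 * f1) (i j : Fin k) :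
    (b i * r0 + t i * r1) * (f0 * s j + f1 * p j) = ∑ l, (A i l : ℤ) * A l j := by
  have e1 : ∑ l, (A i l : ℤ) * A l j =
      b i * ((∑ l, s l * b l) * s j + (∑ l, s l * t l) * p j) +
      t i * ((∑ l, p l * b l) * s j + (∑ l, p l * t l) * p j) := by
    simp only [Finset.sum_mul, Finset.mul_sum, mul_add, ← Finset.sum_add_distrib]
    refine Finset.sum_congr rfl fun l _ => ?_
    rw [hA, hA]
    ring
  rw [e1, h00, h01, h10, h11]
  ring

theorem skew {k : ℕ} (hk : 1 ≤ k) (s p b t : Fin k → ℤ) (A : Matrix (Fin k) (Fin k) ℕ)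
    (hpos : ∀ i j, 0 < A i j)
    (hA : ∀ i j, (A i j : ℤ) = b i * s j + t i * p j)
    (hsk : ∀ i j, |b i * p j| ≤ A i j) (r0 r1 f0 f1 : ℤ)
    (h00 : ∑ j, s j * b j = r0 * f0) (h01 : ∑ j, s j * t j = r0 * f1)
    (h10 : ∑ j, p j * b j = r1 * f0) (h11 : ∑ j, p j * t j = r1 * f1)
    (hfx : ∀ j, 0 < f0 * s j + f1 * p j) :
    Sse (toFin A) ⟨1, fun _ _ => A.trace⟩ := by
  refine skew_aux hk s p b t A hpos hA hsk r0 r1 f0 f1 h00 h01 h10 h11 hfx fun i => ?_
  have h1 := prod_eq s p b t A hA r0 r1 f0 f1 h00 h01 h10 h11 i ⟨0, hk⟩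
  have h2 : 0 < ∑ l, (A i l : ℤ) * A l ⟨0, hk⟩ := by
    refine Finset.sum_pos (fun l _ => ?_) ⟨⟨0, hk⟩, Finset.mem_univ _⟩
    exact mul_pos (by exact_mod_cast hpos i l) (by exact_mod_cast hpos l _)
  rw [← h1] at h2
  exact pos_of_mul_pos_left h2 (hfx _).le

end Pool.Agent.WFS
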