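import Pool.Agent.WFS.Ext

/-! # Restriction to a sublattice

`step`: if the endomorphism of the family `D` has its values in the subgroup `L'`, then, after adding a multiple of
`tm u c`, the family is equivalent to a family whose vectors are in `L'`.
-/

set_option autoImplicit false
set_option linter.unusedSectionVars false

namespace Pool.Agent.WFS

variable {L : Type} [AddCommGroup L] {P : AddSubmonoid L} {u : L} {c : Module.Dual ℤ L}

/-- a functional on a subgroup is, up to a positive multiple, the restriction of a functional -/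
theorem exists_extend [Module.Free ℤ L] [Module.Finite ℤ L] (L' : AddSubgroup L)
    (y : Module.Dual ℤ ↥L') :
    ∃ k : ℕ, 1 ≤ k ∧ ∃ Y : Module.Dual ℤ L, ∀ x : L', Y x.1 = k * y x := by
  classical
  obtain ⟨h, hh⟩ := (Module.Baer.of_divisible ℚ).extension_property_addMonoidHom
    L'.subtype L'.subtype_injective ((Int.castAddHom ℚ).comp y.toAddMonoidHom)
  let b := Module.Free.chooseBasis ℤ L
  let k : ℕ := ∏ i, (h (b i)).den
  have hk : 1 ≤ k := Finset.prod_pos fun i _ => (h (b i)).den_pos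
  have h1 : ∀ i, ∃ a : ℤ, (a : ℚ) = k * h (b i) := by
    intro i
    obtain ⟨d, hd⟩ : (h (b i)).den ∣ k := Finset.dvd_prod_of_mem _ (Finset.mem_univ i)
    refine ⟨d * (h (b i)).num, ?_⟩
    rw [hd]
    push_cast
    have h2 : ((h (b i)).den : ℚ) * h (b i) = (h (b i)).num := Rat.den_mul_eq_num _
    rw [mul_comm ((h (b i)).den : ℚ), mul_assoc, h2]
  choose a ha using h1
  let Y : Module.Dual ℤ L := b.constr ℤ a
  have h3 : ∀ x : L, ((Y x : ℤ) : ℚ) = k * h x := by
    intro x
    have h4 : (Int.castAddHom ℚ).toIntLinearMap ∘ₗ Y = (k : ℤ) • h.toIntLinearMap := by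
      refine b.ext fun i => ?_
      show ((Y (b i) : ℤ) : ℚ) = (k : ℤ) • h (b i)
      rw [Module.Basis.constr_basis, ha i]
      simp
    have h5 := LinearMap.congr_fun h4 x
    have h6 : ((Y x : ℤ) : ℚ) = (k : ℤ) • h x := h5
    rw [h6]
    simp
  refine ⟨k, hk, Y, fun x => ?_⟩
  have h7 : h x.1 = ((y x : ℤ) : ℚ) := DFunLike.congr_fun hh x
  have h8 := h3 x.1
  rw [h7] at h8
  exact_mod_cast h8

/-- restriction of a functional -/
noncomputable def res (L' : AddSubgroup L) (y : Module.Dual ℤ L) : Module.Dual ℤ ↥L' :=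
  y ∘ₗ L'.subtype.toIntLinearMap

theorem res_apply (L' : AddSubgroup L) (y : Module.Dual ℤ L) (x : ↥L') : res L' y x = y x.1 := rfl

/-- the cone of the subgroup -/
abbrev cone' (P : AddSubmonoid L) (L' : AddSubgroup L) : AddSubmonoid ↥L' := P.comap L'.subtype

theorem res_mem {L' : AddSubgroup L} {y : Module.Dual ℤ L} (hy : y ∈ dq P) :
    res L' y ∈ dq (cone' P L') := fun x hx => hy x.1 hx

theorem CD.restr [Module.Free ℤ L] [Module.Finite ℤ L] (h : CD P u c) (L' : AddSubgroup L)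
    (hu : u ∈ L') : CD (cone' P L') (⟨u, hu⟩ : ↥L') (res L' c) where
  hu := h.hu
  hc := res_mem h.hc
  ou := by
    intro x
    obtain ⟨m, hm⟩ := h.ou x.1
    exact ⟨m, hm⟩
  oc := by
    intro y
    obtain ⟨k, hk, Y, hY⟩ := exists_extend L' y
    obtain ⟨m, hm⟩ := h.oc Y
    refine ⟨m, fun x hx => ?_⟩
    have h1 := hm x.1 hx
    have h2 : (0 : ℤ) ≤ c x.1 := h.hc x.1 hx
    have h3 : (Y + m • c) x.1 = k * y x + m * c x.1 := by
      rw [LinearMap.add_apply, hY, LinearMap.smul_apply, nsmul_eq_mul]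
    rw [h3] at h1
    have h4 : (y + m • res L' c) x = y x + m * c x.1 := by
      rw [LinearMap.add_apply, LinearMap.smul_apply, nsmul_eq_mul]
      rfl
    rw [h4]
    have h5 : (0 : ℤ) ≤ k * (y x + m * c x.1) := by
      have h6 : (1 : ℤ) ≤ k := by exact_mod_cast hk
      have h7 : (0 : ℤ) ≤ (k - 1) * (m * c x.1) :=
        mul_nonneg (by omega) (mul_nonneg (Nat.cast_nonneg _) h2)
      nlinarith
    have h6 : (0 : ℤ) < k := by exact_mod_cast hk
    exact nonneg_of_mul_nonneg_right h5 h6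
  pos := h.pos

/-- restriction of a family of pairs to a subgroup which contains the vectors -/
noncomputable def restr {ι : Type} (L' : AddSubgroup L) (z : ι → Pr P)
    (hz : ∀ i, ((z i).1 : L) ∈ L') : ι → Pr (cone' P L') := fun i =>
  (⟨⟨(z i).1.1, hz i⟩, (z i).1.2⟩, ⟨res L' (z i).2.1, res_mem (z i).2.2⟩)

theorem mt_restr {ι : Type} (L' : AddSubgroup L) (z : ι → Pr P) (hz : ∀ i, ((z i).1 : L) ∈ L') :
    mt (restr L' z hz) = mt z := rfl

theorem ph_restr {ι : Type} [Fintype ι] (L' : AddSubgroup L) (z : ι → Pr P)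
    (hz : ∀ i, ((z i).1 : L) ∈ L') (x : L') : (ph (restr L' z hz) x).1 = ph z x.1 := by
  rw [ph_apply, ph_apply, AddSubgroup.val_finsetSum]
  rfl

theorem ph_restr_pow {ι : Type} [Fintype ι] (L' : AddSubgroup L) (z : ι → Pr P)
    (hz : ∀ i, ((z i).1 : L) ∈ L') (s : ℕ) (x : L') :
    (((ph (restr L' z hz)) ^ s) x).1 = ((ph z) ^ s) x.1 := by
  induction s generalizing x with
  | zero => rfl
  | succ s ih =>
    rw [pow_succ, pow_succ, Module.End.mul_apply, Module.End.mul_apply, ih, ph_restr]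

theorem cl_unit (x : P) (y : dq P) : cl (fun _ : Unit => ((x, y) : Pr P)) = tm x y := by
  unfold cl
  rw [Fintype.sum_unique]

theorem ph_sum {ι κ : Type} [Fintype ι] [Fintype κ] (z : ι → Pr P) (w : κ → Pr P) :
    ph (Sum.elim z w) = ph z + ph w := by
  unfold ph
  rw [Fintype.sum_sum_type]
  rfl

theorem ph_unit (x : P) (y : dq P) (v : L) :
    ph (fun _ : Unit => ((x, y) : Pr P)) v = y.1 v • x.1 := by
  rw [ph_apply, Fintype.sum_unique]

theorem step [Module.Free ℤ L] [Module.Finite ℤ L] (h : CD P u c) {ι : Type} [Fintype ι]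
    (D : ι → Pr P) (L' : AddSubgroup L) (hu : u ∈ L') (hD : ∀ v, ph D v ∈ L') :
    ∃ (κ : Type) (_ : Fintype κ) (E : κ → Pr P), (∀ k, ((E k).1 : L) ∈ L') ∧ ∃ m : ℕ,
      cl D + m • tm ⟨u, h.hu⟩ ⟨c, h.hc⟩ = cl E ∧ ∀ v, ph E v = ph D v + ((m : ℤ) * c v) • u := by
  classical
  let b := Module.Free.chooseBasis ℤ L
  choose m hm using fun j => h.ou (ph D (b j))
  choose m' hm' using fun j => h.oc (b.coord j)
  choose K hK using fun j => h.ou (-(ph D (b j) + m j • u))
  choose K' hK' using fun j => h.oc (-(b.coord j + m' j • c))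
  let J := Module.Free.ChooseBasisIndex ℤ L
  let E1 : J → Pr P := fun j => (⟨_, hm j⟩, ⟨_, hm' j⟩)
  let E2 : J → Pr P := fun j => (m' j • ⟨_, hK j⟩, ⟨c, h.hc⟩)
  let E3 : J → Pr P := fun j => (⟨u, h.hu⟩, m j • ⟨_, hK' j⟩)
  let k1 : ℕ := ∑ j, m j * m' j
  let k2 : ℕ := ∑ j, (m' j * K j + m j * K' j)
  let Ep := Sum.elim (Sum.elim (Sum.elim E1 E2) E3)
    (fun _ : Unit => ((⟨u, h.hu⟩, k1 • ⟨c, h.hc⟩) : Pr P))
  let Dp := Sum.elim D (fun _ : Unit => ((⟨u, h.hu⟩, k2 • ⟨c, h.hc⟩) : Pr P))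
  have hphi : ∀ v, ph D v = ∑ j, b.coord j v • ph D (b j) := by
    intro v
    conv_lhs => rw [← b.sum_repr v]
    rw [map_sum]
    refine Finset.sum_congr rfl fun j _ => ?_
    rw [map_smul]
    rfl
  have hE : ph Dp = ph Ep := by
    ext v
    show ph (Sum.elim _ _) v = ph (Sum.elim _ _) v
    rw [ph_sum, ph_sum, ph_sum, ph_sum]
    simp only [LinearMap.add_apply]
    rw [ph_unit, ph_unit, ph_apply E1, ph_apply E2, ph_apply E3, hphi v, ← Finset.sum_add_distrib,
      ← Finset.sum_add_distrib]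
    show _ + ((k2 • c) v) • u = _ + ((k1 • c) v) • u
    have e1 : ((k2 • c) v) • u = ∑ j, (((m' j * K j + m j * K' j : ℕ) : ℤ) * c v) • u := by
      rw [LinearMap.smul_apply, nsmul_eq_mul, ← Finset.sum_smul, ← Finset.sum_mul]
      congr 2
      simp only [k2]
      push_cast
      rfl
    have e2 : ((k1 • c) v) • u = ∑ j, (((m j * m' j : ℕ) : ℤ) * c v) • u := by
      rw [LinearMap.smul_apply, nsmul_eq_mul, ← Finset.sum_smul, ← Finset.sum_mul]
      congr 2
      simp only [k1]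
      push_cast
      rfl
    rw [e1, e2, ← Finset.sum_add_distrib, ← Finset.sum_add_distrib]
    refine Finset.sum_congr rfl fun j _ => ?_
    show b.coord j v • ph D (b j) + _ =
      ((b.coord j + m' j • c) v) • (ph D (b j) + m j • u) +
      (c v) • ((m' j • (⟨_, hK j⟩ : P) : P) : L) +
      ((m j • (⟨_, hK' j⟩ : dq P) : dq P) : Module.Dual ℤ L) v • u + _
    rw [AddSubmonoidClass.coe_nsmul, AddSubmonoidClass.coe_nsmul]
    simp only [LinearMap.add_apply, LinearMap.smul_apply, LinearMap.neg_apply, nsmul_eq_mul]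
    push_cast
    module
  obtain ⟨M, hM⟩ := stab h Dp Ep hE
  refine ⟨_, inferInstance, Sum.elim Ep (fun _ : Unit => ((⟨u, h.hu⟩, M • ⟨c, h.hc⟩) : Pr P)),
    ?_, k2 + M, ?_, ?_⟩
  · rintro ((((j | j) | j) | j) | j)
    · show ph D (b j) + m j • u ∈ L'
      exact L'.add_mem (hD _) (L'.nsmul_mem hu _)
    · show ((m' j • (⟨_, hK j⟩ : P) : P) : L) ∈ L'
      rw [AddSubmonoidClass.coe_nsmul]
      exact L'.nsmul_mem (L'.add_mem (L'.neg_mem (L'.add_mem (hD _) (L'.nsmul_mem hu _)))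
        (L'.nsmul_mem hu _)) _
    · exact hu
    · exact hu
    · exact hu
  · rw [cl_sum, cl_unit, tm_nsmul_right, ← hM]
    show _ = cl (Sum.elim _ _) + _
    rw [cl_sum, cl_unit, tm_nsmul_right, add_smul, add_assoc]
  · intro v
    rw [ph_sum, ← hE]
    show (ph (Sum.elim _ _) + _) v = _
    rw [ph_sum]
    simp only [LinearMap.add_apply]
    rw [ph_unit, ph_unit]
    show ph D v + (k2 • c) v • u + (M • c) v • u = _
    simp only [LinearMap.smul_apply, nsmul_eq_mul]
    push_cast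
    module

end Pool.Agent.WFS
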