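import Pool.Agent.WFS.Bal4

/-! # Reduced pairs -/

set_option autoImplicit false
set_option linter.unusedSectionVars false

namespace Pool.Agent.WFS

/-- **the balanced case**, uniformly in the functionals -/
theorem bal {r k : ℕ} (hr : 1 ≤ r) (hk : 1 ≤ k) (H : ℕ) (hH : 1 ≤ H) :
    ∃ C : ℕ, ∀ (x y : Fin k → Fin r → ℤ) (ρ f : Fin r → ℤ) (X Y : ℕ)
      (A : Matrix (Fin k) (Fin k) ℕ), 1 ≤ X → 1 ≤ Y →
      (∀ i j, (A i j : ℤ) = ∑ a, y i a * x j a) → (∀ j a, |x j a| ≤ X) →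
      (∀ i a, |y i a| ≤ Y) → (∀ i j, X * Y ≤ H * A i j) →
      (∀ a b, ∑ j, x j a * y j b = ρ a * f b) → (∀ j, 0 < ∑ a, f a * x j a) →
      (∀ i, 0 < ∑ a, y i a * ρ a) → C ≤ X * Y → Sse (toFin A) ⟨1, fun _ _ => A.trace⟩ := by
  choose Cf hCf using bal_theta (r := r) (k := k) hr hk H hH
  have hfin : (Set.Icc (fun _ _ => -((H * (3 * r + 1) : ℕ) : ℤ) : Fin k → Fin r → ℤ)
      (fun _ _ => ((H * (3 * r + 1) : ℕ) : ℤ))).Finite := Set.finite_Icc _ _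
  obtain ⟨C, hC⟩ := (hfin.image Cf).bddAbove
  refine ⟨C, fun x y ρ f X Y A hX hY hA hx hy hXY hφ hf hρ hCX => ?_⟩
  refine hCf (fun i a => ((H * (3 * r + 1) : ℕ) : ℤ) * y i a / Y) x y ρ f X Y A hX hY
    (fun _ _ => rfl) hA hx hy hXY hφ hf hρ (le_trans (hC ⟨_, ?_, rfl⟩) hCX)
  have hY' : (0 : ℤ) < Y := by exact_mod_cast hY
  have hD' : (0 : ℤ) ≤ ((H * (3 * r + 1) : ℕ) : ℤ) := Nat.cast_nonneg _
  refine ⟨fun i a => ?_, fun i a => ?_⟩
  · have h1 := (abs_le.1 (hy i a)).1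
    refine Int.le_ediv_of_mul_le hY' ?_
    nlinarith [mul_le_mul_of_nonneg_left h1 hD']
  · have h1 := (abs_le.1 (hy i a)).2
    refine Int.ediv_le_of_le_mul hY' ?_
    exact mul_le_mul_of_nonneg_left h1 hD'

/-- sup norm -/
def nrm {k : ℕ} (v : Fin k → ℤ) : ℕ := Finset.univ.sup fun i => (v i).natAbs

theorem le_nrm {k : ℕ} (v : Fin k → ℤ) (i : Fin k) : |v i| ≤ nrm v := by
  have h1 : (v i).natAbs ≤ nrm v := Finset.le_sup (f := fun i => (v i).natAbs) (Finset.mem_univ i)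
  rw [Int.abs_eq_natAbs]
  exact_mod_cast h1

theorem exists_nrm {k : ℕ} (hk : 1 ≤ k) (v : Fin k → ℤ) : ∃ i, |v i| = nrm v := by
  have : Nonempty (Fin k) := ⟨⟨0, hk⟩⟩
  obtain ⟨i, -, hi⟩ := Finset.exists_mem_eq_sup (Finset.univ : Finset (Fin k))
    Finset.univ_nonempty fun i => (v i).natAbs
  refine ⟨i, ?_⟩
  rw [Int.abs_eq_natAbs]
  exact_mod_cast hi.symm

/-- the matrix is a product through `ℤ²` with the vectors `ℓ`, `m` -/
def Fac {k : ℕ} (A : Matrix (Fin k) (Fin k) ℕ) (ℓ m s p : Fin k → ℤ) : Prop :=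
  ∀ i j, (A i j : ℤ) = ℓ i * s j + m i * p j

theorem Fac.swap {k : ℕ} {A : Matrix (Fin k) (Fin k) ℕ} {ℓ m s p : Fin k → ℤ}
    (h : Fac A ℓ m s p) : Fac A m ℓ p s := fun i j => by
  rw [h i j]
  ring

theorem Fac.shear {k : ℕ} {A : Matrix (Fin k) (Fin k) ℕ} {ℓ m s p : Fin k → ℤ}
    (h : Fac A ℓ m s p) (q : ℤ) :
    Fac A ℓ (fun i => m i + q * ℓ i) (fun j => s j - q * p j) p := fun i j => by
  rw [h i j]
  ring

theorem exists_red {k : ℕ} {A : Matrix (Fin k) (Fin k) ℕ}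
    (h : ∃ ℓ m s p, Fac A ℓ m s p) : ∃ ℓ m s p, Fac A ℓ m s p ∧ nrm ℓ ≤ nrm m ∧
      ∀ q : ℤ, nrm m ≤ nrm fun i => m i + q * ℓ i := by
  classical
  have h0 : ∃ N, ∃ ℓ m s p, Fac A ℓ m s p ∧ nrm ℓ + nrm m = N := by
    obtain ⟨ℓ, m, s, p, h1⟩ := h
    exact ⟨_, ℓ, m, s, p, h1, rfl⟩
  obtain ⟨ℓ, m, s, p, h1, h2⟩ := Nat.find_spec h0
  have hmin : ∀ ℓ m s p, Fac A ℓ m s p → Nat.find h0 ≤ nrm ℓ + nrm m := fun ℓ m s p h3 =>
    Nat.find_min' h0 ⟨ℓ, m, s, p, h3, rfl⟩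
  rcases le_total (nrm ℓ) (nrm m) with h3 | h3
  · refine ⟨ℓ, m, s, p, h1, h3, fun q => ?_⟩
    have h4 := hmin _ _ _ _ (h1.shear q)
    omega
  · refine ⟨m, ℓ, p, s, h1.swap, h3, fun q => ?_⟩
    have h4 := hmin _ _ _ _ (h1.swap.shear q)
    omega

theorem near_div (s p : ℤ) (hp : p ≠ 0) : ∃ q : ℤ, 2 * |s - q * p| ≤ |p| := by
  have h1 := Int.mul_ediv_add_emod s p
  have h2 := Int.emod_nonneg s hp
  have h3 := Int.emod_lt_abs s hp
  rcases le_or_gt (2 * (s % p)) |p| with h | h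
  · refine ⟨s / p, ?_⟩
    have h4 : s - s / p * p = s % p := by linarith
    rw [h4, abs_of_nonneg h2]
    exact h
  · refine ⟨s / p + p.sign, ?_⟩
    have h4 : s - (s / p + p.sign) * p = s % p - |p| := by
      have h5 : p.sign * p = |p| := by
        rw [Int.abs_eq_natAbs]
        exact Int.sign_mul_self p
      have h6 : (s / p + p.sign) * p = p * (s / p) + p.sign * p := by ring
      rw [h6, h5]
      linarith
    rw [h4, abs_of_neg (by linarith)]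
    linarith

theorem pbound {k B : ℕ} (hk : 1 ≤ k) {A : Matrix (Fin k) (Fin k) ℕ} {ℓ m s p : Fin k → ℤ}
    (h : Fac A ℓ m s p) (hlm : nrm ℓ ≤ nrm m) (hred : ∀ q : ℤ, nrm m ≤ nrm fun i => m i + q * ℓ i)
    (hB : ∀ i j, A i j ≤ B) (j : Fin k) : |p j| * nrm m ≤ 2 * (B : ℤ) := by
  by_cases hp : p j = 0
  · rw [hp, abs_zero, zero_mul]
    positivity
  obtain ⟨q, hq⟩ := near_div (s j) (p j) hp
  obtain ⟨i, hi⟩ := exists_nrm hk fun i => m i + q * ℓ i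
  have h1 : (nrm m : ℤ) ≤ |m i + q * ℓ i| := by
    rw [hi]
    exact_mod_cast hred q
  have h2 : p j * (m i + q * ℓ i) = A i j - (s j - q * p j) * ℓ i := by
    rw [h i j]
    ring
  have h3 : |p j| * |m i + q * ℓ i| ≤ B + |s j - q * p j| * |ℓ i| := by
    rw [← abs_mul, h2]
    refine (abs_sub _ _).trans ?_
    rw [abs_mul, Nat.abs_cast]
    have h4 : (A i j : ℤ) ≤ B := by exact_mod_cast hB i j
    linarith
  have h4 := mul_le_mul_of_nonneg_left h1 (abs_nonneg (p j))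
  have h5 : (2 * |s j - q * p j|) * |ℓ i| ≤ |p j| * nrm m := by
    have h6 : |ℓ i| ≤ nrm m := (le_nrm ℓ i).trans (by exact_mod_cast hlm)
    exact mul_le_mul hq h6 (abs_nonneg _) (abs_nonneg _)
  linarith

theorem sbound {k B : ℕ} (hk : 1 ≤ k) {A : Matrix (Fin k) (Fin k) ℕ} {ℓ m s p : Fin k → ℤ}
    (h : Fac A ℓ m s p) (hlm : nrm ℓ ≤ nrm m) (hred : ∀ q : ℤ, nrm m ≤ nrm fun i => m i + q * ℓ i)
    (hB : ∀ i j, A i j ≤ B) (j : Fin k) : |s j| * nrm ℓ ≤ 3 * (B : ℤ) := by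
  obtain ⟨i, hi⟩ := exists_nrm hk ℓ
  have h1 := pbound hk h hlm hred hB j
  have h2 : s j * ℓ i = A i j - p j * m i := by
    rw [h i j]
    ring
  have h3 : |s j| * |ℓ i| ≤ B + |p j| * |m i| := by
    rw [← abs_mul, h2]
    refine (abs_sub _ _).trans ?_
    rw [abs_mul, Nat.abs_cast]
    have h4 : (A i j : ℤ) ≤ B := by exact_mod_cast hB i j
    linarith
  have h4 := mul_le_mul_of_nonneg_left (le_nrm m i) (abs_nonneg (p j))
  rw [hi] at h3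
  linarith

end Pool.Agent.WFS
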