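import Pool.Agent.WFS.Two1

/-! # Matrices which factor through `ℤ²` -/

set_option autoImplicit false
set_option linter.unusedSectionVars false

namespace Pool.Agent.WFS

theorem bez (a b c d : ℤ) (h : a * d = b * c) :
    ∃ r0 r1 f0 f1 : ℤ, a = r0 * f0 ∧ b = r0 * f1 ∧ c = r1 * f0 ∧ d = r1 * f1 := by
  rcases Nat.eq_zero_or_pos (Int.gcd a b) with hg | hg
  · rw [Int.gcd_eq_zero_iff] at hg
    obtain ⟨ha, hb⟩ := hg
    exact ⟨0, 1, c, d, by rw [ha]; ring, by rw [hb]; ring, by ring, by ring⟩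
  · obtain ⟨f0, f1, h1, h2, h3⟩ := Int.exists_gcd_one hg
    obtain ⟨u, v, huv⟩ := Int.isCoprime_iff_gcd_eq_one.2 h1
    have hg' : ((Int.gcd a b : ℕ) : ℤ) ≠ 0 := by exact_mod_cast hg.ne'
    generalize ((Int.gcd a b : ℕ) : ℤ) = g at h2 h3 hg'
    have h4 : f0 * d = f1 * c := by
      have h5 : g * (f0 * d) = g * (f1 * c) := by
        rw [h2, h3] at h
        linarith
      exact mul_left_cancel₀ hg' h5
    refine ⟨g, u * c + v * d, f0, f1, by rw [h2]; ring, by rw [h3]; ring, ?_, ?_⟩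
    · linear_combination (-c) * huv - v * h4
    · linear_combination (-d) * huv + u * h4

theorem mul_pow_mul {k : ℕ} (X : Matrix (Fin 2) (Fin k) ℤ) (Y : Matrix (Fin k) (Fin 2) ℤ)
    (n : ℕ) : (X * Y) ^ (n + 1) = X * (Y * X) ^ n * Y := by
  induction n with
  | zero => simp
  | succ n ih =>
    rw [pow_succ, ih, pow_succ (Y * X)]
    simp only [Matrix.mul_assoc]

theorem rank_one {k N : ℕ} {A : Matrix (Fin k) (Fin k) ℕ} {ℓ m s p : Fin k → ℤ}
    (h : Fac A ℓ m s p) (R S : Fin k → ℤ) (hN : ∀ i j, ((A ^ N) i j : ℤ) = R i * S j) :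
    ∃ r0 r1 f0 f1 : ℤ, (∑ j, s j * ℓ j = r0 * f0) ∧ (∑ j, s j * m j = r0 * f1) ∧
      (∑ j, p j * ℓ j = r1 * f0) ∧ ∑ j, p j * m j = r1 * f1 := by
  let X : Matrix (Fin 2) (Fin k) ℤ := fun a j => ![s j, p j] a
  let Y : Matrix (Fin k) (Fin 2) ℤ := fun i a => ![ℓ i, m i] a
  have hYX : Y * X = A.map (Nat.castRingHom ℤ) := by
    ext i j
    rw [Matrix.mul_apply, Fin.sum_univ_two]
    show ℓ i * s j + m i * p j = (A i j : ℤ)
    rw [h i j]
  have hpow : (Y * X) ^ N = Matrix.of fun i j => R i * S j := by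
    rw [hYX, ← Matrix.map_pow]
    ext i j
    exact hN i j
  have h1 : (X * Y).det ^ (N + 1) = 0 := by
    rw [← Matrix.det_pow, mul_pow_mul, hpow]
    have h2 : ∀ a b, (X * (Matrix.of fun i j => R i * S j) * Y) a b =
        (∑ i, X a i * R i) * ∑ j, S j * Y j b := by
      intro a b
      rw [Matrix.mul_apply, Finset.sum_mul_sum, Finset.sum_comm]
      refine Finset.sum_congr rfl fun j _ => ?_
      rw [Matrix.mul_apply, Finset.sum_mul]
      refine Finset.sum_congr rfl fun i _ => ?_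
      rw [Matrix.of_apply]
      ring
    rw [Matrix.det_fin_two, h2, h2, h2, h2]
    ring
  have h3 : (X * Y).det = 0 := pow_eq_zero_iff (by omega) |>.1 h1
  have e : ∀ a b, (X * Y) a b = ∑ j, X a j * Y j b := fun a b => Matrix.mul_apply
  rw [Matrix.det_fin_two, e, e, e, e] at h3
  obtain ⟨r0, r1, f0, f1, h4, h5, h6, h7⟩ := bez (∑ j, s j * ℓ j) (∑ j, s j * m j)
    (∑ j, p j * ℓ j) (∑ j, p j * m j) (by
      have h8 : (∑ j, s j * ℓ j) * (∑ j, p j * m j) - (∑ j, s j * m j) * ∑ j, p j * ℓ j = 0 := h3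
      linarith)
  exact ⟨r0, r1, f0, f1, h4, h5, h6, h7⟩

/-- signs -/
theorem rank_one_pos {k N : ℕ} (hk : 1 ≤ k) {A : Matrix (Fin k) (Fin k) ℕ}
    {ℓ m s p : Fin k → ℤ} (h : Fac A ℓ m s p) (hpos : ∀ i j, 0 < A i j) (R S : Fin k → ℤ)
    (hN : ∀ i j, ((A ^ N) i j : ℤ) = R i * S j) :
    ∃ r0 r1 f0 f1 : ℤ, (∑ j, s j * ℓ j = r0 * f0) ∧ (∑ j, s j * m j = r0 * f1) ∧
      (∑ j, p j * ℓ j = r1 * f0) ∧ (∑ j, p j * m j = r1 * f1) ∧
      (∀ j, 0 < f0 * s j + f1 * p j) ∧ ∀ i, 0 < ℓ i * r0 + m i * r1 := by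
  obtain ⟨r0, r1, f0, f1, h1, h2, h3, h4⟩ := rank_one h R S hN
  have key : ∀ r0 r1 f0 f1 : ℤ, (∑ j, s j * ℓ j = r0 * f0) → (∑ j, s j * m j = r0 * f1) →
      (∑ j, p j * ℓ j = r1 * f0) → (∑ j, p j * m j = r1 * f1) → ∀ i j,
      0 < (ℓ i * r0 + m i * r1) * (f0 * s j + f1 * p j) := by
    intro r0 r1 f0 f1 h1 h2 h3 h4 i j
    rw [prod_eq s p ℓ m A h r0 r1 f0 f1 h1 h2 h3 h4 i j]
    refine Finset.sum_pos (fun l _ => ?_) ⟨⟨0, hk⟩, Finset.mem_univ _⟩
    exact mul_pos (by exact_mod_cast hpos i l) (by exact_mod_cast hpos l j)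
  have fin : ∀ r0 r1 f0 f1 : ℤ, (∀ i j, 0 < (ℓ i * r0 + m i * r1) * (f0 * s j + f1 * p j)) →
      0 < f0 * s ⟨0, hk⟩ + f1 * p ⟨0, hk⟩ →
      (∀ j, 0 < f0 * s j + f1 * p j) ∧ ∀ i, 0 < ℓ i * r0 + m i * r1 := by
    intro r0 r1 f0 f1 h5 h6
    have h7 : ∀ i, 0 < ℓ i * r0 + m i * r1 := fun i => pos_of_mul_pos_left (h5 i ⟨0, hk⟩) h6.le
    exact ⟨fun j => pos_of_mul_pos_right (h5 ⟨0, hk⟩ j) (h7 _).le, h7⟩
  rcases lt_trichotomy (f0 * s ⟨0, hk⟩ + f1 * p ⟨0, hk⟩) 0 with h5 | h5 | h5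
  · have e1 : ∑ j, s j * ℓ j = -r0 * -f0 := by rw [h1]; ring
    have e2 : ∑ j, s j * m j = -r0 * -f1 := by rw [h2]; ring
    have e3 : ∑ j, p j * ℓ j = -r1 * -f0 := by rw [h3]; ring
    have e4 : ∑ j, p j * m j = -r1 * -f1 := by rw [h4]; ring
    obtain ⟨h6, h7⟩ := fin _ _ _ _ (key _ _ _ _ e1 e2 e3 e4) (by linarith)
    exact ⟨-r0, -r1, -f0, -f1, e1, e2, e3, e4, h6, h7⟩
  · exfalso
    have h6 := key _ _ _ _ h1 h2 h3 h4 ⟨0, hk⟩ ⟨0, hk⟩
    rw [h5, mul_zero] at h6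
    exact lt_irrefl _ h6
  · obtain ⟨h6, h7⟩ := fin _ _ _ _ (key _ _ _ _ h1 h2 h3 h4) h5
    exact ⟨r0, r1, f0, f1, h1, h2, h3, h4, h6, h7⟩

theorem two {k : ℕ} (hk : 1 ≤ k) (E : ℕ) (hE : 1 ≤ E) : ∃ n0 : ℕ, ∀ n ≥ n0,
    ∀ A : Matrix (Fin k) (Fin k) ℕ, (∀ i j, n ≤ E * A i j) → (∀ i j, A i j ≤ n * E) →
      (∃ ℓ m s p, Fac A ℓ m s p) →
      (∃ N : ℕ, ∃ R S : Fin k → ℤ, ∀ i j, ((A ^ N) i j : ℤ) = R i * S j) →
      Sse (toFin A) ⟨1, fun _ _ => A.trace⟩ := by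
  classical
  obtain ⟨C, hC⟩ := bal (r := 2) (k := k) (by omega) hk (6 * E ^ 4)
    (Nat.one_le_iff_ne_zero.2 (by positivity))
  refine ⟨2 * E * C + 1, fun n hn A hl hu hf hN => ?_⟩
  obtain ⟨ℓ, m, s, p, h, hlm, hred⟩ := exists_red hf
  obtain ⟨N, R, S, hN⟩ := hN
  have hpos : ∀ i j, 0 < A i j := by
    intro i j
    have h1 := hl i j
    by_contra hcon
    have h2 : A i j = 0 := by omega
    rw [h2, mul_zero] at h1
    omega
  obtain ⟨r0, r1, f0, f1, e1, e2, e3, e4, hfx, hyr⟩ := rank_one_pos hk h hpos R S hN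
  have hp : ∀ j, |p j| * nrm m ≤ 2 * ((n * E : ℕ) : ℤ) := pbound hk h hlm hred hu
  have hs : ∀ j, |s j| * nrm ℓ ≤ 3 * ((n * E : ℕ) : ℤ) := sbound hk h hlm hred hu
  have hE' : (0 : ℤ) < E := by exact_mod_cast hE
  rcases le_or_gt (2 * E ^ 2 * nrm ℓ) (nrm m) with hc | hc
  · -- the skew case
    refine skew hk s p ℓ m A hpos h (fun i j => ?_) r0 r1 f0 f1 e1 e2 e3 e4 hfx
    have h1 : |ℓ i * p j| ≤ nrm ℓ * |p j| := by
      rw [abs_mul]
      exact mul_le_mul_of_nonneg_right (le_nrm ℓ i) (abs_nonneg _)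
    have h2 : ((2 * E ^ 2 * nrm ℓ : ℕ) : ℤ) * |p j| ≤ nrm m * |p j| :=
      mul_le_mul_of_nonneg_right (by exact_mod_cast hc) (abs_nonneg _)
    have h3 := hp j
    have h4 : (n : ℤ) ≤ E * A i j := by exact_mod_cast hl i j
    push_cast at h2 h3
    have h5 : (2 * E ^ 2 : ℤ) * (nrm ℓ * |p j|) ≤ 2 * E ^ 2 * A i j := by
      nlinarith [mul_le_mul_of_nonneg_left h4 hE'.le]
    have h6 := le_of_mul_le_mul_left h5 (by positivity)
    exact h1.trans h6
  · -- the balanced case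
    have hℓ1 : 1 ≤ nrm ℓ := by
      by_contra hcon
      have h1 : nrm ℓ = 0 := by omega
      rw [h1, mul_zero] at hc
      omega
    obtain ⟨X, hX⟩ : ∃ X : ℕ, X = max (nrm s) (nrm p) := ⟨_, rfl⟩
    have hsX : ∀ j, |s j| ≤ X := fun j => (le_nrm s j).trans (by
      rw [hX]
      exact_mod_cast le_max_left _ _)
    have hpX : ∀ j, |p j| ≤ X := fun j => (le_nrm p j).trans (by
      rw [hX]
      exact_mod_cast le_max_right _ _)
    have hX3 : X * nrm ℓ ≤ 3 * (n * E) := by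
      obtain ⟨i, hi⟩ := exists_nrm hk s
      obtain ⟨i', hi'⟩ := exists_nrm hk p
      have h1 := hs i
      have h2 := hp i'
      rw [hi] at h1
      rw [hi'] at h2
      have h1' : nrm s * nrm ℓ ≤ 3 * (n * E) := by exact_mod_cast h1
      have h2' : nrm p * nrm m ≤ 2 * (n * E) := by exact_mod_cast h2
      have h3 : nrm p * nrm ℓ ≤ nrm p * nrm m := Nat.mul_le_mul_left _ hlm
      rw [hX]
      rcases le_total (nrm s) (nrm p) with h4 | h4
      · rw [max_eq_right h4]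
        omega
      · rw [max_eq_left h4]
        exact h1'
    have hAXY : ∀ i j, A i j ≤ 2 * (X * nrm m) := by
      intro i j
      have h1 : |ℓ i * s j| ≤ nrm m * X := by
        rw [abs_mul]
        exact mul_le_mul ((le_nrm ℓ i).trans (by exact_mod_cast hlm)) (hsX j) (abs_nonneg _)
          (Nat.cast_nonneg _)
      have h2 : |m i * p j| ≤ nrm m * X := by
        rw [abs_mul]
        exact mul_le_mul (le_nrm m i) (hpX j) (abs_nonneg _) (Nat.cast_nonneg _)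
      have h3 : (A i j : ℤ) ≤ 2 * (X * nrm m) := by
        rw [h i j]
        have h4 := le_abs_self (ℓ i * s j)
        have h5 := le_abs_self (m i * p j)
        linarith
      exact_mod_cast h3
    have i0 : Fin k := ⟨0, hk⟩
    have hX1 : 1 ≤ X := by
      by_contra hcon
      have h1 : X = 0 := by omega
      have h2 := hAXY i0 i0
      have h3 := hpos i0 i0
      rw [h1, zero_mul, mul_zero] at h2
      omega
    refine hC (fun j => ![s j, p j]) (fun i => ![ℓ i, m i]) ![r0, r1] ![f0, f1] X (nrm m) A hX1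
      (by omega) (fun i j => ?_) (fun j a => ?_) (fun i a => ?_) (fun i j => ?_) (fun a b => ?_)
      (fun j => ?_) (fun i => ?_) ?_
    · rw [Fin.sum_univ_two]
      exact h i j
    · fin_cases a
      · exact hsX j
      · exact hpX j
    · fin_cases a
      · exact (le_nrm ℓ i).trans (by exact_mod_cast hlm)
      · exact le_nrm m i
    · have h1 : X * nrm m ≤ X * (2 * E ^ 2 * nrm ℓ) := Nat.mul_le_mul_left _ hc.le
      have h2 : X * (2 * E ^ 2 * nrm ℓ) = 2 * E ^ 2 * (X * nrm ℓ) := by ring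
      have h3 : 2 * E ^ 2 * (X * nrm ℓ) ≤ 2 * E ^ 2 * (3 * (n * E)) := Nat.mul_le_mul_left _ hX3
      have h4 : 2 * E ^ 2 * (3 * (n * E)) ≤ 2 * E ^ 2 * (3 * (E * A i j * E)) :=
        Nat.mul_le_mul_left _ (Nat.mul_le_mul_left _ (Nat.mul_le_mul_right _ (hl i j)))
      have h5 : 2 * E ^ 2 * (3 * (E * A i j * E)) = 6 * E ^ 4 * A i j := by ring
      omega
    · fin_cases a <;> fin_cases b
      · exact e1
      · exact e2
      · exact e3
      · exact e4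
    · rw [Fin.sum_univ_two]
      exact hfx j
    · rw [Fin.sum_univ_two]
      exact hyr i
    · have h1 := hl i0 i0
      have h2 := Nat.mul_le_mul_left E (hAXY i0 i0)
      have h3 : E * (2 * (X * nrm m)) = 2 * E * (X * nrm m) := by ring
      have h4 : 2 * E * C < 2 * E * (X * nrm m) := by omega
      exact (Nat.lt_of_mul_lt_mul_left h4).le

end Pool.Agent.WFS
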