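import Pool.Agent.WFS.Setup

/-! # Uniform stabilisation for finitely generated cones -/

set_option autoImplicit false
set_option linter.unusedSectionVars false

namespace Pool.Agent.WFS

section

variable {L : Type} [AddCommGroup L] {P : AddSubmonoid L} {u : L} {c : Module.Dual ℤ L}

/-- the class of a combination of generators -/
def clf {J : Type} [Fintype J] (p : J → P) (q : J → dq P) : (J → ℕ) →+ Tm P where
  toFun n := ∑ j, n j • tm (p j) (q j)
  map_zero' := by simp
  map_add' := by
    intro n n'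
    simp only [Pi.add_apply, add_smul, Finset.sum_add_distrib]

/-- the endomorphism of a combination of generators -/
def phf {J : Type} [Fintype J] (p : J → P) (q : J → dq P) : (J → ℕ) →+ (L →ₗ[ℤ] L) where
  toFun n := ∑ j, n j • (q j).1.smulRight (p j).1
  map_zero' := by simp
  map_add' := by
    intro n n'
    simp only [Pi.add_apply, add_smul, Finset.sum_add_distrib]

theorem clf_eq {J : Type} [Fintype J] (p : J → P) (q : J → dq P) (n : J → ℕ) :
    clf p q n = cl (fun j => ((n j • p j, q j) : Pr P)) := by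
  show ∑ j, n j • tm (p j) (q j) = ∑ j, tm (n j • p j) (q j)
  exact Finset.sum_congr rfl fun j _ => (tm_nsmul_left _ _ _).symm

theorem phf_eq {J : Type} [Fintype J] (p : J → P) (q : J → dq P) (n : J → ℕ) :
    phf p q n = ph (fun j => ((n j • p j, q j) : Pr P)) := by
  ext v
  rw [ph_apply]
  show (∑ j, n j • (q j).1.smulRight (p j).1) v = _
  rw [LinearMap.sum_apply]
  refine Finset.sum_congr rfl fun j _ => ?_
  rw [LinearMap.smul_apply, LinearMap.smulRight_apply, AddSubmonoidClass.coe_nsmul, smul_comm]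

theorem clf_phf_closed {J : Type} [Fintype J] (p : J → P) (q : J → dq P) {β : Type}
    (s : Finset β) (t : β → Tm P) (φ : β → (L →ₗ[ℤ] L))
    (h : ∀ b ∈ s, ∃ n, t b = clf p q n ∧ φ b = phf p q n) :
    ∃ n, ∑ b ∈ s, t b = clf p q n ∧ ∑ b ∈ s, φ b = phf p q n := by
  classical
  induction s using Finset.induction_on with
  | empty => exact ⟨0, by simp, by simp⟩
  | insert b s hb ih =>
    obtain ⟨n, hn1, hn2⟩ := ih fun b hb => h b (Finset.mem_insert_of_mem hb)
    obtain ⟨n', hn1', hn2'⟩ := h b (Finset.mem_insert_self _ _)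
    exact ⟨n' + n, by rw [Finset.sum_insert hb, hn1, hn1', map_add],
      by rw [Finset.sum_insert hb, hn2, hn2', map_add]⟩

theorem gen_pair {S : Finset L} (hS : AddSubmonoid.closure (S : Set L) = P)
    {S' : Finset (Module.Dual ℤ L)} (hS' : AddSubmonoid.closure (S' : Set (Module.Dual ℤ L)) = dq P)
    (p : ↥S × ↥S' → P) (hp : ∀ j, (p j).1 = j.1.1) (q : ↥S × ↥S' → dq P)
    (hq : ∀ j, (q j).1 = j.2.1) (x : P) (y : dq P) :
    ∃ n, tm x y = clf p q n ∧ y.1.smulRight x.1 = phf p q n := by
  classical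
  have h1 : ∀ x (_ : x ∈ AddSubmonoid.closure (S : Set L)) (hx : x ∈ P) (y : dq P),
      ∃ n, tm ⟨x, hx⟩ y = clf p q n ∧ y.1.smulRight x = phf p q n := by
    intro x hx
    induction hx using AddSubmonoid.closure_induction with
    | mem x hx =>
      intro hxP
      have h2 : ∀ y (_ : y ∈ AddSubmonoid.closure (S' : Set (Module.Dual ℤ L))) (hy : y ∈ dq P),
          ∃ n, tm ⟨x, hxP⟩ ⟨y, hy⟩ = clf p q n ∧ y.smulRight x = phf p q n := by
        intro y hy
        induction hy using AddSubmonoid.closure_induction with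
        | mem y hy =>
          intro hyP
          let j : ↥S × ↥S' := (⟨x, hx⟩, ⟨y, hy⟩)
          refine ⟨Pi.single j 1, ?_, ?_⟩
          · show _ = ∑ i, (Pi.single j 1 : ↥S × ↥S' → ℕ) i • tm (p i) (q i)
            rw [Finset.sum_eq_single j]
            · rw [Pi.single_eq_same, one_smul]
              congr 1
              · exact Subtype.ext (hp j).symm
              · exact Subtype.ext (hq j).symm
            · intro i _ hi
              rw [Pi.single_eq_of_ne hi, zero_smul]
            · intro h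
              exact absurd (Finset.mem_univ _) h
          · show _ = ∑ i, (Pi.single j 1 : ↥S × ↥S' → ℕ) i • (q i).1.smulRight (p i).1
            rw [Finset.sum_eq_single j]
            · rw [Pi.single_eq_same, one_smul, hp, hq]
            · intro i _ hi
              rw [Pi.single_eq_of_ne hi, zero_smul]
            · intro h
              exact absurd (Finset.mem_univ _) h
        | zero =>
          intro hyP
          refine ⟨0, ?_, ?_⟩
          · rw [map_zero]
            exact tm_zero_right _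
          · rw [map_zero]
            ext v
            simp
        | add y y' hy hy' ih ih' =>
          intro hyP
          obtain ⟨n, hn1, hn2⟩ := ih (hS' ▸ hy)
          obtain ⟨n', hn1', hn2'⟩ := ih' (hS' ▸ hy')
          refine ⟨n + n', ?_, ?_⟩
          · rw [map_add, ← hn1, ← hn1', ← tm_add_right]
            rfl
          · rw [map_add, ← hn2, ← hn2']
            ext v
            simp [add_smul]
      intro y
      exact h2 y.1 (hS'.symm ▸ y.2) y.2
    | zero =>
      intro hxP y
      refine ⟨0, ?_, ?_⟩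
      · rw [map_zero]
        exact tm_zero_left _
      · rw [map_zero]
        ext v
        simp
    | add x x' hx hx' ih ih' =>
      intro hxP y
      obtain ⟨n, hn1, hn2⟩ := ih (hS ▸ hx) y
      obtain ⟨n', hn1', hn2'⟩ := ih' (hS ▸ hx') y
      refine ⟨n + n', ?_, ?_⟩
      · rw [map_add, ← hn1, ← hn1', ← tm_add_left]
        rfl
      · rw [map_add, ← hn2, ← hn2']
        ext v
        simp [smul_add]
  exact h1 x.1 (hS.symm ▸ x.2) x.2 y

theorem uni [Module.Free ℤ L] [Module.Finite ℤ L] (h : CD P u c) (hP : P.FG)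
    (hQ : (dq P).FG) : ∃ m : ℕ, ∀ (ι κ : Type) [Fintype ι] [Fintype κ] (z : ι → Pr P)
      (w : κ → Pr P), ph z = ph w →
      cl z + m • tm ⟨u, h.hu⟩ ⟨c, h.hc⟩ = cl w + m • tm ⟨u, h.hu⟩ ⟨c, h.hc⟩ := by
  classical
  obtain ⟨S, hS⟩ := hP
  obtain ⟨S', hS'⟩ := hQ
  let p : ↥S × ↥S' → P := fun j => ⟨j.1.1, hS ▸ AddSubmonoid.subset_closure j.1.2⟩
  let q : ↥S × ↥S' → dq P := fun j => ⟨j.2.1, hS' ▸ AddSubmonoid.subset_closure j.2.2⟩
  let J := ↥S × ↥S'
  let t : Tm P := tm ⟨u, h.hu⟩ ⟨c, h.hc⟩
  let inlH : (J ⊕ J → ℕ) →+ (J → ℕ) :=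
    { toFun := fun n j => n (Sum.inl j), map_zero' := rfl, map_add' := fun _ _ => rfl }
  let inrH : (J ⊕ J → ℕ) →+ (J → ℕ) :=
    { toFun := fun n j => n (Sum.inr j), map_zero' := rfl, map_add' := fun _ _ => rfl }
  let f1 : (J ⊕ J → ℕ) →+ (L →ₗ[ℤ] L) := (phf p q).comp inlH
  let f2 : (J ⊕ J → ℕ) →+ (L →ₗ[ℤ] L) := (phf p q).comp inrH
  obtain ⟨G, hG⟩ := AddSubmonoid.fg_eqLocusM f1 f2
  have hst : ∀ γ : J ⊕ J → ℕ, ∃ m : ℕ, f1 γ = f2 γ →
      clf p q (inlH γ) + m • t = clf p q (inrH γ) + m • t := by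
    intro γ
    by_cases hγ : f1 γ = f2 γ
    · have h1 : ph (fun j => ((inlH γ j • p j, q j) : Pr P)) =
          ph (fun j => ((inrH γ j • p j, q j) : Pr P)) := by
        rw [← phf_eq, ← phf_eq]
        exact hγ
      obtain ⟨m, hm⟩ := stab h _ _ h1
      rw [← clf_eq, ← clf_eq] at hm
      exact ⟨m, fun _ => hm⟩
    · exact ⟨0, fun h' => absurd h' hγ⟩
  choose m hm using hst
  let m0 : ℕ := G.sup m
  have hadd : ∀ (a b : Tm P) (i j : ℕ), i ≤ j → a + i • t = b + i • t → a + j • t = b + j • t := by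
    intro a b i j hij hab
    obtain ⟨k, rfl⟩ := Nat.exists_eq_add_of_le hij
    rw [add_smul, ← add_assoc, hab, add_assoc]
  have hmem : ∀ γ ∈ AddSubmonoid.closure (G : Set (J ⊕ J → ℕ)),
      clf p q (inlH γ) + m0 • t = clf p q (inrH γ) + m0 • t := by
    intro γ hγ
    induction hγ using AddSubmonoid.closure_induction with
    | mem γ hγ =>
      refine hadd _ _ (m γ) m0 (Finset.le_sup (f := m) hγ) (hm γ ?_)
      have h1 : γ ∈ AddSubmonoid.closure (G : Set (J ⊕ J → ℕ)) := AddSubmonoid.subset_closure hγ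
      rw [hG] at h1
      exact h1
    | zero => simp
    | add γ γ' _ _ ih ih' =>
      rw [map_add, map_add, map_add, map_add]
      calc clf p q (inlH γ) + clf p q (inlH γ') + m0 • t
          = (clf p q (inlH γ) + m0 • t) + clf p q (inlH γ') := by abel
        _ = clf p q (inrH γ) + (clf p q (inlH γ') + m0 • t) := by rw [ih]; abel
        _ = clf p q (inrH γ) + clf p q (inrH γ') + m0 • t := by rw [ih']; abel
  have hfam : ∀ (ι : Type) [Fintype ι] (z : ι → Pr P),
      ∃ n, cl z = clf p q n ∧ ph z = phf p q n := by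
    intro ι _ z
    exact clf_phf_closed p q Finset.univ (fun i => tm (z i).1 (z i).2)
      (fun i => (z i).2.1.smulRight (z i).1.1)
      fun i _ => gen_pair hS hS' p (fun _ => rfl) q (fun _ => rfl) _ _
  refine ⟨m0, fun ι κ _ _ z w hzw => ?_⟩
  obtain ⟨n, hn1, hn2⟩ := hfam ι z
  obtain ⟨n', hn1', hn2'⟩ := hfam κ w
  have h1 := hmem (Sum.elim n n') (by
    rw [hG]
    show phf p q n = phf p q n'
    rw [← hn2, ← hn2', hzw])
  rw [hn1, hn1']
  exact h1

end

end Pool.Agent.WFS
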